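import Pool.Agent.Lib.MP_bea121_gt.TC.Defs3

/-!
# Finite measurable partitions subordinate to charts (MP_bea121_gt)
-/

open MeasureTheory Set Metric Topology Filter
open scoped RealInnerProductSpace Gradient ContDiff Manifold

noncomputable section

namespace Topping

/-- A finite measurable partition of `S` into pieces, each relatively compact in a chart. -/
structure ChartPart (S : Type) [TopologicalSpace S] [ChartedSpace E2 S] [MeasurableSpace S] where
  J : Type
  fJ : Fintype J
  x : J → S
  C : J → Set S
  K : J → Set E2
  meas : ∀ j, MeasurableSet (C j)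
  sub : ∀ j, C j ⊆ (chartAt E2 (x j)).source
  disj : Pairwise (Function.onFun Disjoint C)
  union : ⋃ j, C j = univ
  compact : ∀ j, IsCompact (K j)
  image_sub : ∀ j, chartAt E2 (x j) '' C j ⊆ K j
  K_sub : ∀ j, K j ⊆ (chartAt E2 (x j)).target

variable {S : Type} [TopologicalSpace S] [ChartedSpace E2 S] [MeasurableSpace S]

instance (P : ChartPart S) : Fintype P.J := P.fJ

/-- Total absolute mean curvature computed with a chart partition. -/
def mcInt (P : ChartPart S) (f : S → E3) : ℝ :=
  ∑ j, ∫ z in chartAt E2 (P.x j) '' P.C j, HdF (lp f (P.x j)) z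

/-- The perturbed map `f + |f|² b`. -/
def fpert (b : E3) (f : S → E3) (x : S) : E3 := f x + ‖f x‖ ^ 2 • b

end Topping
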