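import Mathlib
import Pool.Agent.Lib.MP_bea121_gt.TC.Defs4

/-!
# Monge patches: elementary calculus of the height functions (MP_bea121_gt)
-/

open MeasureTheory Set Metric Topology Filter
open scoped RealInnerProductSpace Gradient ContDiff Manifold
noncomputable section
namespace Topping

section Basic
variable {S : Type} [TopologicalSpace S] (M : MongeSurf S)

theorem P_open (i : M.ι) (ρ : ℝ) : IsOpen (M.P i ρ) :=
  (M.e i).isOpen_inter_preimage isOpen_ball

theorem P_mono (i : M.ι) {ρ ρ' : ℝ} (h : ρ ≤ ρ') : M.P i ρ ⊆ M.P i ρ' :=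
  fun _ hx => ⟨hx.1, ball_subset_ball h hx.2⟩

theorem P_cover (x : S) : ∃ i, x ∈ M.P i (M.R i) := by
  obtain ⟨i, h1, h2⟩ := M.cover x
  exact ⟨i, h1, h2⟩

theorem P_symm (i : M.ι) {ρ : ℝ} (hρ : ρ ≤ 5 * M.R i) {z : E2} (hz : z ∈ ball (0 : E2) ρ) :
    (M.e i).symm z ∈ M.P i ρ ∧ M.e i ((M.e i).symm z) = z := by
  have ht : z ∈ (M.e i).target := M.target i (ball_subset_ball hρ hz)
  have e : M.e i ((M.e i).symm z) = z := (M.e i).right_inv ht
  refine ⟨⟨(M.e i).map_target ht, ?_⟩, e⟩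
  rw [mem_preimage, e]
  exact hz

theorem symm_e (i : M.ι) {ρ : ℝ} {x : S} (hx : x ∈ M.P i ρ) :
    (M.e i).symm (M.e i x) = x ∧ M.e i x ∈ ball (0 : E2) ρ :=
  ⟨(M.e i).left_inv hx.1, hx.2⟩

theorem f_symm (i : M.ι) {z : E2} (hz : z ∈ ball (0 : E2) (5 * M.R i)) :
    M.f ((M.e i).symm z) = M.fi i z := M.graph i z hz

theorem f_e (i : M.ι) {x : S} (hx : x ∈ M.P i (5 * M.R i)) : M.f x = M.fi i (M.e i x) := by
  have h := symm_e M i hx
  rw [← f_symm M i h.2, h.1]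

theorem inner_L (i : M.ι) (q : E3) (z : E2) : ⟪q, M.L i z⟫ = ⟪M.pr i q, z⟫ :=
  (ContinuousLinearMap.adjoint_inner_left (M.L i).toContinuousLinearMap z q).symm

theorem pr_L (i : M.ι) (z : E2) (t : ℝ) : M.pr i (M.L i z + t • M.c i) = z ∧ ⟪M.c i, M.L i z + t • M.c i⟫ = t := by
  have hp : ∀ w, ⟪M.c i, M.L i w⟫ = 0 := fun w => by
    rw [real_inner_comm]
    exact M.c_perp i w
  constructor
  · refine ext_inner_right ℝ fun w => ?_
    rw [← inner_L, inner_add_left, inner_smul_left, hp, mul_zero, add_zero,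
      LinearIsometry.inner_map_map]
  · rw [inner_add_right, hp, inner_smul_right, real_inner_self_eq_norm_sq, M.c_norm]
    ring

theorem decomp (i : M.ι) (q : E3) : q = M.L i (M.pr i q) + ⟪M.c i, q⟫ • M.c i := by
  let T : (E2 × ℝ) →ₗ[ℝ] E3 := ((M.L i).toLinearMap.comp (LinearMap.fst ℝ E2 ℝ)) +
    ((LinearMap.toSpanSingleton ℝ E3 (M.c i)).comp (LinearMap.snd ℝ E2 ℝ))
  have hT : ∀ p : E2 × ℝ, T p = M.L i p.1 + p.2 • M.c i := fun p => rfl
  have hinj : Function.Injective T := by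
    intro p p' h
    rw [hT, hT] at h
    have h1 := pr_L M i p.1 p.2
    have h2 := pr_L M i p'.1 p'.2
    rw [h] at h1
    exact Prod.ext (h1.1.symm.trans h2.1) (h1.2.symm.trans h2.2)
  have hdim : Module.finrank ℝ (E2 × ℝ) = Module.finrank ℝ E3 := by
    rw [Module.finrank_prod]
    simp
  have hsurj := (LinearMap.injective_iff_surjective_of_finrank_eq_finrank hdim).1 hinj
  obtain ⟨p, hp⟩ := hsurj q
  rw [hT] at hp
  have h1 := pr_L M i p.1 p.2
  rw [← hp, h1.1, h1.2]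

theorem norm_decomp (i : M.ι) (z : E2) (t : ℝ) : ‖M.L i z + t • M.c i‖ ^ 2 = ‖z‖ ^ 2 + t ^ 2 := by
  rw [norm_add_sq_real, inner_smul_right, M.c_perp, LinearIsometry.norm_map, norm_smul, M.c_norm,
    Real.norm_eq_abs, mul_one, sq_abs]
  ring

theorem Phi_eq (i : M.ι) (z : E2) (y : E3) : M.Phi i z y = M.pr i y + ⟪M.c i, y⟫ • ∇ (M.g i) z :=
  rfl

theorem Phi_add (i : M.ι) (z : E2) (y w : E3) : M.Phi i z (y + w) = M.Phi i z y + M.Phi i z w := by
  unfold MongeSurf.Phi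
  rw [map_add, inner_add_right, add_smul]
  abel

theorem Phi_smul (i : M.ι) (z : E2) (t : ℝ) (y : E3) : M.Phi i z (t • y) = t • M.Phi i z y := by
  unfold MongeSurf.Phi
  rw [map_smul, inner_smul_right, smul_add, mul_smul]

theorem BASIC_norm_sq (i : M.ι) (y : E3) : ‖y‖ ^ 2 = ‖M.pr i y‖ ^ 2 + ⟪M.c i, y⟫ ^ 2 := by
  conv_lhs => rw [decomp M i y]
  exact norm_decomp M i _ _

theorem BASIC_pr_le (i : M.ι) (y : E3) : ‖M.pr i y‖ ≤ ‖y‖ := by
  have h := BASIC_norm_sq M i y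
  exact le_of_sq_le_sq (by nlinarith [sq_nonneg ⟪M.c i, y⟫]) (norm_nonneg y)

theorem BASIC_c_le (i : M.ι) (y : E3) : |⟪M.c i, y⟫| ≤ ‖y‖ := by
  have h := abs_real_inner_le_norm (M.c i) y
  rwa [M.c_norm, one_mul] at h

theorem Phi_norm (i : M.ι) (z : E2) (y : E3) : ‖M.Phi i z y‖ ≤ (11 / 10) * ‖y‖ := by
  rw [Phi_eq]
  refine (norm_add_le _ _).trans ?_
  rw [norm_smul, Real.norm_eq_abs]
  have h1 := BASIC_pr_le M i y
  have h2 := mul_le_mul (BASIC_c_le M i y) (M.g_small i z) (norm_nonneg _) (norm_nonneg y)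
  linarith

theorem Phi_lip (i : M.ι) (z z' : E2) (y : E3) :
    ‖M.Phi i z y - M.Phi i z' y‖ ≤ M.κ * ‖y‖ * ‖z - z'‖ := by
  rw [Phi_eq, Phi_eq, add_sub_add_left_eq_sub, ← smul_sub, norm_smul, Real.norm_eq_abs]
  have h2 := mul_le_mul (BASIC_c_le M i y) (M.g_lip i z z') (norm_nonneg _) (norm_nonneg y)
  linarith

/-- A critical direction is normal. -/
theorem y_norm_le (i : M.ι) (z : E2) (y : E3) (h : M.Phi i z y = 0) :
    |⟪M.c i, y⟫| ≤ ‖y‖ ∧ ‖y‖ ≤ (101 / 100) * |⟪M.c i, y⟫| := by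
  refine ⟨BASIC_c_le M i y, ?_⟩
  rw [Phi_eq] at h
  have h1 : M.pr i y = -(⟪M.c i, y⟫ • ∇ (M.g i) z) := eq_neg_of_add_eq_zero_left h
  have h2 := BASIC_norm_sq M i y
  rw [h1, norm_neg, norm_smul, Real.norm_eq_abs, mul_pow, sq_abs] at h2
  have h3 : ‖∇ (M.g i) z‖ ^ 2 ≤ (1 / 10) ^ 2 :=
    pow_le_pow_left₀ (norm_nonneg _) (M.g_small i z) 2
  have h4 : ‖y‖ ^ 2 ≤ ((101 / 100) * |⟪M.c i, y⟫|) ^ 2 := by
    rw [h2, mul_pow, sq_abs]
    nlinarith [sq_nonneg ⟪M.c i, y⟫]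
  exact le_of_sq_le_sq h4 (by positivity)

theorem BASIC_diff (i : M.ι) : Differentiable ℝ (M.g i) :=
  (M.g_smooth i).differentiable (by norm_num)

theorem BASIC_hasGrad (i : M.ι) (z : E2) : HasGradientAt (M.g i) (∇ (M.g i) z) z :=
  (BASIC_diff M i z).hasGradientAt

theorem BASIC_fderiv (i : M.ι) (z : E2) : HasFDerivAt (M.g i) (innerSL ℝ (∇ (M.g i) z)) z :=
  (BASIC_hasGrad M i z).hasFDerivAt

theorem BASIC_g_le (i : M.ι) (z z' : E2) : |M.g i z - M.g i z'| ≤ (1 / 10) * ‖z - z'‖ := by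
  have h := Convex.norm_image_sub_le_of_norm_hasFDerivWithin_le (s := univ) (C := 1 / 10)
    (f := M.g i) (f' := fun z => innerSL ℝ (∇ (M.g i) z)) (x := z') (y := z)
    (fun x _ => (BASIC_fderiv M i x).hasFDerivWithinAt)
    (fun x _ => by rw [innerSL_apply_norm]; exact M.g_small i x) convex_univ (mem_univ _)
    (mem_univ _)
  rwa [Real.norm_eq_abs] at h

theorem chord (i : M.ι) (z z' : E2) : ‖z - z'‖ ≤ ‖M.fi i z - M.fi i z'‖ ∧
    ‖M.fi i z - M.fi i z'‖ ≤ (101 / 100) * ‖z - z'‖ := by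
  have e : M.fi i z - M.fi i z' = M.L i (z - z') + (M.g i z - M.g i z') • M.c i := by
    unfold MongeSurf.fi
    rw [map_sub, sub_smul]
    abel
  have h := norm_decomp M i (z - z') (M.g i z - M.g i z')
  rw [← e] at h
  have h1 := BASIC_g_le M i z z'
  have h2 : (M.g i z - M.g i z') ^ 2 ≤ ((1 / 10) * ‖z - z'‖) ^ 2 := by
    rw [← sq_abs]
    exact pow_le_pow_left₀ (abs_nonneg _) h1 2
  constructor
  · exact le_of_sq_le_sq (by nlinarith [sq_nonneg (M.g i z - M.g i z')]) (norm_nonneg _)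
  · refine le_of_sq_le_sq ?_ (by positivity)
    rw [h]
    nlinarith [sq_nonneg ‖z - z'‖]

theorem chord_e (i : M.ι) {x x' : S} (hx : x ∈ M.P i (5 * M.R i)) (hx' : x' ∈ M.P i (5 * M.R i)) :
    ‖M.e i x - M.e i x'‖ ≤ ‖M.f x - M.f x'‖ ∧
    ‖M.f x - M.f x'‖ ≤ (101 / 100) * ‖M.e i x - M.e i x'‖ := by
  rw [f_e M i hx, f_e M i hx']
  exact chord M i _ _

theorem fi_contDiff (i : M.ι) : ContDiff ℝ 2 (M.fi i) :=
  (contDiff_const.add (M.L i).contDiff).add ((M.g_smooth i).smul contDiff_const)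

theorem BASIC_grad_eq (i : M.ι) (z : E2) : ∇ (M.g i) z =
    ∑ k, (fderiv ℝ (M.g i) z (EuclideanSpace.basisFun (Fin 2) ℝ k)) •
      EuclideanSpace.basisFun (Fin 2) ℝ k := by
  conv_lhs => rw [← (EuclideanSpace.basisFun (Fin 2) ℝ).sum_repr' (∇ (M.g i) z)]
  refine Finset.sum_congr rfl fun k _ => ?_
  rw [(BASIC_fderiv M i z).fderiv, innerSL_apply_apply, real_inner_comm]

theorem BASIC_grad_contDiff (i : M.ι) : ContDiff ℝ 1 (fun z => ∇ (M.g i) z) := by
  simp only [BASIC_grad_eq]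
  refine ContDiff.sum fun k _ => ?_
  exact (((M.g_smooth i).fderiv_right (m := 1) (by norm_num)).clm_apply contDiff_const).smul
    contDiff_const

theorem hess_cont (i : M.ι) : Continuous (M.hess i) ∧ Continuous (M.hdet i) ∧ Continuous (M.num i) ∧
    Continuous (M.Hd i) ∧ Continuous (fun z => ∇ (M.g i) z) := by
  have h1 := BASIC_grad_contDiff M i
  have hg : Continuous (fun z => ∇ (M.g i) z) := h1.continuous
  have hh : Continuous (M.hess i) := h1.continuous_fderiv (by norm_num)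
  have hd : Continuous (M.hdet i) := ContinuousLinearMap.continuous_det.comp hh
  have ht : Continuous fun z => LinearMap.trace ℝ E2 (M.hess i z : E2 →ₗ[ℝ] E2) := by
    have e : ∀ z, LinearMap.trace ℝ E2 (M.hess i z : E2 →ₗ[ℝ] E2) =
        ∑ k, ⟪EuclideanSpace.basisFun (Fin 2) ℝ k,
          M.hess i z (EuclideanSpace.basisFun (Fin 2) ℝ k)⟫ := fun z =>
      LinearMap.trace_eq_sum_inner _ (EuclideanSpace.basisFun (Fin 2) ℝ)
    simp only [e]
    exact continuous_finsetSum _ fun k _ => continuous_const.inner (hh.clm_apply continuous_const)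
  have hn : Continuous (M.num i) :=
    ((continuous_const.add (hg.norm.pow 2)).mul ht).sub (hg.inner (hh.clm_apply hg))
  refine ⟨hh, hd, hn, ?_, hg⟩
  exact hn.abs.div (continuous_const.mul (continuous_const.add (hg.norm.pow 2)))
    fun z => by positivity

theorem hess_symm (i : M.ι) (z v w : E2) : ⟪M.hess i z v, w⟫ = ⟪v, M.hess i z w⟫ := by
  have hd : ∀ a b : E2, ⟪M.hess i z a, b⟫ = fderiv ℝ (fderiv ℝ (M.g i)) z a b := by
    intro a b
    have h1 : HasFDerivAt (fun z => ∇ (M.g i) z) (M.hess i z) z :=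
      ((BASIC_grad_contDiff M i).differentiable (by norm_num) z).hasFDerivAt
    have h2 : HasFDerivAt (fderiv ℝ (M.g i)) (fderiv ℝ (fderiv ℝ (M.g i)) z) z :=
      (((M.g_smooth i).fderiv_right (m := 1) (by norm_num)).differentiable
        (by norm_num) z).hasFDerivAt
    have h3 : HasFDerivAt (fun z => ⟪∇ (M.g i) z, b⟫)
        ((fderivInnerCLM ℝ (∇ (M.g i) z, b)).comp ((M.hess i z).prod 0)) z :=
      h1.inner ℝ (hasFDerivAt_const b z)
    have h4 : HasFDerivAt (fun z => fderiv ℝ (M.g i) z b)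
        ((fderiv ℝ (fderiv ℝ (M.g i)) z).flip b) z := by
      have := h2.clm_apply (hasFDerivAt_const b z)
      simpa using this
    have e : (fun z => ⟪∇ (M.g i) z, b⟫) = fun z => fderiv ℝ (M.g i) z b := by
      funext z
      rw [(BASIC_fderiv M i z).fderiv, innerSL_apply_apply]
    rw [e] at h3
    have h5 := h3.unique h4
    have h6 := congrArg (fun T : E2 →L[ℝ] ℝ => T a) h5
    simpa [fderivInnerCLM_apply] using h6
  rw [hd, real_inner_comm, hd]
  have hs : IsSymmSndFDerivAt ℝ (M.g i) z :=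
    (M.g_smooth i).contDiffAt.isSymmSndFDerivAt (by simp)
  exact hs v w

theorem fi_deriv (i : M.ι) (z : E2) :
    HasFDerivAt (M.fi i) ((M.L i).toContinuousLinearMap +
      (innerSL ℝ (∇ (M.g i) z)).smulRight (M.c i)) z := by
  have h1 : HasFDerivAt (fun z => M.o i + M.L i z) (M.L i).toContinuousLinearMap z :=
    (M.L i).toContinuousLinearMap.hasFDerivAt.const_add (M.o i)
  exact h1.add ((BASIC_fderiv M i z).smul_const (M.c i))

theorem hasGrad (i : M.ι) (z : E2) (y : E3) :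
    HasGradientAt (fun z => ⟪M.fi i z, y⟫) (M.Phi i z y) z := by
  rw [hasGradientAt_iff_hasFDerivAt]
  have h := (fi_deriv M i z).inner ℝ (hasFDerivAt_const y z)
  refine h.congr_fderiv ?_
  ext v
  simp only [ContinuousLinearMap.comp_apply, ContinuousLinearMap.prod_apply,
    fderivInnerCLM_apply, add_apply, ContinuousLinearMap.smulRight_apply,
    innerSL_apply_apply, InnerProductSpace.toDual_apply_apply, zero_apply,
    inner_zero_right, LinearIsometry.coe_toContinuousLinearMap]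
  rw [Phi_eq, inner_add_left, inner_add_left, inner_smul_left, inner_smul_left,
    ← inner_L M i y v, real_inner_comm y (M.L i v)]
  simp
  ring

theorem taylor (i : M.ι) (z z' : E2) (y : E3) :
    |⟪M.fi i z', y⟫ - ⟪M.fi i z, y⟫ - ⟪M.Phi i z y, z' - z⟫| ≤ M.κ * ‖y‖ * ‖z' - z‖ ^ 2 := by
  have hκ : 0 ≤ M.κ := le_trans zero_le_one M.κ_one
  have h := Convex.norm_image_sub_le_of_norm_hasFDerivWithin_le (s := segment ℝ z z')
    (C := M.κ * ‖y‖ * ‖z' - z‖)
    (f := fun ζ => ⟪M.fi i ζ, y⟫ - ⟪M.Phi i z y, ζ⟫)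
    (f' := fun ζ => innerSL ℝ (M.Phi i ζ y) - innerSL ℝ (M.Phi i z y)) (x := z) (y := z')
    (fun x _ => ((hasGrad M i x y).hasFDerivAt.sub
      (innerSL ℝ (M.Phi i z y)).hasFDerivAt).hasFDerivWithinAt)
    (fun x hx => by
      rw [← map_sub, innerSL_apply_norm]
      refine (Phi_lip M i x z y).trans ?_
      refine mul_le_mul_of_nonneg_left ?_ (by positivity)
      obtain ⟨a, b, ha, hb, hab, rfl⟩ := hx
      have : a • z + b • z' - z = b • (z' - z) := by
        have ha' : a = 1 - b := by linarith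
        rw [ha', sub_smul, one_smul, smul_sub]
        abel
      rw [this, norm_smul, Real.norm_eq_abs, abs_of_nonneg hb]
      exact mul_le_of_le_one_left (norm_nonneg _) (by linarith))
    (convex_segment z z') (left_mem_segment ℝ z z') (right_mem_segment ℝ z z')
  rw [Real.norm_eq_abs] at h
  have e : ⟪M.fi i z', y⟫ - ⟪M.fi i z, y⟫ - ⟪M.Phi i z y, z' - z⟫ =
      ⟪M.fi i z', y⟫ - ⟪M.Phi i z y, z'⟫ - (⟪M.fi i z, y⟫ - ⟪M.Phi i z y, z⟫) := by
    rw [inner_sub_right]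
    ring
  rw [e]
  refine h.trans (le_of_eq ?_)
  ring

theorem val_eq {y₀ : E3} (D : CritData M y₀) (k : D.N) (y : E3) (hy : y ∈ ball y₀ D.ρ) :
    D.val k y = ⟪M.f (D.pt k y), y⟫ ∧ D.pt k y ∈ M.P (D.i k) (3 * M.R (D.i k)) ∧
    M.e (D.i k) (D.pt k y) = D.s k y := by
  have hR := M.R_pos (D.i k)
  have hs : D.s k y ∈ ball (0 : E2) (3 * M.R (D.i k)) := by
    refine D.ball_sub k (ball_subset_ball ?_ (D.s_mem k y hy))
    have := D.r1_pos
    linarith
  have h := P_symm M (D.i k) (by linarith) hs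
  refine ⟨?_, h.1, h.2⟩
  unfold CritData.val CritData.pt
  rw [f_symm M (D.i k) (ball_subset_ball (by linarith) hs)]

end Basic

end Topping
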