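import Mathlib
import Pool.Agent.Lib.MP_bea121_gt.TC.Defs4
import Pool.Agent.Lib.MP_bea121_gt.TC.Basic

/-! # The normal bundle map of a Monge patch (module GMAP) -/

open MeasureTheory Set Metric Topology Filter
open scoped RealInnerProductSpace Gradient ContDiff Manifold

noncomputable section

namespace Topping

section Gmap
variable {S : Type} [TopologicalSpace S] (M : MongeSurf S)

theorem GMAP_grad (i : M.ι) : ContDiff ℝ 1 (fun z => ∇ (M.g i) z) := by
  have h1 : ContDiff ℝ 1 (fderiv ℝ (M.g i)) :=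
    (M.g_smooth i).fderiv_right (m := 1) (by norm_num)
  rw [contDiff_euclidean]
  intro k
  have h2 : (fun z => (∇ (M.g i) z) k) = fun z => fderiv ℝ (M.g i) z (EuclideanSpace.single k 1) := by
    funext z
    have h3 : ⟪∇ (M.g i) z, EuclideanSpace.single k (1 : ℝ)⟫ =
        fderiv ℝ (M.g i) z (EuclideanSpace.single k 1) := by
      rw [gradient, InnerProductSpace.toDual_symm_apply]
    rw [← h3, EuclideanSpace.inner_single_right]
    simp
  rw [h2]
  exact h1.clm_apply contDiff_const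

/-- The linear part of `pr`. -/
def GMAP_pr (i : M.ι) : E3 →L[ℝ] E2 :=
  ContinuousLinearMap.adjoint (M.L i).toContinuousLinearMap

theorem GMAP_pr_apply (i : M.ι) (q : E3) : M.pr i q = GMAP_pr M i q := rfl

theorem Gq_contDiff (i : M.ι) : ContDiff ℝ 1 (M.Gq i) := by
  unfold MongeSurf.Gq
  have h1 : ContDiff ℝ 1 (fun q : E3 => ⟪M.c i, q⟫) := contDiff_const.inner ℝ contDiff_id
  have h2 : ContDiff ℝ 1 (fun q : E3 => ∇ (M.g i) (M.pr i q)) :=
    (GMAP_grad M i).comp (GMAP_pr M i).contDiff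
  have h3 : ContDiff ℝ 1 (fun q : E3 => M.L i (∇ (M.g i) (M.pr i q))) :=
    (M.L i).contDiff.comp h2
  exact h1.smul (contDiff_const.sub h3)

theorem GMAP_deriv (i : M.ι) (q w : E3) :
    fderiv ℝ (M.Gq i) q w = ⟪M.c i, w⟫ • (M.c i - M.L i (∇ (M.g i) (M.pr i q))) -
      ⟪M.c i, q⟫ • M.L i (M.hess i (M.pr i q) (M.pr i w)) := by
  have h1 : HasFDerivAt (fun q : E3 => ⟪M.c i, q⟫) (innerSL ℝ (M.c i)) q :=
    (innerSL ℝ (M.c i)).hasFDerivAt
  have h2 : HasFDerivAt (fun q : E3 => ∇ (M.g i) (M.pr i q))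
      ((M.hess i (M.pr i q)).comp (GMAP_pr M i)) q := by
    have h3 : HasFDerivAt (fun z => ∇ (M.g i) z) (M.hess i (M.pr i q)) (GMAP_pr M i q) :=
      ((GMAP_grad M i).differentiable one_ne_zero _).hasFDerivAt
    exact h3.comp q (GMAP_pr M i).hasFDerivAt
  have h3 : HasFDerivAt (fun q : E3 => M.L i (∇ (M.g i) (M.pr i q)))
      ((M.L i).toContinuousLinearMap.comp ((M.hess i (M.pr i q)).comp (GMAP_pr M i))) q :=
    (M.L i).toContinuousLinearMap.hasFDerivAt.comp q h2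
  have h4 := h1.smul (h3.const_sub (M.c i))
  have h5 : fderiv ℝ (M.Gq i) q = _ := h4.fderiv
  rw [h5]
  simp only [add_apply, smul_apply, neg_apply, ContinuousLinearMap.smulRight_apply,
    ContinuousLinearMap.comp_apply, innerSL_apply_apply, ← GMAP_pr_apply, smul_neg]
  rw [add_comm, ← sub_eq_add_neg]
  rfl

/-- The orthonormal frame of a patch. -/
def GMAP_frame (i : M.ι) : Fin 3 → E3 :=
  ![M.L i (EuclideanSpace.single 0 1), M.L i (EuclideanSpace.single 1 1), M.c i]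

theorem GMAP_frame_orth (i : M.ι) : Orthonormal ℝ (GMAP_frame M i) := by
  have hLc : ∀ z, ⟪M.L i z, M.c i⟫ = (0 : ℝ) := M.c_perp i
  have hcL : ∀ z, ⟪M.c i, M.L i z⟫ = (0 : ℝ) := fun z => by rw [real_inner_comm]; exact hLc z
  rw [orthonormal_iff_ite]
  intro a b
  fin_cases a <;> fin_cases b <;>
    simp [GMAP_frame, hLc, hcL, (M.L i).inner_map_map, M.c_norm i,
      EuclideanSpace.inner_single_left]

/-- The orthonormal frame as a basis. -/
def GMAP_basis (i : M.ι) : OrthonormalBasis (Fin 3) ℝ E3 :=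
  OrthonormalBasis.mk (GMAP_frame_orth M i) (by
    have h := (GMAP_frame_orth M i).linearIndependent.span_eq_top_of_card_eq_finrank'
      (by simp)
    rw [h])

theorem GMAP_basis_apply (i : M.ι) (k : Fin 3) : GMAP_basis M i k = GMAP_frame M i k := by
  unfold GMAP_basis
  rw [OrthonormalBasis.coe_mk]

theorem Gq_det (i : M.ι) (q : E3) :
    LinearMap.det (fderiv ℝ (M.Gq i) q : E3 →ₗ[ℝ] E3) = ⟪M.c i, q⟫ ^ 2 * M.hdet i (M.pr i q) := by
  have hcc : ⟪M.c i, M.c i⟫ = (1 : ℝ) := by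
    rw [real_inner_self_eq_norm_sq, M.c_norm i]; norm_num
  have hLc : ∀ z, ⟪M.L i z, M.c i⟫ = (0 : ℝ) := M.c_perp i
  have hcL : ∀ z, ⟪M.c i, M.L i z⟫ = (0 : ℝ) := fun z => by rw [real_inner_comm]; exact hLc z
  have hprL : ∀ z, M.pr i (M.L i z) = z := fun z => by
    have := (pr_L M i z 0).1
    rwa [zero_smul, add_zero] at this
  have hprc : M.pr i (M.c i) = 0 := by
    have := (pr_L M i 0 1).1
    rwa [map_zero, one_smul, zero_add] at this
  -- the matrix of the derivative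
  have hent : ∀ a b : Fin 3, LinearMap.toMatrix (GMAP_basis M i).toBasis (GMAP_basis M i).toBasis
      (fderiv ℝ (M.Gq i) q : E3 →ₗ[ℝ] E3) a b =
      ⟪GMAP_frame M i a, fderiv ℝ (M.Gq i) q (GMAP_frame M i b)⟫ := by
    intro a b
    rw [LinearMap.toMatrix_apply, OrthonormalBasis.coe_toBasis, OrthonormalBasis.coe_toBasis_repr_apply,
      OrthonormalBasis.repr_apply_apply, GMAP_basis_apply, GMAP_basis_apply]
    rfl
  have hentH : ∀ a b : Fin 2, LinearMap.toMatrix (EuclideanSpace.basisFun (Fin 2) ℝ).toBasis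
      (EuclideanSpace.basisFun (Fin 2) ℝ).toBasis
      (M.hess i (M.pr i q) : E2 →ₗ[ℝ] E2) a b =
      ⟪EuclideanSpace.single a (1 : ℝ), M.hess i (M.pr i q) (EuclideanSpace.single b 1)⟫ := by
    intro a b
    rw [LinearMap.toMatrix_apply, OrthonormalBasis.coe_toBasis, OrthonormalBasis.coe_toBasis_repr_apply,
      OrthonormalBasis.repr_apply_apply, EuclideanSpace.basisFun_apply, EuclideanSpace.basisFun_apply]
    rfl
  unfold MongeSurf.hdet
  rw [← LinearMap.det_toMatrix (GMAP_basis M i).toBasis,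
    ← LinearMap.det_toMatrix (EuclideanSpace.basisFun (Fin 2) ℝ).toBasis,
    Matrix.det_fin_three, Matrix.det_fin_two]
  simp only [hent, hentH, GMAP_deriv]
  have e0 : GMAP_frame M i 0 = M.L i (EuclideanSpace.single 0 1) := rfl
  have e1 : GMAP_frame M i 1 = M.L i (EuclideanSpace.single 1 1) := rfl
  have e2 : GMAP_frame M i 2 = M.c i := rfl
  simp only [e0, e1, e2, hcL, hLc, hcc, hprL, hprc, map_zero, zero_smul, smul_zero, sub_zero,
    zero_sub, inner_neg_right, inner_smul_right, (M.L i).inner_map_map, inner_sub_right, one_smul,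
    mul_zero, neg_zero]
  ring

theorem Gq_crit (i : M.ι) (q : E3) : M.Phi i (M.pr i q) (M.Gq i q) = 0 ∧ ⟪M.c i, M.Gq i q⟫ = ⟪M.c i, q⟫ := by
  have h1 : M.Gq i q = M.L i (-(⟪M.c i, q⟫ • ∇ (M.g i) (M.pr i q))) + ⟪M.c i, q⟫ • M.c i := by
    unfold MongeSurf.Gq
    rw [map_neg, map_smul, smul_sub]
    abel
  obtain ⟨h2, h3⟩ := pr_L M i (-(⟪M.c i, q⟫ • ∇ (M.g i) (M.pr i q))) ⟪M.c i, q⟫
  rw [← h1] at h2 h3
  refine ⟨?_, h3⟩
  rw [Phi_eq, h2, h3]
  abel

theorem Gq_of_crit (i : M.ι) (z : E2) (y : E3) (h : M.Phi i z y = 0) :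
    M.Gq i (M.L i z + ⟪M.c i, y⟫ • M.c i) = y := by
  obtain ⟨h2, h3⟩ := pr_L M i z ⟪M.c i, y⟫
  have h1 : M.pr i y = -(⟪M.c i, y⟫ • ∇ (M.g i) z) := by
    rw [Phi_eq] at h
    exact eq_neg_of_add_eq_zero_left h
  unfold MongeSurf.Gq
  rw [h2, h3]
  conv_rhs => rw [decomp M i y, h1]
  rw [map_neg, map_smul, smul_sub]
  abel

theorem Gq_norm (i : M.ι) (q : E3) :
    ‖M.Gq i q‖ ^ 2 = ⟪M.c i, q⟫ ^ 2 * (1 + ‖∇ (M.g i) (M.pr i q)‖ ^ 2) := by
  have h1 : M.Gq i q = M.L i (-(⟪M.c i, q⟫ • ∇ (M.g i) (M.pr i q))) + ⟪M.c i, q⟫ • M.c i := by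
    unfold MongeSurf.Gq
    rw [map_neg, map_smul, smul_sub]
    abel
  rw [h1, norm_decomp, norm_neg, norm_smul, mul_pow, Real.norm_eq_abs, sq_abs]
  ring
end Gmap

end Topping
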