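import Mathlib
import Pool.Agent.Lib.MP_bea121_gt.TC.Defs4
import Pool.Agent.Lib.MP_bea121_gt.TC.Gmap
import Pool.Agent.Lib.MP_bea121_gt.TC.Basic

/-!
# MP_bea121_gt, module AREA1: area formula for one branch of critical points
-/

open MeasureTheory Set Metric Topology Filter
open scoped RealInnerProductSpace Gradient ContDiff Manifold

noncomputable section

namespace Topping

section Area1
variable {S : Type} [TopologicalSpace S] (M : MongeSurf S)

/-- the position of a branch in the normal bundle -/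
def qmap (i : M.ι) (ζ : E3 → E2) (y : E3) : E3 := M.L i (ζ y) + ⟪M.c i, y⟫ • M.c i

theorem patch_area (i : M.ι) (Y : Set E3) (hY : MeasurableSet Y) (hg : Disjoint Y M.degen) (hYS : Y ⊆ Sh) (ζ : E3 → E2)
    (hζ : ContinuousOn ζ Y) (hζb : ∀ y ∈ Y, ζ y ∈ ball (0 : E2) (M.R i)) (hz : ∀ y ∈ Y, M.Phi i (ζ y) y = 0) :
    MeasurableSet (qmap M i ζ '' Y) ∧
    ∫⁻ y in Y, ENNReal.ofReal (M.θ i (ζ y) y) =
      ∫⁻ q in qmap M i ζ '' Y, ENNReal.ofReal (|M.num i (M.pr i q)| * |⟪M.c i, q⟫|) := by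
  have hG : ∀ y ∈ Y, M.Gq i (qmap M i ζ y) = y := fun y hy => Gq_of_crit M i (ζ y) y (hz y hy)
  have hinj : InjOn (qmap M i ζ) Y := fun y hy y' hy' h => by
    rw [← hG y hy, ← hG y' hy', h]
  have hcont : ContinuousOn (qmap M i ζ) Y := by
    unfold qmap
    have h0 : Continuous fun y : E3 => ⟪M.c i, y⟫ • M.c i := by fun_prop
    exact ((M.L i).continuous.comp_continuousOn hζ).add h0.continuousOn
  have hQ : MeasurableSet (qmap M i ζ '' Y) := hY.image_of_continuousOn_injOn hcont hinj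
  refine ⟨hQ, ?_⟩
  have hGinj : InjOn (M.Gq i) (qmap M i ζ '' Y) := by
    rintro _ ⟨y, hy, rfl⟩ _ ⟨y', hy', rfl⟩ h
    rw [hG y hy, hG y' hy'] at h
    rw [h]
  have himg : M.Gq i '' (qmap M i ζ '' Y) = Y := by
    rw [← image_comp]
    ext y
    constructor
    · rintro ⟨y', hy', rfl⟩
      rw [Function.comp_apply, hG y' hy']
      exact hy'
    · intro hy
      exact ⟨y, hy, hG y hy⟩
  have hd : ∀ q ∈ qmap M i ζ '' Y, HasFDerivWithinAt (M.Gq i) (fderiv ℝ (M.Gq i) q)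
      (qmap M i ζ '' Y) q := fun q _ =>
    (((Gq_contDiff M i).differentiable one_ne_zero) q).hasFDerivAt.hasFDerivWithinAt
  have h1 := lintegral_image_eq_lintegral_abs_det_fderiv_mul volume hQ hd hGinj
    (fun y => ENNReal.ofReal (M.θ i (ζ y) y))
  rw [himg] at h1
  rw [h1]
  refine setLIntegral_congr_fun hQ ?_
  rintro _ ⟨y, hy, rfl⟩
  simp only
  rw [hG y hy]
  have h2 : M.pr i (qmap M i ζ y) = ζ y := (pr_L M i (ζ y) _).1
  have h3 : ⟪M.c i, qmap M i ζ y⟫ = ⟪M.c i, y⟫ := (pr_L M i (ζ y) _).2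
  have h4 : (fderiv ℝ (M.Gq i) (qmap M i ζ y)).det = ⟪M.c i, y⟫ ^ 2 * M.hdet i (ζ y) := by
    have := Gq_det M i (qmap M i ζ y)
    rw [h2, h3] at this
    exact this
  rw [h2, h3, h4, ← ENNReal.ofReal_mul (abs_nonneg _)]
  congr 1
  have h5 : M.hdet i (ζ y) ≠ 0 := by
    intro h
    refine Set.disjoint_left.1 hg hy ⟨i, ζ y, ?_, hz y hy, h⟩
    have := hζb y hy
    rw [mem_ball, dist_zero_right] at this
    rw [mem_closedBall, dist_zero_right]
    have := M.R_pos i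
    linarith
  have h6 : ⟪M.c i, y⟫ ≠ 0 := by
    intro h
    have h7 := (y_norm_le M i (ζ y) y (hz y hy)).2
    rw [h, abs_zero, mul_zero] at h7
    have := (hYS hy).1
    linarith
  rw [MongeSurf.θ, abs_mul, abs_pow]
  have h8 : |⟪M.c i, y⟫| ≠ 0 := abs_ne_zero.2 h6
  have h9 : |M.hdet i (ζ y)| ≠ 0 := abs_ne_zero.2 h5
  field_simp
end Area1

end Topping
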