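import Mathlib
import Pool.Agent.Lib.MP_bea121_gt.TC.Defs4

/-!
Product decomposition of `ℝ³` along a plane and its normal.
-/

open MeasureTheory Set Metric Topology Filter
open scoped RealInnerProductSpace Gradient ContDiff Manifold
noncomputable section
namespace Topping

theorem PROD_norm (L : E2 →ₗᵢ[ℝ] E3) (c : E3) (hc : ‖c‖ = 1) (hp : ∀ z, ⟪L z, c⟫ = 0)
    (z : E2) (ρ : ℝ) : ‖L z + ρ • c‖ ^ 2 = ‖z‖ ^ 2 + ‖ρ‖ ^ 2 := by
  have h := norm_add_sq_real (L z) (ρ • c)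
  rw [h, inner_smul_right, hp z, norm_smul, hc, L.norm_map]
  ring

/-- The isometry `(z, ρ) ↦ L z + ρ c`. -/
def PROD_iso (L : E2 →ₗᵢ[ℝ] E3) (c : E3) (hc : ‖c‖ = 1) (hp : ∀ z, ⟪L z, c⟫ = 0) :
    WithLp 2 (E2 × ℝ) →ₗᵢ[ℝ] E3 where
  toFun p := L p.fst + p.snd • c
  map_add' p q := by
    simp only [WithLp.add_fst, WithLp.add_snd, map_add, add_smul]
    abel
  map_smul' t p := by
    simp only [WithLp.smul_fst, WithLp.smul_snd, map_smul, smul_add, smul_smul, smul_eq_mul,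
      RingHom.id_apply]
  norm_map' p := by
    have h1 := PROD_norm L c hc hp p.fst p.snd
    have h2 := WithLp.prod_norm_sq_eq_of_L2 p
    have h3 : ‖L p.fst + p.snd • c‖ ^ 2 = ‖p‖ ^ 2 := by rw [h1, h2]
    have h4 := (sq_eq_sq₀ (norm_nonneg _) (norm_nonneg _)).mp h3
    simpa using h4

theorem PROD_finrank : Module.finrank ℝ (WithLp 2 (E2 × ℝ)) = Module.finrank ℝ E3 := by
  rw [(WithLp.linearEquiv 2 ℝ (E2 × ℝ)).finrank_eq, Module.finrank_prod]
  simp

theorem mp_prod (L : E2 →ₗᵢ[ℝ] E3) (c : E3) (hc : ‖c‖ = 1) (hp : ∀ z, ⟪L z, c⟫ = 0) :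
    MeasurePreserving (fun p : E2 × ℝ => L p.1 + p.2 • c) (volume.prod volume) volume := by
  have h1 := ((PROD_iso L c hc hp).toLinearIsometryEquiv PROD_finrank).measurePreserving
  have h2 := WithLp.volume_preserving_toLp E2 ℝ
  exact h1.comp h2

theorem PROD_emb (L : E2 →ₗᵢ[ℝ] E3) (c : E3) (hc : ‖c‖ = 1) (hp : ∀ z, ⟪L z, c⟫ = 0) :
    MeasurableEmbedding (fun p : E2 × ℝ => L p.1 + p.2 • c) := by
  have h1 := ((PROD_iso L c hc hp).toLinearIsometryEquiv
    PROD_finrank).toHomeomorph.toMeasurableEquiv.measurableEmbedding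
  have h2 := (MeasurableEquiv.toLp 2 (E2 × ℝ)).measurableEmbedding
  exact h1.comp h2

theorem lint_prod (L : E2 →ₗᵢ[ℝ] E3) (c : E3) (hc : ‖c‖ = 1) (hp : ∀ z, ⟪L z, c⟫ = 0)
    (F : E3 → ENNReal) (hF : Measurable F) : ∫⁻ q, F q = ∫⁻ z : E2, ∫⁻ ρ : ℝ, F (L z + ρ • c) := by
  have h1 := (mp_prod L c hc hp).lintegral_comp hF
  rw [← h1, lintegral_prod]
  exact (hF.comp (mp_prod L c hc hp).measurable).aemeasurable

theorem prod_bij (L : E2 →ₗᵢ[ℝ] E3) (c : E3) (hc : ‖c‖ = 1) (hp : ∀ z, ⟪L z, c⟫ = 0) :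
    (∀ q : E3, q = L (ContinuousLinearMap.adjoint L.toContinuousLinearMap q) + ⟪c, q⟫ • c) ∧
    (∀ (z : E2) (ρ : ℝ), ContinuousLinearMap.adjoint L.toContinuousLinearMap (L z + ρ • c) = z ∧ ⟪c, L z + ρ • c⟫ = ρ) := by
  have key : ∀ (z : E2) (ρ : ℝ),
      ContinuousLinearMap.adjoint L.toContinuousLinearMap (L z + ρ • c) = z ∧
        ⟪c, L z + ρ • c⟫ = ρ := by
    intro z ρ
    constructor
    · refine ext_inner_right ℝ fun w => ?_
      rw [ContinuousLinearMap.adjoint_inner_left]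
      simp only [LinearIsometry.coe_toContinuousLinearMap]
      rw [inner_add_left, inner_smul_left, L.inner_map_map, real_inner_comm, real_inner_comm (L w) c,
        hp w]
      simp [real_inner_comm]
    · rw [inner_add_right, inner_smul_right, real_inner_comm, hp z, real_inner_self_eq_norm_sq, hc]
      ring
  refine ⟨fun q => ?_, key⟩
  obtain ⟨p, hp'⟩ := ((PROD_iso L c hc hp).toLinearIsometryEquiv PROD_finrank).surjective q
  have hq : q = L p.fst + p.snd • c := hp'.symm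
  obtain ⟨h1, h2⟩ := key p.fst p.snd
  rw [hq, h1, h2]

end Topping
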