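import Mathlib
import Pool.Agent.Lib.MP_bea121_gt.TC.Defs4
import Pool.Agent.Lib.MP_bea121_gt.TC.Basic
import Pool.Agent.Lib.MP_bea121_gt.TC.Prod
import Pool.Agent.Lib.MP_bea121_gt.TC.Gmap

/-! Fibre integral: the shell in the normal bundle (module AREA2 of MP_bea121_gt). -/

open MeasureTheory Set Metric Topology Filter
open scoped RealInnerProductSpace Gradient ContDiff Manifold

noncomputable section

namespace Topping

theorem AREA2_Icc (a b : ℝ) (ha : 0 ≤ a) (hab : a ≤ b) :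
    ∫ ρ in Icc a b, |ρ| = (b ^ 2 - a ^ 2) / 2 := by
  rw [setIntegral_congr_fun (g := fun ρ => ρ) measurableSet_Icc
    (fun ρ hρ => abs_of_nonneg (ha.trans hρ.1)), integral_Icc_eq_integral_Ioc,
    ← intervalIntegral.integral_of_le hab, integral_id]

theorem AREA2_Icc_neg (a b : ℝ) (ha : 0 ≤ a) (hab : a ≤ b) :
    ∫ ρ in Icc (-b) (-a), |ρ| = (b ^ 2 - a ^ 2) / 2 := by
  rw [setIntegral_congr_fun (g := fun ρ => -ρ) measurableSet_Icc
    (fun ρ hρ => abs_of_nonpos (by have := hρ.2; linarith)), integral_Icc_eq_integral_Ioc,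
    ← intervalIntegral.integral_of_le (neg_le_neg hab), intervalIntegral.integral_neg,
    integral_id]
  ring

theorem AREA2_set (W : ℝ) (hW : 0 < W) : {ρ : ℝ | 1 ≤ |ρ| * W ∧ |ρ| * W ≤ 2} =
    Icc (1 / W) (2 / W) ∪ Icc (-(2 / W)) (-(1 / W)) := by
  ext ρ
  simp only [mem_ofPred_eq, mem_union, mem_Icc]
  rw [← div_le_iff₀ hW, ← le_div_iff₀ hW, le_abs', abs_le]
  have h1 : 0 < 1 / W := by positivity
  have h2 : 0 < 2 / W := by positivity
  constructor
  · rintro ⟨h3 | h3, h4, h5⟩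
    · right; constructor <;> linarith
    · left; constructor <;> linarith
  · rintro (⟨h3, h4⟩ | ⟨h3, h4⟩)
    · exact ⟨Or.inr h3, by linarith, h4⟩
    · exact ⟨Or.inl h4, h3, by linarith⟩

theorem AREA2_inner (W n : ℝ) (hW : 0 < W) (hn : 0 ≤ n) :
    ∫⁻ ρ in {ρ : ℝ | 1 ≤ |ρ| * W ∧ |ρ| * W ≤ 2}, ENNReal.ofReal (n * |ρ|) =
      ENNReal.ofReal (n * (3 / W ^ 2)) := by
  rw [AREA2_set W hW]
  have hc : Continuous (fun ρ : ℝ => n * |ρ|) := by fun_prop
  have hi : ∀ a b : ℝ, IntegrableOn (fun ρ : ℝ => n * |ρ|) (Icc a b) := fun a b =>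
    hc.continuousOn.integrableOn_Icc
  have h1 : 0 < 1 / W := by positivity
  have h12 : 1 / W ≤ 2 / W := by gcongr; norm_num
  rw [← ofReal_integral_eq_lintegral_ofReal ((hi _ _).union (hi _ _))
    (Eventually.of_forall fun ρ => by positivity)]
  congr 1
  rw [setIntegral_union ?_ measurableSet_Icc (hi _ _) (hi _ _)]
  · rw [integral_const_mul, integral_const_mul, AREA2_Icc _ _ h1.le h12,
      AREA2_Icc_neg _ _ h1.le h12]
    field_simp
    ring
  · rw [Set.disjoint_left]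
    intro ρ h3 h4
    linarith [h3.1, h4.2]

section Area2
variable {S : Type} [TopologicalSpace S] (M : MongeSurf S)

theorem AREA2_mem (i : M.ι) (z : E2) (ρ : ℝ) :
    M.Gq i (M.L i z + ρ • M.c i) ∈ Sh ↔
      1 ≤ |ρ| * Real.sqrt (1 + ‖∇ (M.g i) z‖ ^ 2) ∧
        |ρ| * Real.sqrt (1 + ‖∇ (M.g i) z‖ ^ 2) ≤ 2 := by
  have h1 := Gq_norm M i (M.L i z + ρ • M.c i)
  rw [(pr_L M i z ρ).1, (pr_L M i z ρ).2] at h1
  have h2 : ‖M.Gq i (M.L i z + ρ • M.c i)‖ = |ρ| * Real.sqrt (1 + ‖∇ (M.g i) z‖ ^ 2) := by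
    rw [← Real.sqrt_sq (norm_nonneg (M.Gq i _)), h1, Real.sqrt_mul (sq_nonneg _),
      Real.sqrt_sq_eq_abs]
  unfold Sh
  rw [mem_ofPred_eq, h2]

theorem shell_area (i : M.ι) (C : Set E2) (hC : MeasurableSet C) (hCb : C ⊆ ball (0 : E2) (M.R i)) :
    ∫⁻ q in {q | M.pr i q ∈ C ∧ M.Gq i q ∈ Sh}, ENNReal.ofReal (|M.num i (M.pr i q)| * |⟪M.c i, q⟫|) =
      ENNReal.ofReal (6 * ∫ z in C, M.Hd i z) := by
  obtain ⟨-, -, hnum, hHd, -⟩ := hess_cont M i
  have hpr : Continuous (M.pr i) := by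
    unfold MongeSurf.pr
    exact ContinuousLinearMap.continuous _
  have hG : Continuous (M.Gq i) := (Gq_contDiff M i).continuous
  have hSh : MeasurableSet Sh := by
    have : Sh = (fun y : E3 => ‖y‖) ⁻¹' Icc 1 2 := by
      ext y; rfl
    rw [this]
    exact continuous_norm.measurable measurableSet_Icc
  have hA : MeasurableSet {q | M.pr i q ∈ C ∧ M.Gq i q ∈ Sh} :=
    (hpr.measurable hC).inter (hG.measurable hSh)
  have hF : Measurable (fun q : E3 =>
      ENNReal.ofReal (|M.num i (M.pr i q)| * |⟪M.c i, q⟫|)) := by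
    have : Continuous (fun q : E3 => |M.num i (M.pr i q)| * |⟪M.c i, q⟫|) := by
      have h1 := hnum.comp hpr
      have h2 : Continuous (fun q : E3 => ⟪M.c i, q⟫) := continuous_const.inner continuous_id
      exact h1.abs.mul h2.abs
    exact this.measurable.ennreal_ofReal
  rw [← lintegral_indicator hA, lint_prod (M.L i) (M.c i) (M.c_norm i) (M.c_perp i) _
    (hF.indicator hA)]
  have hW : ∀ z, 0 < Real.sqrt (1 + ‖∇ (M.g i) z‖ ^ 2) := fun z => by positivity
  have key : ∀ z : E2, (∫⁻ ρ : ℝ, ({q | M.pr i q ∈ C ∧ M.Gq i q ∈ Sh}.indicator (fun q : E3 =>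
      ENNReal.ofReal (|M.num i (M.pr i q)| * |⟪M.c i, q⟫|)) (M.L i z + ρ • M.c i))) =
      C.indicator (fun z => ENNReal.ofReal (6 * M.Hd i z)) z := by
    intro z
    by_cases hz : z ∈ C
    · rw [indicator_of_mem hz]
      have h1 : ∀ ρ : ℝ, ({q | M.pr i q ∈ C ∧ M.Gq i q ∈ Sh}.indicator (fun q : E3 =>
          ENNReal.ofReal (|M.num i (M.pr i q)| * |⟪M.c i, q⟫|)) (M.L i z + ρ • M.c i)) =
          {ρ : ℝ | 1 ≤ |ρ| * Real.sqrt (1 + ‖∇ (M.g i) z‖ ^ 2) ∧
            |ρ| * Real.sqrt (1 + ‖∇ (M.g i) z‖ ^ 2) ≤ 2}.indicator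
            (fun ρ => ENNReal.ofReal (|M.num i z| * |ρ|)) ρ := by
        intro ρ
        by_cases hm : M.Gq i (M.L i z + ρ • M.c i) ∈ Sh
        · rw [indicator_of_mem, indicator_of_mem]
          · rw [(pr_L M i z ρ).1, (pr_L M i z ρ).2]
          · exact (AREA2_mem M i z ρ).1 hm
          · exact ⟨by rw [(pr_L M i z ρ).1]; exact hz, hm⟩
        · rw [indicator_of_notMem, indicator_of_notMem]
          · exact fun h => hm ((AREA2_mem M i z ρ).2 h)
          · exact fun h => hm h.2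
      simp only [h1]
      rw [lintegral_indicator, AREA2_inner _ _ (hW z) (abs_nonneg _)]
      · congr 1
        rw [Real.sq_sqrt (by positivity)]
        unfold MongeSurf.Hd
        field_simp
        ring
      · rw [AREA2_set _ (hW z)]
        exact measurableSet_Icc.union measurableSet_Icc
    · rw [indicator_of_notMem hz]
      have h1 : ∀ ρ : ℝ, ({q | M.pr i q ∈ C ∧ M.Gq i q ∈ Sh}.indicator (fun q : E3 =>
          ENNReal.ofReal (|M.num i (M.pr i q)| * |⟪M.c i, q⟫|)) (M.L i z + ρ • M.c i)) = 0 := by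
        intro ρ
        rw [indicator_of_notMem]
        intro h
        apply hz
        have := h.1
        rwa [(pr_L M i z ρ).1] at this
      simp only [h1, lintegral_zero]
  simp only [key]
  rw [lintegral_indicator hC, ← ofReal_integral_eq_lintegral_ofReal, integral_const_mul]
  · have : IntegrableOn (M.Hd i) C :=
      (hHd.continuousOn.integrableOn_compact (isCompact_closedBall (0 : E2) (M.R i))).mono_set
        (hCb.trans ball_subset_closedBall)
    exact this.const_mul 6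
  · refine Eventually.of_forall fun z => ?_
    unfold MongeSurf.Hd
    positivity

end Area2

end Topping
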