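import Mathlib
import Pool.Agent.Lib.MP_bea121_gt.TC.Defs4
import Pool.Agent.Lib.MP_bea121_gt.TC.Area1
import Pool.Agent.Lib.MP_bea121_gt.TC.Area2
import Pool.Agent.Lib.MP_bea121_gt.TC.Basic

/-!
# The area formula for all critical branches (MP_bea121_gt)
-/

open MeasureTheory Set Metric Topology Filter
open scoped RealInnerProductSpace Gradient ContDiff Manifold

noncomputable section

namespace Topping

theorem AREA3_meas {X Y : Type*} [TopologicalSpace X] [MeasurableSpace X] [BorelSpace X]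
    [TopologicalSpace Y] [MeasurableSpace Y] [BorelSpace Y] {f : X → Y} {A : Set X} {B : Set Y}
    (hA : MeasurableSet A) (hf : ContinuousOn f A) (hB : MeasurableSet B) :
    MeasurableSet (A ∩ f ⁻¹' B) := by
  have h1 : Continuous (A.domRestrict f) := continuousOn_iff_continuous_domRestrict.1 hf
  have h2 : MeasurableSet ((A.domRestrict f) ⁻¹' B) := h1.measurable hB
  have h3 : A ∩ f ⁻¹' B = Subtype.val '' ((A.domRestrict f) ⁻¹' B) := by
    ext y
    constructor
    · rintro ⟨hy, hyB⟩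
      exact ⟨⟨y, hy⟩, hyB, rfl⟩
    · rintro ⟨⟨y', hy'⟩, hyB, rfl⟩
      exact ⟨hy', hyB⟩
  rw [h3]
  exact MeasurableSet.subtype_image hA h2

section Area3
variable {S : Type} [TopologicalSpace S] [MeasurableSpace S] [BorelSpace S] (M : MongeSurf S)

theorem AREA3_image (i : M.ι) {B : Set S} (hB : MeasurableSet B) (hBs : B ⊆ M.P i (M.R i)) :
    MeasurableSet (M.e i '' B) ∧ M.e i '' B ⊆ ball (0 : E2) (M.R i) := by
  have hs : B ⊆ (M.e i).source := fun x hx => (hBs hx).1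
  constructor
  · have h1 : M.e i '' B = (M.e i).target ∩ (M.e i).symm ⁻¹' B := by
      ext z
      constructor
      · rintro ⟨x, hx, rfl⟩
        refine ⟨(M.e i).map_source (hs hx), ?_⟩
        rw [mem_preimage, (M.e i).left_inv (hs hx)]
        exact hx
      · rintro ⟨hz, hzB⟩
        exact ⟨_, hzB, (M.e i).right_inv hz⟩
    rw [h1]
    exact AREA3_meas (M.e i).open_target.measurableSet (M.e i).continuousOn_symm hB
  · rintro _ ⟨x, hx, rfl⟩
    exact (hBs hx).2

/-- the direction is recovered from the position in the normal bundle -/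
theorem AREA3_qmap (i : M.ι) (ζ : E3 → E2) (y : E3) (h : M.Phi i (ζ y) y = 0) :
    M.pr i (qmap M i ζ y) = ζ y ∧ M.Gq i (qmap M i ζ y) = y := by
  obtain ⟨h1, h2⟩ := pr_L M i (ζ y) ⟪M.c i, y⟫
  have hp : M.pr i (qmap M i ζ y) = ζ y := h1
  have hc : ⟪M.c i, qmap M i ζ y⟫ = ⟪M.c i, y⟫ := h2
  refine ⟨hp, ?_⟩
  unfold MongeSurf.Gq
  rw [hp, hc]
  have h3 := Phi_eq M i (ζ y) y
  rw [h] at h3
  have h4 : M.pr i y = -(⟪M.c i, y⟫ • ∇ (M.g i) (ζ y)) := eq_neg_of_add_eq_zero_left h3.symm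
  have h5 := decomp M i y
  rw [h4, map_neg, map_smul] at h5
  conv_rhs => rw [h5]
  rw [smul_sub]
  abel

theorem area_bound (B : M.ι → Set S)
    (hB : ∀ i, MeasurableSet (B i)) (hBs : ∀ i, B i ⊆ M.P i (M.R i)) (hBd : Pairwise (Function.onFun Disjoint B))
    (hBu : ⋃ i, B i = univ) {Λ : Type} [Fintype Λ] (A : Λ → Set E3) (hA : ∀ l, MeasurableSet (A l))
    (hAS : ∀ l, A l ⊆ Sh) (hAd : Pairwise (Function.onFun Disjoint A)) (hAg : ∀ l, Disjoint (A l) M.degen)
    (N : Λ → Type) [∀ l, Fintype (N l)] (x : ∀ l, N l → E3 → S) (hx : ∀ l k, ContinuousOn (x l k) (A l))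
    (hcrit : ∀ l k, ∀ y ∈ A l, ∀ i, x l k y ∈ M.P i (M.R i) → M.Phi i (M.e i (x l k y)) y = 0)
    (hinj : ∀ l, ∀ y ∈ A l, Function.Injective (fun k => x l k y))
    (T : ∀ l, N l → E3 → ℝ)
    (hT : ∀ l k, ∀ y ∈ A l, ∀ i, x l k y ∈ M.P i (M.R i) → |T l k y| ≤ M.θ i (M.e i (x l k y)) y) :
    ∑ l, ∑ k, ∫⁻ y in A l, ENNReal.ofReal |T l k y| ≤
      ENNReal.ofReal (6 * ∑ i, ∫ z in M.e i '' B i, M.Hd i z) := by
  -- the pieces
  set Y : (l : Λ) → N l → M.ι → Set E3 := fun l k i => A l ∩ (x l k) ⁻¹' (B i) with hY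
  set ζ : (l : Λ) → N l → M.ι → E3 → E2 := fun l k i y => M.e i (x l k y) with hζ
  set W : M.ι → E3 → ENNReal := fun i q =>
    ENNReal.ofReal (|M.num i (M.pr i q)| * |⟪M.c i, q⟫|) with hW
  have hYm : ∀ l k i, MeasurableSet (Y l k i) := fun l k i => AREA3_meas (hA l) (hx l k) (hB i)
  have hYA : ∀ l k i, Y l k i ⊆ A l := fun l k i => inter_subset_left
  have hphi : ∀ l k i, ∀ y ∈ Y l k i, M.Phi i (ζ l k i y) y = 0 := fun l k i y hy =>
    hcrit l k y hy.1 i (hBs i hy.2)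
  have hpatch : ∀ l k i, MeasurableSet (qmap M i (ζ l k i) '' Y l k i) ∧
      ∫⁻ y in Y l k i, ENNReal.ofReal (M.θ i (ζ l k i y) y) =
        ∫⁻ q in qmap M i (ζ l k i) '' Y l k i, W i q := by
    intro l k i
    refine patch_area M i (Y l k i) (hYm l k i) ((hAg l).mono_left (hYA l k i))
      ((hYA l k i).trans (hAS l)) (ζ l k i) ?_ ?_ (hphi l k i)
    · refine (M.e i).continuousOn.comp ((hx l k).mono (hYA l k i)) ?_
      intro y hy
      exact (hBs i hy.2).1
    · intro y hy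
      exact (hBs i hy.2).2
  -- step 1: decomposition
  have hstep1 : ∀ l k, ∫⁻ y in A l, ENNReal.ofReal |T l k y| ≤
      ∑ i, ∫⁻ q in qmap M i (ζ l k i) '' Y l k i, W i q := by
    intro l k
    have hU : A l = ⋃ i, Y l k i := by
      rw [← inter_iUnion, ← preimage_iUnion, hBu, preimage_univ, inter_univ]
    calc ∫⁻ y in A l, ENNReal.ofReal |T l k y|
        = ∫⁻ y in ⋃ i, Y l k i, ENNReal.ofReal |T l k y| := by rw [← hU]
      _ ≤ ∑' i, ∫⁻ y in Y l k i, ENNReal.ofReal |T l k y| := lintegral_iUnion_le _ _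
      _ = ∑ i, ∫⁻ y in Y l k i, ENNReal.ofReal |T l k y| := tsum_fintype _
      _ ≤ ∑ i, ∫⁻ q in qmap M i (ζ l k i) '' Y l k i, W i q := by
          refine Finset.sum_le_sum fun i _ => ?_
          rw [← (hpatch l k i).2]
          refine setLIntegral_mono' (hYm l k i) fun y hy => ?_
          exact ENNReal.ofReal_le_ofReal (hT l k y hy.1 i (hBs i hy.2))
  -- step 2: the pieces of one patch are disjoint
  have hstep2 : ∀ i, ∑ l, ∑ k, ∫⁻ q in qmap M i (ζ l k i) '' Y l k i, W i q ≤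
      ENNReal.ofReal (6 * ∫ z in M.e i '' B i, M.Hd i z) := by
    intro i
    obtain ⟨hCm, hCb⟩ := AREA3_image M i (hB i) (hBs i)
    rw [← shell_area M i (M.e i '' B i) hCm hCb]
    have hdisj : Pairwise (Function.onFun Disjoint
        (fun p : (l : Λ) × N l => qmap M i (ζ p.1 p.2 i) '' Y p.1 p.2 i)) := by
      rintro ⟨l, k⟩ ⟨l', k'⟩ hne
      rw [Function.onFun, Set.disjoint_left]
      rintro _ ⟨y, hy, rfl⟩ ⟨y', hy', he⟩
      apply hne
      simp only at hy hy' he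
      obtain ⟨a1, a2⟩ := AREA3_qmap M i (ζ l k i) y (hphi l k i y hy)
      obtain ⟨b1, b2⟩ := AREA3_qmap M i (ζ l' k' i) y' (hphi l' k' i y' hy')
      rw [he] at b1 b2
      have hyy : y = y' := a2.symm.trans b2
      subst hyy
      have hl : l = l' := by
        by_contra hll
        exact Set.disjoint_left.1 (hAd hll) hy.1 hy'.1
      subst hl
      have h1 : M.e i (x l k y) = M.e i (x l k' y) := a1.symm.trans b1
      have h2 : x l k y = x l k' y :=
        (M.e i).injOn (hBs i hy.2).1 (hBs i hy'.2).1 h1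
      have h3 : k = k' := hinj l y hy.1 h2
      rw [h3]
    have hsig : ∑ l, ∑ k, ∫⁻ q in qmap M i (ζ l k i) '' Y l k i, W i q =
        ∑ p : (l : Λ) × N l, ∫⁻ q in qmap M i (ζ p.1 p.2 i) '' Y p.1 p.2 i, W i q := by
      rw [Fintype.sum_sigma]
    have hun := lintegral_iUnion (μ := (volume : Measure E3))
      (fun p : (l : Λ) × N l => (hpatch p.1 p.2 i).1) hdisj (W i)
    rw [tsum_fintype] at hun
    rw [hsig, ← hun]
    refine lintegral_mono_set ?_
    refine iUnion_subset fun p => ?_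
    rintro _ ⟨y, hy, rfl⟩
    obtain ⟨a1, a2⟩ := AREA3_qmap M i (ζ p.1 p.2 i) y (hphi p.1 p.2 i y hy)
    refine ⟨?_, ?_⟩
    · rw [a1]
      exact ⟨_, hy.2, rfl⟩
    · rw [a2]
      exact hAS p.1 hy.1
  -- conclusion
  have hHd : ∀ i, 0 ≤ ∫ z in M.e i '' B i, M.Hd i z := fun i =>
    integral_nonneg fun z => by
      unfold MongeSurf.Hd
      positivity
  calc ∑ l, ∑ k, ∫⁻ y in A l, ENNReal.ofReal |T l k y|
      ≤ ∑ l, ∑ k, ∑ i, ∫⁻ q in qmap M i (ζ l k i) '' Y l k i, W i q :=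
        Finset.sum_le_sum fun l _ => Finset.sum_le_sum fun k _ => hstep1 l k
    _ = ∑ i, ∑ l, ∑ k, ∫⁻ q in qmap M i (ζ l k i) '' Y l k i, W i q := by
        rw [Finset.sum_comm]
        exact Finset.sum_congr rfl fun l _ => Finset.sum_comm
    _ ≤ ∑ i, ENNReal.ofReal (6 * ∫ z in M.e i '' B i, M.Hd i z) :=
        Finset.sum_le_sum fun i _ => hstep2 i
    _ = ENNReal.ofReal (6 * ∑ i, ∫ z in M.e i '' B i, M.Hd i z) := by
        rw [← ENNReal.ofReal_sum_of_nonneg fun i _ => mul_nonneg (by norm_num) (hHd i),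
          Finset.mul_sum]

end Area3

end Topping
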