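import Pool.Agent.Lib.MP_bea121_gt.TC.Defs4

/-!
# Chart partitions exist (MP_bea121_gt, module CPART)
-/

open MeasureTheory Set Metric Topology Filter
open scoped RealInnerProductSpace Gradient ContDiff Manifold

noncomputable section

namespace Topping

section Cpart

/-- preimage of a measurable set under a map which is continuous on a measurable set -/
theorem measurableSet_inter_preimage_of_continuousOn {α β : Type*} [TopologicalSpace α]
    [MeasurableSpace α] [OpensMeasurableSpace α] [TopologicalSpace β] [MeasurableSpace β]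
    [BorelSpace β] {f : α → β} {s : Set α} (hs : MeasurableSet s) (hf : ContinuousOn f s)
    {B : Set β} (hB : MeasurableSet B) : MeasurableSet (s ∩ f ⁻¹' B) := by
  have h1 : MeasurableSet (s.domRestrict f ⁻¹' B) :=
    (continuousOn_iff_continuous_domRestrict.1 hf).measurable hB
  have h2 := hs.subtype_image h1
  have h3 : (Subtype.val '' (s.domRestrict f ⁻¹' B) : Set α) = s ∩ f ⁻¹' B := by
    ext y
    constructor
    · rintro ⟨⟨z, hz⟩, hz', rfl⟩
      exact ⟨hz, hz'⟩
    · rintro ⟨hy, hy'⟩
      exact ⟨⟨y, hy⟩, hy', rfl⟩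
  rwa [h3] at h2

variable {S : Type} [TopologicalSpace S] [CompactSpace S] [T2Space S] [ChartedSpace E2 S] [MeasurableSpace S] [BorelSpace S]

omit [CompactSpace S] [T2Space S] in
theorem image_meas (x : S) (B : Set S) (hB : MeasurableSet B) (hBs : B ⊆ (chartAt E2 x).source) :
    MeasurableSet (chartAt E2 x '' B) := by
  have h1 : chartAt E2 x '' B = (chartAt E2 x).target ∩ (chartAt E2 x).symm ⁻¹' B :=
    (chartAt E2 x).image_eq_target_inter_inv_preimage hBs
  rw [h1]
  exact measurableSet_inter_preimage_of_continuousOn (chartAt E2 x).open_target.measurableSet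
    (chartAt E2 x).continuousOn_symm hB

omit [T2Space S] in
theorem exists_chartPart : Nonempty (ChartPart S) := by
  classical
  have hr : ∀ x : S, ∃ r > 0, closedBall (chartAt E2 x x) r ⊆ (chartAt E2 x).target := fun x =>
    Metric.nhds_basis_closedBall.mem_iff.1
      ((chartAt E2 x).open_target.mem_nhds (mem_chart_target E2 x))
  choose r hr0 hr using hr
  let O : S → Set S := fun x => (chartAt E2 x).source ∩ (chartAt E2 x) ⁻¹' ball (chartAt E2 x x) (r x)
  have hO : ∀ x, IsOpen (O x) := fun x => (chartAt E2 x).isOpen_inter_preimage isOpen_ball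
  have hxO : ∀ x, x ∈ O x := fun x => ⟨mem_chart_source E2 x, mem_ball_self (hr0 x)⟩
  obtain ⟨t, ht⟩ := isCompact_univ.elim_finite_subcover O hO
    (fun x _ => mem_iUnion.2 ⟨x, hxO x⟩)
  let n := t.card
  let en := t.equivFin
  let xs : Fin t.card → S := fun j => (en.symm j : S)
  let Oj : ℕ → Set S := fun j => if h : j < t.card then O (xs ⟨j, h⟩) else ∅
  have hOj : ∀ j : Fin t.card, Oj j = O (xs j) := fun j => by simp [Oj]
  refine ⟨{ J := Fin t.card
            fJ := inferInstance
            x := xs
            C := fun j => disjointed Oj j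
            K := fun j => closedBall (chartAt E2 (xs j) (xs j)) (r (xs j))
            meas := ?_, sub := ?_, disj := ?_, union := ?_, compact := ?_, image_sub := ?_
            K_sub := ?_ }⟩
  · intro j
    refine MeasurableSet.disjointed (fun k => ?_) j
    simp only [Oj]
    split_ifs
    · exact (hO _).measurableSet
    · exact MeasurableSet.empty
  · intro j
    refine (disjointed_le Oj j).trans ?_
    rw [hOj]
    exact inter_subset_left
  · intro i j hij
    exact disjoint_disjointed Oj (fun h => hij (Fin.ext h))
  · rw [eq_univ_iff_forall]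
    intro x
    have h1 : x ∈ ⋃ k, disjointed Oj k := by
      rw [iUnion_disjointed]
      obtain ⟨y, hy⟩ := mem_iUnion.1 (ht (mem_univ x))
      obtain ⟨hyt, hxy⟩ := mem_iUnion.1 hy
      refine mem_iUnion.2 ⟨en ⟨y, hyt⟩, ?_⟩
      rw [hOj]
      simpa [xs] using hxy
    obtain ⟨k, hk⟩ := mem_iUnion.1 h1
    have hk' : k < t.card := by
      by_contra hcon
      have := disjointed_le Oj k hk
      simp [Oj, hcon] at this
    exact mem_iUnion.2 ⟨⟨k, hk'⟩, hk⟩
  · intro j
    exact isCompact_closedBall _ _
  · intro j
    rintro _ ⟨x, hx, rfl⟩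
    have h1 := disjointed_le Oj j hx
    rw [hOj] at h1
    exact ball_subset_closedBall h1.2
  · intro j
    exact hr _

end Cpart

end Topping
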