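import Mathlib
import Pool.Agent.Lib.MP_bea121_gt.TC.Defs4

/-!
# MP_bea121_gt TC module REPAR: change of parameters for the fundamental forms
-/

open MeasureTheory Set Metric Topology Filter
open scoped RealInnerProductSpace Gradient ContDiff Manifold

noncomputable section

namespace Topping

/-! ### Algebra of the cross product -/

theorem REPAR_inner (a b : E3) : ⟪a, b⟫ = a 0 * b 0 + a 1 * b 1 + a 2 * b 2 := by
  rw [PiLp.inner_apply, Fin.sum_univ_three]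
  simp only [RCLike.inner_apply, conj_trivial]
  ring

theorem REPAR_cross0 (a b : E3) : cross a b 0 = a 1 * b 2 - a 2 * b 1 := rfl
theorem REPAR_cross1 (a b : E3) : cross a b 1 = a 2 * b 0 - a 0 * b 2 := rfl
theorem REPAR_cross2 (a b : E3) : cross a b 2 = a 0 * b 1 - a 1 * b 0 := rfl

theorem REPAR_inner_cross (u a b : E3) : ⟪u, cross a b⟫ =
    u 0 * (a 1 * b 2 - a 2 * b 1) + u 1 * (a 2 * b 0 - a 0 * b 2) + u 2 * (a 0 * b 1 - a 1 * b 0) := by
  rw [REPAR_inner, REPAR_cross0, REPAR_cross1, REPAR_cross2]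

theorem REPAR_left (a b : E3) : ⟪a, cross a b⟫ = 0 := by
  rw [REPAR_inner_cross]; ring

theorem REPAR_right (a b : E3) : ⟪b, cross a b⟫ = 0 := by
  rw [REPAR_inner_cross]; ring

theorem REPAR_cross_lin (u v : E3) (a11 a21 a12 a22 : ℝ) :
    cross (a11 • u + a21 • v) (a12 • u + a22 • v) = (a11 * a22 - a12 * a21) • cross u v := by
  ext i
  fin_cases i
  · show cross _ _ 0 = _ * cross _ _ 0
    simp only [REPAR_cross0, PiLp.add_apply, PiLp.smul_apply, smul_eq_mul]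
    ring
  · show cross _ _ 1 = _ * cross _ _ 1
    simp only [REPAR_cross1, PiLp.add_apply, PiLp.smul_apply, smul_eq_mul]
    ring
  · show cross _ _ 2 = _ * cross _ _ 2
    simp only [REPAR_cross2, PiLp.add_apply, PiLp.smul_apply, smul_eq_mul]
    ring

theorem REPAR_lagrange (a b : E3) : ⟪a, a⟫ * ⟪b, b⟫ - ⟪a, b⟫ ^ 2 = ‖cross a b‖ ^ 2 := by
  rw [← real_inner_self_eq_norm_sq, REPAR_inner_cross, REPAR_inner, REPAR_inner, REPAR_inner,
    REPAR_cross0, REPAR_cross1, REPAR_cross2]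
  ring

theorem REPAR_dec (v : E2) : v = v 0 • ex + v 1 • ey := by
  ext i
  fin_cases i <;> simp [ex, ey]

theorem REPAR_det (A : E2 →L[ℝ] E2) : A.det = A ex 0 * A ey 1 - A ey 0 * A ex 1 := by
  have h1 : A.det = LinearMap.det (A : E2 →ₗ[ℝ] E2) := rfl
  rw [h1, ← LinearMap.det_toMatrix (EuclideanSpace.basisFun (Fin 2) ℝ).toBasis, Matrix.det_fin_two]
  simp [LinearMap.toMatrix_apply, ex, ey]

/-! ### Calculus -/

/-- second derivatives in terms of the second Frechet derivative -/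
theorem REPAR_snd (F : E2 → E3) (z : E2) (hF : ContDiffAt ℝ 2 F z) (u v : E2) :
    fderiv ℝ (fun w => fderiv ℝ F w u) z v = fderiv ℝ (fderiv ℝ F) z v u := by
  have h1 : DifferentiableAt ℝ (fderiv ℝ F) z :=
    (hF.fderiv_right (m := 1) (by norm_num)).differentiableAt (by norm_num)
  have h2 := h1.hasFDerivAt.clm_apply (hasFDerivAt_const u z)
  rw [h2.fderiv]
  simp

theorem REPAR_symm (F : E2 → E3) (z : E2) (hF : ContDiffAt ℝ 2 F z) (u v : E2) :
    fderiv ℝ (fderiv ℝ F) z u v = fderiv ℝ (fderiv ℝ F) z v u :=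
  hF.isSymmSndFDerivAt (by simp) u v

theorem REPAR_hL (F : E2 → E3) (z : E2) (hF : ContDiffAt ℝ 2 F z) :
    hL F z = ⟪fderiv ℝ (fderiv ℝ F) z ex ex, cross (Fx F z) (Fy F z)⟫ := by
  unfold hL
  rw [← REPAR_snd F z hF ex ex]
  rfl

theorem REPAR_hM (F : E2 → E3) (z : E2) (hF : ContDiffAt ℝ 2 F z) :
    hM F z = ⟪fderiv ℝ (fderiv ℝ F) z ey ex, cross (Fx F z) (Fy F z)⟫ := by
  unfold hM
  rw [← REPAR_snd F z hF ex ey]
  rfl

theorem REPAR_hN (F : E2 → E3) (z : E2) (hF : ContDiffAt ℝ 2 F z) :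
    hN F z = ⟪fderiv ℝ (fderiv ℝ F) z ey ey, cross (Fx F z) (Fy F z)⟫ := by
  unfold hN
  rw [← REPAR_snd F z hF ey ey]
  rfl

/-- first derivatives of the composition, near the point -/
theorem REPAR_fst (F₁ F₂ : E2 → E3) (τ : E2 → E2) (z : E2) (hτ : ContDiffAt ℝ 2 τ z)
    (hF : ContDiffAt ℝ 2 F₂ (τ z)) (h : F₁ =ᶠ[𝓝 z] F₂ ∘ τ) :
    fderiv ℝ F₁ =ᶠ[𝓝 z] fun w => (fderiv ℝ F₂ (τ w)).comp (fderiv ℝ τ w) := by
  have h1 : ∀ᶠ w in 𝓝 z, ContDiffAt ℝ 2 τ w := hτ.eventually (by simp)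
  have h2 : ∀ᶠ p in 𝓝 (τ z), ContDiffAt ℝ 2 F₂ p := hF.eventually (by simp)
  have h3 : ∀ᶠ w in 𝓝 z, ContDiffAt ℝ 2 F₂ (τ w) := hτ.continuousAt.eventually h2
  have h4 : ∀ᶠ w in 𝓝 z, F₁ =ᶠ[𝓝 w] F₂ ∘ τ := h.eventually_nhds
  filter_upwards [h1, h3, h4] with w hw1 hw3 hw4
  rw [hw4.fderiv_eq]
  exact fderiv_comp w (hw3.differentiableAt (by norm_num)) (hw1.differentiableAt (by norm_num))

/-- second derivative of the composition -/
theorem REPAR_snd_comp (F₁ F₂ : E2 → E3) (τ : E2 → E2) (z : E2) (hτ : ContDiffAt ℝ 2 τ z)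
    (hF : ContDiffAt ℝ 2 F₂ (τ z)) (h : F₁ =ᶠ[𝓝 z] F₂ ∘ τ) (v u : E2) :
    fderiv ℝ (fderiv ℝ F₁) z v u =
      fderiv ℝ (fderiv ℝ F₂) (τ z) (fderiv ℝ τ z v) (fderiv ℝ τ z u) +
        fderiv ℝ F₂ (τ z) (fderiv ℝ (fderiv ℝ τ) z v u) := by
  rw [(REPAR_fst F₁ F₂ τ z hτ hF h).fderiv_eq]
  have h1 : HasFDerivAt (fderiv ℝ τ) (fderiv ℝ (fderiv ℝ τ) z) z :=
    ((hτ.fderiv_right (m := 1) (by norm_num)).differentiableAt (by norm_num)).hasFDerivAt
  have h2 : HasFDerivAt (fderiv ℝ F₂) (fderiv ℝ (fderiv ℝ F₂) (τ z)) (τ z) :=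
    ((hF.fderiv_right (m := 1) (by norm_num)).differentiableAt (by norm_num)).hasFDerivAt
  have h3 : HasFDerivAt τ (fderiv ℝ τ z) z := (hτ.differentiableAt (by norm_num)).hasFDerivAt
  have h4 := (h2.comp z h3).clm_comp h1
  have h5 : fderiv ℝ (fun w => (fderiv ℝ F₂ (τ w)).comp (fderiv ℝ τ w)) z = _ := h4.fderiv
  rw [h5]
  simp [add_comm]

/-- orthogonality of tangent vectors to the cross product -/
theorem REPAR_tang (A : E2 →L[ℝ] E3) (v : E2) : ⟪A v, cross (A ex) (A ey)⟫ = 0 := by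
  have h : A v = v 0 • A ex + v 1 • A ey := by
    conv_lhs => rw [REPAR_dec v]
    rw [map_add, map_smul, map_smul]
  rw [h, inner_add_left, inner_smul_left, inner_smul_left, REPAR_left, REPAR_right]
  simp

/-- all the quantities at once -/
theorem REPAR_all (F₁ F₂ : E2 → E3) (τ : E2 → E2) (z : E2) (hτ : ContDiffAt ℝ 2 τ z)
    (hF : ContDiffAt ℝ 2 F₂ (τ z)) (h : F₁ =ᶠ[𝓝 z] F₂ ∘ τ) :
    ∃ a11 a21 a12 a22 : ℝ, (fderiv ℝ τ z).det = a11 * a22 - a12 * a21 ∧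
      gE F₁ z = a11 ^ 2 * gE F₂ (τ z) + 2 * a11 * a21 * gF F₂ (τ z) + a21 ^ 2 * gG F₂ (τ z) ∧
      gF F₁ z = a11 * a12 * gE F₂ (τ z) + (a11 * a22 + a21 * a12) * gF F₂ (τ z) +
        a21 * a22 * gG F₂ (τ z) ∧
      gG F₁ z = a12 ^ 2 * gE F₂ (τ z) + 2 * a12 * a22 * gF F₂ (τ z) + a22 ^ 2 * gG F₂ (τ z) ∧
      hL F₁ z = (a11 * a22 - a12 * a21) *
        (a11 ^ 2 * hL F₂ (τ z) + 2 * a11 * a21 * hM F₂ (τ z) + a21 ^ 2 * hN F₂ (τ z)) ∧
      hM F₁ z = (a11 * a22 - a12 * a21) *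
        (a11 * a12 * hL F₂ (τ z) + (a11 * a22 + a21 * a12) * hM F₂ (τ z) +
        a21 * a22 * hN F₂ (τ z)) ∧
      hN F₁ z = (a11 * a22 - a12 * a21) *
        (a12 ^ 2 * hL F₂ (τ z) + 2 * a12 * a22 * hM F₂ (τ z) + a22 ^ 2 * hN F₂ (τ z)) := by
  have hF1 : ContDiffAt ℝ 2 F₁ z := (hF.comp z hτ).congr_of_eventuallyEq h
  set J := fderiv ℝ τ z with hJ
  set A := fderiv ℝ F₂ (τ z) with hA
  set B := fderiv ℝ (fderiv ℝ F₂) (τ z) with hB
  have hcomp : ∀ v u, fderiv ℝ (fderiv ℝ F₁) z v u = B (J v) (J u) +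
      A (fderiv ℝ (fderiv ℝ τ) z v u) := REPAR_snd_comp F₁ F₂ τ z hτ hF h
  have hL2 : hL F₂ (τ z) = ⟪B ex ex, cross (Fx F₂ (τ z)) (Fy F₂ (τ z))⟫ := REPAR_hL F₂ (τ z) hF
  have hM2 : hM F₂ (τ z) = ⟪B ey ex, cross (Fx F₂ (τ z)) (Fy F₂ (τ z))⟫ := REPAR_hM F₂ (τ z) hF
  have hN2 : hN F₂ (τ z) = ⟪B ey ey, cross (Fx F₂ (τ z)) (Fy F₂ (τ z))⟫ := REPAR_hN F₂ (τ z) hF
  have hx : J ex = J ex 0 • ex + J ex 1 • ey := REPAR_dec _
  have hy : J ey = J ey 0 • ex + J ey 1 • ey := REPAR_dec _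
  have hfst : fderiv ℝ F₁ z = A.comp J := (REPAR_fst F₁ F₂ τ z hτ hF h).self_of_nhds
  have hFx : Fx F₁ z = J ex 0 • Fx F₂ (τ z) + J ex 1 • Fy F₂ (τ z) := by
    unfold Fx Fy
    rw [hfst, ContinuousLinearMap.comp_apply]
    conv_lhs => rw [hx]
    rw [map_add, map_smul, map_smul]
  have hFy : Fy F₁ z = J ey 0 • Fx F₂ (τ z) + J ey 1 • Fy F₂ (τ z) := by
    unfold Fx Fy
    rw [hfst, ContinuousLinearMap.comp_apply]
    conv_lhs => rw [hy]
    rw [map_add, map_smul, map_smul]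
  have hcr : cross (Fx F₁ z) (Fy F₁ z) =
      (J ex 0 * J ey 1 - J ey 0 * J ex 1) • cross (Fx F₂ (τ z)) (Fy F₂ (τ z)) := by
    rw [hFx, hFy, REPAR_cross_lin]
  have htan : ∀ v, ⟪A v, cross (Fx F₂ (τ z)) (Fy F₂ (τ z))⟫ = 0 := fun v => REPAR_tang A v
  have hsym : ∀ u v, B u v = B v u := fun u v => REPAR_symm F₂ (τ z) hF u v
  have hBxx : B (J ex) (J ex) = (J ex 0) ^ 2 • B ex ex + (2 * J ex 0 * J ex 1) • B ey ex +
      (J ex 1) ^ 2 • B ey ey := by
    conv_lhs => rw [hx]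
    simp only [map_add, map_smul, add_apply, smul_apply]
    rw [hsym ex ey]
    module
  have hByx : B (J ey) (J ex) = (J ex 0 * J ey 0) • B ex ex +
      (J ex 0 * J ey 1 + J ex 1 * J ey 0) • B ey ex + (J ex 1 * J ey 1) • B ey ey := by
    conv_lhs => rw [hx, hy]
    simp only [map_add, map_smul, add_apply, smul_apply]
    rw [hsym ex ey]
    module
  have hByy : B (J ey) (J ey) = (J ey 0) ^ 2 • B ex ex + (2 * J ey 0 * J ey 1) • B ey ex +
      (J ey 1) ^ 2 • B ey ey := by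
    conv_lhs => rw [hy]
    simp only [map_add, map_smul, add_apply, smul_apply]
    rw [hsym ex ey]
    module
  refine ⟨J ex 0, J ex 1, J ey 0, J ey 1, REPAR_det J, ?_, ?_, ?_, ?_, ?_, ?_⟩
  · unfold gE gF gG
    rw [hFx]
    simp only [inner_add_left, inner_add_right, real_inner_smul_left, real_inner_smul_right]
    rw [real_inner_comm (Fx F₂ (τ z)) (Fy F₂ (τ z))]
    ring
  · unfold gE gF gG
    rw [hFx, hFy]
    simp only [inner_add_left, inner_add_right, real_inner_smul_left, real_inner_smul_right]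
    rw [real_inner_comm (Fx F₂ (τ z)) (Fy F₂ (τ z))]
    ring
  · unfold gE gF gG
    rw [hFy]
    simp only [inner_add_left, inner_add_right, real_inner_smul_left, real_inner_smul_right]
    rw [real_inner_comm (Fx F₂ (τ z)) (Fy F₂ (τ z))]
    ring
  · rw [REPAR_hL F₁ z hF1, hL2, hM2, hN2,
      hcomp, hcr, hBxx]
    simp only [inner_add_left, real_inner_smul_left, real_inner_smul_right, htan]
    ring
  · rw [REPAR_hM F₁ z hF1, hL2, hM2, hN2,
      hcomp, hcr, hByx]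
    simp only [inner_add_left, real_inner_smul_left, real_inner_smul_right, htan]
    ring
  · rw [REPAR_hN F₁ z hF1, hL2, hM2, hN2,
      hcomp, hcr, hByy]
    simp only [inner_add_left, real_inner_smul_left, real_inner_smul_right, htan]
    ring

section Repar

theorem reparam_K (F₁ F₂ : E2 → E3) (τ : E2 → E2) (z : E2) (hτ : ContDiffAt ℝ 2 τ z)
    (hF : ContDiffAt ℝ 2 F₂ (τ z)) (h : F₁ =ᶠ[𝓝 z] F₂ ∘ τ) :
    gD F₁ z = gD F₂ (τ z) * (fderiv ℝ τ z).det ^ 2 ∧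
    KnF F₁ z = KnF F₂ (τ z) * (fderiv ℝ τ z).det ^ 4 := by
  obtain ⟨a11, a21, a12, a22, hd, hE, hFF, hG, hL', hM', hN'⟩ := REPAR_all F₁ F₂ τ z hτ hF h
  constructor
  · unfold gD
    rw [hE, hFF, hG, hd]
    ring
  · unfold KnF
    rw [hL', hM', hN', hd]
    ring

theorem reparam (F₁ F₂ : E2 → E3) (τ : E2 → E2) (z : E2) (hτ : ContDiffAt ℝ 2 τ z)
    (hF : ContDiffAt ℝ 2 F₂ (τ z)) (h : F₁ =ᶠ[𝓝 z] F₂ ∘ τ) (hd : (fderiv ℝ τ z).det ≠ 0)
    (hg : gD F₂ (τ z) ≠ 0) :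
    gD F₁ z = gD F₂ (τ z) * (fderiv ℝ τ z).det ^ 2 ∧ areaD F₁ z = areaD F₂ (τ z) * |(fderiv ℝ τ z).det| ∧
    HdF F₁ z = HdF F₂ (τ z) * |(fderiv ℝ τ z).det| ∧ absH F₁ z = absH F₂ (τ z) := by
  have h1 := (reparam_K F₁ F₂ τ z hτ hF h).1
  have h2 : areaD F₁ z = areaD F₂ (τ z) * |(fderiv ℝ τ z).det| := by
    unfold areaD
    rw [h1, Real.sqrt_mul' _ (sq_nonneg _), Real.sqrt_sq_eq_abs]
  have h3 : HdF F₁ z = HdF F₂ (τ z) * |(fderiv ℝ τ z).det| := by
    unfold HdF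
    rw [h1]
    obtain ⟨a11, a21, a12, a22, hd', hE, hFF, hG, hL', hM', hN'⟩ := REPAR_all F₁ F₂ τ z hτ hF h
    have key : gE F₁ z * hN F₁ z - 2 * gF F₁ z * hM F₁ z + gG F₁ z * hL F₁ z =
        (gE F₂ (τ z) * hN F₂ (τ z) - 2 * gF F₂ (τ z) * hM F₂ (τ z) + gG F₂ (τ z) * hL F₂ (τ z)) *
          (fderiv ℝ τ z).det ^ 3 := by
      rw [hE, hFF, hG, hL', hM', hN', hd']
      ring
    rw [key, abs_mul, abs_pow]
    have h4 : (fderiv ℝ τ z).det ^ 2 = |(fderiv ℝ τ z).det| ^ 2 := (sq_abs _).symm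
    have h5 : |(fderiv ℝ τ z).det| ≠ 0 := abs_ne_zero.2 hd
    rw [h4]
    field_simp
  refine ⟨h1, h2, h3, ?_⟩
  unfold absH
  rw [h2, h3]
  have h5 : |(fderiv ℝ τ z).det| ≠ 0 := abs_ne_zero.2 hd
  exact mul_div_mul_right _ _ h5

/-- `EG - F²` is the squared length of the cross product, and it is positive for immersions. -/
theorem gD_cross (F : E2 → E3) (z : E2) : gD F z = ‖cross (Fx F z) (Fy F z)‖ ^ 2 ∧ 0 ≤ gD F z ∧
    (gD F z ≠ 0 ↔ Function.Injective (fderiv ℝ F z)) := by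
  have h1 : gD F z = ‖cross (Fx F z) (Fy F z)‖ ^ 2 := REPAR_lagrange _ _
  refine ⟨h1, by rw [h1]; positivity, ?_⟩
  have hdec : ∀ v : E2, fderiv ℝ F z v = v 0 • Fx F z + v 1 • Fy F z := by
    intro v
    conv_lhs => rw [REPAR_dec v]
    rw [map_add, map_smul, map_smul]
    rfl
  constructor
  · intro hne
    rw [injective_iff_map_eq_zero]
    intro v hv
    rw [hdec] at hv
    have e1 : v 0 * gE F z + v 1 * gF F z = 0 := by
      have := congrArg (fun w => ⟪Fx F z, w⟫) hv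
      simpa [inner_add_right, real_inner_smul_right, gE, gF] using this
    have e2 : v 0 * gF F z + v 1 * gG F z = 0 := by
      have := congrArg (fun w => ⟪Fy F z, w⟫) hv
      simp only [inner_add_right, real_inner_smul_right, inner_zero_right] at this
      rw [real_inner_comm (Fx F z) (Fy F z)] at this
      exact this
    have e3 : v 0 * gD F z = 0 := by unfold gD; linear_combination gG F z * e1 - gF F z * e2
    have e4 : v 1 * gD F z = 0 := by unfold gD; linear_combination gE F z * e2 - gF F z * e1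
    have e5 : v 0 = 0 := (mul_eq_zero.1 e3).resolve_right hne
    have e6 : v 1 = 0 := (mul_eq_zero.1 e4).resolve_right hne
    rw [REPAR_dec v, e5, e6]
    simp
  · intro hinj hD
    have hk : ∀ v : E2, fderiv ℝ F z v = 0 → v = 0 := (injective_iff_map_eq_zero _).1 hinj
    have hv : fderiv ℝ F z (gG F z • ex + (-gF F z) • ey) = 0 := by
      rw [← inner_self_eq_zero (𝕜 := ℝ), map_add, map_smul, map_smul]
      show ⟪gG F z • Fx F z + (-gF F z) • Fy F z, gG F z • Fx F z + (-gF F z) • Fy F z⟫ = 0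
      simp only [inner_add_left, inner_add_right, real_inner_smul_left, real_inner_smul_right]
      rw [real_inner_comm (Fx F z) (Fy F z)]
      have e1 : gE F z = ⟪Fx F z, Fx F z⟫ := rfl
      have e2 : gF F z = ⟪Fx F z, Fy F z⟫ := rfl
      have e3 : gG F z = ⟪Fy F z, Fy F z⟫ := rfl
      rw [← e1, ← e2, ← e3]
      unfold gD at hD
      linear_combination gG F z * hD
    have h0 := hk _ hv
    have hG : gG F z = 0 := by
      have := congrArg (fun v : E2 => v 0) h0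
      simpa [ex, ey] using this
    have hFy : Fy F z = 0 := by
      rw [← inner_self_eq_zero (𝕜 := ℝ)]
      exact hG
    have h2 : ey = 0 := hk _ hFy
    have h3 := congrArg (fun v : E2 => v 1) h2
    simp [ey] at h3

/-- continuity of the coefficients -/
theorem coeff_cont (F : E2 → E3) (U : Set E2) (hU : IsOpen U) (hF : ContDiffOn ℝ 2 F U)
    (hg : ∀ z ∈ U, gD F z ≠ 0) : ContinuousOn (gD F) U ∧ ContinuousOn (areaD F) U ∧ ContinuousOn (HdF F) U ∧
    ContinuousOn (absH F) U ∧ ContinuousOn (KnF F) U := by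
  have h1 : ContDiffOn ℝ 1 (fderiv ℝ F) U := hF.fderiv_of_isOpen hU (by norm_num)
  have hx1 : ContDiffOn ℝ 1 (Fx F) U := h1.clm_apply contDiffOn_const
  have hy1 : ContDiffOn ℝ 1 (Fy F) U := h1.clm_apply contDiffOn_const
  have hx0 : ContinuousOn (Fx F) U := hx1.continuousOn
  have hy0 : ContinuousOn (Fy F) U := hy1.continuousOn
  have hxx : ContinuousOn (fun z => fderiv ℝ (Fx F) z) U := hx1.continuousOn_fderiv_of_isOpen hU (by norm_num)
  have hyy : ContinuousOn (fun z => fderiv ℝ (Fy F) z) U := hy1.continuousOn_fderiv_of_isOpen hU (by norm_num)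
  have hcr : Continuous (fun p : E3 × E3 => cross p.1 p.2) := by
    unfold cross
    fun_prop
  have hc : ContinuousOn (fun z => cross (Fx F z) (Fy F z)) U :=
    hcr.comp_continuousOn (hx0.prodMk hy0)
  have cE : ContinuousOn (gE F) U := hx0.inner hx0
  have cF : ContinuousOn (gF F) U := hx0.inner hy0
  have cG : ContinuousOn (gG F) U := hy0.inner hy0
  have cL : ContinuousOn (hL F) U := (hxx.clm_apply continuousOn_const).inner hc
  have cM : ContinuousOn (hM F) U := (hxx.clm_apply continuousOn_const).inner hc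
  have cN : ContinuousOn (hN F) U := (hyy.clm_apply continuousOn_const).inner hc
  have cD : ContinuousOn (gD F) U := (cE.mul cG).sub (cF.pow 2)
  have cA : ContinuousOn (areaD F) U := cD.sqrt
  have cH : ContinuousOn (HdF F) U := by
    refine ContinuousOn.div ?_ (continuousOn_const.mul cD) fun z hz => mul_ne_zero two_ne_zero (hg z hz)
    exact (((cE.mul cN).sub ((continuousOn_const.mul cF).mul cM)).add (cG.mul cL)).abs
  refine ⟨cD, cA, cH, ?_, (cL.mul cN).sub (cM.pow 2)⟩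
  refine cH.div cA fun z hz => ?_
  have h2 : 0 < gD F z := lt_of_le_of_ne (gD_cross F z).2.1 (Ne.symm (hg z hz))
  exact (Real.sqrt_pos.2 h2).ne'
end Repar

end Topping
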