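import Mathlib
import Pool.Agent.Lib.MP_bea121_gt.TC.Defs4
import Pool.Agent.Lib.MP_bea121_gt.TC.Repar

/-!
# Immersions in charts (MP_bea121_gt, module MCH)
-/

open MeasureTheory Set Metric Topology Filter
open scoped RealInnerProductSpace Gradient ContDiff Manifold

noncomputable section

namespace Topping

section Mch
variable {S : Type} [TopologicalSpace S] [ChartedSpace E2 S]

theorem MCH_smooth_lp [IsManifold (𝓡 2) ∞ S] (f : S → E3) (hf : IsImm f) (x : S) :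
    ContDiffOn ℝ ∞ (lp f x) (chartAt E2 x).target := by
  rw [← contMDiffOn_iff_contDiffOn]
  have h1 : ContMDiffOn (𝓡 2) (𝓡 2) ∞ (chartAt E2 x).symm (chartAt E2 x).target :=
    contMDiffOn_chart_symm
  exact hf.smooth.comp_contMDiffOn h1

theorem MCH_mdiff_chart [IsManifold (𝓡 2) ∞ S] (x : S) :
    (chartAt E2 x).MDifferentiable (𝓡 2) (𝓡 2) := by
  have : IsManifold (𝓡 2) 1 S := IsManifold.of_le (n := ∞) (by simp)
  exact mdifferentiable_chart x

theorem MCH_inj_lp [IsManifold (𝓡 2) ∞ S] (f : S → E3) (hf : IsImm f) (x : S) (z : E2)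
    (hz : z ∈ (chartAt E2 x).target) : Function.Injective (fderiv ℝ (lp f x) z) := by
  have hc := MCH_mdiff_chart x
  have h1 : MDifferentiableAt (𝓡 2) (𝓡 2) (chartAt E2 x).symm z := hc.mdifferentiableAt_symm hz
  have h2 : MDifferentiableAt (𝓡 2) (𝓡 3) f ((chartAt E2 x).symm z) :=
    (hf.smooth _).mdifferentiableAt (by simp)
  have h3 : mfderiv (𝓡 2) (𝓡 3) (lp f x) z
      = (mfderiv (𝓡 2) (𝓡 3) f ((chartAt E2 x).symm z)).comp
        (mfderiv (𝓡 2) (𝓡 2) (chartAt E2 x).symm z) := mfderiv_comp z h2 h1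
  have h4 : Function.Injective (mfderiv (𝓡 2) (𝓡 2) (chartAt E2 x).symm z) :=
    hc.symm.mfderiv_injective hz
  have h5 : Function.Injective (mfderiv (𝓡 2) (𝓡 3) (lp f x) z) := by
    rw [h3]
    exact (hf.inj _).comp h4
  rwa [mfderiv_eq_fderiv] at h5

variable [IsManifold (𝓡 2) ∞ S]

theorem imm_chart (f : S → E3) (hf : IsImm f) (x : S) :
    ContDiffOn ℝ ∞ (lp f x) (chartAt E2 x).target ∧
      ∀ z ∈ (chartAt E2 x).target, gD (lp f x) z ≠ 0 :=
  ⟨MCH_smooth_lp f hf x, fun z hz => (gD_cross (lp f x) z).2.2.2 (MCH_inj_lp f hf x z hz)⟩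

theorem MCH_trans (x x' : S) : ContDiffOn ℝ ∞ (chartAt E2 x' ∘ (chartAt E2 x).symm)
    ((chartAt E2 x).target ∩ (chartAt E2 x).symm ⁻¹' (chartAt E2 x').source) := by
  rw [← contMDiffOn_iff_contDiffOn]
  have h1 : ContMDiffOn (𝓡 2) (𝓡 2) ∞ (chartAt E2 x).symm (chartAt E2 x).target :=
    contMDiffOn_chart_symm
  have h2 : ContMDiffOn (𝓡 2) (𝓡 2) ∞ (chartAt E2 x') (chartAt E2 x').source :=
    contMDiffOn_chart
  exact h2.comp (h1.mono inter_subset_left) (fun z hz => hz.2)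

theorem trans_chart (x x' : S) : ContDiffOn ℝ ∞ (chartAt E2 x' ∘ (chartAt E2 x).symm)
    ((chartAt E2 x).target ∩ (chartAt E2 x).symm ⁻¹' (chartAt E2 x').source) ∧
    ∀ z ∈ (chartAt E2 x).target ∩ (chartAt E2 x).symm ⁻¹' (chartAt E2 x').source,
      (fderiv ℝ (chartAt E2 x' ∘ (chartAt E2 x).symm) z).det ≠ 0 := by
  refine ⟨MCH_trans x x', fun z hz => ?_⟩
  have hc := MCH_mdiff_chart x
  have hc' := MCH_mdiff_chart x'
  have h1 : MDifferentiableAt (𝓡 2) (𝓡 2) (chartAt E2 x).symm z := hc.mdifferentiableAt_symm hz.1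
  have h2 : MDifferentiableAt (𝓡 2) (𝓡 2) (chartAt E2 x') ((chartAt E2 x).symm z) :=
    hc'.mdifferentiableAt hz.2
  have h3 : mfderiv (𝓡 2) (𝓡 2) (chartAt E2 x' ∘ (chartAt E2 x).symm) z
      = (mfderiv (𝓡 2) (𝓡 2) (chartAt E2 x') ((chartAt E2 x).symm z)).comp
        (mfderiv (𝓡 2) (𝓡 2) (chartAt E2 x).symm z) := mfderiv_comp z h2 h1
  have h4 : Function.Injective (mfderiv (𝓡 2) (𝓡 2) (chartAt E2 x).symm z) :=
    hc.symm.mfderiv_injective hz.1
  have h4' : Function.Injective (mfderiv (𝓡 2) (𝓡 2) (chartAt E2 x') ((chartAt E2 x).symm z)) :=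
    hc'.mfderiv_injective hz.2
  have h5 : Function.Injective (mfderiv (𝓡 2) (𝓡 2) (chartAt E2 x' ∘ (chartAt E2 x).symm) z) := by
    rw [h3]
    exact h4'.comp h4
  rw [mfderiv_eq_fderiv] at h5
  intro h6
  have h7 : LinearMap.ker (fderiv ℝ (chartAt E2 x' ∘ (chartAt E2 x).symm) z : E2 →ₗ[ℝ] E2) ≠ ⊥ :=
    (LinearMap.bot_lt_ker_of_det_eq_zero h6).ne'
  exact h7 (LinearMap.ker_eq_bot.2 h5)

theorem MCH_theta_deriv (b p : E3) :
    HasFDerivAt (fun q : E3 => q + ‖q‖ ^ 2 • b)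
      (ContinuousLinearMap.id ℝ E3 + ((2 : ℝ) • innerSL ℝ p).smulRight b) p := by
  have h1 : HasFDerivAt (fun q : E3 => ‖q‖ ^ 2) ((2 : ℝ) • innerSL ℝ p) p := by
    have := (hasStrictFDerivAt_norm_sq p).hasFDerivAt
    simpa [two_smul] using this
  exact (hasFDerivAt_id p).add (h1.smul_const b)

theorem imm_pert [CompactSpace S] (f : S → E3) (hf : IsImm f) :
    ∃ β > 0, ∀ b : E3, ‖b‖ < β → IsImm (fpert b f) := by
  have hcont : Continuous f := hf.smooth.continuous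
  obtain ⟨C, hC⟩ : ∃ C : ℝ, ∀ x, ‖f x‖ ≤ C := by
    have := (isCompact_univ (X := S)).image hcont
    obtain ⟨C, hC⟩ := this.isBounded.exists_norm_le
    exact ⟨C, fun x => hC _ ⟨x, mem_univ _, rfl⟩⟩
  refine ⟨1 / (2 * |C| + 1), by positivity, fun b hb => ⟨?_, fun x => ?_⟩⟩
  · have h1 : ContDiff ℝ ∞ (fun q : E3 => q + ‖q‖ ^ 2 • b) := by
      have h2 : ContDiff ℝ ∞ (fun q : E3 => ‖q‖ ^ 2) := contDiff_norm_sq ℝ
      exact contDiff_id.add (h2.smul contDiff_const)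
    exact h1.contMDiff.comp hf.smooth
  · have h1 : MDifferentiableAt (𝓡 3) (𝓡 3) (fun q : E3 => q + ‖q‖ ^ 2 • b) (f x) :=
      (MCH_theta_deriv b (f x)).differentiableAt.mdifferentiableAt
    have h2 : MDifferentiableAt (𝓡 2) (𝓡 3) f x := (hf.smooth _).mdifferentiableAt (by simp)
    have h3 : mfderiv (𝓡 2) (𝓡 3) (fpert b f) x
        = (mfderiv (𝓡 3) (𝓡 3) (fun q : E3 => q + ‖q‖ ^ 2 • b) (f x)).comp
          (mfderiv (𝓡 2) (𝓡 3) f x) := mfderiv_comp x h1 h2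
    rw [h3]
    have h4 : Function.Injective (mfderiv (𝓡 3) (𝓡 3) (fun q : E3 => q + ‖q‖ ^ 2 • b) (f x)) := by
      rw [mfderiv_eq_fderiv, (MCH_theta_deriv b (f x)).fderiv]
      have h5 : ∀ w : E3, (ContinuousLinearMap.id ℝ E3 +
          ((2 : ℝ) • innerSL ℝ (f x)).smulRight b) w = 0 → w = 0 := by
        intro w hw
        by_contra hw0
        have hw' : w = -((2 * ⟪f x, w⟫) • b) := by
          have : w + (2 * ⟪f x, w⟫) • b = 0 := by simpa using hw
          exact eq_neg_of_add_eq_zero_left this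
        have h6 : ‖w‖ = |2 * ⟪f x, w⟫| * ‖b‖ := by
          conv_lhs => rw [hw']
          rw [norm_neg, norm_smul, Real.norm_eq_abs]
        have h7 : |2 * ⟪f x, w⟫| ≤ 2 * |C| * ‖w‖ := by
          rw [abs_mul, abs_two, mul_assoc]
          have : |⟪f x, w⟫| ≤ ‖f x‖ * ‖w‖ := abs_real_inner_le_norm _ _
          have h8 : ‖f x‖ * ‖w‖ ≤ |C| * ‖w‖ :=
            mul_le_mul_of_nonneg_right ((hC x).trans (le_abs_self C)) (norm_nonneg _)
          linarith
        have hwp : 0 < ‖w‖ := norm_pos_iff.2 hw0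
        have h8 : ‖w‖ ≤ 2 * |C| * ‖w‖ * ‖b‖ := by
          conv_lhs => rw [h6]
          exact mul_le_mul_of_nonneg_right h7 (norm_nonneg _)
        have h9 : (2 * |C| + 1) * ‖b‖ < 1 := by
          have := (lt_div_iff₀ (by positivity : (0 : ℝ) < 2 * |C| + 1)).1 hb
          linarith
        have h10 : 2 * |C| * ‖b‖ < 1 := by nlinarith [norm_nonneg b, abs_nonneg C]
        nlinarith
      exact (injective_iff_map_eq_zero (ContinuousLinearMap.id ℝ E3 +
          ((2 : ℝ) • innerSL ℝ (f x)).smulRight b)).2 h5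
    exact h4.comp (hf.inj x)

end Mch

end Topping
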