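import Pool.Agent.Lib.MP_bea121_gt.TC.Repar
import Pool.Agent.Lib.MP_bea121_gt.TC.Mch
import Pool.Agent.Lib.MP_bea121_gt.TC.Cpart

/-!
# Existence and uniqueness of the area measure (MP_bea121_gt, module AREAM)
-/

open MeasureTheory Set Metric Topology Filter
open scoped RealInnerProductSpace Gradient ContDiff Manifold

set_option linter.unusedSectionVars false

noncomputable section

namespace Topping

section Aream
variable {S : Type} [TopologicalSpace S] [CompactSpace S] [T2Space S] [ChartedSpace E2 S] [IsManifold (𝓡 2) ∞ S]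
  [MeasurableSpace S] [BorelSpace S]

/-- The change of parameters between the preferred charts at `x'` and `x` at the point `z`. -/
theorem chart_change (f : S → E3) (hf : IsImm f) (x x' : S) (z : E2)
    (hz : z ∈ (chartAt E2 x').target) (hz' : (chartAt E2 x').symm z ∈ (chartAt E2 x).source) :
    ContDiffAt ℝ 2 (chartAt E2 x ∘ (chartAt E2 x').symm) z ∧
    ContDiffAt ℝ 2 (lp f x) ((chartAt E2 x ∘ (chartAt E2 x').symm) z) ∧
    lp f x' =ᶠ[𝓝 z] lp f x ∘ (chartAt E2 x ∘ (chartAt E2 x').symm) ∧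
    (fderiv ℝ (chartAt E2 x ∘ (chartAt E2 x').symm) z).det ≠ 0 ∧
    gD (lp f x) ((chartAt E2 x ∘ (chartAt E2 x').symm) z) ≠ 0 := by
  have hW : IsOpen ((chartAt E2 x').target ∩ (chartAt E2 x').symm ⁻¹' (chartAt E2 x).source) :=
    (chartAt E2 x').symm.isOpen_inter_preimage (chartAt E2 x).open_source
  have hzW : z ∈ (chartAt E2 x').target ∩ (chartAt E2 x').symm ⁻¹' (chartAt E2 x).source :=
    ⟨hz, hz'⟩
  obtain ⟨h1, h2⟩ := trans_chart x' x
  obtain ⟨h3, h4⟩ := imm_chart f hf x
  have hτ : (chartAt E2 x ∘ (chartAt E2 x').symm) z ∈ (chartAt E2 x).target :=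
    (chartAt E2 x).map_source hz'
  refine ⟨((h1.contDiffAt (hW.mem_nhds hzW)).of_le (WithTop.coe_le_coe.2 (le_top : (2 : ℕ∞) ≤ ⊤))),
    (h3.contDiffAt ((chartAt E2 x).open_target.mem_nhds hτ)).of_le (WithTop.coe_le_coe.2 (le_top : (2 : ℕ∞) ≤ ⊤)),
    ?_, h2 z hzW, h4 _ hτ⟩
  filter_upwards [hW.mem_nhds hzW] with w hw
  simp only [lp, Function.comp]
  rw [(chartAt E2 x).left_inv hw.2]

/-- the density transforms correctly between two charts -/
theorem areaD_trans (f : S → E3) (hf : IsImm f) (x x' : S) (B : Set S) (hB : MeasurableSet B)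
    (h : B ⊆ (chartAt E2 x).source) (h' : B ⊆ (chartAt E2 x').source) :
    ∫⁻ z in chartAt E2 x '' B, ENNReal.ofReal (areaD (lp f x) z) =
      ∫⁻ z in chartAt E2 x' '' B, ENNReal.ofReal (areaD (lp f x') z) := by
  set τ : E2 → E2 := chartAt E2 x ∘ (chartAt E2 x').symm with hτ
  have hs : MeasurableSet (chartAt E2 x' '' B) := image_meas x' B hB h'
  have him : chartAt E2 x '' B = τ '' (chartAt E2 x' '' B) := by
    rw [image_image]
    refine image_congr fun b hb => ?_
    simp only [hτ, Function.comp]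
    rw [(chartAt E2 x').left_inv (h' hb)]
  have hinj : InjOn τ (chartAt E2 x' '' B) := by
    rintro _ ⟨b, hb, rfl⟩ _ ⟨b', hb', rfl⟩ hbb
    simp only [hτ, Function.comp] at hbb
    rw [(chartAt E2 x').left_inv (h' hb), (chartAt E2 x').left_inv (h' hb')] at hbb
    rw [(chartAt E2 x).injOn (h hb) (h hb') hbb]
  have hkey : ∀ z ∈ chartAt E2 x' '' B, z ∈ (chartAt E2 x').target ∧
      (chartAt E2 x').symm z ∈ (chartAt E2 x).source := by
    rintro _ ⟨b, hb, rfl⟩
    refine ⟨(chartAt E2 x').map_source (h' hb), ?_⟩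
    rw [(chartAt E2 x').left_inv (h' hb)]
    exact h hb
  rw [him, lintegral_image_eq_lintegral_abs_det_fderiv_mul volume hs
    (f' := fun z => fderiv ℝ τ z) (fun z hz => ?_) hinj]
  · refine setLIntegral_congr_fun hs fun z hz => ?_
    obtain ⟨h1, h2, h3, h4, h5⟩ := chart_change f hf x x' z (hkey z hz).1 (hkey z hz).2
    obtain ⟨-, h6, -, -⟩ := reparam (lp f x') (lp f x) τ z h1 h2 h3 h4 h5
    rw [h6, ENNReal.ofReal_mul' (abs_nonneg _), mul_comm]
  · obtain ⟨h1, -⟩ := chart_change f hf x x' z (hkey z hz).1 (hkey z hz).2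
    exact (h1.differentiableAt (by norm_num)).hasFDerivAt.hasFDerivWithinAt

/-- The area measure on a piece `C` of the domain of the chart at `x`. -/
def locArea (f : S → E3) (x : S) (C : Set S) : Measure S :=
  ((volume.restrict (chartAt E2 x '' C)).withDensity
    (fun z => ENNReal.ofReal (areaD (lp f x) z))).map (chartAt E2 x).symm

theorem symm_aemeasurable (f : S → E3) (x : S) (C : Set S) (hC : MeasurableSet C)
    (hCs : C ⊆ (chartAt E2 x).source) : AEMeasurable (chartAt E2 x).symm
      ((volume.restrict (chartAt E2 x '' C)).withDensity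
        (fun z => ENNReal.ofReal (areaD (lp f x) z))) := by
  refine AEMeasurable.mono_ac ?_ (withDensity_absolutelyContinuous _ _)
  refine ContinuousOn.aemeasurable ?_ (image_meas x C hC hCs)
  refine (chartAt E2 x).continuousOn_symm.mono ?_
  rintro _ ⟨b, hb, rfl⟩
  exact (chartAt E2 x).map_source (hCs hb)

theorem locArea_apply (f : S → E3) (x : S) (C : Set S) (hC : MeasurableSet C)
    (hCs : C ⊆ (chartAt E2 x).source) (B : Set S) (hB : MeasurableSet B) :
    locArea f x C B = ∫⁻ z in chartAt E2 x '' (B ∩ C), ENNReal.ofReal (areaD (lp f x) z) := by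
  have hs : MeasurableSet (chartAt E2 x '' C) := image_meas x C hC hCs
  unfold locArea
  rw [Measure.map_apply_of_aemeasurable (symm_aemeasurable f x C hC hCs) hB, withDensity_apply',
    Measure.restrict_restrict' hs]
  congr 2
  ext z
  constructor
  · rintro ⟨hz, ⟨b, hb, rfl⟩⟩
    refine ⟨b, ⟨?_, hb⟩, rfl⟩
    rw [mem_preimage, (chartAt E2 x).left_inv (hCs hb)] at hz
    exact hz
  · rintro ⟨b, ⟨hb, hbC⟩, rfl⟩
    refine ⟨?_, ⟨b, hbC, rfl⟩⟩
    rw [mem_preimage, (chartAt E2 x).left_inv (hCs hbC)]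
    exact hb

/-- An area measure restricted to a piece `C` of a chart is `locArea`. -/
theorem IsAreaMeasure.restrict_eq {f : S → E3} {μ : Measure S} (hμ : IsAreaMeasure f μ) (x : S)
    (C : Set S) (hC : MeasurableSet C) (hCs : C ⊆ (chartAt E2 x).source) :
    μ.restrict C = locArea f x C := by
  ext B hB
  rw [Measure.restrict_apply hB, locArea_apply f x C hC hCs B hB]
  exact hμ x (B ∩ C) (inter_subset_right.trans hCs) (hB.inter hC)

theorem areaD_integrableOn (f : S → E3) (hf : IsImm f) (x : S) (K : Set E2) (hK : IsCompact K)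
    (hKt : K ⊆ (chartAt E2 x).target) : IntegrableOn (areaD (lp f x)) K volume := by
  obtain ⟨h3, h4⟩ := imm_chart f hf x
  obtain ⟨-, h5, -⟩ := coeff_cont (lp f x) _ (chartAt E2 x).open_target
    (h3.of_le (WithTop.coe_le_coe.2 (le_top : (2 : ℕ∞) ≤ ⊤))) h4
  exact (h5.mono hKt).integrableOn_compact hK

theorem exists_area (f : S → E3) (hf : IsImm f) : ∃ μ : Measure S, IsFiniteMeasure μ ∧ IsAreaMeasure f μ ∧
    ∀ ν : Measure S, IsAreaMeasure f ν → ν = μ := by
  obtain ⟨P⟩ := exists_chartPart (S := S)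
  let μ : Measure S := ∑ j, locArea f (P.x j) (P.C j)
  have hμ : ∀ B, MeasurableSet B → μ B =
      ∑ j, ∫⁻ z in chartAt E2 (P.x j) '' (B ∩ P.C j), ENNReal.ofReal (areaD (lp f (P.x j)) z) := by
    intro B hB
    simp only [μ, Measure.coe_finsetSum, Finset.sum_apply]
    exact Finset.sum_congr rfl fun j _ => locArea_apply f _ _ (P.meas j) (P.sub j) B hB
  have hdis : ∀ B : Set S, Pairwise (Function.onFun Disjoint fun j => B ∩ P.C j) := fun B i j hij =>
    (P.disj hij).mono inter_subset_right inter_subset_right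
  have hun : ∀ B : Set S, B = ⋃ j, B ∩ P.C j := fun B => by
    rw [← inter_iUnion, P.union, inter_univ]
  refine ⟨μ, ?_, ?_, ?_⟩
  · refine ⟨?_⟩
    rw [hμ univ MeasurableSet.univ]
    refine ENNReal.sum_lt_top.2 fun j _ => ?_
    calc ∫⁻ z in chartAt E2 (P.x j) '' (univ ∩ P.C j), ENNReal.ofReal (areaD (lp f (P.x j)) z)
        ≤ ∫⁻ z in P.K j, ENNReal.ofReal (areaD (lp f (P.x j)) z) := by
          refine lintegral_mono_set ?_
          rw [univ_inter]
          exact P.image_sub j
      _ < ⊤ := (areaD_integrableOn f hf (P.x j) (P.K j) (P.compact j) (P.K_sub j)).lintegral_lt_top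
  · intro x B hBs hB
    rw [hμ B hB]
    have h1 : ∀ j, ∫⁻ z in chartAt E2 (P.x j) '' (B ∩ P.C j), ENNReal.ofReal (areaD (lp f (P.x j)) z)
        = ∫⁻ z in chartAt E2 x '' (B ∩ P.C j), ENNReal.ofReal (areaD (lp f x) z) := fun j =>
      areaD_trans f hf (P.x j) x (B ∩ P.C j) (hB.inter (P.meas j))
        (inter_subset_right.trans (P.sub j)) (inter_subset_left.trans hBs)
    have h2 : chartAt E2 x '' B = ⋃ j, chartAt E2 x '' (B ∩ P.C j) := by
      rw [← image_iUnion, ← hun B]
    rw [h2, lintegral_iUnion, tsum_fintype]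
    · exact Finset.sum_congr rfl fun j _ => h1 j
    · exact fun j => image_meas x _ (hB.inter (P.meas j)) (inter_subset_left.trans hBs)
    · intro i j hij
      refine Set.disjoint_left.2 ?_
      rintro _ ⟨b, hb, rfl⟩ ⟨b', hb', hbb⟩
      have := (chartAt E2 x).injOn (hBs hb'.1) (hBs hb.1) hbb
      subst this
      exact Set.disjoint_left.1 (P.disj hij) hb.2 hb'.2
  · intro ν hν
    ext B hB
    rw [hμ B hB]
    conv_lhs => rw [hun B]
    rw [measure_iUnion (hdis B) (fun j => hB.inter (P.meas j)), tsum_fintype]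
    exact Finset.sum_congr rfl fun j _ =>
      hν (P.x j) _ (inter_subset_right.trans (P.sub j)) (hB.inter (P.meas j))
end Aream

end Topping
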