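import Mathlib
import Pool.Agent.Lib.MP_bea121_gt.TC.Defs4

/-!
# Topping's conjecture, module BASE: spanning forests as bases
-/

open MeasureTheory Set Metric Topology Filter
open scoped RealInnerProductSpace Gradient ContDiff Manifold

noncomputable section

namespace Topping

section Base
variable {V J : Type} [Fintype V] [Fintype J] (s t : J → V)

omit [Fintype V] [Fintype J] in
theorem BASE_eSpan_eq (P : J → Prop) :
    eSpan s t P = Submodule.span ℝ ((fun j => dv (s j) (t j)) '' {j | P j}) := by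
  unfold eSpan
  congr 1
  ext x
  constructor
  · rintro ⟨j, hj, rfl⟩
    exact ⟨j, hj, rfl⟩
  · rintro ⟨j, hj, rfl⟩
    exact ⟨j, hj, rfl⟩

omit [Fintype V] [Fintype J] in
theorem BASE_eSpan_finset (T : Finset J) :
    eSpan s t (fun i => i ∈ T) = Submodule.span ℝ ((fun j => dv (s j) (t j)) '' (T : Set J)) :=
  BASE_eSpan_eq s t _

omit [Fintype V] [Fintype J] in
theorem BASE_eSpan_mono {P Q : J → Prop} (h : ∀ j, P j → Q j) : eSpan s t P ≤ eSpan s t Q := by
  unfold eSpan
  refine Submodule.span_mono ?_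
  rintro x ⟨j, hj, rfl⟩
  exact ⟨j, h j hj, rfl⟩

omit [Fintype V] [Fintype J] in
theorem BASE_finrank (T : Finset J)
    (h : LinearIndepOn ℝ (fun j => dv (s j) (t j)) (T : Set J)) :
    Module.finrank ℝ (Submodule.span ℝ ((fun j => dv (s j) (t j)) '' (T : Set J))) = T.card := by
  have h1 := finrank_span_eq_card (R := ℝ) (b := fun j : T => dv (s j) (t j)) h
  rw [Fintype.card_coe] at h1
  rw [← h1, image_eq_range]
  rfl

theorem exists_base : ∃ T : Finset J, IsBase s t T := by
  classical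
  obtain ⟨b, -, -, hb2, hb3⟩ := exists_linearIndepOn_extension (K := ℝ)
    (v := fun j => dv (s j) (t j)) (linearIndepOn_empty ℝ _) (empty_subset (univ : Set J))
  have hfin : b.Finite := b.toFinite
  refine ⟨hfin.toFinset, ?_, ?_⟩
  · rw [hfin.coe_toFinset]
    exact hb3
  · intro j
    rw [BASE_eSpan_finset, hfin.coe_toFinset]
    exact hb2 ⟨j, mem_univ _, rfl⟩

omit [Fintype V] [Fintype J] in
theorem BASE_le_span {T : Finset J} (hT : IsBase s t T) (P : J → Prop) :
    eSpan s t P ≤ Submodule.span ℝ ((fun j => dv (s j) (t j)) '' (T : Set J)) := by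
  rw [← BASE_eSpan_finset]
  unfold eSpan
  rw [Submodule.span_le]
  rintro x ⟨j, -, rfl⟩
  exact hT.2 j

/-- the sum functional -/
def BASE_sum (V : Type) [Fintype V] : (V → ℝ) →ₗ[ℝ] ℝ where
  toFun x := ∑ v, x v
  map_add' x y := by simp [Finset.sum_add_distrib]
  map_smul' c x := by simp [Finset.mul_sum]

theorem BASE_sum_apply (x : V → ℝ) : BASE_sum V x = ∑ v, x v := rfl

theorem BASE_sum_dv (u v : V) : BASE_sum V (dv u v) = 0 := by
  classical
  rw [BASE_sum_apply]
  unfold dv
  simp only [Pi.sub_apply, Finset.sum_sub_distrib]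
  rw [Finset.sum_pi_single', Finset.sum_pi_single']
  simp

theorem BASE_finrank_ker [Nonempty V] :
    Module.finrank ℝ (LinearMap.ker (BASE_sum V)) + 1 = Fintype.card V := by
  classical
  have h1 := LinearMap.finrank_range_add_finrank_ker (BASE_sum V)
  have h2 : LinearMap.range (BASE_sum V) = ⊤ := by
    rw [LinearMap.range_eq_top]
    intro r
    obtain ⟨v⟩ := ‹Nonempty V›
    refine ⟨Pi.single v r, ?_⟩
    rw [BASE_sum_apply, Finset.sum_pi_single']
    simp
  rw [h2, finrank_top, Module.finrank_self, Module.finrank_fintype_fun_eq_card] at h1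
  omega

theorem BASE_ker_le (v₀ : V) (W : Submodule ℝ (V → ℝ)) (h : ∀ v, dv v v₀ ∈ W) :
    LinearMap.ker (BASE_sum V) ≤ W := by
  classical
  intro x hx
  rw [LinearMap.mem_ker, BASE_sum_apply] at hx
  have h1 : x = ∑ v, x v • dv v v₀ := by
    funext w
    rw [Finset.sum_apply]
    unfold dv
    simp only [Pi.smul_apply, Pi.sub_apply, smul_eq_mul, mul_sub, Finset.sum_sub_distrib]
    rw [← Finset.sum_mul, hx, zero_mul, sub_zero]
    simp [Pi.single_apply]
  rw [h1]
  exact Submodule.sum_mem _ fun v _ => Submodule.smul_mem _ _ (h v)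

theorem base_card [Nonempty V] (hc : Conn s t) {T : Finset J} (hT : IsBase s t T) :
    T.card + 1 = Fintype.card V := by
  obtain ⟨v₀⟩ := ‹Nonempty V›
  haveI : Nonempty V := ⟨v₀⟩
  have h1 : Submodule.span ℝ ((fun j => dv (s j) (t j)) '' (T : Set J)) =
      LinearMap.ker (BASE_sum V) := by
    apply le_antisymm
    · rw [Submodule.span_le]
      rintro x ⟨j, -, rfl⟩
      exact LinearMap.mem_ker.2 (BASE_sum_dv _ _)
    · exact BASE_ker_le v₀ _ fun v => BASE_le_span s t hT _ (hc v v₀)
  rw [← BASE_finrank_ker, ← h1, BASE_finrank s t T hT.1]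

omit [Fintype V] [Fintype J] in
theorem BASE_ncard (T : Finset J) (b : J → ℝ) (c : ℝ) :
    {j | j ∈ T ∧ c ≤ b j}.ncard = (T.filter (fun j => c ≤ b j)).card := by
  rw [← Set.ncard_coe_finset]
  congr 1
  ext j
  simp

omit [Fintype V] [Fintype J] in
theorem BASE_filter_finrank {T : Finset J} (hT : IsBase s t T) (b : J → ℝ) (c : ℝ) :
    Module.finrank ℝ (Submodule.span ℝ ((fun j => dv (s j) (t j)) ''
      ((T.filter (fun j => c ≤ b j) : Finset J) : Set J))) = {j | j ∈ T ∧ c ≤ b j}.ncard := by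
  rw [BASE_ncard]
  refine BASE_finrank s t _ (hT.1.mono ?_)
  exact_mod_cast Finset.filter_subset _ T

omit [Fintype V] [Fintype J] in
theorem BASE_filter_le (T : Finset J) (b : J → ℝ) (c : ℝ) :
    Submodule.span ℝ ((fun j => dv (s j) (t j)) ''
      ((T.filter (fun j => c ≤ b j) : Finset J) : Set J)) ≤ eSpan s t (fun j => c ≤ b j) := by
  rw [BASE_eSpan_eq]
  refine Submodule.span_mono (image_mono ?_)
  intro j hj
  rw [Finset.mem_coe, Finset.mem_filter] at hj
  exact hj.2

theorem base_level_le {T : Finset J} (hT : IsBase s t T) (b : J → ℝ) (c : ℝ) :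
    {j | j ∈ T ∧ c ≤ b j}.ncard ≤ rk s t b c := by
  rw [← BASE_filter_finrank s t hT b c]
  exact Submodule.finrank_mono (BASE_filter_le s t T b c)

theorem Amin_le {T : Finset J} (hT : IsBase s t T) (a : V → ℝ) (b : J → ℝ) :
    Amin s t a b ≤ Fval T a b := by
  unfold Amin
  exact ciInf_le (Set.finite_range
    (fun T : {T : Finset J // IsBase s t T} => Fval T.1 a b)).bddBelow ⟨T, hT⟩

theorem BASE_exch [DecidableEq J] {T : Finset J} (hT : IsBase s t T) {j k : J} (hj : j ∈ T)
    (hk : dv (s k) (t k) ∉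
      Submodule.span ℝ ((fun j => dv (s j) (t j)) '' ((T.erase j : Finset J) : Set J))) :
    IsBase s t (insert k (T.erase j)) := by
  have hkT : k ∉ T.erase j := by
    intro h
    exact hk (Submodule.subset_span ⟨k, h, rfl⟩)
  have hind : LinearIndepOn ℝ (fun j => dv (s j) (t j))
      ((insert k (T.erase j) : Finset J) : Set J) := by
    rw [Finset.coe_insert]
    refine LinearIndepOn.insert (hT.1.mono ?_) hk
    exact_mod_cast Finset.erase_subset _ _
  refine ⟨hind, ?_⟩
  have hle : Submodule.span ℝ ((fun j => dv (s j) (t j)) ''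
      ((insert k (T.erase j) : Finset J) : Set J)) ≤
      Submodule.span ℝ ((fun j => dv (s j) (t j)) '' (T : Set J)) := by
    rw [← BASE_eSpan_finset]
    exact BASE_le_span s t hT _
  have heq := Submodule.eq_of_le_of_finrank_eq hle (by
    rw [BASE_finrank s t _ hind, BASE_finrank s t T hT.1, Finset.card_insert_of_notMem hkT,
      Finset.card_erase_of_mem hj]
    have := Finset.card_pos.2 ⟨j, hj⟩
    omega)
  intro i
  rw [BASE_eSpan_finset, heq, ← BASE_eSpan_finset]
  exact hT.2 i

theorem BASE_improve {T : Finset J} (hT : IsBase s t T) (b : J → ℝ) (c : ℝ)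
    (h : {j | j ∈ T ∧ c ≤ b j}.ncard ≠ rk s t b c) :
    ∃ T' : Finset J, IsBase s t T' ∧ ∑ j ∈ T, b j < ∑ j ∈ T', b j := by
  classical
  have hlt : {j | j ∈ T ∧ c ≤ b j}.ncard < rk s t b c :=
    lt_of_le_of_ne (base_level_le s t hT b c) h
  obtain ⟨k, hk1, hk2⟩ : ∃ k, c ≤ b k ∧ dv (s k) (t k) ∉ Submodule.span ℝ
      ((fun j => dv (s j) (t j)) '' ((T.filter (fun j => c ≤ b j) : Finset J) : Set J)) := by
    by_contra hcon
    push Not at hcon
    have hle : eSpan s t (fun j => c ≤ b j) ≤ Submodule.span ℝ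
        ((fun j => dv (s j) (t j)) '' ((T.filter (fun j => c ≤ b j) : Finset J) : Set J)) := by
      unfold eSpan
      rw [Submodule.span_le]
      rintro x ⟨j, hj, rfl⟩
      exact hcon j hj
    have := Submodule.finrank_mono hle
    rw [BASE_filter_finrank s t hT b c] at this
    unfold rk at hlt
    omega
  have hkT : dv (s k) (t k) ∈ Submodule.span ℝ ((fun j => dv (s j) (t j)) '' (T : Set J)) := by
    rw [← BASE_eSpan_finset]
    exact hT.2 k
  rw [Submodule.mem_span_image_finset_iff_exists_fun'] at hkT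
  obtain ⟨y, hy⟩ := hkT
  obtain ⟨j, hjT, hjc, hyj⟩ : ∃ j ∈ T, b j < c ∧ y j ≠ 0 := by
    by_contra hcon
    push Not at hcon
    apply hk2
    rw [Submodule.mem_span_image_finset_iff_exists_fun']
    refine ⟨y, ?_⟩
    rw [← hy]
    refine Finset.sum_subset (Finset.filter_subset _ T) ?_
    intro i hi hi2
    rw [Finset.mem_filter, not_and] at hi2
    rw [hcon i hi (not_le.1 (hi2 hi)), zero_smul]
  have hnot : dv (s k) (t k) ∉
      Submodule.span ℝ ((fun j => dv (s j) (t j)) '' ((T.erase j : Finset J) : Set J)) := by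
    rw [Submodule.mem_span_image_finset_iff_exists_fun']
    rintro ⟨z, hz⟩
    have hsum : ∑ i ∈ T, (y i - if i = j then 0 else z i) • dv (s i) (t i) = 0 := by
      simp only [sub_smul, Finset.sum_sub_distrib]
      rw [hy, sub_eq_zero, ← hz, ← Finset.sum_erase_add _ _ hjT, if_pos rfl, zero_smul, add_zero]
      refine Finset.sum_congr rfl fun i hi => ?_
      rw [if_neg (Finset.ne_of_mem_erase hi)]
    have := (linearIndepOn_finset_iff.1 hT.1) _ hsum j hjT
    rw [if_pos rfl, sub_zero] at this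
    exact hyj this
  have hkT : k ∉ T.erase j := fun h => hnot (Submodule.subset_span ⟨k, h, rfl⟩)
  refine ⟨insert k (T.erase j), BASE_exch s t hT hjT hnot, ?_⟩
  rw [Finset.sum_insert hkT, ← Finset.sum_erase_add _ _ hjT]
  linarith

theorem exists_opt (a : V → ℝ) (b : J → ℝ) : ∃ T : Finset J, IsBase s t T ∧
    Fval T a b = Amin s t a b ∧ ∀ c, {j | j ∈ T ∧ c ≤ b j}.ncard = rk s t b c := by
  obtain ⟨T₀, hT₀⟩ := exists_base s t
  haveI : Nonempty {T : Finset J // IsBase s t T} := ⟨⟨T₀, hT₀⟩⟩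
  obtain ⟨⟨T, hT⟩, hmin⟩ := exists_eq_ciInf_of_finite
    (f := fun T : {T : Finset J // IsBase s t T} => Fval T.1 a b)
  refine ⟨T, hT, hmin, fun c => ?_⟩
  by_contra hne
  obtain ⟨T', hT', hlt⟩ := BASE_improve s t hT b c hne
  have h1 := Amin_le s t hT' a b
  have h2 : Fval T a b = Amin s t a b := hmin
  rw [← h2] at h1
  unfold Fval at h1
  linarith

/-- exchange -/
theorem base_exchange [DecidableEq J] {T : Finset J} (hT : IsBase s t T) {j k₁ k₂ : J} (hj : j ∈ T)
    (h : ∃ x₁ x₂ : ℝ, dv (s j) (t j) = x₁ • dv (s k₁) (t k₁) + x₂ • dv (s k₂) (t k₂)) :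
    IsBase s t (insert k₁ (T.erase j)) ∨ IsBase s t (insert k₂ (T.erase j)) := by
  by_cases h1 : dv (s k₁) (t k₁) ∈
      Submodule.span ℝ ((fun j => dv (s j) (t j)) '' ((T.erase j : Finset J) : Set J))
  · by_cases h2 : dv (s k₂) (t k₂) ∈
        Submodule.span ℝ ((fun j => dv (s j) (t j)) '' ((T.erase j : Finset J) : Set J))
    · exfalso
      obtain ⟨x₁, x₂, hx⟩ := h
      have h3 : dv (s j) (t j) ∈
          Submodule.span ℝ ((fun j => dv (s j) (t j)) '' ((T.erase j : Finset J) : Set J)) := by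
        rw [hx]
        exact Submodule.add_mem _ (Submodule.smul_mem _ _ h1) (Submodule.smul_mem _ _ h2)
      have h4 := hT.1
      rw [← Finset.insert_erase hj, Finset.coe_insert, linearIndepOn_insert (by simp)] at h4
      exact h4.2 h3
    · exact Or.inr (BASE_exch s t hT hj h2)
  · exact Or.inl (BASE_exch s t hT hj h1)

end Base

end Topping
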