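import Mathlib
import Pool.Agent.Lib.MP_bea121_gt.TC.Defs4

/-!
# Topping's conjecture, module COUNT: dimension counts for components
-/

open MeasureTheory Set Metric Topology Filter
open scoped RealInnerProductSpace Gradient ContDiff Manifold

noncomputable section

namespace Topping

section CountAux

variable {V : Type}

open Classical in
/-- unit vector -/
def COUNT_e (v : V) : V → ℝ := Pi.single v 1

theorem COUNT_dv (u v : V) : dv u v = COUNT_e u - COUNT_e v := rfl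

theorem COUNT_dv_self (v : V) : dv v v = 0 := by
  rw [COUNT_dv, sub_self]

theorem COUNT_dv_add (u v w : V) : dv u v + dv v w = dv u w := by
  rw [COUNT_dv, COUNT_dv, COUNT_dv]
  abel

theorem COUNT_dv_neg (u v : V) : -dv u v = dv v u := by
  rw [COUNT_dv, COUNT_dv]
  abel

/-- functions supported on `A` -/
def COUNT_sp (A : Set V) : Submodule ℝ (V → ℝ) := Submodule.span ℝ (COUNT_e '' A)

theorem COUNT_e_mem {A : Set V} {v : V} (hv : v ∈ A) : COUNT_e v ∈ COUNT_sp A :=
  Submodule.subset_span ⟨v, hv, rfl⟩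

theorem COUNT_dv_mem {A : Set V} {u v : V} (hu : u ∈ A) (hv : v ∈ A) : dv u v ∈ COUNT_sp A := by
  rw [COUNT_dv]
  exact Submodule.sub_mem _ (COUNT_e_mem hu) (COUNT_e_mem hv)

theorem COUNT_linInd [Fintype V] : LinearIndependent ℝ (COUNT_e : V → V → ℝ) := by
  classical
  have h := (Pi.basisFun ℝ V).linearIndependent
  have h2 : (COUNT_e : V → V → ℝ) = (Pi.basisFun ℝ V : V → V → ℝ) := by
    funext v
    rw [Pi.basisFun_apply]
    unfold COUNT_e
    congr
  rw [h2]
  exact h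

theorem COUNT_finrank [Fintype V] (A : Set V) :
    Module.finrank ℝ (COUNT_sp A) = A.ncard := by
  classical
  have h := COUNT_linInd (V := V)
  have h1 : LinearIndependent ℝ (fun v : A => (COUNT_e (v : V) : V → ℝ)) :=
    h.comp _ Subtype.val_injective
  have h2 := finrank_span_eq_card (R := ℝ) h1
  unfold COUNT_sp
  rw [image_eq_range]
  rw [show (range fun x : A => (COUNT_e (x : V) : V → ℝ)) =
    range (fun v : A => (COUNT_e (v : V) : V → ℝ)) from rfl, h2]
  rw [← Nat.card_eq_fintype_card, Nat.card_coe_set_eq]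

theorem COUNT_core {X Y : Type} [AddCommGroup X] [Module ℝ X] [FiniteDimensional ℝ X]
    [AddCommGroup Y] [Module ℝ Y] [FiniteDimensional ℝ Y] (Φ : X →ₗ[ℝ] Y)
    (A D : Submodule ℝ X) (B E : Submodule ℝ Y) (hD : D ≤ A) (hΦ : D.map Φ ≤ E)
    (hB : B ≤ E ⊔ A.map Φ) :
    Module.finrank ℝ B + Module.finrank ℝ D ≤ Module.finrank ℝ E + Module.finrank ℝ A := by
  obtain ⟨D', hD'⟩ := Submodule.exists_isCompl D
  have h1 : D ⊔ D' ⊓ A = A := by
    rw [← sup_inf_assoc_of_le D' hD, hD'.sup_eq_top, top_inf_eq]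
  have h2 : D ⊓ (D' ⊓ A) = ⊥ := by
    rw [← inf_assoc, hD'.inf_eq_bot, bot_inf_eq]
  have h3 := Submodule.finrank_sup_add_finrank_inf_eq D (D' ⊓ A)
  rw [h1, h2, finrank_bot, add_zero] at h3
  have h4 : B ≤ E ⊔ (D' ⊓ A).map Φ := by
    refine hB.trans ?_
    rw [← h1, Submodule.map_sup, h1]
    exact sup_le le_sup_left (sup_le (hΦ.trans le_sup_left) le_sup_right)
  have h5 := Submodule.finrank_mono h4
  have h6 := Submodule.finrank_add_le_finrank_add_finrank E ((D' ⊓ A).map Φ)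
  have h7 := Submodule.finrank_map_le Φ (D' ⊓ A)
  omega

/-- the linear map with `e_v ↦ e_{f v}` -/
def COUNT_map {W : Type} [Fintype V] (f : V → W) : (V → ℝ) →ₗ[ℝ] (W → ℝ) where
  toFun x := ∑ v, x v • COUNT_e (f v)
  map_add' x y := by simp [Finset.sum_add_distrib, add_smul]
  map_smul' c x := by simp [Finset.smul_sum, mul_smul]

theorem COUNT_map_e {W : Type} [Fintype V] (f : V → W) (v : V) :
    COUNT_map f (COUNT_e v) = COUNT_e (f v) := by
  classical
  show ∑ u, (COUNT_e v : V → ℝ) u • (COUNT_e (f u) : W → ℝ) = COUNT_e (f v)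
  rw [Finset.sum_eq_single v]
  · have : (COUNT_e v : V → ℝ) v = 1 := by
      unfold COUNT_e
      simp
    rw [this, one_smul]
  · intro u _ hu
    have : (COUNT_e v : V → ℝ) u = 0 := by
      unfold COUNT_e
      simp [Pi.single_apply, hu]
    rw [this, zero_smul]
  · intro h
    exact absurd (Finset.mem_univ v) h

theorem COUNT_map_dv {W : Type} [Fintype V] (f : V → W) (u v : V) :
    COUNT_map f (dv u v) = dv (f u) (f v) := by
  rw [COUNT_dv, map_sub, COUNT_map_e, COUNT_map_e, ← COUNT_dv]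

end CountAux

section Count
variable {V J : Type} [Fintype V] [Fintype J]
variable {Q K : Type} [Fintype Q] [Fintype K]

omit [Fintype V] [Fintype J] in
theorem COUNT_eSpan_le (s t : J → V) (A : Set V) (P : J → Prop)
    (h : ∀ j, P j → s j ∈ A ∧ t j ∈ A) : eSpan s t P ≤ COUNT_sp A := by
  unfold eSpan
  rw [Submodule.span_le]
  rintro x ⟨j, hj, rfl⟩
  exact COUNT_dv_mem (h j hj).1 (h j hj).2

theorem count_upper (s t : J → V) (a : V → ℝ) (b : J → ℝ) (c : ℝ)
    (hb : ∀ j, b j ≤ a (s j) ∧ b j ≤ a (t j)) (s' t' : K → Q) (P : Q → Prop) (T' : Finset K)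
    (hT' : LinearIndepOn ℝ (fun k => dv (s' k) (t' k)) (T' : Set K))
    (hP : ∀ k ∈ T', P (s' k) ∧ P (t' k)) (rep : Q → V) (hPr : ∀ m, P m → c ≤ a (rep m))
    (hrep : ∀ v, c ≤ a v → ∃ m, P m ∧ dv v (rep m) ∈ eSpan s t (fun j => c ≤ b j))
    (hT : ∀ k ∈ T', dv (rep (s' k)) (rep (t' k)) ∈ eSpan s t (fun j => c ≤ b j)) :
    {v | c ≤ a v}.ncard + T'.card ≤ rk s t b c + {m | P m}.ncard := by
  have h1 := COUNT_core (COUNT_map rep) (COUNT_sp {m | P m})
    (Submodule.span ℝ ((fun k => dv (s' k) (t' k)) '' (T' : Set K)))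
    (COUNT_sp {v | c ≤ a v}) (eSpan s t (fun j => c ≤ b j)) ?_ ?_ ?_
  · rw [COUNT_finrank, COUNT_finrank] at h1
    have h2 := finrank_span_eq_card (R := ℝ) (b := fun k : T' => dv (s' k) (t' k)) hT'
    rw [Fintype.card_coe] at h2
    rw [image_eq_range] at h1
    unfold rk
    rw [← h2]
    exact h1
  · rw [Submodule.span_le]
    rintro x ⟨k, hk, rfl⟩
    exact COUNT_dv_mem (hP k hk).1 (hP k hk).2
  · rw [Submodule.map_span_le]
    rintro x ⟨k, hk, rfl⟩
    rw [COUNT_map_dv]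
    exact hT k hk
  · unfold COUNT_sp
    rw [Submodule.span_le]
    rintro x ⟨v, hv, rfl⟩
    obtain ⟨m, hm, hd⟩ := hrep v hv
    have he : (COUNT_e v : V → ℝ) = dv v (rep m) + COUNT_e (rep m) := by
      rw [COUNT_dv]
      abel
    rw [SetLike.mem_coe, he]
    refine Submodule.add_mem_sup hd ?_
    rw [← COUNT_map_e]
    exact Submodule.mem_map_of_mem (COUNT_e_mem hm)

theorem count_lower (s t : J → V) (a : V → ℝ) (b : J → ℝ) (c : ℝ)
    (hb : ∀ j, b j ≤ a (s j) ∧ b j ≤ a (t j)) (s' t' : K → Q) (P : Q → Prop) (R : K → Prop)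
    (hR : ∀ k, R k → P (s' k) ∧ P (t' k)) (cls : V → Q)
    (hcls : ∀ j, c ≤ b j → dv (cls (s j)) (cls (t j)) ∈ eSpan s' t' R)
    (hsurj : ∀ m, P m → ∃ v, c ≤ a v ∧ dv (cls v) m ∈ eSpan s' t' R) :
    {m | P m}.ncard + rk s t b c ≤ {v | c ≤ a v}.ncard + Module.finrank ℝ (eSpan s' t' R) := by
  have h1 := COUNT_core (COUNT_map cls) (COUNT_sp {v | c ≤ a v})
    (eSpan s t (fun j => c ≤ b j)) (COUNT_sp {m | P m}) (eSpan s' t' R) ?_ ?_ ?_
  · rw [COUNT_finrank, COUNT_finrank] at h1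
    unfold rk
    omega
  · refine COUNT_eSpan_le s t _ _ fun j hj => ⟨hj.trans (hb j).1, hj.trans (hb j).2⟩
  · unfold eSpan
    rw [Submodule.map_span_le]
    rintro x ⟨j, hj, rfl⟩
    rw [COUNT_map_dv]
    exact hcls j hj
  · unfold COUNT_sp
    rw [Submodule.span_le]
    rintro x ⟨m, hm, rfl⟩
    obtain ⟨v, hv, hd⟩ := hsurj m hm
    have he : (COUNT_e m : Q → ℝ) = -dv (cls v) m + COUNT_e (cls v) := by
      rw [COUNT_dv]
      abel
    rw [SetLike.mem_coe, he]
    refine Submodule.add_mem_sup (Submodule.neg_mem _ hd) ?_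
    rw [← COUNT_map_e]
    exact Submodule.mem_map_of_mem (COUNT_e_mem hv)

/-- bound by representatives -/
theorem count_reps (s t : J → V) (a : V → ℝ) (b : J → ℝ) (c : ℝ)
    (hb : ∀ j, b j ≤ a (s j) ∧ b j ≤ a (t j)) (W : Finset V)
    (hrep : ∀ v, c ≤ a v → ∃ w ∈ W, c ≤ a w ∧ dv v w ∈ eSpan s t (fun j => c ≤ b j)) :
    {v | c ≤ a v}.ncard ≤ rk s t b c + W.card := by
  have h1 := COUNT_core (LinearMap.id : (V → ℝ) →ₗ[ℝ] (V → ℝ)) (COUNT_sp (W : Set V)) ⊥
    (COUNT_sp {v | c ≤ a v}) (eSpan s t (fun j => c ≤ b j)) bot_le ?_ ?_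
  · rw [COUNT_finrank, COUNT_finrank, finrank_bot, Set.ncard_coe_finset] at h1
    unfold rk
    omega
  · rw [Submodule.map_bot]
    exact bot_le
  · rw [Submodule.map_id]
    unfold COUNT_sp
    rw [Submodule.span_le]
    rintro x ⟨v, hv, rfl⟩
    obtain ⟨w, hw, _, hd⟩ := hrep v hv
    have he : (COUNT_e v : V → ℝ) = dv v w + COUNT_e w := by
      rw [COUNT_dv]
      abel
    rw [SetLike.mem_coe, he]
    exact Submodule.add_mem_sup hd (Submodule.subset_span ⟨w, hw, rfl⟩)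

/-- Every vertex of level at least `c` is connected above level `c` to a locally maximal vertex. -/
theorem exists_top (s t : J → V) (a : V → ℝ) (c : ℝ) (v : V) (hv : c ≤ a v) :
    ∃ w, a v ≤ a w ∧ dv v w ∈ eSpan s t (fun j => c ≤ min (a (s j)) (a (t j))) ∧
      ∀ j, (s j = w → a (t j) ≤ a w) ∧ (t j = w → a (s j) ≤ a w) := by
  classical
  obtain ⟨w, hw, hmax⟩ := Finset.exists_max_image
    (Finset.univ.filter (fun w => a v ≤ a w ∧
      dv v w ∈ eSpan s t (fun j => c ≤ min (a (s j)) (a (t j))))) a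
    ⟨v, Finset.mem_filter.2 ⟨Finset.mem_univ _, le_rfl, by
      rw [COUNT_dv_self]; exact Submodule.zero_mem _⟩⟩
  obtain ⟨hw1, hw2⟩ := (Finset.mem_filter.1 hw).2
  refine ⟨w, hw1, hw2, fun j => ⟨fun hj => ?_, fun hj => ?_⟩⟩
  · by_contra hlt
    push Not at hlt
    have hmem : dv (s j) (t j) ∈ eSpan s t (fun j => c ≤ min (a (s j)) (a (t j))) := by
      refine Submodule.subset_span ⟨j, ?_, rfl⟩
      show c ≤ min (a (s j)) (a (t j))
      rw [hj]
      exact le_min (hv.trans hw1) ((hv.trans hw1).trans hlt.le)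
    have h2 := hmax (t j) (Finset.mem_filter.2 ⟨Finset.mem_univ _, hw1.trans hlt.le, by
      rw [← COUNT_dv_add v w (t j), ← hj]
      rw [← hj] at hw2
      exact Submodule.add_mem _ hw2 hmem⟩)
    exact absurd hlt (not_lt.2 h2)
  · by_contra hlt
    push Not at hlt
    have hmem : dv (s j) (t j) ∈ eSpan s t (fun j => c ≤ min (a (s j)) (a (t j))) := by
      refine Submodule.subset_span ⟨j, ?_, rfl⟩
      show c ≤ min (a (s j)) (a (t j))
      rw [hj]
      exact le_min ((hv.trans hw1).trans hlt.le) (hv.trans hw1)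
    have h2 := hmax (s j) (Finset.mem_filter.2 ⟨Finset.mem_univ _, hw1.trans hlt.le, by
      rw [← COUNT_dv_add v w (s j), ← hj, ← COUNT_dv_neg (s j) (t j)]
      rw [← hj] at hw2
      exact Submodule.add_mem _ hw2 (Submodule.neg_mem _ hmem)⟩)
    exact absurd hlt (not_lt.2 h2)

end Count

end Topping
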