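import Mathlib
import Pool.Agent.Lib.MP_bea121_gt.TC.Defs4
import Pool.Agent.Lib.MP_bea121_gt.TC.Basic

/-!
# The nearness relation (MP_bea121_gt, module NEAR)
-/

open MeasureTheory Set Metric Topology Filter
open scoped RealInnerProductSpace Gradient ContDiff Manifold

noncomputable section

namespace Topping

section Near
variable {S : Type} [TopologicalSpace S] (M : MongeSurf S)

theorem near_symm {δ : ℝ} {x x' : S} (h : M.near δ x x') : M.near δ x' x := by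
  obtain ⟨i, h1, h2, h3⟩ := h
  exact ⟨i, h2, h1, by rwa [norm_sub_rev]⟩

theorem near_refl {δ : ℝ} (hδ : 0 < δ) (x : S) : M.near δ x x := by
  obtain ⟨i, hi⟩ := P_cover M x
  have hR := M.R_pos i
  have h4 : x ∈ M.P i (4 * M.R i) := P_mono M i (by linarith) hi
  exact ⟨i, h4, h4, by simpa using hδ⟩

theorem near_mono {δ δ' : ℝ} (h : δ ≤ δ') {x x' : S} (hn : M.near δ x x') : M.near δ' x x' := by
  obtain ⟨i, h1, h2, h3⟩ := hn
  exact ⟨i, h1, h2, lt_of_lt_of_le h3 h⟩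

theorem near_f {δ : ℝ} {x x' : S} (h : M.near δ x x') : ‖M.f x - M.f x'‖ < δ := by
  obtain ⟨i, h1, h2, h3⟩ := h
  exact h3

theorem NEAR_P45 (i : M.ι) {x : S} (hx : x ∈ M.P i (4 * M.R i)) : x ∈ M.P i (5 * M.R i) := by
  have hR := M.R_pos i
  exact P_mono M i (by linarith) hx

theorem near_of {δ : ℝ} (i : M.ι) {x x' : S} (hx : x ∈ M.P i (4 * M.R i)) (hx' : x' ∈ M.P i (4 * M.R i))
    (h : (101 / 100) * ‖M.e i x - M.e i x'‖ < δ) : M.near δ x x' := by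
  refine ⟨i, hx, hx', ?_⟩
  exact lt_of_le_of_lt (chord_e M i (NEAR_P45 M i hx) (NEAR_P45 M i hx')).2 h

theorem near_open (δ : ℝ) (x : S) : IsOpen {x' | M.near δ x' x} := by
  rw [isOpen_iff_mem_nhds]
  rintro x' ⟨i, h1, h2, h3⟩
  have hc : Continuous (fun x'' => ‖M.f x'' - M.f x‖) := (M.f_cont.sub continuous_const).norm
  filter_upwards [(P_open M i (4 * M.R i)).mem_nhds h1,
    hc.continuousAt.eventually_lt continuousAt_const h3] with x'' h4 h5
  exact ⟨i, h4, h2, h5⟩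

/-- segments -/
theorem near_seg {δ : ℝ} {x x' : S} (h : M.near δ x x') : ∃ C : Set S, IsPreconnected C ∧
    x ∈ C ∧ x' ∈ C ∧ ∀ x'' ∈ C, ‖M.f x'' - M.f x‖ ≤ 2 * δ := by
  obtain ⟨i, h1, h2, h3⟩ := h
  have hR := M.R_pos i
  have hx := symm_e M i h1
  have hx' := symm_e M i h2
  have hsub : segment ℝ (M.e i x) (M.e i x') ⊆ ball (0 : E2) (4 * M.R i) :=
    (convex_ball (0 : E2) (4 * M.R i)).segment_subset hx.2 hx'.2
  have hb5 : ball (0 : E2) (4 * M.R i) ⊆ ball (0 : E2) (5 * M.R i) := ball_subset_ball (by linarith)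
  refine ⟨(M.e i).symm '' segment ℝ (M.e i x) (M.e i x'), ?_, ⟨_, left_mem_segment ℝ _ _, hx.1⟩,
    ⟨_, right_mem_segment ℝ _ _, hx'.1⟩, ?_⟩
  · refine (convex_segment _ _).isPreconnected.image _ ?_
    exact (M.e i).continuousOn_symm.mono ((hsub.trans hb5).trans (M.target i))
  · rintro _ ⟨ζ, hζ, rfl⟩
    rw [f_symm M i (hb5 (hsub hζ)), f_e M i (NEAR_P45 M i h1)]
    have h4 := (chord M i ζ (M.e i x)).2
    have h5 := norm_sub_le_of_mem_segment hζ
    have h6 := (chord_e M i (NEAR_P45 M i h1) (NEAR_P45 M i h2)).1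
    rw [norm_sub_rev] at h6
    have h7 : 0 ≤ ‖M.f x - M.f x'‖ := norm_nonneg _
    linarith

variable [CompactSpace S] [T2Space S]

omit [CompactSpace S] in
theorem NEAR_pair (i j : M.ι) : ∃ δ₀ > 0, ∀ δ, δ ≤ δ₀ → ∀ x x', x ∈ M.P i (3 * M.R i) →
    x ∈ M.P j (4 * M.R j) → x' ∈ M.P j (4 * M.R j) → ‖M.f x - M.f x'‖ < δ →
      x' ∈ M.P i (4 * M.R i) := by
  have hRi := M.R_pos i
  have hRj := M.R_pos j
  have hsi : closedBall (0 : E2) (3 * M.R i) ⊆ (M.e i).target :=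
    (closedBall_subset_ball (by linarith)).trans (M.target i)
  have hsj : closedBall (0 : E2) (4 * M.R j) ⊆ (M.e j).target :=
    (closedBall_subset_ball (by linarith)).trans (M.target j)
  have hKi : IsCompact ((M.e i).symm '' closedBall (0 : E2) (3 * M.R i)) :=
    (isCompact_closedBall _ _).image_of_continuousOn ((M.e i).continuousOn_symm.mono hsi)
  have hKj : IsCompact ((M.e j).symm '' closedBall (0 : E2) (4 * M.R j)) :=
    (isCompact_closedBall _ _).image_of_continuousOn ((M.e j).continuousOn_symm.mono hsj)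
  have hK : IsCompact ((M.e i).symm '' closedBall (0 : E2) (3 * M.R i) ∩
      (M.e j).symm '' closedBall (0 : E2) (4 * M.R j)) := hKi.inter hKj
  have hKO : (M.e i).symm '' closedBall (0 : E2) (3 * M.R i) ∩
      (M.e j).symm '' closedBall (0 : E2) (4 * M.R j) ⊆ M.P i (4 * M.R i) ∩ M.P j (5 * M.R j) := by
    rintro x ⟨⟨ζ, hζ, hx1⟩, ⟨ζ', hζ', hx2⟩⟩
    constructor
    · rw [← hx1]
      exact (P_symm M i (by linarith : 4 * M.R i ≤ 5 * M.R i)
        (closedBall_subset_ball (by linarith) hζ)).1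
    · rw [← hx2]
      exact (P_symm M j (le_refl (5 * M.R j)) (closedBall_subset_ball (by linarith) hζ')).1
  have hO : IsOpen (M.P i (4 * M.R i) ∩ M.P j (5 * M.R j)) := (P_open M i _).inter (P_open M j _)
  have hOs : M.P i (4 * M.R i) ∩ M.P j (5 * M.R j) ⊆ (M.e j).source := fun x hx => hx.2.1
  have hO2 : IsOpen (M.e j '' (M.P i (4 * M.R i) ∩ M.P j (5 * M.R j))) :=
    (M.e j).isOpen_image_of_subset_source hO hOs
  have hK2 : IsCompact (M.e j '' ((M.e i).symm '' closedBall (0 : E2) (3 * M.R i) ∩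
      (M.e j).symm '' closedBall (0 : E2) (4 * M.R j))) :=
    hK.image_of_continuousOn ((M.e j).continuousOn.mono (hKO.trans hOs))
  obtain ⟨δ₀, hδ₀, hδ⟩ := hK2.exists_thickening_subset_open hO2 (image_mono hKO)
  refine ⟨δ₀, hδ₀, fun δ hle x x' h3 h4 h4' hf => ?_⟩
  have hxK : x ∈ (M.e i).symm '' closedBall (0 : E2) (3 * M.R i) ∩
      (M.e j).symm '' closedBall (0 : E2) (4 * M.R j) :=
    ⟨⟨M.e i x, ball_subset_closedBall (symm_e M i h3).2, (symm_e M i h3).1⟩,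
      ⟨M.e j x, ball_subset_closedBall (symm_e M j h4).2, (symm_e M j h4).1⟩⟩
  have hch := (chord_e M j (NEAR_P45 M j h4) (NEAR_P45 M j h4')).1
  have hmem : M.e j x' ∈ thickening δ₀ (M.e j '' ((M.e i).symm '' closedBall (0 : E2) (3 * M.R i) ∩
      (M.e j).symm '' closedBall (0 : E2) (4 * M.R j))) := by
    rw [mem_thickening_iff]
    refine ⟨M.e j x, mem_image_of_mem _ hxK, ?_⟩
    rw [dist_comm, dist_eq_norm]
    linarith
  obtain ⟨w, hw, hw2⟩ := hδ hmem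
  have : w = x' := (M.e j).injOn (hOs hw) h4'.1 hw2
  rw [← this]
  exact hw.1

omit [CompactSpace S] in
theorem near_loc' : ∃ δ₀ > 0, ∀ δ, δ ≤ δ₀ → ∀ i, ∀ x x', x ∈ M.P i (3 * M.R i) → M.near δ x x' →
    x' ∈ M.P i (4 * M.R i) ∧ ‖M.e i x - M.e i x'‖ < δ := by
  choose d hd hd2 using NEAR_pair M
  have hmin : ∃ r > 0, ∀ k : M.ι × M.ι, r ≤ d k.1 k.2 := by
    rcases isEmpty_or_nonempty (M.ι × M.ι) with h | h
    · exact ⟨1, one_pos, fun k => (h.false k).elim⟩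
    · obtain ⟨k, hk⟩ := Finite.exists_min (fun k : M.ι × M.ι => d k.1 k.2)
      exact ⟨d k.1 k.2, hd _ _, hk⟩
  obtain ⟨δ₀, hδ₀, hle⟩ := hmin
  refine ⟨δ₀, hδ₀, fun δ hδ i x x' hx hn => ?_⟩
  obtain ⟨j, h1, h2, h3⟩ := hn
  have hR := M.R_pos i
  have h4 := hd2 i j δ (hδ.trans (hle (i, j))) x x' hx h1 h2 h3
  refine ⟨h4, ?_⟩
  have h5 : x ∈ M.P i (5 * M.R i) := P_mono M i (by linarith) hx
  exact lt_of_le_of_lt (chord_e M i h5 (NEAR_P45 M i h4)).1 h3

theorem near_loc : ∃ δ₀ > 0, ∀ δ, 0 < δ → δ ≤ δ₀ → ∀ i, ∀ x x', x ∈ M.P i (3 * M.R i) → M.near δ x x' →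
    x' ∈ M.P i (4 * M.R i) ∧ ‖M.e i x - M.e i x'‖ < δ := by
  obtain ⟨δ₀, h0, h⟩ := near_loc' M
  exact ⟨δ₀, h0, fun δ _ hδ => h δ hδ⟩

theorem near_trans : ∃ δ₀ > 0, ∀ δ δ', 0 < δ → 0 < δ' → δ + δ' ≤ δ₀ → ∀ x x' x'', M.near δ x x' →
    M.near δ' x' x'' → M.near (δ + δ') x x'' := by
  obtain ⟨δ₀, h0, h⟩ := near_loc M
  refine ⟨δ₀, h0, fun δ δ' h1 h2 h3 x x' x'' hn hn' => ?_⟩
  obtain ⟨i, hi⟩ := P_cover M x'
  have hR := M.R_pos i
  have hi3 : x' ∈ M.P i (3 * M.R i) := P_mono M i (by linarith) hi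
  have h4 := (h δ h1 (by linarith) i x' x hi3 (near_symm M hn)).1
  have h5 := (h δ' h2 (by linarith) i x' x'' hi3 hn').1
  refine ⟨i, h4, h5, ?_⟩
  have h6 := near_f M hn
  have h7 := near_f M hn'
  have h8 : M.f x - M.f x'' = (M.f x - M.f x') + (M.f x' - M.f x'') := by abel
  rw [h8]
  exact lt_of_le_of_lt (norm_add_le _ _) (by linarith)
end Near

end Topping
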