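import Mathlib
import Pool.Agent.Lib.MP_bea121_gt.TC.Defs4
import Pool.Agent.Lib.MP_bea121_gt.TC.Basic
import Pool.Agent.Lib.MP_bea121_gt.TC.Near

/-!
# Nets (MP_bea121_gt, module NET)
-/

open MeasureTheory Set Metric Topology Filter
open scoped RealInnerProductSpace Gradient ContDiff Manifold

noncomputable section

namespace Topping

section Net
variable {S : Type} [TopologicalSpace S] [CompactSpace S] (M : MongeSurf S)

/-- pairwise separation -/
def NET_sep (ε : ℝ) (V : Finset S) : Prop := ∀ u ∈ V, ∀ v ∈ V, u ≠ v → ¬ M.near ε u v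

theorem NET_bound (ε : ℝ) (hε : 0 < ε) : ∃ n : ℕ, ∀ V : Finset S, NET_sep M ε V → V.card ≤ n := by
  classical
  have hU : ∀ x : S, ∃ U : Set S, IsOpen U ∧ x ∈ U ∧ ∀ u ∈ U, ∀ v ∈ U, M.near ε u v := by
    intro x
    obtain ⟨i, hi⟩ := P_cover M x
    have hR := M.R_pos i
    refine ⟨M.P i (4 * M.R i) ∩ {x' | ‖M.f x' - M.f x‖ < ε / 2}, ?_, ?_, ?_⟩
    · refine (P_open M i _).inter ?_
      exact isOpen_lt (M.f_cont.sub continuous_const).norm continuous_const
    · refine ⟨P_mono M i (by linarith) hi, ?_⟩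
      simp only [mem_ofPred_eq, sub_self, norm_zero]
      linarith
    · rintro u ⟨hu1, hu2⟩ v ⟨hv1, hv2⟩
      refine ⟨i, hu1, hv1, ?_⟩
      rw [mem_ofPred_eq] at hu2 hv2
      have h1 : M.f u - M.f v = (M.f u - M.f x) - (M.f v - M.f x) := by abel
      rw [h1]
      exact lt_of_le_of_lt (norm_sub_le _ _) (by linarith)
  choose U hUo hUx hUn using hU
  obtain ⟨t, -, ht⟩ := isCompact_univ.elim_nhds_subcover U (fun x _ => (hUo x).mem_nhds (hUx x))
  have hc : ∀ x : S, ∃ y ∈ t, x ∈ U y := by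
    intro x
    have := ht (mem_univ x)
    rw [mem_iUnion₂] at this
    obtain ⟨y, hy, h2⟩ := this
    exact ⟨y, hy, h2⟩
  choose g hg hg2 using hc
  refine ⟨t.card, fun V hV => ?_⟩
  refine Finset.card_le_card_of_injOn g (fun x _ => hg x) ?_
  intro u hu v hv huv
  by_contra hne
  refine hV u hu v hv hne (hUn (g u) u (hg2 u) v ?_)
  rw [huv]; exact hg2 v

theorem net_exists (ε : ℝ) (hε : 0 < ε) : ∃ V : Finset S, M.IsNet ε V := by
  classical
  by_contra hcon
  push Not at hcon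
  obtain ⟨n, hn⟩ := NET_bound M ε hε
  have key : ∀ k : ℕ, ∃ V : Finset S, NET_sep M ε V ∧ V.card = k := by
    intro k
    induction k with
    | zero => exact ⟨∅, fun u hu => by simp at hu, rfl⟩
    | succ k ih =>
      obtain ⟨V, hV, hk⟩ := ih
      have h1 : ∃ x, ∀ v ∈ V, ¬ M.near ε x v := by
        by_contra h2
        push Not at h2
        exact hcon V ⟨hV, h2⟩
      obtain ⟨x, hx⟩ := h1
      have hxV : x ∉ V := fun h => hx x h (near_refl M hε x)
      refine ⟨insert x V, ?_, by rw [Finset.card_insert_of_notMem hxV, hk]⟩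
      intro u hu v hv hne
      rw [Finset.mem_insert] at hu hv
      rcases hu with rfl | hu
      · rcases hv with rfl | hv
        · exact absurd rfl hne
        · exact hx v hv
      · rcases hv with rfl | hv
        · exact fun h => hx u hu (near_symm M h)
        · exact hV u hu v hv hne
  obtain ⟨V, hV, hk⟩ := key (n + 1)
  have := hn V hV
  omega

omit [CompactSpace S] in
theorem NET_sep2 {ε : ℝ} {V : Finset S} (hV : M.IsNet ε V) (i : M.ι) {u v : S} (hu : u ∈ V) (hv : v ∈ V)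
    (hne : u ≠ v) (hui : u ∈ M.P i (4 * M.R i)) (hvi : v ∈ M.P i (4 * M.R i)) :
    ε ≤ ‖M.f u - M.f v‖ ∧ ε ≤ (101 / 100) * ‖M.e i u - M.e i v‖ := by
  have h1 : ε ≤ ‖M.f u - M.f v‖ := by
    by_contra h
    push Not at h
    exact hV.sep u hu v hv hne ⟨i, hui, hvi, h⟩
  exact ⟨h1, h1.trans (chord_e M i (NEAR_P45 M i hui) (NEAR_P45 M i hvi)).2⟩

theorem net_sep {ε : ℝ} {V : Finset S} (hV : M.IsNet ε V) (i : M.ι) {u v : S} (hu : u ∈ V) (hv : v ∈ V)
    (hne : u ≠ v) (hui : u ∈ M.P i (4 * M.R i)) (hvi : v ∈ M.P i (4 * M.R i)) :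
    ε ≤ ‖M.f u - M.f v‖ ∧ ε ≤ (101 / 100) * ‖M.e i u - M.e i v‖ :=
  NET_sep2 M hV i hu hv hne hui hvi

theorem NET_volball (z : E2) (r : ℝ) (hr : 0 ≤ r) :
    volume (ball z r) = ENNReal.ofReal (Real.pi * r ^ 2) := by
  rw [EuclideanSpace.volume_ball_fin_two, mul_comm, ENNReal.ofReal_mul Real.pi_pos.le,
    ENNReal.ofReal_pow hr]

omit [CompactSpace S] in
theorem NET_vol2 {ε : ℝ} (hε : 0 < ε) {V : Finset S} (hV : M.IsNet ε V) (i : M.ι) (W : Finset V)
    (hW : ∀ v ∈ W, (v : S) ∈ M.P i (4 * M.R i)) (Z : Set E2) (hZ : ∀ v ∈ W, ball (M.e i v) (ε / 3) ⊆ Z) :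
    ENNReal.ofReal (W.card * (Real.pi * ε ^ 2 / 9)) ≤ volume Z := by
  have hdisj : (W : Set V).PairwiseDisjoint (fun v => ball (M.e i (v : S)) (ε / 3)) := by
    intro u hu v hv hne
    have hne' : (u : S) ≠ (v : S) := fun h => hne (Subtype.ext h)
    have h1 := (NET_sep2 M hV i u.2 v.2 hne' (hW u hu) (hW v hv)).2
    refine ball_disjoint_ball ?_
    rw [dist_eq_norm]
    linarith
  have h1 : volume (⋃ v ∈ W, ball (M.e i (v : S)) (ε / 3)) = ∑ v ∈ W, volume (ball (M.e i (v : S)) (ε / 3)) :=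
    measure_biUnion_finset hdisj (fun v _ => measurableSet_ball)
  have h2 : volume (⋃ v ∈ W, ball (M.e i (v : S)) (ε / 3)) ≤ volume Z :=
    measure_mono (iUnion₂_subset hZ)
  rw [h1] at h2
  refine le_trans (le_of_eq ?_) h2
  simp only [NET_volball _ (ε / 3) (by linarith)]
  rw [Finset.sum_const, nsmul_eq_mul, ENNReal.ofReal_mul (by positivity), ENNReal.ofReal_natCast]
  congr 2
  ring

theorem net_pack (C : ℝ) (hC : 0 ≤ C) : ∃ n : ℕ, ∀ ε, 0 < ε → ∀ V : Finset S, M.IsNet ε V → ∀ i, ∀ z : E2,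
    {v : V | (v : S) ∈ M.P i (4 * M.R i) ∧ ‖M.e i v - z‖ ≤ C * ε}.ncard ≤ n := by
  classical
  refine ⟨⌈9 * (C + 1) ^ 2⌉₊, fun ε hε V hV i z => ?_⟩
  set W : Finset V := Finset.univ.filter (fun v : V => (v : S) ∈ M.P i (4 * M.R i) ∧
    ‖M.e i v - z‖ ≤ C * ε) with hWdef
  have hcard : {v : V | (v : S) ∈ M.P i (4 * M.R i) ∧ ‖M.e i v - z‖ ≤ C * ε}.ncard = W.card := by
    rw [← Set.ncard_coe_finset]
    congr 1
    ext v
    simp [hWdef]
  rw [hcard]
  have h1 := NET_vol2 M hε hV i W (fun v hv => (Finset.mem_filter.1 hv).2.1)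
    (ball z ((C + 1) * ε)) (by
      intro v hv ζ hζ
      have h2 := (Finset.mem_filter.1 hv).2.2
      rw [mem_ball, dist_eq_norm] at hζ ⊢
      have h3 : ζ - z = (ζ - M.e i v) + (M.e i v - z) := by abel
      rw [h3]
      refine lt_of_le_of_lt (norm_add_le _ _) ?_
      linarith)
  have hpos : 0 ≤ (C + 1) * ε := by positivity
  rw [NET_volball _ _ hpos, ENNReal.ofReal_le_ofReal_iff (by positivity)] at h1
  have hpi := Real.pi_pos
  have h4 : (W.card : ℝ) ≤ 9 * (C + 1) ^ 2 := by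
    have h5 : 0 < Real.pi * ε ^ 2 / 9 := by positivity
    have h6 : Real.pi * ((C + 1) * ε) ^ 2 = (9 * (C + 1) ^ 2) * (Real.pi * ε ^ 2 / 9) := by ring
    rw [h6] at h1
    exact le_of_mul_le_mul_right h1 h5
  exact_mod_cast h4.trans (Nat.le_ceil _)

/-- number of net points with parameter in a set which contains small discs around them -/
theorem net_vol {ε : ℝ} (hε : 0 < ε) {V : Finset S} (hV : M.IsNet ε V) (i : M.ι) (W : Finset V)
    (hW : ∀ v ∈ W, (v : S) ∈ M.P i (4 * M.R i)) (Z : Set E2) (hZ : ∀ v ∈ W, ball (M.e i v) (ε / 3) ⊆ Z) :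
    ENNReal.ofReal (W.card * (Real.pi * ε ^ 2 / 9)) ≤ volume Z :=
  NET_vol2 M hε hV i W hW Z hZ
end Net

end Topping
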