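import Mathlib
import Pool.Agent.Lib.MP_bea121_gt.TC.Defs4
import Pool.Agent.Lib.MP_bea121_gt.TC.Basic
import Pool.Agent.Lib.MP_bea121_gt.TC.Near
import Pool.Agent.Lib.MP_bea121_gt.TC.Net

/-!
# A locally maximal net vertex is nearly critical (MP_bea121_gt, module GRAD)
-/

open MeasureTheory Set Metric Topology Filter
open scoped RealInnerProductSpace Gradient ContDiff Manifold

noncomputable section

namespace Topping

section Grad
variable {S : Type} [TopologicalSpace S] [CompactSpace S] [T2Space S] (M : MongeSurf S)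

omit [CompactSpace S] [T2Space S] in
theorem GRAD_exists_R : ∃ r > 0, ∀ i, r ≤ M.R i := by
  rcases isEmpty_or_nonempty M.ι with h | h
  · exact ⟨1, one_pos, fun i => h.elim i⟩
  · obtain ⟨i₀, hi₀⟩ := Finite.exists_min M.R
    exact ⟨M.R i₀, M.R_pos i₀, hi₀⟩

theorem net_grad : ∃ ε₀ > 0, ∃ C₁ > 0, ∀ ε, 0 < ε → ε < ε₀ → ∀ V : Finset S, M.IsNet ε V → ∀ (y : E3),
    ‖y‖ ≤ 3 → ∀ i, ∀ t : V, (t : S) ∈ M.P i (3 * M.R i) →
    (∀ v : V, M.adj ε V t v → ⟪M.f (v : S), y⟫ ≤ ⟪M.f (t : S), y⟫) →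
      ‖M.Phi i (M.e i t) y‖ ≤ C₁ * ε := by
  obtain ⟨r, hr, hrR⟩ := GRAD_exists_R M
  obtain ⟨δ₁, hδ₁, hloc⟩ := near_loc M
  obtain ⟨δ₂, hδ₂, htrans⟩ := near_trans M
  have hκ : 0 < M.κ := lt_of_lt_of_le one_pos M.κ_one
  refine ⟨min (r / 20) (min (δ₁ / 20) (δ₂ / 20)), by positivity, 35 * M.κ, by positivity, ?_⟩
  intro ε hε hε₀ V hV y hy i t ht hmax
  have hεr : 20 * ε < r := by
    have := lt_of_lt_of_le hε₀ (min_le_left _ _)
    linarith
  have hε1 : 20 * ε < δ₁ := by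
    have := lt_of_lt_of_le hε₀ ((min_le_right _ _).trans (min_le_left _ _))
    linarith
  have hε2 : 20 * ε < δ₂ := by
    have := lt_of_lt_of_le hε₀ ((min_le_right _ _).trans (min_le_right _ _))
    linarith
  have hRi : 20 * ε < M.R i := lt_of_lt_of_le hεr (hrR i)
  have hRpos := M.R_pos i
  set a : E2 := M.e i t with ha
  set G : E2 := M.Phi i a y with hG
  by_cases hG0 : G = 0
  · rw [hG0, norm_zero]; positivity
  have hGn : 0 < ‖G‖ := norm_pos_iff.2 hG0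
  set z' : E2 := a + (8 * ε / ‖G‖) • G with hz'
  have hz'a : z' - a = (8 * ε / ‖G‖) • G := by rw [hz']; abel
  have hz'n : ‖z' - a‖ = 8 * ε := by
    rw [hz'a, norm_smul, Real.norm_eq_abs, abs_of_pos (by positivity)]
    field_simp
  have ha0 : ‖a‖ < 3 * M.R i := by
    have := (symm_e M i ht).2
    rwa [mem_ball_zero_iff] at this
  have hz'mem : z' ∈ ball (0 : E2) (4 * M.R i) := by
    rw [mem_ball_zero_iff]
    have h1 : ‖z'‖ ≤ ‖z' - a‖ + ‖a‖ := by
      have := norm_add_le (z' - a) a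
      rwa [sub_add_cancel] at this
    linarith
  obtain ⟨hx'P, hx'e⟩ := P_symm M i (by linarith : 4 * M.R i ≤ 5 * M.R i) hz'mem
  set x' : S := (M.e i).symm z' with hx'
  obtain ⟨q, hqV, hq⟩ := hV.dense x'
  have htP : (t : S) ∈ M.P i (4 * M.R i) := P_mono M i (by linarith) ht
  have hn1 : M.near (81 / 10 * ε) (t : S) x' := by
    refine near_of M i htP hx'P ?_
    rw [hx'e, ← ha, norm_sub_rev, hz'n]
    linarith
  have hn2 : M.near (81 / 10 * ε + ε) (t : S) q :=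
    htrans _ _ (by positivity) hε (by linarith) _ _ _ hn1 hq
  have hn3 : M.near (10 * ε) (t : S) q := near_mono M (by linarith) hn2
  have hqP : q ∈ M.P i (4 * M.R i) := (hloc (10 * ε) (by positivity) (by linarith) i _ _ ht hn3).1
  have hchord : ‖M.e i x' - M.e i q‖ < ε :=
    lt_of_le_of_lt (chord_e M i (P_mono M i (by linarith) hx'P) (P_mono M i (by linarith) hqP)).1
      (near_f M hq)
  rw [hx'e] at hchord
  set b : E2 := M.e i q with hb
  have hbz : ‖b - z'‖ < ε := by rwa [norm_sub_rev]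
  have hba : ‖b - a‖ < 9 * ε := by
    have h1 : ‖b - a‖ ≤ ‖b - z'‖ + ‖z' - a‖ := by
      have := norm_add_le (b - z') (z' - a)
      rwa [sub_add_sub_cancel] at this
    linarith
  have hne : (t : S) ≠ q := by
    intro h
    have hab : a = b := by rw [ha, hb, h]
    rw [← hab, norm_sub_rev, hz'n] at hbz
    linarith
  have hadj : M.adj ε V t ⟨q, hqV⟩ := by
    refine ⟨fun h => hne ?_, hn3⟩
    rw [h]
  have hle := hmax ⟨q, hqV⟩ hadj
  have hft : M.f (t : S) = M.fi i a := f_e M i (P_mono M i (by linarith) htP)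
  have hfq : M.f q = M.fi i b := f_e M i (P_mono M i (by linarith) hqP)
  have hle' : ⟪M.fi i b, y⟫ ≤ ⟪M.fi i a, y⟫ := by
    rw [← hft, ← hfq]; exact hle
  have htay := taylor M i a b y
  have hinner : 7 * ε * ‖G‖ ≤ ⟪G, b - a⟫ := by
    have h1 : b - a = (z' - a) + (b - z') := by abel
    have h2 : ⟪G, z' - a⟫ = 8 * ε * ‖G‖ := by
      rw [hz'a, real_inner_smul_right, real_inner_self_eq_norm_sq]
      field_simp
    have h3 : -(‖G‖ * ε) ≤ ⟪G, b - z'⟫ := by
      have h4 := abs_real_inner_le_norm G (b - z')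
      have h5 : ‖G‖ * ‖b - z'‖ ≤ ‖G‖ * ε := by gcongr
      have h6 := neg_abs_le ⟪G, b - z'⟫
      linarith
    rw [h1, inner_add_right, h2]
    linarith
  have hsq : ‖b - a‖ ^ 2 ≤ 81 * ε ^ 2 := by
    have h1 : ‖b - a‖ ^ 2 ≤ (9 * ε) ^ 2 := by gcongr
    nlinarith
  have hbound : M.κ * ‖y‖ * ‖b - a‖ ^ 2 ≤ 243 * M.κ * ε ^ 2 := by
    calc M.κ * ‖y‖ * ‖b - a‖ ^ 2 ≤ M.κ * 3 * (81 * ε ^ 2) := by gcongr
      _ = 243 * M.κ * ε ^ 2 := by ring
  have habs := (abs_le.1 htay).1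
  have hfin : 7 * ε * ‖G‖ ≤ 243 * M.κ * ε ^ 2 := by
    have : ⟪M.Phi i a y, b - a⟫ = ⟪G, b - a⟫ := rfl
    linarith
  have h7 : ε * (7 * ‖G‖) ≤ ε * (243 * M.κ * ε) := by nlinarith
  have h8 := le_of_mul_le_mul_left h7 hε
  have h9 : 0 < M.κ * ε := by positivity
  nlinarith

end Grad

end Topping
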