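import Mathlib
import Pool.Agent.Lib.MP_bea121_gt.TC.Grad
import Pool.Agent.Lib.MP_bea121_gt.TC.Near
import Pool.Agent.Lib.MP_bea121_gt.TC.Count
import Pool.Agent.Lib.MP_bea121_gt.TC.Basic

/-!
# Locally maximal net vertices are near critical points (MP_bea121_gt, module CTOP)
-/

open MeasureTheory Set Metric Topology Filter
open scoped RealInnerProductSpace Gradient ContDiff Manifold

noncomputable section

namespace Topping

section Ctop
variable {S : Type} [TopologicalSpace S] [CompactSpace S] [T2Space S] {M : MongeSurf S} {y₀ : E3} (D : CritData M y₀)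

theorem conv_top : ∃ ε₀ > 0, ∃ C₃ > 0, ∀ ε, 0 < ε → ε < ε₀ → ∀ V : Finset S, M.IsNet ε V → ∀ y ∈ ball y₀ D.ρ,
    ∀ t : V, (∀ v : V, M.adj ε V t v → ⟪M.f (v : S), y⟫ ≤ ⟪M.f (t : S), y⟫) →
      ∃ k : D.N, (t : S) ∈ M.P (D.i k) (3 * M.R (D.i k)) ∧ ‖M.e (D.i k) t - D.s k y‖ ≤ C₃ * ε ∧
        M.near (2 * C₃ * ε) t (D.pt k y) := by
  obtain ⟨ε1, hε1, C1, hC1, hgrad⟩ := net_grad M
  have hlam := D.lam_pos
  refine ⟨min ε1 (D.lam / C1), by positivity, max 1 (C1 / D.lam), by positivity, ?_⟩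
  intro ε hε hε0 V hV y hy t ht
  have hεa : ε < ε1 := lt_of_lt_of_le hε0 (min_le_left _ _)
  have hεb : C1 * ε < D.lam := by
    have := lt_of_lt_of_le hε0 (min_le_right _ _)
    rw [lt_div_iff₀ hC1] at this
    linarith
  have hyn : ‖y‖ ≤ 3 := (D.y_norm y hy).2
  obtain ⟨i, hi⟩ := P_cover M (t : S)
  have hR := M.R_pos i
  have hi3 : (t : S) ∈ M.P i (3 * M.R i) := P_mono M i (by linarith) hi
  have hg1 := hgrad ε hε hεa V hV y hyn i t hi3 ht
  have hse := symm_e M i hi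
  have hball : M.e i (t : S) ∈ closedBall (0 : E2) (2 * M.R i) :=
    closedBall_subset_closedBall (by linarith) (ball_subset_closedBall hse.2)
  have hex : ∃ k, (M.e i).symm (M.e i (t : S)) ∈ (M.e (D.i k)).symm '' ball (D.z k) (D.r1 / 2) := by
    by_contra hcon
    push Not at hcon
    have := D.away y hy i _ hball hcon
    linarith
  obtain ⟨k, ζ, hζ, hζt⟩ := hex
  rw [hse.1] at hζt
  have hr1 := D.r1_pos
  have hζ1 : ζ ∈ ball (D.z k) D.r1 := ball_subset_ball (by linarith) hζ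
  have hRk := M.R_pos (D.i k)
  obtain ⟨hP, hez⟩ := P_symm M (D.i k) (ρ := 3 * M.R (D.i k)) (by linarith) (D.ball_sub k hζ1)
  rw [hζt] at hP hez
  have hg2 := hgrad ε hε hεa V hV y hyn (D.i k) t hP ht
  rw [hez] at hg2
  have hlow := D.phi_lower k y hy ζ hζ1
  have hdist : ‖ζ - D.s k y‖ ≤ C1 / D.lam * ε := by
    rw [div_mul_eq_mul_div, le_div_iff₀ hlam]
    linarith
  have hdist2 : ‖ζ - D.s k y‖ ≤ max 1 (C1 / D.lam) * ε :=
    hdist.trans (mul_le_mul_of_nonneg_right (le_max_right _ _) hε.le)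
  have hmax : 0 < max 1 (C1 / D.lam) * ε := by positivity
  obtain ⟨-, hpt, hept⟩ := val_eq M D k y hy
  refine ⟨k, hP, by rw [hez]; exact hdist2, ?_⟩
  refine near_of M (D.i k) (P_mono M _ (by linarith) hP) (P_mono M _ (by linarith) hpt) ?_
  rw [hept, hez]
  nlinarith

/-- every vertex can be connected upwards to a vertex near a critical point -/
theorem conv_climb : ∃ ε₀ > 0, ∃ C₃ > 0, ∀ ε, 0 < ε → ε < ε₀ → ∀ V : Finset S, M.IsNet ε V → ∀ y ∈ ball y₀ D.ρ,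
    ∀ (c : ℝ) (v : V), c ≤ ⟪M.f (v : S), y⟫ → ∃ t : V, ⟪M.f (v : S), y⟫ ≤ ⟪M.f (t : S), y⟫ ∧
      dv v t ∈ eSpan (src (M.adj ε V)) (tgt (M.adj ε V))
        (fun e => c ≤ min ⟪M.pos V (src (M.adj ε V) e), y⟫ ⟪M.pos V (tgt (M.adj ε V) e), y⟫) ∧
      ∃ k : D.N, (t : S) ∈ M.P (D.i k) (3 * M.R (D.i k)) ∧ ‖M.e (D.i k) t - D.s k y‖ ≤ C₃ * ε ∧
        M.near (2 * C₃ * ε) t (D.pt k y) := by
  obtain ⟨ε0, hε0, C3, hC3, htop⟩ := conv_top D
  refine ⟨ε0, hε0, C3, hC3, ?_⟩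
  intro ε hε hεε V hV y hy c v hv
  obtain ⟨w, hw1, hw2, hw3⟩ := exists_top (src (M.adj ε V)) (tgt (M.adj ε V))
    (fun v : V => ⟪M.pos V v, y⟫) c v hv
  refine ⟨w, hw1, hw2, ?_⟩
  apply htop ε hε hεε V hV y hy w
  intro v' hv'
  exact (hw3 ⟨(w, v'), hv'⟩).1 rfl

end Ctop

end Topping
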