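import Mathlib
import Pool.Agent.Lib.MP_bea121_gt.TC.Ctop
import Pool.Agent.Lib.MP_bea121_gt.TC.Net
import Pool.Agent.Lib.MP_bea121_gt.TC.Count
import Pool.Agent.Lib.MP_bea121_gt.TC.Basic

/-!
# The number of components of the net graph is bounded at every level (MP_bea121_gt, module CBND)
-/

open MeasureTheory Set Metric Topology Filter
open scoped RealInnerProductSpace Gradient ContDiff Manifold

noncomputable section

namespace Topping

section Cbnd
variable {S : Type} [TopologicalSpace S] [CompactSpace S] [T2Space S] {M : MongeSurf S} {y₀ : E3} (D : CritData M y₀)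

theorem conv_bound : ∃ ε₀ > 0, ∃ n : ℕ, ∀ ε, 0 < ε → ε < ε₀ → ∀ V : Finset S, M.IsNet ε V → ∀ y ∈ ball y₀ D.ρ,
    ∀ c : ℝ, {v : V | c ≤ ⟪M.pos V v, y⟫}.ncard ≤ rk (src (M.adj ε V)) (tgt (M.adj ε V))
      (fun e => min ⟪M.pos V (src (M.adj ε V) e), y⟫ ⟪M.pos V (tgt (M.adj ε V) e), y⟫) c + n := by
  classical
  obtain ⟨ε0, hε0, C3, hC3, hclimb⟩ := conv_climb D
  obtain ⟨n, hn⟩ := net_pack M C3 hC3.le
  refine ⟨ε0, hε0, Fintype.card D.N * n, ?_⟩
  intro ε hε hεε V hV y hy c
  set A : D.N → Set V := fun k => {v : V | (v : S) ∈ M.P (D.i k) (4 * M.R (D.i k)) ∧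
    ‖M.e (D.i k) v - D.s k y‖ ≤ C3 * ε} with hA
  set W : Finset V := Finset.univ.biUnion (fun k => (A k).toFinite.toFinset) with hW
  have hcard : W.card ≤ Fintype.card D.N * n := by
    calc W.card ≤ ∑ k : D.N, ((A k).toFinite.toFinset).card := Finset.card_biUnion_le
      _ ≤ ∑ k : D.N, n := by
        apply Finset.sum_le_sum
        intro k _
        have := hn ε hε V hV (D.i k) (D.s k y)
        rwa [Set.ncard_eq_toFinset_card _ (A k).toFinite] at this
      _ = Fintype.card D.N * n := by simp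
  have key := count_reps (src (M.adj ε V)) (tgt (M.adj ε V)) (fun v : V => ⟪M.pos V v, y⟫)
    (fun e => min ⟪M.pos V (src (M.adj ε V) e), y⟫ ⟪M.pos V (tgt (M.adj ε V) e), y⟫) c
    (fun j => ⟨min_le_left _ _, min_le_right _ _⟩) W ?_
  · exact key.trans (Nat.add_le_add_left hcard _)
  · intro v hv
    obtain ⟨t, ht1, ht2, k, htP, htd, -⟩ := hclimb ε hε hεε V hV y hy c v hv
    refine ⟨t, ?_, le_trans hv ht1, ht2⟩
    rw [hW, Finset.mem_biUnion]
    refine ⟨k, Finset.mem_univ _, ?_⟩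
    rw [Set.Finite.mem_toFinset]
    have hR := M.R_pos (D.i k)
    exact ⟨P_mono M _ (by linarith) htP, htd⟩

end Cbnd

end Topping
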