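import Mathlib
import Pool.Agent.Lib.MP_bea121_gt.TC.Defs4
import Pool.Agent.Lib.MP_bea121_gt.TC.Basic

open MeasureTheory Set Metric Topology Filter
open scoped RealInnerProductSpace Gradient ContDiff Manifold

noncomputable section

namespace Topping

section Cift
variable {S : Type} [TopologicalSpace S] (M : MongeSurf S)

theorem CIFT_grad_contDiff (g : E2 → ℝ) (hg : ContDiff ℝ 2 g) : ContDiff ℝ 1 (∇ g) := by
  have h1 : ContDiff ℝ 1 (fderiv ℝ g) := hg.fderiv_right (by norm_num)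
  have : (∇ g) = fun z => (InnerProductSpace.toDual ℝ E2).symm (fderiv ℝ g z) := by
    funext z; rfl
  rw [this]
  exact (InnerProductSpace.toDual ℝ E2).symm.contDiff.comp h1

/-- the bundle of gradients as a function of the pair (direction, point) -/
def CIFT_F (i : M.ι) (u : E3 × E2) : E2 := M.Phi i u.2 u.1

theorem CIFT_F_contDiff (i : M.ι) : ContDiff ℝ 1 (CIFT_F M i) := by
  have h1 := CIFT_grad_contDiff (M.g i) (M.g_smooth i)
  have h2 : ContDiff ℝ 1 (fun x : E3 × E2 => ContinuousLinearMap.adjoint (M.L i).toContinuousLinearMap x.1) :=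
    (ContinuousLinearMap.contDiff _).comp contDiff_fst
  have h3 : ContDiff ℝ 1 (fun x : E3 × E2 => (⟪M.c i, x.1⟫ : ℝ)) :=
    ((innerSL ℝ (M.c i)).contDiff).comp contDiff_fst
  have h4 : ContDiff ℝ 1 (fun x : E3 × E2 => ∇ (M.g i) x.2) := h1.comp contDiff_snd
  exact h2.add (h3.smul h4)

theorem CIFT_Phi_deriv (i : M.ι) (z : E2) (y : E3) :
    HasFDerivAt (fun ζ => M.Phi i ζ y) ((⟪M.c i, y⟫ : ℝ) • M.hess i z) z := by
  have h1 : HasFDerivAt (∇ (M.g i)) (M.hess i z) z :=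
    ((CIFT_grad_contDiff (M.g i) (M.g_smooth i)).differentiable (by norm_num) z).hasFDerivAt
  unfold MongeSurf.Phi
  exact (h1.const_smul (⟪M.c i, y⟫ : ℝ)).const_add _

theorem CIFT_partial (i : M.ι) (z : E2) (y : E3) :
    fderiv ℝ (CIFT_F M i) (y, z) ∘L .inr ℝ E3 E2 = (⟪M.c i, y⟫ : ℝ) • M.hess i z := by
  have h1 : HasFDerivAt (CIFT_F M i) (fderiv ℝ (CIFT_F M i) (y, z)) (y, z) :=
    ((CIFT_F_contDiff M i).differentiable (by norm_num) (y, z)).hasFDerivAt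
  have h2 : HasFDerivAt (fun ζ : E2 => ((y, ζ) : E3 × E2)) (ContinuousLinearMap.inr ℝ E3 E2) z :=
    hasFDerivAt_prodMk_right y z
  have h3 := HasFDerivAt.comp z h1 h2
  have h4 : (CIFT_F M i ∘ fun ζ : E2 => ((y, ζ) : E3 × E2)) = fun ζ => M.Phi i ζ y := rfl
  rw [h4] at h3
  exact h3.unique (CIFT_Phi_deriv M i z y)

theorem crit_ift (i : M.ι) (z₀ : E2) (hz : z₀ ∈ closedBall (0 : E2) (2 * M.R i)) (y₀ : E3) (hy : y₀ ≠ 0)
    (h0 : M.Phi i z₀ y₀ = 0) (hd : M.hdet i z₀ ≠ 0) (θ : ℝ) (hθ : 0 < θ) :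
    ∃ r' > 0, ∀ r1, 0 < r1 → r1 ≤ r' → ∃ ρ > 0, ∃ s : E3 → E2, LocCrit0 M i z₀ y₀ θ r1 ρ s := by
  have hR := M.R_pos i
  have hc : (⟪M.c i, y₀⟫ : ℝ) ≠ 0 := by
    intro h
    have h1 := (y_norm_le M i z₀ y₀ h0).2
    rw [h, abs_zero, mul_zero] at h1
    exact hy (norm_le_zero_iff.1 h1)
  -- uniform closeness
  have hcont : ContinuousAt (fun u : E3 × E2 => ‖(⟪M.c i, u.1⟫ : ℝ) • M.hess i u.2 -
      (⟪M.c i, y₀⟫ : ℝ) • M.hess i z₀‖) (y₀, z₀) := by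
    have hh := (hess_cont M i).1
    fun_prop
  have hlt : ∀ᶠ u : E3 × E2 in 𝓝 (y₀, z₀), ‖(⟪M.c i, u.1⟫ : ℝ) • M.hess i u.2 -
      (⟪M.c i, y₀⟫ : ℝ) • M.hess i z₀‖ < θ := by
    refine hcont.eventually (gt_mem_nhds ?_)
    simpa using hθ
  obtain ⟨δ, hδ, hδ'⟩ := Metric.eventually_nhds_iff_ball.1 hlt
  have hclose0 : ∀ y ∈ ball y₀ δ, ∀ ζ ∈ ball z₀ δ, ‖(⟪M.c i, y⟫ : ℝ) • M.hess i ζ -
      (⟪M.c i, y₀⟫ : ℝ) • M.hess i z₀‖ ≤ θ := by
    intro y hy ζ hζ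
    refine (hδ' (y, ζ) ?_).le
    rw [mem_ball, Prod.dist_eq]
    exact max_lt hy hζ
  -- the implicit function
  have hinv : (fderiv ℝ (CIFT_F M i) (y₀, z₀) ∘L .inr ℝ E3 E2).IsInvertible := by
    rw [CIFT_partial]
    set T := (⟪M.c i, y₀⟫ : ℝ) • M.hess i z₀ with hT
    have hdet : T.det ≠ 0 := by
      have : T.det = (⟪M.c i, y₀⟫ : ℝ) ^ 2 * M.hdet i z₀ := by
        rw [ContinuousLinearMap.det, hT, ContinuousLinearMap.toLinearMap_smul, LinearMap.det_smul]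
        simp [MongeSurf.hdet]
      rw [this]
      exact mul_ne_zero (pow_ne_zero 2 hc) hd
    exact ⟨T.toContinuousLinearEquivOfDetNeZero hdet, by ext v; simp⟩
  have cdf : ContDiffAt ℝ 1 (CIFT_F M i) (y₀, z₀) := (CIFT_F_contDiff M i).contDiffAt
  have pn : (1 : ℕ∞ω) ≠ 0 := by norm_num
  set s := cdf.implicitFunction pn hinv with hs
  have hs0 : s y₀ = z₀ := cdf.implicitFunction_apply_self pn hinv
  have hsz : ∀ᶠ y in 𝓝 y₀, CIFT_F M i (y, s y) = CIFT_F M i (y₀, z₀) :=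
    cdf.eventually_apply_implicitFunction pn hinv
  have hsc : ContDiffAt ℝ 1 s y₀ := cdf.contDiffAt_implicitFunction pn hinv
  have hsc' : ∀ᶠ y in 𝓝 y₀, ContDiffAt ℝ 1 s y := hsc.eventually (by norm_num)
  refine ⟨min δ (M.R i), lt_min hδ hR, fun r1 hr1 hr1' => ?_⟩
  have hsm : ∀ᶠ y in 𝓝 y₀, s y ∈ ball z₀ (r1 / 4) := by
    have : ContinuousAt s y₀ := hsc.continuousAt
    exact this.eventually (by rw [hs0]; exact ball_mem_nhds _ (by linarith))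
  obtain ⟨ρ₁, hρ₁, hρ₁'⟩ := Metric.eventually_nhds_iff_ball.1 (hsz.and (hsc'.and hsm))
  refine ⟨min ρ₁ δ, lt_min hρ₁ hδ, s, ?_⟩
  have hb1 : ∀ y ∈ ball y₀ (min ρ₁ δ), y ∈ ball y₀ ρ₁ := fun y h =>
    ball_subset_ball (min_le_left _ _) h
  have hb2 : ∀ y ∈ ball y₀ (min ρ₁ δ), y ∈ ball y₀ δ := fun y h =>
    ball_subset_ball (min_le_right _ _) h
  refine ⟨?_, hs0, ?_, ?_, ?_, ?_⟩
  · intro ζ hζ
    rw [mem_ball, dist_zero_right]
    rw [mem_ball, dist_eq_norm] at hζ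
    rw [mem_closedBall, dist_zero_right] at hz
    have h1 : ‖ζ‖ ≤ ‖ζ - z₀‖ + ‖z₀‖ := by
      have := norm_add_le (ζ - z₀) z₀
      simpa using this
    have h2 : r1 ≤ M.R i := hr1'.trans (min_le_right _ _)
    linarith
  · intro y hy
    exact (hρ₁' y (hb1 y hy)).2.2
  · intro y hy
    have := (hρ₁' y (hb1 y hy)).1
    rw [CIFT_F, CIFT_F] at this
    simpa [h0] using this
  · intro y hy
    exact (hρ₁' y (hb1 y hy)).2.1.contDiffWithinAt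
  · intro y hy ζ hζ ζ' hζ'
    have hsub : ball z₀ r1 ⊆ ball z₀ δ := ball_subset_ball (hr1'.trans (min_le_left _ _))
    have hder : ∀ w ∈ ball z₀ r1, HasFDerivWithinAt
        (fun w => M.Phi i w y - (⟪M.c i, y₀⟫ : ℝ) • M.hess i z₀ w)
        ((⟪M.c i, y⟫ : ℝ) • M.hess i w - (⟪M.c i, y₀⟫ : ℝ) • M.hess i z₀) (ball z₀ r1) w := by
      intro w _
      have h1 := CIFT_Phi_deriv M i w y
      have h2 : HasFDerivAt (fun w => (⟪M.c i, y₀⟫ : ℝ) • M.hess i z₀ w)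
          ((⟪M.c i, y₀⟫ : ℝ) • M.hess i z₀) w :=
        ((⟪M.c i, y₀⟫ : ℝ) • M.hess i z₀).hasFDerivAt
      exact (h1.sub h2).hasFDerivWithinAt
    have := (convex_ball z₀ r1).norm_image_sub_le_of_norm_hasFDerivWithin_le (𝕜 := ℝ) hder
      (fun w hw => hclose0 y (hb2 y hy) w (hsub hw)) hζ' hζ
    have e : M.Phi i ζ y - ⟪M.c i, y₀⟫ • M.hess i z₀ ζ - (M.Phi i ζ' y - ⟪M.c i, y₀⟫ • M.hess i z₀ ζ') =
        M.Phi i ζ y - M.Phi i ζ' y - ⟪M.c i, y₀⟫ • M.hess i z₀ (ζ - ζ') := by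
      rw [map_sub, smul_sub]
      abel
    rw [e] at this
    exact this

theorem locCrit0_mono (i : M.ι) (z₀ : E2) (y₀ : E3) (θ r1 ρ ρ' : ℝ) (s : E3 → E2) (h : ρ' ≤ ρ) (hρ : 0 < ρ')
    (H : LocCrit0 M i z₀ y₀ θ r1 ρ s) : LocCrit0 M i z₀ y₀ θ r1 ρ' s := by
  have hb : ball y₀ ρ' ⊆ ball y₀ ρ := ball_subset_ball h
  exact ⟨H.ball_sub, H.s_center, fun y hy => H.s_mem y (hb hy), fun y hy => H.s_zero y (hb hy),
    H.s_c1.mono hb, fun y hy => H.close y (hb hy)⟩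

end Cift

end Topping
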