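import Mathlib
import Pool.Agent.Lib.MP_bea121_gt.TC.Defs4
import Pool.Agent.Lib.MP_bea121_gt.TC.Basic

/-!
# Type of a nondegenerate critical point
-/

open MeasureTheory Set Metric Topology Filter
open scoped RealInnerProductSpace Gradient ContDiff Manifold

noncomputable section

namespace Topping

section Ctyp
variable {S : Type} [TopologicalSpace S] (M : MongeSurf S)

/-- Orthonormal eigenvectors of the symmetric operator `⟪c, y₀⟫ • D²g(z₀)`. -/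
structure CTYP_Eig (i : M.ι) (z₀ : E2) (y₀ : E3) (e1 e2 : E2) (l1 l2 : ℝ) : Prop where
  n1 : ‖e1‖ = 1
  n2 : ‖e2‖ = 1
  orth : ⟪e1, e2⟫ = 0
  exp : ∀ v : E2, v = ⟪v, e1⟫ • e1 + ⟪v, e2⟫ • e2
  a1 : ⟪M.c i, y₀⟫ • M.hess i z₀ e1 = l1 • e1
  a2 : ⟪M.c i, y₀⟫ • M.hess i z₀ e2 = l2 • e2
  l1_ne : l1 ≠ 0
  l2_ne : l2 ≠ 0

variable {M}

theorem CTYP_Eig.swap {i : M.ι} {z₀ : E2} {y₀ : E3} {e1 e2 : E2} {l1 l2 : ℝ}
    (E : CTYP_Eig M i z₀ y₀ e1 e2 l1 l2) : CTYP_Eig M i z₀ y₀ e2 e1 l2 l1 where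
  n1 := E.n2
  n2 := E.n1
  orth := by rw [real_inner_comm]; exact E.orth
  exp := fun v => by rw [add_comm]; exact E.exp v
  a1 := E.a2
  a2 := E.a1
  l1_ne := E.l2_ne
  l2_ne := E.l1_ne

theorem CTYP_Eig.normSq {i : M.ι} {z₀ : E2} {y₀ : E3} {e1 e2 : E2} {l1 l2 : ℝ}
    (E : CTYP_Eig M i z₀ y₀ e1 e2 l1 l2) (v : E2) : ‖v‖ ^ 2 = ⟪v, e1⟫ ^ 2 + ⟪v, e2⟫ ^ 2 := by
  have h1 : ⟪v, v⟫ = ⟪v, ⟪v, e1⟫ • e1 + ⟪v, e2⟫ • e2⟫ := by rw [← E.exp v]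
  rw [real_inner_self_eq_norm_sq, inner_add_right, inner_smul_right, inner_smul_right] at h1
  rw [h1]
  ring

theorem CTYP_Eig.apply1 {i : M.ι} {z₀ : E2} {y₀ : E3} {e1 e2 : E2} {l1 l2 : ℝ}
    (E : CTYP_Eig M i z₀ y₀ e1 e2 l1 l2) (v : E2) :
    ⟪⟪M.c i, y₀⟫ • M.hess i z₀ v, e1⟫ = l1 * ⟪v, e1⟫ := by
  have h1 : ⟪⟪M.c i, y₀⟫ • M.hess i z₀ v, e1⟫ = ⟪v, ⟪M.c i, y₀⟫ • M.hess i z₀ e1⟫ := by
    rw [inner_smul_left, inner_smul_right, hess_symm]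
    rfl
  rw [h1, E.a1, inner_smul_right]

theorem CTYP_Eig.apply2 {i : M.ι} {z₀ : E2} {y₀ : E3} {e1 e2 : E2} {l1 l2 : ℝ}
    (E : CTYP_Eig M i z₀ y₀ e1 e2 l1 l2) (v : E2) :
    ⟪⟪M.c i, y₀⟫ • M.hess i z₀ v, e2⟫ = l2 * ⟪v, e2⟫ := E.swap.apply1 v

theorem CTYP_Eig.quad {i : M.ι} {z₀ : E2} {y₀ : E3} {e1 e2 : E2} {l1 l2 : ℝ}
    (E : CTYP_Eig M i z₀ y₀ e1 e2 l1 l2) (v : E2) :
    ⟪⟪M.c i, y₀⟫ • M.hess i z₀ v, v⟫ = l1 * ⟪v, e1⟫ ^ 2 + l2 * ⟪v, e2⟫ ^ 2 := by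
  have h1 : ⟪⟪M.c i, y₀⟫ • M.hess i z₀ v, v⟫ =
      ⟪⟪M.c i, y₀⟫ • M.hess i z₀ v, ⟪v, e1⟫ • e1 + ⟪v, e2⟫ • e2⟫ := by rw [← E.exp v]
  rw [h1, inner_add_right, inner_smul_right, inner_smul_right, E.apply1, E.apply2]
  ring

theorem CTYP_abs {n a b θ : ℝ} (h : |a - b| ≤ θ * n) : a ≤ b + θ * n ∧ b - θ * n ≤ a := by
  rw [abs_le] at h
  constructor <;> linarith [h.1, h.2]

/-- The gradient near the critical point. -/
theorem CTYP_close {i : M.ι} {z₀ : E2} {y₀ : E3} {θ r1 ρ : ℝ} {s : E3 → E2} (hr : 0 < r1)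
    (hL : LocCrit0 M i z₀ y₀ θ r1 ρ s) {y : E3} (hy : y ∈ ball y₀ ρ) {ζ : E2}
    (hζ : ζ ∈ ball z₀ r1) :
    ‖M.Phi i ζ y - ⟪M.c i, y₀⟫ • M.hess i z₀ (ζ - s y)‖ ≤ θ * ‖ζ - s y‖ := by
  have h1 := hL.close y hy ζ hζ (s y) (ball_subset_ball (by linarith) (hL.s_mem y hy))
  rw [hL.s_zero y hy, sub_zero] at h1
  exact h1

/-- Heights near the critical point. -/
theorem CTYP_height {i : M.ι} {z₀ : E2} {y₀ : E3} {e1 e2 : E2} {l1 l2 : ℝ}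
    (E : CTYP_Eig M i z₀ y₀ e1 e2 l1 l2) {θ r1 ρ : ℝ} {s : E3 → E2} (hr : 0 < r1) (hθ : 0 ≤ θ)
    (hL : LocCrit0 M i z₀ y₀ θ r1 ρ s) {y : E3} (hy : y ∈ ball y₀ ρ) {ζ : E2}
    (hζ : ζ ∈ ball z₀ r1) :
    |⟪M.fi i ζ, y⟫ - ⟪M.fi i (s y), y⟫ -
      (l1 * ⟪ζ - s y, e1⟫ ^ 2 + l2 * ⟪ζ - s y, e2⟫ ^ 2) / 2| ≤ θ * ‖ζ - s y‖ ^ 2 := by
  set v := ζ - s y with hv
  set A : E2 := ⟪M.c i, y₀⟫ • M.hess i z₀ v with hA
  have hsy : s y ∈ ball z₀ r1 := ball_subset_ball (by linarith) (hL.s_mem y hy)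
  have hseg : ∀ t ∈ Icc (0 : ℝ) 1, s y + t • v ∈ ball z₀ r1 := fun t ht =>
    (convex_ball z₀ r1).add_smul_sub_mem hsy hζ ht
  have hder : ∀ t ∈ Icc (0 : ℝ) 1, HasDerivWithinAt
      (fun t : ℝ => ⟪M.fi i (s y + t • v), y⟫ - t ^ 2 / 2 * ⟪A, v⟫)
      (⟪M.Phi i (s y + t • v) y, v⟫ - t * ⟪A, v⟫) (Icc (0 : ℝ) 1) t := by
    intro t _
    apply HasDerivAt.hasDerivWithinAt
    apply HasDerivAt.sub
    · have h1 : HasDerivAt (fun t : ℝ => s y + t • v) v t := by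
        have := ((hasDerivAt_id t).smul_const v).const_add (s y)
        simpa using this
      have h2 := (hasGrad M i (s y + t • v) y).hasFDerivAt
      have h3 := h2.comp_hasDerivAt t h1
      simpa [Function.comp_def] using h3
    · have h1 : HasDerivAt (fun t : ℝ => t ^ 2 / 2) t t := by
        exact ((hasDerivAt_pow 2 t).div_const 2).congr_deriv (by norm_num)
      exact h1.mul_const _
  have hbd : ∀ t ∈ Ico (0 : ℝ) 1,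
      ‖⟪M.Phi i (s y + t • v) y, v⟫ - t * ⟪A, v⟫‖ ≤ θ * ‖v‖ ^ 2 := by
    intro t ht
    have h1 := CTYP_close hr hL hy (hseg t ⟨ht.1, ht.2.le⟩)
    have h2 : s y + t • v - s y = t • v := by simp
    rw [h2, map_smul, smul_comm, ← hA] at h1
    have h3 : ⟪M.Phi i (s y + t • v) y, v⟫ - t * ⟪A, v⟫ =
        ⟪M.Phi i (s y + t • v) y - t • A, v⟫ := by
      rw [inner_sub_left, real_inner_smul_left A v t]
    rw [h3, Real.norm_eq_abs]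
    calc |⟪M.Phi i (s y + t • v) y - t • A, v⟫| ≤ ‖M.Phi i (s y + t • v) y - t • A‖ * ‖v‖ :=
          abs_real_inner_le_norm _ _
      _ ≤ θ * ‖t • v‖ * ‖v‖ := mul_le_mul_of_nonneg_right h1 (norm_nonneg _)
      _ = θ * (t * ‖v‖ ^ 2) := by
          rw [norm_smul, Real.norm_eq_abs, abs_of_nonneg ht.1]; ring
      _ ≤ θ * ‖v‖ ^ 2 := by
          apply mul_le_mul_of_nonneg_left _ hθ
          have : 0 ≤ ‖v‖ ^ 2 := sq_nonneg _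
          nlinarith [ht.2]
  have h5 := norm_image_sub_le_of_norm_deriv_le_segment_01' hder hbd
  have h6 : ⟪A, v⟫ = l1 * ⟪v, e1⟫ ^ 2 + l2 * ⟪v, e2⟫ ^ 2 := E.quad v
  have h7 : s y + (1 : ℝ) • v = ζ := by rw [hv]; simp
  have h8 : s y + (0 : ℝ) • v = s y := by simp
  rw [h7, h8, Real.norm_eq_abs, h6] at h5
  have h9 : ⟪M.fi i ζ, y⟫ - 1 ^ 2 / 2 * (l1 * ⟪v, e1⟫ ^ 2 + l2 * ⟪v, e2⟫ ^ 2) -
      (⟪M.fi i (s y), y⟫ - 0 ^ 2 / 2 * (l1 * ⟪v, e1⟫ ^ 2 + l2 * ⟪v, e2⟫ ^ 2)) =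
      ⟪M.fi i ζ, y⟫ - ⟪M.fi i (s y), y⟫ -
      (l1 * ⟪v, e1⟫ ^ 2 + l2 * ⟪v, e2⟫ ^ 2) / 2 := by ring
  rw [h9] at h5
  exact h5

theorem CTYP_inner_close {i : M.ι} {z₀ : E2} {y₀ : E3} {e1 e2 : E2} {l1 l2 : ℝ}
    (E : CTYP_Eig M i z₀ y₀ e1 e2 l1 l2) {θ r1 ρ : ℝ} {s : E3 → E2} (hr : 0 < r1)
    (hL : LocCrit0 M i z₀ y₀ θ r1 ρ s) {y : E3} (hy : y ∈ ball y₀ ρ) {ζ : E2}
    (hζ : ζ ∈ ball z₀ r1) :
    |⟪M.Phi i ζ y, e1⟫ - l1 * ⟪ζ - s y, e1⟫| ≤ θ * ‖ζ - s y‖ := by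
  rw [← E.apply1, ← inner_sub_left]
  refine (abs_real_inner_le_norm _ _).trans ?_
  rw [E.n1, mul_one]
  exact CTYP_close hr hL hy hζ

/-- Bounds for the linear part. -/
theorem CTYP_lin {i : M.ι} {z₀ : E2} {y₀ : E3} {e1 e2 : E2} {l1 l2 : ℝ}
    (E : CTYP_Eig M i z₀ y₀ e1 e2 l1 l2) {m Mx : ℝ} (hm : 0 < m) (h1 : m ≤ |l1|) (h2 : m ≤ |l2|)
    (h3 : |l1| ≤ Mx) (h4 : |l2| ≤ Mx) (v : E2) :
    m * ‖v‖ ≤ ‖⟪M.c i, y₀⟫ • M.hess i z₀ v‖ ∧ ‖⟪M.c i, y₀⟫ • M.hess i z₀ v‖ ≤ Mx * ‖v‖ := by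
  set A : E2 := ⟪M.c i, y₀⟫ • M.hess i z₀ v with hA
  have h5 : ‖A‖ ^ 2 = (l1 * ⟪v, e1⟫) ^ 2 + (l2 * ⟪v, e2⟫) ^ 2 := by
    rw [E.normSq A, hA, E.apply1, E.apply2]
  have h6 := E.normSq v
  have hMx : 0 < Mx := hm.trans_le (h1.trans h3)
  have a1 : m ^ 2 ≤ l1 ^ 2 := by rw [← sq_abs l1]; exact pow_le_pow_left₀ hm.le h1 2
  have a2 : m ^ 2 ≤ l2 ^ 2 := by rw [← sq_abs l2]; exact pow_le_pow_left₀ hm.le h2 2
  have a3 : l1 ^ 2 ≤ Mx ^ 2 := by rw [← sq_abs l1]; exact pow_le_pow_left₀ (abs_nonneg _) h3 2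
  have a4 : l2 ^ 2 ≤ Mx ^ 2 := by rw [← sq_abs l2]; exact pow_le_pow_left₀ (abs_nonneg _) h4 2
  have b1 : 0 ≤ ⟪v, e1⟫ ^ 2 := sq_nonneg _
  have b2 : 0 ≤ ⟪v, e2⟫ ^ 2 := sq_nonneg _
  constructor
  · apply le_of_sq_le_sq _ (norm_nonneg _)
    rw [h5, mul_pow, h6]
    nlinarith [mul_le_mul_of_nonneg_right a1 b1, mul_le_mul_of_nonneg_right a2 b2]
  · apply le_of_sq_le_sq _ (by positivity)
    rw [h5, mul_pow Mx, h6]
    nlinarith [mul_le_mul_of_nonneg_right a3 b1, mul_le_mul_of_nonneg_right a4 b2]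

/-- The real inequality behind the cones. -/
theorem CTYP_cone {x1 x2 n l1 l2 m Mx L θ a d : ℝ} (hn2 : n ^ 2 = x1 ^ 2 + x2 ^ 2)
    (hm : 0 < m) (h1 : m ≤ l1) (h2 : m ≤ -l2) (h3 : l1 ≤ Mx) (hL : L = 2 * Mx / m + 2)
    (hθ : θ = m / (2 * L)) (hd : |d - (l1 * x1 ^ 2 + l2 * x2 ^ 2) / 2| ≤ θ * n ^ 2) (hd0 : 0 < d)
    (ha : |a - l1 * x1| ≤ θ * n) : 0 < x1 * a ∧ n ≤ L * |x1| := by
  have hMm : m ≤ Mx := h1.trans h3
  have hq : 2 ≤ 2 * Mx / m := by rw [le_div_iff₀ hm]; linarith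
  have hL4 : 4 ≤ L := by rw [hL]; linarith
  have hL0 : 0 < L := by linarith
  have hθ0 : 0 < θ := by rw [hθ]; positivity
  have hθL : θ * L = m / 2 := by rw [hθ]; field_simp
  have hθ8 : θ ≤ m / 8 := by
    rw [hθ, div_le_div_iff₀ (by positivity) (by norm_num)]
    nlinarith
  have hd' := (abs_le.1 hd).2
  have hx1 := sq_nonneg x1
  have hx2 := sq_nonneg x2
  -- `(|l2| - 2θ) x2² < (l1 + 2θ) x1²`
  have k1 : (-l2 - 2 * θ) * x2 ^ 2 < (l1 + 2 * θ) * x1 ^ 2 := by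
    rw [hn2] at hd'
    nlinarith
  have k2 : m / 2 * x2 ^ 2 ≤ (-l2 - 2 * θ) * x2 ^ 2 :=
    mul_le_mul_of_nonneg_right (by linarith) hx2
  have k3 : (l1 + 2 * θ) * x1 ^ 2 ≤ (Mx + m / 2) * x1 ^ 2 :=
    mul_le_mul_of_nonneg_right (by linarith) hx1
  have hx1p : 0 < x1 ^ 2 := by
    rcases hx1.lt_or_eq with h | h
    · exact h
    · exfalso
      rw [← h, mul_zero] at k1
      have : 0 ≤ m / 2 * x2 ^ 2 := by positivity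
      linarith
  have k4 : x2 ^ 2 ≤ (2 * Mx / m + 1) * x1 ^ 2 := by
    have : m / 2 * x2 ^ 2 ≤ m / 2 * ((2 * Mx / m + 1) * x1 ^ 2) := by
      have e : m / 2 * ((2 * Mx / m + 1) * x1 ^ 2) = (Mx + m / 2) * x1 ^ 2 := by
        field_simp
      rw [e]; linarith
    exact le_of_mul_le_mul_left this (by positivity)
  have k5 : n ^ 2 ≤ L * x1 ^ 2 := by
    rw [hn2, hL]; linarith
  have k6 : n ≤ L * |x1| := by
    apply le_of_sq_le_sq _ (by positivity)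
    rw [mul_pow, sq_abs]
    refine k5.trans ?_
    apply mul_le_mul_of_nonneg_right _ hx1
    nlinarith
  refine ⟨?_, k6⟩
  have k7 : l1 * x1 ^ 2 - x1 * a ≤ θ * n * |x1| := by
    have : l1 * x1 ^ 2 - x1 * a = -(x1 * (a - l1 * x1)) := by ring
    rw [this]
    refine (neg_le_abs _).trans ?_
    rw [abs_mul, mul_comm]
    exact mul_le_mul_of_nonneg_right ha (abs_nonneg _)
  have k8 : θ * n * |x1| ≤ m / 2 * x1 ^ 2 := by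
    calc θ * n * |x1| ≤ θ * (L * |x1|) * |x1| := by
          apply mul_le_mul_of_nonneg_right _ (abs_nonneg _)
          exact mul_le_mul_of_nonneg_left k6 hθ0.le
      _ = θ * L * |x1| ^ 2 := by ring
      _ = m / 2 * x1 ^ 2 := by rw [hθL, sq_abs]
  have k9 : m * x1 ^ 2 ≤ l1 * x1 ^ 2 := mul_le_mul_of_nonneg_right h1 hx1
  nlinarith

/-- The common part of all types. -/
theorem CTYP_core {i : M.ι} {z₀ : E2} {y₀ : E3} {e1 e2 : E2} {l1 l2 : ℝ}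
    (E : CTYP_Eig M i z₀ y₀ e1 e2 l1 l2) (hs : ¬ (l1 < 0 ∧ 0 < l2)) :
    ∃ (θ lam Lam : ℝ) (typ : Fin 3) (p q : E2), 0 < θ ∧ 0 < lam ∧ 0 < Lam ∧ ‖p‖ = 1 ∧ ‖q‖ = 1 ∧
      ∀ (r1 ρ : ℝ) (s : E3 → E2), 0 < r1 → 0 < ρ → LocCrit0 M i z₀ y₀ θ r1 ρ s →
        LocCrit M i z₀ y₀ typ p q lam Lam r1 ρ s := by
  set m := min |l1| |l2| with hmdef
  set Mx := max |l1| |l2| with hMx
  have hm : 0 < m := lt_min (abs_pos.2 E.l1_ne) (abs_pos.2 E.l2_ne)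
  have m1 : m ≤ |l1| := min_le_left _ _
  have m2 : m ≤ |l2| := min_le_right _ _
  have M1 : |l1| ≤ Mx := le_max_left _ _
  have M2 : |l2| ≤ Mx := le_max_right _ _
  have hMm : m ≤ Mx := m1.trans M1
  set L := 2 * Mx / m + 2 with hLdef
  have hq : 2 ≤ 2 * Mx / m := by rw [le_div_iff₀ hm]; linarith
  have hL4 : 4 ≤ L := by rw [hLdef]; linarith
  set θ := m / (2 * L) with hθdef
  have hθ0 : 0 < θ := by rw [hθdef]; positivity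
  have hθ8 : θ ≤ m / 8 := by
    rw [hθdef, div_le_div_iff₀ (by positivity) (by norm_num)]
    nlinarith
  obtain ⟨typ, ht0, ht1, ht2⟩ : ∃ typ : Fin 3, (typ = 0 → l1 < 0 ∧ l2 < 0) ∧
      (typ = 1 → 0 < l1 ∧ l2 < 0) ∧ (typ = 2 → 0 < l1 ∧ 0 < l2) := by
    rcases lt_or_gt_of_ne E.l1_ne with h1 | h1
    · rcases lt_or_gt_of_ne E.l2_ne with h2 | h2
      · exact ⟨0, fun _ => ⟨h1, h2⟩, fun h => absurd h (by decide), fun h => absurd h (by decide)⟩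
      · exact (hs ⟨h1, h2⟩).elim
    · rcases lt_or_gt_of_ne E.l2_ne with h2 | h2
      · exact ⟨1, fun h => absurd h (by decide), fun _ => ⟨h1, h2⟩, fun h => absurd h (by decide)⟩
      · exact ⟨2, fun h => absurd h (by decide), fun h => absurd h (by decide), fun _ => ⟨h1, h2⟩⟩
  refine ⟨θ, m / 4, Mx + m + L, typ, e1, e2, hθ0, by positivity, by positivity, E.n1, E.n2, ?_⟩
  intro r1 ρ s hr hρ hL
  have hmid : ∀ (w : E2), ‖w‖ = 1 → ∀ y ∈ ball y₀ ρ, ∀ τ : ℝ, |τ| ≤ r1 / 2 →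
      s y + τ • w ∈ ball z₀ r1 := by
    intro w hw y hy τ hτ
    have h1 := hL.s_mem y hy
    rw [mem_ball, dist_eq_norm] at h1 ⊢
    calc ‖s y + τ • w - z₀‖ = ‖(s y - z₀) + τ • w‖ := by congr 1; abel
      _ ≤ ‖s y - z₀‖ + ‖τ • w‖ := norm_add_le _ _
      _ < r1 / 4 + r1 / 2 := by
          rw [norm_smul, hw, mul_one, Real.norm_eq_abs]
          linarith
      _ < r1 := by linarith
  have hquad : ∀ v : E2, 0 ≤ ⟪v, e1⟫ ^ 2 ∧ 0 ≤ ⟪v, e2⟫ ^ 2 := fun v => ⟨sq_nonneg _, sq_nonneg _⟩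
  refine ⟨hL.ball_sub, hL.s_center, hL.s_mem, hL.s_zero, hL.s_c1, ?_, ?_, ?_, ?_, ?_, ?_, ?_, ?_⟩
  · -- phi_lower
    intro y hy ζ hζ
    have h1 := CTYP_close hr hL hy hζ
    have h2 := (CTYP_lin E hm m1 m2 M1 M2 (ζ - s y)).1
    have h3 : ‖⟪M.c i, y₀⟫ • M.hess i z₀ (ζ - s y)‖ ≤ ‖M.Phi i ζ y‖ +
        ‖M.Phi i ζ y - ⟪M.c i, y₀⟫ • M.hess i z₀ (ζ - s y)‖ := by
      have := norm_sub_le (M.Phi i ζ y) (M.Phi i ζ y - ⟪M.c i, y₀⟫ • M.hess i z₀ (ζ - s y))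
      rwa [sub_sub_cancel] at this
    have h4 : θ * ‖ζ - s y‖ ≤ m / 8 * ‖ζ - s y‖ := mul_le_mul_of_nonneg_right hθ8 (norm_nonneg _)
    nlinarith [norm_nonneg (ζ - s y), mul_nonneg hm.le (norm_nonneg (ζ - s y))]
  · -- phi_upper
    intro y hy ζ hζ
    have h1 := CTYP_close hr hL hy hζ
    have h2 := (CTYP_lin E hm m1 m2 M1 M2 (ζ - s y)).2
    have h3 : ‖M.Phi i ζ y‖ ≤ ‖⟪M.c i, y₀⟫ • M.hess i z₀ (ζ - s y)‖ +
        ‖M.Phi i ζ y - ⟪M.c i, y₀⟫ • M.hess i z₀ (ζ - s y)‖ := by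
      have := norm_add_le (⟪M.c i, y₀⟫ • M.hess i z₀ (ζ - s y))
        (M.Phi i ζ y - ⟪M.c i, y₀⟫ • M.hess i z₀ (ζ - s y))
      rwa [add_sub_cancel] at this
    have h4 : θ * ‖ζ - s y‖ ≤ m / 8 * ‖ζ - s y‖ := mul_le_mul_of_nonneg_right hθ8 (norm_nonneg _)
    have h5 : 0 ≤ L * ‖ζ - s y‖ := by positivity
    nlinarith [norm_nonneg (ζ - s y), mul_nonneg hm.le (norm_nonneg (ζ - s y))]
  · -- tmax
    intro ht y hy ζ hζ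
    obtain ⟨n1, n2⟩ := ht0 ht
    have h1 := (abs_le.1 (CTYP_height E hr hθ0.le hL hy hζ)).2
    have h2 := E.normSq (ζ - s y)
    obtain ⟨q1, q2⟩ := hquad (ζ - s y)
    rw [abs_of_neg n1] at m1
    rw [abs_of_neg n2] at m2
    have h3 : l1 * ⟪ζ - s y, e1⟫ ^ 2 ≤ -m * ⟪ζ - s y, e1⟫ ^ 2 :=
      mul_le_mul_of_nonneg_right (by linarith) q1
    have h4 : l2 * ⟪ζ - s y, e2⟫ ^ 2 ≤ -m * ⟪ζ - s y, e2⟫ ^ 2 :=
      mul_le_mul_of_nonneg_right (by linarith) q2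
    have h5 : θ * ‖ζ - s y‖ ^ 2 ≤ m / 8 * ‖ζ - s y‖ ^ 2 :=
      mul_le_mul_of_nonneg_right hθ8 (sq_nonneg _)
    have h6 : 0 ≤ m * ‖ζ - s y‖ ^ 2 := by positivity
    nlinarith
  · -- tmin
    intro ht y hy ζ hζ
    obtain ⟨n1, n2⟩ := ht2 ht
    have h1 := (abs_le.1 (CTYP_height E hr hθ0.le hL hy hζ)).1
    have h2 := E.normSq (ζ - s y)
    obtain ⟨q1, q2⟩ := hquad (ζ - s y)
    rw [abs_of_pos n1] at m1
    rw [abs_of_pos n2] at m2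
    have h3 : m * ⟪ζ - s y, e1⟫ ^ 2 ≤ l1 * ⟪ζ - s y, e1⟫ ^ 2 :=
      mul_le_mul_of_nonneg_right m1 q1
    have h4 : m * ⟪ζ - s y, e2⟫ ^ 2 ≤ l2 * ⟪ζ - s y, e2⟫ ^ 2 :=
      mul_le_mul_of_nonneg_right m2 q2
    have h5 : θ * ‖ζ - s y‖ ^ 2 ≤ m / 8 * ‖ζ - s y‖ ^ 2 :=
      mul_le_mul_of_nonneg_right hθ8 (sq_nonneg _)
    have h6 : 0 ≤ m * ‖ζ - s y‖ ^ 2 := by positivity
    nlinarith
  · -- asc
    intro ht y hy τ hτ
    obtain ⟨n1, n2⟩ := ht1 ht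
    have h1 := (abs_le.1 (CTYP_height E hr hθ0.le hL hy (hmid e1 E.n1 y hy τ hτ))).1
    have hsub : s y + τ • e1 - s y = τ • e1 := by simp
    have i1 : ⟪τ • e1, e1⟫ = τ := by
      rw [inner_smul_left, real_inner_self_eq_norm_sq, E.n1]; simp
    have i2 : ⟪τ • e1, e2⟫ = 0 := by
      rw [inner_smul_left, E.orth]; simp
    have i3 : ‖τ • e1‖ ^ 2 = τ ^ 2 := by
      rw [norm_smul, E.n1, mul_one, Real.norm_eq_abs, sq_abs]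
    rw [hsub, i1, i2, i3] at h1
    rw [abs_of_pos n1] at m1
    have h3 : m * τ ^ 2 ≤ l1 * τ ^ 2 := mul_le_mul_of_nonneg_right m1 (sq_nonneg _)
    have h5 : θ * τ ^ 2 ≤ m / 8 * τ ^ 2 := mul_le_mul_of_nonneg_right hθ8 (sq_nonneg _)
    have h6 : 0 ≤ m * τ ^ 2 := by positivity
    nlinarith
  · -- desc
    intro ht y hy τ hτ
    obtain ⟨n1, n2⟩ := ht1 ht
    have h1 := (abs_le.1 (CTYP_height E hr hθ0.le hL hy (hmid e2 E.n2 y hy τ hτ))).2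
    have hsub : s y + τ • e2 - s y = τ • e2 := by simp
    have i1 : ⟪τ • e2, e2⟫ = τ := by
      rw [inner_smul_left, real_inner_self_eq_norm_sq, E.n2]; simp
    have i2 : ⟪τ • e2, e1⟫ = 0 := by
      rw [inner_smul_left, real_inner_comm, E.orth]; simp
    have i3 : ‖τ • e2‖ ^ 2 = τ ^ 2 := by
      rw [norm_smul, E.n2, mul_one, Real.norm_eq_abs, sq_abs]
    rw [hsub, i1, i2, i3] at h1
    rw [abs_of_neg n2] at m2
    have h3 : l2 * τ ^ 2 ≤ -m * τ ^ 2 := mul_le_mul_of_nonneg_right (by linarith) (sq_nonneg _)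
    have h5 : θ * τ ^ 2 ≤ m / 8 * τ ^ 2 := mul_le_mul_of_nonneg_right hθ8 (sq_nonneg _)
    have h6 : 0 ≤ m * τ ^ 2 := by positivity
    nlinarith
  · -- cone_up
    intro ht y hy ζ hζ hlt
    obtain ⟨n1, n2⟩ := ht1 ht
    rw [abs_of_pos n1] at m1 M1
    rw [abs_of_neg n2] at m2 M2
    have h1 := CTYP_height E hr hθ0.le hL hy hζ
    have h2 := CTYP_inner_close E hr hL hy hζ
    obtain ⟨k1, k2⟩ := CTYP_cone (E.normSq _) hm m1 m2 M1 hLdef hθdef h1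
      (sub_pos.2 hlt) h2
    refine ⟨k1, k2.trans ?_⟩
    apply mul_le_mul_of_nonneg_right _ (abs_nonneg _)
    linarith
  · -- cone_down
    intro ht y hy ζ hζ hlt
    obtain ⟨n1, n2⟩ := ht1 ht
    rw [abs_of_pos n1] at m1 M1
    rw [abs_of_neg n2] at m2 M2
    have h1 := CTYP_height E hr hθ0.le hL hy hζ
    have h2 := CTYP_inner_close E.swap hr hL hy hζ
    have h1' : |(⟪M.fi i (s y), y⟫ - ⟪M.fi i ζ, y⟫) -
        (-l2 * ⟪ζ - s y, e2⟫ ^ 2 + -l1 * ⟪ζ - s y, e1⟫ ^ 2) / 2| ≤ θ * ‖ζ - s y‖ ^ 2 := by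
      rw [← abs_neg]
      convert h1 using 2
      ring
    have h2' : |(-⟪M.Phi i ζ y, e2⟫) - -l2 * ⟪ζ - s y, e2⟫| ≤ θ * ‖ζ - s y‖ := by
      rw [← abs_neg]
      convert h2 using 2
      ring
    have hn : ‖ζ - s y‖ ^ 2 = ⟪ζ - s y, e2⟫ ^ 2 + ⟪ζ - s y, e1⟫ ^ 2 := by
      rw [E.normSq]; ring
    obtain ⟨k1, k2⟩ := CTYP_cone hn hm m2 (by linarith) M2 hLdef hθdef h1'
      (sub_pos.2 hlt) h2'
    refine ⟨by linarith, k2.trans ?_⟩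
    apply mul_le_mul_of_nonneg_right _ (abs_nonneg _)
    linarith

variable (M)

theorem crit_type (i : M.ι) (z₀ : E2) (y₀ : E3) (hy : ⟪M.c i, y₀⟫ ≠ 0) (hd : M.hdet i z₀ ≠ 0) :
    ∃ (θ lam Lam : ℝ) (typ : Fin 3) (p q : E2), 0 < θ ∧ 0 < lam ∧ 0 < Lam ∧ ‖p‖ = 1 ∧ ‖q‖ = 1 ∧
      ∀ (r1 ρ : ℝ) (s : E3 → E2), 0 < r1 → 0 < ρ → LocCrit0 M i z₀ y₀ θ r1 ρ s →
        LocCrit M i z₀ y₀ typ p q lam Lam r1 ρ s := by
  set T : E2 →ₗ[ℝ] E2 := ⟪M.c i, y₀⟫ • (M.hess i z₀ : E2 →ₗ[ℝ] E2) with hT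
  have hTa : ∀ v, T v = ⟪M.c i, y₀⟫ • M.hess i z₀ v := fun v => rfl
  have hsym : T.IsSymmetric := by
    intro v w
    rw [hTa, hTa, inner_smul_left, inner_smul_right, hess_symm]
    rfl
  have hn : Module.finrank ℝ E2 = 2 := by simp
  set b := hsym.eigenvectorBasis hn with hb
  have hTb : ∀ k, T (b k) = hsym.eigenvalues hn k • b k := fun k =>
    hsym.apply_eigenvectorBasis hn k
  have hinj : ∀ v, T v = 0 → v = 0 := by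
    intro v hv
    rw [hTa, smul_eq_zero] at hv
    rcases hv with h | h
    · exact (hy h).elim
    · by_contra hv0
      apply hd
      unfold MongeSurf.hdet
      rw [LinearMap.det_eq_zero_iff_ker_ne_bot]
      intro hk
      have : v ∈ LinearMap.ker (M.hess i z₀ : E2 →ₗ[ℝ] E2) := by
        rw [LinearMap.mem_ker]; exact h
      rw [hk, Submodule.mem_bot] at this
      exact hv0 this
  have hne : ∀ k, hsym.eigenvalues hn k ≠ 0 := by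
    intro k hk
    have h1 := hTb k
    rw [hk, zero_smul] at h1
    have h2 := hinj _ h1
    have h3 := b.orthonormal.1 k
    rw [h2, norm_zero] at h3
    exact zero_ne_one h3
  have E : CTYP_Eig M i z₀ y₀ (b 0) (b 1) (hsym.eigenvalues hn 0) (hsym.eigenvalues hn 1) := by
    refine ⟨b.orthonormal.1 0, b.orthonormal.1 1, b.orthonormal.2 (by decide), ?_, hTb 0, hTb 1,
      hne 0, hne 1⟩
    intro v
    have h1 := b.sum_repr' v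
    rw [Fin.sum_univ_two] at h1
    rw [real_inner_comm (b 0) v, real_inner_comm (b 1) v]
    exact h1.symm
  by_cases hs : hsym.eigenvalues hn 0 < 0 ∧ 0 < hsym.eigenvalues hn 1
  · exact CTYP_core E.swap fun h => absurd (h.1.trans hs.2) (lt_irrefl _)
  · exact CTYP_core E hs

end Ctyp

end Topping
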