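import Mathlib
import Pool.Agent.Lib.MP_bea121_gt.TC.Defs4
import Pool.Agent.Lib.MP_bea121_gt.TC.Basic

/-!
# Criticality does not depend on the patch; the surface is locally connected (MP_bea121_gt)
-/

open MeasureTheory Set Metric Topology Filter
open scoped RealInnerProductSpace Gradient ContDiff Manifold

noncomputable section

namespace Topping

section Inv
variable {S : Type} [TopologicalSpace S] (M : MongeSurf S)

theorem INV_pr_fi (i : M.ι) (z : E2) : M.pr i (M.fi i z - M.o i) = z := by
  have h : M.fi i z - M.o i = M.L i z + M.g i z • M.c i := by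
    unfold MongeSurf.fi
    abel
  rw [h]
  exact (pr_L M i z (M.g i z)).1

theorem crit_inv (i j : M.ι) (x : S) (hi : x ∈ M.P i (5 * M.R i)) (hj : x ∈ M.P j (5 * M.R j)) (y : E3)
    (h : M.Phi i (M.e i x) y = 0) : M.Phi j (M.e j x) y = 0 := by
  -- the transition map
  have hσ : DifferentiableAt ℝ (fun w => M.pr i (M.fi j w - M.o i)) (M.e j x) := by
    have h1 : DifferentiableAt ℝ (M.fi j) (M.e j x) :=
      (fi_deriv M j (M.e j x)).differentiableAt
    have h2 : DifferentiableAt ℝ (fun w => M.fi j w - M.o i) (M.e j x) := h1.sub_const _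
    unfold MongeSurf.pr
    exact ((ContinuousLinearMap.adjoint (M.L i).toContinuousLinearMap).differentiableAt).comp
      (M.e j x) h2
  have hσx : M.pr i (M.fi j (M.e j x) - M.o i) = M.e i x := by
    rw [← f_e M j hj, f_e M i hi, INV_pr_fi]
  -- near `e j x`, the two height functions agree
  have hev : (fun w => ⟪M.fi j w, y⟫) =ᶠ[𝓝 (M.e j x)]
      (fun z => ⟪M.fi i z, y⟫) ∘ (fun w => M.pr i (M.fi j w - M.o i)) := by
    have hxs := symm_e M j hj
    have hcont : ContinuousAt (M.e j).symm (M.e j x) :=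
      (M.e j).continuousAt_symm ((M.e j).map_source hj.1)
    have hPi : ∀ᶠ w in 𝓝 (M.e j x), (M.e j).symm w ∈ M.P i (5 * M.R i) := by
      apply hcont
      rw [hxs.1]
      exact (P_open M i _).mem_nhds hi
    have hball : ∀ᶠ w in 𝓝 (M.e j x), w ∈ ball (0 : E2) (5 * M.R j) :=
      isOpen_ball.mem_nhds hxs.2
    filter_upwards [hPi, hball] with w hw hwb
    have e1 : M.fi j w = M.fi i (M.e i ((M.e j).symm w)) := by
      rw [← f_symm M j hwb, f_e M i hw]
    change ⟪M.fi j w, y⟫ = ⟪M.fi i (M.pr i (M.fi j w - M.o i)), y⟫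
    rw [e1, INV_pr_fi]
  have hgi : HasFDerivAt (fun z => ⟪M.fi i z, y⟫) (0 : E2 →L[ℝ] ℝ)
      (M.pr i (M.fi j (M.e j x) - M.o i)) := by
    rw [hσx]
    have h0 := (hasGrad M i (M.e i x) y).hasFDerivAt
    rw [h, map_zero] at h0
    exact h0
  have hcomp := hgi.comp (M.e j x) hσ.hasFDerivAt
  rw [ContinuousLinearMap.zero_comp] at hcomp
  have hj0 : HasFDerivAt (fun w => ⟪M.fi j w, y⟫) (0 : E2 →L[ℝ] ℝ) (M.e j x) :=
    hcomp.congr_of_eventuallyEq hev
  have hj1 := (hasGrad M j (M.e j x) y).hasFDerivAt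
  have hu := hj1.unique hj0
  have hinj : (InnerProductSpace.toDual ℝ E2) (M.Phi j (M.e j x) y) =
      (InnerProductSpace.toDual ℝ E2) 0 := by
    rw [map_zero]
    exact hu
  exact (InnerProductSpace.toDual ℝ E2).injective hinj

include M in
theorem locConn : LocallyConnectedSpace S := by
  classical
  choose k hk using M.cover
  let _ : ChartedSpace E2 S :=
    { atlas := Set.range M.e
      chartAt := fun x => M.e (k x)
      mem_chart_source := fun x => (hk x).1
      chart_mem_atlas := fun x => ⟨k x, rfl⟩ }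
  exact ChartedSpace.locallyConnectedSpace E2 S

end Inv

end Topping
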