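import Mathlib
import Pool.Agent.Lib.MP_bea121_gt.TC.Defs4
import Pool.Agent.Lib.MP_bea121_gt.TC.Basic
import Pool.Agent.Lib.MP_bea121_gt.TC.Inv
import Pool.Agent.Lib.MP_bea121_gt.TC.Cift
import Pool.Agent.Lib.MP_bea121_gt.TC.Ctyp

/-!
# Critical data near a good direction (MP_bea121_gt, module CDATA)
-/

open MeasureTheory Set Metric Topology Filter
open scoped RealInnerProductSpace Gradient ContDiff Manifold

noncomputable section

namespace Topping

section Cdata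

theorem CDATA_exists_pos {N : Type} [Finite N] (f : N → ℝ) (hf : ∀ k, 0 < f k) :
    ∃ r > 0, ∀ k, r ≤ f k := by
  rcases isEmpty_or_nonempty N with h | h
  · exact ⟨1, one_pos, fun k => (h.false k).elim⟩
  · obtain ⟨k, hk⟩ := Finite.exists_min f
    exact ⟨f k, hf k, hk⟩

theorem CDATA_exists_upper {N : Type} [Finite N] (f : N → ℝ) :
    ∃ r > 0, ∀ k, f k ≤ r := by
  rcases isEmpty_or_nonempty N with h | h
  · exact ⟨1, one_pos, fun k => (h.false k).elim⟩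
  · obtain ⟨k, hk⟩ := Finite.exists_max f
    exact ⟨max 1 (f k), by positivity, fun j => (hk j).trans (le_max_right _ _)⟩

variable {S : Type} [TopologicalSpace S] (M : MongeSurf S)

theorem CDATA_locCrit_mono {i : M.ι} {z₀ : E2} {y₀ : E3} {typ : Fin 3} {p q : E2}
    {lam Lam lam' Lam' r1 ρ ρ' : ℝ} {s : E3 → E2} (hρ : ρ' ≤ ρ) (hl : lam' ≤ lam)
    (hL : Lam ≤ Lam')
    (H : LocCrit M i z₀ y₀ typ p q lam Lam r1 ρ s) :
    LocCrit M i z₀ y₀ typ p q lam' Lam' r1 ρ' s := by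
  have hb : ∀ y ∈ ball y₀ ρ', y ∈ ball y₀ ρ := fun y hy => ball_subset_ball hρ hy
  refine ⟨H.ball_sub, H.s_center, fun y hy => H.s_mem y (hb y hy), fun y hy => H.s_zero y (hb y hy),
    H.s_c1.mono (ball_subset_ball hρ), ?_, ?_, ?_, ?_, ?_, ?_, ?_, ?_⟩
  · intro y hy ζ hζ
    exact le_trans (mul_le_mul_of_nonneg_right hl (norm_nonneg _)) (H.phi_lower y (hb y hy) ζ hζ)
  · intro y hy ζ hζ
    exact le_trans (H.phi_upper y (hb y hy) ζ hζ) (mul_le_mul_of_nonneg_right hL (norm_nonneg _))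
  · intro ht y hy ζ hζ
    have h1 := H.tmax ht y (hb y hy) ζ hζ
    have h2 := mul_le_mul_of_nonneg_right hl (sq_nonneg ‖ζ - s y‖)
    linarith
  · intro ht y hy ζ hζ
    have h1 := H.tmin ht y (hb y hy) ζ hζ
    have h2 := mul_le_mul_of_nonneg_right hl (sq_nonneg ‖ζ - s y‖)
    linarith
  · intro ht y hy τ hτ
    have h1 := H.asc ht y (hb y hy) τ hτ
    have h2 := mul_le_mul_of_nonneg_right hl (sq_nonneg τ)
    linarith
  · intro ht y hy τ hτ
    have h1 := H.desc ht y (hb y hy) τ hτ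
    have h2 := mul_le_mul_of_nonneg_right hl (sq_nonneg τ)
    linarith
  · intro ht y hy ζ hζ h
    obtain ⟨h1, h2⟩ := H.cone_up ht y (hb y hy) ζ hζ h
    exact ⟨h1, h2.trans (mul_le_mul_of_nonneg_right hL (abs_nonneg _))⟩
  · intro ht y hy ζ hζ h
    obtain ⟨h1, h2⟩ := H.cone_down ht y (hb y hy) ζ hζ h
    exact ⟨h1, h2.trans (mul_le_mul_of_nonneg_right hL (abs_nonneg _))⟩

/-- the critical set -/
def CDATA_Z (y₀ : E3) : Set S :=
  {x | ∀ i, x ∈ M.P i (5 * M.R i) → M.Phi i (M.e i x) y₀ = 0}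

theorem CDATA_mem (y₀ : E3) (i : M.ι) (x : S) (hx : x ∈ M.P i (5 * M.R i))
    (h : M.Phi i (M.e i x) y₀ = 0) : x ∈ CDATA_Z M y₀ := by
  intro j hj
  exact crit_inv M i j x hx hj y₀ h

theorem CDATA_Phi_cont (i : M.ι) (y : E3) : Continuous (fun z => M.Phi i z y) := by
  unfold MongeSurf.Phi
  have h := (hess_cont M i).2.2.2.2
  have h2 : Continuous (fun z => ⟪M.c i, y⟫ • ∇ (M.g i) z) := by fun_prop
  exact continuous_const.add h2

theorem CDATA_Z_closed (y₀ : E3) : IsClosed (CDATA_Z M y₀) := by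
  refine isClosed_of_closure_subset ?_
  intro x hx i hi
  have ho : IsOpen (M.P i (5 * M.R i)) := P_open M i _
  have hx2 : x ∈ closure (M.P i (5 * M.R i) ∩ CDATA_Z M y₀) := by
    exact ho.inter_closure ⟨hi, hx⟩
  have hc : ContinuousAt (fun x' => M.Phi i (M.e i x') y₀) x := by
    refine ContinuousAt.comp (g := fun z => M.Phi i z y₀) (CDATA_Phi_cont M i y₀).continuousAt ?_
    exact (M.e i).continuousAt hi.1
  rw [mem_closure_iff_frequently] at hx2
  by_contra hne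
  have h1 : ∀ᶠ x' in 𝓝 x, M.Phi i (M.e i x') y₀ ≠ 0 := hc.eventually_ne hne
  obtain ⟨x', hx', h2⟩ := (hx2.and_eventually h1).exists
  exact h2 (hx'.2 i hx'.1)

theorem CDATA_local (y₀ : E3) (h : y₀ ∈ Sh) (hg : y₀ ∉ M.degen) (x : S) (hx : x ∈ CDATA_Z M y₀) :
    ∃ (i : M.ι) (typ : Fin 3) (p q : E2) (lam Lam r' : ℝ), x ∈ M.P i (M.R i) ∧ 0 < lam ∧ 0 < Lam ∧
      0 < r' ∧ ‖p‖ = 1 ∧ ‖q‖ = 1 ∧ ∀ r1, 0 < r1 → r1 ≤ r' → ∃ ρ > 0, ∃ s : E3 → E2,
        LocCrit M i (M.e i x) y₀ typ p q lam Lam r1 ρ s := by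
  obtain ⟨i, hi⟩ := P_cover M x
  have hR := M.R_pos i
  have h5 : x ∈ M.P i (5 * M.R i) := P_mono M i (by linarith) hi
  have h0 : M.Phi i (M.e i x) y₀ = 0 := hx i h5
  have hz : M.e i x ∈ closedBall (0 : E2) (2 * M.R i) := by
    have := hi.2
    rw [mem_preimage, mem_ball] at this
    rw [mem_closedBall]; linarith
  have hd : M.hdet i (M.e i x) ≠ 0 := fun h1 => hg ⟨i, _, hz, h0, h1⟩
  have hy0 : y₀ ≠ 0 := by
    rintro rfl
    have := h.1
    simp at this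
    linarith
  have hc : ⟪M.c i, y₀⟫ ≠ 0 := by
    intro hc
    have := (y_norm_le M i _ y₀ h0).2
    rw [hc] at this
    simp at this
    exact hy0 this
  obtain ⟨θ, lam, Lam, typ, p, q, hθ, hl, hL, hp, hq, H⟩ := crit_type M i (M.e i x) y₀ hc hd
  obtain ⟨r', hr', H2⟩ := crit_ift M i (M.e i x) hz y₀ hy0 h0 hd θ hθ
  refine ⟨i, typ, p, q, lam, Lam, r', hi, hl, hL, hr', hp, hq, fun r1 h1 h2 => ?_⟩
  obtain ⟨ρ, hρ, s, hs⟩ := H2 r1 h1 h2
  exact ⟨ρ, hρ, s, H r1 ρ s h1 hρ hs⟩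

theorem CDATA_isolated (y₀ : E3) (h : y₀ ∈ Sh) (hg : y₀ ∉ M.degen) (x : S) (hx : x ∈ CDATA_Z M y₀) :
    ∃ U : Set S, IsOpen U ∧ x ∈ U ∧ ∀ x' ∈ U, x' ∈ CDATA_Z M y₀ → x' = x := by
  obtain ⟨i, typ, p, q, lam, Lam, r', hi, hl, hL, hr', hp, hq, H⟩ := CDATA_local M y₀ h hg x hx
  obtain ⟨ρ, hρ, s, hs⟩ := H r' hr' le_rfl
  have hR := M.R_pos i
  have hsub : ball (M.e i x) r' ⊆ (M.e i).target := by
    refine hs.ball_sub.trans (Subset.trans (ball_subset_ball (by linarith)) (M.target i))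
  refine ⟨(M.e i).symm '' ball (M.e i x) r', (M.e i).isOpen_image_symm_of_subset_target isOpen_ball hsub,
    ⟨M.e i x, mem_ball_self hr', (M.e i).left_inv hi.1⟩, ?_⟩
  rintro x' ⟨ζ, hζ, rfl⟩ hx'
  have h3 := P_symm M i (by linarith : 3 * M.R i ≤ 5 * M.R i) (hs.ball_sub hζ)
  have h5 : (M.e i).symm ζ ∈ M.P i (5 * M.R i) := P_mono M i (by linarith) h3.1
  have h0 := hx' i h5
  rw [h3.2] at h0
  have h6 := hs.phi_lower y₀ (mem_ball_self hρ) ζ hζ
  rw [h0, norm_zero, hs.s_center] at h6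
  have h7 : ‖ζ - M.e i x‖ ≤ 0 := by
    by_contra h8
    push Not at h8
    have := mul_pos hl h8
    linarith
  have h8 : ζ = M.e i x := by
    rw [norm_le_zero_iff, sub_eq_zero] at h7
    exact h7
  rw [h8, (M.e i).left_inv hi.1]

theorem CDATA_finite [CompactSpace S] (y₀ : E3) (h : y₀ ∈ Sh) (hg : y₀ ∉ M.degen) :
    (CDATA_Z M y₀).Finite := by
  have hK : IsCompact (CDATA_Z M y₀) := (CDATA_Z_closed M y₀).isCompact
  choose! U hUo hUx hU using CDATA_isolated M y₀ h hg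
  obtain ⟨t, ht1, ht2⟩ := hK.elim_nhds_subcover U (fun x hx => (hUo x hx).mem_nhds (hUx x hx))
  refine (t.finite_toSet).subset ?_
  intro x hx
  have := ht2 hx
  rw [mem_iUnion₂] at this
  obtain ⟨x1, hx1, hx2⟩ := this
  rw [hU x1 (ht1 x1 hx1) x hx2 hx]
  exact hx1

theorem CDATA_away (y₀ : E3) (W : Set S) (hW : IsOpen W)
    (hZ : CDATA_Z M y₀ ⊆ W) : ∃ m > 0, ∀ i', ∀ ζ ∈ closedBall (0 : E2) (2 * M.R i'),
      (M.e i').symm ζ ∉ W → m ≤ ‖M.Phi i' ζ y₀‖ := by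
  have key : ∀ i', ∃ m > 0, ∀ ζ ∈ closedBall (0 : E2) (2 * M.R i'),
      (M.e i').symm ζ ∉ W → m ≤ ‖M.Phi i' ζ y₀‖ := by
    intro i'
    have hR := M.R_pos i'
    have hsub : closedBall (0 : E2) (2 * M.R i') ⊆ ball (0 : E2) (5 * M.R i') :=
      closedBall_subset_ball (by linarith)
    have hco : ContinuousOn (M.e i').symm (closedBall (0 : E2) (2 * M.R i')) :=
      (M.e i').continuousOn_symm.mono (hsub.trans (M.target i'))
    have hcl : IsClosed (closedBall (0 : E2) (2 * M.R i') ∩ (M.e i').symm ⁻¹' Wᶜ) :=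
      hco.preimage_isClosed_of_isClosed isClosed_closedBall hW.isClosed_compl
    have hcp : IsCompact (closedBall (0 : E2) (2 * M.R i') ∩ (M.e i').symm ⁻¹' Wᶜ) :=
      (isCompact_closedBall _ _).of_isClosed_subset hcl inter_subset_left
    obtain ⟨m, hm, hm2⟩ := hcp.exists_forall_le' (f := fun ζ => ‖M.Phi i' ζ y₀‖) (a := 0)
      ((CDATA_Phi_cont M i' y₀).norm.continuousOn) (by
        rintro ζ ⟨hζ1, hζ2⟩
        rw [norm_pos_iff]
        intro h0
        have h3 := P_symm M i' (le_refl (5 * M.R i')) (hsub hζ1)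
        apply hζ2
        refine hZ (CDATA_mem M y₀ i' _ h3.1 ?_)
        rw [h3.2]; exact h0)
    exact ⟨m, hm, fun ζ hζ1 hζ2 => hm2 ζ ⟨hζ1, hζ2⟩⟩
  choose m hm hm2 using key
  obtain ⟨r, hr, hr2⟩ := CDATA_exists_pos m hm
  exact ⟨r, hr, fun i' ζ hζ hζ2 => (hr2 i').trans (hm2 i' ζ hζ hζ2)⟩

end Cdata

section Cdata
variable {S : Type} [TopologicalSpace S] [CompactSpace S] [T2Space S] (M : MongeSurf S)

theorem exists_critData (y₀ : E3) (h : y₀ ∈ Sh) (hg : y₀ ∉ M.degen) : Nonempty (CritData M y₀) := by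
  classical
  have hfin := CDATA_finite M y₀ h hg
  let N := {x : S // x ∈ CDATA_Z M y₀}
  have : Finite N := hfin
  have hloc : ∀ k : N, _ := fun k => CDATA_local M y₀ h hg k.1 k.2
  choose i typ p q lam Lam r' hi hl hL hr' hp hq H using hloc
  obtain ⟨U, hU1, hU2⟩ := hfin.t2_separation
  -- radii for disjointness
  have hrad : ∀ k : N, ∃ r > 0, ∀ ζ ∈ ball (M.e (i k) k.1) r, (M.e (i k)).symm ζ ∈ U k.1 := by
    intro k
    have hc : ContinuousAt (M.e (i k)).symm (M.e (i k) k.1) :=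
      (M.e (i k)).symm.continuousAt ((M.e (i k)).map_source (hi k).1)
    have hn : U k.1 ∈ 𝓝 ((M.e (i k)).symm (M.e (i k) k.1)) := by
      rw [(M.e (i k)).left_inv (hi k).1]
      exact (hU1 k.1).2.mem_nhds (hU1 k.1).1
    obtain ⟨r, hr, hr2⟩ := Metric.mem_nhds_iff.1 (hc.preimage_mem_nhds hn)
    exact ⟨r, hr, fun ζ hζ => hr2 hζ⟩
  choose r'' hr'' hrU using hrad
  obtain ⟨r1, hr1, hr1le⟩ := CDATA_exists_pos (fun k : N => min (r' k) (r'' k))
    (fun k => lt_min (hr' k) (hr'' k))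
  have H1 : ∀ k : N, _ := fun k => H k r1 hr1 ((hr1le k).trans (min_le_left _ _))
  choose ρk hρk s Hs using H1
  -- the open set
  have hopen : IsOpen (⋃ k : N, (M.e (i k)).symm '' ball (M.e (i k) k.1) (r1 / 2)) := by
    refine isOpen_iUnion fun k => ?_
    refine (M.e (i k)).isOpen_image_symm_of_subset_target isOpen_ball ?_
    refine Subset.trans (ball_subset_ball (by linarith)) (Subset.trans (Hs k).ball_sub ?_)
    have hR := M.R_pos (i k)
    exact Subset.trans (ball_subset_ball (by linarith)) (M.target (i k))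
  have hZW : CDATA_Z M y₀ ⊆ ⋃ k : N, (M.e (i k)).symm '' ball (M.e (i k) k.1) (r1 / 2) := by
    intro x hx
    rw [mem_iUnion]
    exact ⟨⟨x, hx⟩, _, mem_ball_self (by linarith), (M.e _).left_inv (hi ⟨x, hx⟩).1⟩
  obtain ⟨m, hm, hm2⟩ := CDATA_away M y₀ _ hopen hZW
  obtain ⟨l0, hl0, hl0le⟩ := CDATA_exists_pos lam hl
  obtain ⟨L0, hL0, hL0le⟩ := CDATA_exists_upper Lam
  obtain ⟨ρ0, hρ0, hρ0le⟩ := CDATA_exists_pos ρk hρk
  set lm := min l0 (m / 2) with hlm
  set ρ := min ρ0 (min (m / 4) (1 / 2)) with hρdef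
  have hlmpos : 0 < lm := lt_min hl0 (by linarith)
  have hρpos : 0 < ρ := lt_min hρ0 (lt_min (by linarith) (by norm_num))
  have hρ1 : ρ ≤ ρ0 := min_le_left _ _
  have hρ2 : ρ ≤ m / 4 := (min_le_right _ _).trans (min_le_left _ _)
  have hρ3 : ρ ≤ 1 / 2 := (min_le_right _ _).trans (min_le_right _ _)
  have hlm1 : lm ≤ l0 := min_le_left _ _
  have hlm2 : lm ≤ m / 2 := min_le_right _ _
  have HF : ∀ k : N, LocCrit M (i k) (M.e (i k) k.1) y₀ (typ k) (p k) (q k) lm L0 r1 ρ (s k) :=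
    fun k => CDATA_locCrit_mono M (hρ1.trans (hρ0le k)) (hlm1.trans (hl0le k)) (hL0le k) (Hs k)
  refine ⟨{
    N := N
    fN := Fintype.ofFinite N
    typ := typ
    i := i
    z := fun k => M.e (i k) k.1
    s := s
    p := p
    q := q
    ρ := ρ
    r1 := r1
    lam := lm
    Lam := L0
    ρ_pos := hρpos
    r1_pos := hr1
    lam_pos := hlmpos
    Lam_pos := hL0
    y_norm := ?_
    ball_sub := fun k => (HF k).ball_sub
    s_center := fun k => (HF k).s_center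
    s_mem := fun k => (HF k).s_mem
    s_zero := fun k => (HF k).s_zero
    s_c1 := fun k => (HF k).s_c1
    phi_lower := fun k => (HF k).phi_lower
    phi_upper := fun k => (HF k).phi_upper
    away := ?_
    disj := ?_
    tmax := fun k => (HF k).tmax
    tmin := fun k => (HF k).tmin
    norm_p := hp
    norm_q := hq
    asc := fun k => (HF k).asc
    desc := fun k => (HF k).desc
    cone_up := fun k => (HF k).cone_up
    cone_down := fun k => (HF k).cone_down }⟩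
  · intro y hy
    rw [mem_ball, dist_eq_norm] at hy
    have h1 := h.1
    have h2 := h.2
    have h3 : ‖y₀‖ ≤ ‖y‖ + ‖y - y₀‖ := by
      have := norm_sub_le y (y - y₀)
      simpa using this
    have h4 : ‖y‖ ≤ ‖y₀‖ + ‖y - y₀‖ := by
      have := norm_add_le y₀ (y - y₀)
      simpa using this
    refine ⟨?_, by linarith⟩
    rintro rfl
    rw [norm_zero] at h3
    linarith
  · intro y hy i' ζ hζ hk
    have hnot : (M.e i').symm ζ ∉ ⋃ k : N, (M.e (i k)).symm '' ball (M.e (i k) k.1) (r1 / 2) := by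
      rw [mem_iUnion]
      rintro ⟨k, hk2⟩
      exact hk k hk2
    have h1 := hm2 i' ζ hζ hnot
    have h2 : M.Phi i' ζ y₀ = M.Phi i' ζ y - M.Phi i' ζ (y - y₀) := by
      have := Phi_add M i' ζ y₀ (y - y₀)
      rw [add_sub_cancel] at this
      rw [this]; abel
    have h3 := norm_sub_le (M.Phi i' ζ y) (M.Phi i' ζ (y - y₀))
    rw [← h2] at h3
    have h4 := Phi_norm M i' ζ (y - y₀)
    rw [mem_ball, dist_eq_norm] at hy
    linarith
  · intro k k' hkk
    have hd := hU2 k.2 k'.2 (fun h => hkk (Subtype.ext h))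
    refine hd.mono ?_ ?_
    · rintro _ ⟨ζ, hζ, rfl⟩
      exact hrU k ζ (ball_subset_ball ((hr1le k).trans (min_le_right _ _)) hζ)
    · rintro _ ⟨ζ, hζ, rfl⟩
      exact hrU k' ζ (ball_subset_ball ((hr1le k').trans (min_le_right _ _)) hζ)

end Cdata

end Topping
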