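import Mathlib
import Pool.Agent.Lib.MP_bea121_gt.TC.Defs4

/-!
One variable: local upper supports with finitely many kinks bound the second difference.
-/

open MeasureTheory Set Metric Topology Filter
open scoped RealInnerProductSpace Gradient ContDiff Manifold
noncomputable section
namespace Topping

/-- Local affine upper supports at every interior point imply the midpoint inequality. -/
theorem CONC_mid (G : ℝ → ℝ) (hG : ContinuousOn G (Icc (-1) 1))
    (hloc : ∀ t ∈ Ioo (-1 : ℝ) 1, ∃ l : ℝ, ∀ᶠ t' in 𝓝 t, G t' ≤ G t + l * (t' - t)) :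
    G 1 + G (-1) ≤ 2 * G 0 := by
  by_contra hcon
  push Not at hcon
  set F : ℝ → ℝ := fun t => G t - ((G 1 + G (-1)) / 2 + t * ((G 1 - G (-1)) / 2)) with hF
  have hFc : ContinuousOn F (Icc (-1) 1) := by
    refine hG.sub ?_
    exact (continuous_const.add (continuous_id.mul continuous_const)).continuousOn
  have hF1 : F 1 = 0 := by simp only [hF]; ring
  have hFm1 : F (-1) = 0 := by simp only [hF]; ring
  have hF0 : F 0 < 0 := by simp only [hF]; linarith
  have hFloc : ∀ t ∈ Ioo (-1 : ℝ) 1, ∃ l : ℝ, ∀ᶠ t' in 𝓝 t, F t' ≤ F t + l * (t' - t) := by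
    intro t ht
    obtain ⟨l, hl⟩ := hloc t ht
    refine ⟨l - (G 1 - G (-1)) / 2, hl.mono fun t' h => ?_⟩
    simp only [hF]
    nlinarith
  obtain ⟨t1, ht1, hmin⟩ := isCompact_Icc.exists_isMinOn (nonempty_Icc.mpr (by norm_num)) hFc
  have hm : F t1 < 0 := lt_of_le_of_lt (hmin ⟨by norm_num, by norm_num⟩) hF0
  -- leftmost point of the minimum set
  have hZc : IsCompact ({t | F t = F t1} ∩ Icc (-1) 1) := by
    have h1 : IsClosed (Icc (-1 : ℝ) 1 ∩ F ⁻¹' {F t1}) :=
      hFc.preimage_isClosed_of_isClosed isClosed_Icc isClosed_singleton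
    have h2 : {t | F t = F t1} ∩ Icc (-1) 1 = Icc (-1 : ℝ) 1 ∩ F ⁻¹' {F t1} := by
      ext x; constructor
      · rintro ⟨h, h'⟩; exact ⟨h', h⟩
      · rintro ⟨h, h'⟩; exact ⟨h', h⟩
    rw [h2]
    exact isCompact_Icc.of_isClosed_subset h1 inter_subset_left
  obtain ⟨t0, ⟨ht0F, ht0⟩, hleast⟩ := hZc.exists_isLeast ⟨t1, rfl, ht1⟩
  have ht0F : F t0 = F t1 := ht0F
  have ht0' : t0 ∈ Ioo (-1 : ℝ) 1 := by
    refine ⟨lt_of_le_of_ne ht0.1 ?_, lt_of_le_of_ne ht0.2 ?_⟩
    · rintro rfl
      rw [hFm1] at ht0F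
      linarith
    · rintro rfl
      rw [hF1] at ht0F
      linarith
  obtain ⟨l, hl⟩ := hFloc t0 ht0'
  have hnear : ∀ᶠ t' in 𝓝 t0, t' ∈ Ioo (-1 : ℝ) 1 := Ioo_mem_nhds ht0'.1 ht0'.2
  obtain ⟨ε, hε, hball⟩ := Metric.eventually_nhds_iff.mp (hl.and hnear)
  have hp := hball (y := t0 + ε / 2) (by rw [Real.dist_eq]; rw [abs_of_pos] <;> linarith)
  have hn := hball (y := t0 - ε / 2) (by rw [Real.dist_eq, abs_sub_comm]; rw [abs_of_pos] <;> linarith)
  have hpm : F t1 ≤ F (t0 + ε / 2) := hmin ⟨hp.2.1.le, hp.2.2.le⟩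
  have hnm : F t1 ≤ F (t0 - ε / 2) := hmin ⟨hn.2.1.le, hn.2.2.le⟩
  have h1 : 0 ≤ l * (ε / 2) := by
    have := hp.1
    rw [ht0F] at this
    have h3 : t0 + ε / 2 - t0 = ε / 2 := by ring
    rw [h3] at this
    linarith
  have h2 : 0 ≤ l * (-(ε / 2)) := by
    have := hn.1
    rw [ht0F] at this
    have h3 : t0 - ε / 2 - t0 = -(ε / 2) := by ring
    rw [h3] at this
    linarith
  have hl0 : l * (ε / 2) = 0 := by linarith [mul_neg l (ε / 2)]
  have h4 : F (t0 - ε / 2) = F t1 := by
    apply le_antisymm _ hnm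
    have := hn.1
    have h3 : t0 - ε / 2 - t0 = -(ε / 2) := by ring
    rw [h3, ht0F, mul_neg, hl0] at this
    linarith
  have h5 := hleast ⟨h4, hn.2.1.le, hn.2.2.le⟩
  linarith

theorem concave_kinks {I : Type} [Fintype I] (g : ℝ → ℝ) (hg : ContinuousOn g (Icc (-1) 1))
    (τ : I → ℝ) (α : I → ℝ) (hα : ∀ i, 0 ≤ α i)
    (hloc : ∀ t ∈ Ioo (-1 : ℝ) 1, ∃ l : ℝ, ∀ᶠ t' in 𝓝 t,
      g t' ≤ g t + l * (t' - t) + (1 / 2) * (∑ i, open Classical in if τ i = t then α i else 0) * |t' - t|) :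
    g 1 + g (-1) - 2 * g 0 ≤ ∑ i, open Classical in if τ i ∈ Ioo (-1 : ℝ) 1 then α i else 0 := by
  classical
  set h : I → ℝ → ℝ := fun i t => if τ i ∈ Ioo (-1 : ℝ) 1 then α i * max (t - τ i) 0 else 0 with hh
  have hcont : ∀ i, Continuous (h i) := by
    intro i
    simp only [hh]
    split_ifs
    · exact continuous_const.mul ((continuous_id.sub continuous_const).max continuous_const)
    · exact continuous_const
  have hloc' : ∀ t ∈ Ioo (-1 : ℝ) 1, ∀ i, ∃ s : ℝ, ∀ᶠ t' in 𝓝 t,
      h i t' = h i t + s * (t' - t) + (1 / 2) * (if τ i = t then α i else 0) * |t' - t| := by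
    intro t ht i
    by_cases hi : τ i ∈ Ioo (-1 : ℝ) 1
    · simp only [hh, if_pos hi]
      by_cases he : τ i = t
      · refine ⟨α i / 2, Eventually.of_forall fun t' => ?_⟩
        rw [if_pos he, he, sub_self, max_self]
        rcases le_total t t' with h | h
        · rw [max_eq_left (by linarith), abs_of_nonneg (by linarith)]; ring
        · rw [max_eq_right (by linarith), abs_of_nonpos (by linarith)]; ring
      · rcases lt_or_gt_of_ne he with h | h
        · refine ⟨α i, ?_⟩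
          filter_upwards [Ioi_mem_nhds h] with t' ht'
          rw [if_neg he, max_eq_left (by linarith [mem_Ioi.mp ht']), max_eq_left (by linarith)]
          ring
        · refine ⟨0, ?_⟩
          filter_upwards [Iio_mem_nhds h] with t' ht'
          rw [if_neg he, max_eq_right (by linarith [mem_Iio.mp ht']), max_eq_right (by linarith)]
          ring
    · have he : τ i ≠ t := fun h => hi (h ▸ ht)
      refine ⟨0, Eventually.of_forall fun t' => ?_⟩
      simp only [hh, if_neg hi, if_neg he]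
      ring
  have hmid := CONC_mid (fun t => g t - ∑ i, h i t)
    (hg.sub (continuous_finsetSum _ fun i _ => hcont i).continuousOn) (by
      intro t ht
      obtain ⟨l, hl⟩ := hloc t ht
      choose s hs using hloc' t ht
      refine ⟨l - ∑ i, s i, ?_⟩
      filter_upwards [hl, eventually_all.mpr hs] with t' h1 h2
      have h3 : ∑ i, h i t' = ∑ i, h i t + (∑ i, s i) * (t' - t) +
          (1 / 2) * (∑ i, if τ i = t then α i else 0) * |t' - t| := by
        rw [Finset.sum_congr rfl (fun i _ => h2 i), Finset.sum_add_distrib, Finset.sum_add_distrib,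
          Finset.sum_mul, Finset.mul_sum, Finset.sum_mul]
      rw [h3]
      have h4 : g t' ≤ g t + l * (t' - t) +
        (1 / 2) * (∑ i, if τ i = t then α i else 0) * |t' - t| := by
        convert h1
      linarith)
  have hmid : g 1 - ∑ i, h i 1 + (g (-1) - ∑ i, h i (-1)) ≤ 2 * (g 0 - ∑ i, h i 0) := hmid
  have hfin : ∑ i, h i 1 + ∑ i, h i (-1) - 2 * ∑ i, h i 0 ≤
      ∑ i, if τ i ∈ Ioo (-1 : ℝ) 1 then α i else 0 := by
    rw [Finset.mul_sum, ← Finset.sum_add_distrib, ← Finset.sum_sub_distrib]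
    refine Finset.sum_le_sum fun i _ => ?_
    simp only [hh]
    split_ifs with hi
    · have h1 : max (1 - τ i) 0 = 1 - τ i := max_eq_left (by linarith [hi.2])
      have h2 : max (-1 - τ i) 0 = 0 := max_eq_right (by linarith [hi.1])
      rw [h1, h2]
      have h3 : -τ i ≤ max (0 - τ i) 0 := by rw [zero_sub]; exact le_max_left _ _
      have h4 : 0 ≤ max (0 - τ i) 0 := le_max_right _ _
      have h5 := hα i
      have h6 : 1 - τ i - 2 * max (0 - τ i) 0 ≤ 1 := by linarith
      nlinarith [mul_le_mul_of_nonneg_left h6 h5]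
    · simp
  have hgoal : (∑ i, if τ i ∈ Ioo (-1 : ℝ) 1 then α i else 0) =
      ∑ i, open Classical in if τ i ∈ Ioo (-1 : ℝ) 1 then α i else 0 := by
    refine Finset.sum_congr rfl fun i _ => ?_
    congr
  rw [← hgoal]
  linarith

end Topping
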