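import Mathlib
import Pool.Agent.Lib.MP_bea121_gt.TC.Defs4
import Pool.Agent.Lib.MP_bea121_gt.TC.Base

/-!
# Level formula for the spanning forest functional (module LEVEL of MP_bea121_gt)
-/

open MeasureTheory Set Metric Topology Filter
open scoped RealInnerProductSpace Gradient ContDiff Manifold

noncomputable section

namespace Topping

section LevelAux

theorem LEVEL_anti (w : ℝ) : Antitone (fun c : ℝ => open Classical in if c ≤ w then (1 : ℝ) else 0) := by
  classical
  intro c c' h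
  show (if c' ≤ w then (1 : ℝ) else 0) ≤ if c ≤ w then (1 : ℝ) else 0
  by_cases h' : c' ≤ w
  · rw [if_pos h', if_pos (h.trans h')]
  · rw [if_neg h']
    split_ifs <;> norm_num

theorem LEVEL_ii (w c0 c1 : ℝ) :
    IntervalIntegrable (fun c : ℝ => open Classical in if c ≤ w then (1 : ℝ) else 0) volume c0 c1 :=
  (LEVEL_anti w).intervalIntegrable

theorem LEVEL_sum {I : Type} (T : Finset I) (f : I → ℝ → ℝ) (c0 c1 : ℝ)
    (h : ∀ i ∈ T, IntervalIntegrable (f i) volume c0 c1) :
    IntervalIntegrable (fun c => ∑ i ∈ T, f i c) volume c0 c1 := by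
  have := IntervalIntegrable.sum T h
  refine this.congr ?_
  intro c _
  simp

theorem LEVEL_int (w c0 c1 : ℝ) (hw : w ∈ Icc c0 c1) :
    ∫ c in c0..c1, (open Classical in if c ≤ w then (1 : ℝ) else 0) = w - c0 := by
  classical
  rw [← intervalIntegral.integral_add_adjacent_intervals (LEVEL_ii w c0 w) (LEVEL_ii w w c1)]
  have h1 : ∫ c in c0..w, (if c ≤ w then (1 : ℝ) else 0) = ∫ c in c0..w, (1 : ℝ) := by
    refine intervalIntegral.integral_congr_ae (Eventually.of_forall fun c hc => ?_)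
    rw [uIoc_of_le hw.1] at hc
    exact if_pos hc.2
  have h2 : ∫ c in w..c1, (if c ≤ w then (1 : ℝ) else 0) = ∫ c in w..c1, (0 : ℝ) := by
    refine intervalIntegral.integral_congr_ae (Eventually.of_forall fun c hc => ?_)
    rw [uIoc_of_le hw.2] at hc
    exact if_neg (not_le.2 hc.1)
  rw [h1, h2]
  simp

theorem LEVEL_ncard {V : Type} [Fintype V] (a : V → ℝ) (c : ℝ) :
    ({v | c ≤ a v}.ncard : ℝ) = ∑ v, (open Classical in if c ≤ a v then (1 : ℝ) else 0) := by
  classical
  rw [Set.ncard_eq_toFinset_card', Set.toFinset_ofPred, Finset.card_filter]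
  push_cast
  rfl

theorem LEVEL_ncardT {J : Type} [Fintype J] (T : Finset J) (b : J → ℝ) (c : ℝ) :
    ({j | j ∈ T ∧ c ≤ b j}.ncard : ℝ) = ∑ j ∈ T, (open Classical in if c ≤ b j then (1 : ℝ) else 0) := by
  classical
  have h : {j | j ∈ T ∧ c ≤ b j} = ((T.filter fun j => c ≤ b j : Finset J) : Set J) := by
    ext j
    simp
  rw [h, Set.ncard_coe_finset, Finset.card_filter]
  push_cast
  rfl

end LevelAux

section Level
variable {V J : Type} [Fintype V] [Fintype J] (s t : J → V)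

theorem Fval_level [Nonempty V] (hc : Conn s t) {T : Finset J} (hT : IsBase s t T)
    (a : V → ℝ) (b : J → ℝ) (c0 c1 : ℝ) (ha : ∀ v, a v ∈ Icc c0 c1) (hb : ∀ j, b j ∈ Icc c0 c1) :
    Fval T a b = c0 + ∫ c in c0..c1, (({v | c ≤ a v}.ncard : ℝ) - ({j | j ∈ T ∧ c ≤ b j}.ncard : ℝ)) := by
  classical
  have hcard := base_card s t hc hT
  simp_rw [LEVEL_ncard, LEVEL_ncardT]
  rw [intervalIntegral.integral_sub, intervalIntegral.integral_finsetSum,
    intervalIntegral.integral_finsetSum]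
  · rw [Finset.sum_congr rfl (fun v _ => LEVEL_int (a v) c0 c1 (ha v)),
      Finset.sum_congr rfl (fun j _ => LEVEL_int (b j) c0 c1 (hb j))]
    rw [Finset.sum_sub_distrib, Finset.sum_sub_distrib, Finset.sum_const, Finset.sum_const,
      Finset.card_univ, ← hcard, Fval]
    simp only [nsmul_eq_mul]
    push_cast
    ring
  · exact fun j _ => LEVEL_ii (b j) c0 c1
  · exact fun v _ => LEVEL_ii (a v) c0 c1
  · exact LEVEL_sum _ _ _ _ fun v _ => LEVEL_ii (a v) c0 c1
  · exact LEVEL_sum _ _ _ _ fun v _ => LEVEL_ii (b v) c0 c1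

theorem Amin_eq [Nonempty V] (hc : Conn s t) (a : V → ℝ) (b : J → ℝ) (c0 c1 : ℝ)
    (ha : ∀ v, a v ∈ Icc c0 c1) (hb : ∀ j, b j ∈ Icc c0 c1) :
    Amin s t a b = c0 + ∫ c in c0..c1, (({v | c ≤ a v}.ncard : ℝ) - (rk s t b c : ℝ)) := by
  obtain ⟨T, hT, hTA, hTr⟩ := exists_opt s t a b
  rw [← hTA, Fval_level s t hc hT a b c0 c1 ha hb]
  simp_rw [hTr]

theorem level_integrable (a : V → ℝ) (c0 c1 : ℝ) :
    IntervalIntegrable (fun c => ({v | c ≤ a v}.ncard : ℝ)) volume c0 c1 := by
  classical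
  simp_rw [LEVEL_ncard]
  exact LEVEL_sum _ _ _ _ fun v _ => LEVEL_ii (a v) c0 c1

theorem LEVEL_eSpan_mono {P Q : J → Prop} (h : ∀ j, P j → Q j) : eSpan s t P ≤ eSpan s t Q := by
  refine Submodule.span_mono ?_
  rintro x ⟨j, hj, rfl⟩
  exact ⟨j, h j hj, rfl⟩

theorem rk_integrable (b : J → ℝ) (c0 c1 : ℝ) :
    IntervalIntegrable (fun c => (rk s t b c : ℝ)) volume c0 c1 := by
  refine Antitone.intervalIntegrable ?_
  intro c c' h
  have : rk s t b c' ≤ rk s t b c :=
    Submodule.finrank_mono (LEVEL_eSpan_mono s t fun j hj => h.trans hj)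
  exact Nat.cast_le.2 this

theorem LEVEL_dv_sub (u v w : V) : dv u v = dv u w - dv v w := by
  unfold dv
  abel

theorem LEVEL_dv_self (u : V) : dv u u = 0 := by
  unfold dv
  abel

theorem rk_le (a : V → ℝ) (b : J → ℝ) (hb : ∀ j, b j ≤ a (s j) ∧ b j ≤ a (t j)) (c : ℝ) :
    rk s t b c ≤ {v | c ≤ a v}.ncard ∧ ((∃ v, c ≤ a v) → rk s t b c + 1 ≤ {v | c ≤ a v}.ncard) := by
  classical
  have key : (∃ v, c ≤ a v) → rk s t b c + 1 ≤ {v | c ≤ a v}.ncard := by
    rintro ⟨v0, hv0⟩
    have hcardeq : {v | c ≤ a v}.ncard = (Finset.univ.filter fun v => c ≤ a v).card := by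
      rw [Set.ncard_eq_toFinset_card', Set.toFinset_ofPred]
    have hmem : v0 ∈ Finset.univ.filter fun v => c ≤ a v := by simp [hv0]
    set W : Finset (V → ℝ) := ((Finset.univ.filter fun v => c ≤ a v).erase v0).image fun v => dv v v0
      with hW
    have hin : ∀ v, c ≤ a v → dv v v0 ∈ Submodule.span ℝ (W : Set (V → ℝ)) := by
      intro v hv
      by_cases h : v = v0
      · rw [h, LEVEL_dv_self]
        exact Submodule.zero_mem _
      · refine Submodule.subset_span ?_
        rw [hW, Finset.coe_image]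
        exact ⟨v, by simp [h, hv], rfl⟩
    have hle : eSpan s t (fun j => c ≤ b j) ≤ Submodule.span ℝ (W : Set (V → ℝ)) := by
      refine Submodule.span_le.2 ?_
      rintro x ⟨j, hj, rfl⟩
      rw [LEVEL_dv_sub _ _ v0]
      exact Submodule.sub_mem _ (hin _ (hj.trans (hb j).1)) (hin _ (hj.trans (hb j).2))
    have h1 : rk s t b c ≤ W.card :=
      (Submodule.finrank_mono hle).trans (finrank_span_finset_le_card W)
    have h2 : W.card ≤ ((Finset.univ.filter fun v => c ≤ a v).erase v0).card := Finset.card_image_le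
    rw [Finset.card_erase_of_mem hmem] at h2
    have h3 : 0 < (Finset.univ.filter fun v => c ≤ a v).card := Finset.card_pos.2 ⟨v0, hmem⟩
    rw [hcardeq]
    omega
  refine ⟨?_, key⟩
  by_cases h : ∃ v, c ≤ a v
  · have := key h
    omega
  · have h0 : eSpan s t (fun j => c ≤ b j) = ⊥ := by
      refine le_bot_iff.1 (Submodule.span_le.2 ?_)
      rintro x ⟨j, hj, rfl⟩
      exact absurd ⟨_, hj.trans (hb j).1⟩ h
    unfold rk
    rw [h0]
    simp

theorem le_Amin (hc : Conn s t) (a : V → ℝ) (b : J → ℝ)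
    (hb : ∀ j, b j ≤ a (s j) ∧ b j ≤ a (t j)) (v : V) : a v ≤ Amin s t a b := by
  classical
  have : Nonempty V := ⟨v⟩
  set M : ℝ := ∑ u, |a u| + ∑ j, |b j| with hM
  have hMa : ∀ u, |a u| ≤ M := by
    intro u
    have h1 : |a u| ≤ ∑ u, |a u| := Finset.single_le_sum (fun i _ => abs_nonneg (a i)) (Finset.mem_univ u)
    have h2 : 0 ≤ ∑ j, |b j| := Finset.sum_nonneg fun i _ => abs_nonneg (b i)
    rw [hM]
    linarith
  have hMb : ∀ j, |b j| ≤ M := by
    intro u
    have h1 : |b u| ≤ ∑ u, |b u| := Finset.single_le_sum (fun i _ => abs_nonneg (b i)) (Finset.mem_univ u)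
    have h2 : 0 ≤ ∑ j, |a j| := Finset.sum_nonneg fun i _ => abs_nonneg (a i)
    rw [hM]
    linarith
  have hA : ∀ u, a u ∈ Icc (-M) M := fun u => abs_le.1 (hMa u)
  have hB : ∀ j, b j ∈ Icc (-M) M := fun u => abs_le.1 (hMb u)
  have hM0 : -M ≤ M := (hA v).1.trans (hA v).2
  rw [Amin_eq s t hc a b (-M) M hA hB]
  have h1 : ∫ c in (-M)..M, (if c ≤ a v then (1 : ℝ) else 0) ≤
      ∫ c in (-M)..M, (({v | c ≤ a v}.ncard : ℝ) - (rk s t b c : ℝ)) := by
    refine intervalIntegral.integral_mono hM0 (LEVEL_ii _ _ _)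
      ((level_integrable a _ _).sub (rk_integrable s t b _ _)) ?_
    intro c
    have hr := rk_le s t a b hb c
    show (if c ≤ a v then (1 : ℝ) else 0) ≤ ({v | c ≤ a v}.ncard : ℝ) - (rk s t b c : ℝ)
    by_cases h : c ≤ a v
    · rw [if_pos h]
      have := hr.2 ⟨v, h⟩
      have h' : (rk s t b c : ℝ) + 1 ≤ ({v | c ≤ a v}.ncard : ℝ) := by exact_mod_cast this
      linarith
    · rw [if_neg h]
      have := hr.1
      have h' : (rk s t b c : ℝ) ≤ ({v | c ≤ a v}.ncard : ℝ) := by exact_mod_cast this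
      linarith
  rw [LEVEL_int (a v) (-M) M (hA v)] at h1
  linarith

theorem continuousOn_Amin {X : Type} [TopologicalSpace X] (U : Set X) (a : X → V → ℝ) (b : X → J → ℝ)
    (ha : ∀ v, ContinuousOn (fun x => a x v) U) (hb : ∀ j, ContinuousOn (fun x => b x j) U) :
    ContinuousOn (fun x => Amin s t (a x) (b x)) U := by
  classical
  obtain ⟨T0, hT0⟩ := exists_base s t
  have : Nonempty {T : Finset J // IsBase s t T} := ⟨⟨T0, hT0⟩⟩
  have hF : ∀ T : {T : Finset J // IsBase s t T}, ContinuousOn (fun x => Fval T.1 (a x) (b x)) U := by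
    intro T
    unfold Fval
    exact (continuousOn_finsetSum _ fun v _ => ha v).sub (continuousOn_finsetSum _ fun j _ => hb j)
  have he : ∀ x, Amin s t (a x) (b x) = Finset.univ.inf' Finset.univ_nonempty
      (fun T : {T : Finset J // IsBase s t T} => Fval T.1 (a x) (b x)) := by
    intro x
    unfold Amin
    rw [Finset.inf'_univ_eq_ciInf]
  simp_rw [he]
  exact ContinuousOn.finset_inf'_apply _ fun T _ => hF T
end Level

end Topping
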