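import Mathlib
import Pool.Agent.Lib.MP_bea121_gt.TC.Defs4
import Pool.Agent.Lib.MP_bea121_gt.TC.Base
import Pool.Agent.Lib.MP_bea121_gt.TC.Level
import Pool.Agent.Lib.MP_bea121_gt.TC.Conc

/-!
# Crude bound for second differences of the graph functional (MP_bea121_gt, module CRUDE)
-/

open MeasureTheory Set Metric Topology Filter
open scoped RealInnerProductSpace Gradient ContDiff Manifold

noncomputable section

namespace Topping

/-- If every bad edge can be exchanged against a good edge of the same weight, there is an optimal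
base without bad edges. -/
theorem CRUDE_nobad {V J : Type} [Fintype V] [Fintype J] (s t : J → V)
    (a : V → ℝ) (b : J → ℝ) (bad : J → Prop)
    (hex : ∀ e, bad e → ∃ k₁ k₂ : J,
      (∃ x₁ x₂ : ℝ, dv (s e) (t e) = x₁ • dv (s k₁) (t k₁) + x₂ • dv (s k₂) (t k₂)) ∧
      b k₁ = b e ∧ b k₂ = b e ∧ ¬ bad k₁ ∧ ¬ bad k₂) :
    ∃ T : Finset J, IsBase s t T ∧ Fval T a b = Amin s t a b ∧ ∀ e ∈ T, ¬ bad e := by
  classical
  have key : ∀ n : ℕ, ∀ T : Finset J, IsBase s t T → Fval T a b = Amin s t a b →
      (T.filter bad).card = n →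
      ∃ T : Finset J, IsBase s t T ∧ Fval T a b = Amin s t a b ∧ ∀ e ∈ T, ¬ bad e := by
    intro n
    induction n with
    | zero =>
      intro T hT hopt hc
      refine ⟨T, hT, hopt, fun e he hb => ?_⟩
      have := Finset.card_eq_zero.1 hc
      have h2 : e ∈ T.filter bad := Finset.mem_filter.2 ⟨he, hb⟩
      rw [this] at h2
      exact absurd h2 (Finset.notMem_empty e)
    | succ n ih =>
      intro T hT hopt hc
      have hne : (T.filter bad).Nonempty := by
        rw [← Finset.card_pos, hc]; omega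
      obtain ⟨e, he⟩ := hne
      obtain ⟨heT, heb⟩ := Finset.mem_filter.1 he
      obtain ⟨k₁, k₂, hx, hb1, hb2, hk1, hk2⟩ := hex e heb
      have step : ∀ k : J, b k = b e → ¬ bad k → IsBase s t (insert k (T.erase e)) →
          ∃ T : Finset J, IsBase s t T ∧ Fval T a b = Amin s t a b ∧ ∀ e ∈ T, ¬ bad e := by
        intro k hbk hk hbase
        have hkT : k ∉ T.erase e := by
          intro hkT
          rw [Finset.insert_eq_of_mem hkT] at hbase
          have h1 := hbase.2 e
          have h2 : LinearIndepOn ℝ (fun j => dv (s j) (t j)) (insert e ((T.erase e : Finset J) : Set J)) := by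
            have : insert e ((T.erase e : Finset J) : Set J) = (T : Set J) := by
              rw [← Finset.coe_insert, Finset.insert_erase heT]
            rw [this]; exact hT.1
          have h3 := h2.notMem_span_of_insert (by simp)
          apply h3
          unfold eSpan at h1
          convert h1 using 2
          ext x
          simp only [Set.mem_image, Set.mem_ofPred_eq, Finset.mem_coe]
          constructor
          · rintro ⟨j, hj, rfl⟩; exact ⟨j, hj, rfl⟩
          · rintro ⟨j, hj, rfl⟩; exact ⟨j, hj, rfl⟩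
        refine ih _ hbase ?_ ?_
        · rw [← hopt]
          unfold Fval
          rw [Finset.sum_insert hkT, hbk, Finset.add_sum_erase T b heT]
        · rw [Finset.filter_insert, if_neg hk, Finset.filter_erase, Finset.card_erase_of_mem he, hc]
          rfl
      rcases base_exchange s t hT heT hx with h | h
      · exact step k₁ hb1 hk1 h
      · exact step k₂ hb2 hk2 h
  obtain ⟨T, hT, hopt, -⟩ := exists_opt s t a b
  exact key _ T hT hopt rfl

/-- Local lower bound for the minimum of two affine functions. -/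
theorem CRUDE_min (A B m n t₀ : ℝ) :
    ∃ l : ℝ, ∀ᶠ t' in 𝓝 t₀,
      min (A + t₀ * m) (B + t₀ * n) + l * (t' - t₀) -
        (1 / 2) * (if A + t₀ * m = B + t₀ * n then |n - m| else 0) * |t' - t₀| ≤
        min (A + t' * m) (B + t' * n) := by
  have hc1 : Continuous fun t' : ℝ => A + t' * m := by fun_prop
  have hc2 : Continuous fun t' : ℝ => B + t' * n := by fun_prop
  rcases lt_trichotomy (A + t₀ * m) (B + t₀ * n) with h | h | h
  · refine ⟨m, ?_⟩
    have hev : ∀ᶠ t' in 𝓝 t₀, A + t' * m < B + t' * n :=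
      (hc1.tendsto t₀).eventually_lt (hc2.tendsto t₀) h
    filter_upwards [hev] with t' ht'
    rw [min_eq_left h.le, min_eq_left ht'.le, if_neg h.ne]
    linarith
  · refine ⟨(m + n) / 2, Eventually.of_forall fun t' => ?_⟩
    rw [if_pos h, ← h, min_self]
    have e1 : |n - m| * |t' - t₀| = |(n - m) * (t' - t₀)| := (abs_mul _ _).symm
    have h1 := neg_abs_le ((n - m) * (t' - t₀))
    have h2 := le_abs_self ((n - m) * (t' - t₀))
    have e2 : 1 / 2 * |n - m| * |t' - t₀| = 1 / 2 * |(n - m) * (t' - t₀)| := by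
      rw [mul_assoc, e1]
    rw [e2]
    refine le_min ?_ ?_ <;> nlinarith
  · refine ⟨n, ?_⟩
    have hev : ∀ᶠ t' in 𝓝 t₀, B + t' * n < A + t' * m :=
      (hc2.tendsto t₀).eventually_lt (hc1.tendsto t₀) h
    filter_upwards [hev] with t' ht'
    rw [min_eq_right h.le, min_eq_right ht'.le, if_neg h.ne']
    linarith

open Classical in
theorem crude {V : Type} [Fintype V] (p : V → E3) (adj : V → V → Prop) (y w : E3) :
    gA p adj (y + w) + gA p adj (y - w) - 2 * gA p adj y ≤
      ∑ e : Edge adj, if ∃ t ∈ Ioo (-1 : ℝ) 1, Ridge p adj (src adj e) (tgt adj e) (y + t • w)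
        then |⟪p (tgt adj e) - p (src adj e), w⟫| else 0 := by
  classical
  set d : Edge adj → E3 := fun e => p (tgt adj e) - p (src adj e) with hd
  set τ : Edge adj → ℝ := fun e => if ⟪d e, w⟫ = 0 then 2 else -⟪d e, y⟫ / ⟪d e, w⟫ with hτ
  set α : Edge adj → ℝ := fun e =>
    if Ridge p adj (src adj e) (tgt adj e) (y + τ e • w) then |⟪d e, w⟫| else 0 with hα
  have hα0 : ∀ e, 0 ≤ α e := by
    intro e; simp only [hα]; split_ifs
    · exact abs_nonneg _
    · exact le_rfl
  have hinner : ∀ (x : E3) (t : ℝ), ⟪x, y + t • w⟫ = ⟪x, y⟫ + t * ⟪x, w⟫ := by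
    intro x t; rw [inner_add_right, inner_smul_right]
  set g : ℝ → ℝ := fun t => gA p adj (y + t • w) with hg
  have hcont : ContinuousOn g (Icc (-1) 1) := by
    simp only [hg, gA]
    refine continuousOn_Amin (src adj) (tgt adj) (Icc (-1 : ℝ) 1)
      (fun t v => ⟪p v, y + t • w⟫)
      (fun t e => min ⟪p (src adj e), y + t • w⟫ ⟪p (tgt adj e), y + t • w⟫) ?_ ?_
    · intro v
      have : Continuous fun t : ℝ => ⟪p v, y + t • w⟫ := by
        simp only [hinner]; fun_prop
      exact this.continuousOn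
    · intro e
      have : Continuous fun t : ℝ => min ⟪p (src adj e), y + t • w⟫ ⟪p (tgt adj e), y + t • w⟫ := by
        simp only [hinner]; fun_prop
      exact this.continuousOn
  have hloc : ∀ t ∈ Ioo (-1 : ℝ) 1, ∃ l : ℝ, ∀ᶠ t' in 𝓝 t,
      g t' ≤ g t + l * (t' - t) +
        (1 / 2) * (∑ i, open Classical in if τ i = t then α i else 0) * |t' - t| := by
    intro t₀ ht₀
    obtain ⟨T, hT, hopt, hgood⟩ := CRUDE_nobad (src adj) (tgt adj)
      (fun v => ⟪p v, y + t₀ • w⟫)
      (fun e => min ⟪p (src adj e), y + t₀ • w⟫ ⟪p (tgt adj e), y + t₀ • w⟫)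
      (fun e => ⟪d e, w⟫ ≠ 0 ∧ ⟪d e, y + t₀ • w⟫ = 0 ∧
        ¬ Ridge p adj (src adj e) (tgt adj e) (y + t₀ • w)) (by
          rintro e ⟨-, h2, h3⟩
          have h4 : ⟪p (tgt adj e), y + t₀ • w⟫ = ⟪p (src adj e), y + t₀ • w⟫ := by
            simp only [hd, inner_sub_left] at h2; linarith
          have h5 : ∃ q, adj (src adj e) q ∧ adj (tgt adj e) q ∧
              0 < ⟪p q - p (src adj e), y + t₀ • w⟫ := by
            by_contra hcon
            push Not at hcon
            exact h3 ⟨h2, fun q h6 h7 => hcon q h6 h7⟩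
          obtain ⟨q, h6, h7, h8⟩ := h5
          rw [inner_sub_left] at h8
          refine ⟨⟨(src adj e, q), h6⟩, ⟨(tgt adj e, q), h7⟩, ⟨1, -1, ?_⟩, ?_, ?_, ?_, ?_⟩
          · simp only [src, tgt, dv]; module
          · simp only [src, tgt] at h8 h4 ⊢
            rw [h4, min_self, min_eq_left (by linarith)]
          · simp only [src, tgt] at h8 h4 ⊢
            rw [h4, min_self, min_eq_left (by linarith)]
          · rintro ⟨-, h9, -⟩
            simp only [hd, src, tgt, inner_sub_left] at h9 h8 h4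
            linarith
          · rintro ⟨-, h9, -⟩
            simp only [hd, src, tgt, inner_sub_left] at h9 h8 h4
            linarith)
    have hmin := fun e : Edge adj => CRUDE_min ⟪p (src adj e), y⟫ ⟪p (tgt adj e), y⟫
      ⟪p (src adj e), w⟫ ⟪p (tgt adj e), w⟫ t₀
    choose l hl using hmin
    refine ⟨∑ v, ⟪p v, w⟫ - ∑ e ∈ T, l e, ?_⟩
    have hall : ∀ᶠ t' in 𝓝 t₀, ∀ e : Edge adj,
        min (⟪p (src adj e), y⟫ + t₀ * ⟪p (src adj e), w⟫) (⟪p (tgt adj e), y⟫ + t₀ * ⟪p (tgt adj e), w⟫)
          + l e * (t' - t₀) -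
        (1 / 2) * (if ⟪p (src adj e), y⟫ + t₀ * ⟪p (src adj e), w⟫ =
          ⟪p (tgt adj e), y⟫ + t₀ * ⟪p (tgt adj e), w⟫ then
            |⟪p (tgt adj e), w⟫ - ⟪p (src adj e), w⟫| else 0) * |t' - t₀| ≤
        min (⟪p (src adj e), y⟫ + t' * ⟪p (src adj e), w⟫)
          (⟪p (tgt adj e), y⟫ + t' * ⟪p (tgt adj e), w⟫) := eventually_all.2 hl
    filter_upwards [hall] with t' ht'
    have h1 : g t' ≤ Fval T (fun v => ⟪p v, y + t' • w⟫)
        (fun e => min ⟪p (src adj e), y + t' • w⟫ ⟪p (tgt adj e), y + t' • w⟫) :=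
      Amin_le (src adj) (tgt adj) hT _ _
    have h2 : g t₀ = Fval T (fun v => ⟪p v, y + t₀ • w⟫)
        (fun e => min ⟪p (src adj e), y + t₀ • w⟫ ⟪p (tgt adj e), y + t₀ • w⟫) := hopt.symm
    refine h1.trans ?_
    rw [h2]
    unfold Fval
    simp only [hinner]
    have h3 : ∑ e ∈ T, (if ⟪p (src adj e), y⟫ + t₀ * ⟪p (src adj e), w⟫ =
          ⟪p (tgt adj e), y⟫ + t₀ * ⟪p (tgt adj e), w⟫ then
            |⟪p (tgt adj e), w⟫ - ⟪p (src adj e), w⟫| else 0) ≤ ∑ i, if τ i = t₀ then α i else 0 := by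
      refine le_trans (Finset.sum_le_sum (g := fun i => if τ i = t₀ then α i else 0) ?_)
        (Finset.sum_le_sum_of_subset_of_nonneg (Finset.subset_univ T) ?_)
      · intro e he
        have hde : ⟪p (tgt adj e), w⟫ - ⟪p (src adj e), w⟫ = ⟪d e, w⟫ := by
          simp only [hd, inner_sub_left]
        rw [hde]
        by_cases htie : ⟪p (src adj e), y⟫ + t₀ * ⟪p (src adj e), w⟫ =
          ⟪p (tgt adj e), y⟫ + t₀ * ⟪p (tgt adj e), w⟫
        · rw [if_pos htie]
          by_cases hw : ⟪d e, w⟫ = 0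
          · rw [hw, abs_zero]
            split_ifs
            · exact hα0 e
            · exact le_rfl
          · have h5 : ⟪d e, y + t₀ • w⟫ = 0 := by
              rw [hinner]; simp only [hd, inner_sub_left]; linarith
            have h6 : Ridge p adj (src adj e) (tgt adj e) (y + t₀ • w) := by
              by_contra hR
              exact hgood e he ⟨hw, h5, hR⟩
            have h7 : τ e = t₀ := by
              simp only [hτ, if_neg hw]
              rw [hinner] at h5
              rw [div_eq_iff hw]; linarith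
            rw [if_pos h7]
            simp only [hα, h7, if_pos h6]
            exact le_rfl
        · rw [if_neg htie]
          split_ifs
          · exact hα0 e
          · exact le_rfl
      · intro e _ _
        split_ifs
        · exact hα0 e
        · exact le_rfl
    have h4 : ∑ e ∈ T, (min (⟪p (src adj e), y⟫ + t₀ * ⟪p (src adj e), w⟫)
          (⟪p (tgt adj e), y⟫ + t₀ * ⟪p (tgt adj e), w⟫)
          + l e * (t' - t₀) -
        (1 / 2) * (if ⟪p (src adj e), y⟫ + t₀ * ⟪p (src adj e), w⟫ =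
          ⟪p (tgt adj e), y⟫ + t₀ * ⟪p (tgt adj e), w⟫ then
            |⟪p (tgt adj e), w⟫ - ⟪p (src adj e), w⟫| else 0) * |t' - t₀|) ≤
        ∑ e ∈ T, min (⟪p (src adj e), y⟫ + t' * ⟪p (src adj e), w⟫)
          (⟪p (tgt adj e), y⟫ + t' * ⟪p (tgt adj e), w⟫) :=
      Finset.sum_le_sum fun e _ => ht' e
    rw [Finset.sum_sub_distrib, Finset.sum_add_distrib, ← Finset.sum_mul, ← Finset.sum_mul,
      ← Finset.mul_sum] at h4
    have h5 : ∑ v, (⟪p v, y⟫ + t' * ⟪p v, w⟫) =
        ∑ v, (⟪p v, y⟫ + t₀ * ⟪p v, w⟫) + (∑ v, ⟪p v, w⟫) * (t' - t₀) := by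
      rw [Finset.sum_add_distrib, Finset.sum_add_distrib, ← Finset.mul_sum, ← Finset.mul_sum]
      ring
    have h6 := mul_le_mul_of_nonneg_right h3 (abs_nonneg (t' - t₀))
    rw [h5]
    have h7 : (∑ i, open Classical in if τ i = t₀ then α i else 0) =
        ∑ i, if τ i = t₀ then α i else 0 := by
      congr 1
    rw [h7]
    nlinarith
  have hmain := concave_kinks g hcont τ α hα0 hloc
  have e1 : g 1 = gA p adj (y + w) := by simp [hg]
  have e2 : g (-1) = gA p adj (y - w) := by
    simp only [hg, neg_smul, one_smul, sub_eq_add_neg]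
  have e3 : g 0 = gA p adj y := by simp [hg]
  rw [e1, e2, e3] at hmain
  refine hmain.trans (Finset.sum_le_sum fun e _ => ?_)
  by_cases h1 : τ e ∈ Ioo (-1 : ℝ) 1
  · rw [if_pos h1]
    simp only [hα]
    by_cases h2 : Ridge p adj (src adj e) (tgt adj e) (y + τ e • w)
    · rw [if_pos h2, if_pos ⟨τ e, h1, h2⟩]
    · rw [if_neg h2]
      split_ifs
      · exact abs_nonneg _
      · exact le_rfl
  · rw [if_neg h1]
    split_ifs
    · exact abs_nonneg _
    · exact le_rfl

end Topping
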