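import Mathlib
import Pool.Agent.Lib.MP_bea121_gt.TC.Defs4
import Pool.Agent.Lib.MP_bea121_gt.TC.Basic
import Pool.Agent.Lib.MP_bea121_gt.TC.Near

open MeasureTheory Set Metric Topology Filter
open scoped RealInnerProductSpace Gradient ContDiff Manifold

noncomputable section

namespace Topping

section RidgeBd

/-- orthogonal unit vector and decomposition in the plane -/
theorem RIDGE_perp (d : E2) (hd : d ≠ 0) : ∃ e : E2, ‖e‖ = 1 ∧ ⟪d, e⟫ = 0 ∧
    ∀ G : E2, ‖G‖ * ‖d‖ ≤ |⟪G, d⟫| + |⟪G, e⟫| * ‖d‖ := by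
  have hd' : 0 < ‖d‖ := norm_pos_iff.2 hd
  set e' : E2 := !₂[-d 1, d 0] with he'
  have h1 : ⟪d, e'⟫ = 0 := by
    rw [he', PiLp.inner_apply, Fin.sum_univ_two]
    simp
    ring
  have h2 : ‖e'‖ = ‖d‖ := by
    rw [he', EuclideanSpace.norm_eq, EuclideanSpace.norm_eq, Fin.sum_univ_two, Fin.sum_univ_two]
    congr 1
    simp
    ring
  refine ⟨‖d‖⁻¹ • e', ?_, ?_, ?_⟩
  · rw [norm_smul, norm_inv, norm_norm, h2, inv_mul_cancel₀ hd'.ne']
  · rw [real_inner_smul_right, h1, mul_zero]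
  · intro G
    have h3 : |⟪G, ‖d‖⁻¹ • e'⟫| * ‖d‖ = |⟪G, e'⟫| := by
      rw [real_inner_smul_right, abs_mul, abs_of_pos (inv_pos.2 hd')]
      field_simp
    rw [h3]
    have h4 : (‖G‖ * ‖d‖) ^ 2 = ⟪G, d⟫ ^ 2 + ⟪G, e'⟫ ^ 2 := by
      rw [mul_pow, EuclideanSpace.real_norm_sq_eq, EuclideanSpace.real_norm_sq_eq,
        Fin.sum_univ_two, Fin.sum_univ_two, he', PiLp.inner_apply, PiLp.inner_apply,
        Fin.sum_univ_two, Fin.sum_univ_two]
      simp
      ring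
    have h5 : (‖G‖ * ‖d‖) ^ 2 ≤ (|⟪G, d⟫| + |⟪G, e'⟫|) ^ 2 := by
      rw [h4, add_sq, sq_abs, sq_abs]
      have : 0 ≤ 2 * |⟪G, d⟫| * |⟪G, e'⟫| := by positivity
      linarith
    exact le_of_sq_le_sq h5 (by positivity)

theorem RIDGE_Rmin {S : Type} [TopologicalSpace S] (M : MongeSurf S) :
    ∃ ρ > 0, ∀ i, ρ ≤ M.R i := by
  rcases isEmpty_or_nonempty M.ι with h | h
  · exact ⟨1, one_pos, fun i => (h.false i).elim⟩
  · obtain ⟨i₀, hi₀⟩ := Finite.exists_min M.R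
    exact ⟨M.R i₀, M.R_pos i₀, hi₀⟩

variable {S : Type} [TopologicalSpace S] [CompactSpace S] [T2Space S] (M : MongeSurf S)

theorem ridge_bound : ∃ ε₀ > 0, ∃ C₂ > 0, ∀ ε, 0 < ε → ε < ε₀ → ∀ V : Finset S, M.IsNet ε V →
    ∀ u v : V, M.adj ε V u v → ∀ i, (u : S) ∈ M.P i (2 * M.R i) → ∀ η : E3, ‖η‖ ≤ 3 →
      Ridge (M.pos V) (M.adj ε V) u v η → ‖M.Phi i (M.e i u) η‖ ≤ C₂ * ε := by
  obtain ⟨δ₀, hδ₀, hloc⟩ := near_loc M
  obtain ⟨ρ, hρ, hρR⟩ := RIDGE_Rmin M
  have hκ1 := M.κ_one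
  refine ⟨min (δ₀ / 10) (ρ / 10), by positivity, 113 * M.κ, by positivity, ?_⟩
  intro ε hε hεε V hV u v huv i hu2 η hη hR
  have hεδ : 10 * ε ≤ δ₀ := by
    have := hεε.trans_le (min_le_left _ _)
    linarith
  have hεR : 10 * ε < M.R i := by
    have h1 := hεε.trans_le (min_le_right (δ₀ / 10) (ρ / 10))
    have h2 := hρR i
    linarith
  have hRi := M.R_pos i
  have hu3 : (u : S) ∈ M.P i (3 * M.R i) := P_mono M i (by linarith) hu2
  have hu4 : (u : S) ∈ M.P i (4 * M.R i) := P_mono M i (by linarith) hu2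
  have hu5 : (u : S) ∈ M.P i (5 * M.R i) := P_mono M i (by linarith) hu2
  obtain ⟨hv4, hd10⟩ := hloc (10 * ε) (by positivity) hεδ i u v hu3 huv.2
  have hv5 : (v : S) ∈ M.P i (5 * M.R i) := P_mono M i (by linarith) hv4
  have ha2 : ‖M.e i u‖ < 2 * M.R i := by
    have := (symm_e M i hu2).2
    rwa [mem_ball_zero_iff] at this
  set a : E2 := M.e i u with ha
  set b : E2 := M.e i v with hb
  have hab : b - a ≠ 0 := by
    intro h
    apply huv.1
    have h1 : M.e i v = M.e i u := sub_eq_zero.1 h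
    have h2 := (symm_e M i hu5).1
    have h3 := (symm_e M i hv5).1
    rw [h1, h2] at h3
    exact Subtype.ext h3
  set d : E2 := b - a with hd
  have hdn : ‖d‖ < 10 * ε := by rw [hd, norm_sub_rev]; exact hd10
  have hdpos : 0 < ‖d‖ := norm_pos_iff.2 hab
  obtain ⟨e, he1, he2, he3⟩ := RIDGE_perp d hab
  set G : E2 := M.Phi i a η with hG
  have hfu : M.f u = M.fi i a := f_e M i hu5
  have hfv : M.f v = M.fi i b := f_e M i hv5
  have hGd : |⟪G, d⟫| ≤ 3 * M.κ * ‖d‖ ^ 2 := by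
    have h1 := taylor M i a b η
    have h2 : ⟪M.fi i b, η⟫ - ⟪M.fi i a, η⟫ = 0 := by
      rw [← inner_sub_left, ← hfu, ← hfv]
      exact hR.1
    rw [h2, zero_sub, abs_neg, ← hG, ← hd] at h1
    refine h1.trans ?_
    have h3 : M.κ * ‖η‖ ≤ M.κ * 3 := mul_le_mul_of_nonneg_left hη (by linarith)
    have := mul_le_mul_of_nonneg_right h3 (sq_nonneg ‖d‖)
    linarith
  -- the two auxiliary vertices
  have hside : ∀ s : ℝ, s = 1 ∨ s = -1 → 6 * s * ⟪G, e⟫ ≤ 384 * M.κ * ε + ‖G‖ := by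
    intro s hs
    have hs2 : s ^ 2 = 1 := by rcases hs with rfl | rfl <;> norm_num
    set h : E2 := (1 / 2 : ℝ) • d + (6 * s * ε) • e with hh
    have hde : ⟪(1 / 2 : ℝ) • d, (6 * s * ε) • e⟫ = 0 := by
      rw [real_inner_smul_left, real_inner_smul_right, he2]; ring
    have hh2 : ‖h‖ ^ 2 = ‖d‖ ^ 2 / 4 + 36 * ε ^ 2 := by
      rw [hh, norm_add_sq_real, hde, norm_smul, norm_smul, he1, Real.norm_eq_abs,
        Real.norm_eq_abs, mul_one, sq_abs, mul_pow, sq_abs]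
      nlinarith [hs2]
    have hk2 : ‖h - d‖ ^ 2 = ‖d‖ ^ 2 / 4 + 36 * ε ^ 2 := by
      have h1 : h - d = -((1 / 2 : ℝ) • d) + (6 * s * ε) • e := by
        rw [hh]
        have : d = (1 / 2 : ℝ) • d + (1 / 2 : ℝ) • d := by rw [← add_smul]; norm_num
        nth_rewrite 2 [this]
        abel
      rw [h1, norm_add_sq_real, inner_neg_left, hde, norm_neg, norm_smul, norm_smul, he1,
        Real.norm_eq_abs, Real.norm_eq_abs, mul_one, sq_abs, mul_pow, sq_abs]
      nlinarith [hs2]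
    have hd2 : ‖d‖ ^ 2 ≤ 100 * ε ^ 2 := by nlinarith [norm_nonneg d]
    have hup : ∀ x : E2, ‖x‖ ^ 2 = ‖d‖ ^ 2 / 4 + 36 * ε ^ 2 → ‖x‖ ≤ (782 / 100) * ε ∧ 6 * ε ≤ ‖x‖ := by
      intro x hx
      constructor
      · by_contra hcon
        push Not at hcon
        nlinarith [norm_nonneg x]
      · by_contra hcon
        push Not at hcon
        nlinarith [norm_nonneg x, sq_nonneg ‖d‖]
    obtain ⟨hh8, hh6⟩ := hup h hh2
    obtain ⟨hk8, hk6⟩ := hup (h - d) hk2
    have hm3 : a + h ∈ ball (0 : E2) (3 * M.R i) := by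
      rw [mem_ball_zero_iff]
      have := norm_add_le a h
      linarith
    obtain ⟨hx3, hex⟩ := P_symm M i (by linarith : 3 * M.R i ≤ 5 * M.R i) hm3
    set x' : S := (M.e i).symm (a + h) with hx'
    obtain ⟨q, hqV, hnq⟩ := hV.dense x'
    obtain ⟨hq4, hqd⟩ := hloc ε hε (by linarith) i x' q hx3 hnq
    rw [hex] at hqd
    have hq5 : q ∈ M.P i (5 * M.R i) := P_mono M i (by linarith) hq4
    set p : E2 := M.e i q with hp
    set err : E2 := p - (a + h) with herr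
    have herrn : ‖err‖ < ε := by rw [herr, norm_sub_rev]; exact hqd
    have hpa : p - a = h + err := by rw [herr]; abel
    have hpb : p - b = (h - d) + err := by rw [herr, hd]; abel
    have hpa8 : ‖p - a‖ ≤ (882 / 100) * ε := by
      rw [hpa]
      have := norm_add_le h err
      linarith
    have hpb8 : ‖p - b‖ ≤ (882 / 100) * ε := by
      rw [hpb]
      have := norm_add_le (h - d) err
      linarith
    have hpa0 : p ≠ a := by
      intro h0
      have h1 : h = -err := by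
        have : h + err = 0 := by rw [← hpa, h0, sub_self]
        exact eq_neg_of_add_eq_zero_left this
      have h2 : ‖h‖ < ε := by rw [h1, norm_neg]; exact herrn
      linarith
    have hpb0 : p ≠ b := by
      intro h0
      have h1 : h - d = -err := by
        have : (h - d) + err = 0 := by rw [← hpb, h0, sub_self]
        exact eq_neg_of_add_eq_zero_left this
      have h2 : ‖h - d‖ < ε := by rw [h1, norm_neg]; exact herrn
      linarith
    set qV : V := ⟨q, hqV⟩ with hqVd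
    have hadju : M.adj ε V u qV := by
      refine ⟨?_, ?_⟩
      · intro h0
        apply hpa0
        rw [hp, ha, h0]
      · apply near_of M i hu4 hq4
        rw [← ha, ← hp, norm_sub_rev]
        linarith
    have hadjv : M.adj ε V v qV := by
      refine ⟨?_, ?_⟩
      · intro h0
        apply hpb0
        rw [hp, hb, h0]
      · apply near_of M i hv4 hq4
        rw [← hb, ← hp, norm_sub_rev]
        linarith
    have hle : ⟪M.f q - M.f u, η⟫ ≤ 0 := hR.2 qV hadju hadjv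
    have hfq : M.f q = M.fi i p := f_e M i hq5
    have ht := taylor M i a p η
    rw [← hG] at ht
    have h2 : ⟪M.fi i p, η⟫ - ⟪M.fi i a, η⟫ ≤ 0 := by
      rw [← inner_sub_left, ← hfu, ← hfq]
      exact hle
    have h3 : M.κ * ‖η‖ * ‖p - a‖ ^ 2 ≤ 234 * M.κ * ε ^ 2 := by
      have h4 : M.κ * ‖η‖ ≤ M.κ * 3 := mul_le_mul_of_nonneg_left hη (by linarith)
      have h5 : ‖p - a‖ ^ 2 ≤ ((882 / 100) * ε) ^ 2 := pow_le_pow_left₀ (norm_nonneg _) hpa8 2
      calc M.κ * ‖η‖ * ‖p - a‖ ^ 2 ≤ (M.κ * 3) * ((882 / 100) * ε) ^ 2 :=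
            mul_le_mul h4 h5 (sq_nonneg _) (by positivity)
        _ ≤ 234 * M.κ * ε ^ 2 := by
            have : 0 ≤ M.κ * ε ^ 2 := by positivity
            nlinarith
    have h6 : ⟪G, p - a⟫ ≤ 234 * M.κ * ε ^ 2 := by
      have := (abs_le.1 ht).1
      linarith
    have h7 : ⟪G, p - a⟫ = (1 / 2) * ⟪G, d⟫ + 6 * s * ε * ⟪G, e⟫ + ⟪G, err⟫ := by
      rw [hpa, hh, inner_add_right, inner_add_right, real_inner_smul_right,
        real_inner_smul_right]
    have h8 : -(‖G‖ * ε) ≤ ⟪G, err⟫ := by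
      have h9 := abs_real_inner_le_norm G err
      have h10 : ‖G‖ * ‖err‖ ≤ ‖G‖ * ε := mul_le_mul_of_nonneg_left herrn.le (norm_nonneg _)
      linarith [(abs_le.1 (h9.trans h10)).1]
    have h11 : -(300 * M.κ * ε ^ 2) ≤ ⟪G, d⟫ := by
      have h12 : 3 * M.κ * ‖d‖ ^ 2 ≤ 300 * M.κ * ε ^ 2 := by
        have := mul_le_mul_of_nonneg_left hd2 (by linarith : 0 ≤ 3 * M.κ)
        linarith
      linarith [(abs_le.1 (hGd.trans h12)).1]
    have h13 : (6 * s * ⟪G, e⟫) * ε ≤ (384 * M.κ * ε + ‖G‖) * ε := by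
      rw [h7] at h6
      nlinarith
    exact le_of_mul_le_mul_right h13 hε
  have hGe : 6 * |⟪G, e⟫| ≤ 384 * M.κ * ε + ‖G‖ := by
    have h1 := hside 1 (Or.inl rfl)
    have h2 := hside (-1) (Or.inr rfl)
    rcases abs_cases ⟪G, e⟫ with h | h <;> rw [h.1] <;> linarith
  have hGn : ‖G‖ ≤ 30 * M.κ * ε + |⟪G, e⟫| := by
    have h1 := he3 G
    have h2 : |⟪G, d⟫| ≤ 30 * M.κ * ε * ‖d‖ := by
      refine hGd.trans ?_
      have h3 : 3 * M.κ * ‖d‖ ≤ 3 * M.κ * (10 * ε) := mul_le_mul_of_nonneg_left hdn.le (by linarith)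
      have := mul_le_mul_of_nonneg_right h3 hdpos.le
      linarith
    have h4 : ‖G‖ * ‖d‖ ≤ (30 * M.κ * ε + |⟪G, e⟫|) * ‖d‖ := by linarith
    exact le_of_mul_le_mul_right h4 hdpos
  have hκε : 0 < M.κ * ε := by positivity
  linarith
end RidgeBd

end Topping
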