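import Mathlib
import Pool.Agent.Lib.MP_bea121_gt.TC.Defs4
import Pool.Agent.Lib.MP_bea121_gt.TC.Basic
import Pool.Agent.Lib.MP_bea121_gt.TC.Near
import Pool.Agent.Lib.MP_bea121_gt.TC.Ridge

open MeasureTheory Set Metric Topology Filter
open scoped RealInnerProductSpace Gradient ContDiff Manifold

noncomputable section

namespace Topping

section Rvol

theorem RVOL_basis (n m : E3) (hn : ‖n‖ = 1) (hm : ‖m‖ = 1) (hnm : ⟪n, m⟫ = 0) :
    ∃ b : OrthonormalBasis (Fin 3) ℝ E3, b 0 = n ∧ b 1 = m := by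
  have hmn : ⟪m, n⟫ = 0 := by rw [real_inner_comm]; exact hnm
  have key : ∀ i ∈ ({0, 1} : Set (Fin 3)), ∀ j ∈ ({0, 1} : Set (Fin 3)),
      ⟪(![n, m, 0] : Fin 3 → E3) i, (![n, m, 0] : Fin 3 → E3) j⟫ = if i = j then (1 : ℝ) else 0 := by
    rintro i (rfl | rfl) j (rfl | rfl)
    · simp [hn]
    · simpa using hnm
    · simpa using hmn
    · simp [hm]
  have hv : Orthonormal ℝ (({0, 1} : Set (Fin 3)).domRestrict ![n, m, 0]) := by
    rw [orthonormal_iff_ite]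
    rintro ⟨i, hi⟩ ⟨j, hj⟩
    have h1 := key i hi j hj
    simp only [Subtype.mk.injEq]
    exact h1
  obtain ⟨b, hb⟩ := hv.exists_orthonormalBasis_extension_of_card_eq (by simp)
  exact ⟨b, by simpa using hb 0 (by simp), by simpa using hb 1 (by simp)⟩

theorem RVOL_box (μ r δ : ℝ) (hr : 0 ≤ r) (hδ : 0 ≤ δ) :
    volume {x : Fin 3 → ℝ | |x 0| ≤ r ∧ |x 1 - μ * x 0| ≤ δ ∧ |x 2| ≤ 2} ≤
      ENNReal.ofReal (16 * r * δ) := by
  set T : (Fin 3 → ℝ) →ₗ[ℝ] (Fin 3 → ℝ) :=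
    Matrix.toLin' !![1, 0, 0; -μ, 1, 0; 0, 0, 1] with hT
  have hdet : LinearMap.det T = 1 := by
    rw [hT, LinearMap.det_toLin', Matrix.det_fin_three]
    simp
  have hset : {x : Fin 3 → ℝ | |x 0| ≤ r ∧ |x 1 - μ * x 0| ≤ δ ∧ |x 2| ≤ 2} ⊆
      T ⁻¹' (Icc ![-r, -δ, -2] ![r, δ, 2]) := by
    rintro x ⟨h0, h1, h2⟩
    rw [Set.mem_preimage, Set.mem_Icc, Pi.le_def, Pi.le_def]
    have e0 : T x 0 = x 0 := by
      rw [hT, Matrix.toLin'_apply]
      simp [Matrix.mulVec, dotProduct, Fin.sum_univ_three]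
    have e1 : T x 1 = x 1 - μ * x 0 := by
      rw [hT, Matrix.toLin'_apply]
      simp [Matrix.mulVec, dotProduct, Fin.sum_univ_three]
      ring
    have e2 : T x 2 = x 2 := by
      rw [hT, Matrix.toLin'_apply]
      simp [Matrix.mulVec, dotProduct, Fin.sum_univ_three]
    rw [abs_le] at h0 h1 h2
    constructor
    · intro i
      fin_cases i
      · simpa [e0] using h0.1
      · simpa [e1] using h1.1
      · simpa [e2] using h2.1
    · intro i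
      fin_cases i
      · simpa [e0] using h0.2
      · simpa [e1] using h1.2
      · simpa [e2] using h2.2
  refine (measure_mono hset).trans ?_
  rw [Measure.addHaar_preimage_linearMap volume (by rw [hdet]; exact one_ne_zero), hdet,
    Real.volume_Icc_pi]
  simp only [Fin.prod_univ_three]
  simp only [Matrix.cons_val_zero, Matrix.cons_val_one, Matrix.cons_val_two, inv_one, abs_one,
    ENNReal.ofReal_one, one_mul]
  have e3 : (![r, δ, 2] : Fin 3 → ℝ) 2 = 2 := rfl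
  have e4 : (![-r, -δ, -2] : Fin 3 → ℝ) 2 = -2 := rfl
  rw [← ENNReal.ofReal_mul (by linarith), ← ENNReal.ofReal_mul (by nlinarith)]
  apply ENNReal.ofReal_le_ofReal
  simp
  ring_nf
  exact le_refl _

theorem slab_vol (n m : E3) (hn : ‖n‖ = 1) (hm : ‖m‖ = 1) (hnm : ⟪n, m⟫ = 0) (μ r δ : ℝ) (hr : 0 ≤ r) (hδ : 0 ≤ δ) :
    volume {y : E3 | ‖y‖ ≤ 2 ∧ |⟪n, y⟫| ≤ r ∧ |⟪m, y⟫ - μ * ⟪n, y⟫| ≤ δ} ≤ ENNReal.ofReal (16 * r * δ) := by
  obtain ⟨b, hb0, hb1⟩ := RVOL_basis n m hn hm hnm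
  have hmp : MeasurePreserving (fun y : E3 => WithLp.ofLp (b.repr y)) volume volume :=
    (EuclideanSpace.volume_preserving_symm_measurableEquiv_toLp (Fin 3)).comp
      b.measurePreserving_repr
  have hmeas : MeasurableSet {x : Fin 3 → ℝ | |x 0| ≤ r ∧ |x 1 - μ * x 0| ≤ δ ∧ |x 2| ≤ 2} := by
    apply IsClosed.measurableSet
    apply IsClosed.and
    · exact isClosed_le (by fun_prop) continuous_const
    · apply IsClosed.and
      · exact isClosed_le (by fun_prop) continuous_const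
      · exact isClosed_le (by fun_prop) continuous_const
  have hsub : {y : E3 | ‖y‖ ≤ 2 ∧ |⟪n, y⟫| ≤ r ∧ |⟪m, y⟫ - μ * ⟪n, y⟫| ≤ δ} ⊆
      (fun y : E3 => WithLp.ofLp (b.repr y)) ⁻¹'
        {x : Fin 3 → ℝ | |x 0| ≤ r ∧ |x 1 - μ * x 0| ≤ δ ∧ |x 2| ≤ 2} := by
    rintro y ⟨h0, h1, h2⟩
    have e0 : (b.repr y).ofLp 0 = ⟪n, y⟫ := by rw [b.repr_apply_apply, hb0]
    have e1 : (b.repr y).ofLp 1 = ⟪m, y⟫ := by rw [b.repr_apply_apply, hb1]
    have e2 : |(b.repr y).ofLp 2| ≤ 2 := by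
      rw [b.repr_apply_apply]
      refine (abs_real_inner_le_norm _ _).trans ?_
      rw [b.orthonormal.1 2, one_mul]
      exact h0
    refine ⟨?_, ?_, e2⟩
    · show |(b.repr y).ofLp 0| ≤ r
      rw [e0]; exact h1
    · show |(b.repr y).ofLp 1 - μ * (b.repr y).ofLp 0| ≤ δ
      rw [e0, e1]; exact h2
  refine (measure_mono hsub).trans ?_
  rw [hmp.measure_preimage hmeas.nullMeasurableSet]
  exact RVOL_box μ r δ hr hδ

/-- a unit vector of the plane orthogonal to a given vector -/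
theorem RVOL_perp (d : E2) (hd : d ≠ 0) : ∃ e : E2, ‖e‖ = 1 ∧ ⟪d, e⟫ = 0 := by
  have hd' : 0 < ‖d‖ := norm_pos_iff.2 hd
  set e' : E2 := !₂[-d 1, d 0] with he'
  have h1 : ⟪d, e'⟫ = 0 := by
    rw [he', PiLp.inner_apply, Fin.sum_univ_two]
    simp
    ring
  have h2 : ‖e'‖ = ‖d‖ := by
    rw [he', EuclideanSpace.norm_eq, EuclideanSpace.norm_eq, Fin.sum_univ_two, Fin.sum_univ_two]
    congr 1
    simp
    ring
  refine ⟨‖d‖⁻¹ • e', ?_, ?_⟩
  · rw [norm_smul, norm_inv, norm_norm, h2, inv_mul_cancel₀ hd'.ne']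
  · rw [real_inner_smul_right, h1, mul_zero]

variable {S : Type} [TopologicalSpace S] [CompactSpace S] [T2Space S] (M : MongeSurf S)

theorem ridge_volume : ∃ C > 0, ∀ r, 0 < r → r < 1 / 2 → ∃ ε₀ > 0, ∀ ε, 0 < ε → ε < ε₀ →
    ∀ V : Finset S, M.IsNet ε V → ∀ u v : V, M.adj ε V u v → ∀ w : E3, ‖w‖ < r →
      volume {y | y ∈ Sh ∧ ∃ t ∈ Ioo (-1 : ℝ) 1,
        Ridge (M.pos V) (M.adj ε V) u v (y + t • w)} ≤ ENNReal.ofReal (C * r * ε) := by
  obtain ⟨δ₀, hδ₀, hloc⟩ := near_loc M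
  obtain ⟨ε₁, hε₁, C₂, hC₂, hrb⟩ := ridge_bound M
  refine ⟨20 * C₂, by positivity, ?_⟩
  intro r hr0 hr1
  refine ⟨min ε₁ (δ₀ / 10), by positivity, ?_⟩
  intro ε hε hεε V hV u v huv w hw
  have hε1 : ε < ε₁ := hεε.trans_le (min_le_left _ _)
  have hε2 : 10 * ε ≤ δ₀ := by
    have := hεε.trans_le (min_le_right ε₁ (δ₀ / 10))
    linarith
  obtain ⟨i, hi⟩ := P_cover M (u : S)
  have hRi := M.R_pos i
  have hu2 : (u : S) ∈ M.P i (2 * M.R i) := P_mono M i (by linarith) hi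
  have hu3 : (u : S) ∈ M.P i (3 * M.R i) := P_mono M i (by linarith) hi
  have hu5 : (u : S) ∈ M.P i (5 * M.R i) := P_mono M i (by linarith) hi
  obtain ⟨hv4, -⟩ := hloc (10 * ε) (by positivity) hε2 i u v hu3 huv.2
  have hv5 : (v : S) ∈ M.P i (5 * M.R i) := P_mono M i (by linarith) hv4
  set a : E2 := M.e i u with ha
  set b : E2 := M.e i v with hb
  have hab : b - a ≠ 0 := by
    intro h
    apply huv.1
    have h1 : M.e i v = M.e i u := sub_eq_zero.1 h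
    have h2 := (symm_e M i hu5).1
    have h3 := (symm_e M i hv5).1
    rw [h1, h2] at h3
    exact Subtype.ext h3
  set d : E2 := b - a with hd
  obtain ⟨e, he1, he2⟩ := RVOL_perp d hab
  have hdpos : 0 < ‖d‖ := norm_pos_iff.2 hab
  set γ : ℝ := M.g i b - M.g i a with hγ
  set D3 : E3 := M.f v - M.f u with hD3
  have hD3e : D3 = M.L i d + γ • M.c i := by
    rw [hD3, f_e M i hu5, f_e M i hv5, ← ha, ← hb, hγ, hd]
    unfold MongeSurf.fi
    rw [map_sub, sub_smul]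
    abel
  have hD3n : ‖D3‖ ^ 2 = ‖d‖ ^ 2 + γ ^ 2 := by
    rw [hD3e]; exact norm_decomp M i d γ
  have hchord := chord_e M i hv5 hu5
  rw [← ha, ← hb, ← hd, ← hD3] at hchord
  have hD3pos : 0 < ‖D3‖ := lt_of_lt_of_le hdpos hchord.1
  have hγ2 : γ ^ 2 ≤ (21 / 1000) * ‖d‖ ^ 2 := by
    have h1 : ‖D3‖ ^ 2 ≤ (101 / 100 * ‖d‖) ^ 2 :=
      pow_le_pow_left₀ (norm_nonneg _) hchord.2 2
    nlinarith [sq_nonneg ‖d‖]
  set n : E3 := ‖D3‖⁻¹ • D3 with hn
  have hn1 : ‖n‖ = 1 := by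
    rw [hn, norm_smul, norm_inv, norm_norm, inv_mul_cancel₀ hD3pos.ne']
  set s : ℝ := ⟪∇ (M.g i) a, e⟫ with hs
  have hs2 : s ^ 2 ≤ 1 / 100 := by
    have h1 : |s| ≤ 1 / 10 := by
      refine (abs_real_inner_le_norm _ _).trans ?_
      rw [he1, mul_one]
      exact M.g_small i a
    have h2 := abs_le.1 h1
    nlinarith [h2.1, h2.2]
  set E : E3 := M.L i e + s • M.c i with hE
  have hE2 : ‖E‖ ^ 2 = 1 + s ^ 2 := by
    rw [hE, norm_decomp M i e s, he1]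
    ring
  have hDE : ⟪D3, E⟫ = γ * s := by
    rw [hD3e, hE]
    have c1 : ⟪M.L i d, M.L i e⟫ = 0 := by rw [LinearIsometry.inner_map_map, he2]
    have c2 : ⟪M.L i d, M.c i⟫ = 0 := M.c_perp i d
    have c3 : ⟪M.c i, M.L i e⟫ = 0 := by rw [real_inner_comm]; exact M.c_perp i e
    have c4 : ⟪M.c i, M.c i⟫ = 1 := by rw [real_inner_self_eq_norm_sq, M.c_norm i]; norm_num
    rw [inner_add_left, inner_add_right, inner_add_right, real_inner_smul_left,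
      real_inner_smul_left, real_inner_smul_right, real_inner_smul_right, c1, c2, c3, c4]
    ring
  set α : ℝ := ⟪n, E⟫ with hα
  have hαe : α * ‖D3‖ = γ * s := by
    rw [hα, hn, real_inner_smul_left, hDE]
    field_simp
  have hα2 : α ^ 2 ≤ 1 / 1000 := by
    have h1 : α ^ 2 * ‖D3‖ ^ 2 = γ ^ 2 * s ^ 2 := by
      rw [← mul_pow, hαe, mul_pow]
    have h2 : ‖d‖ ^ 2 ≤ ‖D3‖ ^ 2 := by rw [hD3n]; nlinarith [sq_nonneg γ]
    have h3 : γ ^ 2 * s ^ 2 ≤ (21 / 1000) * ‖d‖ ^ 2 * (1 / 100) :=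
      mul_le_mul hγ2 hs2 (sq_nonneg _) (by positivity)
    have h4 : α ^ 2 * ‖d‖ ^ 2 ≤ (1 / 1000) * ‖d‖ ^ 2 := by
      have := mul_le_mul_of_nonneg_left h2 (sq_nonneg α)
      nlinarith [sq_nonneg ‖d‖]
    exact le_of_mul_le_mul_right h4 (by positivity)
  set E' : E3 := E - α • n with hE'
  have hnE' : ⟪n, E'⟫ = 0 := by
    rw [hE', inner_sub_right, real_inner_smul_right, real_inner_self_eq_norm_sq, hn1, ← hα]
    ring
  have hE'2 : ‖E'‖ ^ 2 = ‖E‖ ^ 2 - α ^ 2 := by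
    rw [hE', norm_sub_sq_real, real_inner_smul_right, norm_smul, hn1, real_inner_comm, ← hα,
      mul_one, Real.norm_eq_abs, sq_abs]
    ring
  have hE'9 : 9 / 10 ≤ ‖E'‖ := by
    have h1 : (9 / 10 : ℝ) ^ 2 ≤ ‖E'‖ ^ 2 := by
      rw [hE'2, hE2]
      nlinarith [sq_nonneg s]
    by_contra h2
    push Not at h2
    nlinarith [norm_nonneg E']
  have hE'pos : 0 < ‖E'‖ := by linarith
  set m : E3 := ‖E'‖⁻¹ • E' with hm
  have hm1 : ‖m‖ = 1 := by
    rw [hm, norm_smul, norm_inv, norm_norm, inv_mul_cancel₀ hE'pos.ne']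
  have hnm : ⟪n, m⟫ = 0 := by rw [hm, real_inner_smul_right, hnE', mul_zero]
  set μ : ℝ := ⟪m, w⟫ / ⟪n, w⟫ with hμ
  have hEΦ : ∀ η : E3, ⟪E, η⟫ = ⟪e, M.Phi i a η⟫ := by
    intro η
    have k1 : ⟪M.L i e, η⟫ = ⟪e, M.pr i η⟫ := by
      rw [real_inner_comm, inner_L, real_inner_comm]
    have k2 : ⟪e, ∇ (M.g i) a⟫ = s := real_inner_comm _ _
    rw [hE, Phi_eq, inner_add_left, real_inner_smul_left, inner_add_right, real_inner_smul_right,
      k1, k2]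
    ring
  have hkey : ∀ y : E3, y ∈ Sh → ∀ t ∈ Ioo (-1 : ℝ) 1,
      Ridge (M.pos V) (M.adj ε V) u v (y + t • w) →
      ‖y‖ ≤ 2 ∧ ⟪n, y⟫ = -t * ⟪n, w⟫ ∧ |⟪m, y⟫ + t * ⟪m, w⟫| ≤ C₂ * ε / (9 / 10) := by
    intro y hy t ht hR
    have hη3 : ‖y + t • w‖ ≤ 3 := by
      have h1 : ‖t • w‖ ≤ 1 / 2 := by
        rw [norm_smul, Real.norm_eq_abs]
        have h2 : |t| ≤ 1 := (abs_lt.2 ⟨ht.1, ht.2⟩).le
        calc |t| * ‖w‖ ≤ 1 * (1 / 2) := mul_le_mul h2 (by linarith) (norm_nonneg _) (by norm_num)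
          _ = 1 / 2 := by norm_num
      have h3 := norm_add_le y (t • w)
      linarith [hy.2]
    have hPhi := hrb ε hε hε1 V hV u v huv i hu2 (y + t • w) hη3 hR
    rw [← ha] at hPhi
    have htie : ⟪D3, y + t • w⟫ = 0 := hR.1
    have hnη : ⟪n, y + t • w⟫ = 0 := by rw [hn, real_inner_smul_left, htie, mul_zero]
    have hEη : ⟪E, y + t • w⟫ = ⟪e, M.Phi i a (y + t • w)⟫ := hEΦ _
    have hE'η : |⟪E', y + t • w⟫| ≤ C₂ * ε := by
      rw [hE', inner_sub_left, real_inner_smul_left, hnη, mul_zero, sub_zero, hEη]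
      refine (abs_real_inner_le_norm _ _).trans ?_
      rw [he1, one_mul]
      exact hPhi
    have hmη : |⟪m, y + t • w⟫| ≤ C₂ * ε / (9 / 10) := by
      rw [hm, real_inner_smul_left, abs_mul, abs_of_pos (inv_pos.2 hE'pos), inv_mul_eq_div]
      exact div_le_div₀ (by positivity) hE'η (by norm_num) hE'9
    refine ⟨hy.2, ?_, ?_⟩
    · rw [inner_add_right, real_inner_smul_right] at hnη
      linarith
    · rw [inner_add_right, real_inner_smul_right] at hmη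
      exact hmη
  by_cases hnw : ⟪n, w⟫ = 0
  · have hsub : {y | y ∈ Sh ∧ ∃ t ∈ Ioo (-1 : ℝ) 1,
        Ridge (M.pos V) (M.adj ε V) u v (y + t • w)} ⊆
        {y : E3 | ‖y‖ ≤ 2 ∧ |⟪n, y⟫| ≤ 0 ∧ |⟪m, y⟫ - 0 * ⟪n, y⟫| ≤ 2} := by
      rintro y ⟨hy, t, ht, hR⟩
      obtain ⟨h1, h2, -⟩ := hkey y hy t ht hR
      refine ⟨h1, ?_, ?_⟩
      · rw [h2, hnw, mul_zero, abs_zero]
      · rw [zero_mul, sub_zero]
        refine (abs_real_inner_le_norm _ _).trans ?_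
        rw [hm1, one_mul]
        exact h1
    refine (measure_mono hsub).trans ((slab_vol n m hn1 hm1 hnm 0 0 2 le_rfl (by norm_num)).trans ?_)
    simp
  · have hsub : {y | y ∈ Sh ∧ ∃ t ∈ Ioo (-1 : ℝ) 1,
        Ridge (M.pos V) (M.adj ε V) u v (y + t • w)} ⊆
        {y : E3 | ‖y‖ ≤ 2 ∧ |⟪n, y⟫| ≤ r ∧ |⟪m, y⟫ - μ * ⟪n, y⟫| ≤ C₂ * ε / (9 / 10)} := by
      rintro y ⟨hy, t, ht, hR⟩
      obtain ⟨h1, h2, h3⟩ := hkey y hy t ht hR
      refine ⟨h1, ?_, ?_⟩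
      · rw [h2, abs_mul, abs_neg]
        have h4 : |t| ≤ 1 := (abs_lt.2 ⟨ht.1, ht.2⟩).le
        have h5 : |⟪n, w⟫| ≤ r := by
          refine (abs_real_inner_le_norm _ _).trans ?_
          rw [hn1, one_mul]
          exact hw.le
        calc |t| * |⟪n, w⟫| ≤ 1 * r := mul_le_mul h4 h5 (abs_nonneg _) (by norm_num)
          _ = r := one_mul r
      · have h6 : ⟪m, y⟫ - μ * ⟪n, y⟫ = ⟪m, y⟫ + t * ⟪m, w⟫ := by
          rw [h2, hμ]
          field_simp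
          ring
        rw [h6]
        exact h3
    refine (measure_mono hsub).trans
      ((slab_vol n m hn1 hm1 hnm μ r (C₂ * ε / (9 / 10)) hr0.le (by positivity)).trans ?_)
    apply ENNReal.ofReal_le_ofReal
    have : 0 < C₂ * r * ε := by positivity
    have h7 : 16 * r * (C₂ * ε / (9 / 10)) = (160 / 9) * (C₂ * r * ε) := by ring
    rw [h7]
    linarith
end Rvol

end Topping
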