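import Mathlib
import Pool.Agent.Lib.MP_bea121_gt.TC.Defs4
import Pool.Agent.Lib.MP_bea121_gt.TC.Level
import Pool.Agent.Lib.MP_bea121_gt.TC.Crude
import Pool.Agent.Lib.MP_bea121_gt.TC.Rvol
import Pool.Agent.Lib.MP_bea121_gt.TC.Ridge
import Pool.Agent.Lib.MP_bea121_gt.TC.Net
import Pool.Agent.Lib.MP_bea121_gt.TC.Near
import Pool.Agent.Lib.MP_bea121_gt.TC.Basic

/-! Module CINT: integrated crude bound over a set of directions. -/

open MeasureTheory Set Metric Topology Filter
open scoped RealInnerProductSpace Gradient ContDiff Manifold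

noncomputable section

namespace Topping

section Cint
variable {S : Type} [TopologicalSpace S] [CompactSpace S] [T2Space S] (M : MongeSurf S)

theorem netA_cont (ε : ℝ) (V : Finset S) : Continuous (M.netA ε V) := by
  rw [← continuousOn_univ]
  refine continuousOn_Amin (src (M.adj ε V)) (tgt (M.adj ε V)) univ
    (fun y v => ⟪M.pos V v, y⟫)
    (fun y e => min ⟪M.pos V (src (M.adj ε V) e), y⟫ ⟪M.pos V (tgt (M.adj ε V) e), y⟫) ?_ ?_
  · intro v
    exact (continuous_const.inner continuous_id).continuousOn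
  · intro e
    exact ((continuous_const.inner continuous_id).min
      (continuous_const.inner continuous_id)).continuousOn

theorem netA_homog (ε : ℝ) (V : Finset S) (τ : ℝ) (hτ : 0 ≤ τ) (y : E3) :
    M.netA ε V (τ • y) = τ * M.netA ε V y := by
  unfold MongeSurf.netA gA Amin
  rw [Real.mul_iInf_of_nonneg hτ]
  congr 1
  funext T
  unfold Fval
  rw [mul_sub, Finset.mul_sum, Finset.mul_sum]
  congr 1
  · refine Finset.sum_congr rfl fun v _ => ?_
    simp only [inner_smul_right]
  · refine Finset.sum_congr rfl fun e _ => ?_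
    simp only [inner_smul_right]
    rw [mul_min_of_nonneg _ _ hτ]

/-- interchange of the integrals for the positive part -/
theorem CINT_swap (D : E3 × E3 → ℝ) (hD : Continuous D) (Bd B K1 K2 : Set E3)
    (h1 : IsCompact K1) (h2 : IsCompact K2)
    (hBd1 : Bd ⊆ K1) (hB2 : B ⊆ K2) (K : ℝ) (hK : ∀ w ∈ B,
      ∫⁻ y in Bd, ENNReal.ofReal (D (y, w)) ≤ ENNReal.ofReal K) :
    ∫ y in Bd, ∫ w in B, D (y, w) ≤ (ENNReal.ofReal K * volume B).toReal := by
  have hi : IntegrableOn D (Bd ×ˢ B) (volume.prod volume) := by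
    have h3 : IntegrableOn D (K1 ×ˢ K2) (volume.prod volume) :=
      hD.continuousOn.integrableOn_compact (h1.prod h2)
    exact h3.mono_set (Set.prod_mono hBd1 hB2)
  rw [← setIntegral_prod D hi]
  have hBt : volume B ≠ ⊤ := ((measure_mono hB2).trans_lt h2.measure_lt_top).ne
  calc ∫ z in Bd ×ˢ B, D z ∂(volume.prod volume)
      ≤ ∫ z in Bd ×ˢ B, max (D z) 0 ∂(volume.prod volume) :=
        integral_mono hi hi.pos_part (fun z => le_max_left _ _)
    _ = (∫⁻ z in Bd ×ˢ B, ENNReal.ofReal (max (D z) 0) ∂(volume.prod volume)).toReal := by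
        rw [integral_eq_lintegral_of_nonneg_ae]
        · exact Eventually.of_forall fun z => le_max_right _ _
        · exact (hD.max continuous_const).aestronglyMeasurable
    _ ≤ (ENNReal.ofReal K * volume B).toReal := by
        refine ENNReal.toReal_mono (ENNReal.mul_ne_top ENNReal.ofReal_ne_top hBt) ?_
        rw [← Measure.prod_restrict, lintegral_prod_symm]
        · calc ∫⁻ w in B, ∫⁻ y in Bd, ENNReal.ofReal (max (D (y, w)) 0)
              ≤ ∫⁻ _ in B, ENNReal.ofReal K := by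
                refine setLIntegral_mono measurable_const fun w hw => ?_
                refine le_trans (le_of_eq ?_) (hK w hw)
                refine lintegral_congr fun y => ?_
                rw [ENNReal.ofReal_max]; simp
            _ = ENNReal.ofReal K * volume B := by
                rw [setLIntegral_const]
        · exact ((hD.max continuous_const).measurable.ennreal_ofReal).aemeasurable

/-- a lower bound for the radii -/
theorem CINT_radius : ∃ ρ > 0, ∀ i, ρ ≤ M.R i := by
  rcases isEmpty_or_nonempty M.ι with h | h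
  · exact ⟨1, one_pos, fun i => (h.false i).elim⟩
  · obtain ⟨i0, hi0⟩ := Finite.exists_min M.R
    exact ⟨M.R i0, M.R_pos i0, hi0⟩

/-- the inner integral for fixed `w` -/
theorem CINT_inner (ε r Cv : ℝ) (hε : 0 < ε) (hr : 0 < r) (hCv : 0 ≤ Cv) (V : Finset S)
    (Bd : Set E3) (hS : Bd ⊆ Sh) (w : E3) (hw : ‖w‖ < r)
    (hvol : ∀ e : Edge (M.adj ε V), volume {y | y ∈ Sh ∧ ∃ t ∈ Ioo (-1 : ℝ) 1,
      Ridge (M.pos V) (M.adj ε V) (src (M.adj ε V) e) (tgt (M.adj ε V) e) (y + t • w)} ≤
        ENNReal.ofReal (Cv * r * ε))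
    (N : ℝ) (hN : ∀ Rel : Finset (Edge (M.adj ε V)), (∀ e ∈ Rel, ∃ y ∈ Bd, ∃ t ∈ Ioo (-1 : ℝ) 1,
      Ridge (M.pos V) (M.adj ε V) (src (M.adj ε V) e) (tgt (M.adj ε V) e) (y + t • w)) →
        (Rel.card : ℝ) ≤ N) :
    ∫⁻ y in Bd, ENNReal.ofReal (M.netA ε V (y + w) + M.netA ε V (y - w) - 2 * M.netA ε V y) ≤
      ENNReal.ofReal (N * (10 * ε * r * (Cv * r * ε))) := by
  classical
  set Pe : Edge (M.adj ε V) → E3 → Prop := fun e y => ∃ t ∈ Ioo (-1 : ℝ) 1,
    Ridge (M.pos V) (M.adj ε V) (src (M.adj ε V) e) (tgt (M.adj ε V) e) (y + t • w) with hPe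
  set A : Edge (M.adj ε V) → Set E3 := fun e => {y | y ∈ Bd ∧ Pe e y} with hA
  set c : ENNReal := ENNReal.ofReal (10 * ε * r) with hc
  have hc0 : 0 ≤ 10 * ε * r := by positivity
  have h1 : ∀ y ∈ Bd, ENNReal.ofReal (M.netA ε V (y + w) + M.netA ε V (y - w) - 2 * M.netA ε V y) ≤
      ∑ e, (toMeasurable volume (A e)).indicator (fun _ => c) y := by
    intro y hy
    have h2 := crude (M.pos V) (M.adj ε V) y w
    calc ENNReal.ofReal (M.netA ε V (y + w) + M.netA ε V (y - w) - 2 * M.netA ε V y)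
        ≤ ENNReal.ofReal (∑ e, if Pe e y then 10 * ε * r else 0) := by
          refine ENNReal.ofReal_le_ofReal (h2.trans (Finset.sum_le_sum fun e _ => ?_))
          by_cases hP : Pe e y
          · rw [if_pos hP, if_pos hP]
            have h3 : M.near (10 * ε) ((src (M.adj ε V) e : V) : S) ((tgt (M.adj ε V) e : V) : S) := e.2.2
            have h4 := near_f M h3
            have h5 : ‖M.pos V (tgt (M.adj ε V) e) - M.pos V (src (M.adj ε V) e)‖ ≤ 10 * ε := by
              rw [norm_sub_rev]; exact h4.le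
            calc |⟪M.pos V (tgt (M.adj ε V) e) - M.pos V (src (M.adj ε V) e), w⟫|
                ≤ ‖M.pos V (tgt (M.adj ε V) e) - M.pos V (src (M.adj ε V) e)‖ * ‖w‖ :=
                  abs_real_inner_le_norm _ _
              _ ≤ 10 * ε * r := mul_le_mul h5 hw.le (norm_nonneg _) (by positivity)
          · rw [if_neg hP, if_neg hP]
      _ = ∑ e, ENNReal.ofReal (if Pe e y then 10 * ε * r else 0) := by
          refine ENNReal.ofReal_sum_of_nonneg fun e _ => ?_
          split_ifs
          · exact hc0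
          · exact le_rfl
      _ ≤ ∑ e, (toMeasurable volume (A e)).indicator (fun _ => c) y := by
          refine Finset.sum_le_sum fun e _ => ?_
          by_cases hP : Pe e y
          · rw [if_pos hP, Set.indicator_of_mem (subset_toMeasurable volume (A e) (show y ∈ A e from ⟨hy, hP⟩))]
          · rw [if_neg hP]; simp
  set Rel : Finset (Edge (M.adj ε V)) := Finset.univ.filter fun e => ∃ y ∈ Bd, Pe e y with hRel
  have hcard : (Rel.card : ℝ) ≤ N := hN Rel fun e he => (Finset.mem_filter.1 he).2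
  calc ∫⁻ y in Bd, ENNReal.ofReal (M.netA ε V (y + w) + M.netA ε V (y - w) - 2 * M.netA ε V y)
      ≤ ∫⁻ y in Bd, ∑ e, (toMeasurable volume (A e)).indicator (fun _ => c) y := by
        refine setLIntegral_mono ?_ h1
        exact Finset.measurable_sum _ fun e _ =>
          measurable_const.indicator (measurableSet_toMeasurable _ _)
    _ = ∑ e, ∫⁻ y in Bd, (toMeasurable volume (A e)).indicator (fun _ => c) y :=
        lintegral_finset_sum _ fun e _ =>
          measurable_const.indicator (measurableSet_toMeasurable _ _)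
    _ ≤ ∑ e, c * volume (A e) := by
        refine Finset.sum_le_sum fun e _ => ?_
        refine (setLIntegral_le_lintegral _ _).trans ?_
        rw [lintegral_indicator_const (measurableSet_toMeasurable _ _), measure_toMeasurable]
    _ ≤ ∑ e, if e ∈ Rel then c * ENNReal.ofReal (Cv * r * ε) else 0 := by
        refine Finset.sum_le_sum fun e _ => ?_
        by_cases he : e ∈ Rel
        · rw [if_pos he]
          gcongr
          refine le_trans (measure_mono ?_) (hvol e)
          rintro y ⟨hy, hP⟩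
          exact ⟨hS hy, hP⟩
        · rw [if_neg he]
          have : A e = ∅ := by
            rw [Set.eq_empty_iff_forall_notMem]
            rintro y ⟨hy, hP⟩
            exact he (Finset.mem_filter.2 ⟨Finset.mem_univ _, y, hy, hP⟩)
          rw [this]; simp
    _ = (Rel.card : ENNReal) * (c * ENNReal.ofReal (Cv * r * ε)) := by
        rw [← Finset.sum_filter, Finset.sum_const, nsmul_eq_mul, Finset.filter_mem_eq_inter,
          Finset.univ_inter]
    _ ≤ ENNReal.ofReal (N * (10 * ε * r * (Cv * r * ε))) := by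
        rw [hc, ← ENNReal.ofReal_mul hc0, ← ENNReal.ofReal_natCast, ← ENNReal.ofReal_mul (by positivity)]
        apply ENNReal.ofReal_le_ofReal
        gcongr

/-- number of relevant edges -/
theorem CINT_count (ε : ℝ) (hε : 0 < ε) (V : Finset S) (hV : M.IsNet ε V) (n : ℕ)
    (hn : ∀ i, ∀ z : E2, {v : V | (v : S) ∈ M.P i (4 * M.R i) ∧ ‖M.e i v - z‖ ≤ 10 * ε}.ncard ≤ n)
    (hloc : ∀ i, ∀ x x', x ∈ M.P i (3 * M.R i) → M.near (10 * ε) x x' →
      x' ∈ M.P i (4 * M.R i) ∧ ‖M.e i x - M.e i x'‖ < 10 * ε)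
    (Rel : Finset (Edge (M.adj ε V))) (Z : M.ι → Set E2) (hZt : ∀ i, volume (Z i) ≠ ⊤)
    (hRel : ∀ e ∈ Rel, ∀ i, ((src (M.adj ε V) e : V) : S) ∈ M.P i (M.R i) →
      ball (M.e i ((src (M.adj ε V) e : V) : S)) (ε / 3) ⊆ Z i) :
    (Rel.card : ℝ) ≤ n * ∑ i, 9 * (volume (Z i)).toReal / (Real.pi * ε ^ 2) := by
  classical
  set E : M.ι → Finset (Edge (M.adj ε V)) := fun i =>
    Rel.filter fun e => ((src (M.adj ε V) e : V) : S) ∈ M.P i (M.R i) with hE
  have h0 : Rel.card ≤ ∑ i, (E i).card := by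
    refine le_trans (Finset.card_le_card ?_) (Finset.card_biUnion_le (s := Finset.univ) (t := E))
    intro e he
    obtain ⟨i, hi⟩ := P_cover M ((src (M.adj ε V) e : V) : S)
    exact Finset.mem_biUnion.2 ⟨i, Finset.mem_univ _, Finset.mem_filter.2 ⟨he, hi⟩⟩
  have h1 : ∀ i, (E i).card ≤ n * ((E i).image (src (M.adj ε V))).card := by
    intro i
    refine Finset.card_le_mul_card_image (E i) n fun u hu => ?_
    refine le_trans ?_ (hn i (M.e i (u : S)))
    rw [← Set.ncard_coe_finset]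
    refine Set.ncard_le_ncard_of_injOn (tgt (M.adj ε V)) ?_ ?_ (Set.toFinite _)
    · intro e he
      rw [Finset.mem_coe, Finset.mem_filter] at he
      obtain ⟨he1, he2⟩ := he
      have he3 := (Finset.mem_filter.1 he1).2
      have hR := M.R_pos i
      have h3 := hloc i ((src (M.adj ε V) e : V) : S) ((tgt (M.adj ε V) e : V) : S)
        (P_mono M i (by linarith) he3) e.2.2
      refine ⟨h3.1, ?_⟩
      rw [← he2, norm_sub_rev]
      exact h3.2.le
    · intro e he e' he' hee
      rw [Finset.mem_coe, Finset.mem_filter] at he he'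
      apply Subtype.ext
      exact Prod.ext (he.2.trans he'.2.symm) hee
  have h2 : ∀ i, (((E i).image (src (M.adj ε V))).card : ℝ) ≤
      9 * (volume (Z i)).toReal / (Real.pi * ε ^ 2) := by
    intro i
    have hR := M.R_pos i
    have h3 := net_vol M hε hV i ((E i).image (src (M.adj ε V))) (by
      intro v hv
      obtain ⟨e, he, rfl⟩ := Finset.mem_image.1 hv
      exact P_mono M i (by linarith) (Finset.mem_filter.1 he).2) (Z i) (by
      intro v hv
      obtain ⟨e, he, rfl⟩ := Finset.mem_image.1 hv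
      exact hRel e (Finset.mem_filter.1 he).1 i (Finset.mem_filter.1 he).2)
    rw [ENNReal.ofReal_le_iff_le_toReal (hZt i)] at h3
    rw [le_div_iff₀ (by positivity)]
    linarith
  calc (Rel.card : ℝ) ≤ ((∑ i, (E i).card : ℕ) : ℝ) := by exact_mod_cast h0
    _ = ∑ i, ((E i).card : ℝ) := by push_cast; rfl
    _ ≤ ∑ i, (n : ℝ) * (9 * (volume (Z i)).toReal / (Real.pi * ε ^ 2)) := by
        refine Finset.sum_le_sum fun i _ => ?_
        calc ((E i).card : ℝ) ≤ (n : ℝ) * (((E i).image (src (M.adj ε V))).card : ℝ) := by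
              exact_mod_cast h1 i
          _ ≤ _ := by gcongr; exact h2 i
    _ = _ := by rw [Finset.mul_sum]

theorem crude_int : ∃ C > 0, ∀ r, 0 < r → r < 1 / 2 → ∃ ε₀ > 0, ∀ ε, 0 < ε → ε < ε₀ →
    ∀ V : Finset S, M.IsNet ε V → ∀ Bd : Set E3, MeasurableSet Bd → Bd ⊆ Sh →
      ∫ y in Bd, ∫ w in ball (0 : E3) r, (M.netA ε V (y + w) + M.netA ε V (y - w) - 2 * M.netA ε V y) ≤
        C * r ^ 5 * ∑ i, (volume {z | z ∈ ball (0 : E2) (4 * M.R i) ∧ ∃ y ∈ Bd, ‖M.Phi i z y‖ ≤ 3 * r}).toReal := by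
  classical
  obtain ⟨Cv, hCv, hRV⟩ := ridge_volume M
  obtain ⟨ε1, hε1, C2, hC2, hRB⟩ := ridge_bound M
  obtain ⟨δ0, hδ0, hNL⟩ := near_loc M
  obtain ⟨n, hn⟩ := net_pack M 10 (by norm_num)
  obtain ⟨ρ, hρ, hρR⟩ := CINT_radius M
  refine ⟨120 * n * Cv + 1, by positivity, ?_⟩
  intro r hr hr2
  obtain ⟨ε2, hε2, hRV2⟩ := hRV r hr hr2
  have hκ : 0 < M.κ := lt_of_lt_of_le one_pos M.κ_one
  refine ⟨min (min ε1 (δ0 / 10)) (min ε2 (min ρ (r / (C2 + M.κ)))), by positivity, ?_⟩
  intro ε hε hεlt V hV Bd hBd hBdS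
  have hlt1 : ε < ε1 := lt_of_lt_of_le hεlt ((min_le_left _ _).trans (min_le_left _ _))
  have hlt2 : ε < δ0 / 10 := lt_of_lt_of_le hεlt ((min_le_left _ _).trans (min_le_right _ _))
  have hlt3 : ε < ε2 := lt_of_lt_of_le hεlt ((min_le_right _ _).trans (min_le_left _ _))
  have hlt4 : ε < ρ := lt_of_lt_of_le hεlt
    ((min_le_right _ _).trans ((min_le_right _ _).trans (min_le_left _ _)))
  have hlt5 : ε < r / (C2 + M.κ) := lt_of_lt_of_le hεlt
    ((min_le_right _ _).trans ((min_le_right _ _).trans (min_le_right _ _)))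
  have hlt6 : ε * (C2 + M.κ) < r := (lt_div_iff₀ (by positivity)).1 hlt5
  set Z : M.ι → Set E2 := fun i =>
    {z | z ∈ ball (0 : E2) (4 * M.R i) ∧ ∃ y ∈ Bd, ‖M.Phi i z y‖ ≤ 3 * r} with hZ
  have hZt : ∀ i, volume (Z i) ≠ ⊤ := fun i =>
    ((measure_mono (fun z hz => hz.1)).trans_lt (measure_ball_lt_top (x := (0 : E2)) (r := 4 * M.R i))).ne
  set N : ℝ := n * ∑ i, 9 * (volume (Z i)).toReal / (Real.pi * ε ^ 2) with hN
  have hShn : ∀ y ∈ Sh, ‖y‖ ≤ 2 := fun y hy => hy.2
  have key : ∀ w ∈ ball (0 : E3) r,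
      ∫⁻ y in Bd, ENNReal.ofReal (M.netA ε V (y + w) + M.netA ε V (y - w) - 2 * M.netA ε V y) ≤
      ENNReal.ofReal (N * (10 * ε * r * (Cv * r * ε))) := by
    intro w hw
    have hwr : ‖w‖ < r := by simpa using hw
    refine CINT_inner M ε r Cv hε hr hCv.le V Bd hBdS w hwr
      (fun e => hRV2 ε hε hlt3 V hV _ _ e.2 w hwr) N ?_
    intro Rel hRel
    refine CINT_count M ε hε V hV n (fun i z => hn ε hε V hV i z)
      (fun i x x' hx hxx => hNL (10 * ε) (by positivity) (by linarith) i x x' hx hxx) Rel Z hZt ?_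
    intro e he i hi z hz
    obtain ⟨y, hy, t, ht, hrid⟩ := hRel e he
    have hR := M.R_pos i
    have hy2 := hShn y (hBdS hy)
    have htw : ‖t • w‖ ≤ r := by
      rw [norm_smul, Real.norm_eq_abs]
      have h1 : |t| ≤ 1 := (abs_lt.2 ht).le
      calc |t| * ‖w‖ ≤ 1 * r := mul_le_mul h1 hwr.le (norm_nonneg _) zero_le_one
        _ = r := one_mul r
    have hη : ‖y + t • w‖ ≤ 3 := (norm_add_le _ _).trans (by linarith)
    have h1 := hRB ε hε hlt1 V hV (src (M.adj ε V) e) (tgt (M.adj ε V) e) e.2 i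
      (P_mono M i (by linarith) hi) (y + t • w) hη hrid
    rw [Phi_add] at h1
    have h2 := Phi_norm M i (M.e i ((src (M.adj ε V) e : V) : S)) (t • w)
    have h3 : ‖M.Phi i (M.e i ((src (M.adj ε V) e : V) : S)) y‖ ≤ C2 * ε + (11 / 10) * r := by
      calc ‖M.Phi i (M.e i ((src (M.adj ε V) e : V) : S)) y‖
          = ‖(M.Phi i (M.e i ((src (M.adj ε V) e : V) : S)) y + M.Phi i (M.e i ((src (M.adj ε V) e : V) : S)) (t • w))
            - M.Phi i (M.e i ((src (M.adj ε V) e : V) : S)) (t • w)‖ := by rw [add_sub_cancel_right]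
        _ ≤ C2 * ε + (11 / 10) * r := by
            refine (norm_sub_le _ _).trans (add_le_add h1 ?_)
            linarith
    have h4 := Phi_lip M i z (M.e i ((src (M.adj ε V) e : V) : S)) y
    have hz2 : ‖z - M.e i ((src (M.adj ε V) e : V) : S)‖ < ε / 3 := by
      rw [← dist_eq_norm]; exact hz
    have h5 : M.κ * ‖y‖ * ‖z - M.e i ((src (M.adj ε V) e : V) : S)‖ ≤ M.κ * 2 * (ε / 3) := by
      gcongr
    refine ⟨?_, y, hy, ?_⟩
    · have h6 := (symm_e M i hi).2
      rw [mem_ball_zero_iff] at h6 ⊢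
      have h7 : ‖z‖ ≤ ‖z - M.e i ((src (M.adj ε V) e : V) : S)‖ + ‖M.e i ((src (M.adj ε V) e : V) : S)‖ := by
        simpa using norm_add_le (z - M.e i ((src (M.adj ε V) e : V) : S)) (M.e i ((src (M.adj ε V) e : V) : S))
      have h8 := hρR i
      linarith
    · have h6 : ‖M.Phi i z y‖ ≤ ‖M.Phi i z y - M.Phi i (M.e i ((src (M.adj ε V) e : V) : S)) y‖ +
          ‖M.Phi i (M.e i ((src (M.adj ε V) e : V) : S)) y‖ := by
        simpa using norm_add_le (M.Phi i z y - M.Phi i (M.e i ((src (M.adj ε V) e : V) : S)) y)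
          (M.Phi i (M.e i ((src (M.adj ε V) e : V) : S)) y)
      nlinarith
  have hcont : Continuous (fun z : E3 × E3 =>
      M.netA ε V (z.1 + z.2) + M.netA ε V (z.1 - z.2) - 2 * M.netA ε V z.1) := by
    have h1 := netA_cont M ε V
    exact ((h1.comp (continuous_fst.add continuous_snd)).add
      (h1.comp (continuous_fst.sub continuous_snd))).sub
      (continuous_const.mul (h1.comp continuous_fst))
  have hmain := CINT_swap (fun z : E3 × E3 =>
      M.netA ε V (z.1 + z.2) + M.netA ε V (z.1 - z.2) - 2 * M.netA ε V z.1) hcont Bd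
      (ball (0 : E3) r) (closedBall 0 2) (closedBall 0 r) (isCompact_closedBall _ _)
      (isCompact_closedBall _ _) (fun y hy => by simpa using hShn y (hBdS hy)) ball_subset_closedBall
      (N * (10 * ε * r * (Cv * r * ε))) key
  refine hmain.trans ?_
  have hsum0 : 0 ≤ ∑ i, (volume (Z i)).toReal := Finset.sum_nonneg fun i _ => ENNReal.toReal_nonneg
  have hN0 : N = n * (9 / (Real.pi * ε ^ 2) * ∑ i, (volume (Z i)).toReal) := by
    have h1 : ∑ i, 9 * (volume (Z i)).toReal / (Real.pi * ε ^ 2) =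
        9 / (Real.pi * ε ^ 2) * ∑ i, (volume (Z i)).toReal := by
      rw [Finset.mul_sum]
      refine Finset.sum_congr rfl fun i _ => ?_
      ring
    rw [hN, h1]
  have hpi := Real.pi_pos
  have hK0 : 0 ≤ N * (10 * ε * r * (Cv * r * ε)) := by rw [hN0]; positivity
  have hp3 : 0 ≤ Real.pi * 4 / 3 := by positivity
  rw [EuclideanSpace.volume_ball_fin_three, ENNReal.toReal_mul, ENNReal.toReal_mul,
    ENNReal.toReal_pow, ENNReal.toReal_ofReal hr.le, ENNReal.toReal_ofReal hp3,
    ENNReal.toReal_ofReal hK0, hN0]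
  have e1 : ↑n * (9 / (Real.pi * ε ^ 2) * ∑ i, (volume (Z i)).toReal) * (10 * ε * r * (Cv * r * ε)) *
      (r ^ 3 * (Real.pi * 4 / 3)) = (120 * n * Cv) * r ^ 5 * ∑ i, (volume (Z i)).toReal := by
    field_simp
    ring
  rw [e1]
  gcongr
  linarith

end Cint

end Topping
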