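import Mathlib
import Pool.Agent.Lib.MP_bea121_gt.TC.Near
import Pool.Agent.Lib.MP_bea121_gt.TC.Count
import Pool.Agent.Lib.MP_bea121_gt.TC.Basic

/-!
# Lower bound for the number of components off critical levels (MP_bea121_gt, module CLOW)
-/

open MeasureTheory Set Metric Topology Filter
open scoped RealInnerProductSpace Gradient ContDiff Manifold

noncomputable section

namespace Topping

section Clow

/-- A lower bound for the height of a nearby point. -/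
theorem clow_height {S : Type} [TopologicalSpace S] (M : MongeSurf S) (x x' : S) (y : E3) (r : ℝ)
    (hy : ‖y‖ ≤ 3) (h : ‖M.f x - M.f x'‖ ≤ r) : ⟪M.f x', y⟫ - 3 * r ≤ ⟪M.f x, y⟫ := by
  have h1 : ⟪M.f x', y⟫ - ⟪M.f x, y⟫ = ⟪M.f x' - M.f x, y⟫ := by rw [inner_sub_left]
  have h2 : ⟪M.f x' - M.f x, y⟫ ≤ ‖M.f x' - M.f x‖ * ‖y‖ := real_inner_le_norm _ _
  have h3 : ‖M.f x' - M.f x‖ * ‖y‖ ≤ r * 3 := by
    apply mul_le_mul _ hy (norm_nonneg _) (le_trans (norm_nonneg _) h)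
    rw [norm_sub_rev]; exact h
  linarith

variable {S : Type} [TopologicalSpace S] [CompactSpace S] [T2Space S] {M : MongeSurf S} {y₀ : E3} (D : CritData M y₀)

theorem conv_lower (u v : D.Sd → D.Mx) (ρ' : ℝ) (h1 : ρ' ≤ D.ρ)
    (ht : ∀ y ∈ ball y₀ ρ', D.TopoAt u v y) (δ : ℝ) (hδ : 0 < δ) :
    ∃ ε₀ > 0, ∀ ε, 0 < ε → ε < ε₀ → ∀ V : Finset S, M.IsNet ε V → ∀ y ∈ ball y₀ ρ', ∀ c : ℝ,
      (∀ k : D.N, δ ≤ |c - D.val k y|) →
      {k : D.Mx | c ≤ D.val k y}.ncard + rk (src (M.adj ε V)) (tgt (M.adj ε V))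
          (fun e => min ⟪M.pos V (src (M.adj ε V) e), y⟫ ⟪M.pos V (tgt (M.adj ε V) e), y⟫) c ≤
        {v : V | c ≤ ⟪M.pos V v, y⟫}.ncard + rk u v (fun j : D.Sd => D.val j y) c := by
  classical
  refine ⟨δ / 61, by positivity, ?_⟩
  intro ε hε hε0 V hV y hy c hc
  have hεd : 60 * ε < δ := by
    have := (lt_div_iff₀ (by norm_num : (0 : ℝ) < 61)).1 hε0
    linarith
  have hyD : y ∈ ball y₀ D.ρ := ball_subset_ball h1 hy
  have hyn : ‖y‖ ≤ 3 := (D.y_norm y hyD).2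
  have hT := ht y hy
  have hgap0 : ∀ k : D.N, c ≤ D.val k y → c + δ ≤ D.val k y := by
    intro k hk
    have := hc k
    rcases le_abs.1 this with h | h <;> linarith
  have hgap1 : ∀ k : D.N, c - 60 * ε ≤ D.val k y → c ≤ D.val k y := by
    intro k hk
    have := hc k
    rcases le_abs.1 this with h | h <;> linarith
  have hvp : ∀ k : D.N, D.val k y = ⟪M.f (D.pt k y), y⟫ := fun k => (val_eq M D k y hyD).1
  have hspan : eSpan u v (fun j : D.Sd => c - 60 * ε ≤ D.val j y) ≤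
      eSpan u v (fun j : D.Sd => c ≤ D.val j y) := by
    apply Submodule.span_mono
    rintro x ⟨j, hj, rfl⟩
    exact ⟨j, hgap1 j hj, rfl⟩
  have hfact : ∀ k k' : D.Mx, (∃ C : Set S, IsPreconnected C ∧
      (∀ x' ∈ C, c - 60 * ε ≤ ⟪M.f x', y⟫) ∧ D.pt k y ∈ C ∧ D.pt k' y ∈ C) →
      dv k k' ∈ eSpan u v (fun j : D.Sd => c ≤ D.val j y) :=
    fun k k' h => hspan (hT.fact (c - 60 * ε) k k' h)
  have hlink : ∀ j : D.Sd, c ≤ D.val j y → c ≤ D.val (u j) y ∧ c ≤ D.val (v j) y := by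
    intro j hj
    obtain ⟨C, -, hC, hu, hv⟩ := hT.link j
    have a1 := hC _ hu
    have a2 := hC _ hv
    rw [← hvp] at a1 a2
    exact ⟨hj.trans a1, hj.trans a2⟩
  have hclsx : ∀ w : V, ∃ k : D.Mx, ∃ C : Set S, IsPreconnected C ∧
      (∀ x' ∈ C, min c ⟪M.f (w : S), y⟫ ≤ ⟪M.f x', y⟫) ∧ (w : S) ∈ C ∧ D.pt k y ∈ C :=
    fun w => hT.toMax _ _ (min_le_right _ _)
  choose cls Cw hCw1 hCw2 hCw3 hCw4 using hclsx
  have hCw2' : ∀ w : V, c ≤ ⟪M.f (w : S), y⟫ → ∀ x' ∈ Cw w, c ≤ ⟪M.f x', y⟫ := by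
    intro w hw x' hx'
    have := hCw2 w x' hx'
    rwa [min_eq_left hw] at this
  have key := count_lower (src (M.adj ε V)) (tgt (M.adj ε V)) (fun v : V => ⟪M.pos V v, y⟫)
    (fun e => min ⟪M.pos V (src (M.adj ε V) e), y⟫ ⟪M.pos V (tgt (M.adj ε V) e), y⟫) c
    (fun j => ⟨min_le_left _ _, min_le_right _ _⟩) u v (fun k : D.Mx => c ≤ D.val k y)
    (fun j : D.Sd => c ≤ D.val j y) hlink cls ?_ ?_
  · exact key
  · intro e he
    have ha : c ≤ ⟪M.f ((src (M.adj ε V) e : V) : S), y⟫ := he.trans (min_le_left _ _)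
    have hb : c ≤ ⟪M.f ((tgt (M.adj ε V) e : V) : S), y⟫ := he.trans (min_le_right _ _)
    have hn : M.near (10 * ε) ((src (M.adj ε V) e : V) : S) ((tgt (M.adj ε V) e : V) : S) := e.2.2
    obtain ⟨C, hC1, hC2, hC3, hC4⟩ := near_seg M hn
    have hp1 : IsPreconnected (Cw (src (M.adj ε V) e) ∪ C) :=
      (hCw1 _).union _ (hCw3 _) hC2 hC1
    have hp2 : IsPreconnected ((Cw (src (M.adj ε V) e) ∪ C) ∪ Cw (tgt (M.adj ε V) e)) :=
      hp1.union ((tgt (M.adj ε V) e : V) : S) (Or.inr hC3) (hCw3 _) (hCw1 _)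
    refine hfact _ _ ⟨_, hp2, ?_, Or.inl (Or.inl (hCw4 _)), Or.inr (hCw4 _)⟩
    rintro x ((hx | hx) | hx)
    · have := hCw2' _ ha x hx
      linarith
    · have := clow_height M x ((src (M.adj ε V) e : V) : S) y (2 * (10 * ε)) hyn (hC4 x hx)
      linarith
    · have := hCw2' _ hb x hx
      linarith
  · intro k hk
    have hkc := hgap0 k hk
    obtain ⟨w, hw, hn⟩ := hV.dense (D.pt k y)
    have hwh : ⟪M.f (D.pt k y), y⟫ - 3 * ε ≤ ⟪M.f w, y⟫ :=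
      clow_height M w (D.pt k y) y ε hyn (by rw [norm_sub_rev]; exact (near_f M hn).le)
    rw [← hvp] at hwh
    have hwc : c ≤ ⟪M.f w, y⟫ := by linarith
    refine ⟨⟨w, hw⟩, hwc, ?_⟩
    obtain ⟨C, hC1, hC2, hC3, hC4⟩ := near_seg M hn
    have hp : IsPreconnected (Cw ⟨w, hw⟩ ∪ C) := (hCw1 _).union w (hCw3 ⟨w, hw⟩) hC3 hC1
    refine hfact _ _ ⟨_, hp, ?_, Or.inl (hCw4 _), Or.inr hC2⟩
    rintro x (hx | hx)
    · have := hCw2' ⟨w, hw⟩ hwc x hx
      linarith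
    · have := clow_height M x (D.pt k y) y (2 * ε) hyn (hC4 x hx)
      rw [← hvp] at this
      linarith

end Clow

end Topping
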