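import Mathlib
import Pool.Agent.Lib.MP_bea121_gt.TC.Defs4
import Pool.Agent.Lib.MP_bea121_gt.TC.Basic
import Pool.Agent.Lib.MP_bea121_gt.TC.Near
import Pool.Agent.Lib.MP_bea121_gt.TC.Net

/-!
# A connected superlevel set gives a path in the net graph (MP_bea121_gt, module PATH)
-/

open MeasureTheory Set Metric Topology Filter
open scoped RealInnerProductSpace Gradient ContDiff Manifold

noncomputable section

namespace Topping

section Path
variable {S : Type} [TopologicalSpace S] [CompactSpace S] [T2Space S] (M : MongeSurf S)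

theorem PATH_dv_add {V : Type} (u v w : V) : dv u v + dv v w = dv u w := by
  simp [dv]

theorem PATH_dv_self {V : Type} (u : V) : dv u u = 0 := by
  simp [dv]

theorem PATH_inner_le {a b y : E3} {c ε : ℝ} (hy : ‖y‖ ≤ 3) (hε : 0 ≤ ε) (hab : ‖a - b‖ < ε)
    (ha : c + 3 * ε ≤ ⟪a, y⟫) : c ≤ ⟪b, y⟫ := by
  have h1 : ⟪a - b, y⟫ ≤ ‖a - b‖ * ‖y‖ := real_inner_le_norm _ _
  rw [inner_sub_left] at h1
  have h2 : ‖a - b‖ * ‖y‖ ≤ ε * 3 := mul_le_mul hab.le hy (norm_nonneg _) hε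
  linarith

theorem net_path : ∃ ε₀ > 0, ∀ ε, 0 < ε → ε < ε₀ → ∀ V : Finset S, M.IsNet ε V → ∀ (y : E3) (c : ℝ)
    (C : Set S), ‖y‖ ≤ 3 → IsPreconnected C → (∀ x ∈ C, c + 3 * ε ≤ ⟪M.f x, y⟫) →
    ∀ v v' : V, ∀ x ∈ C, ∀ x' ∈ C, M.near ε x v → M.near ε x' v' →
      dv v v' ∈ eSpan (src (M.adj ε V)) (tgt (M.adj ε V))
        (fun e => c ≤ min ⟪M.pos V (src (M.adj ε V) e), y⟫ ⟪M.pos V (tgt (M.adj ε V) e), y⟫) := by
  obtain ⟨δ₀, hδ₀, htr⟩ := near_trans M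
  refine ⟨δ₀ / 2, by positivity, ?_⟩
  intro ε hε hε2 V hV y c C hy hC hCc v v' x hx x' hx' hxv hxv'
  set E := eSpan (src (M.adj ε V)) (tgt (M.adj ε V))
    (fun e => c ≤ min ⟪M.pos V (src (M.adj ε V) e), y⟫ ⟪M.pos V (tgt (M.adj ε V) e), y⟫) with hE
  have hstep : ∀ x₁ ∈ C, ∀ w w' : V, M.near ε x₁ w → M.near ε x₁ w' → dv w w' ∈ E := by
    intro x₁ hx₁ w w' hw hw'
    by_cases hww : w = w'
    · subst hww
      rw [PATH_dv_self]
      exact Submodule.zero_mem _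
    · have h1 : M.near (ε + ε) (w : S) (w' : S) :=
        htr ε ε hε hε (by linarith) _ _ _ (near_symm M hw) hw'
      have h2 : M.near (10 * ε) (w : S) (w' : S) := near_mono M (by linarith) h1
      have hadj : M.adj ε V w w' := ⟨hww, h2⟩
      refine Submodule.subset_span ⟨⟨(w, w'), hadj⟩, ?_, rfl⟩
      simp only [src, tgt, MongeSurf.pos]
      refine le_min ?_ ?_
      · exact PATH_inner_le hy hε.le (near_f M hw) (hCc x₁ hx₁)
      · exact PATH_inner_le hy hε.le (near_f M hw') (hCc x₁ hx₁)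
  set U : Set S := {x₁ | ∃ w : V, M.near ε x₁ w ∧ dv v w ∈ E} with hU
  set W : Set S := {x₁ | ∃ w : V, M.near ε x₁ w ∧ dv v w ∉ E} with hW
  have hUo : IsOpen U := by
    have : U = ⋃ w : V, ⋃ (_ : dv v w ∈ E), {x₁ | M.near ε x₁ w} := by
      ext x₁
      simp only [hU, mem_iUnion]
      constructor
      · rintro ⟨w, h1, h2⟩; exact ⟨w, h2, h1⟩
      · rintro ⟨w, h2, h1⟩; exact ⟨w, h1, h2⟩
    rw [this]
    exact isOpen_iUnion fun w => isOpen_iUnion fun _ => near_open M ε w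
  have hWo : IsOpen W := by
    have : W = ⋃ w : V, ⋃ (_ : dv v w ∉ E), {x₁ | M.near ε x₁ w} := by
      ext x₁
      simp only [hW, mem_iUnion]
      constructor
      · rintro ⟨w, h1, h2⟩; exact ⟨w, h2, h1⟩
      · rintro ⟨w, h2, h1⟩; exact ⟨w, h1, h2⟩
    rw [this]
    exact isOpen_iUnion fun w => isOpen_iUnion fun _ => near_open M ε w
  have hcov : C ⊆ U ∪ W := by
    intro x₁ _
    obtain ⟨w, hw, hn⟩ := hV.dense x₁
    by_cases h : dv v (⟨w, hw⟩ : V) ∈ E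
    · exact Or.inl ⟨⟨w, hw⟩, hn, h⟩
    · exact Or.inr ⟨⟨w, hw⟩, hn, h⟩
  by_contra hcon
  have h1 : (C ∩ U).Nonempty := ⟨x, hx, v, hxv, by rw [PATH_dv_self]; exact Submodule.zero_mem _⟩
  have h2 : (C ∩ W).Nonempty := ⟨x', hx', v', hxv', hcon⟩
  obtain ⟨x₁, hx₁, ⟨w, hw, hwE⟩, ⟨w', hw', hwE'⟩⟩ := hC U W hUo hWo hcov h1 h2
  apply hwE'
  rw [← PATH_dv_add v w w']
  exact Submodule.add_mem _ hwE (hstep x₁ hx₁ w w' hw hw')

theorem net_conn [ConnectedSpace S] : ∃ ε₀ > 0, ∀ ε, 0 < ε → ε < ε₀ → ∀ V : Finset S, M.IsNet ε V →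
    Conn (src (M.adj ε V)) (tgt (M.adj ε V)) ∧ Nonempty V := by
  obtain ⟨ε₀, hε₀, h⟩ := net_path M
  refine ⟨ε₀, hε₀, fun ε hε hε2 V hV => ⟨fun v v' => ?_, ?_⟩⟩
  · have h1 := h ε hε hε2 V hV 0 (-(3 * ε)) univ (by simp) isPreconnected_univ
      (fun x _ => by simp) v v' v (mem_univ _) v' (mem_univ _) (near_refl M hε _) (near_refl M hε _)
    refine Submodule.span_mono ?_ h1
    rintro z ⟨j, -, hj⟩
    exact ⟨j, trivial, hj⟩
  · obtain ⟨x₀⟩ : Nonempty S := inferInstance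
    obtain ⟨w, hw, -⟩ := hV.dense x₀
    exact ⟨⟨w, hw⟩⟩
end Path

end Topping
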