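import Mathlib
import Pool.Agent.Lib.MP_bea121_gt.TC.Ctop
import Pool.Agent.Lib.MP_bea121_gt.TC.Path
import Pool.Agent.Lib.MP_bea121_gt.TC.Near
import Pool.Agent.Lib.MP_bea121_gt.TC.Net
import Pool.Agent.Lib.MP_bea121_gt.TC.Count
import Pool.Agent.Lib.MP_bea121_gt.TC.Basic

/-!
# Upper bound for the number of components off critical levels (MP_bea121_gt, module CUP)
-/

open MeasureTheory Set Metric Topology Filter
open scoped RealInnerProductSpace Gradient ContDiff Manifold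

noncomputable section

namespace Topping

section Cup

theorem cup_dv_add {V : Type} (a b c : V) : dv a b + dv b c = dv a c := by
  unfold dv; abel

/-- A maximal independent family of edges of level at least `c`. -/
theorem cup_indep {V J : Type} [Fintype V] [Fintype J] (s t : J → V) (b : J → ℝ) (c : ℝ) :
    ∃ T : Finset J, LinearIndepOn ℝ (fun k => dv (s k) (t k)) (T : Set J) ∧ (∀ k ∈ T, c ≤ b k) ∧
      T.card = rk s t b c := by
  classical
  obtain ⟨B, hB1, -, hB2, hB3⟩ := exists_linearIndepOn_extension (K := ℝ)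
    (v := fun k => dv (s k) (t k)) (s := (∅ : Set J)) (t := {j | c ≤ b j})
    (linearIndepOn_empty ℝ _) (empty_subset _)
  refine ⟨B.toFinite.toFinset, ?_, ?_, ?_⟩
  · rw [Set.Finite.coe_toFinset]; exact hB3
  · intro k hk
    rw [Set.Finite.mem_toFinset] at hk
    exact hB1 hk
  · unfold rk
    have h1 : eSpan s t (fun j => c ≤ b j) = Submodule.span ℝ (range (fun x : B => dv (s x) (t x))) := by
      apply le_antisymm
      · unfold eSpan
        rw [Submodule.span_le]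
        rintro x ⟨j, hj, rfl⟩
        have := hB2 ⟨j, hj, rfl⟩
        rwa [Set.image_eq_range] at this
      · rw [Submodule.span_le]
        rintro _ ⟨⟨j, hj⟩, rfl⟩
        exact Submodule.subset_span ⟨j, hB1 hj, rfl⟩
    rw [h1, finrank_span_eq_card hB3, ← Set.toFinset_card, Set.Finite.toFinset_eq_toFinset]

/-- A lower bound for the height of a nearby point. -/
theorem cup_height {S : Type} [TopologicalSpace S] (M : MongeSurf S) (x x' : S) (y : E3) (r : ℝ)
    (hy : ‖y‖ ≤ 3) (h : ‖M.f x - M.f x'‖ ≤ r) : ⟪M.f x', y⟫ - 3 * r ≤ ⟪M.f x, y⟫ := by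
  have h1 : ⟪M.f x', y⟫ - ⟪M.f x, y⟫ = ⟪M.f x' - M.f x, y⟫ := by rw [inner_sub_left]
  have h2 : ⟪M.f x' - M.f x, y⟫ ≤ ‖M.f x' - M.f x‖ * ‖y‖ := real_inner_le_norm _ _
  have h3 : ‖M.f x' - M.f x‖ * ‖y‖ ≤ r * 3 := by
    apply mul_le_mul _ hy (norm_nonneg _) (le_trans (norm_nonneg _) h)
    rw [norm_sub_rev]; exact h
  linarith

variable {S : Type} [TopologicalSpace S] [CompactSpace S] [T2Space S] {M : MongeSurf S} {y₀ : E3} (D : CritData M y₀)

theorem conv_upper (u v : D.Sd → D.Mx) (ρ' : ℝ) (h1 : ρ' ≤ D.ρ)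
    (ht : ∀ y ∈ ball y₀ ρ', D.TopoAt u v y) (δ : ℝ) (hδ : 0 < δ) :
    ∃ ε₀ > 0, ∀ ε, 0 < ε → ε < ε₀ → ∀ V : Finset S, M.IsNet ε V → ∀ y ∈ ball y₀ ρ', ∀ c : ℝ,
      (∀ k : D.N, δ ≤ |c - D.val k y|) →
      {v : V | c ≤ ⟪M.pos V v, y⟫}.ncard + rk u v (fun j : D.Sd => D.val j y) c ≤
        rk (src (M.adj ε V)) (tgt (M.adj ε V))
          (fun e => min ⟪M.pos V (src (M.adj ε V) e), y⟫ ⟪M.pos V (tgt (M.adj ε V) e), y⟫) c +
        {k : D.Mx | c ≤ D.val k y}.ncard := by
  classical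
  obtain ⟨ε1, hε1, C3, hC3, hclimb⟩ := conv_climb D
  obtain ⟨ε2, hε2, hpath⟩ := net_path M
  refine ⟨min (min ε1 ε2) (δ / (20 * C3 + 4)), by positivity, ?_⟩
  intro ε hε hε0 V hV y hy c hc
  have hεa : ε < ε1 := lt_of_lt_of_le hε0 ((min_le_left _ _).trans (min_le_left _ _))
  have hεb : ε < ε2 := lt_of_lt_of_le hε0 ((min_le_left _ _).trans (min_le_right _ _))
  have hεc : ε * (20 * C3 + 4) < δ := by
    have := lt_of_lt_of_le hε0 (min_le_right _ _)
    rwa [lt_div_iff₀ (by positivity)] at this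
  have hCe : 0 < C3 * ε := by positivity
  have hyD : y ∈ ball y₀ D.ρ := ball_subset_ball h1 hy
  have hyn : ‖y‖ ≤ 3 := (D.y_norm y hyD).2
  have hT := ht y hy
  have hgap : ∀ k : D.N, c < D.val k y + δ → c + δ ≤ D.val k y := by
    intro k hk
    have := hc k
    rcases le_abs.1 this with h | h <;> linarith
  have hgap0 : ∀ k : D.N, c ≤ D.val k y → c + δ ≤ D.val k y := fun k hk => hgap k (by linarith)
  have hvp : ∀ k : D.N, D.val k y = ⟪M.f (D.pt k y), y⟫ := fun k => (val_eq M D k y hyD).1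
  -- levels of the maxima joined by a saddle
  have hlink : ∀ j : D.Sd, c ≤ D.val j y → c ≤ D.val (u j) y ∧ c ≤ D.val (v j) y := by
    intro j hj
    obtain ⟨C, -, hC, hu, hv⟩ := hT.link j
    have a1 := hC _ hu
    have a2 := hC _ hv
    rw [← hvp] at a1 a2
    exact ⟨hj.trans a1, hj.trans a2⟩
  -- representatives
  have hrepx : ∀ k : D.Mx, ∃ w : V, M.near ε (D.pt k y) (w : S) := by
    intro k
    obtain ⟨w, hw, hn⟩ := hV.dense (D.pt k y)
    exact ⟨⟨w, hw⟩, hn⟩
  choose rep hrepn using hrepx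
  obtain ⟨T, hT1, hT2, hT3⟩ := cup_indep u v (fun j : D.Sd => D.val j y) c
  have key := count_upper (src (M.adj ε V)) (tgt (M.adj ε V)) (fun v : V => ⟪M.pos V v, y⟫)
    (fun e => min ⟪M.pos V (src (M.adj ε V) e), y⟫ ⟪M.pos V (tgt (M.adj ε V) e), y⟫) c
    (fun j => ⟨min_le_left _ _, min_le_right _ _⟩) u v (fun k : D.Mx => c ≤ D.val k y) T hT1
    (fun k hk => hlink k (hT2 k hk)) rep ?_ ?_ ?_
  · rw [← hT3]; exact key
  · intro k hk
    have hk' := hgap0 k hk
    have h2 : ‖M.f (rep k : S) - M.f (D.pt k y)‖ ≤ ε := by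
      rw [norm_sub_rev]; exact (near_f M (hrepn k)).le
    have h3 := cup_height M (rep k : S) (D.pt k y) y ε hyn h2
    rw [← hvp] at h3
    have : ⟪M.pos V (rep k), y⟫ = ⟪M.f (rep k : S), y⟫ := rfl
    rw [this]
    nlinarith
  · intro w hw
    obtain ⟨t, ht1, ht2, k, htP, -, htn⟩ := hclimb ε hε hεa V hV y hyD c w hw
    have hn1 : ‖M.f (t : S) - M.f (D.pt k y)‖ ≤ 2 * C3 * ε := (near_f M htn).le
    have h3 := cup_height M (D.pt k y) (t : S) y (2 * C3 * ε) hyn (by rw [norm_sub_rev]; exact hn1)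
    rw [← hvp] at h3
    have hw' : c ≤ ⟪M.f (w : S), y⟫ := hw
    have hkc : c + δ ≤ D.val k y := hgap k (by nlinarith)
    have h4 := cup_height M (t : S) (D.pt k y) y (2 * C3 * ε) hyn hn1
    rw [← hvp] at h4
    obtain ⟨k', C, hC1, hC2, hC3', hC4⟩ := hT.toMax (D.val k y) (D.pt k y) (by rw [hvp])
    have hk' : c ≤ D.val k' y := by
      have := hC2 _ hC4
      rw [← hvp] at this
      linarith
    refine ⟨k', hk', ?_⟩
    obtain ⟨C', hC'1, hC'2, hC'3, hC'4⟩ := near_seg M htn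
    have hpre : IsPreconnected (C' ∪ C) := hC'1.union (D.pt k y) hC'3 hC3' hC1
    have hfin := hpath ε hε hεb V hV y c (C' ∪ C) hyn hpre ?_ t (rep k') (t : S) (Or.inl hC'2)
      (D.pt k' y) (Or.inr hC4) (near_refl M hε _) (hrepn k')
    · rw [← cup_dv_add w t (rep k')]
      exact Submodule.add_mem _ ht2 hfin
    · rintro x (hx | hx)
      · have h5 := cup_height M x (t : S) y (2 * (2 * C3 * ε)) hyn (hC'4 x hx)
        nlinarith
      · have := hC2 x hx
        nlinarith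
  · intro j hj
    have hjc := hgap0 j (hT2 j hj)
    obtain ⟨C, hC1, hC2, hu, hv⟩ := hT.link j
    refine hpath ε hε hεb V hV y c C hyn hC1 ?_ (rep (u j)) (rep (v j)) _ hu _ hv (hrepn _) (hrepn _)
    intro x hx
    have := hC2 x hx
    nlinarith

end Cup

end Topping
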