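import Mathlib
import Pool.Agent.Lib.MP_bea121_gt.TC.Cup
import Pool.Agent.Lib.MP_bea121_gt.TC.Clow
import Pool.Agent.Lib.MP_bea121_gt.TC.Cbnd
import Pool.Agent.Lib.MP_bea121_gt.TC.Level
import Pool.Agent.Lib.MP_bea121_gt.TC.Path
import Pool.Agent.Lib.MP_bea121_gt.TC.Basic

/-!
# Convergence of the net functional near a good direction (MP_bea121_gt, module CONV)
-/

open MeasureTheory Set Metric Topology Filter
open scoped RealInnerProductSpace Gradient ContDiff Manifold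

noncomputable section

namespace Topping

section Conv

/-- Integral of a sum of bumps. -/
theorem conv_bump {N : Type} [Fintype N] (w : N → ℝ) (K δ c0 c1 : ℝ) (hK : 0 ≤ K) (hδ : 0 < δ)
    (h01 : c0 ≤ c1) (F : ℝ → ℝ) (hF : ∀ c, |F c| ≤ K) (hF0 : ∀ c, (∀ k, δ ≤ |c - w k|) → F c = 0) :
    |∫ c in c0..c1, F c| ≤ Fintype.card N * (K * (2 * δ)) := by
  classical
  have hint : ∀ k : N, Integrable (fun c : ℝ => (ball (w k) δ).indicator (fun _ => K) c) volume := by
    intro k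
    rw [integrable_indicator_iff measurableSet_ball]
    exact integrableOn_const (by rw [Real.volume_ball]; exact ENNReal.ofReal_ne_top)
  have hg : Integrable (fun c : ℝ => ∑ k : N, (ball (w k) δ).indicator (fun _ => K) c) volume :=
    integrable_finsetSum _ (fun k _ => hint k)
  have hg0 : ∀ c : ℝ, 0 ≤ ∑ k : N, (ball (w k) δ).indicator (fun _ => K) c := by
    intro c
    apply Finset.sum_nonneg
    intro k _
    exact Set.indicator_nonneg (fun _ _ => hK) c
  have hb : ∀ c : ℝ, ‖F c‖ ≤ ∑ k : N, (ball (w k) δ).indicator (fun _ => K) c := by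
    intro c
    by_cases h : ∀ k, δ ≤ |c - w k|
    · rw [hF0 c h, norm_zero]
      exact hg0 c
    · push Not at h
      obtain ⟨k, hk⟩ := h
      have h1 : (ball (w k) δ).indicator (fun _ => K) c = K := by
        rw [Set.indicator_of_mem]
        rw [mem_ball, Real.dist_eq]
        exact hk
      calc ‖F c‖ ≤ K := hF c
        _ = (ball (w k) δ).indicator (fun _ => K) c := h1.symm
        _ ≤ ∑ k : N, (ball (w k) δ).indicator (fun _ => K) c :=
          Finset.single_le_sum (f := fun k : N => (ball (w k) δ).indicator (fun _ => K) c)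
            (fun k _ => Set.indicator_nonneg (fun _ _ => hK) c) (Finset.mem_univ k)
  have h1 : ‖∫ c in c0..c1, F c‖ ≤
      ∫ c in c0..c1, ∑ k : N, (ball (w k) δ).indicator (fun _ => K) c :=
    intervalIntegral.norm_integral_le_of_norm_le h01 (Filter.Eventually.of_forall fun c _ => hb c)
      hg.intervalIntegrable
  have h2 : ∫ c in c0..c1, ∑ k : N, (ball (w k) δ).indicator (fun _ => K) c ≤
      ∫ c : ℝ, ∑ k : N, (ball (w k) δ).indicator (fun _ => K) c := by
    rw [intervalIntegral.integral_of_le h01]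
    exact setIntegral_le_integral hg (Filter.Eventually.of_forall hg0)
  have h3 : ∫ c : ℝ, ∑ k : N, (ball (w k) δ).indicator (fun _ => K) c =
      Fintype.card N * (K * (2 * δ)) := by
    rw [integral_finsetSum _ (fun k _ => hint k)]
    have : ∀ k : N, ∫ c : ℝ, (ball (w k) δ).indicator (fun _ => K) c = K * (2 * δ) := by
      intro k
      rw [integral_indicator measurableSet_ball, setIntegral_const, measureReal_def,
        Real.volume_ball, ENNReal.toReal_ofReal (by positivity), smul_eq_mul]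
      ring
    simp only [this, Finset.sum_const, Finset.card_univ, nsmul_eq_mul]
  rw [← Real.norm_eq_abs]
  linarith

variable {S : Type} [TopologicalSpace S] [CompactSpace S] [T2Space S] [ConnectedSpace S]
  {M : MongeSurf S} {y₀ : E3} (D : CritData M y₀)

theorem topo_conn (u v : D.Sd → D.Mx) (y : E3) (h : D.TopoAt u v y) : Conn u v ∧ Nonempty D.Mx := by
  have hcont : Continuous (fun x => ⟪M.f x, y⟫) := M.f_cont.inner continuous_const
  obtain ⟨x0, -, hx0⟩ := isCompact_univ.exists_isMinOn (s := (univ : Set S)) univ_nonempty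
    hcont.continuousOn
  constructor
  · intro k k'
    have h1 := h.fact ⟪M.f x0, y⟫ k k' ⟨univ, isPreconnected_univ,
      fun x' _ => hx0 (mem_univ x'), mem_univ _, mem_univ _⟩
    refine Submodule.span_mono ?_ h1
    rintro x ⟨j, -, rfl⟩
    exact ⟨j, trivial, rfl⟩
  · obtain ⟨k, -⟩ := h.toMax ⟪M.f x0, y⟫ x0 le_rfl
    exact ⟨k⟩

theorem conv_good (u v : D.Sd → D.Mx) (ρ' : ℝ) (h1 : ρ' ≤ D.ρ)
    (ht : ∀ y ∈ ball y₀ ρ', D.TopoAt u v y) (η : ℝ) (hη : 0 < η) :
    ∃ ε₀ > 0, ∀ ε, 0 < ε → ε < ε₀ → ∀ V : Finset S, M.IsNet ε V → ∀ y ∈ ball y₀ ρ',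
      |M.netA ε V y - D.AΓ u v y| ≤ η := by
  classical
  obtain ⟨ε1, hε1, n, hbound⟩ := conv_bound D
  obtain ⟨ε2, hε2, hconn⟩ := net_conn M
  set m : ℕ := Fintype.card D.N with hm
  set K : ℝ := n + m with hK
  have hK0 : 0 ≤ K := by positivity
  set δ : ℝ := η / (2 * (m + 1) * (K + 1)) with hδdef
  have hδ : 0 < δ := by positivity
  have hδη : (m : ℝ) * (K * (2 * δ)) ≤ η := by
    have h2 : δ * (2 * (m + 1) * (K + 1)) = η := by
      rw [hδdef]; field_simp
    have h3 : (m : ℝ) * K ≤ (m + 1) * (K + 1) := by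
      have : (0 : ℝ) ≤ m := by positivity
      nlinarith
    nlinarith
  obtain ⟨ε3, hε3, hup⟩ := conv_upper D u v ρ' h1 ht δ hδ
  obtain ⟨ε4, hε4, hlow⟩ := conv_lower D u v ρ' h1 ht δ hδ
  obtain ⟨B, hB⟩ := (isCompact_range M.f_cont).isBounded.exists_norm_le
  have hB' : ∀ x, ‖M.f x‖ ≤ B := fun x => hB _ (mem_range_self x)
  refine ⟨min (min ε1 ε2) (min ε3 ε4), by positivity, ?_⟩
  intro ε hε hεε V hV y hy
  have hεa : ε < ε1 := lt_of_lt_of_le hεε ((min_le_left _ _).trans (min_le_left _ _))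
  have hεb : ε < ε2 := lt_of_lt_of_le hεε ((min_le_left _ _).trans (min_le_right _ _))
  have hεc : ε < ε3 := lt_of_lt_of_le hεε ((min_le_right _ _).trans (min_le_left _ _))
  have hεd : ε < ε4 := lt_of_lt_of_le hεε ((min_le_right _ _).trans (min_le_right _ _))
  have hyD : y ∈ ball y₀ D.ρ := ball_subset_ball h1 hy
  have hyn : ‖y‖ ≤ 3 := (D.y_norm y hyD).2
  have hT := ht y hy
  have hvp : ∀ k : D.N, D.val k y = ⟪M.f (D.pt k y), y⟫ := fun k => (val_eq M D k y hyD).1
  have hht : ∀ x, ⟪M.f x, y⟫ ∈ Icc (-(3 * B)) (3 * B) := by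
    intro x
    have h2 : |⟪M.f x, y⟫| ≤ ‖M.f x‖ * ‖y‖ := abs_real_inner_le_norm _ _
    have h3 : ‖M.f x‖ * ‖y‖ ≤ B * 3 :=
      mul_le_mul (hB' x) hyn (norm_nonneg _) ((norm_nonneg _).trans (hB' x))
    exact abs_le.1 (by linarith)
  have hB0 : 0 ≤ B := by
    obtain ⟨x⟩ := (inferInstance : Nonempty S)
    exact (norm_nonneg _).trans (hB' x)
  have hht' : ∀ x x', min ⟪M.f x, y⟫ ⟪M.f x', y⟫ ∈ Icc (-(3 * B)) (3 * B) := by
    intro x x'
    rcases min_choice ⟪M.f x, y⟫ ⟪M.f x', y⟫ with h | h <;> rw [h] <;> exact hht _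
  obtain ⟨hcV, hneV⟩ := hconn ε hε hεb V hV
  obtain ⟨hcG, hneG⟩ := topo_conn D u v y hT
  have e1 : M.netA ε V y = -(3 * B) + ∫ c in (-(3 * B))..(3 * B),
      (({w : V | c ≤ ⟪M.pos V w, y⟫}.ncard : ℝ) - (rk (src (M.adj ε V)) (tgt (M.adj ε V))
          (fun e => min ⟪M.pos V (src (M.adj ε V) e), y⟫ ⟪M.pos V (tgt (M.adj ε V) e), y⟫) c : ℝ)) :=
    Amin_eq _ _ hcV _ _ _ _ (fun w => hht _) (fun e => hht' _ _)
  have e2 : D.AΓ u v y = -(3 * B) + ∫ c in (-(3 * B))..(3 * B),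
      (({k : D.Mx | c ≤ D.val k y}.ncard : ℝ) - (rk u v (fun j : D.Sd => D.val j y) c : ℝ)) :=
    Amin_eq _ _ hcG _ _ _ _ (fun k => by rw [hvp]; exact hht _) (fun j => by rw [hvp]; exact hht _)
  have hlink : ∀ j : D.Sd, D.val j y ≤ D.val (u j) y ∧ D.val j y ≤ D.val (v j) y := by
    intro j
    obtain ⟨C, -, hC, hu, hv⟩ := hT.link j
    have a1 := hC _ hu
    have a2 := hC _ hv
    rw [← hvp (u j)] at a1
    rw [← hvp (v j)] at a2
    exact ⟨a1, a2⟩
  have i1 := (level_integrable (fun w : V => ⟪M.pos V w, y⟫) (-(3 * B)) (3 * B)).sub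
    (rk_integrable (src (M.adj ε V)) (tgt (M.adj ε V))
      (fun e => min ⟪M.pos V (src (M.adj ε V) e), y⟫ ⟪M.pos V (tgt (M.adj ε V) e), y⟫)
      (-(3 * B)) (3 * B))
  have i2 := (level_integrable (fun k : D.Mx => D.val k y) (-(3 * B)) (3 * B)).sub
    (rk_integrable u v (fun j : D.Sd => D.val j y) (-(3 * B)) (3 * B))
  have e3 : M.netA ε V y - D.AΓ u v y = ∫ c in (-(3 * B))..(3 * B),
      ((({w : V | c ≤ ⟪M.pos V w, y⟫}.ncard : ℝ) - (rk (src (M.adj ε V)) (tgt (M.adj ε V))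
          (fun e => min ⟪M.pos V (src (M.adj ε V) e), y⟫ ⟪M.pos V (tgt (M.adj ε V) e), y⟫) c : ℝ)) -
      (({k : D.Mx | c ≤ D.val k y}.ncard : ℝ) - (rk u v (fun j : D.Sd => D.val j y) c : ℝ))) := by
    rw [intervalIntegral.integral_sub i1 i2, e1, e2]
    ring
  rw [e3]
  refine le_trans (conv_bump (fun k : D.N => D.val k y) K δ _ _ hK0 hδ (by linarith) _ ?_ ?_) hδη
  · intro c
    have b1 := rk_le (src (M.adj ε V)) (tgt (M.adj ε V)) (fun w : V => ⟪M.pos V w, y⟫)
      (fun e => min ⟪M.pos V (src (M.adj ε V) e), y⟫ ⟪M.pos V (tgt (M.adj ε V) e), y⟫)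
      (fun j => ⟨min_le_left _ _, min_le_right _ _⟩) c
    have b2 := hbound ε hε hεa V hV y hyD c
    have b3 := rk_le u v (fun k : D.Mx => D.val k y) (fun j : D.Sd => D.val j y) hlink c
    have b4 : {k : D.Mx | c ≤ D.val k y}.ncard ≤ m := by
      refine (Set.ncard_le_card _).trans ?_
      rw [Nat.card_eq_fintype_card]
      exact Fintype.card_subtype_le _
    have b1' := (Nat.cast_le (α := ℝ)).2 b1.1
    have b2' := (Nat.cast_le (α := ℝ)).2 b2
    have b3' := (Nat.cast_le (α := ℝ)).2 b3.1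
    have b4' := (Nat.cast_le (α := ℝ)).2 b4
    rw [Nat.cast_add] at b2'
    have hr : (0 : ℝ) ≤ (rk u v (fun j : D.Sd => D.val j y) c : ℝ) := Nat.cast_nonneg _
    have hn0 : (0 : ℝ) ≤ (n : ℝ) := Nat.cast_nonneg _
    have hm0 : (0 : ℝ) ≤ (m : ℝ) := Nat.cast_nonneg _
    rw [abs_le]
    constructor <;> linarith
  · intro c hc
    have b1 := hup ε hε hεc V hV y hy c hc
    have b2 := hlow ε hε hεd V hV y hy c hc
    have b3 := le_antisymm b1 ((add_comm _ _).trans_le (b2.trans (by rw [add_comm])))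
    have b4 := congrArg (Nat.cast (R := ℝ)) b3
    push_cast at b4
    linarith

end Conv

end Topping
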