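import Mathlib

/-!
# Definitions for the proof of Topping's conjecture (MP_bea121_gt)

Blueprint: `/team-store/MP_bea121_TC_proof.md`, statements: `/team-store/MP_bea121_TC_skel.lean`.
-/

open MeasureTheory Set Metric Topology Filter
open scoped RealInnerProductSpace Gradient ContDiff

noncomputable section

namespace Topping

abbrev E2 := EuclideanSpace ℝ (Fin 2)
abbrev E3 := EuclideanSpace ℝ (Fin 3)

/-! ### Finite multigraphs, spanning trees as bases -/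

section Graph

variable {V J : Type}

open Classical in
/-- Difference of two unit vectors. -/
def dv (u v : V) : V → ℝ := Pi.single u 1 - Pi.single v 1

/-- Span of the edge vectors `dv (s j) (t j)` over the edges `j` with `P j`. -/
def eSpan (s t : J → V) (P : J → Prop) : Submodule ℝ (V → ℝ) :=
  Submodule.span ℝ {x | ∃ j, P j ∧ x = dv (s j) (t j)}

/-- `T` is a spanning forest: a basis of the span of all edge vectors. -/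
def IsBase (s t : J → V) (T : Finset J) : Prop :=
  LinearIndepOn ℝ (fun j => dv (s j) (t j)) (T : Set J) ∧
    ∀ j, dv (s j) (t j) ∈ eSpan s t (fun i => i ∈ T)

/-- The multigraph is connected. -/
def Conn (s t : J → V) : Prop := ∀ u v : V, dv u v ∈ eSpan s t (fun _ => True)

/-- Value of the spanning forest `T` for vertex weights `a` and edge weights `b`. -/
def Fval [Fintype V] (T : Finset J) (a : V → ℝ) (b : J → ℝ) : ℝ := ∑ v, a v - ∑ j ∈ T, b j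

/-- The minimum of `Fval` over all spanning forests. -/
def Amin [Fintype V] (s t : J → V) (a : V → ℝ) (b : J → ℝ) : ℝ :=
  ⨅ T : {T : Finset J // IsBase s t T}, Fval T.1 a b

/-- Rank of the graph formed by the edges of weight at least `c`. -/
def rk (s t : J → V) (b : J → ℝ) (c : ℝ) : ℕ :=
  Module.finrank ℝ (eSpan s t (fun j => c ≤ b j))

end Graph

/-! ### Geometric graphs in `ℝ³` -/

section Geom

variable {V : Type} [Fintype V]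

/-- The edges (ordered pairs) of a relation. -/
abbrev Edge (adj : V → V → Prop) := {e : V × V // adj e.1 e.2}

instance (adj : V → V → Prop) : Fintype (Edge adj) := Fintype.ofFinite _

/-- First endpoint of an edge. -/
def src (adj : V → V → Prop) (e : Edge adj) : V := e.1.1

/-- Second endpoint of an edge. -/
def tgt (adj : V → V → Prop) (e : Edge adj) : V := e.1.2

/-- The graph functional: `V` has positions `p v`, `y` is a direction. -/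
def gA (p : V → E3) (adj : V → V → Prop) (y : E3) : ℝ :=
  Amin (src adj) (tgt adj) (fun v => ⟪p v, y⟫)
    (fun e => min ⟪p (src adj e), y⟫ ⟪p (tgt adj e), y⟫)

/-- `η` is a ridge direction of the edge `(a, b)`: the two endpoints are at the same height and no common
neighbour is higher. -/
def Ridge (p : V → E3) (adj : V → V → Prop) (a b : V) (η : E3) : Prop :=
  ⟪p b - p a, η⟫ = 0 ∧ ∀ q, adj a q → adj b q → ⟪p q - p a, η⟫ ≤ 0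

end Geom

/-! ### Monge surfaces -/

/-- A closed surface in `ℝ³` presented by finitely many Monge patches (graphs over discs of planes with
slope at most `1/10`). `f` is the (immersed) position map. -/
structure MongeSurf (S : Type) [TopologicalSpace S] where
  f : S → E3
  ι : Type
  fι : Fintype ι
  e : ι → OpenPartialHomeomorph S E2
  o : ι → E3
  L : ι → (E2 →ₗᵢ[ℝ] E3)
  c : ι → E3
  g : ι → E2 → ℝ
  R : ι → ℝ
  κ : ℝ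
  f_cont : Continuous f
  κ_one : 1 ≤ κ
  R_pos : ∀ i, 0 < R i
  R_le : ∀ i, R i ≤ 1
  c_norm : ∀ i, ‖c i‖ = 1
  c_perp : ∀ i z, ⟪L i z, c i⟫ = 0
  g_smooth : ∀ i, ContDiff ℝ 2 (g i)
  g_small : ∀ i z, ‖∇ (g i) z‖ ≤ 1 / 10
  g_lip : ∀ i z z', ‖∇ (g i) z - ∇ (g i) z'‖ ≤ κ * ‖z - z'‖
  target : ∀ i, ball 0 (5 * R i) ⊆ (e i).target
  graph : ∀ i, ∀ z ∈ ball (0 : E2) (5 * R i), f ((e i).symm z) = o i + L i z + g i z • c i
  cover : ∀ x, ∃ i, x ∈ (e i).source ∧ e i x ∈ ball (0 : E2) (R i)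

namespace MongeSurf

variable {S : Type} [TopologicalSpace S] (M : MongeSurf S)

instance : Fintype M.ι := M.fι

/-- The part of the patch `i` over the open disc of radius `ρ`. -/
def P (i : M.ι) (ρ : ℝ) : Set S := (M.e i).source ∩ (M.e i) ⁻¹' ball (0 : E2) ρ

/-- The graph parametrization of the patch `i`. -/
def fi (i : M.ι) (z : E2) : E3 := M.o i + M.L i z + M.g i z • M.c i

/-- The gradient of `z ↦ ⟪fi i z, y⟫`. -/
def Phi (i : M.ι) (z : E2) (y : E3) : E2 :=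
  ContinuousLinearMap.adjoint (M.L i).toContinuousLinearMap y + ⟪M.c i, y⟫ • ∇ (M.g i) z

/-- Hessian of the height function of the patch. -/
def hess (i : M.ι) (z : E2) : E2 →L[ℝ] E2 := fderiv ℝ (∇ (M.g i)) z

def hdet (i : M.ι) (z : E2) : ℝ := LinearMap.det (M.hess i z : E2 →ₗ[ℝ] E2)

/-- `(1+|∇g|²) tr D²g - ⟨∇g, D²g ∇g⟩ = 2 H (1+|∇g|²)^{3/2}`. -/
def num (i : M.ι) (z : E2) : ℝ :=
  (1 + ‖∇ (M.g i) z‖ ^ 2) * LinearMap.trace ℝ E2 (M.hess i z : E2 →ₗ[ℝ] E2) -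
    ⟪∇ (M.g i) z, M.hess i z (∇ (M.g i) z)⟫

/-- Mean curvature density `|H| dA / dz` of the patch. -/
def Hd (i : M.ι) (z : E2) : ℝ := |M.num i z| / (2 * (1 + ‖∇ (M.g i) z‖ ^ 2))

/-- `2|H| / (|K| |y|)` at a point with normal direction `y`. -/
def θ (i : M.ι) (z : E2) (y : E3) : ℝ := |M.num i z| / (|⟪M.c i, y⟫| * |M.hdet i z|)

/-- Degenerate directions. -/
def degen : Set E3 :=
  {y | ∃ i, ∃ z ∈ closedBall (0 : E2) (2 * M.R i), M.Phi i z y = 0 ∧ M.hdet i z = 0}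

/-- Nearness: chord distance less than `δ` inside a common patch. -/
def near (δ : ℝ) (x x' : S) : Prop := ∃ i, x ∈ M.P i (4 * M.R i) ∧ x' ∈ M.P i (4 * M.R i) ∧ ‖M.f x - M.f x'‖ < δ

/-- `ε`-nets. -/
structure IsNet (ε : ℝ) (V : Finset S) : Prop where
  sep : ∀ u ∈ V, ∀ v ∈ V, u ≠ v → ¬ M.near ε u v
  dense : ∀ x, ∃ v ∈ V, M.near ε x v

/-- Adjacency in the net graph. -/
def adj (ε : ℝ) (V : Finset S) (u v : V) : Prop := u ≠ v ∧ M.near (10 * ε) (u : S) (v : S)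

/-- Positions of the vertices of a net. -/
def pos (V : Finset S) (v : V) : E3 := M.f (v : S)

/-- The functional of the net graph. -/
def netA (ε : ℝ) (V : Finset S) (y : E3) : ℝ := gA (M.pos V) (M.adj ε V) y

/-- `z = L^* q` -/
def pr (i : M.ι) (q : E3) : E2 := ContinuousLinearMap.adjoint (M.L i).toContinuousLinearMap q

/-- The normal bundle map: `q = L z + ρ c ↦ ρ (c - L ∇g(z))`. -/
def Gq (i : M.ι) (q : E3) : E3 := ⟪M.c i, q⟫ • (M.c i - M.L i (∇ (M.g i) (M.pr i q)))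

end MongeSurf

/-- The shell `1 ≤ |y| ≤ 2`. -/
def Sh : Set E3 := {y | 1 ≤ ‖y‖ ∧ ‖y‖ ≤ 2}

/-- Second moment of the ball of radius `r`. -/
def σ (r : ℝ) : ℝ := ∫ w in ball (0 : E3) r, (w 0) ^ 2

/-- Width of the set `f(S)` in the direction `y`. -/
def width {S : Type} (f : S → E3) (y : E3) : ℝ := (⨆ x, ⟪f x, y⟫) - ⨅ x, ⟪f x, y⟫

/-! ### Critical data near a good direction -/

section LocCrit

variable {S : Type} [TopologicalSpace S] (M : MongeSurf S)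

/-- Continuation of a critical point; on the whole region the gradient differs from the linear map
`⟪c, y₀⟫ • D²g(z₀)` by at most `θ` (Lipschitz constant). -/
structure LocCrit0 (i : M.ι) (z₀ : E2) (y₀ : E3) (θ r1 ρ : ℝ) (s : E3 → E2) : Prop where
  ball_sub : ball z₀ r1 ⊆ ball (0 : E2) (3 * M.R i)
  s_center : s y₀ = z₀
  s_mem : ∀ y ∈ ball y₀ ρ, s y ∈ ball z₀ (r1 / 4)
  s_zero : ∀ y ∈ ball y₀ ρ, M.Phi i (s y) y = 0
  s_c1 : ContDiffOn ℝ 1 s (ball y₀ ρ)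
  close : ∀ y ∈ ball y₀ ρ, ∀ ζ ∈ ball z₀ r1, ∀ ζ' ∈ ball z₀ r1,
    ‖M.Phi i ζ y - M.Phi i ζ' y - ⟪M.c i, y₀⟫ • M.hess i z₀ (ζ - ζ')‖ ≤ θ * ‖ζ - ζ'‖

/-- Full local description near a nondegenerate critical point. Types: `0` maximum, `1` saddle, `2` minimum. -/
structure LocCrit (i : M.ι) (z₀ : E2) (y₀ : E3) (typ : Fin 3) (p q : E2) (lam Lam r1 ρ : ℝ)
    (s : E3 → E2) : Prop where
  ball_sub : ball z₀ r1 ⊆ ball (0 : E2) (3 * M.R i)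
  s_center : s y₀ = z₀
  s_mem : ∀ y ∈ ball y₀ ρ, s y ∈ ball z₀ (r1 / 4)
  s_zero : ∀ y ∈ ball y₀ ρ, M.Phi i (s y) y = 0
  s_c1 : ContDiffOn ℝ 1 s (ball y₀ ρ)
  phi_lower : ∀ y ∈ ball y₀ ρ, ∀ ζ ∈ ball z₀ r1, lam * ‖ζ - s y‖ ≤ ‖M.Phi i ζ y‖
  phi_upper : ∀ y ∈ ball y₀ ρ, ∀ ζ ∈ ball z₀ r1, ‖M.Phi i ζ y‖ ≤ Lam * ‖ζ - s y‖
  tmax : typ = 0 → ∀ y ∈ ball y₀ ρ, ∀ ζ ∈ ball z₀ r1,
    ⟪M.fi i ζ, y⟫ ≤ ⟪M.fi i (s y), y⟫ - lam * ‖ζ - s y‖ ^ 2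
  tmin : typ = 2 → ∀ y ∈ ball y₀ ρ, ∀ ζ ∈ ball z₀ r1,
    ⟪M.fi i (s y), y⟫ + lam * ‖ζ - s y‖ ^ 2 ≤ ⟪M.fi i ζ, y⟫
  asc : typ = 1 → ∀ y ∈ ball y₀ ρ, ∀ τ : ℝ, |τ| ≤ r1 / 2 →
    ⟪M.fi i (s y), y⟫ + lam * τ ^ 2 ≤ ⟪M.fi i (s y + τ • p), y⟫
  desc : typ = 1 → ∀ y ∈ ball y₀ ρ, ∀ τ : ℝ, |τ| ≤ r1 / 2 →
    ⟪M.fi i (s y + τ • q), y⟫ ≤ ⟪M.fi i (s y), y⟫ - lam * τ ^ 2
  cone_up : typ = 1 → ∀ y ∈ ball y₀ ρ, ∀ ζ ∈ ball z₀ r1,
    ⟪M.fi i (s y), y⟫ < ⟪M.fi i ζ, y⟫ →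
      0 < ⟪ζ - s y, p⟫ * ⟪M.Phi i ζ y, p⟫ ∧ ‖ζ - s y‖ ≤ Lam * |⟪ζ - s y, p⟫|
  cone_down : typ = 1 → ∀ y ∈ ball y₀ ρ, ∀ ζ ∈ ball z₀ r1,
    ⟪M.fi i ζ, y⟫ < ⟪M.fi i (s y), y⟫ →
      ⟪ζ - s y, q⟫ * ⟪M.Phi i ζ y, q⟫ < 0 ∧ ‖ζ - s y‖ ≤ Lam * |⟪ζ - s y, q⟫|

end LocCrit

/-- Critical data of the height functions `⟪f, y⟫` for `y` near a nondegenerate direction `y₀`.
Types: `0` local maximum, `1` saddle, `2` local minimum. -/
structure CritData {S : Type} [TopologicalSpace S] (M : MongeSurf S) (y₀ : E3) where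
  N : Type
  fN : Fintype N
  typ : N → Fin 3
  i : N → M.ι
  z : N → E2
  s : N → E3 → E2
  p : N → E2
  q : N → E2
  ρ : ℝ
  r1 : ℝ
  lam : ℝ
  Lam : ℝ
  ρ_pos : 0 < ρ
  r1_pos : 0 < r1
  lam_pos : 0 < lam
  Lam_pos : 0 < Lam
  y_norm : ∀ y ∈ ball y₀ ρ, y ≠ 0 ∧ ‖y‖ ≤ 3
  ball_sub : ∀ k, ball (z k) r1 ⊆ ball (0 : E2) (3 * M.R (i k))
  s_center : ∀ k, s k y₀ = z k
  s_mem : ∀ k, ∀ y ∈ ball y₀ ρ, s k y ∈ ball (z k) (r1 / 4)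
  s_zero : ∀ k, ∀ y ∈ ball y₀ ρ, M.Phi (i k) (s k y) y = 0
  s_c1 : ∀ k, ContDiffOn ℝ 1 (s k) (ball y₀ ρ)
  phi_lower : ∀ k, ∀ y ∈ ball y₀ ρ, ∀ ζ ∈ ball (z k) r1, lam * ‖ζ - s k y‖ ≤ ‖M.Phi (i k) ζ y‖
  phi_upper : ∀ k, ∀ y ∈ ball y₀ ρ, ∀ ζ ∈ ball (z k) r1, ‖M.Phi (i k) ζ y‖ ≤ Lam * ‖ζ - s k y‖
  away : ∀ y ∈ ball y₀ ρ, ∀ i', ∀ ζ ∈ closedBall (0 : E2) (2 * M.R i'),
    (∀ k, (M.e i').symm ζ ∉ (M.e (i k)).symm '' ball (z k) (r1 / 2)) → lam ≤ ‖M.Phi i' ζ y‖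
  disj : ∀ k k', k ≠ k' →
    Disjoint ((M.e (i k)).symm '' ball (z k) r1) ((M.e (i k')).symm '' ball (z k') r1)
  tmax : ∀ k, typ k = 0 → ∀ y ∈ ball y₀ ρ, ∀ ζ ∈ ball (z k) r1,
    ⟪M.fi (i k) ζ, y⟫ ≤ ⟪M.fi (i k) (s k y), y⟫ - lam * ‖ζ - s k y‖ ^ 2
  tmin : ∀ k, typ k = 2 → ∀ y ∈ ball y₀ ρ, ∀ ζ ∈ ball (z k) r1,
    ⟪M.fi (i k) (s k y), y⟫ + lam * ‖ζ - s k y‖ ^ 2 ≤ ⟪M.fi (i k) ζ, y⟫
  norm_p : ∀ k, ‖p k‖ = 1
  norm_q : ∀ k, ‖q k‖ = 1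
  asc : ∀ k, typ k = 1 → ∀ y ∈ ball y₀ ρ, ∀ τ : ℝ, |τ| ≤ r1 / 2 →
    ⟪M.fi (i k) (s k y), y⟫ + lam * τ ^ 2 ≤ ⟪M.fi (i k) (s k y + τ • p k), y⟫
  desc : ∀ k, typ k = 1 → ∀ y ∈ ball y₀ ρ, ∀ τ : ℝ, |τ| ≤ r1 / 2 →
    ⟪M.fi (i k) (s k y + τ • q k), y⟫ ≤ ⟪M.fi (i k) (s k y), y⟫ - lam * τ ^ 2
  cone_up : ∀ k, typ k = 1 → ∀ y ∈ ball y₀ ρ, ∀ ζ ∈ ball (z k) r1,
    ⟪M.fi (i k) (s k y), y⟫ < ⟪M.fi (i k) ζ, y⟫ →
      0 < ⟪ζ - s k y, p k⟫ * ⟪M.Phi (i k) ζ y, p k⟫ ∧ ‖ζ - s k y‖ ≤ Lam * |⟪ζ - s k y, p k⟫|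
  cone_down : ∀ k, typ k = 1 → ∀ y ∈ ball y₀ ρ, ∀ ζ ∈ ball (z k) r1,
    ⟪M.fi (i k) ζ, y⟫ < ⟪M.fi (i k) (s k y), y⟫ →
      ⟪ζ - s k y, q k⟫ * ⟪M.Phi (i k) ζ y, q k⟫ < 0 ∧ ‖ζ - s k y‖ ≤ Lam * |⟪ζ - s k y, q k⟫|

namespace CritData

variable {S : Type} [TopologicalSpace S] {M : MongeSurf S} {y₀ : E3} (D : CritData M y₀)

instance : Fintype D.N := D.fN

/-- The critical point. -/
def pt (k : D.N) (y : E3) : S := (M.e (D.i k)).symm (D.s k y)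

/-- The critical value. -/
def val (k : D.N) (y : E3) : ℝ := ⟪M.fi (D.i k) (D.s k y), y⟫

/-- Indices of the local maxima. -/
abbrev Mx := {k : D.N // D.typ k = 0}
/-- Indices of the saddles. -/
abbrev Sd := {k : D.N // D.typ k = 1}
/-- Indices of the local minima. -/
abbrev Mn := {k : D.N // D.typ k = 2}

/-- The combinatorial description of the superlevel sets at `y`: `u j`, `v j` are the two maxima
joined by the saddle `j`. -/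
structure TopoAt (u v : D.Sd → D.Mx) (y : E3) : Prop where
  toMax : ∀ (c : ℝ) (x : S), c ≤ ⟪M.f x, y⟫ → ∃ k : D.Mx, ∃ C : Set S, IsPreconnected C ∧
    (∀ x' ∈ C, c ≤ ⟪M.f x', y⟫) ∧ x ∈ C ∧ D.pt k y ∈ C
  fact : ∀ (c : ℝ) (k k' : D.Mx), (∃ C : Set S, IsPreconnected C ∧
    (∀ x' ∈ C, c ≤ ⟪M.f x', y⟫) ∧ D.pt k y ∈ C ∧ D.pt k' y ∈ C) →
      dv k k' ∈ eSpan u v (fun j => c ≤ D.val j y)
  link : ∀ j : D.Sd, ∃ C : Set S, IsPreconnected C ∧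
    (∀ x' ∈ C, D.val j y ≤ ⟪M.f x', y⟫) ∧ D.pt (u j) y ∈ C ∧ D.pt (v j) y ∈ C

/-- The limit functional. -/
def AΓ (u v : D.Sd → D.Mx) (y : E3) : ℝ :=
  Amin u v (fun k : D.Mx => D.val k y) (fun j : D.Sd => D.val j y)

end CritData

end Topping
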