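import Pool.Agent.Lib.MP_bea121_gt.TC.Defs

/-!
# More definitions for the proof of Topping's conjecture (MP_bea121_gt)
-/

open MeasureTheory Set Metric Topology Filter
open scoped RealInnerProductSpace Gradient ContDiff Manifold

noncomputable section

namespace Topping

variable {S : Type} [TopologicalSpace S]

section Flip

variable {M : MongeSurf S} {y₀ : E3}

theorem Phi_neg (M : MongeSurf S) (i : M.ι) (z : E2) (y : E3) : M.Phi i z (-y) = - M.Phi i z y := by
  simp [MongeSurf.Phi, add_comm]

theorem neg_mem_ball {y₀ y : E3} {ρ : ℝ} (h : y ∈ ball (-y₀) ρ) : -y ∈ ball y₀ ρ := by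
  rw [mem_ball, dist_eq_norm] at h ⊢
  have : -y - y₀ = -(y - -y₀) := by abel
  rw [this, norm_neg]; exact h

theorem rev_zero {a : Fin 3} (h : Fin.rev a = 0) : a = 2 := by
  revert h; revert a; decide

theorem rev_one {a : Fin 3} (h : Fin.rev a = 1) : a = 1 := by
  revert h; revert a; decide

theorem rev_two {a : Fin 3} (h : Fin.rev a = 2) : a = 0 := by
  revert h; revert a; decide

/-- The critical data for the opposite direction: maxima and minima are exchanged. -/
def CritData.flip (D : CritData M y₀) : CritData M (-y₀) where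
  N := D.N
  fN := D.fN
  typ := fun k => Fin.rev (D.typ k)
  i := D.i
  z := D.z
  s := fun k y => D.s k (-y)
  p := D.q
  q := D.p
  ρ := D.ρ
  r1 := D.r1
  lam := D.lam
  Lam := D.Lam
  ρ_pos := D.ρ_pos
  r1_pos := D.r1_pos
  lam_pos := D.lam_pos
  Lam_pos := D.Lam_pos
  y_norm := fun y hy => by
    have := D.y_norm (-y) (neg_mem_ball hy)
    rw [norm_neg] at this
    exact ⟨fun h => this.1 (by simp [h]), this.2⟩
  ball_sub := D.ball_sub
  s_center := fun k => by simpa using D.s_center k
  s_mem := fun k y hy => D.s_mem k (-y) (neg_mem_ball hy)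
  s_zero := fun k y hy => by
    have := D.s_zero k (-y) (neg_mem_ball hy)
    rw [Phi_neg] at this
    exact neg_eq_zero.1 this
  s_c1 := fun k => (D.s_c1 k).comp contDiffOn_id.neg (fun y hy => neg_mem_ball hy)
  phi_lower := fun k y hy ζ hζ => by
    have := D.phi_lower k (-y) (neg_mem_ball hy) ζ hζ
    rwa [Phi_neg, norm_neg] at this
  phi_upper := fun k y hy ζ hζ => by
    have := D.phi_upper k (-y) (neg_mem_ball hy) ζ hζ
    rwa [Phi_neg, norm_neg] at this
  away := fun y hy i' ζ hζ h => by
    have := D.away (-y) (neg_mem_ball hy) i' ζ hζ h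
    rwa [Phi_neg, norm_neg] at this
  disj := D.disj
  tmax := fun k hk y hy ζ hζ => by
    have := D.tmin k (rev_zero hk) (-y) (neg_mem_ball hy) ζ hζ
    simp only [inner_neg_right] at this
    linarith
  tmin := fun k hk y hy ζ hζ => by
    have := D.tmax k (rev_two hk) (-y) (neg_mem_ball hy) ζ hζ
    simp only [inner_neg_right] at this
    linarith
  norm_p := D.norm_q
  norm_q := D.norm_p
  asc := fun k hk y hy τ hτ => by
    have := D.desc k (rev_one hk) (-y) (neg_mem_ball hy) τ hτ
    simp only [inner_neg_right] at this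
    linarith
  desc := fun k hk y hy τ hτ => by
    have := D.asc k (rev_one hk) (-y) (neg_mem_ball hy) τ hτ
    simp only [inner_neg_right] at this
    linarith
  cone_up := fun k hk y hy ζ hζ h => by
    have := D.cone_down k (rev_one hk) (-y) (neg_mem_ball hy) ζ hζ (by
      simp only [inner_neg_right]; linarith)
    rw [Phi_neg, inner_neg_left] at this
    exact ⟨by linarith [this.1], this.2⟩
  cone_down := fun k hk y hy ζ hζ h => by
    have := D.cone_up k (rev_one hk) (-y) (neg_mem_ball hy) ζ hζ (by
      simp only [inner_neg_right]; linarith)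
    rw [Phi_neg, inner_neg_left] at this
    exact ⟨by linarith [this.1], this.2⟩

/-- The limit functional for `y` and `-y` together. -/
def CritData.Sinf (D : CritData M y₀) (u v : D.Sd → D.Mx) (u' v' : D.flip.Sd → D.flip.Mx) (y : E3) : ℝ :=
  D.AΓ u v y + D.flip.AΓ u' v' (-y)

/-- Position of the critical point in space. -/
def CritData.X (D : CritData M y₀) (k : D.N) (y : E3) : E3 := M.fi (D.i k) (D.s k y)

end Flip

/-! ## Parametrized surfaces -/

/-- Coordinate directions of the parameter plane. -/
def ex : E2 := EuclideanSpace.single 0 1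
def ey : E2 := EuclideanSpace.single 1 1

/-- Cross product in `E3`. -/
def cross (a b : E3) : E3 := !₂[a 1 * b 2 - a 2 * b 1, a 2 * b 0 - a 0 * b 2, a 0 * b 1 - a 1 * b 0]

/-- First derivatives. -/
def Fx (F : E2 → E3) (z : E2) : E3 := fderiv ℝ F z ex
def Fy (F : E2 → E3) (z : E2) : E3 := fderiv ℝ F z ey
/-- Coefficients of the first fundamental form. -/
def gE (F : E2 → E3) (z : E2) : ℝ := ⟪Fx F z, Fx F z⟫
def gF (F : E2 → E3) (z : E2) : ℝ := ⟪Fx F z, Fy F z⟫
def gG (F : E2 → E3) (z : E2) : ℝ := ⟪Fy F z, Fy F z⟫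
/-- Coefficients of the second fundamental form, multiplied by `|Fx × Fy|`. -/
def hL (F : E2 → E3) (z : E2) : ℝ := ⟪fderiv ℝ (Fx F) z ex, cross (Fx F z) (Fy F z)⟫
def hM (F : E2 → E3) (z : E2) : ℝ := ⟪fderiv ℝ (Fx F) z ey, cross (Fx F z) (Fy F z)⟫
def hN (F : E2 → E3) (z : E2) : ℝ := ⟪fderiv ℝ (Fy F) z ey, cross (Fx F z) (Fy F z)⟫
/-- `EG - F²`, the square of the area density. -/
def gD (F : E2 → E3) (z : E2) : ℝ := gE F z * gG F z - gF F z ^ 2
/-- Area density. -/
def areaD (F : E2 → E3) (z : E2) : ℝ := Real.sqrt (gD F z)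
/-- `|H|` times the area density; `H = (E N - 2 F M + G L) / (2 (EG-F²))` is the average of the
principal curvatures. -/
def HdF (F : E2 → E3) (z : E2) : ℝ :=
  |gE F z * hN F z - 2 * gF F z * hM F z + gG F z * hL F z| / (2 * gD F z)
/-- `K (EG-F²)²`. -/
def KnF (F : E2 → E3) (z : E2) : ℝ := hL F z * hN F z - hM F z ^ 2
/-- Absolute value of the mean curvature. -/
def absH (F : E2 → E3) (z : E2) : ℝ := HdF F z / areaD F z

/-- The perturbed parametrization `F + |F|² b`. -/
def pert (b : E3) (F : E2 → E3) (z : E2) : E3 := F z + ‖F z‖ ^ 2 • b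

/-! ## Immersed closed surfaces -/

section Manifold

variable {S : Type} [TopologicalSpace S] [ChartedSpace E2 S]

/-- Smooth immersion of the surface `S` into `ℝ³`. -/
structure IsImm (f : S → E3) : Prop where
  smooth : ContMDiff (𝓡 2) (𝓡 3) ∞ f
  inj : ∀ x, Function.Injective (mfderiv (𝓡 2) (𝓡 3) f x)

/-- Local parametrization of the surface given by the preferred chart at `x`. -/
def lp (f : S → E3) (x : S) : E2 → E3 := f ∘ (chartAt E2 x).symm

/-- The area measure of an immersed surface: in each chart it has density `√(EG-F²)`. -/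
def IsAreaMeasure [MeasurableSpace S] (f : S → E3) (μ : Measure S) : Prop :=
  ∀ x : S, ∀ B ⊆ (chartAt E2 x).source, MeasurableSet B →
    μ B = ∫⁻ z in chartAt E2 x '' B, ENNReal.ofReal (areaD (lp f x) z)

/-- Absolute value of the mean curvature at `x` (average of the principal curvatures). -/
def absMC (f : S → E3) (x : S) : ℝ := absH (lp f x) (chartAt E2 x x)

end Manifold

end Topping
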