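import Pool.Agent.Lib.MP_bea121_gt.TC.Defs2

/-!
# Local topological types of a point for a function (MP_bea121_gt)
-/

open Set Topology Filter

noncomputable section

namespace Topping

variable {S : Type} [TopologicalSpace S]

/-- `x` is in the closure of a connected set of higher points. -/
def T0 (h : S → ℝ) (x : S) : Prop :=
  ∃ A : Set S, IsPreconnected A ∧ (∀ x' ∈ A, h x < h x') ∧ x ∈ closure A

/-- Any two higher points near `x` are connected by higher points. -/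
def T1 (h : S → ℝ) (x : S) : Prop :=
  ∃ U ∈ 𝓝 x, ∀ x1 ∈ U, ∀ x2 ∈ U, h x < h x1 → h x < h x2 →
    ∃ C : Set S, IsPreconnected C ∧ (∀ x' ∈ C, h x < h x') ∧ x1 ∈ C ∧ x2 ∈ C

/-- Strict local maximum. -/
def T2 (h : S → ℝ) (x : S) : Prop := ∃ U ∈ 𝓝 x, ∀ x' ∈ U, x' ≠ x → h x' < h x

/-- Every higher point near `x` is connected to `a` or to `b` by points higher than `x`. -/
def T3 (h : S → ℝ) (x a b : S) : Prop :=
  ∃ U ∈ 𝓝 x, ∀ x' ∈ U, h x < h x' →
    ∃ C : Set S, IsPreconnected C ∧ (∀ x'' ∈ C, h x < h x'') ∧ x' ∈ C ∧ (a ∈ C ∨ b ∈ C)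

end Topping
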