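import Mathlib
import Pool.Agent.Lib.MP_bea121_gt.TC.Defs4

/-!
# Module PNULL (MP_bea121_gt): the perturbation `f + |f|² b` has nonzero curvature for almost every `b`
-/

open MeasureTheory Set Metric Topology Filter
open scoped RealInnerProductSpace Gradient ContDiff Manifold

noncomputable section

namespace Topping

section Pnull

theorem PNULL_inner3 (a b : E3) : ⟪a, b⟫ = a 0 * b 0 + a 1 * b 1 + a 2 * b 2 := by
  simp only [PiLp.inner_apply, Fin.sum_univ_three]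
  simp
  ring

theorem PNULL_cross0 (a b : E3) : (cross a b) 0 = a 1 * b 2 - a 2 * b 1 := rfl
theorem PNULL_cross1 (a b : E3) : (cross a b) 1 = a 2 * b 0 - a 0 * b 2 := rfl
theorem PNULL_cross2 (a b : E3) : (cross a b) 2 = a 0 * b 1 - a 1 * b 0 := rfl

/-- the algebraic identity for one second derivative -/
theorem PNULL_alg (F P Q W b : E3) (g : ℝ) :
    ⟪W + (2 * (⟪F, W⟫ + g)) • b, cross (P + (2 * ⟪F, P⟫) • b) (Q + (2 * ⟪F, Q⟫) • b)⟫
      = (1 + 2 * ⟪F, b⟫) * ⟪W, cross P Q⟫ + 2 * ⟪b, cross P Q⟫ * g := by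
  simp only [PNULL_inner3, PNULL_cross0, PNULL_cross1, PNULL_cross2, PiLp.add_apply,
    PiLp.smul_apply, smul_eq_mul]
  ring

/-- Lagrange identity -/
theorem PNULL_lagrange (P Q : E3) :
    ⟪cross P Q, cross P Q⟫ = ⟪P, P⟫ * ⟪Q, Q⟫ - ⟪P, Q⟫ ^ 2 := by
  simp only [PNULL_inner3, PNULL_cross0, PNULL_cross1, PNULL_cross2]
  ring

theorem PNULL_fderiv_pert (F : E2 → E3) (b : E3) (z : E2) (h : DifferentiableAt ℝ F z) (v : E2) :
    fderiv ℝ (pert b F) z v = fderiv ℝ F z v + (2 * ⟪F z, fderiv ℝ F z v⟫) • b := by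
  have h1 : HasFDerivAt F (fderiv ℝ F z) z := h.hasFDerivAt
  have h2 := h1.norm_sq.smul_const b
  have h3 := h1.add h2
  have h4 : HasFDerivAt (pert b F) _ z := h3
  rw [h4.fderiv]
  simp

theorem PNULL_fderiv_aux (F P : E2 → E3) (b : E3) (z : E2) (hF : DifferentiableAt ℝ F z)
    (hP : DifferentiableAt ℝ P z) (v : E2) :
    fderiv ℝ (fun z' => P z' + (2 * ⟪F z', P z'⟫) • b) z v
      = fderiv ℝ P z v + (2 * (⟪F z, fderiv ℝ P z v⟫ + ⟪fderiv ℝ F z v, P z⟫)) • b := by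
  have h1 := hF.hasFDerivAt
  have h2 := hP.hasFDerivAt
  have h3 := (h1.inner ℝ h2).const_mul 2
  have h4 := h2.add (h3.smul_const b)
  have h5 : HasFDerivAt (fun z' => P z' + (2 * ⟪F z', P z'⟫) • b) _ z := h4
  rw [h5.fderiv]
  simp [fderivInnerCLM_apply]

theorem PNULL_fderiv2 (F : E2 → E3) (z : E2) (hF : ContDiffAt ℝ 2 F z) (b : E3) (w v : E2) :
    fderiv ℝ (fun z' => fderiv ℝ (pert b F) z' w) z v
      = fderiv ℝ (fun z' => fderiv ℝ F z' w) z v
        + (2 * (⟪F z, fderiv ℝ (fun z' => fderiv ℝ F z' w) z v⟫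
          + ⟪fderiv ℝ F z v, fderiv ℝ F z w⟫)) • b := by
  have hev : ∀ᶠ z' in 𝓝 z, DifferentiableAt ℝ F z' := by
    have h1 : ∀ᶠ z' in 𝓝 z, ContDiffAt ℝ 2 F z' := hF.eventually (by simp)
    exact h1.mono fun z' h => h.differentiableAt (by norm_num)
  have hP : DifferentiableAt ℝ (fun z' => fderiv ℝ F z' w) z := by
    have h1 : ContDiffAt ℝ 1 (fderiv ℝ F) z := hF.fderiv_right (by norm_num)
    have h2 : DifferentiableAt ℝ (fderiv ℝ F) z := h1.differentiableAt (by norm_num)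
    exact h2.clm_apply (differentiableAt_const w)
  have heq : (fun z' => fderiv ℝ (pert b F) z' w) =ᶠ[𝓝 z]
      fun z' => (fun z'' => fderiv ℝ F z'' w) z' + (2 * ⟪F z', (fun z'' => fderiv ℝ F z'' w) z'⟫) • b :=
    hev.mono fun z' h => PNULL_fderiv_pert F b z' h w
  rw [heq.fderiv_eq]
  exact PNULL_fderiv_aux F (fun z'' => fderiv ℝ F z'' w) b z hev.self_of_nhds hP v

theorem PNULL_forms (F : E2 → E3) (z : E2) (hF : ContDiffAt ℝ 2 F z) (b : E3) :
    hL (pert b F) z = (1 + 2 * ⟪F z, b⟫) * hL F z + 2 * ⟪b, cross (Fx F z) (Fy F z)⟫ * gE F z ∧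
    hM (pert b F) z = (1 + 2 * ⟪F z, b⟫) * hM F z + 2 * ⟪b, cross (Fx F z) (Fy F z)⟫ * gF F z ∧
    hN (pert b F) z = (1 + 2 * ⟪F z, b⟫) * hN F z + 2 * ⟪b, cross (Fx F z) (Fy F z)⟫ * gG F z := by
  have hd : DifferentiableAt ℝ F z := hF.differentiableAt (by norm_num)
  have ex1 : Fx (pert b F) z = Fx F z + (2 * ⟪F z, Fx F z⟫) • b := PNULL_fderiv_pert F b z hd ex
  have ey1 : Fy (pert b F) z = Fy F z + (2 * ⟪F z, Fy F z⟫) • b := PNULL_fderiv_pert F b z hd ey
  have exx : fderiv ℝ (Fx (pert b F)) z ex = fderiv ℝ (Fx F) z ex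
      + (2 * (⟪F z, fderiv ℝ (Fx F) z ex⟫ + ⟪Fx F z, Fx F z⟫)) • b := PNULL_fderiv2 F z hF b ex ex
  have exy : fderiv ℝ (Fx (pert b F)) z ey = fderiv ℝ (Fx F) z ey
      + (2 * (⟪F z, fderiv ℝ (Fx F) z ey⟫ + ⟪Fy F z, Fx F z⟫)) • b := PNULL_fderiv2 F z hF b ex ey
  have eyy : fderiv ℝ (Fy (pert b F)) z ey = fderiv ℝ (Fy F) z ey
      + (2 * (⟪F z, fderiv ℝ (Fy F) z ey⟫ + ⟪Fy F z, Fy F z⟫)) • b := PNULL_fderiv2 F z hF b ey ey
  refine ⟨?_, ?_, ?_⟩
  · unfold hL gE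
    rw [exx, ex1, ey1]
    exact PNULL_alg _ _ _ _ _ _
  · unfold hM gF
    rw [exy, ex1, ey1, real_inner_comm (Fx F z) (Fy F z)]
    exact PNULL_alg _ _ _ _ _ _
  · unfold hN gG
    rw [eyy, ex1, ey1]
    exact PNULL_alg _ _ _ _ _ _

theorem pert_formula (F : E2 → E3) (z : E2) (hF : ContDiffAt ℝ 2 F z) (b : E3) :
    KnF (pert b F) z = (1 + 2 * ⟪F z, b⟫) ^ 2 * KnF F z + (1 + 2 * ⟪F z, b⟫) * (2 * ⟪b, cross (Fx F z) (Fy F z)⟫) *
      (gE F z * hN F z - 2 * gF F z * hM F z + gG F z * hL F z) +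
      (2 * ⟪b, cross (Fx F z) (Fy F z)⟫) ^ 2 * gD F z := by
  obtain ⟨h1, h2, h3⟩ := PNULL_forms F z hF b
  unfold KnF gD
  rw [h1, h2, h3]
  ring

/-- affine planes are null -/
theorem PNULL_plane (v : E3) (hv : v ≠ 0) (c : ℝ) : volume {b : E3 | ⟪v, b⟫ = c} = 0 := by
  have hv2 : ⟪v, v⟫ ≠ 0 := by simpa using hv
  set p0 : E3 := (c / ⟪v, v⟫) • v with hp0
  have hp : ⟪v, p0⟫ = c := by
    rw [hp0, real_inner_smul_right, div_mul_cancel₀ _ hv2]
  set A : AffineSubspace ℝ E3 := AffineSubspace.mk' p0 (LinearMap.ker (innerₗ E3 v)) with hA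
  have hset : {b : E3 | ⟪v, b⟫ = c} = (A : Set E3) := by
    ext b
    rw [hA, SetLike.mem_coe, AffineSubspace.mem_mk', LinearMap.mem_ker, vsub_eq_sub]
    show ⟪v, b⟫ = c ↔ ⟪v, b - p0⟫ = 0
    rw [inner_sub_right, hp, sub_eq_zero]
  rw [hset]
  refine Measure.addHaar_affineSubspace volume A ?_
  intro htop
  have h1 : p0 + v ∈ (A : Set E3) := by rw [htop]; trivial
  rw [← hset] at h1
  have h2 : ⟪v, p0 + v⟫ = c := h1
  rw [inner_add_right, hp] at h2
  exact hv2 (by linarith)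

theorem pert_null (F : E2 → E3) (z : E2) (hF : ContDiffAt ℝ 2 F z) (hg : gD F z ≠ 0) :
    volume {b : E3 | KnF (pert b F) z = 0} = 0 := by
  set N : E3 := cross (Fx F z) (Fy F z) with hN'
  have hNN : ⟪N, N⟫ = gD F z := PNULL_lagrange _ _
  have hN0 : N ≠ 0 := by
    intro h
    rw [h, inner_zero_left] at hNN
    exact hg hNN.symm
  have hDpos : 0 < gD F z := lt_of_le_of_ne (by rw [← hNN]; exact real_inner_self_nonneg) (Ne.symm hg)
  set E := gE F z with hE
  set G := gG F z with hG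
  set K := gF F z with hK
  set L := hL F z with hL'
  set M := hM F z with hM'
  set R := hN F z with hR'
  have hDdef : gD F z = E * G - K ^ 2 := rfl
  have hKn : KnF F z = L * R - M ^ 2 := rfl
  set D := gD F z with hD
  set m := E * R - 2 * K * M + G * L with hm
  have hE0 : 0 ≤ E := real_inner_self_nonneg
  have hEne : E ≠ 0 := by
    intro h
    rw [h] at hDdef
    nlinarith [sq_nonneg K]
  have hdisc : 0 ≤ m ^ 2 - 4 * D * (L * R - M ^ 2) := by
    have h1 : E ^ 2 * (m ^ 2 - 4 * D * (L * R - M ^ 2))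
        = (E * (E * R - G * L) - 2 * K * (E * M - K * L)) ^ 2 + 4 * D * (E * M - K * L) ^ 2 := by
      rw [hm, hDdef]; ring
    have h2 : 0 ≤ E ^ 2 * (m ^ 2 - 4 * D * (L * R - M ^ 2)) := by
      rw [h1]; positivity
    have h3 : 0 < E ^ 2 := by positivity
    exact nonneg_of_mul_nonneg_right h2 h3
  set s := Real.sqrt (m ^ 2 - 4 * D * (L * R - M ^ 2)) with hs
  have hs2 : s ^ 2 = m ^ 2 - 4 * D * (L * R - M ^ 2) := Real.sq_sqrt hdisc
  have hfac : ∀ b : E3, KnF (pert b F) z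
      = D * ((m + s) / (2 * D) + 2 * ⟪((m + s) / (2 * D)) • F z + N, b⟫)
          * ((m - s) / (2 * D) + 2 * ⟪((m - s) / (2 * D)) • F z + N, b⟫) := by
    intro b
    rw [pert_formula F z hF b, hKn]
    rw [inner_add_left, inner_add_left, real_inner_smul_left, real_inner_smul_left,
      real_inner_comm N b]
    set lam := ⟪F z, b⟫ with hlam
    set mu := ⟪N, b⟫ with hmu
    have hD0 : D ≠ 0 := hg
    have hsum : D * ((m + s) / (2 * D) + (m - s) / (2 * D)) = m := by field_simp; ring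
    have hprod : D * ((m + s) / (2 * D) * ((m - s) / (2 * D))) = L * R - M ^ 2 := by
      have h4 : (m + s) * (m - s) = 4 * D * (L * R - M ^ 2) := by
        have : (m + s) * (m - s) = m ^ 2 - s ^ 2 := by ring
        rw [this, hs2]; ring
      rw [div_mul_div_comm, h4]
      field_simp
      ring
    rw [← hm]
    linear_combination (-(1 + 2 * lam) ^ 2) * hprod - (1 + 2 * lam) * (2 * mu) * hsum
  have hnull : ∀ k : ℝ, volume {b : E3 | k + 2 * ⟪k • F z + N, b⟫ = 0} = 0 := by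
    intro k
    by_cases hv : k • F z + N = 0
    · have hk : k ≠ 0 := by
        rintro rfl
        rw [zero_smul, zero_add] at hv
        exact hN0 hv
      have : {b : E3 | k + 2 * ⟪k • F z + N, b⟫ = 0} = ∅ := by
        ext b
        simp [hv, hk]
      rw [this, measure_empty]
    · have : {b : E3 | k + 2 * ⟪k • F z + N, b⟫ = 0} = {b : E3 | ⟪k • F z + N, b⟫ = - k / 2} := by
        ext b
        show _ = _ ↔ _ = _
        constructor
        · intro h; linarith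
        · intro h; rw [h]; ring
      rw [this]
      exact PNULL_plane _ hv _
  refine measure_mono_null ?_ (measure_union_null (hnull ((m + s) / (2 * D))) (hnull ((m - s) / (2 * D))))
  intro b hb
  have hb' : KnF (pert b F) z = 0 := hb
  rw [hfac b] at hb'
  rcases mul_eq_zero.1 hb' with h | h
  · rcases mul_eq_zero.1 h with h | h
    · exact absurd h hg
    · exact Or.inl h
  · exact Or.inr h

end Pnull

end Topping
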