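import Mathlib
import Pool.Agent.Lib.MP_bea121_gt.TC.Defs4
import Pool.Agent.Lib.MP_bea121_gt.TC.Pnull

/-!
# Module PCONT (MP_bea121_gt): continuity of the mean curvature density in the perturbation
-/

open MeasureTheory Set Metric Topology Filter
open scoped RealInnerProductSpace Gradient ContDiff Manifold

noncomputable section

namespace Topping

theorem PCONT_cross : Continuous (fun p : E3 × E3 => cross p.1 p.2) := by
  unfold cross
  refine (PiLp.continuous_toLp 2 (fun _ : Fin 3 => ℝ)).comp ?_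
  refine continuous_pi fun i => ?_
  fin_cases i
  · show Continuous fun p : E3 × E3 => p.1 1 * p.2 2 - p.1 2 * p.2 1
    fun_prop
  · show Continuous fun p : E3 × E3 => p.1 2 * p.2 0 - p.1 0 * p.2 2
    fun_prop
  · show Continuous fun p : E3 × E3 => p.1 0 * p.2 1 - p.1 1 * p.2 0
    fun_prop

/-- continuity of the derivatives -/
theorem PCONT_derivs (F : E2 → E3) (U : Set E2) (hU : IsOpen U) (hF : ContDiffOn ℝ 2 F U) :
    ContinuousOn (Fx F) U ∧ ContinuousOn (Fy F) U ∧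
      ContinuousOn (fun z => fderiv ℝ (Fx F) z ex) U ∧
      ContinuousOn (fun z => fderiv ℝ (Fx F) z ey) U ∧
      ContinuousOn (fun z => fderiv ℝ (Fy F) z ey) U := by
  have h1 : ContDiffOn ℝ 1 (fderiv ℝ F) U := hF.fderiv_of_isOpen hU (by norm_num)
  have hx : ContDiffOn ℝ 1 (Fx F) U := h1.clm_apply contDiffOn_const
  have hy : ContDiffOn ℝ 1 (Fy F) U := h1.clm_apply contDiffOn_const
  have hxx := hx.continuousOn_fderiv_of_isOpen hU (by norm_num)
  have hyy := hy.continuousOn_fderiv_of_isOpen hU (by norm_num)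
  exact ⟨hx.continuousOn, hy.continuousOn, hxx.clm_apply continuousOn_const,
    hxx.clm_apply continuousOn_const, hyy.clm_apply continuousOn_const⟩

/-- continuity of the coefficients of the fundamental forms -/
theorem PCONT_coeff (F : E2 → E3) (U : Set E2) (hU : IsOpen U) (hF : ContDiffOn ℝ 2 F U) :
    ContinuousOn (gE F) U ∧ ContinuousOn (gF F) U ∧ ContinuousOn (gG F) U ∧
      ContinuousOn (hL F) U ∧ ContinuousOn (hM F) U ∧ ContinuousOn (hN F) U ∧
      ContinuousOn (fun z => cross (Fx F z) (Fy F z)) U := by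
  obtain ⟨hx, hy, hxx, hxy, hyy⟩ := PCONT_derivs F U hU hF
  have hc : ContinuousOn (fun z => cross (Fx F z) (Fy F z)) U :=
    PCONT_cross.comp_continuousOn (hx.prodMk hy)
  exact ⟨hx.inner hx, hx.inner hy, hy.inner hy, hxx.inner hc, hxy.inner hc,
    hyy.inner hc, hc⟩

/-- joint continuity of the coefficients of the perturbed surface -/
theorem PCONT_joint (F : E2 → E3) (U : Set E2) (hU : IsOpen U) (hF : ContDiffOn ℝ 2 F U) :
    ContinuousOn (fun p : E3 × E2 => gE (pert p.1 F) p.2) (univ ×ˢ U) ∧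
      ContinuousOn (fun p : E3 × E2 => gF (pert p.1 F) p.2) (univ ×ˢ U) ∧
      ContinuousOn (fun p : E3 × E2 => gG (pert p.1 F) p.2) (univ ×ˢ U) ∧
      ContinuousOn (fun p : E3 × E2 => hL (pert p.1 F) p.2) (univ ×ˢ U) ∧
      ContinuousOn (fun p : E3 × E2 => hM (pert p.1 F) p.2) (univ ×ˢ U) ∧
      ContinuousOn (fun p : E3 × E2 => hN (pert p.1 F) p.2) (univ ×ˢ U) := by
  obtain ⟨hx, hy, -, -, -⟩ := PCONT_derivs F U hU hF
  obtain ⟨cE, cF, cG, cL, cM, cN, cc⟩ := PCONT_coeff F U hU hF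
  have at2 : ∀ z ∈ U, ContDiffAt ℝ 2 F z := fun z hz => hF.contDiffAt (hU.mem_nhds hz)
  have lift : ∀ {X : Type} [TopologicalSpace X] {φ : E2 → X}, ContinuousOn φ U →
      ContinuousOn (fun p : E3 × E2 => φ p.2) (univ ×ˢ U) := by
    intro X _ φ hφ
    exact hφ.comp continuousOn_snd fun p hp => hp.2
  have hb : ContinuousOn (fun p : E3 × E2 => p.1) (univ ×ˢ U) := continuousOn_fst
  have lF := lift hF.continuousOn
  have lx := lift hx
  have ly := lift hy
  have lc := lift cc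
  have X : ContinuousOn (fun p : E3 × E2 => Fx (pert p.1 F) p.2) (univ ×ˢ U) := by
    have h0 : ContinuousOn (fun p : E3 × E2 => 2 * ⟪F p.2, Fx F p.2⟫) (univ ×ˢ U) :=
      continuousOn_const.mul (lF.inner lx)
    have h : ContinuousOn (fun p : E3 × E2 => Fx F p.2 + (2 * ⟪F p.2, Fx F p.2⟫) • p.1) (univ ×ˢ U) :=
      lx.add (h0.smul hb)
    exact h.congr fun p hp =>
      PNULL_fderiv_pert F p.1 p.2 ((at2 p.2 hp.2).differentiableAt (by norm_num)) ex
  have Y : ContinuousOn (fun p : E3 × E2 => Fy (pert p.1 F) p.2) (univ ×ˢ U) := by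
    have h0 : ContinuousOn (fun p : E3 × E2 => 2 * ⟪F p.2, Fy F p.2⟫) (univ ×ˢ U) :=
      continuousOn_const.mul (lF.inner ly)
    have h : ContinuousOn (fun p : E3 × E2 => Fy F p.2 + (2 * ⟪F p.2, Fy F p.2⟫) • p.1) (univ ×ˢ U) :=
      ly.add (h0.smul hb)
    exact h.congr fun p hp =>
      PNULL_fderiv_pert F p.1 p.2 ((at2 p.2 hp.2).differentiableAt (by norm_num)) ey
  have form : ∀ {a g : E2 → ℝ}, ContinuousOn a U → ContinuousOn g U →
      ContinuousOn (fun p : E3 × E2 => (1 + 2 * ⟪F p.2, p.1⟫) * a p.2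
        + 2 * ⟪p.1, cross (Fx F p.2) (Fy F p.2)⟫ * g p.2) (univ ×ˢ U) := by
    intro a g ha hg
    exact ((continuousOn_const.add (continuousOn_const.mul (lF.inner hb))).mul (lift ha)).add
      ((continuousOn_const.mul (hb.inner lc)).mul (lift hg))
  refine ⟨X.inner X, X.inner Y, Y.inner Y, ?_, ?_, ?_⟩
  · exact (form cL cE).congr fun p hp => (PNULL_forms F p.2 (at2 p.2 hp.2) p.1).1
  · exact (form cM cF).congr fun p hp => (PNULL_forms F p.2 (at2 p.2 hp.2) p.1).2.1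
  · exact (form cN cG).congr fun p hp => (PNULL_forms F p.2 (at2 p.2 hp.2) p.1).2.2

theorem PCONT_gD (F : E2 → E3) (U : Set E2) (hU : IsOpen U) (hF : ContDiffOn ℝ 2 F U) :
    ContinuousOn (fun p : E3 × E2 => gD (pert p.1 F) p.2) (univ ×ˢ U) := by
  obtain ⟨cE, cF, cG, -, -, -⟩ := PCONT_joint F U hU hF
  exact (cE.mul cG).sub (cF.pow 2)

theorem PCONT_KnF (F : E2 → E3) (U : Set E2) (hU : IsOpen U) (hF : ContDiffOn ℝ 2 F U) :
    ContinuousOn (fun p : E3 × E2 => KnF (pert p.1 F) p.2) (univ ×ˢ U) := by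
  obtain ⟨-, -, -, cL, cM, cN⟩ := PCONT_joint F U hU hF
  exact (cL.mul cN).sub (cM.pow 2)

theorem PCONT_HdF (F : E2 → E3) (U : Set E2) (hU : IsOpen U) (hF : ContDiffOn ℝ 2 F U) :
    ContinuousOn (fun p : E3 × E2 => HdF (pert p.1 F) p.2)
      ((univ ×ˢ U) ∩ {p | gD (pert p.1 F) p.2 ≠ 0}) := by
  obtain ⟨cE, cF, cG, cL, cM, cN⟩ := PCONT_joint F U hU hF
  have cD := PCONT_gD F U hU hF
  have hnum : ContinuousOn (fun p : E3 × E2 => |gE (pert p.1 F) p.2 * hN (pert p.1 F) p.2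
      - 2 * gF (pert p.1 F) p.2 * hM (pert p.1 F) p.2
      + gG (pert p.1 F) p.2 * hL (pert p.1 F) p.2|) (univ ×ˢ U) :=
    (((cE.mul cN).sub ((continuousOn_const.mul cF).mul cM)).add (cG.mul cL)).abs
  refine (hnum.mono inter_subset_left).div
    ((continuousOn_const.mul cD).mono inter_subset_left) ?_
  rintro p ⟨_, hp⟩
  exact mul_ne_zero two_ne_zero hp

theorem PCONT_zero (F : E2 → E3) : pert 0 F = F := by
  funext z
  simp [pert]

theorem pert_cont (F : E2 → E3) (U : Set E2) (hU : IsOpen U) (hF : ContDiffOn ℝ 2 F U)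
    (hg : ∀ z ∈ U, gD F z ≠ 0) (K : Set E2) (hK : IsCompact K) (hKU : K ⊆ U) (η : ℝ) (hη : 0 < η) :
    ∃ β > 0, ∀ b : E3, ‖b‖ < β → ∀ z ∈ K, gD (pert b F) z ≠ 0 ∧ |HdF (pert b F) z - HdF F z| < η := by
  have hUo : IsOpen ((univ : Set E3) ×ˢ U) := isOpen_univ.prod hU
  set W : Set (E3 × E2) := (univ ×ˢ U) ∩ {p | gD (pert p.1 F) p.2 ≠ 0} with hW
  have hWo : IsOpen W := (PCONT_gD F U hU hF).isOpen_inter_preimage hUo isOpen_ne
  have hH := PCONT_HdF F U hU hF
  have hH0 : ContinuousOn (fun p : E3 × E2 => HdF F p.2) W := by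
    have h1 : ContinuousOn (fun p : E3 × E2 => ((0 : E3), p.2)) W :=
      (continuous_const.prodMk continuous_snd).continuousOn
    have h2 : MapsTo (fun p : E3 × E2 => ((0 : E3), p.2)) W W := by
      rintro p ⟨⟨_, hp⟩, _⟩
      refine ⟨⟨mem_univ _, hp⟩, ?_⟩
      show gD (pert 0 F) p.2 ≠ 0
      rw [PCONT_zero]
      exact hg _ hp
    have h3 := hH.comp h1 h2
    refine h3.congr fun p _ => ?_
    show HdF F p.2 = HdF (pert 0 F) p.2
    rw [PCONT_zero]
  set n : Set (E3 × E2) := W ∩ (fun p : E3 × E2 => |HdF (pert p.1 F) p.2 - HdF F p.2|) ⁻¹' Iio η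
    with hn
  have hno : IsOpen n := (hH.sub hH0).abs.isOpen_inter_preimage hWo isOpen_Iio
  have hsub : ({(0 : E3)} : Set E3) ×ˢ K ⊆ n := by
    rintro ⟨b, z⟩ ⟨hb, hz⟩
    have hb' : b = 0 := hb
    subst hb'
    refine ⟨⟨⟨mem_univ _, hKU hz⟩, ?_⟩, ?_⟩
    · show gD (pert 0 F) z ≠ 0
      rw [PCONT_zero]
      exact hg _ (hKU hz)
    · show |HdF (pert 0 F) z - HdF F z| < η
      rw [PCONT_zero, sub_self, abs_zero]
      exact hη
  obtain ⟨u, v, hu, _, h0u, hKv, huv⟩ := generalized_tube_lemma isCompact_singleton hK hno hsub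
  obtain ⟨β, hβ, hβu⟩ := Metric.isOpen_iff.1 hu 0 (h0u rfl)
  refine ⟨β, hβ, fun b hb z hz => ?_⟩
  have h1 : (b, z) ∈ n := huv ⟨hβu (by rwa [mem_ball_zero_iff]), hKv hz⟩
  exact ⟨h1.1.2, h1.2⟩

end Topping
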