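import Mathlib
import Pool.Agent.Lib.MP_bea121_gt.TC.Defs4
import Pool.Agent.Lib.MP_bea121_gt.TC.Pnull
import Pool.Agent.Lib.MP_bea121_gt.TC.Pcont
import Pool.Agent.Lib.MP_bea121_gt.TC.Mch
import Pool.Agent.Lib.MP_bea121_gt.TC.Cpart

/-!
# Module DEGAE (MP_bea121_gt): for almost every `b` the perturbed surface has almost nowhere zero
curvature; limits `b → 0`
-/

open MeasureTheory Set Metric Topology Filter
open scoped RealInnerProductSpace Gradient ContDiff Manifold

noncomputable section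

namespace Topping

/-- one parametrization -/
theorem DEGAE_ae (F : E2 → E3) (U : Set E2) (hU : IsOpen U) (hF : ContDiffOn ℝ 2 F U)
    (hg : ∀ z ∈ U, gD F z ≠ 0) : ∀ᵐ b : E3, volume {z | z ∈ U ∧ KnF (pert b F) z = 0} = 0 := by
  set D : Set (E3 × E2) := (univ ×ˢ U) ∩ (fun p : E3 × E2 => KnF (pert p.1 F) p.2) ⁻¹' {0} with hD
  have hDm : MeasurableSet D :=
    measurableSet_inter_preimage_of_continuousOn (isOpen_univ.prod hU).measurableSet
      (PCONT_KnF F U hU hF) (measurableSet_singleton 0)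
  have h0 : ((volume : Measure E3).prod (volume : Measure E2)) D = 0 := by
    rw [Measure.prod_apply_symm hDm]
    have : ∀ z : E2, volume ((fun b : E3 => (b, z)) ⁻¹' D) = 0 := by
      intro z
      by_cases hz : z ∈ U
      · refine measure_mono_null ?_ (pert_null F z (hF.contDiffAt (hU.mem_nhds hz)) (hg z hz))
        rintro b ⟨_, hb⟩
        exact hb
      · have : (fun b : E3 => (b, z)) ⁻¹' D = ∅ := by
          ext b
          simp only [mem_preimage, mem_empty_iff_false, iff_false]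
          rintro ⟨⟨_, h⟩, _⟩
          exact hz h
        rw [this, measure_empty]
    simp only [this, lintegral_zero]
  have h1 := (Measure.measure_prod_null hDm).1 h0
  refine h1.mono fun b hb => ?_
  refine measure_mono_null ?_ hb
  rintro z ⟨hz, hz'⟩
  exact ⟨⟨mem_univ _, hz⟩, hz'⟩

section Degae
variable {S : Type} [TopologicalSpace S] [CompactSpace S] [T2Space S] [ChartedSpace E2 S] [IsManifold (𝓡 2) ∞ S]
  [MeasurableSpace S] [BorelSpace S]

omit [T2Space S] [BorelSpace S] [CompactSpace S] in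
theorem deg_ae (f : S → E3) (hf : IsImm f) (P : ChartPart S) : ∀ᵐ b : E3, ∀ j : P.J,
    volume {z | z ∈ (chartAt E2 (P.x j)).target ∧ KnF (lp (fpert b f) (P.x j)) z = 0} = 0 := by
  rw [ae_all_iff]
  intro j
  have h := imm_chart f hf (P.x j)
  exact DEGAE_ae (lp f (P.x j)) _ (chartAt E2 (P.x j)).open_target (h.1.of_le (by norm_cast)) h.2

/-- one piece -/
theorem DEGAE_piece (F : E2 → E3) (U : Set E2) (hU : IsOpen U) (hF : ContDiffOn ℝ 2 F U)
    (hg : ∀ z ∈ U, gD F z ≠ 0) (K : Set E2) (hK : IsCompact K) (hKU : K ⊆ U) (A : Set E2)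
    (hA : MeasurableSet A) (hAK : A ⊆ K) (η : ℝ) (hη : 0 < η) :
    ∀ᶠ b in 𝓝 (0 : E3), |(∫ z in A, HdF (pert b F) z) - ∫ z in A, HdF F z|
      ≤ η * (volume K).toReal := by
  obtain ⟨β, hβ, h⟩ := pert_cont F U hU hF hg K hK hKU η hη
  refine Metric.eventually_nhds_iff.2 ⟨β, hβ, fun b hb => ?_⟩
  rw [dist_zero_right] at hb
  have hb' := h b hb
  have cont : ∀ b : E3, (∀ z ∈ K, gD (pert b F) z ≠ 0) → ContinuousOn (HdF (pert b F)) K := by
    intro b hb
    have h1 : ContinuousOn (fun z : E2 => ((b, z) : E3 × E2)) K :=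
      (continuous_const.prodMk continuous_id).continuousOn
    have h2 : MapsTo (fun z : E2 => ((b, z) : E3 × E2)) K
        ((univ ×ˢ U) ∩ {p : E3 × E2 | gD (pert p.1 F) p.2 ≠ 0}) := by
      intro z hz
      refine ⟨⟨mem_univ _, hKU hz⟩, ?_⟩
      show gD (pert b F) z ≠ 0
      exact hb z hz
    have h3 := (PCONT_HdF F U hU hF).comp h1 h2
    have h4 : ((fun p : E3 × E2 => HdF (pert p.1 F) p.2) ∘ fun z : E2 => ((b, z) : E3 × E2))
        = HdF (pert b F) := by
      funext z
      rfl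
    rw [h4] at h3
    exact h3
  have i1 : IntegrableOn (HdF (pert b F)) A volume :=
    ((cont b fun z hz => (hb' z hz).1).integrableOn_compact hK).mono_set hAK
  have i0 : IntegrableOn (HdF F) A volume := by
    have := (cont 0 fun z hz => by rw [PCONT_zero]; exact hg z (hKU hz)).integrableOn_compact
      (μ := volume) hK
    rw [PCONT_zero] at this
    exact this.mono_set hAK
  rw [← integral_sub i1 i0, ← Real.norm_eq_abs]
  have hfin : volume A < ⊤ := lt_of_le_of_lt (measure_mono hAK) hK.measure_lt_top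
  have h2 := norm_setIntegral_le_of_norm_le_const (μ := volume) (s := A) (C := η)
    (f := fun z => HdF (pert b F) z - HdF F z) hfin
    (fun z hz => by rw [Real.norm_eq_abs]; exact (hb' z (hAK hz)).2.le)
  refine h2.trans (mul_le_mul_of_nonneg_left ?_ hη.le)
  exact ENNReal.toReal_mono hK.measure_lt_top.ne (measure_mono hAK)

theorem mcInt_lim (f : S → E3) (hf : IsImm f) (P : ChartPart S) (η : ℝ) (hη : 0 < η) :
    ∃ β > 0, ∀ b : E3, ‖b‖ < β → |mcInt P (fpert b f) - mcInt P f| < η := by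
  set V : ℝ := ∑ j, (volume (P.K j)).toReal with hV
  have hV0 : 0 ≤ V := Finset.sum_nonneg fun j _ => ENNReal.toReal_nonneg
  set η' : ℝ := η / (V + 1) with hη'
  have hη'0 : 0 < η' := by positivity
  have h1 : ∀ᶠ b in 𝓝 (0 : E3), ∀ j : P.J,
      |(∫ z in chartAt E2 (P.x j) '' P.C j, HdF (pert b (lp f (P.x j))) z)
        - ∫ z in chartAt E2 (P.x j) '' P.C j, HdF (lp f (P.x j)) z| ≤ η' * (volume (P.K j)).toReal := by
    rw [Filter.eventually_all]
    intro j
    have h := imm_chart f hf (P.x j)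
    exact DEGAE_piece (lp f (P.x j)) _ (chartAt E2 (P.x j)).open_target
      (h.1.of_le (by norm_cast)) h.2 (P.K j) (P.compact j) (P.K_sub j) _
      (image_meas (P.x j) (P.C j) (P.meas j) (P.sub j)) (P.image_sub j) η' hη'0
  obtain ⟨β, hβ, h2⟩ := Metric.eventually_nhds_iff.1 h1
  refine ⟨β, hβ, fun b hb => ?_⟩
  have h3 := h2 (by rwa [dist_zero_right] : dist b 0 < β)
  have h4 : mcInt P (fpert b f) - mcInt P f
      = ∑ j, ((∫ z in chartAt E2 (P.x j) '' P.C j, HdF (pert b (lp f (P.x j))) z)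
        - ∫ z in chartAt E2 (P.x j) '' P.C j, HdF (lp f (P.x j)) z) := by
    rw [Finset.sum_sub_distrib]
    rfl
  rw [h4]
  calc |∑ j, ((∫ z in chartAt E2 (P.x j) '' P.C j, HdF (pert b (lp f (P.x j))) z)
        - ∫ z in chartAt E2 (P.x j) '' P.C j, HdF (lp f (P.x j)) z)|
      ≤ ∑ j, η' * (volume (P.K j)).toReal :=
        (Finset.abs_sum_le_sum_abs _ _).trans (Finset.sum_le_sum fun j _ => h3 j)
    _ = η' * V := by rw [← Finset.mul_sum]
    _ < η := by
        rw [hη', div_mul_eq_mul_div, div_lt_iff₀ (by positivity)]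
        nlinarith

omit [T2Space S] [BorelSpace S] [CompactSpace S] in
/-- there are arbitrarily small good perturbations -/
theorem exists_good_b (f : S → E3) (hf : IsImm f) (P : ChartPart S) (β : ℝ) (hβ : 0 < β) : ∃ b : E3, ‖b‖ < β ∧
    ∀ j : P.J, volume {z | z ∈ (chartAt E2 (P.x j)).target ∧ KnF (lp (fpert b f) (P.x j)) z = 0} = 0 := by
  by_contra hcon
  push Not at hcon
  have h := deg_ae f hf P
  rw [ae_iff] at h
  have hpos : 0 < volume (ball (0 : E3) β) := measure_ball_pos volume 0 hβ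
  refine hpos.ne' (measure_mono_null ?_ h)
  intro b hb hall
  obtain ⟨j, hj⟩ := hcon b (by rwa [mem_ball_zero_iff] at hb)
  exact hj (hall j)

end Degae

end Topping
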