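import Mathlib
import Pool.Agent.Lib.MP_bea121_gt.TC.Defs4

/-! # Preimages of null sets under maps with nonzero Jacobian (module NPRE) -/

open MeasureTheory Set Metric Topology Filter
open scoped RealInnerProductSpace Gradient ContDiff Manifold

noncomputable section

namespace Topping

theorem NPRE_det_cont (G : E3 → E3) (hG : ContDiff ℝ 1 G) :
    Continuous fun q => (fderiv ℝ G q).det :=
  ContinuousLinearMap.continuous_det.comp (hG.continuous_fderiv one_ne_zero)

theorem null_preimage (G : E3 → E3) (hG : ContDiff ℝ 1 G) (Q : Set E3)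
    (hdet : ∀ q ∈ Q, LinearMap.det (fderiv ℝ G q : E3 →ₗ[ℝ] E3) ≠ 0) (h0 : volume (G '' Q) = 0) : volume Q = 0 := by
  have hcont := NPRE_det_cont G hG
  refine measure_null_of_locally_null Q fun q hq => ?_
  have hd : (fderiv ℝ G q).det ≠ 0 := hdet q hq
  have hs : HasStrictFDerivAt G (fderiv ℝ G q) q :=
    (hG.contDiffAt (x := q)).hasStrictFDerivAt one_ne_zero
  have hs' : HasStrictFDerivAt G
      (((fderiv ℝ G q).toContinuousLinearEquivOfDetNeZero hd : E3 ≃L[ℝ] E3) : E3 →L[ℝ] E3) q := by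
    rw [ContinuousLinearMap.coe_toContinuousLinearEquivOfDetNeZero]
    exact hs
  obtain ⟨U, hU⟩ : ∃ U, U = (hs'.toOpenPartialHomeomorph G).source ∩
      {x | (fderiv ℝ G x).det ≠ 0} := ⟨_, rfl⟩
  have hUo : IsOpen U := by
    rw [hU]
    exact (hs'.toOpenPartialHomeomorph G).open_source.inter (isOpen_ne_fun hcont continuous_const)
  have hqU : q ∈ U := by
    rw [hU]
    exact ⟨hs'.mem_toOpenPartialHomeomorph_source, hd⟩
  refine ⟨Q ∩ U, inter_mem self_mem_nhdsWithin (mem_nhdsWithin_of_mem_nhds (hUo.mem_nhds hqU)), ?_⟩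
  obtain ⟨N, hN⟩ : ∃ N, N = toMeasurable volume (G '' Q) := ⟨_, rfl⟩
  have hNm : MeasurableSet N := by rw [hN]; exact measurableSet_toMeasurable _ _
  have hN0 : volume N = 0 := by rw [hN, measure_toMeasurable]; exact h0
  have hQm : MeasurableSet (U ∩ G ⁻¹' N) := hUo.measurableSet.inter (hG.continuous.measurable hNm)
  have hsub : Q ∩ U ⊆ U ∩ G ⁻¹' N := by
    rintro x ⟨hxQ, hxU⟩
    refine ⟨hxU, ?_⟩
    rw [mem_preimage, hN]
    exact subset_toMeasurable _ _ (mem_image_of_mem G hxQ)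
  refine measure_mono_null hsub ?_
  have hinj : InjOn G (U ∩ G ⁻¹' N) := by
    intro x hx y hy hxy
    rw [hU] at hx hy
    exact (hs'.toOpenPartialHomeomorph G).injOn hx.1.1 hy.1.1 hxy
  have h1 := lintegral_abs_det_fderiv_eq_addHaar_image (volume : Measure E3) hQm
    (f' := fun x => fderiv ℝ G x)
    (fun x _ => ((hG.differentiable one_ne_zero) x).hasFDerivAt.hasFDerivWithinAt) hinj
  have h2 : volume (G '' (U ∩ G ⁻¹' N)) = 0 := by
    refine measure_mono_null ?_ hN0
    rintro _ ⟨x, hx, rfl⟩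
    exact hx.2
  rw [h2, lintegral_eq_zero_iff (hcont.measurable.abs.ennreal_ofReal)] at h1
  have h3 := (ae_restrict_iff' hQm).mp h1
  have h4 : ∀ᵐ x ∂(volume : Measure E3), x ∉ U ∩ G ⁻¹' N := by
    filter_upwards [h3] with x hx hxQ
    have h5 := hx hxQ
    have h6 : (fderiv ℝ G x).det ≠ 0 := by
      have := hxQ.1
      rw [hU] at this
      exact this.2
    simp only [Pi.zero_apply, ENNReal.ofReal_eq_zero] at h5
    have h7 := abs_pos.mpr h6
    linarith
  exact measure_eq_zero_iff_ae_notMem.mpr h4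

theorem null_image2 (τ : E2 → E2) (U : Set E2) (hU : IsOpen U) (hτ : ContDiffOn ℝ 1 τ U) (Q : Set E2) (hQ : Q ⊆ U)
    (h0 : volume Q = 0) : volume (τ '' Q) = 0 :=
  addHaar_image_eq_zero_of_differentiableOn_of_addHaar_eq_zero volume
    (fun x hx => ((hτ.differentiableOn one_ne_zero x (hQ hx)).differentiableAt
      (hU.mem_nhds (hQ hx))).differentiableWithinAt) h0

end Topping
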