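import Mathlib
import Pool.Agent.Lib.MP_bea121_gt.TC.Defs4
import Pool.Agent.Lib.MP_bea121_gt.TC.Basic
import Pool.Agent.Lib.MP_bea121_gt.TC.Gmap

/-! # Degenerate directions (module SARD) -/

open MeasureTheory Set Metric Topology Filter
open scoped RealInnerProductSpace Gradient ContDiff Manifold

noncomputable section

namespace Topping

section Sard
variable {S : Type} [TopologicalSpace S] (M : MongeSurf S)

theorem SARD_compact {K : Set E3} (hK : IsCompact K) : IsCompact (M.degen ∩ K) := by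
  have h1 : M.degen ∩ K = ⋃ i, Prod.snd '' ((closedBall (0 : E2) (2 * M.R i) ×ˢ K) ∩
      {p : E2 × E3 | M.Phi i p.1 p.2 = 0 ∧ M.hdet i p.1 = 0}) := by
    ext y
    constructor
    · rintro ⟨⟨i, z, hz, hP, hd⟩, hy⟩
      exact mem_iUnion.mpr ⟨i, (z, y), ⟨⟨hz, hy⟩, hP, hd⟩, rfl⟩
    · intro hy
      obtain ⟨i, ⟨z, y'⟩, ⟨⟨hz, hy'⟩, hP, hd⟩, rfl⟩ := mem_iUnion.mp hy
      exact ⟨⟨i, z, hz, hP, hd⟩, hy'⟩
  rw [h1]
  refine isCompact_iUnion fun i => ?_
  obtain ⟨-, h2, -, -, h3⟩ := hess_cont M i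
  have h4 : Continuous fun p : E2 × E3 => M.Phi i p.1 p.2 := by
    unfold MongeSurf.Phi
    have h5 : Continuous fun p : E2 × E3 =>
        ContinuousLinearMap.adjoint (M.L i).toContinuousLinearMap p.2 :=
      (ContinuousLinearMap.continuous _).comp continuous_snd
    have h6 : Continuous fun p : E2 × E3 => ⟪M.c i, p.2⟫ := continuous_const.inner continuous_snd
    exact h5.add (h6.smul (h3.comp continuous_fst))
  refine IsCompact.image ?_ continuous_snd
  refine ((isCompact_closedBall _ _).prod hK).inter_right ?_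
  exact (isClosed_eq h4 continuous_const).inter
    (isClosed_eq (h2.comp continuous_fst) continuous_const)

theorem degen_compact : IsCompact (M.degen ∩ Sh) := by
  refine SARD_compact M ?_
  have h1 : Sh = closedBall (0 : E3) 2 ∩ {y : E3 | 1 ≤ ‖y‖} := by
    ext y
    rw [Sh, mem_inter_iff, mem_closedBall_zero_iff]
    exact and_comm
  rw [h1]
  exact (isCompact_closedBall _ _).inter_right (isClosed_le continuous_const continuous_norm)

theorem degen_smul (t : ℝ) (y : E3) (h : y ∈ M.degen) : t • y ∈ M.degen := by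
  obtain ⟨i, z, hz, hP, hd⟩ := h
  exact ⟨i, z, hz, by rw [Phi_smul, hP, smul_zero], hd⟩

/-- the whole cone is null -/
theorem degen_null : volume M.degen = 0 := by
  have h1 : M.degen ⊆ ⋃ i, M.Gq i '' {q | M.hdet i (M.pr i q) = 0} := by
    rintro y ⟨i, z, hz, hP, hd⟩
    refine mem_iUnion.mpr ⟨i, M.L i z + ⟪M.c i, y⟫ • M.c i, ?_, Gq_of_crit M i z y hP⟩
    change M.hdet i (M.pr i (M.L i z + ⟪M.c i, y⟫ • M.c i)) = 0
    rw [(pr_L M i z _).1]
    exact hd
  refine measure_mono_null h1 (measure_iUnion_null fun i => ?_)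
  refine addHaar_image_eq_zero_of_det_fderivWithin_eq_zero volume
    (f' := fun q => fderiv ℝ (M.Gq i) q) (fun q _ => ?_) (fun q hq => ?_)
  · exact (((Gq_contDiff M i).differentiable one_ne_zero) q).hasFDerivAt.hasFDerivWithinAt
  · have h2 := Gq_det M i q
    have h3 : M.hdet i (M.pr i q) = 0 := hq
    rw [h3, mul_zero] at h2
    exact h2

theorem degen_meas : MeasurableSet M.degen := by
  have h1 : M.degen = ⋃ n : ℕ, M.degen ∩ closedBall (0 : E3) n := by
    rw [← inter_iUnion, iUnion_closedBall_nat, inter_univ]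
  rw [h1]
  exact MeasurableSet.iUnion fun n => (SARD_compact M (isCompact_closedBall _ _)).measurableSet
end Sard

end Topping
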