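import Mathlib
import Pool.Agent.Lib.MP_bea121_gt.TC.Defs4
import Pool.Agent.Lib.MP_bea121_gt.TC.Sard
import Pool.Agent.Lib.MP_bea121_gt.TC.Npre
import Pool.Agent.Lib.MP_bea121_gt.TC.Gmap
import Pool.Agent.Lib.MP_bea121_gt.TC.Basic
import Pool.Agent.Lib.MP_bea121_gt.TC.Prod

open MeasureTheory Set Metric Topology Filter
open scoped RealInnerProductSpace Gradient ContDiff Manifold

noncomputable section

namespace Topping

section Exh
variable {S : Type} [TopologicalSpace S] (M : MongeSurf S)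

lemma EXH_Phi_cont (i : M.ι) : Continuous (fun p : E2 × E3 => M.Phi i p.1 p.2) := by
  have h := (hess_cont M i).2.2.2.2
  have h1 : Continuous (fun p : E2 × E3 =>
      ContinuousLinearMap.adjoint (M.L i).toContinuousLinearMap p.2) :=
    (ContinuousLinearMap.continuous _).comp continuous_snd
  have h2 : Continuous (fun p : E2 × E3 => ⟪M.c i, p.2⟫) := continuous_const.inner continuous_snd
  have h3 : Continuous (fun p : E2 × E3 => ∇ (M.g i) p.1) := h.comp continuous_fst
  exact h1.add (h2.smul h3)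

lemma EXH_Sh_compact : IsCompact Sh := by
  have h1 : IsClosed Sh := by
    unfold Sh
    exact (isClosed_le continuous_const continuous_norm).inter (isClosed_le continuous_norm continuous_const)
  refine (isCompact_closedBall (0 : E3) 2).of_isClosed_subset h1 ?_
  intro y hy
  simpa using hy.2

/-- projections of compact sets -/
lemma EXH_proj (i : M.ι) (K : Set E3) (hK : IsCompact K) (B : Set E2) (hB : IsCompact B) (δ : ℝ) :
    IsCompact {z | z ∈ B ∧ ∃ y ∈ K, ‖M.Phi i z y‖ ≤ δ} := by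
  have h1 : IsCompact ((B ×ˢ K) ∩ {p : E2 × E3 | ‖M.Phi i p.1 p.2‖ ≤ δ}) :=
    (hB.prod hK).inter_right (isClosed_le (EXH_Phi_cont M i).norm continuous_const)
  have h2 := h1.image continuous_fst
  convert h2 using 1
  ext z
  constructor
  · rintro ⟨hz, y, hy, h⟩
    exact ⟨(z, y), ⟨⟨hz, hy⟩, h⟩, rfl⟩
  · rintro ⟨⟨z', y⟩, ⟨⟨hz, hy⟩, h⟩, rfl⟩
    exact ⟨hz, y, hy, h⟩

theorem normal_null (i : M.ι) (hdeg : volume {z | z ∈ ball (0 : E2) (4 * M.R i) ∧ M.hdet i z = 0} = 0) :
    volume {z | z ∈ closedBall (0 : E2) (4 * M.R i) ∧ ∃ y ∈ M.degen ∩ Sh, M.Phi i z y = 0} = 0 := by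
  set Z : Set E2 := {z | z ∈ closedBall (0 : E2) (4 * M.R i) ∧ ∃ y ∈ M.degen ∩ Sh, M.Phi i z y = 0} with hZ
  have hZc : IsCompact Z := by
    have := EXH_proj M i (M.degen ∩ Sh) (degen_compact M) (closedBall (0 : E2) (4 * M.R i))
      (isCompact_closedBall _ _) 0
    simp only [norm_le_zero_iff] at this
    exact this
  have hdetc : Continuous (M.hdet i) := (hess_cont M i).2.1
  set Z' : Set E2 := Z ∩ ball (0 : E2) (4 * M.R i) ∩ {z | M.hdet i z ≠ 0} with hZ'
  have hZ'm : MeasurableSet Z' :=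
    (hZc.isClosed.measurableSet.inter measurableSet_ball).inter
      (isOpen_ne.preimage hdetc).measurableSet
  have hsub : Z ⊆ (sphere (0 : E2) (4 * M.R i) ∪ {z | z ∈ ball (0 : E2) (4 * M.R i) ∧ M.hdet i z = 0}) ∪ Z' := by
    intro z hz
    by_cases hb : z ∈ ball (0 : E2) (4 * M.R i)
    · by_cases hd : M.hdet i z = 0
      · exact Or.inl (Or.inr ⟨hb, hd⟩)
      · exact Or.inr ⟨⟨hz, hb⟩, hd⟩
    · refine Or.inl (Or.inl ?_)
      have h1 := hz.1
      simp only [mem_closedBall, mem_ball, not_lt, mem_sphere] at h1 hb ⊢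
      exact le_antisymm h1 hb
  have hsph : volume (sphere (0 : E2) (4 * M.R i)) = 0 := Measure.addHaar_sphere volume _ _
  have hZ'0 : volume Z' = 0 := by
    set Q : Set E3 := {q | M.pr i q ∈ Z' ∧ ⟪M.c i, q⟫ ∈ Icc (1 : ℝ) 2} with hQ
    have hQ0 : volume Q = 0 := by
      refine null_preimage (M.Gq i) (Gq_contDiff M i) Q ?_ ?_
      · rintro q ⟨hq1, hq2⟩
        rw [Gq_det]
        exact mul_ne_zero (pow_ne_zero 2 (by linarith [hq2.1])) hq1.2
      · refine measure_mono_null ?_ (degen_null M)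
        rintro _ ⟨q, ⟨hq1, hq2⟩, rfl⟩
        obtain ⟨y, hy, hPhi⟩ := hq1.1.1.2
        have hq := Gq_crit M i q
        have hcy : ⟪M.c i, y⟫ ≠ 0 := by
          intro h0
          have := (y_norm_le M i _ y hPhi).2
          rw [h0, abs_zero, mul_zero] at this
          have h1 := hy.2.1
          linarith
        have e1 : M.pr i y = -(⟪M.c i, y⟫ • ∇ (M.g i) (M.pr i q)) := by
          have := hPhi
          rw [Phi_eq] at this
          exact eq_neg_of_add_eq_zero_left this
        have e2 : M.pr i (M.Gq i q) = -(⟪M.c i, q⟫ • ∇ (M.g i) (M.pr i q)) := by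
          have := hq.1
          rw [Phi_eq, hq.2] at this
          exact eq_neg_of_add_eq_zero_left this
        have e3 : M.Gq i q = (⟪M.c i, q⟫ / ⟪M.c i, y⟫) • y := by
          have d1 := decomp M i (M.Gq i q)
          have d2 := decomp M i y
          rw [e2, hq.2] at d1
          rw [e1] at d2
          generalize ⟪M.c i, y⟫ = ty at hcy d2
          generalize ⟪M.c i, q⟫ = tq at d1
          rw [d1]
          conv_rhs => rw [d2]
          rw [smul_add, ← map_smul, smul_smul, div_mul_cancel₀ _ hcy]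
          congr 2
          rw [smul_neg, smul_smul, div_mul_cancel₀ _ hcy]
        rw [e3]
        exact degen_smul M _ _ hy.1
    have hpre : (fun p : E2 × ℝ => M.L i p.1 + p.2 • M.c i) ⁻¹' Q = Z' ×ˢ Icc (1 : ℝ) 2 := by
      ext ⟨z, ρ⟩
      have := pr_L M i z ρ
      simp only [hQ, mem_preimage, Set.mem_ofPred_eq, mem_prod, this.1, this.2]
    have hQm : MeasurableSet Q := by
      have h1 : Continuous (M.pr i) := by
        unfold MongeSurf.pr
        exact ContinuousLinearMap.continuous _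
      have h2 : Continuous (fun q : E3 => ⟪M.c i, q⟫) := continuous_const.inner continuous_id
      exact (h1.measurable hZ'm).inter (h2.measurable measurableSet_Icc)
    have h3 := (mp_prod (M.L i) (M.c i) (M.c_norm i) (M.c_perp i)).measure_preimage hQm.nullMeasurableSet
    rw [hpre, Measure.prod_prod, hQ0] at h3
    rw [Real.volume_Icc] at h3
    simpa [show (2 : ℝ) - 1 = 1 by norm_num] using h3
  exact measure_mono_null hsub (measure_union_null (measure_union_null hsph hdeg) hZ'0)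

theorem degen_exhaust (hdeg : ∀ i, volume {z | z ∈ ball (0 : E2) (4 * M.R i) ∧ M.hdet i z = 0} = 0)
    (η : ℝ) (hη : 0 < η) : ∃ τ > 0, ∃ r₁ > 0, ∀ r, 0 < r → r ≤ r₁ →
      ∑ i, (volume {z | z ∈ ball (0 : E2) (4 * M.R i) ∧
        ∃ y ∈ Sh ∩ cthickening τ (M.degen ∩ Sh), ‖M.Phi i z y‖ ≤ 3 * r}).toReal < η := by
  set K : Set E3 := M.degen ∩ Sh with hK
  have hKc : IsCompact K := degen_compact M
  let A : ℕ → Set E3 := fun n => Sh ∩ cthickening (1 / ((n : ℝ) + 1)) K
  have hAc : ∀ n, IsCompact (A n) := fun n => EXH_Sh_compact.inter_right isClosed_cthickening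
  have hmono : ∀ m n : ℕ, m ≤ n → 1 / ((n : ℝ) + 1) ≤ 1 / ((m : ℝ) + 1) := by
    intro m n h
    apply one_div_le_one_div_of_le (by positivity)
    have : (m : ℝ) ≤ n := by exact_mod_cast h
    linarith
  let Z : M.ι → ℕ → Set E2 := fun i n => {z | z ∈ closedBall (0 : E2) (4 * M.R i) ∧
    ∃ y ∈ A n, ‖M.Phi i z y‖ ≤ 3 * (1 / ((n : ℝ) + 1))}
  have hZc : ∀ i n, IsCompact (Z i n) := fun i n =>
    EXH_proj M i (A n) (hAc n) _ (isCompact_closedBall _ _) _
  have hZanti : ∀ i, Antitone (Z i) := by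
    intro i m n h z hz
    obtain ⟨hz1, y, hy, hz2⟩ := hz
    refine ⟨hz1, y, ⟨hy.1, cthickening_mono (hmono m n h) _ hy.2⟩, hz2.trans ?_⟩
    have := hmono m n h
    linarith
  have hZfin : ∀ i n, volume (Z i n) ≠ ⊤ := fun i n => (hZc i n).measure_lt_top.ne
  have hinter : ∀ i, (⋂ n, Z i n) ⊆ {z | z ∈ closedBall (0 : E2) (4 * M.R i) ∧ ∃ y ∈ K, M.Phi i z y = 0} := by
    intro i z hz
    rw [mem_iInter] at hz
    refine ⟨(hz 0).1, ?_⟩
    let T : ℕ → Set E3 := fun n => A n ∩ {y | ‖M.Phi i z y‖ ≤ 3 * (1 / ((n : ℝ) + 1))}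
    have hcl : ∀ n, IsClosed {y : E3 | ‖M.Phi i z y‖ ≤ 3 * (1 / ((n : ℝ) + 1))} := fun n =>
      isClosed_le ((EXH_Phi_cont M i).comp (continuous_const.prodMk continuous_id)).norm continuous_const
    have hT : (⋂ n, T n).Nonempty := by
      apply IsCompact.nonempty_iInter_of_sequence_nonempty_isCompact_isClosed T
      · intro n y hy
        refine ⟨⟨hy.1.1, cthickening_mono (hmono n (n+1) (Nat.le_succ n)) _ hy.1.2⟩, ?_⟩
        have h1 : ‖M.Phi i z y‖ ≤ 3 * (1 / (((n + 1 : ℕ) : ℝ) + 1)) := hy.2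
        have h2 := hmono n (n+1) (Nat.le_succ n)
        change ‖M.Phi i z y‖ ≤ 3 * (1 / ((n : ℝ) + 1))
        linarith
      · intro n
        obtain ⟨_, y, hy, h⟩ := hz n
        exact ⟨y, hy, h⟩
      · exact IsCompact.inter_right (hAc 0) (t := {y : E3 | ‖M.Phi i z y‖ ≤ 3 * (1 / (((0 : ℕ) : ℝ) + 1))})
          (by simpa using hcl 0)
      · intro n
        exact (hAc n).isClosed.inter (hcl n)
    obtain ⟨y, hy⟩ := hT
    rw [mem_iInter] at hy
    refine ⟨y, ?_, ?_⟩
    · rw [← hKc.isClosed.closure_eq, closure_eq_iInter_cthickening]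
      simp only [mem_iInter]
      intro δ hδ
      obtain ⟨n, hn⟩ := exists_nat_one_div_lt hδ
      exact cthickening_mono hn.le _ (hy n).1.2
    · rw [← norm_le_zero_iff]
      apply le_of_forall_pos_le_add
      intro δ hδ
      obtain ⟨n, hn⟩ := exists_nat_one_div_lt (show 0 < δ / 3 by positivity)
      have h1 : ‖M.Phi i z y‖ ≤ 3 * (1 / ((n : ℝ) + 1)) := (hy n).2
      linarith
  have htend : ∀ i, Tendsto (fun n => (volume (Z i n)).toReal) atTop (𝓝 0) := by
    intro i
    have h1 := tendsto_measure_iInter_atTop (μ := (volume : Measure E2)) (s := Z i)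
      (fun n => (hZc i n).isClosed.measurableSet.nullMeasurableSet) (hZanti i) ⟨0, hZfin i 0⟩
    have h2 : volume (⋂ n, Z i n) = 0 := measure_mono_null (hinter i) (normal_null M i (hdeg i))
    rw [h2] at h1
    have h3 := (ENNReal.tendsto_toReal (ENNReal.zero_ne_top)).comp h1
    rw [ENNReal.toReal_zero] at h3
    exact h3
  have hsum : Tendsto (fun n => ∑ i, (volume (Z i n)).toReal) atTop (𝓝 0) := by
    have := tendsto_finsetSum (Finset.univ : Finset M.ι) (fun i _ => htend i)
    simpa using this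
  obtain ⟨n, hn⟩ := (hsum.eventually (gt_mem_nhds hη)).exists
  refine ⟨1 / ((n : ℝ) + 1), by positivity, 1 / ((n : ℝ) + 1), by positivity, ?_⟩
  intro r hr hr1
  refine lt_of_le_of_lt (Finset.sum_le_sum fun i _ => ?_) hn
  apply ENNReal.toReal_mono (hZfin i n)
  apply measure_mono
  rintro z ⟨hz1, y, hy, hz2⟩
  refine ⟨ball_subset_closedBall hz1, y, hy, hz2.trans ?_⟩
  linarith
end Exh

end Topping
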