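import Mathlib
import Pool.Agent.Lib.MP_bea121_gt.TC.Defs4

/-!
# Global extension of a function with vanishing 1-jet and small gradient
-/

open MeasureTheory Set Metric Topology Filter
open scoped RealInnerProductSpace Gradient ContDiff Manifold

noncomputable section

namespace Topping

theorem EXTG_norm_grad (g : E2 → ℝ) (z : E2) : ‖∇ g z‖ = ‖fderiv ℝ g z‖ := by
  unfold gradient
  exact LinearIsometryEquiv.norm_map _ _

theorem EXTG_norm_grad_sub (g : E2 → ℝ) (z z' : E2) :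
    ‖∇ g z - ∇ g z'‖ = ‖fderiv ℝ g z - fderiv ℝ g z'‖ := by
  unfold gradient
  rw [← map_sub]
  exact LinearIsometryEquiv.norm_map _ _

/-- Local bounds near a point with vanishing 1-jet. -/
theorem EXTG_local (g₀ : E2 → ℝ) (U : Set E2) (hU : IsOpen U) (h0U : (0 : E2) ∈ U)
    (hg : ContDiffOn ℝ ∞ g₀ U) (h0 : g₀ 0 = 0) (h1 : fderiv ℝ g₀ 0 = 0) :
    ∃ δ > 0, ∃ K : ℝ, 0 ≤ K ∧ ball (0 : E2) δ ⊆ U ∧
      (∀ z ∈ ball (0 : E2) δ, ‖fderiv ℝ g₀ z‖ ≤ K * ‖z‖) ∧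
      ∀ z ∈ ball (0 : E2) δ, |g₀ z| ≤ K * ‖z‖ ^ 2 := by
  have hUn : U ∈ 𝓝 (0 : E2) := hU.mem_nhds h0U
  have hC : ContDiffAt ℝ ∞ g₀ 0 := hg.contDiffAt hUn
  have hd1 : ContDiffAt ℝ 1 (fderiv ℝ g₀) 0 :=
    (hC.of_le (m := 2) (WithTop.coe_le_coe.2 (le_top : (2 : ℕ∞) ≤ ⊤))).fderiv_right (m := 1) (by norm_num)
  obtain ⟨K, t, ht, hK⟩ := hd1.exists_lipschitzOnWith
  obtain ⟨δ, hδ, hball⟩ := Metric.mem_nhds_iff.1 (Filter.inter_mem ht hUn)
  have hfd : ∀ z ∈ ball (0 : E2) δ, ‖fderiv ℝ g₀ z‖ ≤ K * ‖z‖ := by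
    intro z hz
    have := hK.dist_le_mul z (hball hz).1 0 (hball (mem_ball_self hδ)).1
    simpa [h1, dist_eq_norm] using this
  refine ⟨δ, hδ, K, K.2, fun z hz => (hball hz).2, hfd, ?_⟩
  intro z hz
  have hsub : closedBall (0 : E2) ‖z‖ ⊆ ball (0 : E2) δ := by
    apply closedBall_subset_ball
    simpa using hz
  have h2 := Convex.norm_image_sub_le_of_norm_fderiv_le (𝕜 := ℝ) (f := g₀)
    (C := K * ‖z‖) (s := closedBall (0 : E2) ‖z‖) (x := 0) (y := z)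
    (fun x hx => (hg.contDiffAt (hU.mem_nhds (hball (hsub hx)).2)).differentiableAt (by simp))
    (fun x hx => (hfd x (hsub hx)).trans
      (mul_le_mul_of_nonneg_left (by simpa using hx) K.2))
    (convex_closedBall _ _) (by simp) (by simp)
  rw [h0, sub_zero, sub_zero, Real.norm_eq_abs] at h2
  calc |g₀ z| ≤ K * ‖z‖ * ‖z‖ := h2
    _ = K * ‖z‖ ^ 2 := by ring

/-- A bump function with bounded derivative. -/
theorem EXTG_bump : ∃ ψ : E2 → ℝ, ∃ A : ℝ, 0 ≤ A ∧ ContDiff ℝ ∞ ψ ∧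
    (∀ z ∈ ball (0 : E2) 5, ψ z = 1) ∧ (∀ z, 10 ≤ ‖z‖ → ψ z = 0) ∧ (∀ z, |ψ z| ≤ 1) ∧
    ∀ z, ‖fderiv ℝ ψ z‖ ≤ A := by
  let ψ : ContDiffBump (0 : E2) := ⟨5, 10, by norm_num, by norm_num⟩
  obtain ⟨A, hA⟩ := (ψ.contDiff (n := 1)).continuous_fderiv (by norm_num)
    |>.bounded_above_of_compact_support (ψ.hasCompactSupport.fderiv ℝ)
  refine ⟨ψ, A, (norm_nonneg _).trans (hA 0), ψ.contDiff, ?_, ?_, ?_, hA⟩
  · intro z hz
    exact ψ.one_of_mem_closedBall (ball_subset_closedBall hz)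
  · intro z hz
    apply ψ.zero_of_le_dist
    rw [dist_zero_right]
    exact hz
  · intro z
    rw [abs_of_nonneg ψ.nonneg]
    exact ψ.le_one

theorem ext_g (g₀ : E2 → ℝ) (U : Set E2) (hU : IsOpen U) (h0U : (0 : E2) ∈ U) (hg : ContDiffOn ℝ ∞ g₀ U) (h0 : g₀ 0 = 0)
    (h1 : fderiv ℝ g₀ 0 = 0) (R₀ : ℝ) (hR₀ : 0 < R₀) : ∃ R > 0, R ≤ R₀ ∧ ball (0 : E2) (5 * R) ⊆ U ∧
    ∃ g : E2 → ℝ, ContDiff ℝ 2 g ∧ (∀ z ∈ ball (0 : E2) (5 * R), g z = g₀ z) ∧ (∀ z, ‖∇ g z‖ ≤ 1 / 10) ∧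
      ∃ κ : ℝ, 1 ≤ κ ∧ ∀ z z', ‖∇ g z - ∇ g z'‖ ≤ κ * ‖z - z'‖ := by
  obtain ⟨δ, hδ, K, hK, hδU, hfd, hval⟩ := EXTG_local g₀ U hU h0U hg h0 h1
  obtain ⟨ψ, A, hA, hψ, hψ1, hψ0, hψb, hψd⟩ := EXTG_bump
  -- the radius
  set B : ℝ := 10 * K + 100 * K * A + 1 with hB
  have hB0 : 0 < B := by positivity
  set R : ℝ := min R₀ (min (δ / 11) (1 / (10 * B))) with hR
  have hR0 : 0 < R := lt_min hR₀ (lt_min (by positivity) (by positivity))
  have hR1 : R ≤ R₀ := min_le_left _ _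
  have hR2 : 11 * R ≤ δ := by
    have : R ≤ δ / 11 := (min_le_right _ _).trans (min_le_left _ _)
    linarith
  have hR3 : B * R ≤ 1 / 10 := by
    have h3 : R ≤ 1 / (10 * B) := (min_le_right _ _).trans (min_le_right _ _)
    calc B * R ≤ B * (1 / (10 * B)) := mul_le_mul_of_nonneg_left h3 hB0.le
      _ = 1 / 10 := by field_simp
  have hb11 : ball (0 : E2) (11 * R) ⊆ ball (0 : E2) δ := ball_subset_ball hR2
  set χ : E2 → ℝ := fun z => ψ (R⁻¹ • z) with hχ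
  have hχs : ContDiff ℝ ∞ χ := hψ.comp (contDiff_const_smul R⁻¹)
  have hχ1 : ∀ z ∈ ball (0 : E2) (5 * R), χ z = 1 := by
    intro z hz
    apply hψ1
    rw [mem_ball_zero_iff] at hz ⊢
    rw [norm_smul, norm_inv, Real.norm_eq_abs, abs_of_pos hR0, inv_mul_lt_iff₀ hR0]
    linarith
  have hχ0 : ∀ z, 10 * R ≤ ‖z‖ → χ z = 0 := by
    intro z hz
    apply hψ0
    rw [norm_smul, norm_inv, Real.norm_eq_abs, abs_of_pos hR0, le_inv_mul_iff₀ hR0]
    linarith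
  have hχd : ∀ z, ‖fderiv ℝ χ z‖ ≤ A / R := by
    intro z
    have h2 : HasFDerivAt (fun z : E2 => R⁻¹ • z) (R⁻¹ • ContinuousLinearMap.id ℝ E2) z :=
      (hasFDerivAt_id z).const_smul R⁻¹
    have h3 : HasFDerivAt χ ((fderiv ℝ ψ (R⁻¹ • z)).comp (R⁻¹ • ContinuousLinearMap.id ℝ E2)) z :=
      ((hψ.differentiable (by simp)) (R⁻¹ • z)).hasFDerivAt.comp z h2
    rw [h3.fderiv]
    have h4 : (fderiv ℝ ψ (R⁻¹ • z)).comp (R⁻¹ • ContinuousLinearMap.id ℝ E2) =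
        R⁻¹ • fderiv ℝ ψ (R⁻¹ • z) := by
      ext w; simp
    rw [h4, norm_smul, norm_inv, Real.norm_eq_abs, abs_of_pos hR0, div_eq_inv_mul]
    exact mul_le_mul_of_nonneg_left (hψd _) (inv_nonneg.2 hR0.le)
  set g : E2 → ℝ := fun z => χ z * g₀ z with hgdef
  have hin : ∀ z ∈ ball (0 : E2) (11 * R), ContDiffAt ℝ 2 g z := by
    intro z hz
    have h2 : ContDiffAt ℝ 2 g₀ z :=
      (hg.contDiffAt (hU.mem_nhds (hδU (hb11 hz)))).of_le (WithTop.coe_le_coe.2 (le_top : (2 : ℕ∞) ≤ ⊤))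
    exact (hχs.contDiffAt.of_le (WithTop.coe_le_coe.2 (le_top : (2 : ℕ∞) ≤ ⊤))).mul h2
  have hout : ∀ z, 10 * R < ‖z‖ → g =ᶠ[𝓝 z] fun _ => (0 : ℝ) := by
    intro z hz
    have h2 : {w : E2 | 10 * R < ‖w‖} ∈ 𝓝 z := (isOpen_lt continuous_const continuous_norm).mem_nhds hz
    filter_upwards [h2] with w hw
    have hw' : 10 * R < ‖w‖ := hw
    simp only [hgdef]
    rw [hχ0 w hw'.le, zero_mul]
  have hg2 : ContDiff ℝ 2 g := by
    rw [contDiff_iff_contDiffAt]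
    intro z
    by_cases hz : 10 * R < ‖z‖
    · exact contDiffAt_const.congr_of_eventuallyEq (hout z hz)
    · apply hin
      rw [mem_ball_zero_iff]
      push Not at hz
      linarith
  have hgb : ∀ z, ‖fderiv ℝ g z‖ ≤ 1 / 10 := by
    intro z
    by_cases hz : 10 * R < ‖z‖
    · rw [(hout z hz).fderiv_eq]
      simp
    · push Not at hz
      have hz11 : z ∈ ball (0 : E2) (11 * R) := by
        rw [mem_ball_zero_iff]; linarith
      have hzδ := hb11 hz11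
      have d1 : DifferentiableAt ℝ g₀ z :=
        (hg.contDiffAt (hU.mem_nhds (hδU hzδ))).differentiableAt (by simp)
      have d2 : DifferentiableAt ℝ χ z := hχs.contDiffAt.differentiableAt (by simp)
      have h2 : fderiv ℝ g z = χ z • fderiv ℝ g₀ z + g₀ z • fderiv ℝ χ z := fderiv_fun_mul d2 d1
      rw [h2]
      have k1 : |χ z| ≤ 1 := hψb _
      have k2 := hfd z hzδ
      have k3 := hval z hzδ
      have k4 := hχd z
      have n0 : 0 ≤ ‖z‖ := norm_nonneg z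
      calc ‖χ z • fderiv ℝ g₀ z + g₀ z • fderiv ℝ χ z‖ ≤
            ‖χ z • fderiv ℝ g₀ z‖ + ‖g₀ z • fderiv ℝ χ z‖ := norm_add_le _ _
        _ = |χ z| * ‖fderiv ℝ g₀ z‖ + |g₀ z| * ‖fderiv ℝ χ z‖ := by
            rw [norm_smul, norm_smul, Real.norm_eq_abs, Real.norm_eq_abs]
        _ ≤ 1 * (K * (10 * R)) + (K * (10 * R) ^ 2) * (A / R) := by
            apply add_le_add
            · apply mul_le_mul k1 (k2.trans (mul_le_mul_of_nonneg_left hz hK)) (norm_nonneg _)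
                zero_le_one
            · apply mul_le_mul (k3.trans _) k4 (norm_nonneg _) (by positivity)
              exact mul_le_mul_of_nonneg_left (pow_le_pow_left₀ n0 hz 2) hK
        _ = (10 * K + 100 * K * A) * R := by
            field_simp
            ring
        _ ≤ B * R := by
            apply mul_le_mul_of_nonneg_right _ hR0.le
            rw [hB]; linarith
        _ ≤ 1 / 10 := hR3
  have hcs : HasCompactSupport g := by
    apply HasCompactSupport.of_support_subset_isCompact (isCompact_closedBall (0 : E2) (10 * R))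
    intro z hz
    rw [mem_closedBall_zero_iff]
    by_contra hcon
    push Not at hcon
    apply hz
    simp only [hgdef]
    rw [hχ0 z hcon.le, zero_mul]
  obtain ⟨C, hC⟩ := ContDiff.lipschitzWith_of_hasCompactSupport (𝕂 := ℝ) (hcs.fderiv ℝ)
    (hg2.fderiv_right (m := 1) (by norm_num)) one_ne_zero
  refine ⟨R, hR0, hR1, ?_, g, hg2, ?_, ?_, max 1 C, le_max_left _ _, ?_⟩
  · exact (ball_subset_ball (by linarith)).trans (hb11.trans hδU)
  · intro z hz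
    simp only [hgdef]
    rw [hχ1 z hz, one_mul]
  · intro z
    rw [EXTG_norm_grad]
    exact hgb z
  · intro z z'
    rw [EXTG_norm_grad_sub]
    have h2 := hC.dist_le_mul z z'
    rw [dist_eq_norm, dist_eq_norm] at h2
    exact h2.trans (mul_le_mul_of_nonneg_right (le_max_right _ _) (norm_nonneg _))

end Topping
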