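import Mathlib
import Pool.Agent.Lib.MP_bea121_gt.TC.Defs4
import Pool.Agent.Lib.MP_bea121_gt.TC.Extg
import Pool.Agent.Lib.MP_bea121_gt.TC.Repar

open MeasureTheory Set Metric Topology Filter
open scoped RealInnerProductSpace Gradient ContDiff Manifold

noncomputable section

namespace Topping

lemma PATCH0_decomp (A : E2 →L[ℝ] E3) (hA : Function.Injective A) :
    ∃ (L : E2 →ₗᵢ[ℝ] E3) (c : E3), ‖c‖ = 1 ∧ (∀ z, ⟪L z, c⟫ = 0) ∧
      (∀ v : E3, v = L (ContinuousLinearMap.adjoint L.toContinuousLinearMap v) + ⟪v, c⟫ • c) ∧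
      (∀ z, ∃ u, A z = L u) ∧
      (∀ u, ContinuousLinearMap.adjoint L.toContinuousLinearMap (L u) = u) := by
  set P : Submodule ℝ E3 := LinearMap.range (A : E2 →ₗ[ℝ] E3) with hP
  have hfr : Module.finrank ℝ P = 2 := by
    rw [hP, LinearMap.finrank_range_of_inj (f := (A : E2 →ₗ[ℝ] E3)) hA]
    simp
  have hfr2 : Module.finrank ℝ Pᗮ = 1 := by
    have := Submodule.finrank_add_finrank_orthogonal P
    rw [hfr] at this
    simp at this
    omega
  let b : OrthonormalBasis (Fin 2) ℝ P := (stdOrthonormalBasis ℝ P).reindex (finCongr hfr)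
  let L : E2 →ₗᵢ[ℝ] E3 := P.subtypeₗᵢ.comp b.repr.symm.toLinearIsometry
  have hLP : ∀ z, L z ∈ P := fun z => (b.repr.symm z).2
  have hPL : ∀ w ∈ P, ∃ u, w = L u := by
    intro w hw
    refine ⟨b.repr ⟨w, hw⟩, ?_⟩
    simp [L]
  obtain ⟨c0, hc0, hc0s⟩ := finrank_eq_one_iff'.mp hfr2
  have hc0' : (c0 : E3) ≠ 0 := by simpa using hc0
  have hadj : ∀ u, ContinuousLinearMap.adjoint L.toContinuousLinearMap (L u) = u := by
    intro u
    apply ext_inner_left ℝ
    intro v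
    rw [ContinuousLinearMap.adjoint_inner_right]
    exact L.inner_map_map v u
  refine ⟨L, ‖(c0 : E3)‖⁻¹ • (c0 : E3), ?_, ?_, ?_, ?_, hadj⟩
  · rw [norm_smul, norm_inv, norm_norm, inv_mul_cancel₀ (norm_ne_zero_iff.mpr hc0')]
  · intro z
    rw [inner_smul_right, Submodule.inner_right_of_mem_orthogonal (hLP z) c0.2, mul_zero]
  · intro v
    have hmem : v - L (ContinuousLinearMap.adjoint L.toContinuousLinearMap v) ∈ Pᗮ := by
      rw [Submodule.mem_orthogonal]
      intro w hw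
      obtain ⟨u, rfl⟩ := hPL w hw
      rw [inner_sub_right, L.inner_map_map, ContinuousLinearMap.adjoint_inner_right]
      exact sub_self _
    obtain ⟨a, ha⟩ := hc0s ⟨_, hmem⟩
    have ha' : a • (c0 : E3) = v - L (ContinuousLinearMap.adjoint L.toContinuousLinearMap v) := by
      have := congrArg (Subtype.val) ha
      simpa using this
    have hin : ⟪v, (c0 : E3)⟫ = a * ‖(c0 : E3)‖ ^ 2 := by
      have h1 : v = L (ContinuousLinearMap.adjoint L.toContinuousLinearMap v) + a • (c0 : E3) := by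
        rw [ha']; abel
      rw [h1, inner_add_left, Submodule.inner_right_of_mem_orthogonal (hLP _) c0.2, zero_add,
        real_inner_smul_left, real_inner_self_eq_norm_sq]
    have hn : ‖(c0 : E3)‖ ≠ 0 := norm_ne_zero_iff.mpr hc0'
    rw [inner_smul_right, hin, smul_smul]
    have : ‖(c0 : E3)‖⁻¹ * (a * ‖(c0 : E3)‖ ^ 2) * ‖(c0 : E3)‖⁻¹ = a := by
      field_simp
    rw [this, ha']
    abel
  · intro z
    exact hPL _ ⟨z, rfl⟩

theorem patch0 (F : E2 → E3) (U : Set E2) (hU : IsOpen U) (hF : ContDiffOn ℝ ∞ F U) (z₀ : E2) (hz : z₀ ∈ U)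
    (hg : gD F z₀ ≠ 0) : ∃ (e : OpenPartialHomeomorph E2 E2) (o : E3) (L : E2 →ₗᵢ[ℝ] E3) (c : E3) (g : E2 → ℝ) (R κ : ℝ),
      z₀ ∈ e.source ∧ e.source ⊆ U ∧ e z₀ = 0 ∧ 0 < R ∧ R ≤ 1 ∧ 1 ≤ κ ∧ ‖c‖ = 1 ∧ (∀ z, ⟪L z, c⟫ = 0) ∧
      ContDiff ℝ 2 g ∧ (∀ z, ‖∇ g z‖ ≤ 1 / 10) ∧ (∀ z z', ‖∇ g z - ∇ g z'‖ ≤ κ * ‖z - z'‖) ∧
      ball (0 : E2) (5 * R) ⊆ e.target ∧ ∀ z ∈ ball (0 : E2) (5 * R), F (e.symm z) = o + L z + g z • c := by
  have hinj : Function.Injective (fderiv ℝ F z₀) := (gD_cross F z₀).2.2.mp hg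
  obtain ⟨L, c, hc, hLc, hdec, hAL, hadj⟩ := PATCH0_decomp (fderiv ℝ F z₀) hinj
  set Ls : E3 →L[ℝ] E2 := ContinuousLinearMap.adjoint L.toContinuousLinearMap with hLs
  set o : E3 := F z₀ with ho
  set Ψ : E2 → E2 := fun z => Ls (F z - o) with hΨ
  have hΨs : ContDiffOn ℝ ∞ Ψ U := Ls.contDiff.comp_contDiffOn (hF.sub contDiffOn_const)
  have hFd : ∀ z ∈ U, HasFDerivAt F (fderiv ℝ F z) z := fun z hz' =>
    ((hF.contDiffAt (hU.mem_nhds hz')).differentiableAt (by simp)).hasFDerivAt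
  have hΨd : ∀ z ∈ U, HasFDerivAt Ψ (Ls ∘L (fderiv ℝ F z)) z := fun z hz' =>
    Ls.hasFDerivAt.comp z ((hFd z hz').sub_const o)
  -- derivative at z₀ is invertible
  have hdet0 : (Ls ∘L (fderiv ℝ F z₀)).det ≠ 0 := by
    have hinj2 : Function.Injective (Ls ∘L (fderiv ℝ F z₀)) := by
      rw [injective_iff_map_eq_zero]
      intro v hv
      obtain ⟨u, hu⟩ := hAL v
      have : Ls (fderiv ℝ F z₀ v) = 0 := hv
      rw [hu, hadj] at this
      rw [this, map_zero] at hu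
      exact hinj (by rw [hu, map_zero])
    rw [ContinuousLinearMap.det]
    have := LinearMap.isUnit_iff_ker_eq_bot (f := ((Ls ∘L (fderiv ℝ F z₀)) : E2 →ₗ[ℝ] E2)) |>.mpr
      (LinearMap.ker_eq_bot.mpr hinj2)
    exact (LinearMap.isUnit_iff_isUnit_det _ |>.mp this).ne_zero
  -- the open set where the derivative is invertible
  set s : Set E2 := {z ∈ U | (fderiv ℝ Ψ z).det ≠ 0} with hs
  have hsO : IsOpen s := by
    have hcont : ContinuousOn (fun z => (fderiv ℝ Ψ z).det) U :=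
      ContinuousLinearMap.continuous_det.comp_continuousOn
        (hΨs.continuousOn_fderiv_of_isOpen hU (by simp))
    exact hcont.isOpen_inter_preimage hU isOpen_ne
  have hz0s : z₀ ∈ s := ⟨hz, by rw [(hΨd z₀ hz).fderiv]; exact hdet0⟩
  set e0 := (hΨs.contDiffAt (hU.mem_nhds hz)).toOpenPartialHomeomorph Ψ
    (f' := (Ls ∘L (fderiv ℝ F z₀)).toContinuousLinearEquivOfDetNeZero hdet0)
    (by simpa using hΨd z₀ hz) (by simp) with he0
  have he0c : (e0 : E2 → E2) = Ψ := rfl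
  have hz0e0 : z₀ ∈ e0.source := ContDiffAt.mem_toOpenPartialHomeomorph_source _ _ _
  set e := e0.restrOpen s hsO with he
  have hec : ∀ z, e z = Ψ z := fun z => rfl
  have hesrc : e.source = e0.source ∩ s := by simp [he]
  have hz0e : z₀ ∈ e.source := by rw [hesrc]; exact ⟨hz0e0, hz0s⟩
  have hsU : e.source ⊆ U := by rw [hesrc]; exact fun z hz' => hz'.2.1
  have hΨ0 : Ψ z₀ = 0 := by simp [hΨ, ho]
  have he0z : e z₀ = 0 := by rw [hec, hΨ0]
  have h0t : (0 : E2) ∈ e.target := by rw [← he0z]; exact e.map_source hz0e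
  have hsym0 : e.symm 0 = z₀ := by rw [← he0z]; exact e.left_inv hz0e
  have hsymS : ContDiffOn ℝ ∞ e.symm e.target := by
    intro w hw
    apply ContDiffAt.contDiffWithinAt
    have hws := e.map_target hw
    have hws' := hws
    rw [hesrc] at hws'
    have hd := hws'.2.2
    have hUw := hws'.2.1
    refine e.contDiffAt_symm (f₀' := (fderiv ℝ Ψ (e.symm w)).toContinuousLinearEquivOfDetNeZero hd) hw ?_ ?_
    · have h3 := (hΨd _ hUw)
      have h4 : HasFDerivAt Ψ (fderiv ℝ Ψ (e.symm w)) (e.symm w) := h3.differentiableAt.hasFDerivAt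
      have h5 : (((fderiv ℝ Ψ (e.symm w)).toContinuousLinearEquivOfDetNeZero hd : E2 ≃L[ℝ] E2) : E2 →L[ℝ] E2)
          = fderiv ℝ Ψ (e.symm w) := by ext1 v; simp
      rw [h5]
      exact h4
    · exact hΨs.contDiffAt (hU.mem_nhds hUw)
  -- the height function
  set g0 : E2 → ℝ := fun w => ⟪F (e.symm w) - o, c⟫ with hg0
  have hmaps : MapsTo e.symm e.target U := fun w hw => hsU (e.map_target hw)
  have hg0s : ContDiffOn ℝ ∞ g0 e.target :=
    ((hF.comp hsymS hmaps).sub contDiffOn_const).inner ℝ contDiffOn_const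
  have hg00 : g0 0 = 0 := by simp [hg0, hsym0, ho]
  have hg0d : fderiv ℝ g0 0 = 0 := by
    have hsd : HasFDerivAt e.symm (fderiv ℝ e.symm 0) 0 :=
      ((hsymS.contDiffAt (e.open_target.mem_nhds h0t)).differentiableAt (by simp)).hasFDerivAt
    have h1 : HasFDerivAt F (fderiv ℝ F z₀) (e.symm 0) := by rw [hsym0]; exact hFd z₀ hz
    have h2 := (h1.comp 0 hsd).sub_const o
    have h3 : HasFDerivAt g0 ((innerSL ℝ c) ∘L ((fderiv ℝ F z₀) ∘L (fderiv ℝ e.symm 0))) 0 := by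
      have := (innerSL ℝ c).hasFDerivAt.comp (0 : E2) h2
      refine this.congr_of_eventuallyEq ?_
      filter_upwards with w
      simp [hg0, real_inner_comm]
    rw [h3.fderiv]
    ext v
    obtain ⟨u, hu⟩ := hAL (fderiv ℝ e.symm 0 v)
    simp only [ContinuousLinearMap.comp_apply, innerSL_apply_apply, zero_apply]
    rw [hu, real_inner_comm, hLc]
  obtain ⟨R, hR, hR1, hball, g, hg2, hgg, hgrad, κ, hκ, hlip⟩ :=
    ext_g g0 e.target e.open_target h0t hg0s hg00 hg0d 1 one_pos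
  refine ⟨e, o, L, c, g, R, κ, hz0e, hsU, he0z, hR, hR1, hκ, hc, hLc, hg2, hgrad, hlip, hball, ?_⟩
  intro z hzb
  have hzt := hball hzb
  rw [hgg z hzb]
  have h1 : Ls (F (e.symm z) - o) = z := by
    have := e.right_inv hzt
    rw [hec] at this
    exact this
  have h2 := hdec (F (e.symm z) - o)
  rw [h1] at h2
  calc F (e.symm z) = o + (F (e.symm z) - o) := by abel
    _ = o + (L z + ⟪F (e.symm z) - o, c⟫ • c) := by rw [← h2]
    _ = o + L z + g0 z • c := by rw [add_assoc]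

end Topping
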