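import Mathlib
import Pool.Agent.Lib.MP_bea121_gt.TC.Defs4
import Pool.Agent.Lib.MP_bea121_gt.TC.Patch0
import Pool.Agent.Lib.MP_bea121_gt.TC.Mch

/-!
# Every immersed closed surface is a Monge surface (module EXM of MP_bea121_gt)
-/

open MeasureTheory Set Metric Topology Filter
open scoped RealInnerProductSpace Gradient ContDiff Manifold

noncomputable section

namespace Topping

section Exm
variable {S : Type} [TopologicalSpace S] [CompactSpace S] [T2Space S] [ChartedSpace E2 S] [IsManifold (𝓡 2) ∞ S]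

theorem exists_monge (f : S → E3) (hf : IsImm f) : ∃ M : MongeSurf S, M.f = f := by
  have key := fun x : S => patch0 (lp f x) (chartAt E2 x).target (chartAt E2 x).open_target
    (imm_chart f hf x).1 (chartAt E2 x x) (mem_chart_target E2 x)
    ((imm_chart f hf x).2 _ (mem_chart_target E2 x))
  choose e o L c g R κ h1 h2 h3 h4 h5 h6 h7 h8 h9 h10 h11 h12 h13 using key
  have hsrc : ∀ x, x ∈ ((chartAt E2 x).trans (e x)).source := by
    intro x
    rw [OpenPartialHomeomorph.trans_source]
    exact ⟨mem_chart_source E2 x, h1 x⟩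
  have hU : ∀ x : S, ((chartAt E2 x).trans (e x)).source ∩
      ((chartAt E2 x).trans (e x)) ⁻¹' ball (0 : E2) (R x) ∈ 𝓝 x := by
    intro x
    refine (((chartAt E2 x).trans (e x)).isOpen_inter_preimage isOpen_ball).mem_nhds ⟨hsrc x, ?_⟩
    show (e x) ((chartAt E2 x) x) ∈ ball (0 : E2) (R x)
    rw [h3 x]
    exact mem_ball_self (h4 x)
  obtain ⟨t, ht⟩ := CompactSpace.elim_nhds_subcover _ hU
  have hκ : ∀ x ∈ t, κ x ≤ 1 + ∑ y ∈ t, κ y := by
    intro x hx
    have : κ x ≤ ∑ y ∈ t, κ y :=
      Finset.single_le_sum (fun y _ => zero_le_one.trans (h6 y)) hx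
    linarith
  refine ⟨{
    f := f
    ι := {x // x ∈ t}
    fι := inferInstance
    e := fun x => (chartAt E2 x.1).trans (e x.1)
    o := fun x => o x.1
    L := fun x => L x.1
    c := fun x => c x.1
    g := fun x => g x.1
    R := fun x => R x.1
    κ := 1 + ∑ y ∈ t, κ y
    f_cont := hf.smooth.continuous
    κ_one := by
      have : 0 ≤ ∑ y ∈ t, κ y := Finset.sum_nonneg fun y _ => zero_le_one.trans (h6 y)
      linarith
    R_pos := fun x => h4 x.1
    R_le := fun x => h5 x.1
    c_norm := fun x => h7 x.1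
    c_perp := fun x => h8 x.1
    g_smooth := fun x => h9 x.1
    g_small := fun x => h10 x.1
    g_lip := fun x z z' => (h11 x.1 z z').trans
      (mul_le_mul_of_nonneg_right (hκ x.1 x.2) (norm_nonneg _))
    target := ?_
    graph := ?_
    cover := ?_ }, rfl⟩
  · intro x z hz
    show z ∈ ((chartAt E2 x.1).trans (e x.1)).target
    rw [OpenPartialHomeomorph.trans_target]
    have hz' := h12 x.1 hz
    exact ⟨hz', h2 x.1 ((e x.1).map_target hz')⟩
  · intro x z hz
    exact h13 x.1 z hz
  · intro x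
    have hx : x ∈ ⋃ y ∈ t, ((chartAt E2 y).trans (e y)).source ∩
      ((chartAt E2 y).trans (e y)) ⁻¹' ball (0 : E2) (R y) := by
      rw [ht]
      trivial
    simp only [mem_iUnion] at hx
    obtain ⟨y, hy, hxy⟩ := hx
    exact ⟨⟨y, hy⟩, hxy.1, hxy.2⟩
end Exm

end Topping
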