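import Pool.Agent.Lib.MP_bea121_gt.TC.Aream

/-!
# The integral of the absolute mean curvature in charts (MP_bea121_gt, module INTC)
-/

open MeasureTheory Set Metric Topology Filter
open scoped RealInnerProductSpace Gradient ContDiff Manifold

set_option linter.unusedSectionVars false

noncomputable section

namespace Topping

section Intc
variable {S : Type} [TopologicalSpace S] [CompactSpace S] [T2Space S] [ChartedSpace E2 S] [IsManifold (𝓡 2) ∞ S]
  [MeasurableSpace S] [BorelSpace S]

theorem absMC_chart (f : S → E3) (hf : IsImm f) (x x' : S) (h : x' ∈ (chartAt E2 x).source) :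
    absMC f x' = absH (lp f x) (chartAt E2 x x') := by
  have hx' : x' ∈ (chartAt E2 x').source := mem_chart_source E2 x'
  have hl : (chartAt E2 x').symm (chartAt E2 x' x') = x' := (chartAt E2 x').left_inv hx'
  obtain ⟨h1, h2, h3, h4, h5⟩ := chart_change f hf x x' (chartAt E2 x' x')
    ((chartAt E2 x').map_source hx') (by rw [hl]; exact h)
  obtain ⟨-, -, -, h6⟩ := reparam (lp f x') (lp f x) _ _ h1 h2 h3 h4 h5
  unfold absMC
  rw [h6]
  simp only [Function.comp]
  rw [hl]

theorem absMC_cont (f : S → E3) (hf : IsImm f) : Continuous (absMC f) := by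
  rw [continuous_iff_continuousAt]
  intro x
  obtain ⟨h3, h4⟩ := imm_chart f hf x
  obtain ⟨-, -, -, h5, -⟩ := coeff_cont (lp f x) _ (chartAt E2 x).open_target
    (h3.of_le (WithTop.coe_le_coe.2 (le_top : (2 : ℕ∞) ≤ ⊤))) h4
  have h6 : ContinuousAt (fun x' => absH (lp f x) (chartAt E2 x x')) x := by
    refine ContinuousAt.comp (g := absH (lp f x)) (f := chartAt E2 x) ?_ ?_
    · exact h5.continuousAt ((chartAt E2 x).open_target.mem_nhds (mem_chart_target E2 x))
    · exact (chartAt E2 x).continuousAt (mem_chart_source E2 x)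
  refine h6.congr ?_
  filter_upwards [(chartAt E2 x).open_source.mem_nhds (mem_chart_source E2 x)] with x' hx'
  exact (absMC_chart f hf x x' hx').symm

/-- the integral over a piece of a chart -/
theorem integral_piece (f : S → E3) (hf : IsImm f) (μ : Measure S) (hμ : IsAreaMeasure f μ)
    (x : S) (C : Set S) (hC : MeasurableSet C) (hCs : C ⊆ (chartAt E2 x).source) (K : Set E2)
    (hK : IsCompact K) (hCK : chartAt E2 x '' C ⊆ K) (hKt : K ⊆ (chartAt E2 x).target) :
    ∫ y in C, absMC f y ∂μ = ∫ z in chartAt E2 x '' C, HdF (lp f x) z := by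
  have hs : MeasurableSet (chartAt E2 x '' C) := image_meas x C hC hCs
  rw [hμ.restrict_eq x C hC hCs]
  unfold locArea
  rw [integral_map (symm_aemeasurable f x C hC hCs)
    (absMC_cont f hf).aestronglyMeasurable]
  have hint : AEMeasurable (fun z => ENNReal.ofReal (areaD (lp f x) z))
      (volume.restrict (chartAt E2 x '' C)) :=
    ((areaD_integrableOn f hf x K hK hKt).mono_set hCK).aestronglyMeasurable.aemeasurable.ennreal_ofReal
  rw [integral_withDensity_eq_integral_toReal_smul₀ hint
    (Eventually.of_forall fun z => ENNReal.ofReal_lt_top)]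
  refine setIntegral_congr_fun hs ?_
  rintro _ ⟨b, hb, rfl⟩
  have h0 : chartAt E2 x b ∈ (chartAt E2 x).target := (chartAt E2 x).map_source (hCs hb)
  have h1 : (chartAt E2 x).symm (chartAt E2 x b) = b := (chartAt E2 x).left_inv (hCs hb)
  have h2 : 0 ≤ areaD (lp f x) (chartAt E2 x b) := Real.sqrt_nonneg _
  have h3 : areaD (lp f x) (chartAt E2 x b) ≠ 0 := by
    have h4 := (imm_chart f hf x).2 _ h0
    have h5 := (gD_cross (lp f x) (chartAt E2 x b)).2.1
    unfold areaD
    exact (Real.sqrt_pos.2 (lt_of_le_of_ne h5 (Ne.symm h4))).ne'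
  simp only
  rw [h1, absMC_chart f hf x b (hCs hb), ENNReal.toReal_ofReal h2, smul_eq_mul]
  unfold absH
  field_simp

theorem integral_absMC (f : S → E3) (hf : IsImm f) (μ : Measure S) [IsFiniteMeasure μ] (hμ : IsAreaMeasure f μ)
    (P : ChartPart S) : Integrable (absMC f) μ ∧ ∫ x, absMC f x ∂μ = mcInt P f := by
  have hI : Integrable (absMC f) μ := by
    rw [← integrableOn_univ]
    exact (absMC_cont f hf).continuousOn.integrableOn_compact isCompact_univ
  refine ⟨hI, ?_⟩
  rw [← setIntegral_univ, ← P.union, integral_iUnion_fintype P.meas P.disj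
    (fun j => hI.integrableOn)]
  unfold mcInt
  exact Finset.sum_congr rfl fun j _ => integral_piece f hf μ hμ (P.x j) (P.C j) (P.meas j)
    (P.sub j) (P.K j) (P.compact j) (P.image_sub j) (P.K_sub j)
end Intc

end Topping
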