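import Mathlib
import Pool.Agent.Lib.MP_bea121_gt.TC.Defs4
import Pool.Agent.Lib.MP_bea121_gt.TC.Basic

/-! Values of the fundamental forms in a Monge patch (module MONV of MP_bea121_gt). -/

open MeasureTheory Set Metric Topology Filter
open scoped RealInnerProductSpace Gradient ContDiff Manifold

noncomputable section

namespace Topping

theorem MONV_inner3 (a b : E3) : ⟪a, b⟫ = a 0 * b 0 + a 1 * b 1 + a 2 * b 2 := by
  rw [PiLp.inner_apply, Fin.sum_univ_three]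
  simp [mul_comm]

theorem MONV_inner2 (a b : E2) : ⟪a, b⟫ = a 0 * b 0 + a 1 * b 1 := by
  rw [PiLp.inner_apply, Fin.sum_univ_two]
  simp [mul_comm]

/-- The Gram determinant. -/
theorem MONV_gram (a b c : E3) (ha : ⟪a, a⟫ = 1) (hb : ⟪b, b⟫ = 1) (hc : ⟪c, c⟫ = 1)
    (hab : ⟪a, b⟫ = 0) (hac : ⟪a, c⟫ = 0) (hbc : ⟪b, c⟫ = 0) : ⟪c, cross a b⟫ ^ 2 = 1 := by
  have key : ⟪c, cross a b⟫ ^ 2 = ⟪a, a⟫ * ⟪b, b⟫ * ⟪c, c⟫ + 2 * ⟪a, b⟫ * ⟪b, c⟫ * ⟪a, c⟫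
      - ⟪a, a⟫ * ⟪b, c⟫ ^ 2 - ⟪b, b⟫ * ⟪a, c⟫ ^ 2 - ⟪c, c⟫ * ⟪a, b⟫ ^ 2 := by
    simp only [MONV_inner3, cross]
    simp
    ring
  rw [key, ha, hb, hc, hab, hac, hbc]
  norm_num

theorem MONV_cross (a b c : E3) (s t : ℝ) : ⟪c, cross (a + s • c) (b + t • c)⟫ = ⟪c, cross a b⟫ := by
  simp only [MONV_inner3, cross]
  simp
  ring

theorem MONV_ex (v : E2) : ⟪v, ex⟫ = v 0 := by
  rw [MONV_inner2]; simp [ex]

theorem MONV_ey (v : E2) : ⟪v, ey⟫ = v 1 := by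
  rw [MONV_inner2]; simp [ey]

theorem MONV_exn : ⟪ex, ex⟫ = (1 : ℝ) := by rw [MONV_ex]; simp [ex]
theorem MONV_eyn : ⟪ey, ey⟫ = (1 : ℝ) := by rw [MONV_ey]; simp [ey]
theorem MONV_exy : ⟪ex, ey⟫ = (0 : ℝ) := by rw [MONV_ey]; simp [ex]

theorem MONV_dec (v : E2) : v = ⟪v, ex⟫ • ex + ⟪v, ey⟫ • ey := by
  rw [MONV_ex, MONV_ey]
  ext k
  fin_cases k <;> simp [ex, ey]

theorem MONV_det (H : E2 →ₗ[ℝ] E2) : LinearMap.det H =
    ⟪H ex, ex⟫ * ⟪H ey, ey⟫ - ⟪H ex, ey⟫ * ⟪H ey, ex⟫ := by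
  rw [← LinearMap.det_toMatrix (EuclideanSpace.basisFun (Fin 2) ℝ).toBasis, Matrix.det_fin_two]
  simp only [LinearMap.toMatrix_apply, MONV_ex, MONV_ey]
  simp [ex, ey]
  ring

theorem MONV_trace (H : E2 →ₗ[ℝ] E2) : LinearMap.trace ℝ E2 H = ⟪H ex, ex⟫ + ⟪H ey, ey⟫ := by
  rw [LinearMap.trace_eq_matrix_trace ℝ (EuclideanSpace.basisFun (Fin 2) ℝ).toBasis]
  simp only [Matrix.trace, Fin.sum_univ_two, Matrix.diag, LinearMap.toMatrix_apply, MONV_ex, MONV_ey]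
  simp [ex, ey]

theorem MONV_diff {S : Type} [TopologicalSpace S] (M : MongeSurf S) (i : M.ι) :
    Differentiable ℝ (∇ (M.g i)) := by
  have h1 : ContDiff ℝ 1 (fderiv ℝ (M.g i)) := (M.g_smooth i).fderiv_right (m := 1) (by norm_num)
  have h2 : (∇ (M.g i)) = fun z => (InnerProductSpace.toDual ℝ E2).symm (fderiv ℝ (M.g i) z) := rfl
  rw [h2]
  exact (InnerProductSpace.toDual ℝ E2).symm.differentiable.comp (h1.differentiable (by norm_num))

theorem MONV_fd {S : Type} [TopologicalSpace S] (M : MongeSurf S) (i : M.ι) (z u : E2) :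
    fderiv ℝ (M.fi i) z u = M.L i u + ⟪∇ (M.g i) z, u⟫ • M.c i := by
  rw [(fi_deriv M i z).fderiv]
  simp

theorem MONV_fd2 {S : Type} [TopologicalSpace S] (M : MongeSurf S) (i : M.ι) (z u v : E2) :
    fderiv ℝ (fun z => fderiv ℝ (M.fi i) z u) z v = ⟪M.hess i z v, u⟫ • M.c i := by
  have h1 : (fun z => fderiv ℝ (M.fi i) z u) = fun z => M.L i u + ⟪∇ (M.g i) z, u⟫ • M.c i := by
    ext1 z
    exact MONV_fd M i z u
  rw [h1]
  have h2 : HasFDerivAt (∇ (M.g i)) (M.hess i z) z := (MONV_diff M i z).hasFDerivAt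
  have h3 : HasFDerivAt (fun z => M.L i u + ⟪∇ (M.g i) z, u⟫ • M.c i)
      ((((innerSL ℝ u).comp (M.hess i z))).smulRight (M.c i)) z := by
    have h4 := ((innerSL ℝ u).hasFDerivAt.comp z h2)
    have h5 := (h4.smul_const (M.c i)).const_add (M.L i u)
    refine h5.congr_of_eventuallyEq (Filter.Eventually.of_forall fun z => ?_)
    simp
  rw [h3.fderiv]
  simp [real_inner_comm]

theorem monge_values {S : Type} [TopologicalSpace S] (M : MongeSurf S) (i : M.ι) (z : E2) :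
    gD (M.fi i) z = 1 + ‖∇ (M.g i) z‖ ^ 2 ∧ HdF (M.fi i) z = M.Hd i z ∧ KnF (M.fi i) z = M.hdet i z := by
  set G := ∇ (M.g i) z with hG
  set a := M.L i ex with ha
  set b := M.L i ey with hb
  set c := M.c i with hc
  set H := M.hess i z with hH
  have hcc : ⟪c, c⟫ = 1 := by rw [real_inner_self_eq_norm_sq, M.c_norm i]; norm_num
  have haa : ⟪a, a⟫ = 1 := by rw [ha, (M.L i).inner_map_map, MONV_exn]
  have hbb : ⟪b, b⟫ = 1 := by rw [hb, (M.L i).inner_map_map, MONV_eyn]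
  have hab : ⟪a, b⟫ = 0 := by rw [ha, hb, (M.L i).inner_map_map, MONV_exy]
  have hac : ⟪a, c⟫ = 0 := M.c_perp i ex
  have hbc : ⟪b, c⟫ = 0 := M.c_perp i ey
  have hca : ⟪c, a⟫ = 0 := by rw [real_inner_comm]; exact hac
  have hcb : ⟪c, b⟫ = 0 := by rw [real_inner_comm]; exact hbc
  have hba : ⟪b, a⟫ = 0 := by rw [real_inner_comm]; exact hab
  have hFx : Fx (M.fi i) z = a + ⟪G, ex⟫ • c := MONV_fd M i z ex
  have hFy : Fy (M.fi i) z = b + ⟪G, ey⟫ • c := MONV_fd M i z ey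
  set gx : ℝ := ⟪G, ex⟫ with hgx
  set gy : ℝ := ⟪G, ey⟫ with hgy
  have hnorm : ‖G‖ ^ 2 = gx ^ 2 + gy ^ 2 := by
    rw [← real_inner_self_eq_norm_sq, MONV_inner2, hgx, hgy, MONV_ex, MONV_ey]; ring
  have hgE : gE (M.fi i) z = 1 + gx ^ 2 := by
    unfold gE
    rw [hFx]
    simp only [inner_add_left, inner_add_right, real_inner_smul_left, real_inner_smul_right, haa, hac, hca, hcc]
    ring
  have hgG : gG (M.fi i) z = 1 + gy ^ 2 := by
    unfold gG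
    rw [hFy]
    simp only [inner_add_left, inner_add_right, real_inner_smul_left, real_inner_smul_right, hbb, hbc, hcb, hcc]
    ring
  have hgF : gF (M.fi i) z = gx * gy := by
    unfold gF
    rw [hFx, hFy]
    simp only [inner_add_left, inner_add_right, real_inner_smul_left, real_inner_smul_right, hab, hac, hcb, hcc]
    ring
  set e0 : ℝ := ⟪c, cross a b⟫ with he0
  have he0sq : e0 ^ 2 = 1 := MONV_gram a b c haa hbb hcc hab hac hbc
  have hcr : ⟪c, cross (Fx (M.fi i) z) (Fy (M.fi i) z)⟫ = e0 := by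
    rw [hFx, hFy, MONV_cross]
  have hhL : hL (M.fi i) z = ⟪H ex, ex⟫ * e0 := by
    unfold hL
    have : fderiv ℝ (Fx (M.fi i)) z ex = ⟪H ex, ex⟫ • c := MONV_fd2 M i z ex ex
    rw [this, real_inner_smul_left, hcr]
  have hhM : hM (M.fi i) z = ⟪H ey, ex⟫ * e0 := by
    unfold hM
    have : fderiv ℝ (Fx (M.fi i)) z ey = ⟪H ey, ex⟫ • c := MONV_fd2 M i z ex ey
    rw [this, real_inner_smul_left, hcr]
  have hhN : hN (M.fi i) z = ⟪H ey, ey⟫ * e0 := by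
    unfold hN
    have : fderiv ℝ (Fy (M.fi i)) z ey = ⟪H ey, ey⟫ • c := MONV_fd2 M i z ey ey
    rw [this, real_inner_smul_left, hcr]
  have hsym : ⟪H ex, ey⟫ = ⟪H ey, ex⟫ := by
    rw [hess_symm, real_inner_comm]
  have hgD : gD (M.fi i) z = 1 + ‖G‖ ^ 2 := by
    unfold gD
    rw [hgE, hgG, hgF, hnorm]; ring
  have hnum : M.num i z = (1 + gx ^ 2) * ⟪H ey, ey⟫ - 2 * (gx * gy) * ⟪H ey, ex⟫ + (1 + gy ^ 2) * ⟪H ex, ex⟫ := by
    unfold MongeSurf.num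
    rw [← hG, ← hH, MONV_trace, hnorm]
    have h1 : ⟪G, H G⟫ = gx ^ 2 * ⟪H ex, ex⟫ + 2 * gx * gy * ⟪H ey, ex⟫ + gy ^ 2 * ⟪H ey, ey⟫ := by
      have h2 : G = gx • ex + gy • ey := MONV_dec G
      rw [h2]
      simp only [map_add, map_smul, inner_add_left, inner_add_right, real_inner_smul_left, real_inner_smul_right]
      rw [real_inner_comm (H ex) ex, real_inner_comm (H ey) ex, real_inner_comm (H ex) ey,
        real_inner_comm (H ey) ey, hsym]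
      ring
    rw [h1]
    simp only [ContinuousLinearMap.coe_coe]
    ring
  refine ⟨hgD, ?_, ?_⟩
  · unfold HdF MongeSurf.Hd
    rw [hgD, ← hG, hnum, hgE, hgF, hgG, hhL, hhM, hhN]
    congr 1
    have h1 : (1 + gx ^ 2) * (⟪H ey, ey⟫ * e0) - 2 * (gx * gy) * (⟪H ey, ex⟫ * e0) +
      (1 + gy ^ 2) * (⟪H ex, ex⟫ * e0) = ((1 + gx ^ 2) * ⟪H ey, ey⟫ - 2 * (gx * gy) * ⟪H ey, ex⟫ +
        (1 + gy ^ 2) * ⟪H ex, ex⟫) * e0 := by ring
    have h2 : |e0| = 1 := by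
      rw [← sq_eq_sq₀ (abs_nonneg _) (by norm_num), sq_abs, he0sq]; norm_num
    rw [h1, abs_mul, h2, mul_one]
  · unfold KnF MongeSurf.hdet
    rw [← hH, MONV_det, hhL, hhM, hhN]
    simp only [ContinuousLinearMap.coe_coe]
    rw [hsym]
    linear_combination (⟪H ex, ex⟫ * ⟪H ey, ey⟫ - ⟪H ey, ex⟫ ^ 2) * he0sq

end Topping
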