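import Mathlib
import Pool.Agent.Lib.MP_bea121_gt.TC.Defs4
import Pool.Agent.Lib.MP_bea121_gt.TC.Repar
import Pool.Agent.Lib.MP_bea121_gt.TC.Monv
import Pool.Agent.Lib.MP_bea121_gt.TC.Basic
import Pool.Agent.Lib.MP_bea121_gt.TC.Mch
import Pool.Agent.Lib.MP_bea121_gt.TC.Cpart
import Pool.Agent.Lib.MP_bea121_gt.TC.Npre

/-!
# Monge patches and charts (MP_bea121_gt, module MONC)
-/

open MeasureTheory Set Metric Topology Filter
open scoped RealInnerProductSpace Gradient ContDiff Manifold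

noncomputable section

namespace Topping

section Monc
variable {S : Type} [TopologicalSpace S] [CompactSpace S] [T2Space S] [ChartedSpace E2 S] [IsManifold (𝓡 2) ∞ S]

theorem MONC_two : (2 : WithTop ℕ∞) ≤ ∞ := by
  have h : ((2 : ℕ∞) : WithTop ℕ∞) ≤ ((⊤ : ℕ∞) : WithTop ℕ∞) := WithTop.coe_le_coe.2 le_top
  exact h

/-- the chart image of a patch -/
def MONC_W (M : MongeSurf S) (i : M.ι) (x : S) : Set E2 :=
  chartAt E2 x '' (M.P i (5 * M.R i) ∩ (chartAt E2 x).source)

omit [CompactSpace S] [T2Space S] [IsManifold (𝓡 2) ∞ S] in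
theorem MONC_open (M : MongeSurf S) (i : M.ι) (x : S) : IsOpen (MONC_W M i x) :=
  (chartAt E2 x).isOpen_image_of_subset_source
    ((P_open M i _).inter (chartAt E2 x).open_source) inter_subset_right

omit [CompactSpace S] [T2Space S] [IsManifold (𝓡 2) ∞ S] in
theorem MONC_mem (M : MongeSurf S) (i : M.ι) (x : S) {z : E2} (hz : z ∈ MONC_W M i x) :
    z ∈ (chartAt E2 x).target ∧ (chartAt E2 x).symm z ∈ M.P i (5 * M.R i) ∧
      lp M.f x z = M.fi i ((M.e i ∘ (chartAt E2 x).symm) z) ∧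
      (M.e i ∘ (chartAt E2 x).symm) z = M.pr i (lp M.f x z - M.o i) := by
  obtain ⟨y, ⟨hy1, hy2⟩, rfl⟩ := hz
  have h1 : (chartAt E2 x).symm (chartAt E2 x y) = y := (chartAt E2 x).left_inv hy2
  refine ⟨(chartAt E2 x).map_source hy2, by rw [h1]; exact hy1, ?_, ?_⟩
  · simp only [lp, Function.comp, h1]
    exact f_e M i hy1
  · simp only [lp, Function.comp, h1]
    rw [f_e M i hy1]
    have h2 : M.fi i (M.e i y) - M.o i = M.L i (M.e i y) + M.g i (M.e i y) • M.c i := by
      simp only [MongeSurf.fi]; abel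
    rw [h2, (pr_L M i _ _).1]

theorem e_chart (M : MongeSurf S) (hf : IsImm M.f) (i : M.ι) (x : S) :
    IsOpen (chartAt E2 x '' (M.P i (5 * M.R i) ∩ (chartAt E2 x).source)) ∧
    ContDiffOn ℝ ∞ (M.e i ∘ (chartAt E2 x).symm) (chartAt E2 x '' (M.P i (5 * M.R i) ∩ (chartAt E2 x).source)) ∧
    ∀ z ∈ chartAt E2 x '' (M.P i (5 * M.R i) ∩ (chartAt E2 x).source),
      (fderiv ℝ (M.e i ∘ (chartAt E2 x).symm) z).det ≠ 0 ∧
      lp M.f x =ᶠ[𝓝 z] M.fi i ∘ (M.e i ∘ (chartAt E2 x).symm) := by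
  have hW := MONC_open M i x
  obtain ⟨hc1, hc2⟩ := imm_chart M.f hf x
  have hsub : MONC_W M i x ⊆ (chartAt E2 x).target := fun z hz => (MONC_mem M i x hz).1
  have hsm : ContDiffOn ℝ ∞ (M.e i ∘ (chartAt E2 x).symm) (MONC_W M i x) := by
    have h1 : ContDiffOn ℝ ∞ (fun z => M.pr i (lp M.f x z - M.o i)) (MONC_W M i x) := by
      have h2 : ContDiffOn ℝ ∞ (fun z => lp M.f x z - M.o i) (MONC_W M i x) :=
        (hc1.mono hsub).sub contDiffOn_const
      exact (ContinuousLinearMap.adjoint (M.L i).toContinuousLinearMap).contDiff.comp_contDiffOn h2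
    exact h1.congr fun z hz => (MONC_mem M i x hz).2.2.2
  refine ⟨hW, hsm, ?_⟩
  intro z hz
  have hev : lp M.f x =ᶠ[𝓝 z] M.fi i ∘ (M.e i ∘ (chartAt E2 x).symm) := by
    filter_upwards [hW.mem_nhds hz] with w hw
    exact (MONC_mem M i x hw).2.2.1
  refine ⟨?_, hev⟩
  have hinj := (gD_cross (lp M.f x) z).2.2.1 (hc2 z (hsub hz))
  have hτ : DifferentiableAt ℝ (M.e i ∘ (chartAt E2 x).symm) z :=
    (hsm.contDiffAt (hW.mem_nhds hz)).differentiableAt (by simp)
  have hfi : DifferentiableAt ℝ (M.fi i) ((M.e i ∘ (chartAt E2 x).symm) z) :=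
    (fi_contDiff M i).differentiable (by norm_num) _
  rw [hev.fderiv_eq, fderiv_comp z hfi hτ] at hinj
  have hinj2 : Function.Injective (fderiv ℝ (M.e i ∘ (chartAt E2 x).symm) z) := by
    intro v w hvw
    apply hinj
    simp only [ContinuousLinearMap.comp_apply, hvw]
  intro hdet
  have h3 := LinearMap.bot_lt_ker_of_det_eq_zero (f :=
    (fderiv ℝ (M.e i ∘ (chartAt E2 x).symm) z : E2 →ₗ[ℝ] E2)) hdet
  rw [LinearMap.ker_eq_bot.2 hinj2] at h3
  exact lt_irrefl _ h3

variable [MeasurableSpace S] [BorelSpace S]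

omit [CompactSpace S] [T2Space S] [IsManifold (𝓡 2) ∞ S] [ChartedSpace E2 S] in
theorem MONC_meas (M : MongeSurf S) (i : M.ι) (B : Set S) (hB : MeasurableSet B)
    (hBs : B ⊆ (M.e i).source) : MeasurableSet (M.e i '' B) := by
  have h1 : M.e i '' B = (M.e i).target ∩ (M.e i).symm ⁻¹' B :=
    (M.e i).image_eq_target_inter_inv_preimage hBs
  rw [h1]
  exact measurableSet_inter_preimage_of_continuousOn (M.e i).open_target.measurableSet
    (M.e i).continuousOn_symm hB

theorem MONC_piece (M : MongeSurf S) (hf : IsImm M.f) (i : M.ι) (x : S) (D : Set S)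
    (hD : MeasurableSet D) (hD1 : D ⊆ M.P i (5 * M.R i)) (hD2 : D ⊆ (chartAt E2 x).source) :
    ∫ z in M.e i '' D, M.Hd i z = ∫ z in chartAt E2 x '' D, HdF (lp M.f x) z := by
  obtain ⟨hW, hsm, hτ⟩ := e_chart M hf i x
  set τ : E2 → E2 := M.e i ∘ (chartAt E2 x).symm with hτdef
  have himg : M.e i '' D = τ '' (chartAt E2 x '' D) := by
    rw [← image_comp]
    apply image_congr
    intro y hy
    simp only [hτdef, Function.comp]
    rw [(chartAt E2 x).left_inv (hD2 hy)]
  have hsub : chartAt E2 x '' D ⊆ chartAt E2 x '' (M.P i (5 * M.R i) ∩ (chartAt E2 x).source) :=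
    image_mono (subset_inter hD1 hD2)
  have hinj : InjOn τ (chartAt E2 x '' D) := by
    rintro _ ⟨y, hy, rfl⟩ _ ⟨w, hw, rfl⟩ h
    simp only [hτdef, Function.comp] at h
    rw [(chartAt E2 x).left_inv (hD2 hy), (chartAt E2 x).left_inv (hD2 hw)] at h
    have := (M.e i).injOn (hD1 hy).1 (hD1 hw).1 h
    rw [this]
  rw [himg, integral_image_eq_integral_abs_det_fderiv_smul volume (image_meas x D hD hD2)
    (f' := fun z => fderiv ℝ τ z) ?_ hinj]
  · apply setIntegral_congr_fun (image_meas x D hD hD2)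
    intro z hz
    have hz' := hsub hz
    have h1 := (reparam (lp M.f x) (M.fi i) τ z
      ((hsm.contDiffAt (hW.mem_nhds hz')).of_le MONC_two)
      (fi_contDiff M i).contDiffAt (hτ z hz').2 (hτ z hz').1 (by
        rw [(monge_values M i _).1]; positivity)).2.2.1
    simp only [smul_eq_mul]
    rw [h1, (monge_values M i _).2.1, mul_comm]
  · intro z hz
    exact (((hsm.contDiffAt (hW.mem_nhds (hsub hz))).differentiableAt (by simp)).hasFDerivAt).hasFDerivWithinAt

theorem monge_int (M : MongeSurf S) (hf : IsImm M.f) (P : ChartPart S) (B : M.ι → Set S)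
    (hB : ∀ i, MeasurableSet (B i)) (hBs : ∀ i, B i ⊆ M.P i (M.R i)) (hBd : Pairwise (Function.onFun Disjoint B))
    (hBu : ⋃ i, B i = univ) : ∑ i, ∫ z in M.e i '' B i, M.Hd i z = mcInt P M.f := by
  have h5 : ∀ i, M.R i ≤ 5 * M.R i := fun i => by have := M.R_pos i; linarith
  have hB5 : ∀ i, B i ⊆ M.P i (5 * M.R i) := fun i => (hBs i).trans (P_mono M i (h5 i))
  have hBsrc : ∀ i, B i ⊆ (M.e i).source := fun i y hy => (hBs i hy).1
  have e1 : ∀ i, ∫ z in M.e i '' B i, M.Hd i z =
      ∑ j, ∫ z in M.e i '' (B i ∩ P.C j), M.Hd i z := by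
    intro i
    have h1 : M.e i '' B i = ⋃ j, M.e i '' (B i ∩ P.C j) := by
      rw [← image_iUnion, ← inter_iUnion, P.union, inter_univ]
    rw [h1]
    apply integral_iUnion_fintype
    · intro j
      exact MONC_meas M i _ ((hB i).inter (P.meas j)) (inter_subset_left.trans (hBsrc i))
    · intro j k hjk
      rw [Function.onFun, disjoint_iff_inter_eq_empty,
        ← (M.e i).injOn.image_inter (inter_subset_left.trans (hBsrc i))
          (inter_subset_left.trans (hBsrc i))]
      have h2 : B i ∩ P.C j ∩ (B i ∩ P.C k) = ∅ := by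
        rw [← disjoint_iff_inter_eq_empty]
        exact (P.disj hjk).mono inter_subset_right inter_subset_right
      rw [h2, image_empty]
    · intro j
      have h3 : IntegrableOn (M.Hd i) (closedBall (0 : E2) (M.R i)) :=
        (hess_cont M i).2.2.2.1.continuousOn.integrableOn_compact (isCompact_closedBall _ _)
      apply h3.mono_set
      rintro _ ⟨y, hy, rfl⟩
      exact ball_subset_closedBall (hBs i hy.1).2
  have e2 : ∀ j, ∫ z in chartAt E2 (P.x j) '' P.C j, HdF (lp M.f (P.x j)) z =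
      ∑ i, ∫ z in chartAt E2 (P.x j) '' (B i ∩ P.C j), HdF (lp M.f (P.x j)) z := by
    intro j
    have h1 : chartAt E2 (P.x j) '' P.C j = ⋃ i, chartAt E2 (P.x j) '' (B i ∩ P.C j) := by
      rw [← image_iUnion, ← iUnion_inter, hBu, univ_inter]
    rw [h1]
    apply integral_iUnion_fintype
    · intro i
      exact image_meas _ _ ((hB i).inter (P.meas j)) (inter_subset_right.trans (P.sub j))
    · intro i k hik
      rw [Function.onFun, disjoint_iff_inter_eq_empty,
        ← (chartAt E2 (P.x j)).injOn.image_inter (inter_subset_right.trans (P.sub j))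
          (inter_subset_right.trans (P.sub j))]
      have h2 : B i ∩ P.C j ∩ (B k ∩ P.C j) = ∅ := by
        rw [← disjoint_iff_inter_eq_empty]
        exact (hBd hik).mono inter_subset_left inter_subset_left
      rw [h2, image_empty]
    · intro i
      obtain ⟨hc1, hc2⟩ := imm_chart M.f hf (P.x j)
      have h4 := (coeff_cont (lp M.f (P.x j)) (chartAt E2 (P.x j)).target
        (chartAt E2 (P.x j)).open_target (hc1.of_le MONC_two) hc2).2.2.1
      have h3 : IntegrableOn (HdF (lp M.f (P.x j))) (P.K j) :=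
        (h4.mono (P.K_sub j)).integrableOn_compact (P.compact j)
      apply h3.mono_set
      exact (image_mono inter_subset_right).trans (P.image_sub j)
  unfold mcInt
  rw [Finset.sum_congr rfl fun i _ => e1 i, Finset.sum_congr rfl fun j _ => e2 j,
    Finset.sum_comm]
  refine Finset.sum_congr rfl fun j _ => Finset.sum_congr rfl fun i _ => ?_
  exact MONC_piece M hf i (P.x j) _ ((hB i).inter (P.meas j)) (inter_subset_left.trans (hB5 i))
    (inter_subset_right.trans (P.sub j))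

theorem monge_hdeg (M : MongeSurf S) (hf : IsImm M.f) (P : ChartPart S)
    (hK : ∀ j, volume {z | z ∈ (chartAt E2 (P.x j)).target ∧ KnF (lp M.f (P.x j)) z = 0} = 0) (i : M.ι) :
    volume {z | z ∈ ball (0 : E2) (4 * M.R i) ∧ M.hdet i z = 0} = 0 := by
  have hR := M.R_pos i
  have hsub : {z | z ∈ ball (0 : E2) (4 * M.R i) ∧ M.hdet i z = 0} ⊆
      ⋃ j, (M.e i ∘ (chartAt E2 (P.x j)).symm) '' (MONC_W M i (P.x j) ∩
        {z | z ∈ (chartAt E2 (P.x j)).target ∧ KnF (lp M.f (P.x j)) z = 0}) := by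
    rintro z ⟨hz, hdet⟩
    have hz5 : z ∈ ball (0 : E2) (5 * M.R i) := ball_subset_ball (by linarith) hz
    obtain ⟨h1, h2⟩ := P_symm M i le_rfl hz5
    have h3 : (M.e i).symm z ∈ ⋃ j, P.C j := by rw [P.union]; trivial
    obtain ⟨j, hj⟩ := mem_iUnion.1 h3
    have h4 := P.sub j hj
    rw [mem_iUnion]
    refine ⟨j, chartAt E2 (P.x j) ((M.e i).symm z), ⟨⟨_, ⟨h1, h4⟩, rfl⟩,
      (chartAt E2 (P.x j)).map_source h4, ?_⟩, ?_⟩
    · obtain ⟨hW, hsm, hτ⟩ := e_chart M hf i (P.x j)
      have hmem : chartAt E2 (P.x j) ((M.e i).symm z) ∈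
          chartAt E2 (P.x j) '' (M.P i (5 * M.R i) ∩ (chartAt E2 (P.x j)).source) :=
        ⟨_, ⟨h1, h4⟩, rfl⟩
      have h5 := (reparam_K (lp M.f (P.x j)) (M.fi i) (M.e i ∘ (chartAt E2 (P.x j)).symm)
        (chartAt E2 (P.x j) ((M.e i).symm z))
        ((hsm.contDiffAt (hW.mem_nhds hmem)).of_le MONC_two)
        (fi_contDiff M i).contDiffAt (hτ _ hmem).2).2
      rw [h5, (monge_values M i _).2.2]
      simp only [Function.comp]
      rw [(chartAt E2 (P.x j)).left_inv h4, h2, hdet, zero_mul]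
    · simp only [Function.comp]
      rw [(chartAt E2 (P.x j)).left_inv h4, h2]
  refine measure_mono_null hsub ?_
  rw [measure_iUnion_null_iff]
  intro j
  obtain ⟨hW, hsm, hτ⟩ := e_chart M hf i (P.x j)
  exact null_image2 _ (MONC_W M i (P.x j)) hW (hsm.of_le (by exact_mod_cast le_top)) _
    inter_subset_left (measure_mono_null inter_subset_right (hK j))

end Monc

end Topping
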