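import Mathlib
import Pool.Agent.Lib.MP_bea121_gt.TC.Defs4
import Pool.Agent.Lib.MP_bea121_gt.TC.Prod

/-!
# Slices of the shell (MP_bea121_gt)
-/

open MeasureTheory Set Metric Topology Filter
open scoped RealInnerProductSpace Gradient ContDiff Manifold

noncomputable section

namespace Topping

theorem sh_meas : MeasurableSet Sh ∧ volume Sh < ⊤ ∧ IsCompact Sh := by
  have h1 : IsClosed Sh := by
    have : Sh = norm ⁻¹' (Icc (1 : ℝ) 2) := by ext y; rfl
    rw [this]
    exact isClosed_Icc.preimage continuous_norm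
  have h2 : IsCompact Sh := by
    refine (isCompact_closedBall (0 : E3) 2).of_isClosed_subset h1 ?_
    intro y hy
    rw [mem_closedBall_zero_iff]
    exact hy.2
  exact ⟨h1.measurableSet, h2.measure_lt_top, h2⟩

/-- The plane orthogonal to the first axis. -/
def SLICE_L : E2 →ₗᵢ[ℝ] E3 where
  toFun z := !₂[0, z 0, z 1]
  map_add' := by
    intro x y
    ext i
    fin_cases i <;> simp
  map_smul' := by
    intro c x
    ext i
    fin_cases i <;> simp
  norm_map' := by
    intro z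
    simp [EuclideanSpace.norm_eq, Fin.sum_univ_three, Fin.sum_univ_two]

/-- The first axis. -/
def SLICE_c : E3 := EuclideanSpace.single 0 1

theorem SLICE_Lapply (z : E2) : SLICE_L z = !₂[0, z 0, z 1] := rfl

theorem SLICE_zero (z : E2) (ρ : ℝ) : (SLICE_L z + ρ • SLICE_c) 0 = ρ := by
  simp [SLICE_Lapply, SLICE_c]

theorem SLICE_norm (z : E2) (ρ : ℝ) : ‖SLICE_L z + ρ • SLICE_c‖ ^ 2 = ‖z‖ ^ 2 + ρ ^ 2 := by
  simp [SLICE_Lapply, SLICE_c, EuclideanSpace.norm_sq_eq, Fin.sum_univ_three, Fin.sum_univ_two]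
  ring

theorem SLICE_cnorm : ‖SLICE_c‖ = 1 := by
  simp [SLICE_c]

theorem SLICE_perp (z : E2) : ⟪SLICE_L z, SLICE_c⟫ = 0 := by
  simp [SLICE_Lapply, SLICE_c, PiLp.inner_apply]

/-- The area of a slice of the shell. -/
def SLICE_ar (s : ℝ) : ℝ := Real.pi * (max (4 - s ^ 2) 0 - max (1 - s ^ 2) 0)

theorem SLICE_ar_nonneg (s : ℝ) : 0 ≤ SLICE_ar s := by
  refine mul_nonneg Real.pi_pos.le (sub_nonneg.2 ?_)
  exact max_le_max (by linarith) le_rfl

theorem SLICE_ar_cont : Continuous SLICE_ar := by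
  unfold SLICE_ar
  fun_prop

theorem SLICE_vol (s : ℝ) : volume {z : E2 | 1 ≤ ‖z‖ ^ 2 + s ^ 2 ∧ ‖z‖ ^ 2 + s ^ 2 < 4} =
    ENNReal.ofReal (SLICE_ar s) := by
  have h1 : {z : E2 | 1 ≤ ‖z‖ ^ 2 + s ^ 2 ∧ ‖z‖ ^ 2 + s ^ 2 < 4} =
      ball 0 √(4 - s ^ 2) \ ball 0 √(1 - s ^ 2) := by
    ext z
    rw [Set.mem_sdiff, mem_ball_zero_iff, mem_ball_zero_iff, Real.lt_sqrt (norm_nonneg _),
      Real.lt_sqrt (norm_nonneg _), not_lt]
    constructor
    · rintro ⟨h1, h2⟩
      exact ⟨by linarith, by linarith⟩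
    · rintro ⟨h1, h2⟩
      exact ⟨by linarith, by linarith⟩
  have h2 : ∀ t : ℝ, volume (ball (0 : E2) √t) = ENNReal.ofReal (Real.pi * max t 0) := by
    intro t
    rw [EuclideanSpace.volume_ball_fin_two, ← ENNReal.ofReal_pow (Real.sqrt_nonneg _)]
    rcases le_total 0 t with h | h
    · rw [Real.sq_sqrt h, max_eq_left h, ENNReal.ofReal_mul Real.pi_pos.le, mul_comm]
    · rw [Real.sqrt_eq_zero_of_nonpos h, max_eq_right h]
      simp
  rw [h1, measure_sdiff (ball_subset_ball (Real.sqrt_le_sqrt (by linarith)))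
    measurableSet_ball.nullMeasurableSet measure_ball_lt_top.ne, h2, h2,
    ← ENNReal.ofReal_sub _ (mul_nonneg Real.pi_pos.le (le_max_right _ _)), ← mul_sub]
  rfl

theorem SLICE_lint (F : ℝ → ENNReal) (hF : Measurable F) :
    ∫⁻ y in Sh, F (y 0) = ∫⁻ s, F s * ENNReal.ofReal (SLICE_ar s) := by
  have hS' : MeasurableSet {y : E3 | 1 ≤ ‖y‖ ^ 2 ∧ ‖y‖ ^ 2 < 4} := by
    have h1 : Measurable fun y : E3 => ‖y‖ ^ 2 := by fun_prop
    exact (measurableSet_le measurable_const h1).inter (measurableSet_lt h1 measurable_const)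
  have hae : (Sh : Set E3) =ᵐ[volume] {y : E3 | 1 ≤ ‖y‖ ^ 2 ∧ ‖y‖ ^ 2 < 4} := by
    have h0 : volume (sphere (0 : E3) 2) = 0 := Measure.addHaar_sphere _ _ _
    have h1 : ∀ᵐ y : E3, y ∉ sphere (0 : E3) 2 := measure_eq_zero_iff_ae_notMem.1 h0
    filter_upwards [h1] with y hy
    rw [mem_sphere_zero_iff_norm] at hy
    refine propext ⟨fun h => ⟨?_, ?_⟩, fun h => ⟨?_, ?_⟩⟩
    · have := h.1
      nlinarith
    · have h2 : ‖y‖ < 2 := lt_of_le_of_ne h.2 hy
      have := norm_nonneg y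
      nlinarith
    · have := h.1
      have := norm_nonneg y
      nlinarith
    · have := h.2
      have := norm_nonneg y
      nlinarith
  rw [setLIntegral_congr hae, ← lintegral_indicator hS']
  have h0m : Measurable fun y : E3 => y 0 := by fun_prop
  have hm : Measurable ({y : E3 | 1 ≤ ‖y‖ ^ 2 ∧ ‖y‖ ^ 2 < 4}.indicator fun y => F (y 0)) :=
    (hF.comp h0m).indicator hS'
  rw [lint_prod SLICE_L SLICE_c SLICE_cnorm SLICE_perp _ hm]
  rw [lintegral_lintegral_swap]
  · refine lintegral_congr fun s => ?_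
    have h1 : ∀ z : E2, ({y : E3 | 1 ≤ ‖y‖ ^ 2 ∧ ‖y‖ ^ 2 < 4}.indicator fun y => F (y 0))
        (SLICE_L z + s • SLICE_c) =
        {z : E2 | 1 ≤ ‖z‖ ^ 2 + s ^ 2 ∧ ‖z‖ ^ 2 + s ^ 2 < 4}.indicator (fun _ => F s) z := by
      intro z
      by_cases hz : 1 ≤ ‖z‖ ^ 2 + s ^ 2 ∧ ‖z‖ ^ 2 + s ^ 2 < 4
      · rw [indicator_of_mem, indicator_of_mem, SLICE_zero]
        · exact hz
        · change 1 ≤ ‖SLICE_L z + s • SLICE_c‖ ^ 2 ∧ ‖SLICE_L z + s • SLICE_c‖ ^ 2 < 4
          rw [SLICE_norm]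
          exact hz
      · rw [indicator_of_notMem, indicator_of_notMem]
        · exact hz
        · change ¬ (1 ≤ ‖SLICE_L z + s • SLICE_c‖ ^ 2 ∧ ‖SLICE_L z + s • SLICE_c‖ ^ 2 < 4)
          rw [SLICE_norm]
          exact hz
    have hms : MeasurableSet {z : E2 | 1 ≤ ‖z‖ ^ 2 + s ^ 2 ∧ ‖z‖ ^ 2 + s ^ 2 < 4} := by
      have h1 : Measurable fun z : E2 => ‖z‖ ^ 2 + s ^ 2 := by fun_prop
      exact (measurableSet_le measurable_const h1).inter (measurableSet_lt h1 measurable_const)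
    rw [lintegral_congr h1, lintegral_indicator hms, setLIntegral_const, SLICE_vol]
  · refine Measurable.aemeasurable ?_
    exact hm.comp (by fun_prop)

/-- Integrals over the shell of functions of the first coordinate. -/
theorem SLICE_int (F : ℝ → ℝ) (hF : Measurable F) (h0 : ∀ s, 0 ≤ F s) :
    ∫ y in Sh, F (y 0) = ∫ s, F s * SLICE_ar s := by
  have h0m : Measurable fun y : E3 => y 0 := by fun_prop
  rw [integral_eq_lintegral_of_nonneg_ae (ae_of_all _ fun y => h0 _)
    ((hF.comp h0m).aestronglyMeasurable),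
    integral_eq_lintegral_of_nonneg_ae (ae_of_all _ fun s => mul_nonneg (h0 _)
      (SLICE_ar_nonneg s)) ((hF.mul SLICE_ar_cont.measurable).aestronglyMeasurable),
    SLICE_lint (fun s => ENNReal.ofReal (F s)) hF.ennreal_ofReal]
  congr 1
  refine lintegral_congr fun s => ?_
  rw [ENNReal.ofReal_mul (h0 s)]

theorem SLICE_ar1 {s : ℝ} (h0 : 0 ≤ s) (h : s ≤ 1) : SLICE_ar s = 3 * Real.pi := by
  unfold SLICE_ar
  rw [max_eq_left (by nlinarith), max_eq_left (by nlinarith)]
  ring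

theorem SLICE_ar2 {s : ℝ} (h0 : 1 ≤ s) (h : s ≤ 2) : SLICE_ar s = Real.pi * (4 - s ^ 2) := by
  unfold SLICE_ar
  rw [max_eq_left (by nlinarith), max_eq_right (by nlinarith)]
  ring

theorem SLICE_ar3 {s : ℝ} (h0 : 2 ≤ s) : SLICE_ar s = 0 := by
  unfold SLICE_ar
  rw [max_eq_right (by nlinarith), max_eq_right (by nlinarith)]
  ring

theorem SLICE_ar_abs (s : ℝ) : SLICE_ar |s| = SLICE_ar s := by
  unfold SLICE_ar
  rw [sq_abs]

theorem sh_abs : ∫ y in Sh, |y 0| = 15 * Real.pi / 2 := by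
  rw [SLICE_int (fun s => |s|) (by fun_prop) fun s => abs_nonneg s]
  have h1 : ∀ s : ℝ, |s| * SLICE_ar s = (fun t => t * SLICE_ar t) |s| := by
    intro s
    simp only [SLICE_ar_abs]
  rw [integral_congr_ae (ae_of_all _ h1),
    integral_comp_abs (f := fun t : ℝ => t * SLICE_ar t)]
  have h2 : ∫ s in Ioi (0 : ℝ), s * SLICE_ar s = ∫ s in (0 : ℝ)..2, s * SLICE_ar s := by
    rw [intervalIntegral.integral_of_le (by norm_num)]
    refine setIntegral_eq_of_subset_of_forall_sdiff_eq_zero measurableSet_Ioi Ioc_subset_Ioi_self ?_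
    rintro s ⟨hs1, hs2⟩
    have h2 : 2 ≤ s := by
      by_contra h
      exact hs2 ⟨hs1, by linarith⟩
    rw [SLICE_ar3 h2, mul_zero]
  have hc : Continuous fun s : ℝ => s * SLICE_ar s := continuous_id.mul SLICE_ar_cont
  have h3 : ∫ s in (0 : ℝ)..2, s * SLICE_ar s =
      (∫ s in (0 : ℝ)..1, s * SLICE_ar s) + ∫ s in (1 : ℝ)..2, s * SLICE_ar s :=
    (intervalIntegral.integral_add_adjacent_intervals (hc.intervalIntegrable _ _)
      (hc.intervalIntegrable _ _)).symm
  have h4 : ∫ s in (0 : ℝ)..1, s * SLICE_ar s = ∫ s in (0 : ℝ)..1, s * (3 * Real.pi) := by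
    refine intervalIntegral.integral_congr fun s hs => ?_
    rw [uIcc_of_le (by norm_num)] at hs
    rw [SLICE_ar1 hs.1 hs.2]
  have h5 : ∫ s in (1 : ℝ)..2, s * SLICE_ar s =
      ∫ s in (1 : ℝ)..2, (4 * Real.pi * s - Real.pi * s ^ 3) := by
    refine intervalIntegral.integral_congr fun s hs => ?_
    rw [uIcc_of_le (by norm_num)] at hs
    rw [SLICE_ar2 hs.1 hs.2]
    ring
  rw [h2, h3, h4, h5, intervalIntegral.integral_mul_const, integral_id,
    intervalIntegral.integral_sub (Continuous.intervalIntegrable (by fun_prop) _ _)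
      (Continuous.intervalIntegrable (by fun_prop) _ _),
    intervalIntegral.integral_const_mul, intervalIntegral.integral_const_mul, integral_id,
    integral_pow]
  norm_num
  ring

theorem SLICE_second (a : ℝ) (ha : |a| < 1 / 2) :
    ∫ y in Sh, (|y 0 + a| + |y 0 - a| - 2 * |y 0|) = 6 * Real.pi * a ^ 2 := by
  have h0 : ∀ s : ℝ, |s + a| + |s - a| - 2 * |s| = 2 * max (|a| - |s|) 0 := by
    intro s
    rcases abs_cases (s + a) with h1 | h1 <;> rcases abs_cases (s - a) with h2 | h2 <;>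
      rcases abs_cases s with h3 | h3 <;> rcases abs_cases a with h4 | h4 <;>
      rcases max_cases (|a| - |s|) 0 with h5 | h5 <;> linarith
  rw [SLICE_int (fun s => |s + a| + |s - a| - 2 * |s|) (by fun_prop) fun s => by
    rw [h0]; exact mul_nonneg (by norm_num) (le_max_right _ _)]
  have h1 : ∀ s : ℝ, (|s + a| + |s - a| - 2 * |s|) * SLICE_ar s =
      (fun t => 6 * Real.pi * max (|a| - t) 0) |s| := by
    intro s
    rw [h0]
    simp only
    rcases le_total |s| |a| with h | h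
    · rw [← SLICE_ar_abs, SLICE_ar1 (abs_nonneg s) (by linarith)]
      ring
    · rw [max_eq_right (by linarith)]
      ring
  rw [integral_congr_ae (ae_of_all _ h1),
    integral_comp_abs (f := fun t : ℝ => 6 * Real.pi * max (|a| - t) 0)]
  have h2 : ∫ s in Ioi (0 : ℝ), 6 * Real.pi * max (|a| - s) 0 =
      ∫ s in (0 : ℝ)..|a|, 6 * Real.pi * (|a| - s) := by
    rw [intervalIntegral.integral_of_le (abs_nonneg a)]
    have h3 : ∫ s in Ioc (0 : ℝ) |a|, 6 * Real.pi * (|a| - s) =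
        ∫ s in Ioc (0 : ℝ) |a|, 6 * Real.pi * max (|a| - s) 0 := by
      refine setIntegral_congr_fun measurableSet_Ioc fun s hs => ?_
      rw [max_eq_left (by linarith [hs.2])]
    rw [h3]
    refine setIntegral_eq_of_subset_of_forall_sdiff_eq_zero measurableSet_Ioi Ioc_subset_Ioi_self ?_
    rintro s ⟨hs1, hs2⟩
    have h2 : |a| < s := by
      by_contra h
      exact hs2 ⟨hs1, by linarith⟩
    rw [max_eq_right (by linarith), mul_zero]
  rw [h2, intervalIntegral.integral_const_mul,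
    intervalIntegral.integral_sub (Continuous.intervalIntegrable (by fun_prop) _ _)
      (Continuous.intervalIntegrable (by fun_prop) _ _), integral_id,
    intervalIntegral.integral_const, smul_eq_mul]
  rw [← sq_abs a]
  ring

theorem sh_second (r : ℝ) (h0 : 0 < r) (h1 : r < 1 / 2) :
    ∫ y in Sh, ∫ w in ball (0 : E3) r, (|(y + w) 0| + |(y - w) 0| - 2 * |y 0|) =
      6 * Real.pi * σ r := by
  obtain ⟨hm, hfin, hcpt⟩ := sh_meas
  have hI : Integrable (Function.uncurry fun (y w : E3) =>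
      |(y + w) 0| + |(y - w) 0| - 2 * |y 0|)
      ((volume.restrict Sh).prod (volume.restrict (ball (0 : E3) r))) := by
    rw [Measure.prod_restrict]
    have hc : Continuous (Function.uncurry fun (y w : E3) =>
        |(y + w) 0| + |(y - w) 0| - 2 * |y 0|) := by
      unfold Function.uncurry
      fun_prop
    have h2 : IntegrableOn (Function.uncurry fun (y w : E3) =>
        |(y + w) 0| + |(y - w) 0| - 2 * |y 0|) (Sh ×ˢ closedBall (0 : E3) r)
        (volume.prod volume) :=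
      hc.continuousOn.integrableOn_compact (hcpt.prod (isCompact_closedBall _ _))
    exact h2.mono_set (prod_mono le_rfl ball_subset_closedBall)
  rw [integral_integral_swap hI]
  have h2 : ∀ w ∈ ball (0 : E3) r, ∫ y in Sh, (|(y + w) 0| + |(y - w) 0| - 2 * |y 0|) =
      6 * Real.pi * (w 0) ^ 2 := by
    intro w hw
    have h3 : |w 0| < 1 / 2 := by
      have h4 : |w 0| ≤ ‖w‖ := by
        have := PiLp.norm_apply_le w 0
        rwa [Real.norm_eq_abs] at this
      rw [mem_ball_zero_iff] at hw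
      linarith
    exact SLICE_second (w 0) h3
  rw [setIntegral_congr_fun measurableSet_ball h2, integral_const_mul]
  rfl

end Topping
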