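import Mathlib
import Pool.Agent.Lib.MP_bea121_gt.TC.Defs4
import Pool.Agent.Lib.MP_bea121_gt.TC.Slice

/-! Second moments of the ball, rotation of the shell integral (module ISO of MP_bea121_gt). -/

open MeasureTheory Set Metric Topology Filter
open scoped RealInnerProductSpace Gradient ContDiff Manifold

noncomputable section

namespace Topping

theorem ISO_comp (U : E3 ≃ₗᵢ[ℝ] E3) (g : E3 → ℝ) (s : Set E3) :
    ∫ w in U ⁻¹' s, g (U w) = ∫ w in s, g w :=
  U.measurePreserving.setIntegral_preimage_emb U.toHomeomorph.measurableEmbedding g s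

theorem ISO_ball (U : E3 ≃ₗᵢ[ℝ] E3) (g : E3 → ℝ) (r : ℝ) :
    ∫ w in ball (0 : E3) r, g (U w) = ∫ w in ball (0 : E3) r, g w := by
  rw [← ISO_comp U g (ball 0 r)]
  congr 2
  ext w
  simp

/-- reflection of a coordinate -/
def ISO_flip (i : Fin 3) : E3 ≃ₗᵢ[ℝ] E3 :=
  LinearIsometryEquiv.piLpCongrRight 2
    (fun k => if k = i then LinearIsometryEquiv.neg ℝ else LinearIsometryEquiv.refl ℝ ℝ)

theorem ISO_flip_same (i : Fin 3) (w : E3) : (ISO_flip i w) i = - w i := by
  simp [ISO_flip, LinearIsometryEquiv.piLpCongrRight_apply]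

theorem ISO_flip_ne (i j : Fin 3) (h : j ≠ i) (w : E3) : (ISO_flip i w) j = w j := by
  simp [ISO_flip, LinearIsometryEquiv.piLpCongrRight_apply, h]

theorem ISO_off (i j : Fin 3) (h : i ≠ j) (r : ℝ) : ∫ w in ball (0 : E3) r, w i * w j = 0 := by
  have h1 := ISO_ball (ISO_flip i) (fun w : E3 => w i * w j) r
  simp only [ISO_flip_same, ISO_flip_ne i j h.symm] at h1
  have h2 : ∫ w in ball (0 : E3) r, -w i * w j = - ∫ w in ball (0 : E3) r, w i * w j := by
    rw [← integral_neg]
    congr 1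
    ext w
    ring
  rw [h2] at h1
  linarith

theorem ISO_diag (i : Fin 3) (r : ℝ) : ∫ w in ball (0 : E3) r, w i * w i = σ r := by
  have h1 := ISO_ball (LinearIsometryEquiv.piLpCongrLeft 2 ℝ ℝ (Equiv.swap 0 i))
    (fun w : E3 => w i * w i) r
  rw [← h1]
  unfold σ
  congr 1
  ext w
  simp [LinearIsometryEquiv.piLpCongrLeft_apply, Equiv.piCongrLeft', sq]

theorem ISO_int (i j : Fin 3) (c r : ℝ) :
    IntegrableOn (fun w : E3 => c * (w i * w j)) (ball (0 : E3) r) := by
  have : Continuous (fun w : E3 => c * (w i * w j)) := by fun_prop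
  exact (this.continuousOn.integrableOn_compact (isCompact_closedBall _ _)).mono_set
    ball_subset_closedBall

theorem ISO_expand (A : E3 →L[ℝ] E3) (w : E3) :
    ⟪A w, w⟫ = ∑ i, ∑ j, (A (EuclideanSpace.single i 1)) j * (w i * w j) := by
  have h1 : A w = ∑ i, w i • A (EuclideanSpace.single i 1) := by
    conv_lhs => rw [← (EuclideanSpace.basisFun (Fin 3) ℝ).sum_repr w]
    rw [map_sum]
    refine Finset.sum_congr rfl fun i _ => ?_
    rw [map_smul]
    simp
  rw [h1, sum_inner]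
  refine Finset.sum_congr rfl fun i _ => ?_
  rw [inner_smul_left, PiLp.inner_apply, Finset.mul_sum]
  refine Finset.sum_congr rfl fun j _ => ?_
  simp
  ring

theorem isotropy (A : E3 →L[ℝ] E3) (r : ℝ) :
    ∫ w in ball (0 : E3) r, ⟪A w, w⟫ = σ r * LinearMap.trace ℝ E3 (A : E3 →ₗ[ℝ] E3) := by
  simp only [ISO_expand]
  rw [integral_finsetSum _ fun i _ => integrable_finsetSum _ fun j _ => ISO_int i j _ r]
  rw [LinearMap.trace_eq_sum_inner _ (EuclideanSpace.basisFun (Fin 3) ℝ), Finset.mul_sum]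
  refine Finset.sum_congr rfl fun i _ => ?_
  rw [integral_finsetSum _ fun j _ => ISO_int i j _ r, Finset.sum_eq_single i]
  · rw [integral_const_mul, ISO_diag, mul_comm]
    congr 1
    rw [EuclideanSpace.basisFun_apply, EuclideanSpace.inner_single_left]
    simp
  · intro j _ hj
    rw [integral_const_mul, ISO_off i j (Ne.symm hj), mul_zero]
  · simp

theorem σ_scale (r : ℝ) (hr : 0 < r) : σ r = r ^ 5 * σ 1 := by
  have h1 := Measure.setIntegral_comp_smul_of_pos (volume : Measure E3)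
    (fun w : E3 => (w 0) ^ 2) (ball (0 : E3) 1) hr
  rw [smul_unitBall_of_pos hr, finrank_euclideanSpace_fin] at h1
  have h2 : ∫ w in ball (0 : E3) 1, ((r • w) 0) ^ 2 = r ^ 2 * σ 1 := by
    unfold σ
    rw [← integral_const_mul]
    congr 1
    ext w
    simp [mul_pow]
  have h3 : ∫ w in ball (0 : E3) r, (w 0) ^ 2 = σ r := rfl
  rw [h2, h3, smul_eq_mul] at h1
  have h4 : r ^ 3 ≠ 0 := by positivity
  calc σ r = r ^ 3 * ((r ^ 3)⁻¹ * σ r) := by field_simp
    _ = r ^ 3 * (r ^ 2 * σ 1) := by rw [h1]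
    _ = r ^ 5 * σ 1 := by ring

theorem σ_pos (r : ℝ) (hr : 0 < r) : 0 < σ r := by
  have hc : Continuous (fun w : E3 => (w 0) ^ 2) := by fun_prop
  unfold σ
  rw [setIntegral_pos_iff_support_of_nonneg_ae (Eventually.of_forall fun w => sq_nonneg _)
    ((hc.continuousOn.integrableOn_compact (isCompact_closedBall _ _)).mono_set
      ball_subset_closedBall)]
  refine IsOpen.measure_pos _ ((hc.isOpen_support).inter isOpen_ball) ?_
  refine ⟨EuclideanSpace.single 0 (r / 2), ?_, ?_⟩
  · simp [hr.ne']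
  · rw [mem_ball_zero_iff, EuclideanSpace.norm_single, Real.norm_eq_abs, abs_of_pos (by positivity)]
    linarith

theorem calib (a : E3) : ∫ y in Sh, |⟪a, y⟫| = (15 * Real.pi / 2) * ‖a‖ := by
  set e : E3 := EuclideanSpace.single 0 1 with he
  have hn : ‖‖a‖ • e‖ = ‖a‖ := by
    rw [norm_smul, norm_norm, he, EuclideanSpace.norm_single, norm_one, mul_one]
  set U : E3 ≃ₗᵢ[ℝ] E3 := Submodule.reflection (ℝ ∙ (‖a‖ • e - a))ᗮ with hU
  have hUe : U (‖a‖ • e) = a := Submodule.reflection_sub hn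
  have h1 := ISO_comp U (fun y => |⟪a, y⟫|) Sh
  have h2 : U ⁻¹' Sh = Sh := by
    ext w
    simp [Sh]
  rw [h2] at h1
  rw [← h1]
  have h3 : ∀ w : E3, |⟪a, U w⟫| = ‖a‖ * |w 0| := by
    intro w
    conv_lhs => rw [← hUe]
    rw [LinearIsometryEquiv.inner_map_map, inner_smul_left, he, EuclideanSpace.inner_single_left]
    simp [abs_mul]
  simp only [h3]
  rw [integral_const_mul, sh_abs, mul_comm]

end Topping
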