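import Mathlib
import Pool.Agent.Lib.MP_bea121_gt.TC.Defs4

/-! Elementary properties of the width (module WIDTH of MP_bea121_gt). -/

open MeasureTheory Set Metric Topology Filter
open scoped RealInnerProductSpace Gradient ContDiff Manifold

noncomputable section

namespace Topping

section Width
variable {S : Type} [TopologicalSpace S] [CompactSpace S] [Nonempty S]

omit [Nonempty S] in
theorem WIDTH_bdd (f : S → E3) (hf : Continuous f) (y : E3) :
    BddAbove (range fun x => ⟪f x, y⟫) ∧ BddBelow (range fun x => ⟪f x, y⟫) := by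
  have h : IsCompact (range fun x => ⟪f x, y⟫) := isCompact_range (by fun_prop)
  exact ⟨h.bddAbove, h.bddBelow⟩

omit [TopologicalSpace S] [CompactSpace S] in
theorem WIDTH_osc (h h' : S → ℝ) (ha : BddAbove (range h)) (hb : BddBelow (range h))
    (ha' : BddAbove (range h')) (hb' : BddBelow (range h')) (δ : ℝ) (hd : ∀ x, |h x - h' x| ≤ δ) :
    |((⨆ x, h x) - ⨅ x, h x) - ((⨆ x, h' x) - ⨅ x, h' x)| ≤ 2 * δ := by
  have h1 : (⨆ x, h x) ≤ (⨆ x, h' x) + δ := by
    apply ciSup_le
    intro x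
    have := le_ciSup ha' x
    have := (abs_le.1 (hd x)).2
    linarith
  have h2 : (⨆ x, h' x) ≤ (⨆ x, h x) + δ := by
    apply ciSup_le
    intro x
    have := le_ciSup ha x
    have := (abs_le.1 (hd x)).1
    linarith
  have h3 : (⨅ x, h' x) - δ ≤ (⨅ x, h x) := by
    apply le_ciInf
    intro x
    have := ciInf_le hb' x
    have := (abs_le.1 (hd x)).1
    linarith
  have h4 : (⨅ x, h x) - δ ≤ (⨅ x, h' x) := by
    apply le_ciInf
    intro x
    have := ciInf_le hb x
    have := (abs_le.1 (hd x)).2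
    linarith
  rw [abs_le]
  constructor <;> linarith

theorem width_cont (f : S → E3) (hf : Continuous f) : Continuous (width f) := by
  obtain ⟨B, hB⟩ : ∃ B : ℝ, ∀ x, ‖f x‖ ≤ B := by
    have h : IsCompact (range fun x => ‖f x‖) := isCompact_range (by fun_prop)
    obtain ⟨B, hB⟩ := h.bddAbove
    exact ⟨B, fun x => hB ⟨x, rfl⟩⟩
  have hB0 : 0 ≤ B := (norm_nonneg _).trans (hB (Classical.arbitrary S))
  have hL : LipschitzWith (Real.toNNReal (2 * B)) (width f) := by
    apply LipschitzWith.of_dist_le_mul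
    intro y y'
    rw [Real.coe_toNNReal _ (by positivity), Real.dist_eq, dist_eq_norm]
    have := WIDTH_osc (fun x => ⟪f x, y⟫) (fun x => ⟪f x, y'⟫) (WIDTH_bdd f hf y).1 (WIDTH_bdd f hf y).2
      (WIDTH_bdd f hf y').1 (WIDTH_bdd f hf y').2 (B * ‖y - y'‖) (by
        intro x
        rw [← inner_sub_right]
        exact (abs_real_inner_le_norm _ _).trans (mul_le_mul_of_nonneg_right (hB x) (norm_nonneg _)))
    unfold width
    linarith
  exact hL.continuous

omit [Nonempty S] in
theorem width_ge (f : S → E3) (hf : Continuous f) (p q : S) (y : E3) : |⟪f p - f q, y⟫| ≤ width f y := by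
  obtain ⟨ha, hb⟩ := WIDTH_bdd f hf y
  have h1 := le_ciSup ha p
  have h2 := le_ciSup ha q
  have h3 := ciInf_le hb p
  have h4 := ciInf_le hb q
  rw [inner_sub_left, abs_le]
  unfold width
  constructor <;> linarith

omit [CompactSpace S] in
theorem width_le (f : S → E3) (hf : Continuous f) (y : E3) (a b : ℝ) (ha : ∀ x, ⟪f x, y⟫ ≤ a) (hb : ∀ x, -⟪f x, y⟫ ≤ b) :
    width f y ≤ a + b := by
  have h1 : (⨆ x, ⟪f x, y⟫) ≤ a := ciSup_le ha
  have h2 : -b ≤ ⨅ x, ⟪f x, y⟫ := le_ciInf (fun x => by linarith [hb x])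
  unfold width
  linarith

theorem width_sub (f f' : S → E3) (hf : Continuous f) (hf' : Continuous f') (δ : ℝ) (h : ∀ x, ‖f x - f' x‖ ≤ δ) (y : E3) :
    |width f y - width f' y| ≤ 2 * δ * ‖y‖ := by
  have := WIDTH_osc (fun x => ⟪f x, y⟫) (fun x => ⟪f' x, y⟫) (WIDTH_bdd f hf y).1 (WIDTH_bdd f hf y).2
      (WIDTH_bdd f' hf' y).1 (WIDTH_bdd f' hf' y).2 (δ * ‖y‖) (by
        intro x
        rw [← inner_sub_left]
        exact (abs_real_inner_le_norm _ _).trans (mul_le_mul_of_nonneg_right (h x) (norm_nonneg _)))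
  unfold width
  linarith
end Width

end Topping
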