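import Mathlib
import Pool.Agent.Lib.MP_bea121_gt.TC.Defs4
import Pool.Agent.Lib.MP_bea121_gt.TC.Width
import Pool.Agent.Lib.MP_bea121_gt.TC.Iso
import Pool.Agent.Lib.MP_bea121_gt.TC.Mch

/-! Strict inequality between the mean width and the diameter (module STRICT of MP_bea121_gt). -/

open MeasureTheory Set Metric Topology Filter
open scoped RealInnerProductSpace Gradient ContDiff Manifold

noncomputable section

namespace Topping

theorem STRICT_isCompact_Sh : IsCompact Sh := by
  have h : Sh = closedBall (0 : E3) 2 ∩ {y | 1 ≤ ‖y‖} := by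
    ext y
    simp [Sh, and_comm]
  rw [h]
  exact (isCompact_closedBall _ _).inter_right (isClosed_le continuous_const continuous_norm)

/-- A differentiable map with values in `q + ℝ a` has its derivatives in `ℝ a`. -/
theorem STRICT_deriv (F : E2 → E3) (U : Set E2) (hU : IsOpen U) (z : E2) (hz : z ∈ U)
    (hd : DifferentiableAt ℝ F z) (q a : E3) (h : ∀ w ∈ U, F w - q ∈ Submodule.span ℝ {a}) (v : E2) :
    ∃ α : ℝ, fderiv ℝ F z v = α • a := by
  set W : Submodule ℝ E3 := Submodule.span ℝ {a} with hW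
  set P := Wᗮ.starProjection with hP
  have h1 : HasFDerivAt (fun w => P (F w - q)) (P.comp (fderiv ℝ F z)) z :=
    P.hasFDerivAt.comp z (hd.hasFDerivAt.sub_const q)
  have h2 : HasFDerivAt (fun w => P (F w - q)) (0 : E2 →L[ℝ] E3) z := by
    refine (hasFDerivAt_const (0 : E3) z).congr_of_eventuallyEq ?_
    filter_upwards [hU.mem_nhds hz] with w hw
    rw [hP]
    apply (Submodule.starProjection_apply_eq_zero_iff _).2
    rw [Submodule.orthogonal_orthogonal]
    exact h w hw
  have h3 := h1.unique h2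
  have h4 : P (fderiv ℝ F z v) = 0 := by
    have := congrArg (fun T : E2 →L[ℝ] E3 => T v) h3
    simpa using this
  have h5 : fderiv ℝ F z v ∈ W := by
    rw [hP] at h4
    have := (Submodule.starProjection_apply_eq_zero_iff _).1 h4
    rwa [Submodule.orthogonal_orthogonal] at this
  obtain ⟨α, hα⟩ := Submodule.mem_span_singleton.1 h5
  exact ⟨α, hα.symm⟩

section Strict
variable {S : Type} [TopologicalSpace S] [CompactSpace S] [T2Space S] [Nonempty S] [ChartedSpace E2 S] [IsManifold (𝓡 2) ∞ S]

omit [CompactSpace S] [T2Space S] in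
theorem STRICT_not_line (f : S → E3) (hf : IsImm f) (q a : E3) :
    ∃ m, f m - q ∉ Submodule.span ℝ {a} := by
  by_contra hcon
  push Not at hcon
  obtain ⟨x⟩ := (inferInstance : Nonempty S)
  obtain ⟨h1, h2⟩ := imm_chart f hf x
  have hz : chartAt E2 x x ∈ (chartAt E2 x).target := mem_chart_target E2 x
  have hop : IsOpen (chartAt E2 x).target := (chartAt E2 x).open_target
  have hd : DifferentiableAt ℝ (lp f x) (chartAt E2 x x) :=
    (h1.differentiableOn (by simp)).differentiableAt (hop.mem_nhds hz)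
  have hh : ∀ w ∈ (chartAt E2 x).target, lp f x w - q ∈ Submodule.span ℝ {a} := fun w _ => hcon _
  obtain ⟨α, hα⟩ := STRICT_deriv (lp f x) _ hop _ hz hd q a hh ex
  obtain ⟨β, hβ⟩ := STRICT_deriv (lp f x) _ hop _ hz hd q a hh ey
  apply h2 _ hz
  unfold gD gE gG gF Fx Fy
  rw [hα, hβ]
  simp only [real_inner_smul_left, real_inner_smul_right]
  ring

theorem width_strict (f : S → E3) (hf : IsImm f) :
    (15 * Real.pi / 2) * Metric.diam (range f) < ∫ y in Sh, width f y := by
  have hc : Continuous f := hf.smooth.continuous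
  obtain ⟨⟨p, q⟩, -, hpq⟩ := (isCompact_univ (X := S × S)).exists_isMaxOn univ_nonempty
    (f := fun x : S × S => dist (f x.1) (f x.2)) (by fun_prop)
  set a : E3 := f p - f q with ha
  have hdiam : Metric.diam (range f) ≤ ‖a‖ := by
    apply Metric.diam_le_of_forall_dist_le (norm_nonneg _)
    rintro _ ⟨x, rfl⟩ _ ⟨y, rfl⟩
    have := hpq (mem_univ (x, y))
    simp only [mem_ofPred_eq] at this
    rwa [dist_eq_norm (f p), ← ha] at this
  obtain ⟨m, hm⟩ := STRICT_not_line f hf (f q) a
  set W : Submodule ℝ E3 := Submodule.span ℝ {a} with hW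
  set m' : E3 := f m - f q with hm'
  set u : E3 := Wᗮ.starProjection m' with hu
  have hu0 : u ≠ 0 := by
    intro h0
    have := (Submodule.starProjection_apply_eq_zero_iff _).1 h0
    rw [Submodule.orthogonal_orthogonal] at this
    exact hm this
  have huW : u ∈ Wᗮ := Submodule.starProjection_apply_mem _ _
  have hau : ⟪a, u⟫ = 0 := (Submodule.mem_orthogonal _ _).1 huW a (Submodule.mem_span_singleton_self a)
  have hmu : ⟪m', u⟫ = ‖u‖ ^ 2 := by
    have h1 : m' - u ∈ Wᗮᗮ := by
      exact Submodule.sub_starProjection_mem_orthogonal m'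
    have h2 : ⟪u, m' - u⟫ = 0 := (Submodule.mem_orthogonal _ _).1 h1 u huW
    rw [inner_sub_right, real_inner_self_eq_norm_sq] at h2
    rw [real_inner_comm]
    linarith
  have hun : 0 < ‖u‖ := norm_pos_iff.2 hu0
  set y₁ : E3 := (3 / 2 / ‖u‖) • u with hy₁
  have hy₁n : ‖y₁‖ = 3 / 2 := by
    rw [hy₁, norm_smul, Real.norm_eq_abs, abs_of_pos (by positivity)]
    field_simp
  have h1 : ⟪a, y₁⟫ = 0 := by rw [hy₁, real_inner_smul_right, hau, mul_zero]
  have h2 : 0 < ⟪m', y₁⟫ := by
    rw [hy₁, real_inner_smul_right, hmu]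
    positivity
  set g : E3 → ℝ := fun y => width f y - |⟪a, y⟫| with hg
  have hgc : Continuous g := (width_cont f hc).sub (by fun_prop)
  have hac : Continuous (fun y : E3 => |⟪a, y⟫|) := by fun_prop
  have hg0 : ∀ y, 0 ≤ g y := fun y => sub_nonneg.2 (width_ge f hc p q y)
  have hg1 : 0 < g y₁ := by
    have := width_ge f hc m q y₁
    rw [← hm', abs_of_pos h2] at this
    simp only [hg, h1, abs_zero, sub_zero]
    linarith
  have hgi : IntegrableOn g Sh := hgc.continuousOn.integrableOn_compact STRICT_isCompact_Sh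
  have hai : IntegrableOn (fun y : E3 => |⟪a, y⟫|) Sh :=
    hac.continuousOn.integrableOn_compact STRICT_isCompact_Sh
  have hpos : 0 < ∫ y in Sh, g y := by
    rw [setIntegral_pos_iff_support_of_nonneg_ae (Filter.Eventually.of_forall hg0) hgi]
    set O : Set E3 := {y | 0 < g y} ∩ {y | 1 < ‖y‖} ∩ {y | ‖y‖ < 2} with hO
    have hOo : IsOpen O := ((isOpen_lt continuous_const hgc).inter
      (isOpen_lt continuous_const continuous_norm)).inter (isOpen_lt continuous_norm continuous_const)
    have hOn : O.Nonempty := ⟨y₁, ⟨hg1, by simp only [mem_ofPred_eq, hy₁n]; norm_num⟩,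
      by simp only [mem_ofPred_eq, hy₁n]; norm_num⟩
    refine lt_of_lt_of_le (hOo.measure_pos volume hOn) (measure_mono ?_)
    rintro y ⟨⟨hy1, hy2⟩, hy3⟩
    exact ⟨(ne_of_gt hy1 : g y ≠ 0), ⟨le_of_lt hy2, le_of_lt hy3⟩⟩
  have hsplit : ∫ y in Sh, width f y = (∫ y in Sh, g y) + ∫ y in Sh, |⟪a, y⟫| := by
    rw [← integral_add hgi hai]
    congr 1
    ext y
    simp [hg]
  rw [hsplit, calib]
  have : (15 * Real.pi / 2) * Metric.diam (range f) ≤ (15 * Real.pi / 2) * ‖a‖ :=
    mul_le_mul_of_nonneg_left hdiam (by positivity)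
  linarith
end Strict

end Topping
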