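import Pool.Agent.Lib.MP_bea121_gt.TC.MainB
import Pool.Agent.Lib.MP_bea121_gt.TC.Mch
import Pool.Agent.Lib.MP_bea121_gt.TC.Exm
import Pool.Agent.Lib.MP_bea121_gt.TC.Cpart
import Pool.Agent.Lib.MP_bea121_gt.TC.Aream
import Pool.Agent.Lib.MP_bea121_gt.TC.Intc
import Pool.Agent.Lib.MP_bea121_gt.TC.Monc
import Pool.Agent.Lib.MP_bea121_gt.TC.Degae
import Pool.Agent.Lib.MP_bea121_gt.TC.Strict

/-!
# Topping's conjecture (MP_bea121_gt, final assembly)
-/

open MeasureTheory Set Metric Topology Filter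
open scoped RealInnerProductSpace Gradient ContDiff Manifold

noncomputable section

namespace Topping

theorem partition_gen {X : Type} [MeasurableSpace X] {ι : Type} [Fintype ι] (U : ι → Set X)
    (hU : ∀ i, MeasurableSet (U i)) (hc : ⋃ i, U i = univ) : ∃ A : ι → Set X, (∀ i, MeasurableSet (A i)) ∧
      (∀ i, A i ⊆ U i) ∧ Pairwise (Function.onFun Disjoint A) ∧ ⋃ i, A i = univ := by
  classical
  set e := Fintype.equivFin ι with he
  refine ⟨fun l => U l \ ⋃ j ∈ Finset.univ.filter (fun j => e j < e l), U j, ?_, ?_, ?_, ?_⟩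
  · intro l
    exact (hU l).diff (Finset.measurableSet_biUnion _ (fun j _ => hU j))
  · intro l y hy
    exact hy.1
  · intro l l' hne
    show Disjoint _ _
    rw [Set.disjoint_left]
    intro y hy hy'
    have hne' : e l ≠ e l' := fun h => hne (e.injective h)
    rcases lt_or_gt_of_ne hne' with h | h
    · exact hy'.2 (by simp only [mem_iUnion]; exact ⟨l, by simp [h], hy.1⟩)
    · exact hy.2 (by simp only [mem_iUnion]; exact ⟨l', by simp [h], hy'.1⟩)
  · ext y
    refine ⟨fun _ => mem_univ _, fun _ => ?_⟩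
    have h1 : ∃ l, y ∈ U l := by simpa using hc.ge (mem_univ y)
    have hne : ((Finset.univ.filter (fun l => y ∈ U l)).image e).Nonempty := by
      obtain ⟨l, hl⟩ := h1
      exact ⟨e l, by simp [hl]⟩
    have hm := Finset.min'_mem _ hne
    obtain ⟨l, hl, hle⟩ := Finset.mem_image.1 hm
    simp only [mem_iUnion]
    refine ⟨l, (Finset.mem_filter.1 hl).2, ?_⟩
    simp only [mem_iUnion, not_exists]
    intro j hj hyj
    have : e l ≤ e j := by
      rw [hle]
      exact Finset.min'_le _ _ (by simp [hyj])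
    exact absurd (Finset.mem_filter.1 hj).2 (not_lt.2 this)

section
variable {S : Type} [TopologicalSpace S] [T2Space S] [CompactSpace S] [ConnectedSpace S]
  [ChartedSpace E2 S] [IsManifold (𝓡 2) ∞ S] [MeasurableSpace S] [BorelSpace S]

/-- generic case -/
theorem width_generic (f : S → E3) (hf : IsImm f) (P : ChartPart S)
    (hK : ∀ j, volume {z | z ∈ (chartAt E2 (P.x j)).target ∧ KnF (lp f (P.x j)) z = 0} = 0) :
    ∫ y in Sh, width f y ≤ (15 / 2) * mcInt P f := by
  obtain ⟨M, rfl⟩ := exists_monge f hf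
  obtain ⟨B, hB, hBs, hBd, hBu⟩ := partition_gen (fun i => M.P i (M.R i))
    (fun i => (P_open M i _).measurableSet) (by
      ext x
      simp only [mem_iUnion, mem_univ, iff_true]
      exact P_cover M x)
  have h := main_monge M B hB hBs hBd hBu (monge_hdeg M hf P hK)
  rwa [monge_int M hf P B hB hBs hBd hBu] at h

/-- general case by perturbation -/
theorem width_le_mcInt (f : S → E3) (hf : IsImm f) (P : ChartPart S) :
    ∫ y in Sh, width f y ≤ (15 / 2) * mcInt P f := by
  obtain ⟨hShm, hShf, hShc⟩ := sh_meas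
  set vS := (volume Sh).toReal with hvS
  have hvS0 : 0 ≤ vS := ENNReal.toReal_nonneg
  have hfc : Continuous f := hf.smooth.continuous
  have hne : Nonempty S := inferInstance
  obtain ⟨B, hB⟩ : ∃ B : ℝ, ∀ x, ‖f x‖ ≤ B := by
    obtain ⟨B, hB⟩ := isCompact_univ.exists_bound_of_continuousOn hfc.continuousOn
    exact ⟨B, fun x => hB x (mem_univ x)⟩
  have hB0 : 0 ≤ B := (norm_nonneg _).trans (hB hne.some)
  apply le_of_forall_pos_le_add
  intro η hη
  obtain ⟨β₁, hβ₁, h1⟩ := imm_pert f hf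
  obtain ⟨β₂, hβ₂, h2⟩ := mcInt_lim f hf P (η / 15) (by positivity)
  obtain ⟨b, hb, hbK⟩ := exists_good_b f hf P (min (min β₁ β₂) (η / (8 * (B ^ 2 + 1) * (vS + 1))))
    (by positivity)
  have hb1 : ‖b‖ < β₁ := hb.trans_le ((min_le_left _ _).trans (min_le_left _ _))
  have hb2 : ‖b‖ < β₂ := hb.trans_le ((min_le_left _ _).trans (min_le_right _ _))
  have hb3 : ‖b‖ < η / (8 * (B ^ 2 + 1) * (vS + 1)) := hb.trans_le (min_le_right _ _)
  have himm := h1 b hb1
  have hgen := width_generic (fpert b f) himm P hbK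
  have hlim := abs_lt.1 (h2 b hb2)
  have hfbc : Continuous (fpert b f) := himm.smooth.continuous
  have hdist : ∀ x, ‖f x - fpert b f x‖ ≤ B ^ 2 * ‖b‖ := by
    intro x
    simp only [fpert]
    rw [show f x - (f x + ‖f x‖ ^ 2 • b) = -(‖f x‖ ^ 2 • b) by abel, norm_neg, norm_smul, norm_pow, norm_norm]
    gcongr
    exact hB x
  have hw : ∫ y in Sh, width f y ≤ (∫ y in Sh, width (fpert b f) y) + 4 * (B ^ 2 * ‖b‖) * vS := by
    have hwI : IntegrableOn (width f) Sh := (width_cont f hfc).continuousOn.integrableOn_compact hShc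
    have hwI' : IntegrableOn (width (fpert b f)) Sh := (width_cont _ hfbc).continuousOn.integrableOn_compact hShc
    have hcI : IntegrableOn (fun _ : E3 => 4 * (B ^ 2 * ‖b‖)) Sh := integrableOn_const hShf.ne
    have h1 : ∫ y in Sh, width f y ≤ ∫ y in Sh, (width (fpert b f) y + 4 * (B ^ 2 * ‖b‖)) := by
      apply setIntegral_mono_on hwI (hwI'.add hcI) hShm
      intro y hy
      have := (abs_le.1 (width_sub f (fpert b f) hfc hfbc _ hdist y)).2
      have hy2 : ‖y‖ ≤ 2 := hy.2
      have h3 : 2 * (B ^ 2 * ‖b‖) * ‖y‖ ≤ 2 * (B ^ 2 * ‖b‖) * 2 := by gcongr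
      show width f y ≤ width (fpert b f) y + 4 * (B ^ 2 * ‖b‖)
      linarith
    refine h1.trans (le_of_eq ?_)
    rw [integral_add hwI' hcI, setIntegral_const, smul_eq_mul]
    simp only [Measure.real]
    ring
  have hsmall : 4 * (B ^ 2 * ‖b‖) * vS ≤ η / 2 := by
    have h1 : B ^ 2 * ‖b‖ * vS ≤ (B ^ 2 + 1) * (η / (8 * (B ^ 2 + 1) * (vS + 1))) * (vS + 1) := by
      gcongr
      · linarith
      · linarith
    have h2 : (B ^ 2 + 1) * (η / (8 * (B ^ 2 + 1) * (vS + 1))) * (vS + 1) = η / 8 := by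
      have : B ^ 2 + 1 ≠ 0 := by positivity
      field_simp
    linarith
  linarith [hlim.2]

theorem topping_core (f : S → E3) (hf : IsImm f) : ∃ μ : Measure S, IsFiniteMeasure μ ∧ IsAreaMeasure f μ ∧
    (∀ ν : Measure S, IsAreaMeasure f ν → ν = μ) ∧ Integrable (absMC f) μ ∧
    (2 / 15) * ∫ y in Sh, width f y ≤ ∫ x, absMC f x ∂μ ∧
    Real.pi * Metric.diam (range f) < ∫ x, absMC f x ∂μ := by
  obtain ⟨μ, hμ, ha, hu⟩ := exists_area f hf
  obtain ⟨P⟩ := exists_chartPart (S := S)
  obtain ⟨hI, hint⟩ := integral_absMC f hf μ ha P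
  have h1 := width_le_mcInt f hf P
  have h2 := width_strict f hf
  refine ⟨μ, hμ, ha, hu, hI, ?_, ?_⟩
  · rw [hint]; linarith
  · rw [hint]; linarith

end

end Topping
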