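import Mathlib
import Pool.Agent.Lib.MP_bea121_gt.TC.Defs4

/-!
# Topping's conjecture, module POLAR: polar coordinates
-/

open MeasureTheory Set Metric Topology Filter
open scoped RealInnerProductSpace Gradient ContDiff Manifold

noncomputable section

namespace Topping

theorem POLAR_eq (D : E3 → ℝ) (hh : ∀ (τ : ℝ) (y : E3), 0 ≤ τ → D (τ • y) = τ * D y)
    (k : ℝ → ℝ) :
    ∫ y, D y * k ‖y‖ =
      (∫ x : sphere (0 : E3) 1, D (x : E3) ∂(volume : Measure E3).toSphere) *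
        ∫ ρ : Ioi (0 : ℝ), (ρ : ℝ) * k ρ ∂(Measure.volumeIoiPow (Module.finrank ℝ E3 - 1)) := by
  calc ∫ y, D y * k ‖y‖
      = ∫ y : ({(0)}ᶜ : Set E3), D (y : E3) * k ‖(y : E3)‖
          ∂((volume : Measure E3).comap (↑)) := by
        rw [integral_subtype_comap (measurableSet_singleton _).compl
          fun y : E3 => D y * k ‖y‖, restrict_compl_singleton]
    _ = ∫ p, D (p.1 : E3) * ((p.2 : ℝ) * k p.2) ∂((volume : Measure E3).toSphere.prod
          (Measure.volumeIoiPow (Module.finrank ℝ E3 - 1))) := by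
        rw [← ((volume : Measure E3).measurePreserving_homeomorphUnitSphereProd).integral_comp
          (Homeomorph.measurableEmbedding _)
          (fun p : sphere (0 : E3) 1 × Ioi (0 : ℝ) => D (p.1 : E3) * ((p.2 : ℝ) * k p.2))]
        congr 1
        funext y
        have hy : (y : E3) ≠ 0 := y.2
        have h1 : (((homeomorphUnitSphereProd E3) y).1 : E3) = ‖(y : E3)‖⁻¹ • (y : E3) := by
          simp
        have h2 : (((homeomorphUnitSphereProd E3) y).2 : ℝ) = ‖(y : E3)‖ := by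
          simp
        rw [h1, h2, hh _ _ (inv_nonneg.2 (norm_nonneg _))]
        have h3 : ‖(y : E3)‖ ≠ 0 := norm_ne_zero_iff.2 hy
        field_simp
    _ = _ := integral_prod_mul (μ := (volume : Measure E3).toSphere)
        (ν := Measure.volumeIoiPow (Module.finrank ℝ E3 - 1))
        (fun x : sphere (0 : E3) 1 => D (x : E3)) (fun ρ : Ioi (0 : ℝ) => (ρ : ℝ) * k ρ)

theorem POLAR_Sh_meas : MeasurableSet Sh := by
  unfold Sh
  exact ((isClosed_le continuous_const continuous_norm).inter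
    (isClosed_le continuous_norm continuous_const)).measurableSet

theorem POLAR_Sh (D : E3 → ℝ) :
    ∫ y in Sh, D y = ∫ y, D y * (Icc (1 : ℝ) 2).indicator (fun _ => (1 : ℝ)) ‖y‖ := by
  rw [← integral_indicator POLAR_Sh_meas]
  congr 1
  funext y
  by_cases hy : y ∈ Sh
  · rw [indicator_of_mem hy, indicator_of_mem (show ‖y‖ ∈ Icc (1 : ℝ) 2 from hy), mul_one]
  · rw [indicator_of_notMem hy, indicator_of_notMem (show ‖y‖ ∉ Icc (1 : ℝ) 2 from hy), mul_zero]

theorem polar_factor (D : E3 → ℝ) (hD : Continuous D) (hh : ∀ (τ : ℝ) (y : E3), 0 ≤ τ → D (τ • y) = τ * D y)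
    (k : ℝ → ℝ) (hk : Measurable k) (C : ℝ) (hC : ∀ ρ, |k ρ| ≤ C) (h3 : ∀ ρ, 3 < ρ → k ρ = 0) :
    (∫ y, D y * k ‖y‖) * (∫ y in Sh, |y 0|) = (∫ y in Sh, D y) * (∫ y : E3, |y 0| * k ‖y‖) := by
  have ha : ∀ (τ : ℝ) (y : E3), 0 ≤ τ → |(τ • y) 0| = τ * |y 0| := by
    intro τ y hτ
    rw [PiLp.smul_apply, smul_eq_mul, abs_mul, abs_of_nonneg hτ]
  rw [POLAR_Sh, POLAR_Sh, POLAR_eq D hh, POLAR_eq D hh, POLAR_eq (fun y : E3 => |y 0|) ha,
    POLAR_eq (fun y : E3 => |y 0|) ha]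
  ring

end Topping
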