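import Mathlib
import Pool.Agent.Lib.MP_bea121_gt.TC.Defs4
import Pool.Agent.Lib.MP_bea121_gt.TC.Polar
import Pool.Agent.Lib.MP_bea121_gt.TC.Slice

/-!
# The shell identity for 1-homogeneous functions (MP_bea121_gt, module HOMOG)
-/

open MeasureTheory Set Metric Topology Filter
open scoped RealInnerProductSpace Gradient ContDiff Manifold

noncomputable section

namespace Topping

/-- The indicator of the shell. -/
def HOMOG_chi : E3 → ℝ := Sh.indicator fun _ => 1

/-- The volume of the part of the ball which is moved into the shell. -/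
def HOMOG_M (r : ℝ) (z : E3) : ℝ := ∫ w in ball (0 : E3) r, HOMOG_chi (z - w)

/-- The kernel. -/
def HOMOG_K (r : ℝ) (z : E3) : ℝ :=
  2 * HOMOG_M r z - 2 * volume.real (ball (0 : E3) r) * HOMOG_chi z

theorem HOMOG_chi_meas : Measurable HOMOG_chi :=
  measurable_const.indicator sh_meas.1

theorem HOMOG_chi_congr {y z : E3} (h : ‖y‖ = ‖z‖) : HOMOG_chi y = HOMOG_chi z := by
  have : y ∈ Sh ↔ z ∈ Sh := by
    unfold Sh
    simp only [mem_ofPred_eq]
    rw [h]
  unfold HOMOG_chi
  by_cases hy : y ∈ Sh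
  · rw [indicator_of_mem hy, indicator_of_mem (this.1 hy)]
  · rw [indicator_of_notMem hy, indicator_of_notMem (fun h' => hy (this.2 h'))]

theorem HOMOG_chi_nonneg (y : E3) : 0 ≤ HOMOG_chi y :=
  indicator_nonneg (fun _ _ => zero_le_one) y

theorem HOMOG_chi_le (y : E3) : HOMOG_chi y ≤ 1 := by
  unfold HOMOG_chi
  by_cases hy : y ∈ Sh
  · rw [indicator_of_mem hy]
  · rw [indicator_of_notMem hy]; exact zero_le_one

theorem HOMOG_int1 (D : E3 → ℝ) (hD : Continuous D) (r : ℝ) :
    Integrable (Function.uncurry fun (y w : E3) => D (y + w))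
      ((volume.restrict Sh).prod (volume.restrict (ball (0 : E3) r))) := by
  rw [Measure.prod_restrict]
  have h : IntegrableOn (fun p : E3 × E3 => D (p.1 + p.2)) (Sh ×ˢ closedBall (0 : E3) r)
      (volume.prod volume) :=
    ContinuousOn.integrableOn_compact (sh_meas.2.2.prod (isCompact_closedBall _ _))
      (Continuous.continuousOn (by fun_prop))
  exact h.mono_set (Set.prod_mono_right ball_subset_closedBall)

theorem HOMOG_int2 (D : E3 → ℝ) (hD : Continuous D) (r : ℝ) (h1 : r < 1 / 2) :
    Integrable (Function.uncurry fun (w z : E3) => HOMOG_chi (z - w) * D z)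
      ((volume.restrict (ball (0 : E3) r)).prod volume) := by
  have e0 : ((volume : Measure E3).restrict (ball (0 : E3) r)).prod (volume : Measure E3) =
      ((volume : Measure E3).prod (volume : Measure E3)).restrict (ball (0 : E3) r ×ˢ univ) := by
    rw [← Measure.prod_restrict, Measure.restrict_univ]
  rw [e0]
  have hT : MeasurableSet {p : E3 × E3 | p.2 - p.1 ∈ Sh} :=
    (measurable_snd.sub measurable_fst) sh_meas.1
  have e1 : (Function.uncurry fun (w z : E3) => HOMOG_chi (z - w) * D z) =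
      {p : E3 × E3 | p.2 - p.1 ∈ Sh}.indicator fun p => D p.2 := by
    ext ⟨w, z⟩
    simp [HOMOG_chi, Set.indicator]
  rw [e1, integrable_indicator_iff hT, IntegrableOn, Measure.restrict_restrict hT]
  have h : IntegrableOn (fun p : E3 × E3 => D p.2) (closedBall (0 : E3) r ×ˢ closedBall (0 : E3) 3)
      (volume.prod volume) :=
    ContinuousOn.integrableOn_compact ((isCompact_closedBall _ _).prod (isCompact_closedBall _ _))
      (Continuous.continuousOn (by fun_prop))
  refine h.mono_set ?_
  rintro ⟨w, z⟩ ⟨h2, h3, _⟩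
  simp only [mem_ofPred_eq, Sh] at h2
  simp only [mem_ball_zero_iff] at h3
  refine ⟨mem_closedBall_zero_iff.2 h3.le, mem_closedBall_zero_iff.2 ?_⟩
  have h4 : z = (z - w) + w := by abel
  calc ‖z‖ = ‖(z - w) + w‖ := by rw [← h4]
    _ ≤ ‖z - w‖ + ‖w‖ := norm_add_le _ _
    _ ≤ 3 := by linarith [h2.2]

theorem HOMOG_conv (D : E3 → ℝ) (hD : Continuous D) (r : ℝ) (h1 : r < 1 / 2) :
    ∫ y in Sh, ∫ w in ball (0 : E3) r, D (y + w) = ∫ z, D z * HOMOG_M r z := by
  rw [integral_integral_swap (HOMOG_int1 D hD r)]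
  have e1 : ∀ w : E3, ∫ y in Sh, D (y + w) = ∫ z, HOMOG_chi (z - w) * D z := by
    intro w
    rw [← integral_indicator sh_meas.1]
    have e2 : (Sh.indicator fun y => D (y + w)) =
        fun y => (fun z => HOMOG_chi (z - w) * D z) (y + w) := by
      ext y
      have e3 : y + w - w = y := by abel
      change Sh.indicator (fun y => D (y + w)) y = Sh.indicator (fun _ => (1 : ℝ)) (y + w - w) *
        D (y + w)
      rw [e3]
      by_cases hy : y ∈ Sh <;> simp [hy]
    rw [e2, integral_add_right_eq_self (fun z => HOMOG_chi (z - w) * D z) w]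
  simp_rw [e1]
  rw [integral_integral_swap (HOMOG_int2 D hD r h1)]
  refine integral_congr_ae (Eventually.of_forall fun z => ?_)
  simp only
  rw [integral_mul_const, mul_comm]
  rfl

theorem HOMOG_DM (D : E3 → ℝ) (hD : Continuous D) (r : ℝ) (h1 : r < 1 / 2) :
    Integrable fun z => D z * HOMOG_M r z := by
  have h := (HOMOG_int2 D hD r h1).integral_prod_right
  refine h.congr (Eventually.of_forall fun z => ?_)
  simp only [Function.uncurry]
  rw [integral_mul_const, mul_comm]
  rfl

theorem HOMOG_Dchi (D : E3 → ℝ) (hD : Continuous D) :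
    Integrable fun z => D z * HOMOG_chi z := by
  have e : (fun z => D z * HOMOG_chi z) = Sh.indicator D := by
    ext z
    simp [HOMOG_chi, Set.indicator]
  rw [e, integrable_indicator_iff sh_meas.1]
  exact hD.continuousOn.integrableOn_compact sh_meas.2.2

theorem HOMOG_inner (D : E3 → ℝ) (hD : Continuous D) (r : ℝ) (y : E3) :
    ∫ w in ball (0 : E3) r, (D (y + w) + D (y - w) - 2 * D y) =
      2 * (∫ w in ball (0 : E3) r, D (y + w)) - 2 * volume.real (ball (0 : E3) r) * D y := by
  have i1 : IntegrableOn (fun w => D (y + w)) (ball (0 : E3) r) :=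
    (ContinuousOn.integrableOn_compact (isCompact_closedBall (0 : E3) r)
      (Continuous.continuousOn (by fun_prop))).mono_set ball_subset_closedBall
  have i2 : IntegrableOn (fun w => D (y - w)) (ball (0 : E3) r) :=
    (ContinuousOn.integrableOn_compact (isCompact_closedBall (0 : E3) r)
      (Continuous.continuousOn (by fun_prop))).mono_set ball_subset_closedBall
  have i3 : IntegrableOn (fun _ => 2 * D y) (ball (0 : E3) r) :=
    integrableOn_const (by exact measure_ball_lt_top.ne)
  have e1 : ∫ w in ball (0 : E3) r, D (y - w) = ∫ w in ball (0 : E3) r, D (y + w) := by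
    rw [← integral_indicator measurableSet_ball, ← integral_indicator measurableSet_ball,
      ← integral_neg_eq_self ((ball (0 : E3) r).indicator fun w => D (y + w))]
    congr 1
    ext w
    have h : -w ∈ ball (0 : E3) r ↔ w ∈ ball (0 : E3) r := by
      simp
    by_cases hw : w ∈ ball (0 : E3) r
    · rw [indicator_of_mem hw, indicator_of_mem (h.2 hw), sub_eq_add_neg]
    · rw [indicator_of_notMem hw, indicator_of_notMem (fun h' => hw (h.1 h'))]
  have i4 : IntegrableOn (fun w => D (y + w) + D (y - w)) (ball (0 : E3) r) := i1.add i2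
  rw [integral_sub i4 i3, integral_add i1 i2, e1, setIntegral_const, smul_eq_mul]
  ring

theorem HOMOG_first (D : E3 → ℝ) (hD : Continuous D) (r : ℝ) (h1 : r < 1 / 2) :
    ∫ y in Sh, ∫ w in ball (0 : E3) r, (D (y + w) + D (y - w) - 2 * D y) =
      ∫ z, D z * HOMOG_K r z := by
  simp_rw [HOMOG_inner D hD r]
  have j1 : IntegrableOn (fun y => 2 * ∫ w in ball (0 : E3) r, D (y + w)) Sh :=
    (HOMOG_int1 D hD r).integral_prod_left.const_mul 2
  have j2 : IntegrableOn (fun y => 2 * volume.real (ball (0 : E3) r) * D y) Sh :=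
    (hD.continuousOn.integrableOn_compact sh_meas.2.2).const_mul _
  rw [integral_sub j1 j2, integral_const_mul, integral_const_mul, HOMOG_conv D hD r h1]
  have e1 : (fun z => D z * HOMOG_K r z) = fun z => 2 * (D z * HOMOG_M r z) -
      2 * volume.real (ball (0 : E3) r) * (D z * HOMOG_chi z) := by
    ext z
    unfold HOMOG_K
    ring
  rw [e1, integral_sub ((HOMOG_DM D hD r h1).const_mul _) ((HOMOG_Dchi D hD).const_mul _),
    integral_const_mul, integral_const_mul]
  congr 2
  rw [← integral_indicator sh_meas.1]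
  congr 1
  ext z
  simp [HOMOG_chi, Set.indicator]

theorem HOMOG_K_radial (r : ℝ) {y z : E3} (h : ‖y‖ = ‖z‖) : HOMOG_K r y = HOMOG_K r z := by
  have h2 : HOMOG_M r y = HOMOG_M r z := by
    set L : E3 ≃ₗᵢ[ℝ] E3 := (ℝ ∙ (z - y))ᗮ.reflection with hL
    have hLz : L z = y := Submodule.reflection_sub h.symm
    unfold HOMOG_M
    rw [← integral_indicator measurableSet_ball, ← integral_indicator measurableSet_ball,
      ← L.measurePreserving.integral_comp L.toHomeomorph.measurableEmbedding]
    congr 1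
    ext w
    have hw : L w ∈ ball (0 : E3) r ↔ w ∈ ball (0 : E3) r := by
      simp
    have e : HOMOG_chi (y - L w) = HOMOG_chi (z - w) := by
      apply HOMOG_chi_congr
      rw [← hLz, ← map_sub, LinearIsometryEquiv.norm_map]
    by_cases hwb : w ∈ ball (0 : E3) r
    · rw [indicator_of_mem hwb]
      rw [indicator_of_mem (hw.2 hwb), e]
    · rw [indicator_of_notMem hwb]
      rw [indicator_of_notMem (fun h' => hwb (hw.1 h'))]
  unfold HOMOG_K
  rw [h2, HOMOG_chi_congr h]

theorem HOMOG_M_meas (r : ℝ) : Measurable (HOMOG_M r) := by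
  have h : StronglyMeasurable (Function.uncurry fun (z w : E3) => HOMOG_chi (z - w)) :=
    (HOMOG_chi_meas.comp (measurable_fst.sub measurable_snd)).stronglyMeasurable
  exact (StronglyMeasurable.integral_prod_right (ν := volume.restrict (ball (0 : E3) r)) h).measurable

theorem HOMOG_K_meas (r : ℝ) : Measurable (HOMOG_K r) :=
  ((HOMOG_M_meas r).const_mul 2).sub (HOMOG_chi_meas.const_mul _)

theorem HOMOG_K_bound (r : ℝ) (z : E3) : |HOMOG_K r z| ≤ 4 * volume.real (ball (0 : E3) r) := by
  have h0 : 0 ≤ volume.real (ball (0 : E3) r) := measureReal_nonneg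
  have h1 : |HOMOG_M r z| ≤ volume.real (ball (0 : E3) r) := by
    have := norm_setIntegral_le_of_norm_le_const (μ := volume) (s := ball (0 : E3) r)
      (f := fun w => HOMOG_chi (z - w)) (C := 1) measure_ball_lt_top (fun w _ => by
        rw [Real.norm_eq_abs, abs_of_nonneg (HOMOG_chi_nonneg _)]
        exact HOMOG_chi_le _)
    rw [one_mul] at this
    exact this
  have h2 : |HOMOG_chi z| ≤ 1 := by
    rw [abs_of_nonneg (HOMOG_chi_nonneg _)]
    exact HOMOG_chi_le _
  unfold HOMOG_K
  calc |2 * HOMOG_M r z - 2 * volume.real (ball (0 : E3) r) * HOMOG_chi z|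
      ≤ |2 * HOMOG_M r z| + |2 * volume.real (ball (0 : E3) r) * HOMOG_chi z| := abs_sub _ _
    _ = 2 * |HOMOG_M r z| + 2 * volume.real (ball (0 : E3) r) * |HOMOG_chi z| := by
        rw [abs_mul, abs_mul, abs_of_nonneg (by positivity : (0 : ℝ) ≤ 2 * volume.real (ball (0 : E3) r)),
          abs_of_nonneg (zero_le_two)]
    _ ≤ 2 * volume.real (ball (0 : E3) r) + 2 * volume.real (ball (0 : E3) r) * 1 := by gcongr
    _ = 4 * volume.real (ball (0 : E3) r) := by ring

theorem HOMOG_K_zero (r : ℝ) (h1 : r < 1 / 2) {z : E3} (hz : 3 < ‖z‖) : HOMOG_K r z = 0 := by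
  have h2 : ∀ w ∈ ball (0 : E3) r, HOMOG_chi (z - w) = 0 := by
    intro w hw
    rw [mem_ball_zero_iff] at hw
    refine indicator_of_notMem ?_ _
    rintro ⟨_, h3⟩
    have h4 : z = (z - w) + w := by abel
    have h5 : ‖z‖ ≤ ‖z - w‖ + ‖w‖ := by
      conv_lhs => rw [h4]
      exact norm_add_le _ _
    linarith
  have h3 : HOMOG_chi z = 0 := by
    refine indicator_of_notMem ?_ _
    rintro ⟨_, h3⟩
    linarith
  unfold HOMOG_K HOMOG_M
  rw [setIntegral_congr_fun measurableSet_ball h2, h3]
  simp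

theorem homog_identity (D : E3 → ℝ) (hD : Continuous D) (hh : ∀ (τ : ℝ) (y : E3), 0 ≤ τ → D (τ • y) = τ * D y)
    (r : ℝ) (h0 : 0 < r) (h1 : r < 1 / 2) :
    ∫ y in Sh, ∫ w in ball (0 : E3) r, (D (y + w) + D (y - w) - 2 * D y) =
      (4 * σ r / 5) * ∫ y in Sh, D y := by
  set e0 : E3 := EuclideanSpace.single 0 1 with he0
  have hn : ‖e0‖ = 1 := by
    rw [he0]; simp
  set k : ℝ → ℝ := fun ρ => HOMOG_K r (ρ • e0) with hk
  have hkK : ∀ y : E3, k ‖y‖ = HOMOG_K r y := by
    intro y
    rw [hk]
    simp only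
    apply HOMOG_K_radial
    rw [norm_smul, hn, mul_one, norm_norm]
  have hkm : Measurable k :=
    (HOMOG_K_meas r).comp (Continuous.measurable (by fun_prop))
  have hkb : ∀ ρ, |k ρ| ≤ 4 * volume.real (ball (0 : E3) r) := fun ρ => HOMOG_K_bound r _
  have hk3 : ∀ ρ, 3 < ρ → k ρ = 0 := by
    intro ρ hρ
    refine HOMOG_K_zero r h1 ?_
    rw [norm_smul, hn, mul_one, Real.norm_eq_abs, abs_of_pos (by linarith)]
    exact hρ
  have hpol := polar_factor D hD hh k hkm _ hkb hk3
  have f1 := HOMOG_first D hD r h1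
  have hD0 : Continuous fun y : E3 => |y 0| := by fun_prop
  have f2 := HOMOG_first (fun y : E3 => |y 0|) hD0 r h1
  rw [sh_second r h0 h1] at f2
  have e1 : ∫ y, D y * k ‖y‖ = ∫ y, D y * HOMOG_K r y := by
    congr 1; ext y; rw [hkK]
  have e2 : ∫ y : E3, |y 0| * k ‖y‖ = ∫ y : E3, |y 0| * HOMOG_K r y := by
    congr 1; ext y; rw [hkK]
  rw [e1, e2, ← f1, ← f2, sh_abs] at hpol
  have hpi := Real.pi_pos
  have h15 : (15 * Real.pi / 2 : ℝ) ≠ 0 := by positivity
  apply mul_right_cancel₀ h15
  rw [hpol]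
  ring

end Topping
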