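import Pool.Agent.Lib.MP_bea121_gt.TC.Defs3
import Pool.Agent.Lib.MP_bea121_gt.TC.Basic

/-!
# Local topology at maxima, minima and saddles (MP_bea121_gt)
-/

open MeasureTheory Set Metric Topology Filter
open scoped RealInnerProductSpace Gradient ContDiff

noncomputable section

namespace Topping

section Lmin
variable {S : Type} [TopologicalSpace S] {M : MongeSurf S} {y₀ : E3} (D : CritData M y₀)

theorem lmin_sub (k : D.N) : ball (D.z k) D.r1 ⊆ ball (0 : E2) (5 * M.R (D.i k)) := by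
  refine (D.ball_sub k).trans (ball_subset_ball ?_)
  have := M.R_pos (D.i k)
  linarith

theorem lmin_in (y : E3) (hy : y ∈ ball y₀ D.ρ) (k : D.N) (ζ : E2)
    (hζ : ‖ζ - D.s k y‖ < D.r1 / 2) : ζ ∈ ball (D.z k) D.r1 := by
  have h1 := D.s_mem k y hy
  rw [mem_ball, dist_eq_norm] at h1 ⊢
  have h2 : ζ - D.z k = (ζ - D.s k y) + (D.s k y - D.z k) := by abel
  rw [h2]
  have h3 := norm_add_le (ζ - D.s k y) (D.s k y - D.z k)
  have := D.r1_pos
  linarith

theorem lmin_height (y : E3) (k : D.N) (ζ : E2) (hζ : ζ ∈ ball (D.z k) D.r1) :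
    ⟪M.f ((M.e (D.i k)).symm ζ), y⟫ = ⟪M.fi (D.i k) ζ, y⟫ := by
  rw [f_symm M (D.i k) (lmin_sub D k hζ)]

theorem lmin_val (y : E3) (hy : y ∈ ball y₀ D.ρ) (k : D.N) :
    ⟪M.f (D.pt k y), y⟫ = ⟪M.fi (D.i k) (D.s k y), y⟫ :=
  (val_eq M D k y hy).1.symm

/-- a ray of higher points -/
theorem lmin_T0 (y : E3) (hy : y ∈ ball y₀ D.ρ) (k : D.N) (v : E2) (hv : ‖v‖ = 1)
    (h : ∀ τ : ℝ, 0 < τ → τ ≤ D.r1 / 4 →
      ⟪M.fi (D.i k) (D.s k y), y⟫ < ⟪M.fi (D.i k) (D.s k y + τ • v), y⟫) :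
    T0 (fun x => ⟪M.f x, y⟫) (D.pt k y) := by
  have hr := D.r1_pos
  have hin : ∀ τ : ℝ, 0 ≤ τ → τ ≤ D.r1 / 4 → D.s k y + τ • v ∈ ball (D.z k) D.r1 := by
    intro τ h0 h1
    refine lmin_in D y hy k _ ?_
    rw [add_sub_cancel_left, norm_smul, hv, mul_one, Real.norm_eq_abs, abs_of_nonneg h0]
    linarith
  have hpre : IsPreconnected ((fun τ : ℝ => D.s k y + τ • v) '' Ioc 0 (D.r1 / 4)) :=
    isPreconnected_Ioc.image _ (by fun_prop)
  refine ⟨(M.e (D.i k)).symm '' ((fun τ : ℝ => D.s k y + τ • v) '' Ioc 0 (D.r1 / 4)), ?_, ?_, ?_⟩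
  · refine hpre.image _ ((M.e (D.i k)).continuousOn_symm.mono ?_)
    rintro _ ⟨τ, hτ, rfl⟩
    exact M.target _ (lmin_sub D k (hin τ hτ.1.le hτ.2))
  · rintro _ ⟨_, ⟨τ, hτ, rfl⟩, rfl⟩
    beta_reduce
    rw [lmin_val D y hy k, lmin_height D y k _ (hin τ hτ.1.le hτ.2)]
    exact h τ hτ.1 hτ.2
  · have hst : D.s k y ∈ (M.e (D.i k)).target := by
      refine M.target _ (lmin_sub D k (lmin_in D y hy k _ ?_))
      rw [sub_self, norm_zero]
      positivity
    have hcont : ContinuousAt (fun τ : ℝ => (M.e (D.i k)).symm (D.s k y + τ • v)) 0 := by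
      have h1 : ContinuousAt (M.e (D.i k)).symm (D.s k y + (0 : ℝ) • v) := by
        rw [zero_smul, add_zero]
        exact (M.e (D.i k)).continuousAt_symm hst
      exact ContinuousAt.comp (f := fun τ : ℝ => D.s k y + τ • v) h1 (by fun_prop)
    have htend : Tendsto (fun τ : ℝ => (M.e (D.i k)).symm (D.s k y + τ • v)) (𝓝[>] 0)
        (𝓝 (D.pt k y)) := by
      have h1 : (M.e (D.i k)).symm (D.s k y + (0 : ℝ) • v) = D.pt k y := by
        rw [zero_smul, add_zero]
        rfl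
      have h2 := hcont.tendsto
      rw [h1] at h2
      exact h2.mono_left nhdsWithin_le_nhds
    refine mem_closure_of_tendsto htend ?_
    filter_upwards [Ioc_mem_nhdsGT (show (0 : ℝ) < D.r1 / 4 by positivity)] with τ hτ
    exact ⟨_, ⟨τ, hτ, rfl⟩, rfl⟩

theorem top_max (y : E3) (hy : y ∈ ball y₀ D.ρ) (k : D.N) (hk : D.typ k = 0) :
    T2 (fun x => ⟪M.f x, y⟫) (D.pt k y) := by
  have hr := D.r1_pos
  obtain ⟨-, hP, he⟩ := val_eq M D k y hy
  have hUo : IsOpen ((M.e (D.i k)).source ∩ (M.e (D.i k)) ⁻¹' ball (D.z k) D.r1) :=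
    (M.e (D.i k)).isOpen_inter_preimage isOpen_ball
  refine ⟨_, hUo.mem_nhds ⟨hP.1, ?_⟩, ?_⟩
  · rw [mem_preimage, he]
    refine lmin_in D y hy k _ ?_
    rw [sub_self, norm_zero]
    positivity
  · rintro x' ⟨hs, hb⟩ hne
    rw [mem_preimage] at hb
    have hx' : (M.e (D.i k)).symm (M.e (D.i k) x') = x' := (M.e (D.i k)).left_inv hs
    beta_reduce
    rw [lmin_val D y hy k, ← hx', lmin_height D y k _ hb]
    have h1 := D.tmax k hk y hy _ hb
    have h2 : 0 < ‖M.e (D.i k) x' - D.s k y‖ := by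
      rw [norm_pos_iff, sub_ne_zero]
      intro h3
      apply hne
      rw [← hx', h3]
      rfl
    have h3 : 0 < D.lam * ‖M.e (D.i k) x' - D.s k y‖ ^ 2 := mul_pos D.lam_pos (pow_pos h2 2)
    linarith

theorem top_min (y : E3) (hy : y ∈ ball y₀ D.ρ) (k : D.N) (hk : D.typ k = 2) :
    T0 (fun x => ⟪M.f x, y⟫) (D.pt k y) ∧ T1 (fun x => ⟪M.f x, y⟫) (D.pt k y) := by
  have hr := D.r1_pos
  have hup : ∀ ζ : E2, ‖ζ - D.s k y‖ < D.r1 / 2 → ζ ≠ D.s k y →
      ⟪M.fi (D.i k) (D.s k y), y⟫ < ⟪M.fi (D.i k) ζ, y⟫ := by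
    intro ζ hζ hne
    have h1 := D.tmin k hk y hy ζ (lmin_in D y hy k ζ hζ)
    have h2 : 0 < ‖ζ - D.s k y‖ := by
      rw [norm_pos_iff, sub_ne_zero]
      exact hne
    have h3 : 0 < D.lam * ‖ζ - D.s k y‖ ^ 2 := mul_pos D.lam_pos (pow_pos h2 2)
    linarith
  constructor
  · refine lmin_T0 D y hy k (D.p k) (D.norm_p k) (fun τ h0 h1 => ?_)
    have h2 : ‖(D.s k y + τ • D.p k) - D.s k y‖ = τ := by
      rw [add_sub_cancel_left, norm_smul, D.norm_p k, mul_one, Real.norm_eq_abs, abs_of_pos h0]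
    refine hup _ (by rw [h2]; linarith) ?_
    intro h3
    rw [h3, sub_self, norm_zero] at h2
    linarith
  · obtain ⟨-, hP, he⟩ := val_eq M D k y hy
    set s := D.s k y with hs
    have hUo : IsOpen ((M.e (D.i k)).source ∩ (M.e (D.i k)) ⁻¹' ball s (D.r1 / 2)) :=
      (M.e (D.i k)).isOpen_inter_preimage isOpen_ball
    refine ⟨_, hUo.mem_nhds ⟨hP.1, ?_⟩, ?_⟩
    · rw [mem_preimage, he]
      exact mem_ball_self (by positivity)
    · rintro x1 ⟨hs1, hb1⟩ x2 ⟨hs2, hb2⟩ h1 h2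
      rw [mem_preimage, mem_ball, dist_eq_norm] at hb1 hb2
      have hx1 : (M.e (D.i k)).symm (M.e (D.i k) x1) = x1 := (M.e (D.i k)).left_inv hs1
      have hx2 : (M.e (D.i k)).symm (M.e (D.i k) x2) = x2 := (M.e (D.i k)).left_inv hs2
      have hpt : (M.e (D.i k)).symm s = D.pt k y := rfl
      set z1 := M.e (D.i k) x1 with hz1
      set z2 := M.e (D.i k) x2 with hz2
      have hne1 : z1 ≠ s := by
        intro h3
        rw [← hx1, h3, hpt] at h1
        exact lt_irrefl _ h1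
      have hne2 : z2 ≠ s := by
        intro h3
        rw [← hx2, h3, hpt] at h2
        exact lt_irrefl _ h2
      have hn1 : 0 < ‖z1 - s‖ := norm_pos_iff.2 (sub_ne_zero.2 hne1)
      have hn2 : 0 < ‖z2 - s‖ := norm_pos_iff.2 (sub_ne_zero.2 hne2)
      set r := ‖z1 - s‖ / ‖z2 - s‖ with hrr
      have hr0 : 0 < r := div_pos hn1 hn2
      have hpre1 : IsPreconnected (sphere s ‖z1 - s‖) := by
        refine isPreconnected_sphere ?_ s _
        rw [← Module.finrank_eq_rank, finrank_euclideanSpace_fin]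
        norm_num
      have hpre2 : IsPreconnected ((fun t : ℝ => s + t • (z2 - s)) '' uIcc 1 r) :=
        isPreconnected_uIcc.image _ (by fun_prop)
      have hA : ∀ ζ ∈ sphere s ‖z1 - s‖ ∪ ((fun t : ℝ => s + t • (z2 - s)) '' uIcc 1 r),
          ‖ζ - s‖ < D.r1 / 2 ∧ ζ ≠ s := by
        rintro ζ (h | ⟨t, ht, rfl⟩)
        · rw [mem_sphere, dist_eq_norm] at h
          refine ⟨by rw [h]; exact hb1, fun h3 => ?_⟩
          rw [h3, sub_self, norm_zero] at h
          exact hn1.ne h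
        · have ht0 : 0 < t := lt_of_lt_of_le (lt_min one_pos hr0) ht.1
          have ht1 : ‖(s + t • (z2 - s)) - s‖ = t * ‖z2 - s‖ := by
            rw [add_sub_cancel_left, norm_smul, Real.norm_eq_abs, abs_of_pos ht0]
          constructor
          · rw [ht1]
            have h4 : t ≤ max 1 r := ht.2
            have h5 : t * ‖z2 - s‖ ≤ max 1 r * ‖z2 - s‖ :=
              mul_le_mul_of_nonneg_right h4 hn2.le
            refine h5.trans_lt ?_
            rcases max_choice 1 r with h6 | h6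
            · rw [h6, one_mul]
              exact hb2
            · rw [h6, hrr, div_mul_cancel₀ _ hn2.ne']
              exact hb1
          · intro h3
            replace h3 : s + t • (z2 - s) = s := h3
            rw [h3, sub_self, norm_zero] at ht1
            exact (mul_pos ht0 hn2).ne ht1
      have hpre : IsPreconnected (sphere s ‖z1 - s‖ ∪
          ((fun t : ℝ => s + t • (z2 - s)) '' uIcc 1 r)) := by
        refine IsPreconnected.union (s + r • (z2 - s)) ?_ ⟨r, right_mem_uIcc, rfl⟩ hpre1 hpre2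
        rw [mem_sphere, dist_eq_norm, add_sub_cancel_left, norm_smul, Real.norm_eq_abs,
          abs_of_pos hr0, hrr, div_mul_cancel₀ _ hn2.ne']
      refine ⟨(M.e (D.i k)).symm '' (sphere s ‖z1 - s‖ ∪
          ((fun t : ℝ => s + t • (z2 - s)) '' uIcc 1 r)), ?_, ?_, ?_, ?_⟩
      · refine hpre.image _ ((M.e (D.i k)).continuousOn_symm.mono ?_)
        intro ζ hζ
        exact M.target _ (lmin_sub D k (lmin_in D y hy k ζ (hA ζ hζ).1))
      · rintro _ ⟨ζ, hζ, rfl⟩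
        beta_reduce
        rw [lmin_val D y hy k, lmin_height D y k _ (lmin_in D y hy k ζ (hA ζ hζ).1)]
        exact hup ζ (hA ζ hζ).1 (hA ζ hζ).2
      · refine ⟨z1, Or.inl ?_, hx1⟩
        rw [mem_sphere, dist_eq_norm]
      · refine ⟨z2, Or.inr ⟨1, left_mem_uIcc, ?_⟩, hx2⟩
        simp

theorem top_sad0 (y : E3) (hy : y ∈ ball y₀ D.ρ) (k : D.N) (hk : D.typ k = 1) :
    T0 (fun x => ⟪M.f x, y⟫) (D.pt k y) := by
  have hr := D.r1_pos
  refine lmin_T0 D y hy k (D.p k) (D.norm_p k) (fun τ h0 h1 => ?_)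
  have h2 := D.asc k hk y hy τ (by rw [abs_of_pos h0]; linarith)
  have h3 : 0 < D.lam * τ ^ 2 := mul_pos D.lam_pos (pow_pos h0 2)
  linarith

end Lmin

end Topping
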