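import Pool.Agent.Lib.MP_bea121_gt.TC.Defs3
import Pool.Agent.Lib.MP_bea121_gt.TC.Basic

/-!
# Regular points: local connectedness of higher points (MP_bea121_gt)
-/

open MeasureTheory Set Metric Topology Filter
open scoped RealInnerProductSpace Gradient ContDiff

noncomputable section

namespace Topping

section Lreg
variable {S : Type} [TopologicalSpace S] (M : MongeSurf S)

theorem lreg_pre (i : M.ι) {A : Set E2} (hA : IsPreconnected A)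
    (hsub : A ⊆ ball (0 : E2) (5 * M.R i)) : IsPreconnected ((M.e i).symm '' A) :=
  hA.image _ ((M.e i).continuousOn_symm.mono (hsub.trans (M.target i)))

/-- Heights increase in the direction of the gradient. -/
theorem lreg_climb (i : M.ι) (z : E2) (y : E3) (δ : ℝ)
    (hB : M.κ * ‖y‖ * δ ≤ ‖M.Phi i z y‖ / 8) (e : E2)
    (he : ‖e‖ = 1) (hG : M.Phi i z y = ‖M.Phi i z y‖ • e) (ζ : E2) (hζ : ‖ζ - z‖ ≤ δ) (τ : ℝ)
    (h0 : 0 ≤ τ) (h1 : τ ≤ δ) :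
    ⟪M.fi i ζ, y⟫ + (3 / 4) * ‖M.Phi i z y‖ * τ ≤ ⟪M.fi i (ζ + τ • e), y⟫ := by
  have hκ : 0 ≤ M.κ * ‖y‖ := mul_nonneg (zero_le_one.trans M.κ_one) (norm_nonneg y)
  have ht := taylor M i ζ (ζ + τ • e) y
  rw [add_sub_cancel_left, norm_smul, he, mul_one, Real.norm_eq_abs, sq_abs, inner_smul_right]
    at ht
  have hl := Phi_lip M i ζ z y
  have h2 : ‖M.Phi i z y‖ - M.κ * ‖y‖ * δ ≤ ⟪M.Phi i ζ y, e⟫ := by
    have h3 : ⟪M.Phi i ζ y, e⟫ = ⟪M.Phi i z y, e⟫ + ⟪M.Phi i ζ y - M.Phi i z y, e⟫ := by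
      rw [← inner_add_left, add_sub_cancel]
    have h4 : ⟪M.Phi i z y, e⟫ = ‖M.Phi i z y‖ := by
      conv_lhs => rw [hG]
      rw [real_inner_smul_left, real_inner_self_eq_norm_sq, he]
      ring
    have h5 : |⟪M.Phi i ζ y - M.Phi i z y, e⟫| ≤ M.κ * ‖y‖ * δ := by
      refine (abs_real_inner_le_norm _ _).trans ?_
      rw [he, mul_one]
      exact hl.trans (mul_le_mul_of_nonneg_left hζ hκ)
    have h6 := (abs_le.1 h5).1
    rw [h3, h4]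
    linarith
  have h7 := (abs_le.1 ht).1
  have h8 : τ * (‖M.Phi i z y‖ - M.κ * ‖y‖ * δ) ≤ τ * ⟪M.Phi i ζ y, e⟫ :=
    mul_le_mul_of_nonneg_left h2 h0
  have h9 : M.κ * ‖y‖ * τ ^ 2 ≤ τ * (M.κ * ‖y‖ * δ) := by
    rw [sq]
    nlinarith [mul_nonneg hκ h0, mul_nonneg (mul_nonneg hκ h0) (sub_nonneg.2 h1)]
  have h10 : τ * (M.κ * ‖y‖ * δ) ≤ τ * (‖M.Phi i z y‖ / 8) := mul_le_mul_of_nonneg_left hB h0
  nlinarith

theorem lreg_lip (i : M.ι) (z ζ : E2) (y : E3) (δ : ℝ) (hζ : ‖ζ - z‖ ≤ δ) :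
    |⟪M.fi i ζ, y⟫ - ⟪M.fi i z, y⟫| ≤ ((11 / 10) * ‖y‖ + M.κ * ‖y‖ * δ) * ‖ζ - z‖ := by
  have hκ : 0 ≤ M.κ * ‖y‖ := mul_nonneg (zero_le_one.trans M.κ_one) (norm_nonneg y)
  have ht := taylor M i z ζ y
  have h1 : |⟪M.Phi i z y, ζ - z⟫| ≤ (11 / 10) * ‖y‖ * ‖ζ - z‖ :=
    (abs_real_inner_le_norm _ _).trans
      (mul_le_mul_of_nonneg_right (Phi_norm M i z y) (norm_nonneg _))
  have h2 : M.κ * ‖y‖ * ‖ζ - z‖ ^ 2 ≤ M.κ * ‖y‖ * δ * ‖ζ - z‖ := by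
    rw [sq, ← mul_assoc]
    exact mul_le_mul_of_nonneg_right (mul_le_mul_of_nonneg_left hζ hκ) (norm_nonneg _)
  have h3 : |⟪M.fi i ζ, y⟫ - ⟪M.fi i z, y⟫| ≤
      |⟪M.fi i ζ, y⟫ - ⟪M.fi i z, y⟫ - ⟪M.Phi i z y, ζ - z⟫| + |⟪M.Phi i z y, ζ - z⟫| := by
    have := abs_add_le (⟪M.fi i ζ, y⟫ - ⟪M.fi i z, y⟫ - ⟪M.Phi i z y, ζ - z⟫)
      ⟪M.Phi i z y, ζ - z⟫
    rwa [sub_add_cancel] at this
  calc _ ≤ _ := h3
    _ ≤ M.κ * ‖y‖ * δ * ‖ζ - z‖ + (11 / 10) * ‖y‖ * ‖ζ - z‖ := add_le_add (ht.trans h2) h1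
    _ = _ := by ring

theorem top_regular (y : E3) (x : S) (i : M.ι) (hi : x ∈ M.P i (4 * M.R i)) (hx : M.Phi i (M.e i x) y ≠ 0) :
    T0 (fun x => ⟪M.f x, y⟫) x ∧ T1 (fun x => ⟪M.f x, y⟫) x := by
  have hR := M.R_pos i
  set z := M.e i x with hz
  obtain ⟨hsx, hz4⟩ := symm_e M i hi
  rw [← hz] at hsx hz4
  rw [mem_ball_zero_iff] at hz4
  have hGpos : 0 < ‖M.Phi i z y‖ := norm_pos_iff.2 hx
  set G := ‖M.Phi i z y‖ with hG
  set e : E2 := G⁻¹ • M.Phi i z y with he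
  have he1 : ‖e‖ = 1 := by
    rw [he, norm_smul, norm_inv, Real.norm_eq_abs, abs_of_pos hGpos, ← hG,
      inv_mul_cancel₀ hGpos.ne']
  have hGe : M.Phi i z y = ‖M.Phi i z y‖ • e := by
    rw [he, ← hG, smul_smul, mul_inv_cancel₀ hGpos.ne', one_smul]
  have hκ : 0 ≤ M.κ * ‖y‖ := mul_nonneg (zero_le_one.trans M.κ_one) (norm_nonneg y)
  -- choice of δ
  set δ : ℝ := min ((4 * M.R i - ‖z‖) / 4) (G / (8 * (M.κ * ‖y‖ + 1))) with hδ
  have hδ0 : 0 < δ := by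
    rw [hδ]
    refine lt_min (by linarith) (by positivity)
  have hδ1 : 4 * δ ≤ 4 * M.R i - ‖z‖ := by
    have : δ ≤ (4 * M.R i - ‖z‖) / 4 := min_le_left _ _
    linarith
  have hδ2 : M.κ * ‖y‖ * δ ≤ G / 8 := by
    have h1 : δ ≤ G / (8 * (M.κ * ‖y‖ + 1)) := min_le_right _ _
    rw [le_div_iff₀ (by positivity)] at h1
    nlinarith
  have hin : ∀ ζ : E2, ‖ζ - z‖ ≤ 2 * δ → ζ ∈ ball (0 : E2) (5 * M.R i) := by
    intro ζ hζ
    rw [mem_ball_zero_iff]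
    have h1 : ‖ζ‖ ≤ ‖ζ - z‖ + ‖z‖ := by
      have := norm_add_le (ζ - z) z
      rwa [sub_add_cancel] at this
    linarith
  have hclimb := lreg_climb M i z y δ (by rw [← hG]; exact hδ2) e he1 hGe
  rw [← hG] at hclimb
  have hheight : ∀ ζ : E2, ‖ζ - z‖ ≤ 2 * δ → ⟪M.f ((M.e i).symm ζ), y⟫ = ⟪M.fi i ζ, y⟫ := by
    intro ζ hζ
    rw [f_symm M i (hin ζ hζ)]
  have hxh : ⟪M.f x, y⟫ = ⟪M.fi i z, y⟫ := by
    rw [← hsx]
    rw [hheight z (by rw [sub_self, norm_zero]; positivity)]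
  constructor
  · -- T0
    have hmap : ∀ τ : ℝ, 0 ≤ τ → τ ≤ δ → ‖(z + τ • e) - z‖ ≤ 2 * δ := by
      intro τ h0 h1
      rw [add_sub_cancel_left, norm_smul, he1, mul_one, Real.norm_eq_abs, abs_of_nonneg h0]
      linarith
    have hpre : IsPreconnected ((fun τ : ℝ => z + τ • e) '' Ioc 0 δ) :=
      isPreconnected_Ioc.image _ (by fun_prop)
    refine ⟨(M.e i).symm '' ((fun τ : ℝ => z + τ • e) '' Ioc 0 δ), lreg_pre M i hpre ?_, ?_, ?_⟩
    · rintro _ ⟨τ, hτ, rfl⟩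
      exact hin _ (hmap τ hτ.1.le hτ.2)
    · rintro _ ⟨_, ⟨τ, hτ, rfl⟩, rfl⟩
      beta_reduce
      rw [hxh, hheight _ (hmap τ hτ.1.le hτ.2)]
      have h1 := hclimb z (by rw [sub_self, norm_zero]; exact hδ0.le) τ hτ.1.le hτ.2
      have h2 : 0 < 3 / 4 * G * τ := by
        have := hτ.1
        positivity
      linarith
    · have hzt : z ∈ (M.e i).target :=
        M.target i (hin z (by rw [sub_self, norm_zero]; positivity))
      have hcont : ContinuousAt (fun τ : ℝ => (M.e i).symm (z + τ • e)) 0 := by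
        have h1 : ContinuousAt (M.e i).symm (z + (0 : ℝ) • e) := by
          rw [zero_smul, add_zero]
          exact (M.e i).continuousAt_symm hzt
        exact ContinuousAt.comp (f := fun τ : ℝ => z + τ • e) h1 (by fun_prop)
      have htend : Tendsto (fun τ : ℝ => (M.e i).symm (z + τ • e)) (𝓝[>] 0) (𝓝 x) := by
        have h1 : (M.e i).symm (z + (0 : ℝ) • e) = x := by
          rw [zero_smul, add_zero, hsx]
        have h2 := hcont.tendsto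
        rw [h1] at h2
        exact h2.mono_left nhdsWithin_le_nhds
      refine mem_closure_of_tendsto htend ?_
      filter_upwards [Ioc_mem_nhdsGT hδ0] with τ hτ
      exact ⟨_, ⟨τ, hτ, rfl⟩, rfl⟩
  · -- T1
    set Lc : ℝ := (11 / 10) * ‖y‖ + M.κ * ‖y‖ * δ with hLc
    have hLc0 : 0 ≤ Lc := by positivity
    set δ' : ℝ := min δ ((3 / 4) * G * δ / (2 * (Lc + 1))) with hδ'
    have hδ'0 : 0 < δ' := lt_min hδ0 (by positivity)
    have hδ'1 : δ' ≤ δ := min_le_left _ _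
    have hδ'2 : Lc * δ' < (3 / 4) * G * δ := by
      have h1 : δ' ≤ (3 / 4) * G * δ / (2 * (Lc + 1)) := min_le_right _ _
      rw [le_div_iff₀ (by positivity)] at h1
      nlinarith
    have hUo : IsOpen ((M.e i).source ∩ (M.e i) ⁻¹' ball z δ') :=
      (M.e i).isOpen_inter_preimage isOpen_ball
    refine ⟨(M.e i).source ∩ (M.e i) ⁻¹' ball z δ', hUo.mem_nhds ⟨hi.1, by
      rw [mem_preimage, ← hz]
      exact mem_ball_self hδ'0⟩, ?_⟩
    rintro x1 ⟨hx1s, hx1⟩ x2 ⟨hx2s, hx2⟩ h1 h2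
    rw [mem_preimage] at hx1 hx2
    set z1 := M.e i x1 with hz1
    set z2 := M.e i x2 with hz2
    have hz1n : ‖z1 - z‖ < δ' := by rwa [mem_ball, dist_eq_norm] at hx1
    have hz2n : ‖z2 - z‖ < δ' := by rwa [mem_ball, dist_eq_norm] at hx2
    have hs1 : (M.e i).symm z1 = x1 := (M.e i).left_inv hx1s
    have hs2 : (M.e i).symm z2 = x2 := (M.e i).left_inv hx2s
    beta_reduce at h1 h2
    rw [hxh, ← hs1, hheight z1 (by linarith)] at h1
    rw [hxh, ← hs2, hheight z2 (by linarith)] at h2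
    -- the three segments
    have hnear : ∀ ζ : E2, ‖ζ - z‖ ≤ δ → ∀ τ : ℝ, 0 ≤ τ → τ ≤ δ → ‖(ζ + τ • e) - z‖ ≤ 2 * δ := by
      intro ζ hζ τ h0 h1
      have h3 : (ζ + τ • e) - z = (ζ - z) + τ • e := by abel
      rw [h3]
      refine (norm_add_le _ _).trans ?_
      rw [norm_smul, he1, mul_one, Real.norm_eq_abs, abs_of_nonneg h0]
      linarith
    have hvert : ∀ w : E2, ‖w - z‖ ≤ δ' → ⟪M.fi i z, y⟫ < ⟪M.fi i w, y⟫ →
        IsPreconnected ((fun τ : ℝ => w + τ • e) '' Icc 0 δ) ∧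
        ∀ ζ ∈ ((fun τ : ℝ => w + τ • e) '' Icc 0 δ), ‖ζ - z‖ ≤ 2 * δ ∧
          ⟪M.fi i z, y⟫ < ⟪M.fi i ζ, y⟫ := by
      intro w hw hwh
      refine ⟨isPreconnected_Icc.image _ (by fun_prop), ?_⟩
      rintro _ ⟨τ, hτ, rfl⟩
      refine ⟨hnear w (by linarith) τ hτ.1 hτ.2, ?_⟩
      have h3 := hclimb w (by linarith) τ hτ.1 hτ.2
      have h4 : 0 ≤ 3 / 4 * G * τ := by
        have := hτ.1
        positivity
      linarith
    have hmid : ∀ w ∈ segment ℝ z1 z2, ‖(w + δ • e) - z‖ ≤ 2 * δ ∧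
        ⟪M.fi i z, y⟫ < ⟪M.fi i (w + δ • e), y⟫ := by
      intro w hw
      have hwn : ‖w - z‖ ≤ δ' := by
        have hconv : segment ℝ z1 z2 ⊆ closedBall z δ' :=
          (convex_closedBall z δ').segment_subset (by
            rw [mem_closedBall, dist_eq_norm]; exact hz1n.le) (by
            rw [mem_closedBall, dist_eq_norm]; exact hz2n.le)
        have := hconv hw
        rwa [mem_closedBall, dist_eq_norm] at this
      refine ⟨hnear w (by linarith) δ hδ0.le le_rfl, ?_⟩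
      have h3 := hclimb w (by linarith) δ hδ0.le le_rfl
      have h4 := lreg_lip M i z w y δ (by linarith)
      have h5 : Lc * ‖w - z‖ ≤ Lc * δ' := mul_le_mul_of_nonneg_left hwn hLc0
      have h6 := (abs_le.1 h4).1
      rw [← hLc] at h6
      linarith
    obtain ⟨hp1, hq1⟩ := hvert z1 hz1n.le h1
    obtain ⟨hp2, hq2⟩ := hvert z2 hz2n.le h2
    have hpm : IsPreconnected ((fun w : E2 => w + δ • e) '' segment ℝ z1 z2) :=
      (convex_segment z1 z2).isPreconnected.image _ (by fun_prop)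
    set A : Set E2 := ((fun τ : ℝ => z1 + τ • e) '' Icc 0 δ) ∪
      (((fun w : E2 => w + δ • e) '' segment ℝ z1 z2) ∪
        ((fun τ : ℝ => z2 + τ • e) '' Icc 0 δ)) with hA
    have hA1 : ∀ ζ ∈ A, ‖ζ - z‖ ≤ 2 * δ ∧ ⟪M.fi i z, y⟫ < ⟪M.fi i ζ, y⟫ := by
      rintro ζ (h | h | h)
      · exact hq1 ζ h
      · obtain ⟨w, hw, rfl⟩ := h
        exact hmid w hw
      · exact hq2 ζ h
    have hApre : IsPreconnected A := by
      refine IsPreconnected.union (z1 + δ • e) ⟨δ, ⟨hδ0.le, le_rfl⟩, rfl⟩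
        (Or.inl ⟨z1, left_mem_segment ℝ z1 z2, rfl⟩) hp1 ?_
      exact IsPreconnected.union (z2 + δ • e) ⟨z2, right_mem_segment ℝ z1 z2, rfl⟩
        ⟨δ, ⟨hδ0.le, le_rfl⟩, rfl⟩ hpm hp2
    refine ⟨(M.e i).symm '' A, lreg_pre M i hApre (fun ζ hζ => hin ζ (hA1 ζ hζ).1), ?_, ?_, ?_⟩
    · rintro _ ⟨ζ, hζ, rfl⟩
      beta_reduce
      rw [hxh, hheight ζ (hA1 ζ hζ).1]
      exact (hA1 ζ hζ).2
    · refine ⟨z1, Or.inl ⟨0, ⟨le_rfl, hδ0.le⟩, ?_⟩, hs1⟩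
      simp
    · refine ⟨z2, Or.inr (Or.inr ⟨0, ⟨le_rfl, hδ0.le⟩, ?_⟩), hs2⟩
      simp

end Lreg

end Topping
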