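import Pool.Agent.Lib.MP_bea121_gt.TC.Defs3

/-!
# Components of superlevel sets and saddles (MP_bea121_gt)
-/

open Set Topology Filter

set_option linter.unusedSectionVars false

noncomputable section

namespace Topping

section TopoAux

variable {S : Type} [TopologicalSpace S]

theorem topo_dv_self {V : Type} (u : V) : dv u u = 0 := by
  unfold dv
  rw [sub_self]

theorem topo_dv_symm {V : Type} (u v : V) : dv v u = - dv u v := by
  unfold dv
  rw [neg_sub]

theorem topo_dv_trans {V : Type} (u v w : V) : dv u v + dv v w = dv u w := by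
  unfold dv
  rw [sub_add_sub_cancel]

theorem topo_eSpan_mono {V J : Type} {s t : J → V} {P P' : J → Prop} (h : ∀ j, P j → P' j) :
    eSpan s t P ≤ eSpan s t P' := by
  refine Submodule.span_mono ?_
  rintro x ⟨j, hj, rfl⟩
  exact ⟨j, h j hj, rfl⟩

theorem topo_closed_comp {F : Set S} (hF : IsClosed F) (x : S) :
    IsClosed (connectedComponentIn F x) := by
  by_cases hx : x ∈ F
  · refine isClosed_of_closure_subset ?_
    refine IsPreconnected.subset_connectedComponentIn isPreconnected_connectedComponentIn.closure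
      (subset_closure (mem_connectedComponentIn hx)) ?_
    exact closure_minimal (connectedComponentIn_subset F x) hF
  · rw [connectedComponentIn_eq_empty hx]
    exact isClosed_empty

/-- The intersection of a decreasing sequence of closed connected sets in a compact Hausdorff
space is connected. -/
theorem topo_iInter [CompactSpace S] [T2Space S] (Z : ℕ → Set S) (hanti : Antitone Z)
    (hpre : ∀ n, IsPreconnected (Z n)) (hcl : ∀ n, IsClosed (Z n)) :
    IsPreconnected (⋂ n, Z n) := by
  rw [isPreconnected_closed_iff]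
  intro t t' ht ht' hsub hne hne'
  by_contra hcon
  rw [not_nonempty_iff_eq_empty] at hcon
  have hI : IsClosed (⋂ n, Z n) := isClosed_iInter hcl
  have hA : IsClosed ((⋂ n, Z n) ∩ t) := hI.inter ht
  have hA' : IsClosed ((⋂ n, Z n) ∩ t') := hI.inter ht'
  have hdis : Disjoint ((⋂ n, Z n) ∩ t) ((⋂ n, Z n) ∩ t') := by
    rw [Set.disjoint_iff]
    rintro x ⟨⟨h1, h2⟩, -, h3⟩
    rw [← hcon]
    exact ⟨h1, h2, h3⟩
  obtain ⟨O, O', hO, hO', hAO, hAO', hOO⟩ := normal_separation hA hA' hdis
  have hex : ∃ n, Z n ⊆ O ∪ O' := by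
    by_contra hno
    push Not at hno
    have hD : ∀ n, (Z n ∩ (O ∪ O')ᶜ).Nonempty := by
      intro n
      obtain ⟨x, hx, hx'⟩ := Set.not_subset.1 (hno n)
      exact ⟨x, hx, hx'⟩
    have hcap := IsCompact.nonempty_iInter_of_directed_nonempty_isCompact_isClosed
      (fun n => Z n ∩ (O ∪ O')ᶜ) (directed_of_isDirected_le (fun i j hij =>
        Set.inter_subset_inter_left _ (hanti hij))) hD
      (fun n => ((hcl n).inter (hO.union hO').isClosed_compl).isCompact)
      (fun n => (hcl n).inter (hO.union hO').isClosed_compl)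
    obtain ⟨x, hx⟩ := hcap
    rw [Set.mem_iInter] at hx
    have hxI : x ∈ ⋂ n, Z n := Set.mem_iInter.2 (fun n => (hx n).1)
    have hxn := (hx 0).2
    apply hxn
    rcases hsub hxI with h | h
    · exact Or.inl (hAO ⟨hxI, h⟩)
    · exact Or.inr (hAO' ⟨hxI, h⟩)
  obtain ⟨n, hn⟩ := hex
  obtain ⟨x, hx, hxt⟩ := hne
  obtain ⟨x', hx', hxt'⟩ := hne'
  obtain ⟨y, -, hy1, hy2⟩ := hpre n O O' hO hO' hn
    ⟨x, Set.mem_iInter.1 hx n, hAO ⟨hx, hxt⟩⟩ ⟨x', Set.mem_iInter.1 hx' n, hAO' ⟨hx', hxt'⟩⟩
  exact Set.disjoint_left.1 hOO hy1 hy2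

end TopoAux

section Topo
variable {S : Type} [TopologicalSpace S] [CompactSpace S] [T2Space S] [LocallyConnectedSpace S]

theorem toMax_core (h : S → ℝ) (hc : Continuous h) {Q : Type} (m : Q → S)
    (H0 : ∀ x, x ∉ range m → T0 h x) (c : ℝ) (x : S) (hx : c ≤ h x) :
    ∃ i, ∃ C : Set S, IsPreconnected C ∧ (∀ x' ∈ C, c ≤ h x') ∧ x ∈ C ∧ m i ∈ C := by
  set X : Set S := {y | c ≤ h y} with hX
  have hXc : IsClosed X := isClosed_le continuous_const hc
  set Z := connectedComponentIn X x with hZ
  have hxX : x ∈ X := hx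
  have hxZ : x ∈ Z := mem_connectedComponentIn hxX
  have hZc : IsCompact Z := (topo_closed_comp hXc x).isCompact
  obtain ⟨z, hz, hmax⟩ := hZc.exists_isMaxOn ⟨x, hxZ⟩ hc.continuousOn
  have hzX : z ∈ X := connectedComponentIn_subset X x hz
  by_cases hzr : z ∈ range m
  · obtain ⟨i, hi⟩ := hzr
    exact ⟨i, Z, isPreconnected_connectedComponentIn, fun y hy => connectedComponentIn_subset X x hy,
      hxZ, hi ▸ hz⟩
  · exfalso
    obtain ⟨A, hA, hAh, hAz⟩ := H0 z hzr
    have hpre : IsPreconnected (insert z A) :=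
      hA.subset_closure (subset_insert z A) (insert_subset hAz subset_closure)
    have hsub : insert z A ⊆ X := by
      refine insert_subset hzX (fun a ha => ?_)
      exact (le_trans hzX (hAh a ha).le : c ≤ h a)
    have h1 : insert z A ⊆ connectedComponentIn X z :=
      hpre.subset_connectedComponentIn (mem_insert z A) hsub
    rw [← connectedComponentIn_eq hz] at h1
    obtain ⟨a, ha⟩ : A.Nonempty := by
      rw [← closure_nonempty_iff]
      exact ⟨z, hAz⟩
    have h2 := hmax (h1 (mem_insert_of_mem z ha))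
    exact absurd (hAh a ha) (not_lt.2 h2)

theorem fact_core (h : S → ℝ) (hc : Continuous h) {Q J : Type} [Fintype Q] [Fintype J]
    (m : Q → S) (hm : Function.Injective m) (s : J → S) (u v : J → Q)
    (H0 : ∀ x, x ∉ range m → T0 h x)
    (H1 : ∀ x, x ∉ range m → x ∉ range s → T1 h x)
    (H2 : ∀ i, T2 h (m i))
    (H3 : ∀ j, T3 h (s j) (m (u j)) (m (v j)))
    (c : ℝ) (i i' : Q) (C : Set S) (hC : IsPreconnected C) (hCc : ∀ x' ∈ C, c ≤ h x') (hi : m i ∈ C)
    (hi' : m i' ∈ C) : dv i i' ∈ eSpan u v (fun j => c ≤ h (s j)) := by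
  classical
  -- the relation
  set R : ℝ → Q → Q → Prop := fun c i i' => dv i i' ∈ eSpan u v (fun j => c ≤ h (s j)) with hR
  have Rrefl : ∀ c i, R c i i := by
    intro c i
    simp only [hR, topo_dv_self]
    exact Submodule.zero_mem _
  have Rsymm : ∀ c i i', R c i i' → R c i' i := by
    intro c i i' h1
    simp only [hR] at h1 ⊢
    rw [topo_dv_symm i i']
    exact Submodule.neg_mem _ h1
  have Rtrans : ∀ c i i' i'', R c i i' → R c i' i'' → R c i i'' := by
    intro c i i' i'' h1 h2
    simp only [hR] at h1 h2 ⊢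
    rw [← topo_dv_trans i i' i'']
    exact Submodule.add_mem _ h1 h2
  have Rmono : ∀ c c' i i', c' ≤ c → R c i i' → R c' i i' := by
    intro c c' i i' hcc h1
    exact topo_eSpan_mono (fun j hj => hcc.trans hj) h1
  have Redge : ∀ c j, c ≤ h (s j) → R c (u j) (v j) := by
    intro c j hj
    exact Submodule.subset_span ⟨j, hj, rfl⟩
  -- the statement at level c
  set P : ℝ → Prop := fun c => ∀ (i i' : Q) (C : Set S), IsPreconnected C → (∀ x ∈ C, c ≤ h x) →
    m i ∈ C → m i' ∈ C → R c i i' with hP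
  suffices hall : ∀ c, P c from hall c i i' C hC hCc hi hi'
  by_contra hno
  push Not at hno
  obtain ⟨c1, hc1⟩ := hno
  -- the bad levels
  have hSne : ∀ c, ¬ P c → ∃ x : S, c ≤ h x := by
    intro c hcP
    simp only [hP] at hcP
    push Not at hcP
    obtain ⟨i, -, C, -, h2, h3, -, -⟩ := hcP
    exact ⟨m i, h2 _ h3⟩
  obtain ⟨x1, hx1⟩ := hSne c1 hc1
  obtain ⟨xM, -, hxM⟩ := isCompact_univ.exists_isMaxOn ⟨x1, mem_univ x1⟩ hc.continuousOn
  have hMax : ∀ x, h x ≤ h xM := fun x => hxM (mem_univ x)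
  set B : Set ℝ := {c | ¬ P c} with hB
  have hBne : B.Nonempty := ⟨c1, hc1⟩
  have hBbdd : BddAbove B := by
    refine ⟨h xM, fun c hcB => ?_⟩
    obtain ⟨x, hx⟩ := hSne c hcB
    exact hx.trans (hMax x)
  set c0 := sSup B with hc0
  have habove : ∀ c, c0 < c → P c := by
    intro c hcc
    by_contra hcon
    exact absurd (le_csSup hBbdd (show c ∈ B from hcon)) (not_le.2 hcc)
  by_cases hP0 : P c0
  · -- the level c0 is good
    have hpair : ∃ i i' : Q, ∀ ε > 0, ∃ c, c0 - ε < c ∧ c < c0 ∧ (∃ C : Set S, IsPreconnected C ∧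
        (∀ x ∈ C, c ≤ h x) ∧ m i ∈ C ∧ m i' ∈ C) ∧ ¬ R c i i' := by
      by_contra hcon
      push Not at hcon
      choose ε hε hbad using hcon
      obtain ⟨δ, hδ, hδε⟩ : ∃ δ > 0, ∀ i i', δ ≤ ε i i' := by
        by_cases hQ : Nonempty Q
        · obtain ⟨p, hp⟩ := Finite.exists_min (fun p : Q × Q => ε p.1 p.2)
          exact ⟨ε p.1 p.2, hε _ _, fun i i' => hp (i, i')⟩
        · exact ⟨1, one_pos, fun i => absurd ⟨i⟩ hQ⟩
      obtain ⟨c, hcB, hcc⟩ := exists_lt_of_lt_csSup hBne (show c0 - δ < sSup B by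
        rw [← hc0]; linarith)
      have hcle : c ≤ c0 := le_csSup hBbdd hcB
      have hclt : c < c0 := by
        rcases hcle.lt_or_eq with h1 | h1
        · exact h1
        · exact absurd (h1 ▸ hP0) hcB
      apply hcB
      intro i i' C hC1 hC2 hC3 hC4
      exact hbad i i' c (by have := hδε i i'; linarith) hclt ⟨C, hC1, hC2, hC3, hC4⟩
    obtain ⟨i, i', hii⟩ := hpair
    -- decreasing sequence of components
    set lev : ℕ → ℝ := fun n => c0 - 1 / ((n : ℝ) + 1) with hlev
    set X : ℝ → Set S := fun c => {y | c ≤ h y} with hX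
    have hXc : ∀ c, IsClosed (X c) := fun c => isClosed_le continuous_const hc
    have hlevlt : ∀ n, lev n < c0 := by
      intro n
      have : (0 : ℝ) < 1 / ((n : ℝ) + 1) := by positivity
      simp only [hlev]
      linarith
    have hboth : ∀ n, m i' ∈ connectedComponentIn (X (lev n)) (m i) := by
      intro n
      obtain ⟨c, h1, -, ⟨C, h3, h4, h5, h6⟩, -⟩ := hii (1 / ((n : ℝ) + 1)) (by positivity)
      have hsub : C ⊆ X (lev n) := fun x hx => (h1.le.trans (h4 x hx) : lev n ≤ h x)
      exact h3.subset_connectedComponentIn h5 hsub h6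
    have hmi : ∀ n, m i ∈ X (lev n) := by
      intro n
      obtain ⟨c, h1, -, ⟨C, h3, h4, h5, h6⟩, -⟩ := hii (1 / ((n : ℝ) + 1)) (by positivity)
      exact (h1.le.trans (h4 _ h5) : lev n ≤ h (m i))
    set Z : ℕ → Set S := fun n => connectedComponentIn (X (lev n)) (m i) with hZ
    have hanti : Antitone Z := by
      intro n n' hnn
      refine isPreconnected_connectedComponentIn.subset_connectedComponentIn
        (mem_connectedComponentIn (hmi n')) ?_
      refine (connectedComponentIn_subset _ _).trans (fun x hx => ?_)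
      have h1 : lev n ≤ lev n' := by
        simp only [hlev]
        have : 1 / ((n' : ℝ) + 1) ≤ 1 / ((n : ℝ) + 1) := by
          apply one_div_le_one_div_of_le
          · positivity
          · have : (n : ℝ) ≤ n' := by exact_mod_cast hnn
            linarith
        linarith
      exact (h1.trans hx : lev n ≤ h x)
    have hcap := topo_iInter Z hanti (fun n => isPreconnected_connectedComponentIn)
      (fun n => topo_closed_comp (hXc _) _)
    have hlim : ∀ x, (∀ n, lev n ≤ h x) → c0 ≤ h x := by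
      intro x hx
      by_contra hlt
      push Not at hlt
      obtain ⟨n, hn⟩ := exists_nat_one_div_lt (sub_pos.2 hlt)
      have := hx n
      simp only [hlev] at this
      linarith
    have h0 : R c0 i i' := by
      refine hP0 i i' (⋂ n, Z n) hcap (fun x hx => hlim x (fun n => ?_)) ?_ ?_
      · have h9 := connectedComponentIn_subset (X (lev n)) (m i) (Set.mem_iInter.1 hx n)
        exact h9
      · exact Set.mem_iInter.2 (fun n => mem_connectedComponentIn (hmi n))
      · exact Set.mem_iInter.2 hboth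
    obtain ⟨c, -, h2, -, h4⟩ := hii 1 one_pos
    exact h4 (Rmono c0 c i i' h2.le h0)
  · -- the level c0 is bad, all higher levels are good
    apply hP0
    -- the class of a point above c0
    set K : S → Q → Prop := fun x i => ∃ c, c0 < c ∧ c ≤ h x ∧ ∃ C : Set S, IsPreconnected C ∧
      (∀ y ∈ C, c ≤ h y) ∧ x ∈ C ∧ m i ∈ C with hK
    have Kex : ∀ x, c0 < h x → ∃ i, K x i := by
      intro x hx
      obtain ⟨i, C, h1, h2, h3, h4⟩ := toMax_core h hc m H0 (h x) x le_rfl
      exact ⟨i, h x, hx, le_rfl, C, h1, h2, h3, h4⟩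
    have Kuniq : ∀ x i i', K x i → K x i' → R c0 i i' := by
      rintro x i i' ⟨c, hc1, hc2, C, h1, h2, h3, h4⟩ ⟨c', hc1', hc2', C', h1', h2', h3', h4'⟩
      have hpre : IsPreconnected (C ∪ C') := IsPreconnected.union x h3 h3' h1 h1'
      have h5 := habove (min c c') (lt_min hc1 hc1') i i' (C ∪ C') hpre (by
        rintro y (hy | hy)
        · exact (min_le_left _ _).trans (h2 y hy)
        · exact (min_le_right _ _).trans (h2' y hy)) (Or.inl h4) (Or.inr h4')
      exact Rmono _ _ _ _ (lt_min hc1 hc1').le h5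
    have Kself : ∀ i, c0 < h (m i) → K (m i) i := by
      intro i hi
      exact ⟨h (m i), hi, le_rfl, {m i}, isPreconnected_singleton, by
        intro y hy
        rw [mem_singleton_iff.1 hy], rfl, rfl⟩
    -- the open sets
    set G : Q → Set S := fun k => {x | c0 < h x ∧ ∃ i, K x i ∧ R c0 i k} with hG
    have Gopen : ∀ k, IsOpen (G k) := by
      intro k
      rw [isOpen_iff_mem_nhds]
      rintro x ⟨hx, i, ⟨c, hc1, hc2, C, h1, h2, h3, h4⟩, hik⟩
      obtain ⟨c', hc', hc''⟩ := exists_between hx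
      have hO : {y | c' < h y} ∈ 𝓝 x := (isOpen_lt continuous_const hc).mem_nhds hc''
      obtain ⟨V, hV, hVpre, hVsub⟩ := locallyConnectedSpace_iff_connected_subsets.1
        (inferInstance : LocallyConnectedSpace S) x _ hO
      refine Filter.mem_of_superset hV (fun y hy => ?_)
      refine ⟨hc'.trans (hVsub hy), i, ⟨min c c', lt_min hc1 hc', ?_, C ∪ V, ?_, ?_, Or.inr hy,
        Or.inl h4⟩, hik⟩
      · exact (min_le_right _ _).trans (le_of_lt (hVsub hy))
      · exact IsPreconnected.union x h3 (mem_of_mem_nhds hV) h1 hVpre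
      · rintro z (hz | hz)
        · exact (min_le_left _ _).trans (h2 z hz)
        · exact (min_le_right _ _).trans (le_of_lt (hVsub hz))
    have Gdisj : ∀ x k k', x ∈ G k → x ∈ G k' → R c0 k k' := by
      rintro x k k' ⟨-, i, hi, hik⟩ ⟨-, i', hi', hik'⟩
      exact Rtrans _ _ _ _ (Rsymm _ _ _ hik) (Rtrans _ _ _ _ (Kuniq x i i' hi hi') hik')
    have Gmem : ∀ x, c0 < h x → ∃ k, x ∈ G k := by
      intro x hx
      obtain ⟨i, hi⟩ := Kex x hx
      exact ⟨i, hx, i, hi, Rrefl c0 i⟩
    have Gself : ∀ i, c0 < h (m i) → m i ∈ G i := fun i hi => ⟨hi, i, Kself i hi, Rrefl c0 i⟩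
    -- preconnected sets above c0 stay in one class
    have Gpre : ∀ (A : Set S) (x : S) (k : Q), IsPreconnected A → (∀ y ∈ A, c0 < h y) → x ∈ A →
        x ∈ G k → A ⊆ G k := by
      intro A x k hA hAh hxA hxG y hyA
      by_contra hyG
      set W : Set S := ⋃ k' ∈ {k' : Q | ¬ R c0 k k'}, G k' with hW
      have hWo : IsOpen W := isOpen_biUnion (fun k' _ => Gopen k')
      have hcov : A ⊆ G k ∪ W := by
        intro z hz
        obtain ⟨k', hk'⟩ := Gmem z (hAh z hz)
        by_cases hkk : R c0 k k'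
        · left
          obtain ⟨h1, i, h2, h3⟩ := hk'
          exact ⟨h1, i, h2, Rtrans _ _ _ _ h3 (Rsymm _ _ _ hkk)⟩
        · right
          exact mem_biUnion (show k' ∈ {k' : Q | ¬ R c0 k k'} from hkk) hk'
      have hyW : y ∈ W := (hcov hyA).resolve_left hyG
      obtain ⟨z, -, hz1, hz2⟩ := hA (G k) W (Gopen k) hWo hcov ⟨x, hxA, hxG⟩ ⟨y, hyA, hyW⟩
      obtain ⟨k', hk', hzk'⟩ := mem_iUnion₂.1 hz2
      exact hk' (Gdisj z k k' hz1 hzk')
    -- points of the closures
    have hclos : ∀ k x, x ∈ closure (G k) → c0 ≤ h x := by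
      intro k x hx
      have : closure (G k) ⊆ {y | c0 ≤ h y} :=
        closure_minimal (fun y hy => (le_of_lt hy.1 : c0 ≤ h y)) (isClosed_le continuous_const hc)
      exact this hx
    have hnotm : ∀ k j, h (m j) = c0 → m j ∉ closure (G k) := by
      intro k j hj hmem
      obtain ⟨U, hU, hUh⟩ := H2 j
      obtain ⟨y, hyU, hyG⟩ := mem_closure_iff_nhds.1 hmem U hU
      have h1 : c0 < h y := hyG.1
      by_cases hy : y = m j
      · rw [hy, hj] at h1
        exact lt_irrefl _ h1
      · have := hUh y hyU hy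
        rw [hj] at this
        exact lt_asymm h1 this
    have hdisc : ∀ x k k', x ∈ closure (G k) → x ∈ closure (G k') → R c0 k k' := by
      intro x k k' hx hx'
      rcases (hclos k x hx).lt_or_eq with hlt | heq
      · obtain ⟨k'', hk''⟩ := Gmem x hlt
        obtain ⟨y, hy1, hy2⟩ := mem_closure_iff_nhds.1 hx _ ((Gopen k'').mem_nhds hk'')
        obtain ⟨y', hy1', hy2'⟩ := mem_closure_iff_nhds.1 hx' _ ((Gopen k'').mem_nhds hk'')
        exact Rtrans _ _ _ _ (Rsymm _ _ _ (Gdisj y k'' k hy1 hy2)) (Gdisj y' k'' k' hy1' hy2')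
      · have hxm : x ∉ range m := by
          rintro ⟨j, rfl⟩
          exact hnotm k j heq.symm hx
        by_cases hxs : x ∈ range s
        · obtain ⟨j, rfl⟩ := hxs
          obtain ⟨U, hU, hUh⟩ := H3 j
          have hone : ∀ k, s j ∈ closure (G k) → R c0 (u j) k := by
            intro k hk
            obtain ⟨y, hyU, hyG⟩ := mem_closure_iff_nhds.1 hk U hU
            obtain ⟨D, hD, hDh, hyD, hab⟩ := hUh y hyU (by rw [← heq]; exact hyG.1)
            have hDh' : ∀ z ∈ D, c0 < h z := fun z hz => by rw [heq]; exact hDh z hz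
            have hsub := Gpre D y k hD hDh' hyD hyG
            rcases hab with ha | hb
            · exact Gdisj _ _ _ (Gself (u j) (hDh' _ ha)) (hsub ha)
            · have h5 : R c0 (v j) k := Gdisj _ _ _ (Gself (v j) (hDh' _ hb)) (hsub hb)
              exact Rtrans _ _ _ _ (Redge c0 j heq.le) h5
          exact Rtrans _ _ _ _ (Rsymm _ _ _ (hone k hx)) (hone k' hx')
        · obtain ⟨U, hU, hUh⟩ := H1 x hxm hxs
          obtain ⟨y, hyU, hyG⟩ := mem_closure_iff_nhds.1 hx U hU
          obtain ⟨y', hyU', hyG'⟩ := mem_closure_iff_nhds.1 hx' U hU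
          obtain ⟨D, hD, hDh, hyD, hyD'⟩ := hUh y hyU y' hyU' (by rw [← heq]; exact hyG.1)
            (by rw [← heq]; exact hyG'.1)
          have hDh' : ∀ z ∈ D, c0 < h z := fun z hz => by rw [heq]; exact hDh z hz
          exact Gdisj y' k k' (Gpre D y k hD hDh' hyD hyG hyD') hyG'
    -- conclusion
    intro i i' C hC hCc hi hi'
    by_contra hnR
    have hne : i ≠ i' := by
      rintro rfl
      exact hnR (Rrefl _ _)
    have isol : ∀ j j', j ≠ j' → m j ∈ C → m j' ∈ C → c0 < h (m j) := by
      intro j j' hjj hj hj'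
      rcases (hCc _ hj).lt_or_eq with hlt | heq
      · exact hlt
      · exfalso
        obtain ⟨U, hU, hUh⟩ := H2 j
        obtain ⟨V, hVU, hVo, hjV⟩ := mem_nhds_iff.1 hU
        obtain ⟨y, hyC, hyV, hyj⟩ := hC V {m j}ᶜ hVo isOpen_compl_singleton (by
          intro z hz
          by_cases hzj : z = m j
          · left
            rw [hzj]
            exact hjV
          · right
            exact hzj) ⟨m j, hj, hjV⟩ ⟨m j', hj', fun h1 => hjj (hm h1).symm⟩
        have h1 := hUh y (hVU hyV) hyj
        have h2 := hCc y hyC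
        rw [← heq] at h1
        exact absurd h1 (not_lt.2 h2)
    have hi0 : c0 < h (m i) := isol i i' hne hi hi'
    have hi0' : c0 < h (m i') := isol i' i hne.symm hi' hi
    rw [isPreconnected_closed_iff] at hC
    set T : Set S := (⋃ k ∈ {k : Q | ¬ R c0 i k}, closure (G k)) ∪
      ⋃ j ∈ {j : Q | h (m j) = c0}, {m j} with hT
    have hTc : IsClosed T := by
      refine IsClosed.union ?_ ?_
      · exact (Set.toFinite _).isClosed_biUnion (fun k _ => isClosed_closure)
      · exact (Set.toFinite _).isClosed_biUnion (fun k _ => isClosed_singleton)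
    have hcov : C ⊆ closure (G i) ∪ T := by
      intro x hx
      rcases (hCc x hx).lt_or_eq with hlt | heq
      · obtain ⟨k, hk⟩ := Gmem x hlt
        by_cases hik : R c0 i k
        · left
          obtain ⟨h1, l, h2, h3⟩ := hk
          exact subset_closure ⟨h1, l, h2, Rtrans _ _ _ _ h3 (Rsymm _ _ _ hik)⟩
        · right
          left
          exact mem_biUnion (show k ∈ {k : Q | ¬ R c0 i k} from hik) (subset_closure hk)
      · by_cases hxm : x ∈ range m
        · obtain ⟨j, rfl⟩ := hxm
          right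
          right
          exact mem_biUnion (show j ∈ {j : Q | h (m j) = c0} from heq.symm) rfl
        · obtain ⟨A, hA, hAh, hAx⟩ := H0 x hxm
          obtain ⟨a, ha⟩ : A.Nonempty := by
            rw [← closure_nonempty_iff]
            exact ⟨x, hAx⟩
          have hAh' : ∀ z ∈ A, c0 < h z := fun z hz => by rw [heq]; exact hAh z hz
          obtain ⟨k, hk⟩ := Gmem a (hAh' a ha)
          have hsub := closure_mono (Gpre A a k hA hAh' ha hk) hAx
          by_cases hik : R c0 i k
          · left
            have hGG : G k ⊆ G i := by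
              rintro z ⟨h1, l, h2, h3⟩
              exact ⟨h1, l, h2, Rtrans _ _ _ _ h3 (Rsymm _ _ _ hik)⟩
            exact closure_mono hGG hsub
          · right
            left
            exact mem_biUnion (show k ∈ {k : Q | ¬ R c0 i k} from hik) hsub
    obtain ⟨x, -, hx1, hx2⟩ := hC (closure (G i)) T isClosed_closure hTc hcov
      ⟨m i, hi, subset_closure (Gself i hi0)⟩
      ⟨m i', hi', Or.inl (mem_biUnion (show i' ∈ {k : Q | ¬ R c0 i k} from hnR)
        (subset_closure (Gself i' hi0')))⟩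
    rcases hx2 with hx2 | hx2
    · obtain ⟨k, hk, hxk⟩ := mem_iUnion₂.1 hx2
      exact hk (hdisc x i k hx1 hxk)
    · obtain ⟨j, hj, hxj⟩ := mem_iUnion₂.1 hx2
      rw [mem_singleton_iff.1 hxj] at hx1
      exact hnotm i j hj hx1

end Topo

end Topping
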