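import Mathlib
import Pool.Agent.Lib.MP_bea121_gt.TC.Defs4
import Pool.Agent.Lib.MP_bea121_gt.TC.Basic
import Pool.Agent.Lib.MP_bea121_gt.TC.Topo
import Pool.Agent.Lib.MP_bea121_gt.TC.Inv
import Pool.Agent.Lib.MP_bea121_gt.TC.Lreg
import Pool.Agent.Lib.MP_bea121_gt.TC.Lmin

/-! Local topology at a saddle (module LSAD of MP_bea121_gt). -/

open MeasureTheory Set Metric Topology Filter
open scoped RealInnerProductSpace Gradient ContDiff Manifold

noncomputable section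

namespace Topping

section Lsad
variable {S : Type} [TopologicalSpace S] [CompactSpace S] [T2Space S] {M : MongeSurf S} {y₀ : E3} (D : CritData M y₀)

omit [CompactSpace S] [T2Space S] in
theorem LSAD_pimage_pre (i : M.ι) {B : Set E2} (hB : B ⊆ ball (0 : E2) (5 * M.R i))
    (hc : IsPreconnected B) : IsPreconnected ((M.e i).symm '' B) :=
  hc.image _ ((M.e i).continuousOn_symm.mono (hB.trans (M.target i)))

omit [CompactSpace S] [T2Space S] in
theorem LSAD_ball5 (k : D.N) : ball (D.z k) D.r1 ⊆ ball (0 : E2) (5 * M.R (D.i k)) :=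
  (D.ball_sub k).trans (ball_subset_ball (by nlinarith [M.R_pos (D.i k)]))

omit [CompactSpace S] [T2Space S] in
theorem reg_or_pt (y : E3) (hy : y ∈ ball y₀ D.ρ) (x : S) :
    (∃ k, x = D.pt k y) ∨ ∃ i, x ∈ M.P i (4 * M.R i) ∧ M.Phi i (M.e i x) y ≠ 0 := by
  obtain ⟨i, hi⟩ := P_cover M x
  have hR := M.R_pos i
  obtain ⟨h1, h2⟩ := symm_e M i hi
  by_cases hk : ∃ k, x ∈ (M.e (D.i k)).symm '' ball (D.z k) (D.r1 / 2)
  · obtain ⟨k, ζ, hζ, rfl⟩ := hk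
    by_cases hs : ζ = D.s k y
    · left
      exact ⟨k, by rw [hs]; rfl⟩
    · right
      have hζ1 : ζ ∈ ball (D.z k) D.r1 := ball_subset_ball (by linarith [D.r1_pos]) hζ
      have hR' := M.R_pos (D.i k)
      obtain ⟨h3, h4⟩ := P_symm M (D.i k) (ρ := 3 * M.R (D.i k)) (by linarith)
        (D.ball_sub k hζ1)
      refine ⟨D.i k, P_mono M (D.i k) (by linarith) h3, ?_⟩
      rw [h4]
      intro h5
      have h6 := D.phi_lower k y hy ζ hζ1
      rw [h5, norm_zero] at h6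
      have h7 : 0 < ‖ζ - D.s k y‖ := norm_pos_iff.2 (sub_ne_zero.2 hs)
      nlinarith [D.lam_pos]
  · right
    refine ⟨i, P_mono M i (by linarith) hi, ?_⟩
    intro h5
    have h6 := D.away y hy i (M.e i x) (by
      rw [mem_closedBall]; rw [mem_ball] at h2; linarith) (by
      intro k; rw [h1]; exact fun h => hk ⟨k, h⟩)
    rw [h5, norm_zero] at h6
    linarith [D.lam_pos]

omit [CompactSpace S] [T2Space S] in
theorem LSAD_lip (i : M.ι) (z z' : E2) (y : E3) (hy : ‖y‖ ≤ 3) :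
    ⟪M.fi i z, y⟫ - (101 / 100 * 3) * ‖z - z'‖ ≤ ⟪M.fi i z', y⟫ := by
  have h1 := (chord M i z z').2
  have h2 : ⟪M.fi i z - M.fi i z', y⟫ ≤ ‖M.fi i z - M.fi i z'‖ * ‖y‖ := real_inner_le_norm _ _
  rw [inner_sub_left] at h2
  have h3 : ‖M.fi i z - M.fi i z'‖ * ‖y‖ ≤ (101 / 100 * ‖z - z'‖) * 3 := by
    apply mul_le_mul h1 hy (norm_nonneg _) (by positivity)
  linarith

omit [CompactSpace S] [T2Space S] in
theorem LSAD_y0 : y₀ ∈ ball y₀ D.ρ := mem_ball_self D.ρ_pos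

omit [CompactSpace S] [T2Space S] in
theorem LSAD_s_cont (k : D.N) : ContinuousAt (D.s k) y₀ :=
  (D.s_c1 k).continuousOn.continuousAt (isOpen_ball.mem_nhds (LSAD_y0 D))

omit [CompactSpace S] [T2Space S] in
theorem LSAD_val_cont (k : D.N) : ContinuousAt (D.val k) y₀ := by
  have h1 : ContinuousAt (fun y => M.fi (D.i k) (D.s k y)) y₀ :=
    ContinuousAt.comp (g := M.fi (D.i k)) (fi_contDiff M (D.i k)).continuous.continuousAt
      (LSAD_s_cont D k)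
  exact h1.inner continuousAt_id

/-- the superlevel component on one side of the saddle -/
theorem LSAD_side (j : D.N) (hj : D.typ j = 1) (e : ℝ) (he : |e| = 1) :
    ∃ k : D.Mx, ∃ r > 0, ∃ E : Set S, IsPreconnected E ∧
      (∀ ζ ∈ ball (D.z j + (e * (D.r1 / 4)) • D.p j) r, (M.e (D.i j)).symm ζ ∈ E) ∧
      ∀ᶠ y in 𝓝 y₀, (∀ x ∈ E, D.val j y < ⟪M.f x, y⟫) ∧ D.pt k y ∈ E := by
  have hr1 := D.r1_pos
  have hlam := D.lam_pos
  have hy0 := LSAD_y0 D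
  have hy03 : ‖y₀‖ ≤ 3 := (D.y_norm y₀ hy0).2
  set d : ℝ := D.lam * (D.r1 / 4) ^ 2 / 4 with hd
  have hdpos : 0 < d := by positivity
  have : LocallyConnectedSpace S := by
    first
      | exact locConn M
      | exact locConn
  have hcontf : Continuous (fun x => ⟪M.f x, y₀⟫) := M.f_cont.inner continuous_const
  -- the center
  set w : E2 := D.z j + (e * (D.r1 / 4)) • D.p j with hw
  have hwz : ‖w - D.z j‖ = D.r1 / 4 := by
    rw [hw, add_sub_cancel_left, norm_smul, D.norm_p, mul_one, Real.norm_eq_abs, abs_mul, he,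
      one_mul, abs_of_pos (by positivity)]
  have hwball : w ∈ ball (D.z j) D.r1 := by
    rw [mem_ball, dist_eq_norm, hwz]; linarith
  have hasc := D.asc j hj y₀ hy0 (e * (D.r1 / 4)) (by
    rw [abs_mul, he, one_mul, abs_of_pos (by positivity)]; linarith)
  rw [D.s_center j] at hasc
  have hval0 : D.val j y₀ = ⟪M.fi (D.i j) (D.z j), y₀⟫ := by
    unfold CritData.val; rw [D.s_center]
  have he2 : (e * (D.r1 / 4)) ^ 2 = (D.r1 / 4) ^ 2 := by
    rw [mul_pow, ← sq_abs e, he]; ring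
  have hxw : D.val j y₀ + 4 * d ≤ ⟪M.f ((M.e (D.i j)).symm w), y₀⟫ := by
    rw [f_symm M (D.i j) (LSAD_ball5 D j hwball), hval0]
    rw [he2] at hasc
    have : 4 * d = D.lam * (D.r1 / 4) ^ 2 := by rw [hd]; ring
    rw [this]
    exact hasc
  obtain ⟨k, C, hC1, hC2, hC3, hC4⟩ := toMax_core (fun x => ⟪M.f x, y₀⟫) hcontf
    (fun k : D.Mx => D.pt k y₀) (by
      intro x hx
      rcases reg_or_pt D y₀ hy0 x with ⟨k, hk⟩ | ⟨i, hi1, hi2⟩
      · rcases h3 : D.typ k with ⟨n, hn⟩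
        interval_cases n
        · exfalso; exact hx ⟨⟨k, h3⟩, hk.symm⟩
        · rw [hk]; exact top_sad0 D y₀ hy0 k h3
        · rw [hk]; exact (top_min D y₀ hy0 k h3).1
      · exact (top_regular M y₀ x i hi1 hi2).1) (D.val j y₀ + 4 * d)
    ((M.e (D.i j)).symm w) hxw
  set r : ℝ := min (D.r1 / 2) d with hr
  have hrpos : 0 < r := lt_min (by positivity) hdpos
  have hrd : r ≤ d := min_le_right _ _
  have hrr : r ≤ D.r1 / 2 := min_le_left _ _
  have hb1 : ball w r ⊆ ball (D.z j) D.r1 := by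
    intro ζ hζ
    rw [mem_ball, dist_eq_norm] at hζ ⊢
    calc ‖ζ - D.z j‖ = ‖(ζ - w) + (w - D.z j)‖ := by congr 1; abel
      _ ≤ ‖ζ - w‖ + ‖w - D.z j‖ := norm_add_le _ _
      _ < D.r1 := by rw [hwz]; linarith
  have hb2 : ball (D.z (k : D.N)) r ⊆ ball (D.z (k : D.N)) D.r1 :=
    ball_subset_ball (by linarith)
  have hptk : D.pt (k : D.N) y₀ = (M.e (D.i k)).symm (D.z k) := by
    unfold CritData.pt; rw [D.s_center]
  refine ⟨k, r, hrpos, C ∪ (M.e (D.i j)).symm '' ball w r ∪ (M.e (D.i k)).symm '' ball (D.z k) r,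
    ?_, ?_, ?_⟩
  · refine IsPreconnected.union (D.pt (k : D.N) y₀) (Or.inl hC4) ?_ ?_ ?_
    · rw [hptk]; exact ⟨_, mem_ball_self hrpos, rfl⟩
    · refine IsPreconnected.union ((M.e (D.i j)).symm w) hC3 ⟨_, mem_ball_self hrpos, rfl⟩ hC1 ?_
      exact LSAD_pimage_pre (D.i j) (hb1.trans (LSAD_ball5 D j)) (convex_ball _ _).isPreconnected
    · exact LSAD_pimage_pre (D.i k) (hb2.trans (LSAD_ball5 D k)) (convex_ball _ _).isPreconnected
  · intro ζ hζ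
    exact Or.inl (Or.inr ⟨ζ, hζ, rfl⟩)
  · have hE : ∀ x ∈ C ∪ (M.e (D.i j)).symm '' ball w r ∪ (M.e (D.i k)).symm '' ball (D.z k) r,
        D.val j y₀ + d / 2 ≤ ⟪M.f x, y₀⟫ := by
      intro x hx
      rcases hx with (hx | ⟨ζ, hζ, rfl⟩) | ⟨ζ, hζ, rfl⟩
      · have := hC2 x hx
        linarith
      · have h1 := LSAD_lip (D.i j) w ζ y₀ hy03
        rw [f_symm M (D.i j) (LSAD_ball5 D j hwball)] at hxw
        rw [f_symm M (D.i j) (LSAD_ball5 D j (hb1 hζ))]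
        rw [mem_ball, dist_eq_norm, norm_sub_rev] at hζ
        linarith
      · have h1 := LSAD_lip (D.i k) (D.z k) ζ y₀ hy03
        have h2 := hC2 _ hC4
        simp only [hptk] at h2
        rw [f_symm M (D.i k) (LSAD_ball5 D k (hb2 (mem_ball_self hrpos)))] at h2
        rw [f_symm M (D.i k) (LSAD_ball5 D k (hb2 hζ))]
        rw [mem_ball, dist_eq_norm, norm_sub_rev] at hζ
        linarith
    obtain ⟨F, hF⟩ := isCompact_univ.exists_bound_of_continuousOn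
      (f := M.f) M.f_cont.continuousOn
    have hF0 : 0 < |F| + 1 := by positivity
    have ev1 : ∀ᶠ y in 𝓝 y₀, ‖y - y₀‖ < d / 4 / (|F| + 1) := by
      have := ball_mem_nhds y₀ (show 0 < d / 4 / (|F| + 1) by positivity)
      filter_upwards [this] with y hy
      rwa [mem_ball, dist_eq_norm] at hy
    have ev2 : ∀ᶠ y in 𝓝 y₀, |D.val j y - D.val j y₀| < d / 4 := by
      have := (LSAD_val_cont D j).eventually (ball_mem_nhds _ (show 0 < d / 4 by positivity))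
      filter_upwards [this] with y hy
      rwa [Real.dist_eq] at hy
    have ev3 : ∀ᶠ y in 𝓝 y₀, D.s (k : D.N) y ∈ ball (D.z (k : D.N)) r := by
      have h := LSAD_s_cont D (k : D.N)
      unfold ContinuousAt at h
      rw [D.s_center] at h
      exact h.eventually (ball_mem_nhds _ hrpos)
    filter_upwards [ev1, ev2, ev3] with y h1 h2 h3
    refine ⟨?_, Or.inr ⟨_, h3, rfl⟩⟩
    intro x hx
    have h4 := hE x hx
    have h5 : |⟪M.f x, y - y₀⟫| ≤ ‖M.f x‖ * ‖y - y₀‖ := abs_real_inner_le_norm _ _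
    have h6 : ‖M.f x‖ ≤ |F| + 1 := (hF x (mem_univ x)).trans (by linarith [le_abs_self F])
    have h7 : ‖M.f x‖ * ‖y - y₀‖ < d / 4 := by
      calc ‖M.f x‖ * ‖y - y₀‖ ≤ (|F| + 1) * ‖y - y₀‖ :=
            mul_le_mul_of_nonneg_right h6 (norm_nonneg _)
        _ < (|F| + 1) * (d / 4 / (|F| + 1)) := mul_lt_mul_of_pos_left h1 hF0
        _ = d / 4 := by field_simp
    rw [inner_sub_right] at h5
    have h8 := abs_lt.1 (lt_of_le_of_lt h5 h7)
    have h9 := abs_lt.1 h2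
    linarith [h8.1, h9.2]

omit [CompactSpace S] [T2Space S] in
/-- the path upwards from a higher point near the saddle -/
theorem LSAD_up (j : D.N) (hj : D.typ j = 1) (e : ℝ) (he : |e| = 1) (y : E3)
    (hy : y ∈ ball y₀ D.ρ) (ζ : E2) (hζ : ‖ζ - D.s j y‖ < D.r1 / 4)
    (hpos : 0 < ⟪ζ - D.s j y, e • D.p j⟫) (hh : D.val j y < ⟪M.fi (D.i j) ζ, y⟫) :
    ∃ T : ℝ, T = D.r1 / 4 - ⟪ζ - D.s j y, e • D.p j⟫ ∧ 0 ≤ T ∧
      ∀ τ ∈ Icc 0 T, ζ + τ • (e • D.p j) ∈ ball (D.z j) D.r1 ∧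
        D.val j y < ⟪M.fi (D.i j) (ζ + τ • (e • D.p j)), y⟫ := by
  have hr1 := D.r1_pos
  set w : E2 := e • D.p j with hw
  have hwn : ‖w‖ = 1 := by rw [hw, norm_smul, D.norm_p, mul_one, Real.norm_eq_abs, he]
  have hee : e * e = 1 := by rw [← abs_mul_abs_self, he, one_mul]
  set v1 : ℝ := ⟪ζ - D.s j y, w⟫ with hv1
  have hv1le : v1 ≤ ‖ζ - D.s j y‖ := by
    have := real_inner_le_norm (ζ - D.s j y) w
    rwa [hwn, mul_one] at this
  have hT : 0 ≤ D.r1 / 4 - v1 := by linarith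
  refine ⟨_, rfl, hT, ?_⟩
  have hball : ∀ τ ∈ Icc 0 (D.r1 / 4 - v1), ζ + τ • w ∈ ball (D.z j) D.r1 := by
    intro τ hτ
    rw [mem_ball, dist_eq_norm]
    have h1 := D.s_mem j y hy
    rw [mem_ball, dist_eq_norm] at h1
    calc ‖ζ + τ • w - D.z j‖ = ‖(ζ - D.s j y) + (D.s j y - D.z j) + τ • w‖ := by congr 1; abel
      _ ≤ ‖ζ - D.s j y‖ + ‖D.s j y - D.z j‖ + ‖τ • w‖ := norm_add₃_le
      _ < D.r1 := by
        rw [norm_smul, hwn, mul_one, Real.norm_eq_abs, abs_of_nonneg hτ.1]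
        linarith [hτ.2]
  have hder : ∀ τ : ℝ, HasDerivAt (fun τ : ℝ => ⟪M.fi (D.i j) (ζ + τ • w), y⟫)
      ⟪M.Phi (D.i j) (ζ + τ • w) y, w⟫ τ := by
    intro τ
    have h1 := (hasGrad M (D.i j) (ζ + τ • w) y).hasFDerivAt
    have h2 : HasDerivAt (fun τ : ℝ => ζ + τ • w) w τ := by
      have := ((hasDerivAt_id τ).smul_const w).const_add ζ
      simpa using this
    have h3 := h1.comp_hasDerivAt τ h2
    exact h3
  have hmono : ∀ τ ∈ Icc 0 (D.r1 / 4 - v1),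
      ⟪M.fi (D.i j) ζ, y⟫ ≤ ⟪M.fi (D.i j) (ζ + τ • w), y⟫ := by
    refine image_le_of_deriv_right_lt_deriv_boundary' (f := fun _ => ⟪M.fi (D.i j) ζ, y⟫)
      (f' := fun _ => 0) (B := fun τ : ℝ => ⟪M.fi (D.i j) (ζ + τ • w), y⟫)
      (B' := fun τ => ⟪M.Phi (D.i j) (ζ + τ • w) y, w⟫) continuousOn_const
      (fun x _ => hasDerivWithinAt_const _ _ _) (by simp)
      (fun x _ => (hder x).continuousAt.continuousWithinAt)
      (fun x _ => (hder x).hasDerivWithinAt) ?_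
    intro τ hτ heq
    have hmem := hball τ ⟨hτ.1, hτ.2.le⟩
    have h4 := (D.cone_up j hj y hy _ hmem (by
      have : D.val j y = ⟪M.fi (D.i j) (D.s j y), y⟫ := rfl
      rw [← this, ← heq]; exact hh)).1
    have h5 : ⟪ζ + τ • w - D.s j y, w⟫ = v1 + τ := by
      have : ζ + τ • w - D.s j y = (ζ - D.s j y) + τ • w := by abel
      rw [this, inner_add_left, inner_smul_left, real_inner_self_eq_norm_sq, hwn]
      simp [hv1]
    have h6 : ⟪ζ + τ • w - D.s j y, w⟫ * ⟪M.Phi (D.i j) (ζ + τ • w) y, w⟫ =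
        ⟪ζ + τ • w - D.s j y, D.p j⟫ * ⟪M.Phi (D.i j) (ζ + τ • w) y, D.p j⟫ := by
      conv_lhs => rw [hw, inner_smul_right, inner_smul_right]
      linear_combination (⟪ζ + τ • w - D.s j y, D.p j⟫ *
        ⟪M.Phi (D.i j) (ζ + τ • w) y, D.p j⟫) * hee
    rw [← h6, h5] at h4
    have h7 : 0 < v1 + τ := by linarith [hτ.1]
    exact (pos_iff_pos_of_mul_pos h4).1 h7
  exact fun τ hτ => ⟨hball τ hτ, lt_of_lt_of_le hh (hmono τ hτ)⟩

omit [CompactSpace S] [T2Space S] in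
theorem LSAD_climb (j : D.N) (hj : D.typ j = 1) (e : ℝ) (he : |e| = 1) (r : ℝ)
    (E : Set S) (hE1 : IsPreconnected E)
    (hE2 : ∀ ζ ∈ ball (D.z j + (e * (D.r1 / 4)) • D.p j) r, (M.e (D.i j)).symm ζ ∈ E) (y : E3)
    (hy : y ∈ ball y₀ D.ρ) (hE3 : ∀ x ∈ E, D.val j y < ⟪M.f x, y⟫)
    (hs : ‖D.s j y - D.z j‖ < r / 2) (ζ : E2) (hζ : ‖ζ - D.s j y‖ < D.r1 / 4)
    (hζ2 : ‖ζ - D.s j y‖ < r / 4)
    (hpos : 0 < ⟪ζ - D.s j y, e • D.p j⟫) (hh : D.val j y < ⟪M.fi (D.i j) ζ, y⟫) :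
    ∃ C : Set S, IsPreconnected C ∧ (∀ x ∈ C, D.val j y < ⟪M.f x, y⟫) ∧
      (M.e (D.i j)).symm ζ ∈ C ∧ E ⊆ C := by
  obtain ⟨T, hT, hT0, hT1⟩ := LSAD_up D j hj e he y hy ζ hζ hpos hh
  have hwn : ‖e • D.p j‖ = 1 := by rw [norm_smul, D.norm_p, mul_one, Real.norm_eq_abs, he]
  set P : Set E2 := (fun τ : ℝ => ζ + τ • (e • D.p j)) '' Icc 0 T with hP
  have hPsub : P ⊆ ball (D.z j) D.r1 := by
    rintro _ ⟨τ, hτ, rfl⟩
    exact (hT1 τ hτ).1
  have hPpre : IsPreconnected P :=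
    isPreconnected_Icc.image _ (by fun_prop)
  have hend : (M.e (D.i j)).symm (ζ + T • (e • D.p j)) ∈ E := by
    apply hE2
    rw [mem_ball, dist_eq_norm]
    have hv1 : |⟪ζ - D.s j y, e • D.p j⟫| ≤ ‖ζ - D.s j y‖ := by
      have := abs_real_inner_le_norm (ζ - D.s j y) (e • D.p j)
      rwa [hwn, mul_one] at this
    have h1 : ζ + T • (e • D.p j) - (D.z j + (e * (D.r1 / 4)) • D.p j) =
        (ζ - D.s j y) + (D.s j y - D.z j) +
          (-⟪ζ - D.s j y, e • D.p j⟫) • (e • D.p j) := by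
      rw [hT, sub_smul, neg_smul, smul_smul (D.r1 / 4) e, mul_comm (D.r1 / 4) e]
      abel
    rw [h1]
    calc ‖(ζ - D.s j y) + (D.s j y - D.z j) + (-⟪ζ - D.s j y, e • D.p j⟫) • (e • D.p j)‖
        ≤ ‖ζ - D.s j y‖ + ‖D.s j y - D.z j‖ +
          ‖(-⟪ζ - D.s j y, e • D.p j⟫) • (e • D.p j)‖ := norm_add₃_le
      _ < r := by
        rw [norm_smul, hwn, mul_one, Real.norm_eq_abs, abs_neg]
        linarith
  refine ⟨(M.e (D.i j)).symm '' P ∪ E, ?_, ?_, ?_, subset_union_right⟩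
  · refine IsPreconnected.union _ ⟨_, ⟨T, ⟨hT0, le_rfl⟩, rfl⟩, rfl⟩ hend ?_ hE1
    exact LSAD_pimage_pre (D.i j) (hPsub.trans (LSAD_ball5 D j)) hPpre
  · rintro x (⟨_, ⟨τ, hτ, rfl⟩, rfl⟩ | hx)
    · rw [f_symm M (D.i j) (LSAD_ball5 D j (hT1 τ hτ).1)]
      exact (hT1 τ hτ).2
    · exact hE3 x hx
  · left
    exact ⟨ζ, ⟨0, ⟨le_rfl, hT0⟩, by simp⟩, rfl⟩

theorem LSAD_one (j : D.Sd) : ∃ u v : D.Mx, ∀ᶠ y in 𝓝 y₀,
    T3 (fun x => ⟪M.f x, y⟫) (D.pt j y) (D.pt u y) (D.pt v y) ∧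
    ∃ C : Set S, IsPreconnected C ∧ (∀ x' ∈ C, D.val j y ≤ ⟪M.f x', y⟫) ∧ D.pt u y ∈ C ∧
      D.pt v y ∈ C := by
  obtain ⟨u, r, hr, E, hE1, hE2, hE3⟩ := LSAD_side D j j.2 1 (by simp)
  obtain ⟨v, r', hr', E', hE1', hE2', hE3'⟩ := LSAD_side D j j.2 (-1) (by simp)
  have hr1 := D.r1_pos
  have hlam := D.lam_pos
  have ev1 : ∀ᶠ y in 𝓝 y₀, D.s (j : D.N) y ∈ ball (D.z (j : D.N)) (min (r / 2) (r' / 2)) := by
    have h := LSAD_s_cont D (j : D.N)
    unfold ContinuousAt at h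
    rw [D.s_center] at h
    exact h.eventually (ball_mem_nhds _ (by positivity))
  have ev2 : ∀ᶠ y in 𝓝 y₀, y ∈ ball y₀ D.ρ := ball_mem_nhds _ D.ρ_pos
  refine ⟨u, v, ?_⟩
  filter_upwards [hE3, hE3', ev1, ev2] with y h1 h2 h3 h4
  rw [mem_ball, dist_eq_norm] at h3
  have h5 : ‖D.s j y - D.z j‖ < r / 2 := h3.trans_le (min_le_left _ _)
  have h6 : ‖D.s j y - D.z j‖ < r' / 2 := h3.trans_le (min_le_right _ _)
  have hsmem := D.s_mem j y h4
  have hsball : D.s j y ∈ ball (D.z j) D.r1 := ball_subset_ball (by linarith) hsmem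
  have hval : ⟪M.f (D.pt j y), y⟫ = D.val j y := ((val_eq M D j y h4).1).symm
  constructor
  · set dl : ℝ := min (D.r1 / 4) (min (r / 4) (r' / 4)) with hdl
    have hdlpos : 0 < dl := by positivity
    have hdl1 : dl ≤ D.r1 / 4 := min_le_left _ _
    have hdl2 : dl ≤ r / 4 := (min_le_right _ _).trans (min_le_left _ _)
    have hdl3 : dl ≤ r' / 4 := (min_le_right _ _).trans (min_le_right _ _)
    have hsub : ball (D.s j y) dl ⊆ ball (D.z j) D.r1 := by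
      intro ζ hζ
      rw [mem_ball, dist_eq_norm] at hζ hsmem ⊢
      calc ‖ζ - D.z j‖ = ‖(ζ - D.s j y) + (D.s j y - D.z j)‖ := by congr 1; abel
        _ ≤ ‖ζ - D.s j y‖ + ‖D.s j y - D.z j‖ := norm_add_le _ _
        _ < D.r1 := by linarith
    refine ⟨(M.e (D.i j)).symm '' ball (D.s j y) dl, ?_, ?_⟩
    · refine IsOpen.mem_nhds ?_ ⟨_, mem_ball_self hdlpos, rfl⟩
      exact (M.e (D.i j)).isOpen_image_symm_of_subset_target isOpen_ball
        ((hsub.trans (LSAD_ball5 D j)).trans (M.target _))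
    · rintro _ ⟨ζ, hζ, rfl⟩ hup
      have hζball := hsub hζ
      simp only [hval] at hup ⊢
      rw [f_symm M (D.i j) (LSAD_ball5 D j hζball)] at hup
      have hcone := (D.cone_up j j.2 y h4 ζ hζball hup).1
      rw [mem_ball, dist_eq_norm] at hζ
      have hne : ⟪ζ - D.s j y, D.p j⟫ ≠ 0 := by
        intro h0; rw [h0, zero_mul] at hcone; exact lt_irrefl _ hcone
      rcases lt_or_gt_of_ne hne with hneg | hpos
      · obtain ⟨C, hC1, hC2, hC3, hC4⟩ := LSAD_climb D j j.2 (-1) (by simp) r' E' hE1' hE2' y h4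
          h2.1 h6 ζ (by linarith) (by linarith) (by
            rw [neg_one_smul, inner_neg_right]; linarith) hup
        exact ⟨C, hC1, hC2, hC3, Or.inr (hC4 h2.2)⟩
      · obtain ⟨C, hC1, hC2, hC3, hC4⟩ := LSAD_climb D j j.2 1 (by simp) r E hE1 hE2 y h4
          h1.1 h5 ζ (by linarith) (by linarith) (by
            rw [one_smul]; exact hpos) hup
        exact ⟨C, hC1, hC2, hC3, Or.inl (hC4 h1.2)⟩
  · set P : Set E2 := (fun τ : ℝ => D.s j y + τ • D.p j) '' Icc (-(D.r1 / 4)) (D.r1 / 4) with hP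
    have hPball : ∀ τ ∈ Icc (-(D.r1 / 4)) (D.r1 / 4), D.s j y + τ • D.p j ∈ ball (D.z j) D.r1 := by
      intro τ hτ
      rw [mem_ball, dist_eq_norm] at hsmem ⊢
      have hτ' : |τ| ≤ D.r1 / 4 := abs_le.2 hτ
      calc ‖D.s j y + τ • D.p j - D.z j‖ = ‖(D.s j y - D.z j) + τ • D.p j‖ := by congr 1; abel
        _ ≤ ‖D.s j y - D.z j‖ + ‖τ • D.p j‖ := norm_add_le _ _
        _ < D.r1 := by
          rw [norm_smul, D.norm_p, mul_one, Real.norm_eq_abs]; linarith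
    have hPsub : P ⊆ ball (D.z j) D.r1 := by
      rintro _ ⟨τ, hτ, rfl⟩
      exact hPball τ hτ
    have hPpre : IsPreconnected P := isPreconnected_Icc.image _ (by fun_prop)
    have hpe : (M.e (D.i j)).symm (D.s j y + (D.r1 / 4) • D.p j) ∈ E := by
      apply hE2
      rw [mem_ball, dist_eq_norm, one_mul, add_sub_add_right_eq_sub]
      linarith
    have hpe' : (M.e (D.i j)).symm (D.s j y + (-(D.r1 / 4)) • D.p j) ∈ E' := by
      apply hE2'
      rw [mem_ball, dist_eq_norm, neg_one_mul, add_sub_add_right_eq_sub]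
      linarith
    refine ⟨E ∪ (M.e (D.i j)).symm '' P ∪ E', ?_, ?_, Or.inl (Or.inl h1.2), Or.inr h2.2⟩
    · refine IsPreconnected.union _ (Or.inr ⟨_, ⟨-(D.r1 / 4), ⟨le_rfl, by linarith⟩, rfl⟩, rfl⟩)
        hpe' ?_ hE1'
      refine IsPreconnected.union _ hpe ⟨_, ⟨D.r1 / 4, ⟨by linarith, le_rfl⟩, rfl⟩, rfl⟩ hE1 ?_
      exact LSAD_pimage_pre (D.i j) (hPsub.trans (LSAD_ball5 D j)) hPpre
    · rintro x ((hx | ⟨_, ⟨τ, hτ, rfl⟩, rfl⟩) | hx)
      · exact (h1.1 x hx).le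
      · rw [f_symm M (D.i j) (LSAD_ball5 D j (hPball τ hτ))]
        have h7 := D.asc j j.2 y h4 τ ((abs_le.2 hτ).trans (by linarith))
        have h8 : D.val j y = ⟪M.fi (D.i j) (D.s j y), y⟫ := rfl
        have h9 : 0 ≤ D.lam * τ ^ 2 := by positivity
        linarith
      · exact (h2.1 x hx).le

theorem exists_links : ∃ (u v : D.Sd → D.Mx), ∃ ρ' > 0, ρ' ≤ D.ρ ∧ ∀ y ∈ ball y₀ ρ', ∀ j : D.Sd,
    T3 (fun x => ⟪M.f x, y⟫) (D.pt j y) (D.pt (u j) y) (D.pt (v j) y) ∧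
    ∃ C : Set S, IsPreconnected C ∧ (∀ x' ∈ C, D.val j y ≤ ⟪M.f x', y⟫) ∧ D.pt (u j) y ∈ C ∧ D.pt (v j) y ∈ C := by
  choose u v huv using LSAD_one D
  have h1 := Filter.eventually_all.2 huv
  rw [Metric.eventually_nhds_iff_ball] at h1
  obtain ⟨ε, hε, h2⟩ := h1
  refine ⟨u, v, min ε D.ρ, lt_min hε D.ρ_pos, min_le_right _ _, ?_⟩
  intro y hy j
  exact h2 y (ball_subset_ball (min_le_left _ _) hy) j

end Lsad

end Topping
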