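import Mathlib
import Pool.Agent.Lib.MP_bea121_gt.TC.Lsad
import Pool.Agent.Lib.MP_bea121_gt.TC.Lmin
import Pool.Agent.Lib.MP_bea121_gt.TC.Lreg
import Pool.Agent.Lib.MP_bea121_gt.TC.Topo
import Pool.Agent.Lib.MP_bea121_gt.TC.Inv
import Pool.Agent.Lib.MP_bea121_gt.TC.Basic

/-!
# Combinatorial description of the superlevel sets near a good direction (MP_bea121_gt, module LTOP)
-/

open MeasureTheory Set Metric Topology Filter
open scoped RealInnerProductSpace Gradient ContDiff Manifold

noncomputable section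

namespace Topping

section Ltop
variable {S : Type} [TopologicalSpace S] [CompactSpace S] [T2Space S] {M : MongeSurf S} {y₀ : E3} (D : CritData M y₀)

theorem exists_topo : ∃ (u v : D.Sd → D.Mx), ∃ ρ' > 0, ρ' ≤ D.ρ ∧ ∀ y ∈ ball y₀ ρ', D.TopoAt u v y := by
  obtain ⟨u, v, ρ', hρ0, hρ, hlinks⟩ := exists_links D
  refine ⟨u, v, ρ', hρ0, hρ, ?_⟩
  intro y hy
  have hyD : y ∈ ball y₀ D.ρ := ball_subset_ball hρ hy
  have : LocallyConnectedSpace S := locConn M
  have hc : Continuous (fun x => ⟪M.f x, y⟫) := M.f_cont.inner continuous_const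
  have hvp : ∀ k : D.N, D.val k y = ⟪M.f (D.pt k y), y⟫ := fun k => (val_eq M D k y hyD).1
  set m : D.Mx → S := fun k => D.pt k y with hm
  set s : D.Sd → S := fun j => D.pt j y with hs
  have hinj : Function.Injective m := by
    intro k k' hkk
    by_contra hne
    have hne' : (k : D.N) ≠ k' := fun h => hne (Subtype.ext h)
    have hd := D.disj k k' hne'
    have hr1 := D.r1_pos
    have hmem : ∀ k : D.N, D.pt k y ∈ (M.e (D.i k)).symm '' ball (D.z k) D.r1 := by
      intro k
      exact ⟨D.s k y, ball_subset_ball (by linarith) (D.s_mem k y hyD), rfl⟩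
    have h1 : D.pt k y = D.pt k' y := hkk
    exact Set.disjoint_left.1 hd (hmem k) (h1 ▸ hmem k')
  have H0 : ∀ x, x ∉ range m → T0 (fun x => ⟪M.f x, y⟫) x := by
    intro x hx
    rcases reg_or_pt D y hyD x with ⟨k, rfl⟩ | ⟨i, hi, hphi⟩
    · have h3 : D.typ k = 0 ∨ D.typ k = 1 ∨ D.typ k = 2 := by
        generalize D.typ k = a
        revert a; decide
      rcases h3 with h | h | h
      · exact absurd ⟨⟨k, h⟩, rfl⟩ hx
      · exact top_sad0 D y hyD k h
      · exact (top_min D y hyD k h).1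
    · exact (top_regular M y x i hi hphi).1
  have H1 : ∀ x, x ∉ range m → x ∉ range s → T1 (fun x => ⟪M.f x, y⟫) x := by
    intro x hx hx'
    rcases reg_or_pt D y hyD x with ⟨k, rfl⟩ | ⟨i, hi, hphi⟩
    · have h3 : D.typ k = 0 ∨ D.typ k = 1 ∨ D.typ k = 2 := by
        generalize D.typ k = a
        revert a; decide
      rcases h3 with h | h | h
      · exact absurd ⟨⟨k, h⟩, rfl⟩ hx
      · exact absurd ⟨⟨k, h⟩, rfl⟩ hx'
      · exact (top_min D y hyD k h).2
    · exact (top_regular M y x i hi hphi).2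
  have H2 : ∀ k, T2 (fun x => ⟪M.f x, y⟫) (m k) := fun k => top_max D y hyD k k.2
  refine ⟨?_, ?_, ?_⟩
  · intro c x hx
    exact toMax_core (fun x => ⟪M.f x, y⟫) hc m H0 c x hx
  · rintro c k k' ⟨C, hC1, hC2, hC3, hC4⟩
    have h := fact_core (fun x => ⟪M.f x, y⟫) hc m hinj s u v H0 H1 H2
      (fun j => (hlinks y hy j).1) c k k' C hC1 hC2 hC3 hC4
    have he : (fun j : D.Sd => c ≤ D.val j y) = fun j : D.Sd => c ≤ ⟪M.f (s j), y⟫ := by
      funext j
      rw [hvp]
    rw [he]
    exact h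
  · intro j
    exact (hlinks y hy j).2

end Ltop

end Topping
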