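import Mathlib
import Pool.Agent.Lib.MP_bea121_gt.TC.Defs4
import Pool.Agent.Lib.MP_bea121_gt.TC.Basic
import Pool.Agent.Lib.MP_bea121_gt.TC.Inv

open MeasureTheory Set Metric Topology Filter
open scoped RealInnerProductSpace Gradient ContDiff Manifold

noncomputable section

namespace Topping

section Trace

/-- Linear algebra in the plane: if `v + ⟪a, v⟫ a + c H (B v) = 0` for all `v` then
`c det H tr B = -((1+|a|²) tr H - ⟪a, H a⟫)`. -/
theorem TRACE_algebra (H B : E2 →ₗ[ℝ] E2) (a : E2) (c : ℝ)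
    (h : ∀ v : E2, v + (⟪a, v⟫ : ℝ) • a + c • H (B v) = 0) :
    c * LinearMap.det H * LinearMap.trace ℝ E2 B =
      -((1 + ‖a‖ ^ 2) * LinearMap.trace ℝ E2 H - ⟪a, H a⟫) := by
  set b := (EuclideanSpace.basisFun (Fin 2) ℝ).toBasis with hb
  have hbj : ∀ j, b j = EuclideanSpace.single j (1 : ℝ) := by
    intro j; simp [hb]
  have ha : a = a 0 • EuclideanSpace.single 0 (1 : ℝ) + a 1 • EuclideanSpace.single 1 (1 : ℝ) := by
    ext i; fin_cases i <;> simp
  have exp : ∀ w : E2, w = w 0 • EuclideanSpace.single 0 (1 : ℝ) + w 1 • EuclideanSpace.single 1 (1 : ℝ) := by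
    intro w; ext i; fin_cases i <;> simp
  set h00 := H (EuclideanSpace.single 0 (1 : ℝ)) 0 with h00d
  set h10 := H (EuclideanSpace.single 0 (1 : ℝ)) 1 with h10d
  set h01 := H (EuclideanSpace.single 1 (1 : ℝ)) 0 with h01d
  set h11 := H (EuclideanSpace.single 1 (1 : ℝ)) 1 with h11d
  set b00 := B (EuclideanSpace.single 0 (1 : ℝ)) 0 with b00d
  set b10 := B (EuclideanSpace.single 0 (1 : ℝ)) 1 with b10d
  set b01 := B (EuclideanSpace.single 1 (1 : ℝ)) 0 with b01d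
  set b11 := B (EuclideanSpace.single 1 (1 : ℝ)) 1 with b11d
  have hdet : LinearMap.det H = h00 * h11 - h01 * h10 := by
    rw [← LinearMap.det_toMatrix b, Matrix.det_fin_two]
    simp only [LinearMap.toMatrix_apply, hbj]
    simp [hb, EuclideanSpace.basisFun_repr, h00d, h10d, h01d, h11d]
  have htrH : LinearMap.trace ℝ E2 H = h00 + h11 := by
    rw [LinearMap.trace_eq_matrix_trace ℝ b, Matrix.trace_fin_two]
    simp only [LinearMap.toMatrix_apply, hbj]
    simp [hb, EuclideanSpace.basisFun_repr, h00d, h11d]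
  have htrB : LinearMap.trace ℝ E2 B = b00 + b11 := by
    rw [LinearMap.trace_eq_matrix_trace ℝ b, Matrix.trace_fin_two]
    simp only [LinearMap.toMatrix_apply, hbj]
    simp [hb, EuclideanSpace.basisFun_repr, b00d, b11d]
  have hn : ‖a‖ ^ 2 = a 0 ^ 2 + a 1 ^ 2 := by
    rw [EuclideanSpace.norm_eq, Real.sq_sqrt (by positivity)]
    simp [Fin.sum_univ_two]
  have hHa : ∀ w : E2, H w = w 0 • H (EuclideanSpace.single 0 (1 : ℝ)) +
      w 1 • H (EuclideanSpace.single 1 (1 : ℝ)) := by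
    intro w
    conv_lhs => rw [exp w]
    rw [map_add, map_smul, map_smul]
  have hin : ⟪a, H a⟫ = a 0 * (a 0 * h00 + a 1 * h01) + a 1 * (a 0 * h10 + a 1 * h11) := by
    rw [hHa a]
    simp only [PiLp.inner_apply, Fin.sum_univ_two, PiLp.add_apply, PiLp.smul_apply, smul_eq_mul,
      RCLike.inner_apply, conj_trivial]
    rw [← h00d, ← h10d, ← h01d, ← h11d]
    ring
  have e0 := h (EuclideanSpace.single 0 (1 : ℝ))
  have e1 := h (EuclideanSpace.single 1 (1 : ℝ))
  rw [hHa (B _)] at e0 e1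
  have e00 := congrArg (fun w : E2 => w 0) e0
  have e01 := congrArg (fun w : E2 => w 1) e0
  have e10 := congrArg (fun w : E2 => w 0) e1
  have e11 := congrArg (fun w : E2 => w 1) e1
  simp only [PiLp.add_apply, PiLp.smul_apply, smul_eq_mul, PiLp.zero_apply,
    ← h00d, ← h10d, ← h01d, ← h11d, ← b00d, ← b10d, ← b01d, ← b11d] at e00 e01 e10 e11
  have i0 : (⟪a, EuclideanSpace.single 0 (1 : ℝ)⟫ : ℝ) = a 0 := by
    rw [EuclideanSpace.inner_single_right]; simp
  have i1 : (⟪a, EuclideanSpace.single 1 (1 : ℝ)⟫ : ℝ) = a 1 := by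
    rw [EuclideanSpace.inner_single_right]; simp
  rw [i0] at e00 e01
  rw [i1] at e10 e11
  have s00 : (EuclideanSpace.single 0 (1 : ℝ) : E2) 0 = 1 := by simp
  have s01 : (EuclideanSpace.single 0 (1 : ℝ) : E2) 1 = 0 := by simp
  have s10 : (EuclideanSpace.single 1 (1 : ℝ) : E2) 0 = 0 := by simp
  have s11 : (EuclideanSpace.single 1 (1 : ℝ) : E2) 1 = 1 := by simp
  rw [s00] at e00
  rw [s01] at e01
  rw [s10] at e10
  rw [s11] at e11
  rw [hdet, htrH, htrB, hn, hin]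
  linear_combination h11 * e00 - h01 * e01 - h10 * e10 + h00 * e11

variable {S : Type} [TopologicalSpace S] {M : MongeSurf S} {y₀ : E3} (D : CritData M y₀)

theorem TRACE_grad_diff (g : E2 → ℝ) (hg : ContDiff ℝ 2 g) : Differentiable ℝ (∇ g) := by
  have h1 : ContDiff ℝ 1 (fderiv ℝ g) := hg.fderiv_right (by norm_num)
  have h2 : Differentiable ℝ (fderiv ℝ g) := h1.differentiable (by norm_num)
  have : (∇ g) = fun z => (InnerProductSpace.toDual ℝ E2).symm (fderiv ℝ g z) := by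
    funext z; rfl
  rw [this]
  exact (InnerProductSpace.toDual ℝ E2).symm.differentiable.comp h2

theorem TRACE_in (k : D.N) {y : E3} (hy : y ∈ ball y₀ D.ρ) :
    D.s k y ∈ ball (0 : E2) (5 * M.R (D.i k)) := by
  have h1 := D.s_mem k y hy
  have h2 : D.s k y ∈ ball (D.z k) D.r1 := ball_subset_ball (by linarith [D.r1_pos]) h1
  have h3 := D.ball_sub k h2
  exact ball_subset_ball (by linarith [M.R_pos (D.i k)]) h3

theorem TRACE_pt_cont (k : D.N) {y : E3} (hy : y ∈ ball y₀ D.ρ) : ContinuousAt (D.pt k) y := by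
  have h1 : ContinuousAt (D.s k) y :=
    (D.s_c1 k).continuousOn.continuousAt (isOpen_ball.mem_nhds hy)
  have h2 : ContinuousAt (M.e (D.i k)).symm (D.s k y) :=
    (M.e (D.i k)).symm.continuousAt (M.target _ (TRACE_in D k hy))
  exact ContinuousAt.comp (f := D.s k) (g := (M.e (D.i k)).symm) h2 h1

theorem TRACE_X_diff (k : D.N) {y : E3} (hy : y ∈ ball y₀ D.ρ) : DifferentiableAt ℝ (D.X k) y := by
  have h1 : DifferentiableAt ℝ (D.s k) y :=
    ((D.s_c1 k).contDiffAt (isOpen_ball.mem_nhds hy)).differentiableAt (by norm_num)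
  have h2 : Differentiable ℝ (M.fi (D.i k)) := (fi_contDiff M (D.i k)).differentiable (by norm_num)
  exact (h2 (D.s k y)).comp y h1

theorem trace_formula (k : D.N) (y : E3) (hy : y ∈ ball y₀ D.ρ) (hg : y ∉ M.degen)
    (i : M.ι) (hi : D.pt k y ∈ M.P i (M.R i)) :
    |LinearMap.trace ℝ E3 (fderiv ℝ (D.X k) y : E3 →ₗ[ℝ] E3)| = M.θ i (M.e i (D.pt k y)) y := by
  have hR := M.R_pos i
  -- near y the critical point is in the patch i
  have hev : ∀ᶠ y' in 𝓝 y, y' ∈ ball y₀ D.ρ ∧ D.pt k y' ∈ M.P i (M.R i) :=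
    (isOpen_ball.eventually_mem hy).and
      ((TRACE_pt_cont D k hy).eventually ((P_open M i (M.R i)).mem_nhds hi))
  have hXf : ∀ y' ∈ ball y₀ D.ρ, D.X k y' = M.f (D.pt k y') := by
    intro y' hy'
    exact (f_symm M (D.i k) (TRACE_in D k hy')).symm
  have hP5 : ∀ y', D.pt k y' ∈ M.P i (M.R i) → D.pt k y' ∈ M.P i (5 * M.R i) := by
    intro y' h
    exact P_mono M i (by linarith) h
  -- the local coordinate
  have hζ : ∀ y', y' ∈ ball y₀ D.ρ → D.pt k y' ∈ M.P i (M.R i) →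
      M.pr i (D.X k y' - M.o i) = M.e i (D.pt k y') ∧
      D.X k y' = M.fi i (M.e i (D.pt k y')) := by
    intro y' hy' hp
    have h1 : D.X k y' = M.fi i (M.e i (D.pt k y')) := by
      rw [hXf y' hy', f_e M i (hP5 y' hp)]
    refine ⟨?_, h1⟩
    rw [h1, MongeSurf.fi]
    have : M.o i + M.L i (M.e i (D.pt k y')) + M.g i (M.e i (D.pt k y')) • M.c i - M.o i =
      M.L i (M.e i (D.pt k y')) + M.g i (M.e i (D.pt k y')) • M.c i := by abel
    rw [this]
    exact (pr_L M i _ _).1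
  set z := M.e i (D.pt k y) with hz
  set X' := fderiv ℝ (D.X k) y with hX'
  have hX : HasFDerivAt (D.X k) X' y := (TRACE_X_diff D k hy).hasFDerivAt
  set prL : E3 →L[ℝ] E2 := ContinuousLinearMap.adjoint (M.L i).toContinuousLinearMap with hprL
  have hpr : ∀ q, M.pr i q = prL q := fun q => rfl
  set ζ : E3 → E2 := fun y' => prL (D.X k y' - M.o i) with hζdef
  have hζy : ζ y = z := (hζ y hy hi).1
  have hζd : HasFDerivAt ζ (prL.comp X') y := by
    have := prL.hasFDerivAt.comp y (hX.sub_const (M.o i))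
    exact this
  set Z := prL.comp X' with hZ
  -- X = fi i ∘ ζ near y
  have hXζ : D.X k =ᶠ[𝓝 y] fun y' => M.fi i (ζ y') := by
    filter_upwards [hev] with y' hy'
    have := hζ y' hy'.1 hy'.2
    rw [hζdef]; show D.X k y' = M.fi i (M.pr i (D.X k y' - M.o i))
    rw [this.1]; exact this.2
  set A : E2 →L[ℝ] E3 := (M.L i).toContinuousLinearMap +
      (innerSL ℝ (∇ (M.g i) z)).smulRight (M.c i) with hA
  have hX2 : X' = A.comp Z := by
    have h1 : HasFDerivAt (fun y' => M.fi i (ζ y')) (A.comp Z) y := by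
      have h2 := fi_deriv M i (ζ y)
      rw [hζy] at h2
      have h3 : HasFDerivAt (M.fi i) A (ζ y) := by rw [hζy]; exact h2
      exact h3.comp y hζd
    exact hX.unique (h1.congr_of_eventuallyEq hXζ)
  -- criticality
  have hcrit : ∀ y', y' ∈ ball y₀ D.ρ → D.pt k y' ∈ M.P i (M.R i) →
      M.Phi i (ζ y') y' = 0 := by
    intro y' hy' hp
    have h1 : ζ y' = M.e i (D.pt k y') := (hζ y' hy' hp).1
    rw [h1]
    have h2 := val_eq M D k y' hy'
    refine crit_inv M (D.i k) i (D.pt k y') ?_ (hP5 y' hp) y' ?_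
    · exact P_mono M _ (by linarith [M.R_pos (D.i k)]) h2.2.1
    · rw [h2.2.2]; exact D.s_zero k y' hy'
  have hΦ : (fun y' => prL y' + ⟪M.c i, y'⟫ • ∇ (M.g i) (ζ y')) =ᶠ[𝓝 y] fun _ => (0 : E2) := by
    filter_upwards [hev] with y' hy'
    have := hcrit y' hy'.1 hy'.2
    rw [Phi_eq] at this
    exact this
  have hgrad : HasFDerivAt (∇ (M.g i)) (M.hess i z) (ζ y) := by
    rw [hζy]
    exact (TRACE_grad_diff (M.g i) (M.g_smooth i) z).hasFDerivAt
  have hgz : HasFDerivAt (fun y' => ∇ (M.g i) (ζ y')) ((M.hess i z).comp Z) y := hgrad.comp y hζd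
  have hin : HasFDerivAt (fun y' : E3 => (⟪M.c i, y'⟫ : ℝ)) (innerSL ℝ (M.c i)) y :=
    (innerSL ℝ (M.c i)).hasFDerivAt
  have hsum := (prL.hasFDerivAt (x := y)).add (hin.smul hgz)
  have hzero : HasFDerivAt (fun y' => prL y' + ⟪M.c i, y'⟫ • ∇ (M.g i) (ζ y')) (0 : E3 →L[ℝ] E2) y :=
    (hasFDerivAt_const (0 : E2) y).congr_of_eventuallyEq hΦ
  have huniq := hsum.unique hzero
  have heq : ∀ w : E3, prL w + (⟪M.c i, w⟫ • ∇ (M.g i) z + ⟪M.c i, y⟫ • M.hess i z (Z w)) = 0 := by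
    intro w
    have := congrArg (fun T : E3 →L[ℝ] E2 => T w) huniq
    simp only [_root_.add_apply, _root_.smul_apply,
      ContinuousLinearMap.smulRight_apply, ContinuousLinearMap.comp_apply, innerSL_apply_apply,
      _root_.zero_apply] at this
    rw [hζy] at this
    rw [← this]
    abel
  -- nondegeneracy
  have hzball : z ∈ ball (0 : E2) (M.R i) := (symm_e M i hi).2
  have hΦy : M.Phi i z y = 0 := by
    have := hcrit y hy hi
    rwa [hζy] at this
  have hdet : M.hdet i z ≠ 0 := by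
    intro h0
    exact hg ⟨i, z, ball_subset_closedBall (ball_subset_ball (by linarith) hzball), hΦy, h0⟩
  have hc : ⟪M.c i, y⟫ ≠ 0 := by
    intro h0
    have h1 := (y_norm_le M i z y hΦy).2
    rw [h0, abs_zero, mul_zero] at h1
    exact (D.y_norm y hy).1 (norm_le_zero_iff.1 h1)
  -- the trace
  have htr : LinearMap.trace ℝ E3 (X' : E3 →ₗ[ℝ] E3) =
      LinearMap.trace ℝ E2 ((Z : E3 →ₗ[ℝ] E2) ∘ₗ (A : E2 →ₗ[ℝ] E3)) := by
    rw [hX2]
    have : ((A.comp Z : E3 →L[ℝ] E3) : E3 →ₗ[ℝ] E3) = (A : E2 →ₗ[ℝ] E3) ∘ₗ (Z : E3 →ₗ[ℝ] E2) := rfl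
    rw [this, LinearMap.trace_comp_comm']
  have key := TRACE_algebra (M.hess i z : E2 →ₗ[ℝ] E2)
    ((Z : E3 →ₗ[ℝ] E2) ∘ₗ (A : E2 →ₗ[ℝ] E3)) (∇ (M.g i) z) ⟪M.c i, y⟫ (by
      intro v
      have h1 := heq (A v)
      have hAv : A v = M.L i v + (⟪∇ (M.g i) z, v⟫ : ℝ) • M.c i := by
        simp [hA]
      have h2 := pr_L M i v ⟪∇ (M.g i) z, v⟫
      have h3 : prL (A v) = v := by
        rw [hAv]; exact h2.1
      have h4 : (⟪M.c i, A v⟫ : ℝ) = ⟪∇ (M.g i) z, v⟫ := by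
        rw [hAv]; exact h2.2
      rw [h3, h4] at h1
      rw [← h1]
      simp only [LinearMap.comp_apply, ContinuousLinearMap.coe_coe]
      abel)
  rw [htr]
  have hnum : M.num i z = (1 + ‖∇ (M.g i) z‖ ^ 2) * LinearMap.trace ℝ E2 (M.hess i z : E2 →ₗ[ℝ] E2) -
    ⟪∇ (M.g i) z, M.hess i z (∇ (M.g i) z)⟫ := rfl
  have key2 : ⟪M.c i, y⟫ * M.hdet i z *
      LinearMap.trace ℝ E2 ((Z : E3 →ₗ[ℝ] E2) ∘ₗ (A : E2 →ₗ[ℝ] E3)) = - M.num i z := by
    rw [hnum]; exact key
  have hpos : 0 < |⟪M.c i, y⟫| * |M.hdet i z| := mul_pos (abs_pos.2 hc) (abs_pos.2 hdet)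
  rw [MongeSurf.θ, eq_div_iff hpos.ne', ← abs_neg (M.num i z), ← key2, abs_mul, abs_mul]
  ring

end Trace

end Topping
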