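import Mathlib
import Pool.Agent.Lib.MP_bea121_gt.TC.Defs4
import Pool.Agent.Lib.MP_bea121_gt.TC.Basic

open MeasureTheory Set Metric Topology Filter
open scoped RealInnerProductSpace Gradient ContDiff Manifold

noncomputable section

namespace Topping

section Val
variable {S : Type} [TopologicalSpace S] {M : MongeSurf S} {y₀ : E3} (D : CritData M y₀)

theorem X_c1 (k : D.N) : ContDiffOn ℝ 1 (D.X k) (ball y₀ D.ρ) := by
  have h1 : ContDiff ℝ 1 (M.fi (D.i k)) := (fi_contDiff M (D.i k)).of_le (by norm_num)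
  exact h1.comp_contDiffOn (D.s_c1 k)

theorem val_hasGrad (k : D.N) (y : E3) (hy : y ∈ ball y₀ D.ρ) : HasGradientAt (D.val k) (D.X k y) y := by
  rw [hasGradientAt_iff_hasFDerivAt]
  have hs : HasFDerivAt (D.s k) (fderiv ℝ (D.s k) y) y :=
    (((D.s_c1 k).contDiffAt (isOpen_ball.mem_nhds hy)).differentiableAt (by norm_num)).hasFDerivAt
  have hfi : HasFDerivAt (M.fi (D.i k)) (fderiv ℝ (M.fi (D.i k)) (D.s k y)) (D.s k y) :=
    ((fi_contDiff M (D.i k)).differentiable (by norm_num) _).hasFDerivAt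
  have hX := hfi.comp y hs
  have hz : ∀ v : E2, (⟪fderiv ℝ (M.fi (D.i k)) (D.s k y) v, y⟫ : ℝ) = 0 := by
    intro v
    have h1 := hasGrad M (D.i k) (D.s k y) y
    rw [D.s_zero k y hy, hasGradientAt_iff_hasFDerivAt, map_zero] at h1
    have h2 := HasFDerivAt.inner ℝ hfi (hasFDerivAt_const y (D.s k y))
    have h3 := h1.unique h2
    have h4 := congrArg (fun T : E2 →L[ℝ] ℝ => T v) h3
    simp only [ContinuousLinearMap.comp_apply, ContinuousLinearMap.prod_apply,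
      fderivInnerCLM_apply, _root_.zero_apply, inner_zero_right, zero_add] at h4
    exact h4.symm
  have h5 := HasFDerivAt.inner ℝ hX (hasFDerivAt_id y)
  have h6 : HasFDerivAt (D.val k) ((fderivInnerCLM ℝ ((M.fi (D.i k) ∘ D.s k) y, id y)).comp
      (((fderiv ℝ (M.fi (D.i k)) (D.s k y)).comp (fderiv ℝ (D.s k) y)).prod
        (ContinuousLinearMap.id ℝ E3))) y := h5
  have e : (InnerProductSpace.toDual ℝ E3) (D.X k y) =
      (fderivInnerCLM ℝ ((M.fi (D.i k) ∘ D.s k) y, id y)).comp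
      (((fderiv ℝ (M.fi (D.i k)) (D.s k y)).comp (fderiv ℝ (D.s k) y)).prod
        (ContinuousLinearMap.id ℝ E3)) := by
    apply ContinuousLinearMap.ext
    intro w
    simp only [ContinuousLinearMap.comp_apply, ContinuousLinearMap.prod_apply,
      fderivInnerCLM_apply, InnerProductSpace.toDual_apply_apply, id, ContinuousLinearMap.id_apply]
    rw [hz, add_zero]
    rfl
  rw [e]
  exact h6

theorem VAL_one (k : D.N) (η : ℝ) (hη : 0 < η) : ∃ r₀ > 0, r₀ ≤ D.ρ / 4 ∧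
    ∀ y ∈ ball y₀ (D.ρ / 2), ∀ w : E3, ‖w‖ < r₀ →
    |D.val k (y + w) + D.val k (y - w) - 2 * D.val k y - ⟪fderiv ℝ (D.X k) y w, w⟫| ≤ η * ‖w‖ ^ 2 := by
  have hρ := D.ρ_pos
  have hcont : ContinuousOn (fderiv ℝ (D.X k)) (closedBall y₀ (3 * D.ρ / 4)) :=
    ((X_c1 D k).continuousOn_fderiv_of_isOpen isOpen_ball (by norm_num)).mono
      (closedBall_subset_ball (by linarith))
  have hunif := (isCompact_closedBall y₀ (3 * D.ρ / 4)).uniformContinuousOn_of_continuous hcont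
  rw [Metric.uniformContinuousOn_iff] at hunif
  obtain ⟨δ, hδ, hδ'⟩ := hunif (η / 2) (by linarith)
  refine ⟨min δ (D.ρ / 4), lt_min hδ (by linarith), min_le_right _ _, ?_⟩
  intro y hy w hw
  have hw1 : ‖w‖ < δ := lt_of_lt_of_le hw (min_le_left _ _)
  have hw2 : ‖w‖ < D.ρ / 4 := lt_of_lt_of_le hw (min_le_right _ _)
  have hyn : ‖y - y₀‖ < D.ρ / 2 := by rwa [mem_ball, dist_eq_norm] at hy
  have hy34 : y ∈ closedBall y₀ (3 * D.ρ / 4) := by
    rw [mem_closedBall, dist_eq_norm]; linarith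
  -- points near y
  have hnear : ∀ y' ∈ closedBall y ‖w‖, y' ∈ closedBall y₀ (3 * D.ρ / 4) ∧ y' ∈ ball y₀ D.ρ ∧
      ‖fderiv ℝ (D.X k) y' - fderiv ℝ (D.X k) y‖ ≤ η / 2 := by
    intro y' hy'
    rw [mem_closedBall, dist_eq_norm] at hy'
    have h1 : ‖y' - y₀‖ ≤ ‖y' - y‖ + ‖y - y₀‖ := by
      have := norm_add_le (y' - y) (y - y₀)
      simpa using this
    have h2 : y' ∈ closedBall y₀ (3 * D.ρ / 4) := by
      rw [mem_closedBall, dist_eq_norm]; linarith
    refine ⟨h2, by rw [mem_ball, dist_eq_norm]; linarith, ?_⟩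
    have := hδ' y' h2 y hy34 (by rw [dist_eq_norm]; linarith)
    rw [dist_eq_norm] at this
    exact this.le
  have hmv : ∀ y₁ ∈ closedBall y ‖w‖, ∀ y₂ ∈ closedBall y ‖w‖,
      ‖D.X k y₁ - D.X k y₂ - fderiv ℝ (D.X k) y (y₁ - y₂)‖ ≤ η / 2 * ‖y₁ - y₂‖ := by
    intro y₁ h₁ y₂ h₂
    have hder : ∀ y' ∈ closedBall y ‖w‖, HasFDerivWithinAt
        (fun y' => D.X k y' - fderiv ℝ (D.X k) y y')
        (fderiv ℝ (D.X k) y' - fderiv ℝ (D.X k) y) (closedBall y ‖w‖) y' := by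
      intro y' hy'
      have h1 : HasFDerivAt (D.X k) (fderiv ℝ (D.X k) y') y' :=
        (((X_c1 D k).contDiffAt (isOpen_ball.mem_nhds (hnear y' hy').2.1)).differentiableAt
          (by norm_num)).hasFDerivAt
      exact (h1.sub (fderiv ℝ (D.X k) y).hasFDerivAt).hasFDerivWithinAt
    have := (convex_closedBall y ‖w‖).norm_image_sub_le_of_norm_hasFDerivWithin_le (𝕜 := ℝ) hder
      (fun y' hy' => (hnear y' hy').2.2) h₂ h₁
    have e : D.X k y₁ - fderiv ℝ (D.X k) y y₁ - (D.X k y₂ - fderiv ℝ (D.X k) y y₂) =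
        D.X k y₁ - D.X k y₂ - fderiv ℝ (D.X k) y (y₁ - y₂) := by
      rw [map_sub]; abel
    rw [e] at this
    exact this
  -- the one variable function
  set A := fderiv ℝ (D.X k) y with hA
  set φ : ℝ → ℝ := fun t => D.val k (y + t • w) + D.val k (y + t • (-w)) - 2 * D.val k y -
    t ^ 2 * ⟪A w, w⟫ with hφ
  have hmem : ∀ t ∈ Icc (0 : ℝ) 1, ∀ v : E3, ‖v‖ = ‖w‖ → y + t • v ∈ closedBall y ‖w‖ := by
    intro t ht v hv
    rw [mem_closedBall, dist_eq_norm, add_sub_cancel_left, norm_smul, Real.norm_eq_abs,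
      abs_of_nonneg ht.1, hv]
    exact mul_le_of_le_one_left (norm_nonneg _) ht.2
  have hline : ∀ v : E3, ∀ t : ℝ, HasDerivAt (fun t : ℝ => y + t • v) v t := by
    intro v t
    have := ((hasDerivAt_id t).smul_const v).const_add y
    simpa using this
  have hvald : ∀ t ∈ Icc (0 : ℝ) 1, ∀ v : E3, ‖v‖ = ‖w‖ →
      HasDerivAt (fun t : ℝ => D.val k (y + t • v)) ⟪D.X k (y + t • v), v⟫ t := by
    intro t ht v hv
    have h1 := val_hasGrad D k (y + t • v) (hnear _ (hmem t ht v hv)).2.1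
    rw [hasGradientAt_iff_hasFDerivAt] at h1
    have h2 := h1.comp_hasDerivAt t (hline v t)
    rw [InnerProductSpace.toDual_apply_apply] at h2
    exact h2
  set φ' : ℝ → ℝ := fun t => ⟪D.X k (y + t • w), w⟫ + ⟪D.X k (y + t • (-w)), -w⟫ -
    2 * t * ⟪A w, w⟫ with hφ'
  have hφd : ∀ t ∈ Icc (0 : ℝ) 1, HasDerivWithinAt φ (φ' t) (Icc 0 1) t := by
    intro t ht
    have h1 := hvald t ht w rfl
    have h2 := hvald t ht (-w) (norm_neg w)
    have h3 : HasDerivAt (fun t : ℝ => t ^ 2 * ⟪A w, w⟫) (2 * t * ⟪A w, w⟫) t := by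
      have := (hasDerivAt_pow 2 t).mul_const (⟪A w, w⟫ : ℝ)
      simpa using this
    exact (((h1.add h2).sub_const (2 * D.val k y)).sub h3).hasDerivWithinAt
  have hbound : ∀ t ∈ Ico (0 : ℝ) 1, ‖φ' t‖ ≤ η * ‖w‖ ^ 2 := by
    intro t ht
    have ht' : t ∈ Icc (0 : ℝ) 1 := ⟨ht.1, ht.2.le⟩
    have h1 := hmv _ (hmem t ht' w rfl) _ (hmem t ht' (-w) (norm_neg w))
    have e1 : y + t • w - (y + t • (-w)) = (2 * t) • w := by
      rw [smul_neg, two_mul, add_smul]; abel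
    rw [e1, map_smul] at h1
    have e2 : φ' t = ⟪D.X k (y + t • w) - D.X k (y + t • (-w)) - (2 * t) • A w, w⟫ := by
      rw [inner_sub_left, inner_sub_left, real_inner_smul_left]
      simp only [hφ']
      rw [inner_neg_right]
      ring
    rw [e2]
    have h2 := norm_inner_le_norm (𝕜 := ℝ) (D.X k (y + t • w) - D.X k (y + t • (-w)) - (2 * t) • A w) w
    refine h2.trans ?_
    have h3 : ‖(2 * t) • w‖ ≤ 2 * ‖w‖ := by
      rw [norm_smul, Real.norm_eq_abs, abs_of_nonneg (by linarith [ht.1])]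
      have := norm_nonneg w
      nlinarith [ht.2]
    have h4 : ‖D.X k (y + t • w) - D.X k (y + t • (-w)) - (2 * t) • A w‖ ≤ η * ‖w‖ := by
      refine h1.trans ?_
      nlinarith
    calc _ ≤ (η * ‖w‖) * ‖w‖ := mul_le_mul_of_nonneg_right h4 (norm_nonneg _)
      _ = η * ‖w‖ ^ 2 := by ring
  have hfin := norm_image_sub_le_of_norm_deriv_le_segment_01' hφd hbound
  have e3 : φ 1 - φ 0 = D.val k (y + w) + D.val k (y - w) - 2 * D.val k y - ⟪A w, w⟫ := by
    rw [hφ]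
    simp only [one_smul, zero_smul, add_zero, one_pow, one_mul]
    rw [← sub_eq_add_neg]
    ring
  rw [e3, Real.norm_eq_abs] at hfin
  exact hfin

theorem second_val (η : ℝ) (hη : 0 < η) : ∃ r₀ > 0, r₀ ≤ D.ρ / 2 ∧ ∀ k, ∀ y ∈ ball y₀ (D.ρ / 2), ∀ w : E3, ‖w‖ < r₀ →
    |D.val k (y + w) + D.val k (y - w) - 2 * D.val k y - ⟪fderiv ℝ (D.X k) y w, w⟫| ≤ η * ‖w‖ ^ 2 := by
  have hρ := D.ρ_pos
  choose r hr hr1 hr2 using fun k => VAL_one D k η hη
  by_cases hN : IsEmpty D.N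
  · exact ⟨D.ρ / 2, by linarith, le_rfl, fun k => (hN.false k).elim⟩
  · rw [not_isEmpty_iff] at hN
    obtain ⟨k₀, hk₀⟩ := Finite.exists_min r
    refine ⟨r k₀, hr k₀, by linarith [hr1 k₀], fun k y hy w hw => hr2 k y hy w ?_⟩
    exact lt_of_lt_of_le hw (hk₀ k)
end Val

end Topping
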