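import Pool.Agent.Lib.MP_bea121_gt.TC.Defs4
import Pool.Agent.Lib.MP_bea121_gt.TC.Basic
import Pool.Agent.Lib.MP_bea121_gt.TC.Inv
import Pool.Agent.Lib.MP_bea121_gt.TC.Path
import Pool.Agent.Lib.MP_bea121_gt.TC.Level
import Pool.Agent.Lib.MP_bea121_gt.TC.Width
import Pool.Agent.Lib.MP_bea121_gt.TC.Cint
import Pool.Agent.Lib.MP_bea121_gt.TC.Cdata
import Pool.Agent.Lib.MP_bea121_gt.TC.Ltop
import Pool.Agent.Lib.MP_bea121_gt.TC.Conv
import Pool.Agent.Lib.MP_bea121_gt.TC.Val
import Pool.Agent.Lib.MP_bea121_gt.TC.Sec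
import Pool.Agent.Lib.MP_bea121_gt.TC.Trace
import Pool.Agent.Lib.MP_bea121_gt.TC.Sard

/-!
# Local data near a good direction, bad part, width (MP_bea121_gt, assembly part A)
-/

open MeasureTheory Set Metric Topology Filter
open scoped RealInnerProductSpace Gradient ContDiff Manifold

noncomputable section

namespace Topping

/-- integrated second difference -/
def Dint (F : E3 → ℝ) (r : ℝ) (y : E3) : ℝ := ∫ w in ball (0 : E3) r, (F (y + w) + F (y - w) - 2 * F y)

theorem ball_eq_closedBall_ae (r : ℝ) : (ball (0 : E3) r : Set E3) =ᵐ[volume] closedBall (0 : E3) r := by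
  rcases eq_or_ne r 0 with h | h
  · subst h
    simp only [ball_zero, closedBall_zero]
    refine (ae_eq_set.2 ⟨by simp, by simp⟩)
  · refine (ae_eq_set.2 ⟨?_, ?_⟩)
    · rw [sdiff_eq_empty.2 ball_subset_closedBall]; simp
    · rw [closedBall_sdiff_ball]
      exact Measure.addHaar_sphere_of_ne_zero _ _ h

theorem Dint_closed (F : E3 → ℝ) (r : ℝ) (y : E3) :
    Dint F r y = ∫ w in closedBall (0 : E3) r, (F (y + w) + F (y - w) - 2 * F y) := by
  unfold Dint
  exact setIntegral_congr_set (ball_eq_closedBall_ae r)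

theorem Dint_cont (F : E3 → ℝ) (hF : Continuous F) (r : ℝ) : Continuous (Dint F r) := by
  have : Dint F r = fun y => ∫ w in closedBall (0 : E3) r, (F (y + w) + F (y - w) - 2 * F y) := by
    funext y; exact Dint_closed F r y
  rw [this]
  apply continuous_parametric_integral_of_continuous
  · fun_prop
  · exact isCompact_closedBall _ _

theorem Dint_integrand (F : E3 → ℝ) (r : ℝ) (y : E3) (hF : ContinuousOn F (closedBall y r)) :
    IntegrableOn (fun w => F (y + w) + F (y - w) - 2 * F y) (ball (0 : E3) r) := by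
  have h : IntegrableOn (fun w => F (y + w) + F (y - w) - 2 * F y) (closedBall (0 : E3) r) := by
    apply ContinuousOn.integrableOn_compact (isCompact_closedBall _ _)
    apply ContinuousOn.sub
    · apply ContinuousOn.add
      · apply hF.comp (by fun_prop)
        intro w hw
        simp only [mem_closedBall, dist_eq_norm, sub_zero, add_sub_cancel_left] at hw ⊢
        exact hw
      · apply hF.comp (by fun_prop)
        intro w hw
        simp only [mem_closedBall, dist_eq_norm, sub_zero] at hw ⊢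
        rw [show y - w - y = -w by abel, norm_neg]; exact hw
    · exact continuousOn_const
  exact h.mono_set ball_subset_closedBall

section
variable {S : Type} [TopologicalSpace S]

/-- functional for both directions -/
def netD (M : MongeSurf S) (ε : ℝ) (V : Finset S) (y : E3) : ℝ := M.netA ε V y + M.netA ε V (-y)

theorem width_netD [CompactSpace S] [T2Space S] [ConnectedSpace S] (M : MongeSurf S) :
    ∃ ε₀ > 0, ∀ ε, 0 < ε → ε < ε₀ → ∀ V : Finset S, M.IsNet ε V → ∀ y : E3, ‖y‖ ≤ 2 →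
      width M.f y ≤ netD M ε V y + 4 * ε := by
  obtain ⟨ε₀, h0, hn⟩ := net_conn M
  refine ⟨ε₀, h0, fun ε hε hε1 V hV y hy => ?_⟩
  obtain ⟨hc, hne⟩ := hn ε hε hε1 V hV
  have key : ∀ z : E3, ‖z‖ ≤ 2 → ∀ x : S, ⟪M.f x, z⟫ ≤ M.netA ε V z + 2 * ε := by
    intro z hz x
    obtain ⟨v, hv, hnear⟩ := hV.dense x
    have h1 : ⟪M.f v, z⟫ ≤ M.netA ε V z := by
      have := le_Amin (src (M.adj ε V)) (tgt (M.adj ε V)) hc (fun v => ⟪M.pos V v, z⟫)
        (fun e => min ⟪M.pos V (src (M.adj ε V) e), z⟫ ⟪M.pos V (tgt (M.adj ε V) e), z⟫)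
        (fun j => ⟨min_le_left _ _, min_le_right _ _⟩) ⟨v, hv⟩
      exact this
    obtain ⟨i, _, _, hf⟩ := hnear
    have h2 : ⟪M.f x - M.f v, z⟫ ≤ ‖M.f x - M.f v‖ * ‖z‖ := real_inner_le_norm _ _
    have h3 : ‖M.f x - M.f v‖ * ‖z‖ ≤ ε * 2 :=
      mul_le_mul hf.le hz (norm_nonneg _) hε.le
    rw [inner_sub_left] at h2
    linarith
  have : Nonempty S := inferInstance
  have := width_le M.f M.f_cont y (M.netA ε V y + 2 * ε) (M.netA ε V (-y) + 2 * ε) (key y hy) (by
    intro x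
    have := key (-y) (by rwa [norm_neg]) x
    rwa [inner_neg_right] at this)
  unfold netD
  linarith

theorem netD_cont [CompactSpace S] [T2Space S] (M : MongeSurf S) (ε : ℝ) (V : Finset S) : Continuous (netD M ε V) := by
  unfold netD
  exact (netA_cont M ε V).add ((netA_cont M ε V).comp continuous_neg)

theorem netD_homog [CompactSpace S] [T2Space S] (M : MongeSurf S) (ε : ℝ) (V : Finset S) (τ : ℝ) (y : E3) (hτ : 0 ≤ τ) :
    netD M ε V (τ • y) = τ * netD M ε V y := by
  unfold netD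
  rw [netA_homog M ε V τ hτ, ← smul_neg, netA_homog M ε V τ hτ]
  ring

theorem bad_part [CompactSpace S] [T2Space S] (M : MongeSurf S) : ∃ C > 0, ∀ r, 0 < r → r < 1 / 2 → ∃ ε₀ > 0, ∀ ε, 0 < ε → ε < ε₀ →
    ∀ V : Finset S, M.IsNet ε V → ∀ Bd : Set E3, MeasurableSet Bd → Bd ⊆ Sh → (∀ y ∈ Bd, -y ∈ Bd) →
      ∫ y in Bd, Dint (netD M ε V) r y ≤
        C * r ^ 5 * ∑ i, (volume {z | z ∈ ball (0 : E2) (4 * M.R i) ∧ ∃ y ∈ Bd, ‖M.Phi i z y‖ ≤ 3 * r}).toReal := by
  obtain ⟨C, hC, h⟩ := crude_int M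
  refine ⟨2 * C, by positivity, fun r hr hr1 => ?_⟩
  obtain ⟨ε₀, h0, h⟩ := h r hr hr1
  refine ⟨ε₀, h0, fun ε hε hε1 V hV Bd hm hs hsym => ?_⟩
  have hcr := h ε hε hε1 V hV Bd hm hs
  have hAc := netA_cont M ε V
  have hpre : (fun y : E3 => -y) ⁻¹' Bd = Bd := by
    ext y; constructor
    · intro hy; simpa using hsym _ hy
    · intro hy; exact hsym _ hy
  have hsplit : ∀ y, Dint (netD M ε V) r y = Dint (M.netA ε V) r y + Dint (M.netA ε V) r (-y) := by
    intro y
    unfold Dint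
    rw [← integral_add (Dint_integrand _ r y hAc.continuousOn) (Dint_integrand _ r (-y) hAc.continuousOn)]
    congr 1
    funext w
    simp only [netD]
    rw [show -(y + w) = -y - w by abel, show -(y - w) = -y + w by abel]
    ring
  have hint : IntegrableOn (Dint (M.netA ε V) r) Bd := by
    have : IntegrableOn (Dint (M.netA ε V) r) (closedBall (0 : E3) 2) :=
      (Dint_cont _ hAc r).continuousOn.integrableOn_compact (isCompact_closedBall _ _)
    apply this.mono_set
    intro y hy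
    simpa [dist_eq_norm] using (hs hy).2
  have hint2 : IntegrableOn (fun y => Dint (M.netA ε V) r (-y)) Bd := by
    have : IntegrableOn (fun y => Dint (M.netA ε V) r (-y)) (closedBall (0 : E3) 2) :=
      ((Dint_cont _ hAc r).comp continuous_neg).continuousOn.integrableOn_compact (isCompact_closedBall _ _)
    apply this.mono_set
    intro y hy
    simpa [dist_eq_norm] using (hs hy).2
  have hneg : ∫ y in Bd, Dint (M.netA ε V) r (-y) = ∫ y in Bd, Dint (M.netA ε V) r y := by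
    have := (Measure.measurePreserving_neg (volume : Measure E3)).setIntegral_preimage_emb
      (MeasurableEquiv.neg E3).measurableEmbedding (Dint (M.netA ε V) r) Bd
    rw [← this]
    congr 1
    rw [hpre]
  calc ∫ y in Bd, Dint (netD M ε V) r y = ∫ y in Bd, (Dint (M.netA ε V) r y + Dint (M.netA ε V) r (-y)) := by
        congr 1; funext y; exact hsplit y
    _ = (∫ y in Bd, Dint (M.netA ε V) r y) + ∫ y in Bd, Dint (M.netA ε V) r (-y) := integral_add hint hint2
    _ = 2 * ∫ y in Bd, Dint (M.netA ε V) r y := by rw [hneg]; ring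
    _ ≤ 2 * (C * r ^ 5 * ∑ i, (volume {z | z ∈ ball (0 : E2) (4 * M.R i) ∧ ∃ y ∈ Bd, ‖M.Phi i z y‖ ≤ 3 * r}).toReal) := by
        have : ∫ y in Bd, Dint (M.netA ε V) r y = ∫ y in Bd, ∫ w in ball (0 : E3) r,
          (M.netA ε V (y + w) + M.netA ε V (y - w) - 2 * M.netA ε V y) := rfl
        rw [this]; linarith
    _ = _ := by ring

/-- Local data near a good direction. -/
structure LocData (M : MongeSurf S) (y₀ : E3) where
  ρ : ℝ
  N : Type
  fN : Fintype N
  x : N → E3 → S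
  T : N → E3 → ℝ
  ρ_pos : 0 < ρ
  x_cont : ∀ k, ContinuousOn (x k) (ball y₀ ρ)
  crit : ∀ k, ∀ y ∈ ball y₀ ρ, ∀ i, x k y ∈ M.P i (M.R i) → M.Phi i (M.e i (x k y)) y = 0
  inj : ∀ y ∈ ball y₀ ρ, Function.Injective (fun k => x k y)
  T_cont : ∀ k, ContinuousOn (T k) (ball y₀ ρ)
  T_bd : ∃ B, ∀ k, ∀ y ∈ ball y₀ ρ, |T k y| ≤ B
  T_le : ∀ k, ∀ y ∈ ball y₀ ρ, y ∉ M.degen → ∀ i, x k y ∈ M.P i (M.R i) → |T k y| ≤ M.θ i (M.e i (x k y)) y
  second : ∀ η > 0, ∃ r₀ > 0, ∀ r, 0 < r → r < r₀ → ∀ η₂ > 0, ∃ ε₀ > 0, ∀ ε, 0 < ε → ε < ε₀ →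
    ∀ V : Finset S, M.IsNet ε V → ∀ y ∈ ball y₀ ρ, Dint (netD M ε V) r y ≤ σ r * ((∑ k, |T k y|) + η) + η₂

instance {M : MongeSurf S} {y₀ : E3} (L : LocData M y₀) : Fintype L.N := L.fN

theorem trace_cont : Continuous (fun A : E3 →L[ℝ] E3 => LinearMap.trace ℝ E3 (A : E3 →ₗ[ℝ] E3)) := by
  have : (fun A : E3 →L[ℝ] E3 => LinearMap.trace ℝ E3 (A : E3 →ₗ[ℝ] E3)) =
    ⇑((LinearMap.trace ℝ E3).comp (ContinuousLinearMap.coeLM ℝ : (E3 →L[ℝ] E3) →ₗ[ℝ] (E3 →ₗ[ℝ] E3))) := rfl
  rw [this]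
  exact LinearMap.continuous_of_finiteDimensional _

theorem exists_locData [CompactSpace S] [T2Space S] [ConnectedSpace S] (M : MongeSurf S) (y₀ : E3) (h : y₀ ∈ Sh)
    (hg : y₀ ∉ M.degen) : Nonempty (LocData M y₀) := by
  obtain ⟨D⟩ := exists_critData M y₀ h hg
  obtain ⟨u, v, ρ₁, h1, h1D, ht⟩ := exists_topo D
  obtain ⟨u', v', ρ₂, h2, h2D, ht'⟩ := exists_topo D.flip
  have h2D' : ρ₂ ≤ D.ρ := h2D
  set ρ := min ρ₁ ρ₂ / 4 with hρdef
  have hρ : 0 < ρ := by have := lt_min h1 h2; positivity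
  have hρ1 : 4 * ρ ≤ ρ₁ := by
    have := min_le_left ρ₁ ρ₂; rw [hρdef]; linarith
  have hρ2 : 4 * ρ ≤ ρ₂ := by
    have := min_le_right ρ₁ ρ₂; rw [hρdef]; linarith
  have hρD : 4 * ρ ≤ D.ρ := hρ1.trans h1D
  have hsub : ball y₀ ρ ⊆ ball y₀ D.ρ := ball_subset_ball (by linarith)
  have hs1 : ∀ k, ∀ y ∈ ball y₀ D.ρ, D.s k y ∈ ball (D.z k) D.r1 := fun k y hy =>
    ball_subset_ball (by linarith [D.r1_pos]) (D.s_mem k y hy)
  have hs3 : ∀ k, ∀ y ∈ ball y₀ D.ρ, D.s k y ∈ ball (0 : E2) (5 * M.R (D.i k)) := fun k y hy =>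
    ball_subset_ball (by linarith [M.R_pos (D.i k)]) (D.ball_sub k (hs1 k y hy))
  have hXc : ∀ k, ContinuousOn (fun y => LinearMap.trace ℝ E3 (fderiv ℝ (D.X k) y : E3 →ₗ[ℝ] E3)) (ball y₀ D.ρ) := by
    intro k
    have := (X_c1 D k).continuousOn_fderiv_of_isOpen isOpen_ball le_rfl
    exact trace_cont.comp_continuousOn this
  refine ⟨{
    ρ := ρ
    N := D.N
    fN := D.fN
    x := fun k y => D.pt k y
    T := fun k y => LinearMap.trace ℝ E3 (fderiv ℝ (D.X k) y : E3 →ₗ[ℝ] E3)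
    ρ_pos := hρ
    x_cont := ?_
    crit := ?_
    inj := ?_
    T_cont := fun k => (hXc k).mono hsub
    T_bd := ?_
    T_le := ?_
    second := ?_ }⟩
  · intro k
    have hc : ContinuousOn (D.s k) (ball y₀ ρ) := ((D.s_c1 k).continuousOn).mono hsub
    exact ((M.e (D.i k)).continuousOn_symm).comp hc (fun y hy => M.target _ (hs3 k y (hsub hy)))
  · intro k y hy i hi
    have hv := val_eq M D k y (hsub hy)
    apply crit_inv M (D.i k) i
    · exact P_mono M _ (by linarith [M.R_pos (D.i k)]) hv.2.1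
    · exact P_mono M _ (by linarith [M.R_pos i]) hi
    · rw [hv.2.2]; exact D.s_zero k y (hsub hy)
  · intro y hy k k' hkk
    by_contra hne
    have hd := D.disj k k' hne
    rw [Set.disjoint_left] at hd
    refine hd ⟨D.s k y, hs1 k y (hsub hy), rfl⟩ ⟨D.s k' y, hs1 k' y (hsub hy), ?_⟩
    exact hkk.symm
  · have : ∀ k, ∃ B, ∀ y ∈ ball y₀ ρ, |LinearMap.trace ℝ E3 (fderiv ℝ (D.X k) y : E3 →ₗ[ℝ] E3)| ≤ B := by
      intro k
      have hcb : closedBall y₀ (2 * ρ) ⊆ ball y₀ D.ρ := closedBall_subset_ball (by linarith)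
      obtain ⟨B, hB⟩ := (isCompact_closedBall y₀ (2 * ρ)).exists_bound_of_continuousOn ((hXc k).mono hcb)
      exact ⟨B, fun y hy => hB y (by
        rw [mem_closedBall]; rw [mem_ball] at hy; linarith)⟩
    choose B hB using this
    have := D.fN
    refine ⟨∑ k, |B k|, fun k y hy => ?_⟩
    refine (hB k y hy).trans ((le_abs_self _).trans ?_)
    exact Finset.single_le_sum (f := fun k => |B k|) (fun _ _ => abs_nonneg _) (Finset.mem_univ k)
  · intro k y hy hyg i hi
    exact (trace_formula D k y (hsub hy) hyg i hi).le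
  · intro η hη
    obtain ⟨r₀, hr₀, hsec⟩ := second_good D u v u' v' η hη
    refine ⟨min r₀ ρ, lt_min hr₀ hρ, fun r hr hr1 η₂ hη₂ => ?_⟩
    have hrr : r < r₀ := hr1.trans_le (min_le_left _ _)
    have hrρ : r < ρ := hr1.trans_le (min_le_right _ _)
    set vb := (volume (ball (0 : E3) r)).toReal with hvb
    have hvb0 : 0 ≤ vb := ENNReal.toReal_nonneg
    set η' := η₂ / (8 * vb + 1) with hη'
    have hη'0 : 0 < η' := by positivity
    obtain ⟨ε₁, he1, hc1⟩ := conv_good D u v ρ₁ h1D ht η' hη'0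
    obtain ⟨ε₂, he2, hc2⟩ := conv_good D.flip u' v' ρ₂ h2D ht' η' hη'0
    refine ⟨min ε₁ ε₂, lt_min he1 he2, fun ε hε hε1 V hV y hy => ?_⟩
    have hd : ∀ y' ∈ ball y₀ (4 * ρ), |netD M ε V y' - D.Sinf u v u' v' y'| ≤ 2 * η' := by
      intro y' hy'
      have ha := hc1 ε hε (hε1.trans_le (min_le_left _ _)) V hV y' (ball_subset_ball hρ1 hy')
      have hb := hc2 ε hε (hε1.trans_le (min_le_right _ _)) V hV (-y') (by
        have : y' ∈ ball y₀ ρ₂ := ball_subset_ball hρ2 hy'
        rw [mem_ball, dist_eq_norm] at this ⊢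
        rw [show -y' - -y₀ = -(y' - y₀) by abel, norm_neg]; exact this)
      unfold netD CritData.Sinf
      have : M.netA ε V y' + M.netA ε V (-y') - (D.AΓ u v y' + D.flip.AΓ u' v' (-y')) =
        (M.netA ε V y' - D.AΓ u v y') + (M.netA ε V (-y') - D.flip.AΓ u' v' (-y')) := by ring
      rw [this]
      refine (abs_add_le _ _).trans ?_
      linarith
    have hcl : closedBall y r ⊆ ball y₀ D.ρ := by
      intro w hw
      rw [mem_closedBall] at hw
      rw [mem_ball] at hy ⊢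
      have := dist_triangle w y y₀
      linarith
    have hi1 := Dint_integrand (netD M ε V) r y (netD_cont M ε V).continuousOn
    have hi2 := Dint_integrand (D.Sinf u v u' v') r y ((continuousOn_Sinf D u v u' v').mono hcl)
    have hbfin : volume (ball (0 : E3) r) ≠ ⊤ := measure_ball_lt_top.ne
    have hic : IntegrableOn (fun _ : E3 => 8 * η') (ball (0 : E3) r) := integrableOn_const hbfin
    have hle : Dint (netD M ε V) r y ≤ Dint (D.Sinf u v u' v') r y + 8 * η' * vb := by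
      unfold Dint
      have h3 : ∫ w in ball (0 : E3) r, ((D.Sinf u v u' v' (y + w) + D.Sinf u v u' v' (y - w) - 2 * D.Sinf u v u' v' y) + 8 * η')
        = (∫ w in ball (0 : E3) r, (D.Sinf u v u' v' (y + w) + D.Sinf u v u' v' (y - w) - 2 * D.Sinf u v u' v' y)) + 8 * η' * vb := by
        rw [integral_add hi2 hic]
        congr 1
        rw [setIntegral_const, smul_eq_mul, mul_comm]
        rfl
      rw [← h3]
      apply setIntegral_mono_on hi1 (hi2.add hic) measurableSet_ball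
      intro w hw
      have hw' : ‖w‖ < r := by simpa using hw
      have m0 : y ∈ ball y₀ (4 * ρ) := ball_subset_ball (by linarith) hy
      have m1 : y + w ∈ ball y₀ (4 * ρ) := by
        rw [mem_ball] at hy ⊢
        have := dist_triangle (y + w) y y₀
        have h' : dist (y + w) y = ‖w‖ := by rw [dist_eq_norm]; congr 1; abel
        linarith
      have m2 : y - w ∈ ball y₀ (4 * ρ) := by
        rw [mem_ball] at hy ⊢
        have := dist_triangle (y - w) y y₀
        have h' : dist (y - w) y = ‖w‖ := by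
          rw [dist_eq_norm, show y - w - y = -w by abel, norm_neg]
        linarith
      have d0 := abs_le.1 (hd _ m0)
      have d1 := abs_le.1 (hd _ m1)
      have d2 := abs_le.1 (hd _ m2)
      show netD M ε V (y + w) + netD M ε V (y - w) - 2 * netD M ε V y ≤
        (D.Sinf u v u' v' (y + w) + D.Sinf u v u' v' (y - w) - 2 * D.Sinf u v u' v' y) + 8 * η'
      linarith [d0.1, d0.2, d1.1, d1.2, d2.1, d2.2]
    have hs := hsec r hr hrr y (ball_subset_ball (by linarith) hy)
    have hs' : Dint (D.Sinf u v u' v') r y ≤ σ r * ((∑ k : D.N, |LinearMap.trace ℝ E3 (fderiv ℝ (D.X k) y : E3 →ₗ[ℝ] E3)|) + η) := hs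
    have hfin : 8 * η' * vb ≤ η₂ := by
      rw [hη']
      rw [show 8 * (η₂ / (8 * vb + 1)) * vb = η₂ * ((8 * vb) / (8 * vb + 1)) by ring]
      have : (8 * vb) / (8 * vb + 1) ≤ 1 := by
        rw [div_le_one (by positivity)]; linarith
      nlinarith
    linarith
end

end Topping
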