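import Pool.Agent.Lib.MP_bea121_gt.TC.MainA
import Pool.Agent.Lib.MP_bea121_gt.TC.Homog
import Pool.Agent.Lib.MP_bea121_gt.TC.Iso
import Pool.Agent.Lib.MP_bea121_gt.TC.Slice
import Pool.Agent.Lib.MP_bea121_gt.TC.Exh
import Pool.Agent.Lib.MP_bea121_gt.TC.Area3
import Pool.Agent.Lib.MP_bea121_gt.TC.Net

/-!
# The mean width inequality for Monge surfaces (MP_bea121_gt, assembly part B)
-/

open MeasureTheory Set Metric Topology Filter
open scoped RealInnerProductSpace Gradient ContDiff Manifold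

noncomputable section

namespace Topping

theorem partition_fin {n : ℕ} (U : Fin n → Set E3) (hU : ∀ l, MeasurableSet (U l)) (K : Set E3)
    (hK : MeasurableSet K) (hc : K ⊆ ⋃ l, U l) : ∃ A : Fin n → Set E3, (∀ l, MeasurableSet (A l)) ∧
      (∀ l, A l ⊆ K ∩ U l) ∧ Pairwise (Function.onFun Disjoint A) ∧ ⋃ l, A l = K := by
  classical
  refine ⟨fun l => K ∩ (U l \ ⋃ j ∈ Finset.univ.filter (fun j => j < l), U j), ?_, ?_, ?_, ?_⟩
  · intro l
    exact hK.inter ((hU l).diff (Finset.measurableSet_biUnion _ (fun j _ => hU j)))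
  · intro l y hy
    exact ⟨hy.1, hy.2.1⟩
  · intro l l' hne
    show Disjoint _ _
    rw [Set.disjoint_left]
    intro y hy hy'
    rcases lt_or_gt_of_ne hne with h | h
    · exact hy'.2.2 (by simp only [mem_iUnion]; exact ⟨l, by simp [h], hy.2.1⟩)
    · exact hy.2.2 (by simp only [mem_iUnion]; exact ⟨l', by simp [h], hy'.2.1⟩)
  · ext y
    constructor
    · intro hy
      simp only [mem_iUnion] at hy
      obtain ⟨l, hy⟩ := hy
      exact hy.1
    · intro hy
      have h1 : ∃ l, y ∈ U l := by simpa using hc hy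
      have hne : (Finset.univ.filter (fun l => y ∈ U l)).Nonempty := by
        obtain ⟨l, hl⟩ := h1
        exact ⟨l, by simp [hl]⟩
      have hm := Finset.min'_mem _ hne
      set l := (Finset.univ.filter (fun l => y ∈ U l)).min' hne with hl
      simp only [mem_iUnion]
      refine ⟨l, hy, (Finset.mem_filter.1 hm).2, ?_⟩
      simp only [mem_iUnion, not_exists]
      intro j hj hyj
      have : l ≤ j := Finset.min'_le _ _ (by simp [hyj])
      exact absurd (Finset.mem_filter.1 hj).2 (not_lt.2 this)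

theorem exists_lt_all {ι : Type} [Finite ι] (f : ι → ℝ) (h : ∀ i, 0 < f i) : ∃ r > 0, ∀ i, r < f i := by
  rcases isEmpty_or_nonempty ι with he | he
  · exact ⟨1, one_pos, fun i => (he.false i).elim⟩
  · obtain ⟨i0, hi0⟩ := Finite.exists_min f
    exact ⟨f i0 / 2, by have := h i0; positivity, fun i => by have := h i0; have := hi0 i; linarith⟩

theorem main_monge {S : Type} [TopologicalSpace S] [CompactSpace S] [T2Space S] [ConnectedSpace S]
    [MeasurableSpace S] [BorelSpace S] (M : MongeSurf S) (B : M.ι → Set S)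
    (hB : ∀ i, MeasurableSet (B i)) (hBs : ∀ i, B i ⊆ M.P i (M.R i)) (hBd : Pairwise (Function.onFun Disjoint B))
    (hBu : ⋃ i, B i = univ)
    (hdeg : ∀ i, volume {z | z ∈ ball (0 : E2) (4 * M.R i) ∧ M.hdet i z = 0} = 0) :
    ∫ y in Sh, width M.f y ≤ (15 / 2) * ∑ i, ∫ z in M.e i '' B i, M.Hd i z := by
  set Hs := ∑ i, ∫ z in M.e i '' B i, M.Hd i z with hHs
  have hHs0 : 0 ≤ Hs := by
    apply Finset.sum_nonneg
    intro i _
    apply integral_nonneg
    intro z
    unfold MongeSurf.Hd
    positivity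
  set vS := (volume Sh).toReal with hvS
  have hvS0 : 0 ≤ vS := ENNReal.toReal_nonneg
  obtain ⟨hShm, hShf, hShc⟩ := sh_meas
  suffices hmain : ∀ η > 0, ∫ y in Sh, width M.f y ≤ (15 / 2) * Hs + 5 * η by
    apply le_of_forall_pos_le_add
    intro η hη
    have := hmain (η / 5) (by positivity)
    linarith
  intro η hη
  obtain ⟨C, hC, hbad⟩ := bad_part M
  have hσ1 := σ_pos 1 one_pos
  have hη1 : 0 < σ 1 * η / C := by positivity
  obtain ⟨τ, hτ, r₁, hr₁, hex⟩ := degen_exhaust M hdeg _ hη1
  set Dg := M.degen ∩ Sh with hDg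
  set Bd := Sh ∩ cthickening τ Dg with hBd'
  set K := Sh \ cthickening τ Dg with hK
  have hBdm : MeasurableSet Bd := hShm.inter isClosed_cthickening.measurableSet
  have hKm : MeasurableSet K := hShm.diff isClosed_cthickening.measurableSet
  have hK'c : IsCompact (Sh \ thickening τ Dg) := hShc.diff isOpen_thickening
  have hKK' : K ⊆ Sh \ thickening τ Dg := sdiff_subset_sdiff_right (thickening_subset_cthickening _ _)
  have hK'g : ∀ y ∈ Sh \ thickening τ Dg, y ∈ Sh ∧ y ∉ M.degen := by
    intro y hy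
    refine ⟨hy.1, fun h => hy.2 ?_⟩
    exact self_subset_thickening hτ _ ⟨h, hy.1⟩
  have hLe : ∀ y : (Sh \ thickening τ Dg : Set E3), Nonempty (LocData M y.1) := fun y =>
    exists_locData M y.1 (hK'g y.1 y.2).1 (hK'g y.1 y.2).2
  set L : ∀ y : (Sh \ thickening τ Dg : Set E3), LocData M y.1 := fun y => Classical.choice (hLe y) with hL
  obtain ⟨t, ht⟩ := hK'c.elim_finite_subcover (fun y : (Sh \ thickening τ Dg : Set E3) => ball y.1 (L y).ρ)
    (fun y => isOpen_ball) (fun y hy => by
      simp only [mem_iUnion]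
      exact ⟨⟨y, hy⟩, mem_ball_self (L _).ρ_pos⟩)
  set n := t.card with hn
  set yl : Fin n → (Sh \ thickening τ Dg : Set E3) := fun l => (t.equivFin.symm l).1 with hyl
  set U : Fin n → Set E3 := fun l => ball (yl l).1 (L (yl l)).ρ with hU
  have hcov : K ⊆ ⋃ l, U l := by
    intro y hy
    have := ht (hKK' hy)
    simp only [mem_iUnion] at this ⊢
    obtain ⟨z, hz, hyz⟩ := this
    refine ⟨t.equivFin ⟨z, hz⟩, ?_⟩
    have hyl' : yl (t.equivFin ⟨z, hz⟩) = z := by simp [hyl]
    show y ∈ ball (yl (t.equivFin ⟨z, hz⟩)).1 (L (yl (t.equivFin ⟨z, hz⟩))).ρ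
    rw [hyl']
    exact hyz
  obtain ⟨A, hAm, hAs, hAd, hAu⟩ := partition_fin U (fun l => measurableSet_ball) K hKm hcov
  have hAU : ∀ l, A l ⊆ U l := fun l y hy => (hAs l hy).2
  have hAK : ∀ l, A l ⊆ K := fun l y hy => (hAs l hy).1
  have hASh : ∀ l, A l ⊆ Sh := fun l y hy => (hAK l hy).1
  have hAg : ∀ l, Disjoint (A l) M.degen := by
    intro l
    rw [Set.disjoint_left]
    intro y hy
    exact (hK'g y (hKK' (hAK l hy))).2
  -- area bound
  have harea := area_bound M B hB hBs hBd hBu A hAm hASh hAd hAg (fun l => (L (yl l)).N)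
    (fun l k => (L (yl l)).x k) (fun l k => ((L (yl l)).x_cont k).mono (hAU l))
    (fun l k y hy i hi => (L (yl l)).crit k y (hAU l hy) i hi)
    (fun l y hy => (L (yl l)).inj y (hAU l hy))
    (fun l k => (L (yl l)).T k)
    (fun l k y hy i hi => (L (yl l)).T_le k y (hAU l hy) (Set.disjoint_left.1 (hAg l) hy) i hi)
  have hAfin : ∀ l, volume (A l) < ⊤ := fun l => (measure_mono (hASh l)).trans_lt hShf
  have hTi : ∀ l k, IntegrableOn (fun y => |(L (yl l)).T k y|) (A l) := by
    intro l k
    obtain ⟨Bt, hBt⟩ := (L (yl l)).T_bd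
    refine Integrable.mono' (integrableOn_const (C := Bt) (hAfin l).ne) ?_ ?_
    · exact ((((L (yl l)).T_cont k).mono (hAU l)).abs).aestronglyMeasurable (hAm l)
    · rw [ae_restrict_iff' (hAm l)]
      exact ae_of_all _ (fun y hy => by
        rw [Real.norm_eq_abs, abs_abs]; exact hBt k y (hAU l hy))
  have harea' : ∑ l, ∑ k, ∫ y in A l, |(L (yl l)).T k y| ≤ 6 * Hs := by
    have h1 : ∀ l k, ∫⁻ y in A l, ENNReal.ofReal |(L (yl l)).T k y| = ENNReal.ofReal (∫ y in A l, |(L (yl l)).T k y|) := by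
      intro l k
      rw [ofReal_integral_eq_lintegral_ofReal (hTi l k) (ae_of_all _ (fun _ => abs_nonneg _))]
    have h2 : ∀ l, ∑ k, ∫⁻ y in A l, ENNReal.ofReal |(L (yl l)).T k y| = ENNReal.ofReal (∑ k, ∫ y in A l, |(L (yl l)).T k y|) := by
      intro l
      rw [ENNReal.ofReal_sum_of_nonneg (fun k _ => integral_nonneg (fun _ => abs_nonneg _))]
      exact Finset.sum_congr rfl (fun k _ => h1 l k)
    have h3 : ∑ l, ∑ k, ∫⁻ y in A l, ENNReal.ofReal |(L (yl l)).T k y| = ENNReal.ofReal (∑ l, ∑ k, ∫ y in A l, |(L (yl l)).T k y|) := by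
      rw [ENNReal.ofReal_sum_of_nonneg (fun l _ => Finset.sum_nonneg (fun k _ => integral_nonneg (fun _ => abs_nonneg _)))]
      exact Finset.sum_congr rfl (fun l _ => h2 l)
    rw [h3] at harea
    exact (ENNReal.ofReal_le_ofReal_iff (by positivity)).1 harea
  -- choice of r
  have hη3 : 0 < η / (vS + 1) := by positivity
  choose r₀ hr₀ hsec using fun l => (L (yl l)).second (η / (vS + 1)) hη3
  obtain ⟨r₂, hr₂, hr₂'⟩ := exists_lt_all r₀ hr₀
  obtain ⟨r, hr, hr1, hrr1, hrr2⟩ : ∃ r > 0, r < 1 / 2 ∧ r ≤ r₁ ∧ r ≤ r₂ := by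
    refine ⟨min (1 / 4) (min r₁ r₂), by positivity, ?_, ?_, ?_⟩
    · exact (min_le_left _ _).trans_lt (by norm_num)
    · exact (min_le_right _ _).trans (min_le_left _ _)
    · exact (min_le_right _ _).trans (min_le_right _ _)
  have hσr := σ_pos r hr
  have hη2 : 0 < σ r * (η / (vS + 1)) := by positivity
  choose ε₀ hε₀ hsec2 using fun l => hsec l r hr (hrr2.trans_lt (hr₂' l)) _ hη2
  obtain ⟨ε₁, hε₁, hε₁'⟩ := exists_lt_all ε₀ hε₀
  obtain ⟨ε₂, hε₂, hb⟩ := hbad r hr hr1
  obtain ⟨ε₃, hε₃, hw⟩ := width_netD M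
  obtain ⟨ε, hε, e1, e2, e3, e4⟩ : ∃ ε > 0, ε ≤ ε₁ ∧ ε < ε₂ ∧ ε < ε₃ ∧ 4 * ε * vS ≤ η := by
    refine ⟨min (min ε₁ (ε₂ / 2)) (min (ε₃ / 2) (η / (4 * (vS + 1)))), by positivity, ?_, ?_, ?_, ?_⟩
    · exact (min_le_left _ _).trans (min_le_left _ _)
    · exact ((min_le_left _ _).trans (min_le_right _ _)).trans_lt (by linarith)
    · exact ((min_le_right _ _).trans (min_le_left _ _)).trans_lt (by linarith)
    · have : min (min ε₁ (ε₂ / 2)) (min (ε₃ / 2) (η / (4 * (vS + 1)))) ≤ η / (4 * (vS + 1)) :=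
        (min_le_right _ _).trans (min_le_right _ _)
      calc 4 * min (min ε₁ (ε₂ / 2)) (min (ε₃ / 2) (η / (4 * (vS + 1)))) * vS ≤ 4 * (η / (4 * (vS + 1))) * vS := by
            gcongr
        _ = η * (vS / (vS + 1)) := by field_simp
        _ ≤ η * 1 := by
            gcongr
            rw [div_le_one (by positivity)]; linarith
        _ = η := mul_one _
  obtain ⟨V, hV⟩ := net_exists M ε hε
  have hDc := netD_cont M ε V
  have hDic := Dint_cont _ hDc r
  have hDI : IntegrableOn (Dint (netD M ε V) r) Sh := hDic.continuousOn.integrableOn_compact hShc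
  -- identity
  have hid : ∫ y in Sh, Dint (netD M ε V) r y = (4 * σ r / 5) * ∫ y in Sh, netD M ε V y :=
    homog_identity (netD M ε V) hDc (fun τ y hτ => netD_homog M ε V τ y hτ) r hr hr1
  have hsplit : (∫ y in Bd, Dint (netD M ε V) r y) + (∫ y in K, Dint (netD M ε V) r y) =
      ∫ y in Sh, Dint (netD M ε V) r y :=
    integral_inter_add_sdiff isClosed_cthickening.measurableSet hDI
  -- bad part
  have hsym : ∀ y ∈ Bd, -y ∈ Bd := by
    have hSh : ∀ y ∈ Sh, -y ∈ Sh := by
      intro y hy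
      simpa [Sh, norm_neg] using hy
    have hdg : ∀ y, y ∈ Dg ↔ -y ∈ Dg := by
      have : ∀ y ∈ Dg, -y ∈ Dg := by
        intro y hy
        refine ⟨?_, hSh y hy.2⟩
        have := degen_smul M (-1) y hy.1
        simpa using this
      intro y
      exact ⟨this y, fun h => by simpa using this _ h⟩
    intro y hy
    refine ⟨hSh y hy.1, ?_⟩
    have h1 : (fun y : E3 => -y) '' cthickening τ Dg = cthickening τ Dg := by
      ext z
      constructor
      · rintro ⟨w, hw, rfl⟩
        rw [mem_cthickening_iff] at hw ⊢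
        have : infEDist (-w) Dg = infEDist w Dg := by
          have hiso : Isometry (fun y : E3 => -y) := (LinearIsometryEquiv.neg ℝ (E := E3)).isometry
          have himg : (fun y : E3 => -y) '' Dg = Dg := by
            ext z; constructor
            · rintro ⟨w, hw, rfl⟩; exact (hdg w).1 hw
            · intro hz; exact ⟨-z, (hdg z).1 hz, by simp⟩
          have := infEDist_image hiso (x := w) (t := Dg)
          rw [himg] at this
          exact this
        rw [this]; exact hw
      · intro hz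
        refine ⟨-z, ?_, by simp⟩
        rw [mem_cthickening_iff] at hz ⊢
        have : infEDist (-z) Dg = infEDist z Dg := by
          have hiso : Isometry (fun y : E3 => -y) := (LinearIsometryEquiv.neg ℝ (E := E3)).isometry
          have himg : (fun y : E3 => -y) '' Dg = Dg := by
            ext z; constructor
            · rintro ⟨w, hw, rfl⟩; exact (hdg w).1 hw
            · intro hz; exact ⟨-z, (hdg z).1 hz, by simp⟩
          have := infEDist_image hiso (x := z) (t := Dg)
          rw [himg] at this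
          exact this
        rw [this]; exact hz
    rw [← h1]
    exact ⟨y, hy.2, rfl⟩
  have hbd : ∫ y in Bd, Dint (netD M ε V) r y ≤ σ r * η := by
    have h1 := hb ε hε e2 V hV Bd hBdm inter_subset_left hsym
    have h2 := hex r hr hrr1
    have h3 : C * r ^ 5 * ∑ i, (volume {z | z ∈ ball (0 : E2) (4 * M.R i) ∧ ∃ y ∈ Bd, ‖M.Phi i z y‖ ≤ 3 * r}).toReal
        ≤ C * r ^ 5 * (σ 1 * η / C) := by
      gcongr
    have h4 : C * r ^ 5 * (σ 1 * η / C) = σ r * η := by
      rw [σ_scale r hr]; field_simp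
    linarith
  -- good part
  have hloc : ∀ l, ∫ y in A l, Dint (netD M ε V) r y ≤
      σ r * (∑ k, ∫ y in A l, |(L (yl l)).T k y|) + 2 * (σ r * (η / (vS + 1))) * (volume (A l)).toReal := by
    intro l
    have hI1 : IntegrableOn (Dint (netD M ε V) r) (A l) := hDI.mono_set (hASh l)
    have hIs : IntegrableOn (fun y => ∑ k, |(L (yl l)).T k y|) (A l) := by
      apply integrable_finsetSum
      intro k _
      exact hTi l k
    have hIc : IntegrableOn (fun _ : E3 => 2 * (σ r * (η / (vS + 1)))) (A l) := integrableOn_const (hAfin l).ne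
    have h1 : ∫ y in A l, Dint (netD M ε V) r y ≤
        ∫ y in A l, (σ r * (∑ k, |(L (yl l)).T k y|) + 2 * (σ r * (η / (vS + 1)))) := by
      apply setIntegral_mono_on hI1 ((hIs.const_mul _).add hIc) (hAm l)
      intro y hy
      have := hsec2 l ε hε (e1.trans_lt (hε₁' l)) V hV y (hAU l hy)
      show Dint (netD M ε V) r y ≤ σ r * (∑ k, |(L (yl l)).T k y|) + 2 * (σ r * (η / (vS + 1)))
      calc _ ≤ _ := this
        _ = _ := by ring
    refine h1.trans (le_of_eq ?_)
    rw [integral_add (hIs.const_mul _) hIc, integral_const_mul, integral_finsetSum _ (fun k _ => hTi l k),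
      setIntegral_const, smul_eq_mul]
    simp only [Measure.real]
    ring
  have hgood : ∫ y in K, Dint (netD M ε V) r y ≤ σ r * (6 * Hs) + 2 * (σ r * η) := by
    have h1 : ∫ y in K, Dint (netD M ε V) r y = ∑ l, ∫ y in A l, Dint (netD M ε V) r y := by
      rw [← hAu]
      exact integral_iUnion_fintype hAm hAd (fun l => hDI.mono_set (hASh l))
    have hvol : ∑ l, (volume (A l)).toReal ≤ vS := by
      rw [← ENNReal.toReal_sum (fun l _ => (hAfin l).ne)]
      apply ENNReal.toReal_mono hShf.ne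
      rw [← tsum_fintype (L := .unconditional _), ← measure_iUnion hAd hAm, hAu]
      exact measure_mono sdiff_subset
    rw [h1]
    calc ∑ l, ∫ y in A l, Dint (netD M ε V) r y ≤ ∑ l, (σ r * (∑ k, ∫ y in A l, |(L (yl l)).T k y|) +
          2 * (σ r * (η / (vS + 1))) * (volume (A l)).toReal) := Finset.sum_le_sum (fun l _ => hloc l)
      _ = σ r * (∑ l, ∑ k, ∫ y in A l, |(L (yl l)).T k y|) + 2 * (σ r * (η / (vS + 1))) * ∑ l, (volume (A l)).toReal := by
          rw [Finset.sum_add_distrib, Finset.mul_sum, Finset.mul_sum]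
      _ ≤ σ r * (6 * Hs) + 2 * (σ r * (η / (vS + 1))) * vS := by gcongr
      _ = σ r * (6 * Hs) + 2 * (σ r * η) * (vS / (vS + 1)) := by ring
      _ ≤ σ r * (6 * Hs) + 2 * (σ r * η) * 1 := by
          gcongr
          rw [div_le_one (by positivity)]; linarith
      _ = _ := by ring
  have hD : ∫ y in Sh, netD M ε V y ≤ (5 / 4) * (6 * Hs + 3 * η) := by
    have h1 : (4 * σ r / 5) * ∫ y in Sh, netD M ε V y ≤ σ r * (6 * Hs + 3 * η) := by
      rw [← hid, ← hsplit]; linarith
    have h2 : σ r * ((4 / 5) * ∫ y in Sh, netD M ε V y) ≤ σ r * (6 * Hs + 3 * η) := by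
      calc _ = (4 * σ r / 5) * ∫ y in Sh, netD M ε V y := by ring
        _ ≤ _ := h1
    have h3 := le_of_mul_le_mul_left h2 hσr
    linarith
  have hwid : ∫ y in Sh, width M.f y ≤ (∫ y in Sh, netD M ε V y) + 4 * ε * vS := by
    have : Nonempty S := inferInstance
    have hwI : IntegrableOn (width M.f) Sh := (width_cont M.f M.f_cont).continuousOn.integrableOn_compact hShc
    have hDI' : IntegrableOn (netD M ε V) Sh := hDc.continuousOn.integrableOn_compact hShc
    have hcI : IntegrableOn (fun _ : E3 => 4 * ε) Sh := integrableOn_const hShf.ne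
    have h1 : ∫ y in Sh, width M.f y ≤ ∫ y in Sh, (netD M ε V y + 4 * ε) := by
      apply setIntegral_mono_on hwI (hDI'.add hcI) hShm
      intro y hy
      exact hw ε hε e3 V hV y hy.2
    refine h1.trans (le_of_eq ?_)
    rw [integral_add hDI' hcI, setIntegral_const, smul_eq_mul]
    simp only [Measure.real]
    ring
  linarith

end Topping
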