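import Mathlib
import Pool.Agent.Lib.MP_bea121_gt.TC.Defs4
import Pool.Agent.Lib.MP_bea121_gt.TC.Val
import Pool.Agent.Lib.MP_bea121_gt.TC.Base
import Pool.Agent.Lib.MP_bea121_gt.TC.Level
import Pool.Agent.Lib.MP_bea121_gt.TC.Iso

/-!
# MP_bea121_gt, module SEC: second differences of the limit functional
-/

open MeasureTheory Set Metric Topology Filter
open scoped RealInnerProductSpace Gradient ContDiff Manifold

noncomputable section

namespace Topping

section Sec
variable {S : Type} [TopologicalSpace S] {M : MongeSurf S} {y₀ : E3} (D : CritData M y₀)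

theorem SEC_flip_val (k : D.N) (y : E3) : D.flip.val k (-y) = - D.val k y := by
  simp [CritData.val, CritData.flip, inner_neg_right]

theorem SEC_val_cont (k : D.N) : ContinuousOn (D.val k) (ball y₀ D.ρ) := fun y hy =>
  (val_hasGrad D k y hy).continuousAt.continuousWithinAt

theorem SEC_AΓ_cont (u v : D.Sd → D.Mx) : ContinuousOn (D.AΓ u v) (ball y₀ D.ρ) := by
  unfold CritData.AΓ
  exact continuousOn_Amin u v (ball y₀ D.ρ) (fun y (k : D.Mx) => D.val k y)
    (fun y (j : D.Sd) => D.val j y) (fun k => SEC_val_cont D k) (fun j => SEC_val_cont D j)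

theorem continuousOn_Sinf (u v : D.Sd → D.Mx) (u' v' : D.flip.Sd → D.flip.Mx) :
    ContinuousOn (D.Sinf u v u' v') (ball y₀ D.ρ) := by
  unfold CritData.Sinf
  refine (SEC_AΓ_cont D u v).add ?_
  refine (SEC_AΓ_cont D.flip u' v').comp continuous_neg.continuousOn fun y hy => ?_
  change -y ∈ ball (-y₀) D.ρ
  rw [mem_ball, dist_neg_neg]
  exact hy

/-- sum over a subtype as a sum over the whole type -/
theorem SEC_sum_sub {N : Type} [Fintype N] (P : N → Prop) [DecidablePred P] (f : N → ℝ) :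
    ∑ k : {k // P k}, f k = ∑ k, (if P k then 1 else 0) * f k := by
  rw [← Finset.sum_subtype (Finset.univ.filter P) (fun x => by simp) f, Finset.sum_filter]
  exact Finset.sum_congr rfl fun k _ => by split <;> simp

open Classical in
theorem SEC_sum_fin {N : Type} [Fintype N] (P : N → Prop) (T : Finset {k // P k}) (f : N → ℝ) :
    ∑ j ∈ T, f j = ∑ k, (if k ∈ T.map (Function.Embedding.subtype P) then 1 else 0) * f k := by
  have h1 : ∑ j ∈ T, f j = ∑ k ∈ T.map (Function.Embedding.subtype P), f k := by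
    rw [Finset.sum_map]
    rfl
  rw [h1]
  simp only [ite_mul, one_mul, zero_mul, Finset.sum_ite_mem, Finset.univ_inter]

open Classical in
/-- the coefficients of the critical values -/
def SEC_eps (T : Finset D.Sd) (T' : Finset {k : D.N // Fin.rev (D.typ k) = 1}) (k : D.N) : ℝ :=
  (if D.typ k = 0 then 1 else 0) -
    (if k ∈ T.map (Function.Embedding.subtype _) then 1 else 0) -
    (if Fin.rev (D.typ k) = 0 then 1 else 0) +
    (if k ∈ T'.map (Function.Embedding.subtype _) then 1 else 0)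

theorem SEC_eps_le (T : Finset D.Sd) (T' : Finset {k : D.N // Fin.rev (D.typ k) = 1}) (k : D.N) :
    |SEC_eps D T T' k| ≤ 1 := by
  have h1 : k ∈ T.map (Function.Embedding.subtype _) → D.typ k = 1 := by
    intro h
    rw [Finset.mem_map] at h
    obtain ⟨a, _, ha⟩ := h
    rw [← ha]
    exact a.2
  have h2 : k ∈ T'.map (Function.Embedding.subtype _) → D.typ k = 1 := by
    intro h
    rw [Finset.mem_map] at h
    obtain ⟨a, _, ha⟩ := h
    rw [← ha]
    exact rev_one a.2
  unfold SEC_eps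
  generalize D.typ k = t at h1 h2 ⊢
  have ht : t = 0 ∨ t = 1 ∨ t = 2 := by
    clear h1 h2
    revert t
    decide
  have r0 : Fin.rev (0 : Fin 3) ≠ 0 := by decide
  have r1 : Fin.rev (1 : Fin 3) ≠ 0 := by decide
  have r2 : Fin.rev (2 : Fin 3) = 0 := by decide
  rcases ht with rfl | rfl | rfl
  · have e1 : k ∉ T.map (Function.Embedding.subtype _) := fun h => absurd (h1 h) (by decide)
    have e2 : k ∉ T'.map (Function.Embedding.subtype _) := fun h => absurd (h2 h) (by decide)
    rw [if_neg e1, if_neg e2, if_neg r0]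
    norm_num
  · rw [if_neg r1, if_neg (show ¬ (1 : Fin 3) = 0 by decide)]
    split_ifs <;> norm_num
  · have e1 : k ∉ T.map (Function.Embedding.subtype _) := fun h => absurd (h1 h) (by decide)
    have e2 : k ∉ T'.map (Function.Embedding.subtype _) := fun h => absurd (h2 h) (by decide)
    rw [if_neg e1, if_neg e2, if_pos r2, if_neg (show ¬ (2 : Fin 3) = 0 by decide)]
    norm_num

theorem SEC_F (T : Finset D.Sd) (T' : Finset D.flip.Sd) (y : E3) :
    Fval T (fun k : D.Mx => D.val k y) (fun j : D.Sd => D.val j y) +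
      Fval T' (fun k : D.flip.Mx => D.flip.val k (-y)) (fun j : D.flip.Sd => D.flip.val j (-y)) =
      ∑ k, SEC_eps D T T' k * D.val k y := by
  have h1 : ∑ k : D.Mx, D.val k y = ∑ k, (if D.typ k = 0 then 1 else 0) * D.val k y :=
    SEC_sum_sub (fun k => D.typ k = 0) (fun k => D.val k y)
  have h2 := SEC_sum_fin (fun k => D.typ k = 1) T (fun k => D.val k y)
  have h3 : ∑ k : D.flip.Mx, D.flip.val k (-y) =
      ∑ k : D.N, (if Fin.rev (D.typ k) = 0 then 1 else 0) * (- D.val k y) := by
    have := SEC_sum_sub (N := D.N) (fun k => Fin.rev (D.typ k) = 0) (fun k => - D.val k y)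
    rw [← this]
    exact Finset.sum_congr rfl fun k _ => SEC_flip_val D k.1 y
  have h5 := SEC_sum_fin (N := D.N) (fun k => Fin.rev (D.typ k) = 1) T' (fun k => - D.val k y)
  have h4 := (Finset.sum_congr rfl fun j _ => SEC_flip_val D j.1 y :
    ∑ j ∈ T', D.flip.val j (-y) = ∑ j ∈ T', - D.val j.1 y).trans h5
  unfold Fval
  rw [h1, h2, h3, h4]
  simp only [SEC_eps, add_mul, sub_mul, Finset.sum_add_distrib, Finset.sum_sub_distrib, mul_neg,
    Finset.sum_neg_distrib]
  ring

/-- the competitor for the second difference -/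
theorem SEC_comp (u v : D.Sd → D.Mx) (u' v' : D.flip.Sd → D.flip.Mx) (y : E3) :
    ∃ ε : D.N → ℝ, (∀ k, |ε k| ≤ 1) ∧ (∀ y', D.Sinf u v u' v' y' ≤ ∑ k, ε k * D.val k y') ∧
      D.Sinf u v u' v' y = ∑ k, ε k * D.val k y := by
  obtain ⟨T, hT, hT1, _⟩ := exists_opt u v (fun k : D.Mx => D.val k y) (fun j : D.Sd => D.val j y)
  obtain ⟨T', hT', hT1', _⟩ := exists_opt u' v' (fun k : D.flip.Mx => D.flip.val k (-y))
    (fun j : D.flip.Sd => D.flip.val j (-y))
  refine ⟨SEC_eps D T T', SEC_eps_le D T T', fun y' => ?_, ?_⟩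
  · rw [← SEC_F]
    exact add_le_add (Amin_le u v hT _ _) (Amin_le u' v' hT' _ _)
  · rw [← SEC_F, hT1, hT1']
    rfl

theorem second_good (u v : D.Sd → D.Mx) (u' v' : D.flip.Sd → D.flip.Mx)
    (η : ℝ) (hη : 0 < η) : ∃ r₀ > 0, ∀ r, 0 < r → r < r₀ → ∀ y ∈ ball y₀ (D.ρ / 2),
      ∫ w in ball (0 : E3) r, (D.Sinf u v u' v' (y + w) + D.Sinf u v u' v' (y - w) - 2 * D.Sinf u v u' v' y) ≤
        σ r * ((∑ k : D.N, |LinearMap.trace ℝ E3 (fderiv ℝ (D.X k) y : E3 →ₗ[ℝ] E3)|) + η) := by
  set n : ℝ := (Fintype.card D.N : ℝ) with hn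
  have hn0 : 0 ≤ n := Nat.cast_nonneg _
  set η' : ℝ := η / (3 * n + 1) with hη'
  have hη'0 : 0 < η' := by positivity
  obtain ⟨r₀, hr₀, hr₀ρ, hval⟩ := second_val D η' hη'0
  refine ⟨r₀, hr₀, fun r hr hrr y hy => ?_⟩
  obtain ⟨ε, hε, hle, heq⟩ := SEC_comp D u v u' v' y
  set A : D.N → (E3 →L[ℝ] E3) := fun k => fderiv ℝ (D.X k) y with hA
  have hball : ∀ w : E3, ‖w‖ ≤ r → y + w ∈ ball y₀ D.ρ ∧ y - w ∈ ball y₀ D.ρ := by
    intro w hw
    rw [mem_ball, dist_eq_norm] at hy
    constructor
    · rw [mem_ball, dist_eq_norm]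
      calc ‖y + w - y₀‖ = ‖(y - y₀) + w‖ := by congr 1; abel
        _ ≤ ‖y - y₀‖ + ‖w‖ := norm_add_le _ _
        _ < D.ρ := by linarith
    · rw [mem_ball, dist_eq_norm]
      calc ‖y - w - y₀‖ = ‖(y - y₀) - w‖ := by congr 1; abel
        _ ≤ ‖y - y₀‖ + ‖w‖ := norm_sub_le _ _
        _ < D.ρ := by linarith
  -- the pointwise bound
  have hpt : ∀ w ∈ ball (0 : E3) r, D.Sinf u v u' v' (y + w) + D.Sinf u v u' v' (y - w) -
      2 * D.Sinf u v u' v' y ≤ (∑ k, ε k * ⟪A k w, w⟫) + n * η' * ⟪(ContinuousLinearMap.id ℝ E3) w, w⟫ := by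
    intro w hw
    rw [mem_ball, dist_zero_right] at hw
    have h1 := hle (y + w)
    have h2 := hle (y - w)
    have h3 : ∀ k, ε k * (D.val k (y + w) + D.val k (y - w) - 2 * D.val k y) ≤
        ε k * ⟪A k w, w⟫ + η' * ‖w‖ ^ 2 := by
      intro k
      have h4 := hval k y hy w (hw.trans hrr)
      have h5 : ε k * (D.val k (y + w) + D.val k (y - w) - 2 * D.val k y) - ε k * ⟪A k w, w⟫ ≤
          η' * ‖w‖ ^ 2 := by
        calc ε k * (D.val k (y + w) + D.val k (y - w) - 2 * D.val k y) - ε k * ⟪A k w, w⟫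
            = ε k * (D.val k (y + w) + D.val k (y - w) - 2 * D.val k y - ⟪A k w, w⟫) := by ring
          _ ≤ |ε k * (D.val k (y + w) + D.val k (y - w) - 2 * D.val k y - ⟪A k w, w⟫)| :=
              le_abs_self _
          _ = |ε k| * |D.val k (y + w) + D.val k (y - w) - 2 * D.val k y - ⟪A k w, w⟫| :=
              abs_mul _ _
          _ ≤ 1 * (η' * ‖w‖ ^ 2) := mul_le_mul (hε k) h4 (abs_nonneg _) zero_le_one
          _ = _ := one_mul _
      linarith
    have h6 := Finset.sum_le_sum fun k (_ : k ∈ Finset.univ) => h3 k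
    rw [Finset.sum_add_distrib, Finset.sum_const, Finset.card_univ, nsmul_eq_mul] at h6
    have h7 : ∑ k, ε k * (D.val k (y + w) + D.val k (y - w) - 2 * D.val k y) =
        (∑ k, ε k * D.val k (y + w)) + (∑ k, ε k * D.val k (y - w)) -
          2 * ∑ k, ε k * D.val k y := by
      rw [Finset.mul_sum, ← Finset.sum_add_distrib, ← Finset.sum_sub_distrib]
      exact Finset.sum_congr rfl fun k _ => by ring
    rw [h7] at h6
    rw [heq, ContinuousLinearMap.id_apply, real_inner_self_eq_norm_sq, mul_assoc]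
    linarith
  -- integrability
  have hi1 : IntegrableOn (fun w => D.Sinf u v u' v' (y + w) + D.Sinf u v u' v' (y - w) -
      2 * D.Sinf u v u' v' y) (ball (0 : E3) r) := by
    have hc := continuousOn_Sinf D u v u' v'
    have hc1 : ContinuousOn (fun w : E3 => D.Sinf u v u' v' (y + w)) (closedBall 0 r) :=
      hc.comp (by fun_prop) fun w hw => (hball w (by simpa using hw)).1
    have hc2 : ContinuousOn (fun w : E3 => D.Sinf u v u' v' (y - w)) (closedBall 0 r) :=
      hc.comp (by fun_prop) fun w hw => (hball w (by simpa using hw)).2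
    exact (((hc1.add hc2).sub continuousOn_const).integrableOn_compact
      (isCompact_closedBall 0 r)).mono_set ball_subset_closedBall
  have hiA : ∀ B : E3 →L[ℝ] E3, IntegrableOn (fun w : E3 => ⟪B w, w⟫) (ball (0 : E3) r) := by
    intro B
    have : Continuous fun w : E3 => ⟪B w, w⟫ := B.continuous.inner continuous_id
    exact (this.continuousOn.integrableOn_compact (isCompact_closedBall 0 r)).mono_set
      ball_subset_closedBall
  have hi2 : IntegrableOn (fun w : E3 => (∑ k, ε k * ⟪A k w, w⟫) +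
      n * η' * ⟪(ContinuousLinearMap.id ℝ E3) w, w⟫) (ball (0 : E3) r) :=
    (integrable_finsetSum _ fun k _ => (hiA (A k)).const_mul (ε k)).add
      ((hiA _).const_mul (n * η'))
  have hσ : 0 < σ r := σ_pos r hr
  calc ∫ w in ball (0 : E3) r, (D.Sinf u v u' v' (y + w) + D.Sinf u v u' v' (y - w) -
        2 * D.Sinf u v u' v' y)
      ≤ ∫ w in ball (0 : E3) r, ((∑ k, ε k * ⟪A k w, w⟫) +
        n * η' * ⟪(ContinuousLinearMap.id ℝ E3) w, w⟫) :=
        setIntegral_mono_on hi1 hi2 measurableSet_ball hpt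
    _ = σ r * ((∑ k, ε k * LinearMap.trace ℝ E3 (A k : E3 →ₗ[ℝ] E3)) + 3 * n * η') := by
        rw [integral_add (integrable_finsetSum _ fun k _ => (hiA (A k)).const_mul (ε k))
          ((hiA _).const_mul (n * η')), integral_finsetSum _ fun k _ =>
          (hiA (A k)).const_mul (ε k), integral_const_mul, isotropy]
        simp only [integral_const_mul, isotropy]
        have ht : LinearMap.trace ℝ E3
            ((ContinuousLinearMap.id ℝ E3 : E3 →L[ℝ] E3) : E3 →ₗ[ℝ] E3) = 3 := by
          rw [ContinuousLinearMap.coe_id]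
          simp
        rw [ht, mul_add, Finset.mul_sum]
        congr 1
        · exact Finset.sum_congr rfl fun k _ => by ring
        · ring
    _ ≤ σ r * ((∑ k : D.N, |LinearMap.trace ℝ E3 (A k : E3 →ₗ[ℝ] E3)|) + η) := by
        refine mul_le_mul_of_nonneg_left (add_le_add (Finset.sum_le_sum fun k _ => ?_) ?_) hσ.le
        · refine (le_abs_self _).trans ?_
          rw [abs_mul]
          exact mul_le_of_le_one_left (abs_nonneg _) (hε k)
        · rw [hη', mul_div_assoc', div_le_iff₀ (by positivity)]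
          nlinarith

end Sec

end Topping
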